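import Pool.Agent.helper90.KMMP.LeviCirc

/-!
# Levi form and plurisubharmonic functions
-/

set_option linter.unusedSectionVars false
set_option linter.unusedVariables false

open scoped Topology ContDiff
open Set Filter Metric MeasureTheory

namespace Pool.Agent.helper90.KMMP

/-! ### homogeneity of the Levi form -/

section homog

variable {E : Type*} [NormedAddCommGroup E] [NormedSpace ℂ E] [CompleteSpace E]

theorem levi_smul {u : E → ℝ} {x : E} (hu : ContDiffAt ℝ 2 u x) (a : ℂ) (v : E) :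
    levi u x (a • v) = ‖a‖ ^ 2 * levi u x v := by
  have hsym : IsSymmSndFDerivAt ℝ u x := hu.isSymmSndFDerivAt (by simp)
  set H := fderiv ℝ (fderiv ℝ u) x with hH
  have hs : H v (Complex.I • v) = H (Complex.I • v) v := hsym v (Complex.I • v)
  have h1 : a • v = a.re • v + a.im • (Complex.I • v) := by
    conv_lhs => rw [← Complex.re_add_im a]
    rw [add_smul, mul_smul]
    rfl
  have h2 : Complex.I • (a • v) = a.re • (Complex.I • v) - a.im • v := by
    rw [h1, smul_add, smul_comm Complex.I a.re, smul_comm Complex.I a.im, smul_smul Complex.I,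
      Complex.I_mul_I, neg_one_smul]
    simp [sub_eq_add_neg]
  unfold levi hess
  rw [h2, h1, ← hH]
  simp only [map_add, map_sub, map_smul, add_apply, sub_apply, smul_apply, smul_eq_mul]
  rw [hs, Complex.sq_norm, Complex.normSq_apply]
  ring

theorem levi_zero_right (u : E → ℝ) (x : E) : levi u x 0 = 0 := by
  simp [levi, hess]

theorem continuousAt_levi {u : E → ℝ} {x : E} (hu : ContDiffAt ℝ 2 u x) (v : E) :
    ContinuousAt (fun p : E × E => levi u p.1 p.2) (x, v) := by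
  have h1 : ContinuousAt (fderiv ℝ (fderiv ℝ u)) x := by
    have h3 : ContDiffAt ℝ 0 (fderiv ℝ (fderiv ℝ u)) x :=
      (hu.fderiv_right (m := 1) (by norm_num)).fderiv_right (m := 0) (by norm_num)
    exact h3.continuousAt
  have h2 : ContinuousAt (fun p : E × E => fderiv ℝ (fderiv ℝ u) p.1) (x, v) :=
    ContinuousAt.comp (f := Prod.fst) (x := (x, v)) h1 continuousAt_fst
  unfold levi hess
  exact ((h2.clm_apply continuousAt_snd).clm_apply continuousAt_snd).add
    ((h2.clm_apply (continuousAt_snd.const_smul _)).clm_apply (continuousAt_snd.const_smul _))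

end homog

/-! ### holomorphic maps between open subsets of affine spaces -/

theorem analyticAt_of_holMapAt_disc {m : ℕ} {f : ℂ → (Fin m → ℂ)} {x : ℂ}
    (hf : HolMapAt f x) : AnalyticAt ℂ f x := by
  rw [analyticAt_pi_iff]
  intro i
  exact hf.2 (fun v => v i) ((ContinuousLinearMap.proj (R := ℂ) i).analyticAt (f x))

theorem holMapAt_disc_of_analyticAt {m : ℕ} {f : ℂ → (Fin m → ℂ)} {x : ℂ}
    (hf : AnalyticAt ℂ f x) : HolMapAt f x :=
  ⟨hf.continuousAt, fun g hg => AnalyticAt.fun_comp (g := g) (f := f) hg hf⟩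

/-! ### psh from the Levi form -/

theorem pshAt_of_levi {n : ℕ} {u : (Fin n → ℂ) → ℝ} {x : Fin n → ℂ}
    (hu : ContDiffAt ℝ 2 u x) (h : ∀ᶠ y in 𝓝 x, ∀ v, 0 ≤ levi u y v) :
    PshAt (fun y => (u y : EReal)) x := by
  refine ⟨{y | ContDiffAt ℝ 2 u y ∧ ∀ v, 0 ≤ levi u y v}, ?_, fun y _ => EReal.coe_lt_top _, ?_, ?_⟩
  · exact (hu.eventually (by simp)).and h
  · intro y hy
    have h1 : ContinuousAt (fun y => (u y : EReal)) y :=
      continuous_coe_real_ereal.continuousAt.comp hy.1.continuousAt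
    exact h1.upperSemicontinuousAt.upperSemicontinuousWithinAt _
  · intro c hc φ hφ hle
    have hca : ∀ t ∈ closedBall (0 : ℂ) 1, AnalyticAt ℂ c t := fun t ht =>
      analyticAt_of_holMapAt_disc (hc t ht).2
    have hg : ∀ t ∈ closedBall (0 : ℂ) 1, ContDiffAt ℝ 2 (fun t => u (c t)) t := fun t ht =>
      (hc t ht).1.1.comp t ((hca t ht).restrictScalars (𝕜 := ℝ)).contDiffAt
    have hcont : ContinuousOn (fun t => u (c t)) (closedBall 0 1) := fun t ht =>
      (hg t ht).continuousAt.continuousWithinAt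
    have h1 := le_circleAverage_of_levi (g := fun t => u (c t))
      (fun z hz => hg z (ball_subset_closedBall hz)) hcont (fun z hz v => by
        rw [levi_comp (hc z (ball_subset_closedBall hz)).1.1 (hca z (ball_subset_closedBall hz))]
        exact (hc z (ball_subset_closedBall hz)).1.2 _)
    rw [EReal.coe_le_coe_iff]
    refine h1.trans ?_
    refine Real.circleAverage_mono ?_ ?_ ?_
    · exact (hcont.mono sphere_subset_closedBall).circleIntegrable (by norm_num)
    · exact hφ.circleIntegrable (by norm_num)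
    · intro t ht
      have h2 : (u (c t) : EReal) ≤ (φ t : EReal) := hle t (by simpa using ht)
      exact_mod_cast h2

/-! ### basic Levi forms -/

theorem levi_normSq (z w : ℂ) : levi (fun z : ℂ => ‖z‖ ^ 2) z w = 4 * ‖w‖ ^ 2 := by
  have hc : ContDiff ℝ 2 fun z : ℂ => ‖z‖ ^ 2 := contDiff_norm_sq ℝ
  rw [levi_eq_deriv hc.contDiffAt]
  have key : ∀ a : ℂ, deriv (deriv fun s : ℝ => ‖z + ((s : ℂ) * a) • w‖ ^ 2) 0 =
      2 * ‖a * w‖ ^ 2 := by
    intro a
    have h1 : (fun s : ℝ => ‖z + ((s : ℂ) * a) • w‖ ^ 2) = fun s : ℝ =>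
        ‖z‖ ^ 2 + s * (2 * (z.re * (a * w).re + z.im * (a * w).im)) + s ^ 2 * ‖a * w‖ ^ 2 := by
      ext s
      have h2 : z + ((s : ℂ) * a) • w = z + (s : ℂ) * (a * w) := by rw [smul_eq_mul]; ring
      rw [h2]
      simp only [Complex.sq_norm, Complex.normSq_apply, Complex.add_re, Complex.add_im,
        Complex.re_ofReal_mul, Complex.im_ofReal_mul]
      ring
    have h2 : ∀ b c d : ℝ, deriv (fun s : ℝ => b + s * c + s ^ 2 * d) = fun s => c + 2 * s * d := by
      intro b c d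
      ext s
      have h3 : HasDerivAt (fun s : ℝ => b + s * c + s ^ 2 * d)
          (0 + 1 * c + (2 * s) * d) s := by
        have h4 : HasDerivAt (fun s : ℝ => s ^ 2) (2 * s) s := by
          simpa using hasDerivAt_pow 2 s
        exact (((hasDerivAt_const s b).add ((hasDerivAt_id s).mul_const c))).add (h4.mul_const d)
      rw [h3.deriv]; ring
    have h3 : ∀ c d : ℝ, deriv (fun s : ℝ => c + 2 * s * d) 0 = 2 * d := by
      intro c d
      have h4 : HasDerivAt (fun s : ℝ => c + 2 * s * d) (0 + 2 * 1 * d) 0 :=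
        (hasDerivAt_const 0 c).add (((hasDerivAt_id (0 : ℝ)).const_mul 2).mul_const d)
      rw [h4.deriv]; ring
    rw [h1, h2, h3]
  rw [key, key]
  simp only [norm_mul, Complex.norm_I, one_mul, norm_one]
  ring

section basic

variable {E : Type*} [NormedAddCommGroup E] [NormedSpace ℂ E] [CompleteSpace E]

theorem contDiffAt_normSq_comp {f : E → ℂ} {x : E} (hf : AnalyticAt ℂ f x) {n : WithTop ℕ∞} :
    ContDiffAt ℝ n (fun y => ‖f y‖ ^ 2) x :=
  ((contDiff_norm_sq ℝ).contDiffAt).comp x (hf.restrictScalars (𝕜 := ℝ)).contDiffAt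

theorem levi_normSq_comp {f : E → ℂ} {x : E} (hf : AnalyticAt ℂ f x) (v : E) :
    levi (fun y => ‖f y‖ ^ 2) x v = 4 * ‖fderiv ℂ f x v‖ ^ 2 := by
  rw [levi_comp (u := fun z : ℂ => ‖z‖ ^ 2) ((contDiff_norm_sq ℝ).contDiffAt) hf, levi_normSq]

theorem contDiffAt_re_comp {f : E → ℂ} {x : E} (hf : AnalyticAt ℂ f x) {n : WithTop ℕ∞} :
    ContDiffAt ℝ n (fun y => (f y).re) x :=
  (Complex.reCLM.contDiff.contDiffAt).comp x (hf.restrictScalars (𝕜 := ℝ)).contDiffAt

theorem levi_re_comp {f : E → ℂ} {x : E} (hf : AnalyticAt ℂ f x) (v : E) :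
    levi (fun y => (f y).re) x v = 0 := by
  rw [levi_comp (u := fun z : ℂ => z.re) (Complex.reCLM.contDiff.contDiffAt) hf]
  have h1 : fderiv ℝ (fun z : ℂ => z.re) = fun _ => Complex.reCLM := by
    ext z : 1
    exact Complex.reCLM.fderiv
  simp [levi, hess, h1]

theorem levi_sum {ι : Type*} {s : Finset ι} {u : ι → E → ℝ} {x : E}
    (hu : ∀ i ∈ s, ContDiffAt ℝ 2 (u i) x) (v : E) :
    levi (fun y => ∑ i ∈ s, u i y) x v = ∑ i ∈ s, levi (u i) x v := by
  classical
  induction s using Finset.induction_on with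
  | empty => simp [levi, hess]
  | insert a s ha ih =>
    simp only [Finset.sum_insert ha]
    rw [levi_add (hu a (by simp)) (ContDiffAt.sum fun i hi => hu i (by simp [hi])),
      ih fun i hi => hu i (by simp [hi])]

/-- Levi form of the composition with a real function -/
theorem levi_real_comp {s : E → ℝ} {ψ : ℝ → ℝ} {x : E} (hs : ContDiffAt ℝ 2 s x)
    (hψ : ContDiffAt ℝ 2 ψ (s x)) (v : E) :
    levi (fun y => ψ (s y)) x v = deriv ψ (s x) * levi s x v +
      deriv (deriv ψ) (s x) * ((fderiv ℝ s x v) ^ 2 + (fderiv ℝ s x (Complex.I • v)) ^ 2) := by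
  have key : ∀ w : E, hess (fun y => ψ (s y)) x w = deriv ψ (s x) * hess s x w +
      deriv (deriv ψ) (s x) * (fderiv ℝ s x w) ^ 2 := by
    intro w
    have h1 : fderiv ℝ (fun y => ψ (s y)) =ᶠ[𝓝 x] fun y => deriv ψ (s y) • fderiv ℝ s y := by
      filter_upwards [eventually_differentiableAt hs,
        hs.continuousAt.eventually (eventually_differentiableAt hψ)] with y h1 h2
      exact (h2.hasDerivAt.comp_hasFDerivAt y h1.hasFDerivAt).fderiv
    have h3 : ContDiffAt ℝ 1 (deriv ψ) (s x) := by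
      have h4 : ContDiffAt ℝ 1 (fun t => fderiv ℝ ψ t 1) (s x) :=
        (hψ.fderiv_right (m := 1) (by norm_num)).clm_apply contDiffAt_const
      exact h4
    have h4 : HasFDerivAt (fun y => deriv ψ (s y)) (deriv (deriv ψ) (s x) • fderiv ℝ s x) x :=
      (h3.differentiableAt (by norm_num)).hasDerivAt.comp_hasFDerivAt x
        (hs.differentiableAt (by norm_num)).hasFDerivAt
    have h5 := h4.fun_smul (differentiableAt_fderiv hs).hasFDerivAt
    unfold hess
    rw [h1.fderiv_eq, h5.fderiv]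
    simp only [add_apply, smul_apply, ContinuousLinearMap.smulRight_apply, smul_eq_mul]
    ring
  unfold levi
  rw [key, key]
  ring

end basic

theorem contDiff_sumSq {n : ℕ} {m : WithTop ℕ∞} :
    ContDiff ℝ m fun v : Fin n → ℂ => ∑ i, ‖v i‖ ^ 2 := by
  refine ContDiff.sum fun i _ => ?_
  have h1 : ContDiff ℝ m fun v : Fin n → ℂ => v i := contDiff_apply ℝ ℂ i
  exact (contDiff_norm_sq ℝ).comp h1

theorem levi_sumSq {n : ℕ} (x v : Fin n → ℂ) :
    levi (fun v : Fin n → ℂ => ∑ i, ‖v i‖ ^ 2) x v = 4 * ∑ i, ‖v i‖ ^ 2 := by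
  rw [levi_sum (fun i _ => ?_)]
  · rw [Finset.mul_sum]
    refine Finset.sum_congr rfl fun i _ => ?_
    have h1 : AnalyticAt ℂ (fun v : Fin n → ℂ => v i) x :=
      (ContinuousLinearMap.proj (R := ℂ) i).analyticAt x
    rw [levi_normSq_comp h1]
    have h2 : fderiv ℂ (fun v : Fin n → ℂ => v i) x =
        ContinuousLinearMap.proj (R := ℂ) (φ := fun _ => ℂ) i :=
      (ContinuousLinearMap.proj (R := ℂ) (φ := fun _ => ℂ) i).fderiv
    rw [h2]
    simp
  · have h1 : ContDiff ℝ 2 fun v : Fin n → ℂ => v i := contDiff_apply ℝ ℂ i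
    exact ((contDiff_norm_sq ℝ).comp h1).contDiffAt

/-! ### strict version -/

theorem exists_delta_of_levi_pos {n : ℕ} {u : (Fin n → ℂ) → ℝ} {x : Fin n → ℂ}
    (hu : ContDiffAt ℝ 2 u x) (h : ∀ v, v ≠ 0 → 0 < levi u x v) :
    ∃ δ : ℝ, 0 < δ ∧ PshAt (fun v => ((u v - δ * ∑ i, ‖v i‖ ^ 2 : ℝ) : EReal)) x := by
  set S : Set (Fin n → ℂ) := sphere 0 1 with hS
  have hcomp : IsCompact S := isCompact_sphere 0 1
  obtain ⟨δ, hδ, hδS⟩ : ∃ δ : ℝ, 0 < δ ∧ ∀ v ∈ S, δ * (4 * ∑ i, ‖v i‖ ^ 2) < levi u x v := by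
    rcases S.eq_empty_or_nonempty with he | hne
    · exact ⟨1, one_pos, by rw [he]; simp⟩
    · have hcont : ContinuousOn (fun v => levi u x v) S := by
        intro v hv
        have h1 := continuousAt_levi hu v
        have h2 : ContinuousAt (fun v : Fin n → ℂ => ((x, v) : _ × _)) v := by fun_prop
        exact (ContinuousAt.comp (f := fun v : Fin n → ℂ => ((x, v) : _ × _)) h1 h2).continuousWithinAt
      obtain ⟨v₀, hv₀, hmin⟩ := hcomp.exists_isMinOn hne hcont
      have hv₀0 : v₀ ≠ 0 := by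
        intro h0
        rw [hS, h0] at hv₀
        simp at hv₀
      have hpos := h v₀ hv₀0
      have hc : (0 : ℝ) ≤ n := Nat.cast_nonneg n
      refine ⟨levi u x v₀ / (8 * (n + 1)), by positivity, fun v hv => ?_⟩
      have h1 : levi u x v₀ ≤ levi u x v := hmin hv
      have h2 : ∑ i, ‖v i‖ ^ 2 ≤ n := by
        calc ∑ i, ‖v i‖ ^ 2 ≤ ∑ i : Fin n, (1 : ℝ) := by
              refine Finset.sum_le_sum fun i _ => ?_
              have h3 : ‖v i‖ ≤ 1 := by
                have := norm_le_pi_norm v i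
                rw [hS, mem_sphere_zero_iff_norm] at hv
                rwa [hv] at this
              nlinarith [norm_nonneg (v i)]
          _ = n := by simp
      calc levi u x v₀ / (8 * (n + 1)) * (4 * ∑ i, ‖v i‖ ^ 2)
          ≤ levi u x v₀ / (8 * (n + 1)) * (4 * n) := by gcongr
        _ < levi u x v₀ := by
            rw [div_mul_eq_mul_div, div_lt_iff₀ (by positivity)]
            nlinarith
        _ ≤ _ := h1
  refine ⟨δ, hδ, ?_⟩
  have hsq : ∀ y : Fin n → ℂ, ContDiffAt ℝ 2 (fun v : Fin n → ℂ => δ * ∑ i, ‖v i‖ ^ 2) y := fun y =>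
    (contDiff_const.mul contDiff_sumSq).contDiffAt
  refine pshAt_of_levi (hu.sub (hsq x)) ?_
  have h1 : ∀ᶠ y in 𝓝 x, ∀ v ∈ S, δ * (4 * ∑ i, ‖v i‖ ^ 2) < levi u y v := by
    refine hcomp.eventually_forall_of_forall_eventually fun v hv => ?_
    have h2 := continuousAt_levi hu v
    have h3 : ContinuousAt (fun p : (Fin n → ℂ) × (Fin n → ℂ) => δ * (4 * ∑ i, ‖p.2 i‖ ^ 2))
        (x, v) := by fun_prop
    exact h3.eventually_lt h2 (hδS v hv)
  filter_upwards [h1, hu.eventually (by simp)] with y hy hyc v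
  rw [levi_sub hyc (hsq y), levi_const_mul δ contDiff_sumSq.contDiffAt, levi_sumSq]
  rcases eq_or_ne v 0 with rfl | hv
  · rw [levi_zero_right]; simp
  · have hvn : 0 < ‖v‖ := norm_pos_iff.2 hv
    have h2 := hy (((‖v‖⁻¹ : ℝ) : ℂ) • v) (by
      rw [hS, mem_sphere_zero_iff_norm, norm_smul, Complex.norm_real, norm_inv, norm_norm,
        inv_mul_cancel₀ hvn.ne'])
    rw [levi_smul hyc, Complex.norm_real, norm_inv, norm_norm] at h2
    have h3 : ∑ i, ‖(((‖v‖⁻¹ : ℝ) : ℂ) • v) i‖ ^ 2 = (‖v‖⁻¹) ^ 2 * ∑ i, ‖v i‖ ^ 2 := by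
      rw [Finset.mul_sum]
      refine Finset.sum_congr rfl fun i _ => ?_
      rw [Pi.smul_apply, norm_smul, Complex.norm_real, norm_inv, norm_norm, mul_pow]
    rw [h3] at h2
    have h4 : (0 : ℝ) < (‖v‖⁻¹) ^ 2 := by positivity
    have h5 : (‖v‖⁻¹) ^ 2 * (δ * (4 * ∑ i, ‖v i‖ ^ 2)) < (‖v‖⁻¹) ^ 2 * levi u y v := by linarith
    have h6 := lt_of_mul_lt_mul_left h5 h4.le
    linarith

/-- On `ℂ^N` the Levi form of a smooth psh function is nonnegative. -/
theorem levi_nonneg_of_pshAt {n : ℕ} {u : (Fin n → ℂ) → ℝ} {x : Fin n → ℂ}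
    (hu : ContDiffAt ℝ 2 u x) (h : PshAt (fun y => (u y : EReal)) x) (v : Fin n → ℂ) :
    0 ≤ levi u x v := by
  by_contra hcon
  rw [not_le] at hcon
  set η : ℝ := -levi u x v / 4 with hη
  have hηpos : 0 < η := by rw [hη]; linarith
  obtain ⟨U, hU, -, -, hdisc⟩ := h
  let g : ℂ → ℝ := fun ζ => u (x + ζ • v)
  have hline : ∀ ζ : ℂ, AnalyticAt ℂ (fun ζ : ℂ => x + ζ • v) ζ := fun ζ => by fun_prop
  have hg0 : ContDiffAt ℝ 2 g 0 := by
    have h1 : ContDiffAt ℝ 2 u (x + (0 : ℂ) • v) := by simpa using hu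
    exact h1.comp (0 : ℂ) ((hline 0).restrictScalars (𝕜 := ℝ)).contDiffAt
  have hlg : levi g 0 1 = -(4 * η) := by
    have h1 := levi_comp (u := u) (f := fun ζ : ℂ => x + ζ • v) (x := 0) (by simpa using hu)
      (hline 0) 1
    have h2 : fderiv ℂ (fun ζ : ℂ => x + ζ • v) 0 1 = v := by
      have h3 : HasDerivAt (fun ζ : ℂ => x + ζ • v) ((1 : ℂ) • v) 0 :=
        ((hasDerivAt_id (0 : ℂ)).smul_const v).const_add x
      have h4 := h3.deriv
      rw [one_smul] at h4
      exact h4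
    rw [h2] at h1
    simp only [zero_smul, add_zero] at h1
    rw [hη]
    change levi (fun ζ => u (x + ζ • v)) 0 1 = _
    rw [h1]; ring
  let k : ℂ → ℝ := fun ζ => -g ζ - η / 2 * ‖ζ‖ ^ 2
  have hk : ∀ ζ, ContDiffAt ℝ 2 g ζ → ContDiffAt ℝ 2 k ζ := fun ζ hζ =>
    hζ.neg.sub (contDiffAt_const.mul (contDiff_norm_sq ℝ).contDiffAt)
  have hlk : 0 < levi k 0 1 := by
    have h1 : levi k 0 1 = levi (fun ζ : ℂ => (-1) * g ζ) 0 1 -
        levi (fun ζ : ℂ => η / 2 * ‖ζ‖ ^ 2) 0 1 := by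
      rw [← levi_sub (contDiffAt_const.mul hg0)
        (contDiffAt_const.mul (contDiff_norm_sq ℝ).contDiffAt)]
      congr 1
      ext ζ
      simp [k]
    rw [h1, levi_const_mul _ hg0, levi_const_mul _ (contDiff_norm_sq ℝ).contDiffAt, levi_normSq,
      hlg]
    simp
    linarith
  have hev : ∀ᶠ ζ in 𝓝 (0 : ℂ), ContDiffAt ℝ 2 g ζ ∧ 0 < levi k ζ 1 ∧ x + ζ • v ∈ U := by
    refine (hg0.eventually (by simp)).and (Filter.Eventually.and ?_ ?_)
    · have h1 := continuousAt_levi (hk 0 hg0) (1 : ℂ)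
      have h2 : ContinuousAt (fun ζ : ℂ => ((ζ, 1) : ℂ × ℂ)) 0 := by fun_prop
      have h3 : ContinuousAt (fun ζ : ℂ => levi k ζ 1) 0 :=
        ContinuousAt.comp (f := fun ζ : ℂ => ((ζ, 1) : ℂ × ℂ)) h1 h2
      exact h3.eventually (lt_mem_nhds hlk)
    · have h2 : ContinuousAt (fun ζ : ℂ => x + ζ • v) 0 := by fun_prop
      have h3 : U ∈ 𝓝 (x + (0 : ℂ) • v) := by simpa using hU
      exact h2.eventually h3
  obtain ⟨r, hr, hball⟩ := Metric.eventually_nhds_iff_ball.1 hev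
  set ρ : ℝ := r / 2 with hρ
  have hρ0 : 0 < ρ := by positivity
  have hmem : ∀ ζ ∈ closedBall (0 : ℂ) 1, (ρ : ℂ) * ζ ∈ ball (0 : ℂ) r := by
    intro ζ hζ
    rw [mem_ball_zero_iff, norm_mul, Complex.norm_real, Real.norm_eq_abs, abs_of_pos hρ0]
    rw [mem_closedBall_zero_iff] at hζ
    nlinarith [norm_nonneg ζ]
  have hρline : ∀ ζ : ℂ, AnalyticAt ℂ (fun ζ : ℂ => (ρ : ℂ) * ζ) ζ := fun ζ => by fun_prop
  -- psh inequality
  have hgc : ContinuousOn (fun ζ : ℂ => g ((ρ : ℂ) * ζ)) (closedBall 0 1) := by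
    intro ζ hζ
    have h1 := (hball _ (hmem ζ hζ)).1.continuousAt
    have h2 : ContinuousAt (fun ζ : ℂ => (ρ : ℂ) * ζ) ζ := by fun_prop
    exact (ContinuousAt.comp (f := fun ζ : ℂ => (ρ : ℂ) * ζ) h1 h2).continuousWithinAt
  have h1 := hdisc (fun ζ => x + ((ρ : ℂ) * ζ) • v) (fun ζ hζ =>
    ⟨(hball _ (hmem ζ hζ)).2.2, holMapAt_disc_of_analyticAt (by fun_prop)⟩)
    (fun ζ => g ((ρ : ℂ) * ζ)) (hgc.mono sphere_subset_closedBall) (fun t _ => le_rfl)
  rw [EReal.coe_le_coe_iff] at h1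
  simp only [mul_zero, zero_smul, add_zero] at h1
  -- opposite inequality
  have h2 := le_circleAverage_of_levi (g := fun ζ => k ((ρ : ℂ) * ζ))
    (fun ζ hζ => by
      have h3 := hk _ (hball _ (hmem ζ (ball_subset_closedBall hζ))).1
      exact h3.comp ζ ((hρline ζ).restrictScalars (𝕜 := ℝ)).contDiffAt)
    (fun ζ hζ => by
      have h3 := (hk _ (hball _ (hmem ζ hζ)).1).continuousAt
      have h4 : ContinuousAt (fun ζ : ℂ => (ρ : ℂ) * ζ) ζ := by fun_prop
      exact (ContinuousAt.comp (f := fun ζ : ℂ => (ρ : ℂ) * ζ) h3 h4).continuousWithinAt)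
    (fun ζ hζ w => by
      have h3 := hk _ (hball _ (hmem ζ (ball_subset_closedBall hζ))).1
      rw [levi_comp (f := fun ζ : ℂ => (ρ : ℂ) * ζ) h3 (hρline ζ)]
      have h4 : ∀ w : ℂ, levi k ((ρ : ℂ) * ζ) w = ‖w‖ ^ 2 * levi k ((ρ : ℂ) * ζ) 1 := fun w => by
        have := levi_smul h3 w 1
        simpa using this
      rw [h4]
      exact mul_nonneg (by positivity) (hball _ (hmem ζ (ball_subset_closedBall hζ))).2.1.le)
  have h3 : Real.circleAverage (fun ζ => k ((ρ : ℂ) * ζ)) 0 1 =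
      -Real.circleAverage (fun ζ : ℂ => g ((ρ : ℂ) * ζ)) 0 1 - η / 2 * ρ ^ 2 := by
    have h4 : Real.circleAverage (fun ζ => k ((ρ : ℂ) * ζ)) 0 1 =
        Real.circleAverage ((fun ζ : ℂ => (-1 : ℝ) • g ((ρ : ℂ) * ζ)) +
          fun _ : ℂ => (-(η / 2 * ρ ^ 2) : ℝ)) 0 1 := by
      refine Real.circleAverage_congr_sphere fun ζ hζ => ?_
      rw [abs_one, mem_sphere_zero_iff_norm] at hζ
      simp only [k, Pi.add_apply, norm_mul, Complex.norm_real, Real.norm_eq_abs,
        abs_of_pos hρ0, hζ, smul_eq_mul]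
      ring
    have h5 : CircleIntegrable (fun ζ : ℂ => (-1 : ℝ) • g ((ρ : ℂ) * ζ)) 0 1 := by
      refine ContinuousOn.circleIntegrable (by norm_num) ?_
      exact ((hgc.mono sphere_subset_closedBall).const_smul (-1 : ℝ))
    rw [h4, Real.circleAverage_add h5 (by simp), Real.circleAverage_const,
      Real.circleAverage_fun_smul]
    simp
    ring
  rw [h3] at h2
  simp only [mul_zero, k, norm_zero] at h2
  have h4 : g 0 = u x := by simp [g]
  rw [h4] at h2
  have h5 : 0 < η / 2 * ρ ^ 2 := by positivity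
  norm_num at h2
  linarith

end Pool.Agent.helper90.KMMP
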