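import Pool.Agent.helper90.KMMP.Defs

/-!
# Charts of `ℂ` and `ℂ^n`
-/

open scoped Topology ContDiff
open Set Filter Metric

namespace Pool.Agent.helper90.KMMP

theorem isComplexManifold_Cn (n : ℕ) : IsComplexManifold (Fin n → ℂ) n := by
  intro x
  refine ⟨OpenPartialHomeomorph.refl _, ?_, mem_univ x⟩
  intro y _ f
  rfl

/-- the chart of `ℂ` with values in `ℂ¹` -/
theorem isComplexManifold_C : IsComplexManifold ℂ 1 := by
  intro x
  let e : ℂ ≃ₜ (Fin 1 → ℂ) := (Homeomorph.funUnique (Fin 1) ℂ).symm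
  refine ⟨e.toOpenPartialHomeomorph, ?_, mem_univ x⟩
  intro y _ f
  have h1 : ∀ v : Fin 1 → ℂ, e.symm v = v 0 := fun v => rfl
  have h2 : ∀ t : ℂ, e t = fun _ => t := fun t => rfl
  constructor
  · intro hf
    have hf' : AnalyticAt ℂ f ((fun v : Fin 1 → ℂ => v 0) (e y)) := hf
    exact AnalyticAt.comp (g := f) hf'
      ((ContinuousLinearMap.proj (R := ℂ) (φ := fun _ : Fin 1 => ℂ) (0 : Fin 1) :
        (Fin 1 → ℂ) →L[ℂ] ℂ).analyticAt (e y))
  · intro hf
    have hf' : AnalyticAt ℂ (fun v : Fin 1 → ℂ => f (v 0)) ((fun t : ℂ => (fun _ : Fin 1 => t)) y) := hf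
    have := hf'.comp
      (((ContinuousLinearMap.pi (fun _ : Fin 1 => ContinuousLinearMap.id ℂ ℂ))).analyticAt y)
    exact this

end Pool.Agent.helper90.KMMP
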