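import Pool.Agent.helper90.KMMP.Psh

/-!
# Simple normal crossing divisors: charts, generic points, gluing of quasi-logarithmic functions
-/

open scoped Topology ContDiff
open Set Filter Metric

namespace Pool.Agent.helper90.KMMP

/-! ### generic points of simple normal crossing divisors -/

theorem SNC.near' {n : ℕ} {J X : Type} [TopologicalSpace X] [HolSpace X] [Finite J]
    (P : SNC n J X) (x : X) :
    ∃ (e : OpenPartialHomeomorph X (Fin n → ℂ)) (k : J → Fin n),
    IsHolChart e ∧ x ∈ e.source ∧ InjOn k {j | x ∈ P.D j} ∧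
      (∀ᶠ v in 𝓝 (e x), v ∈ e.target ∧ ∀ j, (e.symm v ∈ P.D j ↔ (x ∈ P.D j ∧ v (k j) = 0))) ∧
      ∀ j, x ∈ P.D j → ∀ᶠ v in 𝓝 (e x), P.eq j x (e.symm v) = v (k j) := by
  obtain ⟨e, k, he, hx, hk, heq⟩ := P.snc x
  have h2 : Tendsto e.symm (𝓝 (e x)) (𝓝 x) := by
    have := e.continuousAt_symm (e.map_source hx)
    unfold ContinuousAt at this
    rwa [e.left_inv hx] at this
  refine ⟨e, k, he, hx, hk, ?_, ?_⟩
  · have h1 : ∀ᶠ y in 𝓝 x, ∀ j, (y ∈ P.D j ↔ (x ∈ P.D j ∧ e y (k j) = 0)) := by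
      rw [eventually_all]
      intro j
      by_cases hj : x ∈ P.D j
      · filter_upwards [P.mem_iff j x, heq j hj] with y h1 h2
        rw [h1, h2]
        simp [hj]
      · filter_upwards [(P.isClosed j).isOpen_compl.mem_nhds hj] with y hy
        simp only [hj, false_and, iff_false]
        exact hy
    filter_upwards [e.open_target.mem_nhds (e.map_source hx), h2.eventually h1] with v hv h
    refine ⟨hv, fun j => ?_⟩
    rw [h j, e.right_inv hv]
  · intro j hj
    filter_upwards [e.open_target.mem_nhds (e.map_source hx), h2.eventually (heq j hj)] with v hv h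
    rw [h, e.right_inv hv]

theorem SNC.near {n : ℕ} {J X : Type} [TopologicalSpace X] [HolSpace X] [Finite J]
    (P : SNC n J X) (x : X) :
    ∃ (e : OpenPartialHomeomorph X (Fin n → ℂ)) (k : J → Fin n),
    IsHolChart e ∧ x ∈ e.source ∧ InjOn k {j | x ∈ P.D j} ∧
      (∀ᶠ v in 𝓝 (e x), v ∈ e.target ∧ ∀ j, (e.symm v ∈ P.D j ↔ (x ∈ P.D j ∧ v (k j) = 0))) := by
  obtain ⟨e, k, he, hx, hk, h1, -⟩ := P.near' x
  exact ⟨e, k, he, hx, hk, h1⟩

/-- the complement of a snc divisor is dense -/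
theorem SNC.dense_compl' {n : ℕ} {J X : Type} [TopologicalSpace X] [HolSpace X] [Finite J]
    (P : SNC n J X) : Dense {x | ∀ i, x ∉ P.D i} := by
  intro x
  rw [mem_closure_iff_frequently]
  obtain ⟨e, k, he, hx, hk, hev⟩ := P.near x
  -- points with all coordinates nonzero are frequent near `e x`
  have h0 : ∀ j, x ∈ P.D j → e x (k j) = 0 := by
    intro j hj
    have := (hev.self_of_nhds.2 j).1 (by rw [e.left_inv hx]; exact hj)
    exact this.2
  have hc : Tendsto (fun t : ℂ => (e x + fun _ => t : Fin n → ℂ)) (𝓝[≠] 0) (𝓝 (e x)) := by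
    have h1 : ContinuousAt (fun t : ℂ => (e x + fun _ => t : Fin n → ℂ)) 0 := by fun_prop
    have h2 : (e x + fun _ => (0 : ℂ)) = e x := by ext i; simp
    have h3 := h1.tendsto
    simp only [h2] at h3
    exact h3.mono_left nhdsWithin_le_nhds
  have h2 : Tendsto e.symm (𝓝 (e x)) (𝓝 x) := by
    have := e.continuousAt_symm (e.map_source hx)
    unfold ContinuousAt at this
    rwa [e.left_inv hx] at this
  have hmain : ∀ᶠ t : ℂ in 𝓝[≠] 0, e.symm (e x + fun _ => t) ∈ {x | ∀ i, x ∉ P.D i} := by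
    filter_upwards [hc.eventually hev, self_mem_nhdsWithin] with t ht ht0
    intro i hi
    obtain ⟨h3, h4⟩ := (ht.2 i).1 hi
    simp [h0 i h3] at h4
    exact ht0 h4
  exact (h2.comp hc).frequently hmain.frequently

/-- generic points of one component -/
theorem SNC.exists_generic {n : ℕ} {J X : Type} [TopologicalSpace X] [HolSpace X] [Finite J]
    (P : SNC n J X) (i₀ : J) : ∃ x ∈ P.D i₀, ∀ i, i ≠ i₀ → x ∉ P.D i := by
  obtain ⟨x, hx⟩ := (P.isConnected i₀).nonempty
  obtain ⟨e, k, he, hxs, hk, hev⟩ := P.near x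
  have h0 : ∀ j, x ∈ P.D j → e x (k j) = 0 := by
    intro j hj
    have := (hev.self_of_nhds.2 j).1 (by rw [e.left_inv hxs]; exact hj)
    exact this.2
  have hc : Tendsto (fun t : ℂ => (e x + fun l => if l = k i₀ then 0 else t : Fin n → ℂ))
      (𝓝[≠] 0) (𝓝 (e x)) := by
    have h1 : ContinuousAt (fun t : ℂ => (e x + fun l => if l = k i₀ then 0 else t : Fin n → ℂ))
        0 := by
      apply ContinuousAt.add continuousAt_const
      rw [continuousAt_pi]
      intro l
      by_cases hl : l = k i₀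
      · simp only [hl, if_true]; exact continuousAt_const
      · simp only [hl, if_false]; exact continuousAt_id
    have h2 : (e x + fun l => if l = k i₀ then 0 else (0 : ℂ)) = e x := by ext i; simp
    have h3 := h1.tendsto
    simp only [h2] at h3
    exact h3.mono_left nhdsWithin_le_nhds
  obtain ⟨t, ht, ht0⟩ := ((hc.eventually hev).and self_mem_nhdsWithin).exists
  refine ⟨_, (ht.2 i₀).2 ⟨hx, ?_⟩, ?_⟩
  · simp [h0 i₀ hx]
  · intro i hi hmem
    obtain ⟨h3, h4⟩ := (ht.2 i).1 hmem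
    have h5 : k i ≠ k i₀ := fun h => hi (hk h3 hx h)
    simp [h0 i h3, h5] at h4
    exact ht0 h4

/-- Gluing: the functions `ψ x + ∑ b_j log |eq j x|` which are locally equal to `h` outside the
divisor define a global function with values in `EReal`. -/
theorem SNC.QL_glue {n : ℕ} {J X : Type} [TopologicalSpace X] [HolSpace X] [Fintype J]
    (hX : IsComplexManifold X n) (P : SNC n J X) {b : J → ℝ} (hb : ∀ j, 0 ≤ b j)
    {ψ : X → X → ℝ} (hψc : ∀ x, ∀ᶠ y in 𝓝 x, ContinuousAt (ψ x) y) {h : X → ℝ}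
    (he : ∀ x, ∀ᶠ y in 𝓝 x, (∀ j, y ∉ P.D j) →
      ψ x y + ∑ j, b j * Real.log ‖P.eq j x y‖ = h y) (x : X) :
    ∀ᶠ y in 𝓝 x, QL (ψ y) b (fun j => P.eq j y) y = QL (ψ x) b (fun j => P.eq j x) y := by
  set Q : X → X → EReal := fun w => QL (ψ w) b (fun i => P.eq i w) with hQ
  have hQc : ∀ w, ∀ᶠ w' in 𝓝 w, ContinuousAt (Q w) w' := by
    intro w
    have h2 : ∀ᶠ w' in 𝓝 w, ∀ i, Hol (P.eq i w) w' := by
      rw [eventually_all]
      exact fun i => HolSpace.hol_eventually (P.hol i w)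
    filter_upwards [(hψc w).eventually_nhds, h2] with w' h1 h2
    exact continuousAt_QL hX h1 hb h2
  have hQe : ∀ w, ∀ᶠ w' in 𝓝 w, (∀ i, w' ∉ P.D i) → Q w w' = ((h w' : ℝ) : EReal) := by
    intro w
    have h2 : ∀ᶠ w' in 𝓝 w, ∀ i, (w' ∈ P.D i ↔ P.eq i w w' = 0) := by
      rw [eventually_all]
      exact fun i => P.mem_iff i w
    filter_upwards [he w, h2] with w' h1 h2 h3
    have h4 := h1 h3
    simp only [hQ, QL]
    rw [if_neg]
    · rw [h4]
    · rintro ⟨i, -, hi⟩
      exact h3 i ((h2 i).2 hi)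
  have hdense := P.dense_compl'
  filter_upwards [hQc x, (hQe x).eventually_nhds] with w' h1 h2
  have h3 := (hQc w').self_of_nhds
  have h4 := hQe w'
  have : (𝓝[{x | ∀ i, x ∉ P.D i}] w').NeBot := mem_closure_iff_nhdsWithin_neBot.1 (hdense w')
  have t1 : Tendsto (Q w') (𝓝[{x | ∀ i, x ∉ P.D i}] w') (𝓝 (Q w' w')) :=
    h3.tendsto.mono_left nhdsWithin_le_nhds
  have t2 : Tendsto (Q x) (𝓝[{x | ∀ i, x ∉ P.D i}] w') (𝓝 (Q x w')) :=
    h1.tendsto.mono_left nhdsWithin_le_nhds
  have t3 : Q x =ᶠ[𝓝[{x | ∀ i, x ∉ P.D i}] w'] Q w' := by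
    filter_upwards [self_mem_nhdsWithin, nhdsWithin_le_nhds h2, nhdsWithin_le_nhds h4]
      with x hx hx2 hx3
    rw [hx2 hx, hx3 hx]
  exact tendsto_nhds_unique t1 (t2.congr' t3)

end Pool.Agent.helper90.KMMP
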