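import Pool.Agent.helper90.KMMP.KXK
import Pool.Agent.helper90.KMMP.SncTools

/-!
# Claim D: the surface `T_W` cannot be contracted by `q`

Proof. Choose `w₀ ∈ P_{i₀}` generic: not on the other `P_i`, `p w₀` not on the exceptional surfaces
of `X` (`exists_generic_reg`; a holomorphic function of two variables is not injective); a
contracted curve `c : S → P_{i₀}` through `w₀ = c s₀`. As `p` is injective at `w₀`, `p ∘ c` is
nowhere locally constant (`isClopen_locConst`).
The function `û = - h ∘ c = θ (p c) + ∑_i G_i log |eq_i ∘ c| + (harmonic)` extends to a psh function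
on `S`, hence is constant (`psh_constant`), so that `θ ∘ p ∘ c` is harmonic (`theta_phAt`). As
`θ = |L ∘ (lift)|²` locally, `L ∘ (lift of p ∘ c to ℂ³)` is locally constant at regular points, and
`p ∘ c` moves along the leaves `z + ℂ (-√2, 1, 0)` (`local_structure`). The compact set `p (c (S))`
contains the whole leaf through a regular point `reg z` of it (`line_in_range`); by density of
`ℤ + √2 ℤ` it contains points `reg (z + (δ_n, 0, 0))`, `δ_n → 0`, `δ_n ≠ 0`, and a cluster point of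
preimages of these points contradicts `local_structure` (`no_curve`).
-/

open scoped Topology ContDiff
open Set Filter Metric

namespace Pool.Agent.helper90.KMMP

/-! ### one-variable tools -/

/-- local parameter of a curve -/
theorem exists_param {S : Type} [TopologicalSpace S] [HolSpace S] (hS : IsComplexManifold S 1)
    (s : S) : ∃ φ : ℂ → S, φ 0 = s ∧ (∀ᶠ t in 𝓝 0, HolMapAt φ t) ∧ map φ (𝓝 0) = 𝓝 s := by
  obtain ⟨e, he, hs⟩ := hS s
  have hlin : ∀ t : ℂ, AnalyticAt ℂ (fun t : ℂ => e s + fun _ : Fin 1 => t) t := by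
    intro t
    apply AnalyticAt.add analyticAt_const
    exact AnalyticAt.pi (fun _ => analyticAt_id)
  refine ⟨fun t => e.symm (e s + fun _ => t), ?_, ?_, ?_⟩
  · have : (e s + fun _ : Fin 1 => (0 : ℂ)) = e s := by ext i; simp
    simp only [this]
    exact e.left_inv hs
  · have h0 : Tendsto (fun t : ℂ => e s + fun _ : Fin 1 => t) (𝓝 0) (𝓝 (e s)) := by
      have := (hlin 0).continuousAt
      have h2 : (e s + fun _ : Fin 1 => (0 : ℂ)) = e s := by ext i; simp
      unfold ContinuousAt at this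
      simpa only [h2] using this
    have h1 : ∀ᶠ t : ℂ in 𝓝 0, (e s + fun _ : Fin 1 => t) ∈ e.target :=
      h0.eventually (e.open_target.mem_nhds (e.map_source hs))
    filter_upwards [h1] with t ht
    exact (he.holMapAt_symm ht).comp (f := fun t : ℂ => e s + fun _ : Fin 1 => t)
      (holMapAt_of_analyticAt_C (hlin t))
  · let H : ℂ ≃ₜ (Fin 1 → ℂ) := (Homeomorph.funUnique (Fin 1) ℂ).symm.trans (Homeomorph.addLeft (e s))
    have hH : ∀ t, H t = e s + fun _ => t := by
      intro t; ext i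
      simp [H, Homeomorph.funUnique]
    have h1 : map (fun t : ℂ => e s + fun _ : Fin 1 => t) (𝓝 0) = 𝓝 (e s) := by
      have := H.map_nhds_eq 0
      have h2 : (e s + fun _ : Fin 1 => (0 : ℂ)) = e s := by ext i; simp
      rw [hH, h2] at this
      rw [← this]
      congr 1
    have h3 : (fun t : ℂ => e.symm (e s + fun _ => t)) =
      e.symm ∘ (fun t : ℂ => e s + fun _ : Fin 1 => t) := rfl
    rw [h3, ← Filter.map_map, h1]
    have := e.symm.map_nhds_eq (x := e s) (e.map_source hs)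
    rw [this, e.left_inv hs]

theorem isClopen_locConst {n : ℕ} {S X : Type} [TopologicalSpace S] [HolSpace S]
    [TopologicalSpace X] [HolSpace X] (hS : IsComplexManifold S 1) (hX : IsComplexManifold X n)
    {F : S → X} (hF : ∀ s, HolMapAt F s) : IsClopen {s | ∀ᶠ s' in 𝓝 s, F s' = F s} := by
  constructor
  · rw [isClosed_iff_frequently]
    intro s hs
    obtain ⟨φ, hφ0, hφ, hφm⟩ := exists_param hS s
    obtain ⟨e, he, hes⟩ := hX (F s)
    have hcont : Tendsto φ (𝓝 0) (𝓝 s) := hφm.le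
    have h1 : ∀ᶠ t in 𝓝 0, F (φ t) ∈ e.source :=
      ((hF s).1.tendsto.comp hcont).eventually (e.open_source.mem_nhds hes)
    obtain ⟨r, hr, hball⟩ := Metric.eventually_nhds_iff_ball.1 (hφ.and h1)
    have hana : AnalyticOnNhd ℂ (fun t => e (F (φ t))) (ball 0 r) := by
      intro t ht
      obtain ⟨h2, h3⟩ := hball t ht
      apply HolMapAt.analyticAt_C
      exact HolMapAt.comp (f := fun t => F (φ t)) (he.holMapAt h3)
        (HolMapAt.comp (hF _) h2)
    have him : φ '' ball 0 r ∈ 𝓝 s := by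
      rw [← hφm]; exact image_mem_map (ball_mem_nhds _ hr)
    obtain ⟨s', hs', t', ht', rfl⟩ := (hs.and_eventually him).exists
    have hs'' : ∀ᶠ t in 𝓝 t', F (φ t) = F (φ t') :=
      (hball t' ht').1.1.tendsto.eventually hs'
    have heq : EqOn (fun t => e (F (φ t))) (fun _ => e (F (φ t'))) (ball 0 r) := by
      apply hana.eqOn_of_preconnected_of_eventuallyEq analyticOnNhd_const
        (convex_ball _ _).isPreconnected ht'
      filter_upwards [hs''] with t ht
      simp only [ht]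
    have hall : ∀ t ∈ ball (0 : ℂ) r, F (φ t) = F (φ t') := fun t ht =>
      e.injOn (hball t ht).2 (hball t' ht').2 (heq ht)
    have hFs : F s = F (φ t') := by rw [← hφ0]; exact hall 0 (mem_ball_self hr)
    change ∀ᶠ s' in 𝓝 s, F s' = F s
    filter_upwards [him]
    rintro _ ⟨t, ht, rfl⟩
    rw [hFs, hall t ht]
  · rw [isOpen_iff_eventually]
    intro s hs
    have hs' : ∀ᶠ s' in 𝓝 s, F s' = F s := hs
    filter_upwards [hs'.eventually_nhds, hs'] with s' h1 h2
    change ∀ᶠ s'' in 𝓝 s', F s'' = F s'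
    rw [h2]; exact h1

theorem eventually_const_of_countable {g : ℂ → ℂ} {t₀ : ℂ} (hg : AnalyticAt ℂ g t₀) {A : Set ℂ}
    (hA : A.Countable) (h : ∀ᶠ t in 𝓝 t₀, g t ∈ A) : ∀ᶠ t in 𝓝 t₀, g t = g t₀ := by
  rcases hg.eventually_constant_or_nhds_le_map_nhds with h1 | h1
  · exact h1
  · exfalso
    have h2 : A ∈ 𝓝 (g t₀) := h1 h
    have h3 : Dense Aᶜ := hA.dense_compl ℂ
    obtain ⟨x, hx1, hx2⟩ := h3.inter_nhds_nonempty h2
    exact hx1 hx2

/-- If `‖ℓ‖²` is harmonic, the holomorphic function `ℓ` is constant. -/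
theorem const_of_phAt_norm_sq {l : ℂ → ℂ} (hl : AnalyticAt ℂ l 0)
    (hph : PHAt (fun t : ℂ => ‖l t‖ ^ 2) 0) : ∀ᶠ t in 𝓝 0, l t = l 0 := by
  obtain ⟨F, hF, hFe⟩ := hph
  have hF' : AnalyticAt ℂ F 0 := hF
  set Φ : ℂ → ℂ := fun t => F t - 2 * (starRingEnd ℂ (l 0)) * l t + (‖l 0‖ : ℂ) ^ 2 with hΦ
  have hΦa : AnalyticAt ℂ Φ 0 := by
    apply AnalyticAt.add _ analyticAt_const
    exact hF'.sub (analyticAt_const.mul hl)
  have hre : ∀ᶠ t in 𝓝 0, (Φ t).re = ‖l t - l 0‖ ^ 2 := by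
    filter_upwards [hFe] with t ht
    have h1 : (F t).re = ‖l t‖ ^ 2 := ht.symm
    simp only [hΦ, Complex.add_re, Complex.sub_re, h1]
    rw [← Complex.normSq_eq_norm_sq, ← Complex.normSq_eq_norm_sq]
    have h2 : ((‖l 0‖ : ℂ) ^ 2).re = Complex.normSq (l 0) := by
      rw [Complex.normSq_eq_norm_sq, ← Complex.ofReal_pow, Complex.ofReal_re]
    rw [h2]
    simp [Complex.normSq_apply, Complex.mul_re, Complex.mul_im]
    ring
  rcases hΦa.eventually_constant_or_nhds_le_map_nhds with h1 | h1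
  · have h0 : (Φ 0).re = 0 := by
      have := hre.self_of_nhds
      simpa using this
    filter_upwards [h1, hre] with t h2 h3
    rw [h2, h0] at h3
    have : ‖l t - l 0‖ = 0 := by
      have := pow_eq_zero_iff (two_ne_zero) |>.1 h3.symm
      exact this
    rwa [norm_eq_zero, sub_eq_zero] at this
  · exfalso
    have h2 : {w : ℂ | 0 ≤ w.re} ∈ 𝓝 (Φ 0) := by
      apply h1
      rw [mem_map]
      filter_upwards [hre] with t ht
      change 0 ≤ (Φ t).re
      rw [ht]; positivity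
    have h0 : (Φ 0).re = 0 := by
      have := hre.self_of_nhds
      simpa using this
    obtain ⟨r, hr, hb⟩ := Metric.mem_nhds_iff.1 h2
    have h3 : Φ 0 - ((r / 2 : ℝ) : ℂ) ∈ ball (Φ 0) r := by
      rw [mem_ball, dist_eq_norm]
      simp
      rw [abs_of_pos hr]; linarith
    have h4 := hb h3
    simp [h0] at h4
    linarith

/-- no injective holomorphic function of two variables -/
theorem not_injOn_two {g : ℂ × ℂ → ℂ} (hg : AnalyticAt ℂ g 0) {N : Set (ℂ × ℂ)}
    (hN : N ∈ 𝓝 (0 : ℂ × ℂ)) (hinj : InjOn g N) : False := by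
  obtain ⟨R, hR, hball⟩ := Metric.eventually_nhds_iff_ball.1 (hg.eventually_analyticAt.and hN)
  set r := R / 2 with hr
  have hr0 : 0 < r := by positivity
  have hmem : ∀ x y : ℂ, ‖x‖ ≤ r → ‖y‖ ≤ r → (x, y) ∈ ball (0 : ℂ × ℂ) R := by
    intro x y hx hy
    rw [mem_ball, dist_eq_norm, sub_zero, Prod.norm_def]
    exact (max_le hx hy).trans_lt (by rw [hr]; linarith)
  have hcont : ContinuousOn g (ball 0 R) := fun x hx => (hball x hx).1.continuousAt.continuousWithinAt
  have hK : IsCompact (sphere (0 : ℂ) r) := isCompact_sphere _ _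
  have hKne : (sphere (0 : ℂ) r).Nonempty := NormedSpace.sphere_nonempty.2 hr0.le
  have hsl : ContinuousOn (fun x : ℂ => ‖g (x, 0) - g (0, 0)‖) (sphere 0 r) := by
    apply ContinuousOn.norm
    apply ContinuousOn.sub _ continuousOn_const
    apply hcont.comp (by fun_prop)
    intro x hx
    exact hmem x 0 (by rw [mem_sphere_zero_iff_norm] at hx; exact hx.le) (by simp [hr0.le])
  obtain ⟨x₁, hx₁, hmin⟩ := hK.exists_isMinOn hKne hsl
  set ε := ‖g (x₁, 0) - g (0, 0)‖ with hε
  have hx₁n : ‖x₁‖ = r := by simpa using hx₁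
  have hε0 : 0 < ε := by
    rw [hε, norm_pos_iff, sub_ne_zero]
    intro h
    have := hinj (hball _ (hmem x₁ 0 hx₁n.le (by simp [hr0.le]))).2
      (hball _ (hmem 0 0 (by simp [hr0.le]) (by simp [hr0.le]))).2 h
    have h2 : x₁ = 0 := by simpa using congrArg Prod.fst this
    rw [h2, norm_zero] at hx₁n
    linarith
  -- uniformity in y
  have hev : ∀ᶠ y in 𝓝 (0 : ℂ), ∀ x ∈ sphere (0 : ℂ) r, ε / 2 ≤ ‖g (x, y) - g (0, y)‖ := by
    have := hK.eventually_forall_of_forall_eventually (x₀ := (0 : ℂ))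
      (P := fun y x => ε / 2 ≤ ‖g (x, y) - g (0, y)‖) ?_
    · exact this
    · intro x hx
      have hxn : ‖x‖ = r := by simpa using hx
      have hc : ContinuousAt (fun z : ℂ × ℂ => ‖g (z.2, z.1) - g (0, z.1)‖) (0, x) := by
        apply ContinuousAt.norm
        apply ContinuousAt.sub
        · exact ContinuousAt.comp (x := ((0 : ℂ), x)) (f := fun z : ℂ × ℂ => (z.2, z.1)) (g := g)
            (hball _ (hmem x 0 hxn.le (by simp [hr0.le]))).1.continuousAt (by fun_prop)
        · exact ContinuousAt.comp (x := ((0 : ℂ), x)) (f := fun z : ℂ × ℂ => ((0 : ℂ), z.1)) (g := g)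
            (hball _ (hmem 0 0 (by simp [hr0.le]) (by simp [hr0.le]))).1.continuousAt (by fun_prop)
      have h1 : ε / 2 < ‖g (x, 0) - g (0, 0)‖ := by
        have := hmin hx
        change ε ≤ ‖g (x, 0) - g (0, 0)‖ at this
        linarith
      filter_upwards [hc.tendsto.eventually (lt_mem_nhds h1)] with z hz
      exact hz.le
  have hev2 : ∀ᶠ y in 𝓝 (0 : ℂ), g (0, 0) ∈ ball (g (0, y)) (ε / 2 / 2) := by
    have hc : ContinuousAt (fun y : ℂ => g (0, y)) 0 :=
      ContinuousAt.comp (x := (0 : ℂ)) (f := fun y : ℂ => ((0 : ℂ), y)) (g := g)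
        (hball _ (hmem 0 0 (by simp [hr0.le]) (by simp [hr0.le]))).1.continuousAt (by fun_prop)
    have := hc.tendsto.eventually (ball_mem_nhds (g (0, 0)) (show 0 < ε / 2 / 2 by positivity))
    filter_upwards [this] with y hy
    rw [mem_ball_comm]; exact hy
  have hev3 : ∀ᶠ y in 𝓝 (0 : ℂ), ‖y‖ ≤ r := by
    filter_upwards [closedBall_mem_nhds (0 : ℂ) hr0] with y hy
    simpa using hy
  obtain ⟨y, ⟨⟨h1, h2⟩, h3⟩, hy0⟩ :=
    ((((hev.and hev2).and hev3).filter_mono (nhdsWithin_le_nhds (s := {0}ᶜ))).and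
      self_mem_nhdsWithin).exists
  have hdiff : DiffContOnCl ℂ (fun x => g (x, y)) (ball 0 r) := by
    apply DifferentiableOn.diffContOnCl
    rw [closure_ball _ hr0.ne']
    intro x hx
    have hx' : ‖x‖ ≤ r := by simpa using hx
    apply DifferentiableAt.differentiableWithinAt
    exact DifferentiableAt.comp x (g := g) (f := fun x : ℂ => (x, y))
      (hball _ (hmem x y hx' h3)).1.differentiableAt (by fun_prop)
  have hfr : ∃ᶠ x in 𝓝 (0 : ℂ), g (x, y) ≠ g (0, y) := by
    have hne : ∀ᶠ x in 𝓝[≠] (0 : ℂ), g (x, y) ≠ g (0, y) := by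
      filter_upwards [self_mem_nhdsWithin, nhdsWithin_le_nhds (closedBall_mem_nhds (0 : ℂ) hr0)]
        with x hx hx2 heq
      have hx' : ‖x‖ ≤ r := by simpa using hx2
      have := hinj (hball _ (hmem x y hx' h3)).2
        (hball _ (hmem 0 y (by simp [hr0.le]) h3)).2 heq
      exact hx (by simpa using congrArg Prod.fst this)
    exact hne.frequently.filter_mono nhdsWithin_le_nhds
  obtain ⟨x, hx, hxg⟩ := hdiff.ball_subset_image_closedBall hr0 h1 hfr h2
  have hx' : ‖x‖ ≤ r := by simpa using hx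
  have := hinj (hball _ (hmem x y hx' h3)).2
        (hball _ (hmem 0 0 (by simp [hr0.le]) (by simp [hr0.le]))).2 hxg
  exact hy0 (by simpa using congrArg Prod.snd this)


/-! ### arithmetic of the lattice -/

theorem cdCountable_Eis : Eis.Countable := by
  have : Eis ⊆ range (fun ab : ℤ × ℤ => (ab.1 : ℂ) + ab.2 * om) := by
    rintro z ⟨a, b, rfl⟩
    exact ⟨(a, b), rfl⟩
  exact (countable_range _).mono this

theorem cdCountable_PiEis : PiEis.Countable := by
  have : PiEis ⊆ (fun u => (1 - om) * u) '' Eis := by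
    rintro z ⟨u, hu, rfl⟩
    exact ⟨u, hu, rfl⟩
  exact (cdCountable_Eis.image _).mono this

theorem cdCountable_O3 : O3.Countable := by
  have : O3 ⊆ Set.pi univ (fun _ : Fin 3 => Eis) := fun z hz i _ => hz i
  exact (Set.countable_univ_pi (fun _ => cdCountable_Eis)).mono this

theorem mem_PiEis_of_kmRel {z z' : C3} (h : kmRel z' z) (h2 : z' 2 = 0) : z 2 ∈ PiEis := by
  obtain ⟨k, l, ⟨u, hu, rfl⟩, rfl⟩ := h
  refine ⟨u 2, hu 2, ?_⟩
  simp [h2]

theorem mem_PiEis_of_TT {z : C3} (hz : z ∉ O3) (h : reg z ∈ TT) : z 2 ∈ PiEis := by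
  rcases h with ⟨z', hz', h2, heq⟩ | ⟨f, hf, j, hj, a, ha, hf2, ha2, heq⟩
  · exact mem_PiEis_of_kmRel (reg_eq_reg.1 heq) h2
  · by_cases h0 : a j = 0
    · exact absurd heq (exc_ne_reg hf h0 hz)
    · obtain ⟨h1, h3⟩ := exc_eq_reg hf ha h0
      rw [h3] at heq
      apply mem_PiEis_of_kmRel (reg_eq_reg.1 heq)
      simp [hf2, Function.update_of_ne hj.symm, ha2]

theorem exc_TT {f : C3} (hf : f ∈ O3) {j : Fin 3} {a : C3} (ha : a ∈ Vexc j)
    (hreg : ∀ z, z ∉ O3 → reg z ≠ exc f j a) (hT : exc f j a ∈ TT) :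
    a j = 0 ∧ j ≠ 2 ∧ a 2 = 0 := by
  have h0 : a j = 0 := by
    by_contra h0
    obtain ⟨h1, h3⟩ := exc_eq_reg hf ha h0
    exact hreg _ h1 h3.symm
  refine ⟨h0, ?_⟩
  rcases hT with ⟨z', hz', h2, heq⟩ | ⟨f', hf', j', hj', a', ha', hf2, ha2, heq⟩
  · exact absurd heq (hreg _ hz')
  · have h0' : a' j' = 0 := by
      by_contra h0'
      obtain ⟨h1, h3⟩ := exc_eq_reg hf' ha' h0'
      exact hreg _ h1 (h3.symm.trans heq)
    unfold exc at heq
    rw [if_pos h0, if_pos h0'] at heq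
    have h4 := (Quotient.exact heq).2 hf'
    change Projectivization.mk ℂ _ _ = Projectivization.mk ℂ _ _ at h4
    rw [Projectivization.mk_eq_mk_iff] at h4
    obtain ⟨c, hc⟩ := h4
    have h5 := congrFun hc 2
    simp only [Pi.smul_apply, Function.update_of_ne hj'.symm, ha2] at h5
    have h6 : Function.update a j 1 2 = 0 := by
      have : (c : ℂ) * Function.update a j 1 2 = 0 := h5
      exact (mul_eq_zero.1 this).resolve_left c.ne_zero
    by_cases hj : j = 2
    · subst hj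
      simp at h6
    · refine ⟨hj, ?_⟩
      rwa [Function.update_of_ne (Ne.symm hj)] at h6

theorem exists_sqrt_two_seq : ∃ a b : ℕ → ℤ, ∀ n, (a n : ℝ) + b n * √2 = (√2 - 1) ^ n := by
  have h : ∀ n : ℕ, ∃ a b : ℤ, (a : ℝ) + b * √2 = (√2 - 1) ^ n := by
    intro n
    induction n with
    | zero => exact ⟨1, 0, by simp⟩
    | succ n ih =>
      obtain ⟨a, b, h⟩ := ih
      refine ⟨2 * b - a, a - b, ?_⟩
      rw [pow_succ, ← h]
      have h2 : √2 * √2 = (2 : ℝ) := Real.mul_self_sqrt (by norm_num)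
      push_cast
      linear_combination (-(b : ℝ)) * h2
  choose a b h using h
  exact ⟨a, b, h⟩

theorem intCast_mem_Eis (a : ℤ) : (a : ℂ) ∈ Eis := ⟨a, 0, by simp⟩

/-- the lattice vectors used for density -/
theorem lattice_mem (a b : ℤ) : (fun i : Fin 3 => if i = 0 then (1 - om) * a else
    if i = 1 then (1 - om) * b else 0 : C3) ∈ L3 := by
  refine ⟨fun i => if i = 0 then (a : ℂ) else if i = 1 then (b : ℂ) else 0, ?_, ?_⟩
  · intro i
    have h0 : (0 : ℂ) ∈ Eis := by simpa using intCast_mem_Eis 0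
    fin_cases i
    · simpa using intCast_mem_Eis a
    · simpa using intCast_mem_Eis b
    · simpa using h0
  · ext i
    fin_cases i <;> simp

/-! ### the image of a generic point is a regular point -/

/-- regular points: a chart which is a local inverse of `reg` -/
theorem cdExists_reg_chart {z : C3} (hz : z ∉ O3) :
    ∃ e : OpenPartialHomeomorph KX C3, IsHolChart e ∧ reg z ∈ e.source ∧
      e (reg z) = z ∧ ∀ v ∈ e.target, v ∉ O3 ∧ e.symm v = reg v :=
  kmAtlas_compatible.exists_chart none z hz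

theorem cdExists_exc_chart {f : C3} (hf : f ∈ O3) {j : Fin 3} {a : C3} (ha : a ∈ Vexc j) :
    ∃ e : OpenPartialHomeomorph KX C3, IsHolChart e ∧ exc f j a ∈ e.source ∧
      e (exc f j a) = a ∧ ∀ v ∈ e.target, v ∈ Vexc j ∧ e.symm v = exc f j v :=
  kmAtlas_compatible.exists_chart (some (⟨f, hf⟩, j)) a ha

theorem fin3_others (κ : Fin 3) : ∃ α β : Fin 3, α ≠ β ∧ α ≠ κ ∧ β ≠ κ ∧
    ∀ i, i = κ ∨ i = α ∨ i = β := by
  fin_cases κ
  · exact ⟨1, 2, by decide, by decide, by decide, by decide⟩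
  · exact ⟨0, 2, by decide, by decide, by decide, by decide⟩
  · exact ⟨0, 1, by decide, by decide, by decide, by decide⟩

theorem fin3_third (j : Fin 3) (hj : j ≠ 2) : ∃ m : Fin 3, ∀ i, i = j ∨ i = 2 ∨ i = m := by
  fin_cases j
  · exact ⟨1, by decide⟩
  · exact ⟨0, by decide⟩
  · exact absurd rfl hj

theorem exists_generic_reg {W : Type} [TopologicalSpace W] [HolSpace W]
    {p : W → KX} {ι : Type} [Finite ι] (P : SNC 3 ι W) (i₀ : ι)
    (hp : ∀ w, HolMapAt p w)
    (hinj : ∀ w w', (∀ i, i ≠ i₀ → w ∉ P.D i) → p w = p w' → w = w')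
    (hT : ∀ w ∈ P.D i₀, p w ∈ TT) :
    ∃ w ∈ P.D i₀, (∀ i, i ≠ i₀ → w ∉ P.D i) ∧ ∃ z, z ∉ O3 ∧ reg z = p w := by
  by_contra hcon
  push Not at hcon
  obtain ⟨w₁, hw₁, hw₁'⟩ := P.exists_generic i₀
  obtain ⟨e, k, he, hws, -, hev⟩ := P.near w₁
  have hk0 : e w₁ (k i₀) = 0 := by
    have := (hev.self_of_nhds.2 i₀).1 (by rw [e.left_inv hws]; exact hw₁)
    exact this.2
  obtain ⟨f, hf, j, a₁, ha₁, ha₁j, hexc⟩ : ∃ f ∈ O3, ∃ j, ∃ a ∈ Vexc j, a j = 0 ∧
      exc f j a = p w₁ := by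
    rcases exists_reg_or_exc (p w₁) with ⟨z, hz, h⟩ | h
    · exact absurd h (hcon w₁ hw₁ hw₁' z hz)
    · exact h
  obtain ⟨E, hE, hEs, hEa, hEt⟩ := cdExists_exc_chart hf ha₁
  rw [hexc] at hEs
  have hj2 : j ≠ 2 := by
    refine (exc_TT hf ha₁ ?_ ?_).2.1
    · intro z hz; rw [hexc]; exact hcon w₁ hw₁ hw₁' z hz
    · rw [hexc]; exact hT w₁ hw₁
  obtain ⟨m, hm⟩ := fin3_third j hj2
  obtain ⟨α, β, hαβ, hα, hβ, hall⟩ := fin3_others (k i₀)
  have h2 : Tendsto e.symm (𝓝 (e w₁)) (𝓝 w₁) := by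
    have := e.continuousAt_symm (e.map_source hws)
    unfold ContinuousAt at this
    rwa [e.left_inv hws] at this
  -- near `e w₁`
  have hev2 : ∀ᶠ v in 𝓝 (e w₁), p (e.symm v) ∈ E.source :=
    ((hp w₁).1.tendsto.comp h2).eventually (E.open_source.mem_nhds hEs)
  -- the function
  have hana : AnalyticAt ℂ (fun v => E (p (e.symm v))) (e w₁) := by
    apply HolMapAt.analyticAt
    have h3 : HolMapAt e.symm (e w₁) := he.holMapAt_symm (e.map_source hws)
    have h4 : HolMapAt (fun v => p (e.symm v)) (e w₁) := HolMapAt.comp (hp _) h3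
    refine HolMapAt.comp (f := fun v => p (e.symm v)) ?_ h4
    apply hE.holMapAt
    rw [e.left_inv hws]; exact hEs
  let σ : ℂ × ℂ → C3 := fun x i => e w₁ i + if i = α then x.1 else if i = β then x.2 else 0
  have hσ : AnalyticAt ℂ σ 0 := by
    apply AnalyticAt.pi
    intro i
    apply AnalyticAt.add analyticAt_const
    by_cases h1 : i = α
    · simp only [h1, if_true]; exact analyticAt_fst
    · by_cases h3 : i = β
      · simp only [h3, if_true, if_neg hαβ.symm]
        exact analyticAt_snd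
      · simp only [h1, h3, if_false]; exact analyticAt_const
  have hσ0 : σ 0 = e w₁ := by ext i; simp [σ]
  have hσk : ∀ x, σ x (k i₀) = 0 := by
    intro x
    simp only [σ, hk0, if_neg hα.symm, if_neg hβ.symm, add_zero]
  have hσt : Tendsto σ (𝓝 0) (𝓝 (e w₁)) := by
    rw [← hσ0]; exact hσ.continuousAt
  have hg : AnalyticAt ℂ (fun x => E (p (e.symm (σ x))) m) 0 := by
    have h3 : AnalyticAt ℂ (fun x => E (p (e.symm (σ x)))) 0 := by
      apply AnalyticAt.comp (g := fun v => E (p (e.symm v))) (f := σ) _ hσ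
      rw [hσ0]; exact hana
    exact (analyticAt_pi_iff.1 h3) m
  apply not_injOn_two hg (hσt.eventually (hev.and hev2))
  intro x hx y hy hxy
  obtain ⟨⟨hx1, hx2⟩, hx3⟩ := hx
  obtain ⟨⟨hy1, hy2⟩, hy3⟩ := hy
  -- points of `P₀`
  have key : ∀ x, (σ x ∈ e.target ∧ ∀ j, (e.symm (σ x) ∈ P.D j ↔ (w₁ ∈ P.D j ∧ σ x (k j) = 0))) →
      p (e.symm (σ x)) ∈ E.source → e.symm (σ x) ∈ P.D i₀ ∧ (∀ i, i ≠ i₀ → e.symm (σ x) ∉ P.D i) ∧
      E (p (e.symm (σ x))) j = 0 ∧ E (p (e.symm (σ x))) 2 = 0 := by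
    intro x hx hxE
    have h3 : e.symm (σ x) ∈ P.D i₀ := (hx.2 i₀).2 ⟨hw₁, hσk x⟩
    have h4 : ∀ i, i ≠ i₀ → e.symm (σ x) ∉ P.D i := fun i hi hmem =>
      hw₁' i hi ((hx.2 i).1 hmem).1
    obtain ⟨h5, h6⟩ := hEt _ (E.map_source hxE)
    rw [E.left_inv hxE] at h6
    obtain ⟨h7, -, h8⟩ := exc_TT hf h5 (by
      intro z hz; rw [← h6]; exact hcon _ h3 h4 z hz) (by rw [← h6]; exact hT _ h3)
    exact ⟨h3, h4, h7, h8⟩
  obtain ⟨kx1, kx2, kx3, kx4⟩ := key x ⟨hx1, hx2⟩ hx3
  obtain ⟨ky1, ky2, ky3, ky4⟩ := key y ⟨hy1, hy2⟩ hy3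
  have hEeq : E (p (e.symm (σ x))) = E (p (e.symm (σ y))) := by
    ext i
    rcases hm i with rfl | rfl | rfl
    · rw [kx3, ky3]
    · rw [kx4, ky4]
    · exact hxy
  have hpeq := E.injOn hx3 hy3 hEeq
  have hweq := hinj _ _ kx2 hpeq
  have hσeq := e.symm.injOn hx1 hy1 hweq
  have e1 := congrFun hσeq α
  have e2 := congrFun hσeq β
  simp only [σ, if_true, if_neg hαβ.symm, add_right_inj] at e1 e2
  exact Prod.ext e1 e2


/-! ### harmonicity of `θ ∘ p ∘ c` -/

theorem theta_phAt {W Y S : Type} [TopologicalSpace W] [HolSpace W]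
    (hW : IsComplexManifold W 3) [TopologicalSpace Y] [HolSpace Y]
    [TopologicalSpace S] [HolSpace S] [CompactSpace S] [T2Space S] [ConnectedSpace S]
    (hS : IsComplexManifold S 1)
    {p : W → KX} {q : W → Y} {ι : Type} [Fintype ι] (P : SNC 3 ι W) (G : ι → ℝ)
    (hG : ∀ i, 0 ≤ G i) (hp : ∀ w, HolMapAt p w) (hq : ∀ w, HolMapAt q w)
    (θ : LocPot KX) (hθ : HasPot θ (fun z => ‖LL z‖ ^ 2) thetaExc) (γm : LocPot Y) (h : W → ℝ)
    (ident : ∀ w, ∃ Fh : W → ℂ, Hol Fh w ∧ ∀ᶠ w' in 𝓝 w, (∀ i, w' ∉ P.D i) →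
      γm.pot (q w) (q w') = θ.pot (p w) (p w') + h w' +
        ∑ i, G i * Real.log ‖P.eq i w w'‖ + (Fh w').re)
    {c : S → W} (hc : ∀ s, HolMapAt c s) (hcq : ∀ s s', q (c s) = q (c s')) {s₀ : S}
    (hs₀ : ∀ i, G i ≠ 0 → c s₀ ∉ P.D i) (s : S) :
    PHAt (fun s' => θ.pot (p (c s)) (p (c s'))) s := by
  choose F hF hFe using ident
  set ψ : W → W → ℝ := fun w w' => θ.pot (p w) (p w') - γm.pot (q w) (q w') + (F w w').re with hψ
  -- continuity of `ψ w` near `w`
  have hψc : ∀ w, ∀ᶠ w' in 𝓝 w, ContinuousAt (ψ w) w' := by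
    intro w
    have h1 := (hp w).1.tendsto.eventually (θ.cont (p w))
    have h2 := (hq w).1.tendsto.eventually (γm.cont (q w))
    have h3 := HolSpace.hol_eventually (hF w)
    filter_upwards [h1, h2, h3] with w' h1 h2 h3
    apply ContinuousAt.add
    · apply ContinuousAt.sub
      · exact ContinuousAt.comp (f := p) h1 (hp w').1
      · exact ContinuousAt.comp (f := q) h2 (hq w').1
    · exact Complex.continuous_re.continuousAt.comp (Hol.continuousAt hW.isComplexSpace h3)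
  -- the function `Q w` near `w`
  set Q : W → W → EReal := fun w => QL (ψ w) G (fun i => P.eq i w) with hQ
  have hQc : ∀ w, ∀ᶠ w' in 𝓝 w, ContinuousAt (Q w) w' := by
    intro w
    have h2 : ∀ᶠ w' in 𝓝 w, ∀ i, Hol (P.eq i w) w' := by
      rw [eventually_all]
      exact fun i => HolSpace.hol_eventually (P.hol i w)
    filter_upwards [(hψc w).eventually_nhds, h2] with w' h1 h2
    exact continuousAt_QL hW h1 hG h2
  have hQe : ∀ w, ∀ᶠ w' in 𝓝 w, (∀ i, w' ∉ P.D i) → Q w w' = ((- h w' : ℝ) : EReal) := by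
    intro w
    have h2 : ∀ᶠ w' in 𝓝 w, ∀ i, (w' ∈ P.D i ↔ P.eq i w w' = 0) := by
      rw [eventually_all]
      exact fun i => P.mem_iff i w
    filter_upwards [hFe w, h2] with w' h1 h2 h3
    have h4 := h1 h3
    simp only [hQ, QL]
    rw [if_neg]
    · congr 1
      simp only [hψ]
      linarith
    · rintro ⟨i, -, hi⟩
      exact h3 i ((h2 i).2 hi)
  have hdense := P.dense_compl'
  -- independence of the base point
  have hglue : ∀ w, ∀ᶠ w' in 𝓝 w, Q w' w' = Q w w' := by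
    intro w
    filter_upwards [hQc w, (hQe w).eventually_nhds] with w' h1 h2
    have h3 := (hQc w').self_of_nhds
    have h4 := hQe w'
    have : (𝓝[{x | ∀ i, x ∉ P.D i}] w').NeBot := mem_closure_iff_nhdsWithin_neBot.1 (hdense w')
    have t1 : Tendsto (Q w') (𝓝[{x | ∀ i, x ∉ P.D i}] w') (𝓝 (Q w' w')) :=
      h3.tendsto.mono_left nhdsWithin_le_nhds
    have t2 : Tendsto (Q w) (𝓝[{x | ∀ i, x ∉ P.D i}] w') (𝓝 (Q w w')) :=
      h1.tendsto.mono_left nhdsWithin_le_nhds
    have t3 : Q w =ᶠ[𝓝[{x | ∀ i, x ∉ P.D i}] w'] Q w' := by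
      filter_upwards [self_mem_nhdsWithin, nhdsWithin_le_nhds h2, nhdsWithin_le_nhds h4]
        with x hx hx2 hx3
      rw [hx2 hx, hx3 hx]
    exact tendsto_nhds_unique t1 (t2.congr' t3)
  -- the function on `S`
  have hu_eq : ∀ s, ∀ᶠ s' in 𝓝 s, Q (c s') (c s') = Q (c s) (c s') := fun s =>
    (hc s).1.tendsto.eventually (hglue (c s))
  have hv : ∀ s, PHAt (fun s' => (F (c s) (c s')).re - γm.pot (q (c s)) (q (c s'))) s := by
    intro s
    refine ⟨fun s' => F (c s) (c s') + ((- γm.pot (q (c s)) (q (c s)) : ℝ) : ℂ), ?_, ?_⟩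
    · exact HolSpace.hol_add ((hc s).2 _ (hF (c s))) (HolSpace.hol_const _ _)
    · filter_upwards with s'
      rw [hcq s' s]
      simp only [Complex.add_re, Complex.ofReal_re]
      ring
  have hpc : ∀ s, HolMapAt (fun s => p (c s)) s := fun s => HolMapAt.comp (hp _) (hc s)
  have hpsh : ∀ s, PshAt (fun s' => Q (c s') (c s')) s := by
    intro s
    have h1 : PshAt (fun s' => Q (c s) (c s')) s := by
      have hψpsh : PshAt (fun s' => ((ψ (c s) (c s') : ℝ) : EReal)) s := by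
        have h2 : PshAt (fun s' => (θ.pot (p (c s)) (p (c s')) : EReal)) s :=
          PshAt.comp (f := fun s => p (c s)) (theta_psh hθ (p (c s)))
            (Eventually.of_forall hpc)
        have h3 := PshAt.add_coe h2 ((hv s).pshAt hS) (by
          obtain ⟨Φ, hΦ, hΦe⟩ := hv s
          filter_upwards [HolSpace.hol_eventually hΦ, hΦe.eventually_nhds] with s' h4 h5
          have h6 : ContinuousAt (fun y => (Φ y).re) s' :=
            Complex.continuous_re.continuousAt.comp (Hol.continuousAt hS.isComplexSpace h4)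
          exact h6.congr (h5.mono fun _ h => h.symm))
        apply h3.congr
        filter_upwards with s'
        rw [← EReal.coe_add]
        congr 1
        simp only [hψ]
        ring
      have h4 : ∀ᶠ s' in 𝓝 s, ContinuousAt (fun s' => ψ (c s) (c s')) s' := by
        filter_upwards [(hc s).1.tendsto.eventually (hψc (c s))] with s' h5
        exact ContinuousAt.comp (f := c) h5 (hc s').1
      exact pshAt_QL hS (ψ := fun s' => ψ (c s) (c s')) hψpsh h4 hG
        (f := fun i s' => P.eq i (c s) (c s')) (fun i => (hc s).2 _ (P.hol i (c s)))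
    exact h1.congr ((hu_eq s).mono fun _ h => h.symm)
  have hne : Q (c s₀) (c s₀) ≠ ⊥ := by
    simp only [hQ, QL]
    rw [if_neg]
    · exact EReal.coe_ne_bot _
    · rintro ⟨i, hi, hi2⟩
      exact hs₀ i hi ((P.mem_iff i (c s₀)).self_of_nhds.2 hi2)
  obtain ⟨C, hC⟩ := psh_constant hS hpsh ⟨s₀, hne⟩
  -- nonvanishing
  have hnz : ∀ i, G i ≠ 0 → P.eq i (c s) (c s) ≠ 0 := by
    intro i hi h0
    have h1 := hC s
    simp only [hQ, QL] at h1
    rw [if_pos ⟨i, hi, h0⟩] at h1
    exact absurd h1.symm (EReal.coe_ne_bot _)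
  have hev : ∀ᶠ s' in 𝓝 s, ψ (c s) (c s') + ∑ i, G i * Real.log ‖P.eq i (c s) (c s')‖ = C := by
    filter_upwards [hu_eq s] with s' h1
    have h2 := hC s'
    rw [h1] at h2
    simp only [hQ, QL] at h2
    by_cases h3 : ∃ i, G i ≠ 0 ∧ P.eq i (c s) (c s') = 0
    · rw [if_pos h3] at h2
      exact absurd h2.symm (EReal.coe_ne_bot _)
    · rw [if_neg h3] at h2
      exact_mod_cast h2
  have hsum : PHAt (fun s' => ∑ i, G i * Real.log ‖P.eq i (c s) (c s')‖) s := by
    apply PHAt.sum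
    intro i _
    by_cases hi : G i = 0
    · simp only [hi, zero_mul]; exact phAt_const 0 s
    · exact PHAt.const_mul _ (phAt_log hS (f := fun s' => P.eq i (c s) (c s'))
        ((hc s).2 _ (P.hol i (c s))) (hnz i hi))
  have hfin := ((phAt_const C s).sub hsum).sub (hv s)
  apply hfin.congr
  filter_upwards [hev] with s' h1
  simp only [hψ] at h1
  linarith


/-! ### the curve `p ∘ c` at regular points -/

/-- the direction of the leaves in the plane `z 2 = const` -/
noncomputable def dd : C3 := fun i => if i = 0 then -(√2 : ℂ) else if i = 1 then 1 else 0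

theorem eq_add_smul_dd {z v : C3} (h2 : v 2 = z 2) (hL : LL v = LL z) :
    z + (v 1 - z 1) • dd = v := by
  simp only [LL] at hL
  ext i
  fin_cases i
  · simp [dd]
    linear_combination -hL
  · simp [dd]
  · simp [dd, h2]

theorem local_structure {S : Type} [TopologicalSpace S] [HolSpace S]
    (hS : IsComplexManifold S 1) (θ : LocPot KX) (hθ : HasPot θ (fun z => ‖LL z‖ ^ 2) thetaExc)
    {F : S → KX} (hF : ∀ s, HolMapAt F s) (hFT : ∀ s, F s ∈ TT)
    (hph : ∀ s, PHAt (fun s' => θ.pot (F s) (F s')) s)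
    (hnc : ∀ s, ¬ ∀ᶠ s' in 𝓝 s, F s' = F s) {z : C3} {s : S} (hs : F s = reg z)
    {e : OpenPartialHomeomorph KX C3} (he : IsHolChart e) (hes : reg z ∈ e.source)
    (hez : e (reg z) = z) (het : ∀ v ∈ e.target, v ∉ O3 ∧ e.symm v = reg v) :
    (∀ᶠ s' in 𝓝 s, LL (e (F s')) = LL z) ∧ ∀ᶠ t in 𝓝 (0 : ℂ), reg (z + t • dd) ∈ range F := by
  have hz : z ∉ O3 := by
    have := het _ (e.map_source hes)
    rw [hez] at this
    exact this.1
  obtain ⟨φ, hφ0, hφ, hφm⟩ := exists_param hS s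
  have hφt : Tendsto φ (𝓝 0) (𝓝 s) := hφm.le
  have hsrc : ∀ᶠ s' in 𝓝 s, F s' ∈ e.source := by
    apply (hF s).1.tendsto.eventually
    rw [hs]
    exact e.open_source.mem_nhds hes
  have hreg : ∀ᶠ s' in 𝓝 s, e (F s') ∉ O3 ∧ reg (e (F s')) = F s' := by
    filter_upwards [hsrc] with s' h1
    obtain ⟨h2, h3⟩ := het _ (e.map_source h1)
    rw [e.left_inv h1] at h3
    exact ⟨h2, h3.symm⟩
  have hzs : e (F s) = z := by rw [hs, hez]
  have hzt : HolMapAt (fun s' => e (F s')) s :=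
    HolMapAt.comp (he.holMapAt (by rw [hs]; exact hes)) (hF s)
  have hφa : HolMapAt φ 0 := hφ.self_of_nhds
  have hana : AnalyticAt ℂ (fun t => e (F (φ t))) 0 := by
    apply HolMapAt.analyticAt_C
    apply HolMapAt.comp (g := fun s' => e (F s')) _ hφa
    rw [hφ0]; exact hzt
  have hcoord : ∀ i, AnalyticAt ℂ (fun t => e (F (φ t)) i) 0 := analyticAt_pi_iff.1 hana
  -- `L` is constant
  have h1 : PHAt (fun s' => ‖LL (e (F s'))‖ ^ 2) s := by
    have h2 := hθ.1 z hz
    have h3 : PHAt (fun s' => θ.pot (reg z) (reg (e (F s'))) - ‖LL (e (F s'))‖ ^ 2) s := by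
      apply PHAt.comp (f := fun s' => e (F s'))
        (u := fun z' => θ.pot (reg z) (reg z') - ‖LL z'‖ ^ 2) _ hzt
      rw [hzs]; exact h2
    apply ((hph s).sub h3).congr
    filter_upwards [hreg] with s' h4
    rw [h4.2, hs]
    ring
  have h2 : PHAt (fun t => ‖LL (e (F (φ t)))‖ ^ 2) 0 := by
    apply PHAt.comp (f := φ) (u := fun s' => ‖LL (e (F s'))‖ ^ 2) _ hφa
    rw [hφ0]; exact h1
  have hLa : AnalyticAt ℂ (fun t => LL (e (F (φ t)))) 0 := by
    simp only [LL]
    exact (hcoord 0).add (analyticAt_const.mul (hcoord 1))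
  have hLc : ∀ᶠ t in 𝓝 (0 : ℂ), LL (e (F (φ t))) = LL z := by
    have := const_of_phAt_norm_sq hLa h2
    filter_upwards [this] with t ht
    rw [ht, hφ0, hzs]
  have hA : ∀ᶠ s' in 𝓝 s, LL (e (F s')) = LL z := by
    rw [← hφm, eventually_map]
    exact hLc
  refine ⟨hA, ?_⟩
  -- the last coordinate is constant
  have hregφ : ∀ᶠ t in 𝓝 (0 : ℂ), e (F (φ t)) ∉ O3 ∧ reg (e (F (φ t))) = F (φ t) :=
    hφt.eventually hreg
  have h2c : ∀ᶠ t in 𝓝 (0 : ℂ), e (F (φ t)) 2 = z 2 := by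
    have := eventually_const_of_countable (hcoord 2) cdCountable_PiEis (by
      filter_upwards [hregφ] with t ht
      apply mem_PiEis_of_TT ht.1
      rw [ht.2]; exact hFT _)
    filter_upwards [this] with t ht
    rw [ht, hφ0, hzs]
  have hform : ∀ᶠ t in 𝓝 (0 : ℂ), z + (e (F (φ t)) 1 - z 1) • dd = e (F (φ t)) := by
    filter_upwards [hLc, h2c] with t h3 h4
    exact eq_add_smul_dd h4 h3
  have h1a : AnalyticAt ℂ (fun t => e (F (φ t)) 1 - z 1) 0 := (hcoord 1).sub analyticAt_const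
  rcases h1a.eventually_constant_or_nhds_le_map_nhds with h3 | h3
  · exfalso
    apply hnc s
    rw [← hφm, eventually_map]
    filter_upwards [h3, hform, hregφ] with t h4 h5 h6
    rw [h4, hφ0, hzs, sub_self, zero_smul, add_zero] at h5
    rw [← h6.2, ← h5, hs]
  · have h4 : e (F (φ 0)) 1 - z 1 = 0 := by rw [hφ0, hzs, sub_self]
    rw [h4] at h3
    apply h3
    rw [mem_map]
    filter_upwards [hform, hregφ] with t h5 h6
    change reg (z + (e (F (φ t)) 1 - z 1) • dd) ∈ range F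
    rw [h5, h6.2]
    exact mem_range_self _

theorem dd_ne_zero : dd ≠ 0 := by
  intro h
  have := congrFun h 1
  simp [dd] at this

theorem line_in_range {S : Type} [TopologicalSpace S] [HolSpace S] [CompactSpace S]
    (hS : IsComplexManifold S 1) (θ : LocPot KX) (hθ : HasPot θ (fun z => ‖LL z‖ ^ 2) thetaExc)
    {F : S → KX} (hF : ∀ s, HolMapAt F s) (hFT : ∀ s, F s ∈ TT)
    (hph : ∀ s, PHAt (fun s' => θ.pot (F s) (F s')) s)
    (hnc : ∀ s, ¬ ∀ᶠ s' in 𝓝 s, F s' = F s) {z : C3} (hz : z ∉ O3) (hzr : reg z ∈ range F)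
    {τ : ℂ} (hτ : z + τ • dd ∉ O3) : reg (z + τ • dd) ∈ range F := by
  have hclosed : IsClosed (range F) :=
    (isCompact_range (continuous_iff_continuousAt.2 fun s => (hF s).1)).isClosed
  -- `U` is connected
  have hcount : {τ : ℂ | z + τ • dd ∈ O3}.Countable := by
    apply cdCountable_O3.preimage_of_injOn
    intro a _ b _ hab
    have := congrFun (add_left_cancel hab) 1
    simpa [dd] using this
  have hU : IsPreconnected {τ : ℂ | z + τ • dd ∈ O3}ᶜ := by
    apply (hcount.isConnected_compl_of_one_lt_rank _).isPreconnected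
    rw [Complex.rank_real_complex]
    exact Nat.one_lt_ofNat
  have hcontl : Continuous (fun τ : ℂ => z + τ • dd) := by fun_prop
  have hUo : IsOpen {τ : ℂ | z + τ • dd ∈ O3}ᶜ := isOpen_O3_compl.preimage hcontl
  have hregc : ∀ t : ℂ, z + t • dd ∉ O3 → ContinuousAt (fun t : ℂ => reg (z + t • dd)) t :=
    fun t ht => ContinuousAt.comp (f := fun t : ℂ => z + t • dd) (holMapAt_reg ht).1
      hcontl.continuousAt
  -- the set of good `t`
  set A : Set ℂ := {t | z + t • dd ∉ O3 ∧ reg (z + t • dd) ∈ range F} with hA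
  have hAo : IsOpen A := by
    rw [isOpen_iff_eventually]
    rintro t ⟨ht1, ⟨s, hs⟩⟩
    obtain ⟨e, he, hes, hez, het⟩ := cdExists_reg_chart ht1
    have h2 := (local_structure hS θ hθ hF hFT hph hnc hs he hes hez het).2
    have h3 : ∀ᶠ t' in 𝓝 t, reg (z + t • dd + (t' - t) • dd) ∈ range F := by
      have h4 : Tendsto (fun t' : ℂ => t' - t) (𝓝 t) (𝓝 0) := by
        have : ContinuousAt (fun t' : ℂ => t' - t) t := by fun_prop
        simpa using this.tendsto
      exact h4.eventually h2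
    filter_upwards [h3, hUo.mem_nhds ht1] with t' h4 h5
    refine ⟨h5, ?_⟩
    have h6 : z + t • dd + (t' - t) • dd = z + t' • dd := by
      rw [add_assoc, ← add_smul]; congr 2; ring
    rwa [h6] at h4
  have hsub : {τ : ℂ | z + τ • dd ∈ O3}ᶜ ⊆ A := by
    apply hU.subset_of_closure_inter_subset hAo
    · refine ⟨0, by simpa using hz, ?_⟩
      refine ⟨by simpa using hz, ?_⟩
      simpa using hzr
    · rintro t ⟨ht1, ht2⟩
      refine ⟨ht2, ?_⟩
      rw [← hclosed.closure_eq]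
      rw [mem_closure_iff_frequently] at ht1 ⊢
      exact (hregc t ht2).tendsto.frequently (ht1.mono fun t' h => h.2)
  exact (hsub hτ).2

theorem no_curve {S : Type} [TopologicalSpace S] [HolSpace S] [CompactSpace S]
    (hS : IsComplexManifold S 1) (θ : LocPot KX) (hθ : HasPot θ (fun z => ‖LL z‖ ^ 2) thetaExc)
    {F : S → KX} (hF : ∀ s, HolMapAt F s) (hFT : ∀ s, F s ∈ TT)
    (hph : ∀ s, PHAt (fun s' => θ.pot (F s) (F s')) s)
    (hnc : ∀ s, ¬ ∀ᶠ s' in 𝓝 s, F s' = F s) {z : C3} (hz : z ∉ O3) (hzr : reg z ∈ range F) :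
    False := by
  obtain ⟨a, b, hab⟩ := exists_sqrt_two_seq
  -- the vectors `v n → z`
  set δ : ℕ → ℂ := fun n => (1 - om) * ((√2 - 1 : ℝ) : ℂ) ^ n with hδ
  have hδ0 : Tendsto δ atTop (𝓝 0) := by
    have h1 : Tendsto (fun n : ℕ => ((√2 - 1 : ℝ) : ℂ) ^ n) atTop (𝓝 0) := by
      apply tendsto_pow_atTop_nhds_zero_of_norm_lt_one
      rw [Complex.norm_real, Real.norm_eq_abs, abs_lt]
      have h2 : √2 < 2 := by
        rw [Real.sqrt_lt' (by norm_num)]; norm_num
      have h3 : 0 < √2 := Real.sqrt_pos.2 (by norm_num)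
      constructor <;> linarith
    simpa [hδ] using h1.const_mul (1 - om)
  have hδne : ∀ n, δ n ≠ 0 := by
    intro n
    apply mul_ne_zero one_sub_om_ne_zero
    apply pow_ne_zero
    rw [Complex.ofReal_ne_zero, sub_ne_zero]
    intro h
    have : √2 * √2 = (2 : ℝ) := Real.mul_self_sqrt (by norm_num)
    rw [h] at this
    norm_num at this
  set v : ℕ → C3 := fun n => z + fun i => if i = 0 then δ n else 0 with hv
  have hvt : Tendsto v atTop (𝓝 z) := by
    have h1 : Tendsto (fun n => fun i : Fin 3 => if i = 0 then δ n else 0) atTop (𝓝 (0 : C3)) := by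
      rw [tendsto_pi_nhds]
      intro i
      by_cases hi : i = 0
      · simp only [hi, if_true]; exact hδ0
      · simp only [hi, if_false]; exact tendsto_const_nhds
    simpa using tendsto_const_nhds.add h1
  have hLv : ∀ n, LL (v n) ≠ LL z := by
    intro n h
    simp [hv, LL] at h
    exact hδne n h
  -- `v n = z + τ d + l`
  have hvr : ∀ n, v n ∉ O3 → reg (v n) ∈ range F := by
    intro n hn
    set t : ℂ := - ((1 - om) * b n) with ht
    have hrel : kmRel (z + t • dd) (v n) := by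
      refine ⟨0, _, lattice_mem (a n) (b n), ?_⟩
      have h1 : ((a n : ℂ)) + b n * (√2 : ℂ) = ((√2 - 1 : ℝ) : ℂ) ^ n := by
        have := hab n
        exact_mod_cast congrArg (fun x : ℝ => (x : ℂ)) this
      rw [pow_zero, one_smul]
      ext i
      fin_cases i
      · simp only [hv, hδ, dd, ht, Pi.add_apply, Pi.smul_apply, smul_eq_mul, Fin.zero_eta,
          if_true]
        rw [← h1]; ring
      · simp [hv, hδ, dd, ht]
      · simp [hv, hδ, dd, ht]
    have h2 : z + t • dd ∉ O3 := fun h => hn ((kmRel_O3 hrel).1 h)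
    rw [← reg_eq_reg.2 hrel]
    exact line_in_range hS θ hθ hF hFT hph hnc hz hzr h2
  have hvO : ∀ᶠ n in atTop, v n ∉ O3 := hvt.eventually (isOpen_O3_compl.mem_nhds hz)
  -- preimages
  have hex : ∀ n, ∃ s, v n ∉ O3 → F s = reg (v n) := by
    intro n
    by_cases hn : v n ∈ O3
    · obtain ⟨s, -⟩ := hzr
      exact ⟨s, fun h => absurd hn h⟩
    · obtain ⟨s, hs⟩ := hvr n hn
      exact ⟨s, fun _ => hs⟩
  choose s hs using hex
  obtain ⟨σ, hσ⟩ := exists_clusterPt_of_compactSpace (map s atTop)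
  have hσ' : MapClusterPt σ atTop s := hσ
  have hregt : Tendsto (fun n => reg (v n)) atTop (𝓝 (reg z)) :=
    (holMapAt_reg hz).1.tendsto.comp hvt
  have hFσ : F σ = reg z := by
    have h1 : MapClusterPt (F σ) atTop (F ∘ s) := hσ'.continuousAt_comp (hF σ).1
    have h2 : Tendsto (F ∘ s) atTop (𝓝 (reg z)) := by
      apply hregt.congr'
      filter_upwards [hvO] with n hn
      exact (hs n hn).symm
    by_contra hne
    obtain ⟨U, V, hU, hV, hFU, hzV, hUV⟩ := t2_separation hne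
    have h3 := h1.frequently (hU.mem_nhds hFU)
    obtain ⟨n, hn1, hn2⟩ := (h3.and_eventually (h2.eventually (hV.mem_nhds hzV))).exists
    exact Set.disjoint_left.1 hUV hn1 hn2
  obtain ⟨e, he, hes, hez, het⟩ := cdExists_reg_chart hz
  have hloc := (local_structure hS θ hθ hF hFT hph hnc hFσ he hes hez het).1
  have h3 := hσ'.frequently hloc
  have h4 : ∀ᶠ n in atTop, v n ∈ e.target := by
    apply hvt.eventually
    have h5 := e.map_source hes
    rw [hez] at h5
    exact e.open_target.mem_nhds h5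
  obtain ⟨n, hn1, hn2, hn3⟩ := (h3.and_eventually (h4.and hvO)).exists
  rw [hs n hn3, ← (het _ hn2).2, e.right_inv hn2] at hn1
  exact hLv n hn1

theorem claimD {W Y : Type} [TopologicalSpace W] [HolSpace W] [CompactSpace W] [T2Space W]
    [ConnectedSpace W] (hW : IsComplexManifold W 3) [TopologicalSpace Y] [HolSpace Y]
    {p : W → KX} {q : W → Y} {ι : Type} [Fintype ι] (P : SNC 3 ι W) (i₀ : ι) (G : ι → ℝ)
    (hG : ∀ i, 0 ≤ G i) (hG0 : G i₀ = 0) (hp : ∀ w, HolMapAt p w)
    (hq : ∀ w, HolMapAt q w)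
    (hinj : ∀ w w', (∀ i, Contracted p (P.D i) → w ∉ P.D i) → p w = p w' → w = w')
    (hi₀p : ¬ Contracted p (P.D i₀)) (hi₀q : Contracted q (P.D i₀))
    (hT : ∀ w ∈ P.D i₀, p w ∈ TT)
    (θ : LocPot KX) (hθ : HasPot θ (fun z => ‖LL z‖ ^ 2) thetaExc) (γm : LocPot Y) (h : W → ℝ)
    (ident : ∀ w, ∃ Fh : W → ℂ, Hol Fh w ∧ ∀ᶠ w' in 𝓝 w, (∀ i, w' ∉ P.D i) →
      γm.pot (q w) (q w') = θ.pot (p w) (p w') + h w' +
        ∑ i, G i * Real.log ‖P.eq i w w'‖ + (Fh w').re) : False := by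
  have hinj' : ∀ w w', (∀ i, i ≠ i₀ → w ∉ P.D i) → p w = p w' → w = w' := by
    intro w w' h1 h2
    refine hinj w w' (fun i hi => h1 i ?_) h2
    rintro rfl
    exact hi₀p hi
  obtain ⟨w₀, hw₀, hw₀', z, hz, hzw⟩ := exists_generic_reg P i₀ hp hinj' hT
  obtain ⟨S, tS, hoS, c, cS, t2S, conS, hS, hc, hcP, ⟨s₀, hs₀⟩, hnc, hcq⟩ := hi₀q w₀ hw₀
  have hF : ∀ s, HolMapAt (fun s => p (c s)) s := fun s => HolMapAt.comp (hp _) (hc s)
  have hncF : ∀ s, ¬ ∀ᶠ s' in 𝓝 s, p (c s') = p (c s) := by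
    have hclopen := isClopen_locConst hS KX_isComplexManifold hF
    rcases isClopen_iff.1 hclopen with h1 | h1
    · intro s hs
      have : s ∈ (∅ : Set S) := by rw [← h1]; exact hs
      exact this
    · exfalso
      have h2 : s₀ ∈ {s | ∀ᶠ s' in 𝓝 s, p (c s') = p (c s)} := by rw [h1]; exact mem_univ _
      apply hnc s₀
      have h3 : ∀ᶠ s' in 𝓝 s₀, p (c s') = p (c s₀) := h2
      filter_upwards [h3] with s' h4
      refine (hinj' (c s₀) (c s') ?_ h4.symm).symm
      rw [hs₀]; exact hw₀'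
  have hph : ∀ s, PHAt (fun s' => θ.pot (p (c s)) (p (c s'))) s := by
    intro s
    refine theta_phAt hW hS P G hG hp hq θ hθ γm h ident hc hcq (s₀ := s₀) ?_ s
    intro i hi
    rw [hs₀]
    apply hw₀'
    rintro rfl
    exact hi hG0
  exact no_curve hS θ hθ (F := fun s => p (c s)) hF (fun s => hT _ (hcP s)) hph hncF hz
    ⟨s₀, by simp only [hs₀]; exact hzw.symm⟩

end Pool.Agent.helper90.KMMP
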