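import Pool.Agent.helper90.KMMP.Defs

/-!
# Upper regularization from an open dense set
-/

open scoped Topology ContDiff
open Set Filter Metric

namespace Pool.Agent.helper90.KMMP

variable {X : Type} [TopologicalSpace X]

/-- upper semicontinuous regularization: limsup of the real function `v` at `y` from the set `𝒰` -/
noncomputable def reguSup (𝒰 : Set X) (v : X → ℝ) (y : X) : EReal :=
  limsup (fun y' => (v y' : EReal)) (𝓝[𝒰] y)

theorem neBot_of_mem_closure {𝒰 : Set X} {y : X} (h : y ∈ closure 𝒰) : (𝓝[𝒰] y).NeBot :=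
  mem_closure_iff_nhdsWithin_neBot.1 h

/-- (R1) value at points of `𝒰` -/
theorem reguSup_eq {𝒰 : Set X} {v : X → ℝ} {y : X} (hy : y ∈ 𝒰) (h : ContinuousWithinAt v 𝒰 y) :
    reguSup 𝒰 v y = v y := by
  have : (𝓝[𝒰] y).NeBot := neBot_of_mem_closure (subset_closure hy)
  exact (((continuous_coe_real_ereal.tendsto _).comp h).limsup_eq)

/-- limit formula: if `v` has a limit within `𝒰` -/
theorem reguSup_eq_of_tendsto {𝒰 : Set X} {v : X → ℝ} {y : X} {a : EReal} (hy : y ∈ closure 𝒰)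
    (h : Tendsto (fun y' => (v y' : EReal)) (𝓝[𝒰] y) (𝓝 a)) : reguSup 𝒰 v y = a := by
  have : (𝓝[𝒰] y).NeBot := neBot_of_mem_closure hy
  exact h.limsup_eq

/-- (R2) locality -/
theorem reguSup_congr {𝒰 : Set X} {v v' : X → ℝ} {y : X} (h : ∀ᶠ y' in 𝓝 y, y' ∈ 𝒰 → v y' = v' y') :
    reguSup 𝒰 v y = reguSup 𝒰 v' y := by
  apply limsup_congr
  rw [eventually_nhdsWithin_iff]
  filter_upwards [h] with y' h1 h2
  rw [h1 h2]

theorem reguSup_congr' {𝒰 : Set X} {v v' : X → ℝ} {y : X}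
    (h : ∀ᶠ y' in 𝓝 y, y' ∈ 𝒰 → v y' = v' y') : reguSup 𝒰 v =ᶠ[𝓝 y] reguSup 𝒰 v' := by
  filter_upwards [h.eventually_nhds] with z hz
  exact reguSup_congr hz

theorem reguSup_congr_set {𝒰 𝒰' : Set X} {v : X → ℝ} {y : X}
    (h : ∀ᶠ y' in 𝓝 y, (y' ∈ 𝒰 ↔ y' ∈ 𝒰')) : reguSup 𝒰 v y = reguSup 𝒰' v y := by
  have : 𝓝[𝒰] y = 𝓝[𝒰'] y := by
    apply nhdsWithin_eq_iff_eventuallyEq.2
    filter_upwards [h] with z hz
    exact propext hz
  rw [reguSup, reguSup, this]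

theorem reguSup_congr_set' {𝒰 𝒰' : Set X} {v : X → ℝ} {y : X}
    (h : ∀ᶠ y' in 𝓝 y, (y' ∈ 𝒰 ↔ y' ∈ 𝒰')) : reguSup 𝒰 v =ᶠ[𝓝 y] reguSup 𝒰' v := by
  filter_upwards [h.eventually_nhds] with z hz
  exact reguSup_congr_set hz

/-- (R4) upper bound -/
theorem reguSup_le {𝒰 : Set X} {v : X → ℝ} {y : X} {a : EReal}
    (h : ∀ᶠ y' in 𝓝 y, y' ∈ 𝒰 → (v y' : EReal) ≤ a) : reguSup 𝒰 v y ≤ a := by
  apply limsup_le_of_le
  · isBoundedDefault
  · rw [eventually_nhdsWithin_iff]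
    exact h

/-- (R5) if the regularization is `< a`, then `v < a` near `y` -/
theorem eventually_lt_of_reguSup_lt {𝒰 : Set X} {v : X → ℝ} {y : X} {a : EReal}
    (h : reguSup 𝒰 v y < a) : ∀ᶠ y' in 𝓝 y, y' ∈ 𝒰 → (v y' : EReal) < a := by
  rw [← eventually_nhdsWithin_iff]
  exact eventually_lt_of_limsup_lt h

theorem frequently_lt_of_lt_reguSup {𝒰 : Set X} {v : X → ℝ} {y : X} {a : EReal}
    (h : a < reguSup 𝒰 v y) : ∃ᶠ y' in 𝓝[𝒰] y, a < (v y' : EReal) :=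
  frequently_lt_of_lt_limsup (by isBoundedDefault) h

/-- the regularization is upper semicontinuous -/
theorem upperSemicontinuousAt_reguSup {𝒰 : Set X} (v : X → ℝ) (y : X) :
    UpperSemicontinuousAt (reguSup 𝒰 v) y := by
  intro a ha
  obtain ⟨b, hb1, hb2⟩ := exists_between ha
  filter_upwards [(eventually_lt_of_reguSup_lt hb1).eventually_nhds] with z hz
  refine lt_of_le_of_lt (reguSup_le ?_) hb2
  filter_upwards [hz] with y' h1 h2
  exact (h1 h2).le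

/-- monotonicity -/
theorem reguSup_mono {𝒰 : Set X} {v v' : X → ℝ} {y : X}
    (h : ∀ᶠ y' in 𝓝 y, y' ∈ 𝒰 → v y' ≤ v' y') : reguSup 𝒰 v y ≤ reguSup 𝒰 v' y := by
  apply limsup_le_limsup
  · rw [EventuallyLE, eventually_nhdsWithin_iff]
    filter_upwards [h] with y' h1 h2
    exact_mod_cast h1 h2
  · isBoundedDefault
  · isBoundedDefault

theorem reguSup_add_le {𝒰 : Set X} {v w : X → ℝ} {y : X} (hy : y ∈ closure 𝒰)
    (hw : ContinuousAt w y) : reguSup 𝒰 (fun z => v z + w z) y ≤ reguSup 𝒰 v y + w y := by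
  have : (𝓝[𝒰] y).NeBot := neBot_of_mem_closure hy
  have h1 : limsup (fun y' => (w y' : EReal)) (𝓝[𝒰] y) = w y :=
    (((continuous_coe_real_ereal.tendsto _).comp hw).mono_left nhdsWithin_le_nhds).limsup_eq
  have h2 := EReal.limsup_add_le (u := fun y' => (v y' : EReal)) (v := fun y' => (w y' : EReal))
    (f := 𝓝[𝒰] y) (Or.inr (by rw [h1]; exact EReal.coe_ne_top _))
    (Or.inr (by rw [h1]; exact EReal.coe_ne_bot _))
  rw [h1] at h2
  refine le_trans (le_of_eq ?_) h2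
  rfl

/-- (R3) adding a continuous function -/
theorem reguSup_add {𝒰 : Set X} {v w : X → ℝ} {y : X} (hy : y ∈ closure 𝒰)
    (hw : ContinuousAt w y) : reguSup 𝒰 (fun z => v z + w z) y = reguSup 𝒰 v y + w y := by
  apply le_antisymm (reguSup_add_le hy hw)
  have h := reguSup_add_le (v := fun z => v z + w z) (w := fun z => - w z) hy hw.neg
  simp only [add_neg_cancel_right] at h
  calc reguSup 𝒰 v y + w y ≤ (reguSup 𝒰 (fun z => v z + w z) y + ((- w y : ℝ) : EReal)) + w y :=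
        add_le_add_left h _
    _ = reguSup 𝒰 (fun z => v z + w z) y := by
        rw [add_assoc, ← EReal.coe_add]; simp

theorem reguSup_add' {𝒰 : Set X} (hd : Dense 𝒰) {v w : X → ℝ} {y : X}
    (hw : ∀ᶠ z in 𝓝 y, ContinuousAt w z) :
    reguSup 𝒰 (fun z => v z + w z) =ᶠ[𝓝 y] fun z => reguSup 𝒰 v z + w z := by
  filter_upwards [hw] with z hz
  exact reguSup_add (hd z) hz

/-- (R6) pull back by an open continuous map germ -/
theorem reguSup_comp {Y : Type} [TopologicalSpace Y] {𝒰 : Set X} {v : X → ℝ} {Θ : Y → X} {a : Y}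
    (h : map Θ (𝓝 a) = 𝓝 (Θ a)) :
    reguSup (Θ ⁻¹' 𝒰) (fun b => v (Θ b)) a = reguSup 𝒰 v (Θ a) := by
  have h1 : map Θ (𝓝[Θ ⁻¹' 𝒰] a) = 𝓝[𝒰] (Θ a) := by
    rw [nhdsWithin, nhdsWithin, ← h, ← comap_principal, Filter.push_pull]
  rw [reguSup, reguSup, ← h1]
  rfl

end Pool.Agent.helper90.KMMP
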