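import Pool.Agent.helper90.KMMP.Psh
import Pool.Agent.helper90.KMMP.Regu
import Pool.Agent.helper90.KMMP.Charts

/-!
# A quantitative maximum principle on a disc
-/

open scoped Topology ContDiff
open Set Filter Metric

namespace Pool.Agent.helper90.KMMP

variable {X : Type} [TopologicalSpace X] [HolSpace X]

/-- local upper bound from psh-ness of the regularization -/
theorem exists_bound_of_pshAt {𝒰 : Set X} {v : X → ℝ} {x : X} (h : PshAt (reguSup 𝒰 v) x) :
    ∃ M : ℝ, ∀ᶠ y in 𝓝 x, y ∈ 𝒰 → v y ≤ M := by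
  obtain ⟨M, hM1, -⟩ := EReal.lt_iff_exists_real_btwn.1 h.lt_top
  refine ⟨M, ?_⟩
  filter_upwards [eventually_lt_of_reguSup_lt hM1] with y h1 h2
  exact_mod_cast (h1 h2).le

/-- psh functions on `ℂ` plus `c - a log |t - 1|`, away from `1` -/
theorem pshAt_add_log {u : ℂ → EReal} {t : ℂ} (hu : PshAt u t) (ht : t ≠ 1) (a b : ℝ) :
    PshAt (fun s => u s + ((a * Real.log ‖s - 1‖ + b : ℝ) : EReal)) t := by
  have hf : Hol (fun s : ℂ => s - 1) t := by
    change AnalyticAt ℂ (fun s : ℂ => s - 1) t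
    fun_prop
  have hPH : PHAt (fun s : ℂ => a * Real.log ‖s - 1‖ + b) t :=
    ((phAt_log isComplexManifold_C hf (sub_ne_zero.2 ht)).const_mul a).add (phAt_const b t)
  refine hu.add_coe (hPH.pshAt isComplexManifold_C) ?_
  have h1 : ∀ᶠ s in 𝓝 t, s ≠ 1 := isOpen_ne.mem_nhds ht
  filter_upwards [h1] with s hs
  have : ‖s - 1‖ ≠ 0 := by simpa [sub_eq_zero] using hs
  fun_prop (disch := assumption)

/-- If `u` is psh on the punctured disc `|t| ≤ 3`, `t ≠ 1`, `u ≤ B` on `|t| = 3`, `u ≤ B - 1` on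
`|t - 1| = δ`, then `u 0 ≤ B - log 2 / log (2 / δ)`. -/
theorem disc_gain {u : ℂ → EReal} {δ B : ℝ} (hδ0 : 0 < δ) (hδ1 : δ < 1)
    (hu : ∀ t ∈ closedBall (0 : ℂ) 3, t ≠ 1 → PshAt u t)
    (h3 : ∀ t ∈ sphere (0 : ℂ) 3, u t ≤ B) (h1 : ∀ t ∈ sphere (1 : ℂ) δ, u t ≤ (B - 1 : ℝ)) :
    u 0 ≤ (B - Real.log 2 / Real.log (2 / δ) : ℝ) := by
  set Λ := Real.log (2 / δ) with hΛ
  have hΛ0 : 0 < Λ := Real.log_pos (by rw [lt_div_iff₀ hδ0]; linarith)
  set w : ℂ → EReal := fun s => u s + ((-(1 / Λ) * Real.log ‖s - 1‖ + (1 / Λ) * Real.log 2 : ℝ) : EReal)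
    with hw
  have hpsh : ∀ t ∈ closedBall (0 : ℂ) 3, t ≠ 1 → PshAt w t :=
    fun t ht ht1 => pshAt_add_log (hu t ht ht1) ht1 _ _
  have hKc : IsCompact (closedBall (0 : ℂ) 3 \ ball 1 δ) :=
    (isCompact_closedBall 0 3).diff isOpen_ball
  have hne : ∀ t ∈ closedBall (0 : ℂ) 3 \ ball 1 δ, t ≠ 1 := by
    rintro t ⟨_, h⟩ rfl
    exact h (mem_ball_self hδ0)
  have key := maxPrinciple (K := closedBall (0 : ℂ) 3 \ ball 1 δ)
    (U := ball (0 : ℂ) 3 \ closedBall 1 δ) hKc (isOpen_ball.sdiff isClosed_closedBall)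
    (sdiff_subset_sdiff ball_subset_closedBall ball_subset_closedBall) (u := w)
    (fun t ht => ((hpsh t ht.1 (hne t ht)).upperSemicontinuousAt).upperSemicontinuousWithinAt _)
    (fun t ht => hpsh t (ball_subset_closedBall ht.1)
      (hne t ⟨ball_subset_closedBall ht.1, fun h => ht.2 (ball_subset_closedBall h)⟩)) B ?_
  · have h0 : (0 : ℂ) ∈ closedBall (0 : ℂ) 3 \ ball 1 δ := by
      refine ⟨by simp, ?_⟩
      simp only [mem_ball, dist_zero_left, not_lt]
      simpa using hδ1.le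
    have := key 0 h0
    simp only [hw, zero_sub, norm_neg, norm_one, Real.log_one, mul_zero, zero_add] at this
    have h2 : u 0 + ((1 / Λ * Real.log 2 : ℝ) : EReal) + ((-(1 / Λ * Real.log 2) : ℝ) : EReal) ≤
        B + ((-(1 / Λ * Real.log 2) : ℝ) : EReal) := add_le_add_left this _
    rw [add_assoc, ← EReal.coe_add, add_neg_cancel, EReal.coe_zero, add_zero, ← EReal.coe_add] at h2
    refine h2.trans (le_of_eq ?_)
    congr 1
    ring
  · rintro t ⟨⟨ht3, ht1⟩, htU⟩
    have hcase : t ∈ sphere (0 : ℂ) 3 ∨ t ∈ sphere (1 : ℂ) δ := by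
      by_contra hcon
      push Not at hcon
      apply htU
      constructor
      · rw [mem_ball]
        exact lt_of_le_of_ne (mem_closedBall.1 ht3) hcon.1
      · intro h
        apply hcon.2
        rw [mem_sphere]
        exact le_antisymm (mem_closedBall.1 h) (not_lt.1 ht1)
    rcases hcase with h | h
    · have hn : 2 ≤ ‖t - 1‖ := by
        have h' : ‖t‖ = 3 := by simpa using h
        have := norm_sub_norm_le t 1
        rw [h', norm_one] at this
        linarith
      have h2 : -(1 / Λ) * Real.log ‖t - 1‖ + 1 / Λ * Real.log 2 ≤ 0 := by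
        have := Real.log_le_log (by norm_num) hn
        have h3 : 0 < 1 / Λ := by positivity
        nlinarith
      calc w t ≤ B + ((0 : ℝ) : EReal) := add_le_add (h3 t h) (by exact_mod_cast h2)
        _ = B := by simp
    · have hn : ‖t - 1‖ = δ := by simpa [dist_eq_norm] using h
      have h2 : -(1 / Λ) * Real.log ‖t - 1‖ + 1 / Λ * Real.log 2 = 1 := by
        rw [hn]
        have : Λ = Real.log 2 - Real.log δ := by rw [hΛ, Real.log_div (by norm_num) hδ0.ne']
        have h4 : 1 / Λ * Λ = 1 := by field_simp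
        calc _ = 1 / Λ * (Real.log 2 - Real.log δ) := by ring
          _ = 1 := by rw [← this, h4]
      calc w t ≤ ((B - 1 : ℝ) : EReal) + ((1 : ℝ) : EReal) := by
            rw [hw]; simp only; rw [h2]; exact add_le_add_left (h1 t h) _
        _ = B := by rw [← EReal.coe_add]; simp

end Pool.Agent.helper90.KMMP
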