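import Pool.Agent.helper90.KMMP.KXK
import Pool.Agent.helper90.KMMP.DiscGain

/-!
# Passage to the etale charts of `X`
-/

open scoped Topology ContDiff
open Set Filter Metric

namespace Pool.Agent.helper90.KMMP

theorem map_reg_nhds {z : C3} (hz : z ∉ O3) : map reg (𝓝 z) = 𝓝 (reg z) := by
  apply le_antisymm
  · exact kmAtlas_compatible.continuousAt none z hz
  · intro N hN
    have := kmAtlas_compatible.open_map none z hz _ hN
    exact mem_of_superset this (image_preimage_subset _ _)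

theorem map_exc_nhds {f : C3} (hf : f ∈ O3) {j : Fin 3} {a : C3} (ha : a ∈ Vexc j) :
    map (exc f j) (𝓝 a) = 𝓝 (exc f j a) := by
  apply le_antisymm
  · exact kmAtlas_compatible.continuousAt (some (⟨f, hf⟩, j)) a ha
  · intro N hN
    have := kmAtlas_compatible.open_map (some (⟨f, hf⟩, j)) a ha _ hN
    exact mem_of_superset this (image_preimage_subset _ _)

theorem mem_closure_preimage {𝒰 : Set KX} (h𝒰 : Dense 𝒰) {Θ : C3 → KX} {a : C3}
    (h : map Θ (𝓝 a) = 𝓝 (Θ a)) : a ∈ closure (Θ ⁻¹' 𝒰) := by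
  rw [mem_closure_iff_nhds]
  intro N hN
  have h1 : Θ '' N ∈ 𝓝 (Θ a) := by rw [← h]; exact image_mem_map hN
  obtain ⟨y, ⟨b, hb, rfl⟩, hy2⟩ := mem_closure_iff_nhds.1 (h𝒰 (Θ a)) _ h1
  exact ⟨b, hb, hy2⟩

theorem PHAt.continuousAt_C3 {n : ℕ} {u : (Fin n → ℂ) → ℝ} {x : Fin n → ℂ} (hu : PHAt u x) :
    ContinuousAt u x := by
  obtain ⟨F, hF, h⟩ := hu
  have hF' : AnalyticAt ℂ F x := hF
  exact (Complex.continuous_re.continuousAt.comp hF'.continuousAt).congr h.symm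

theorem core_transfer {𝒰 : Set KX} (h𝒰 : Dense 𝒰) {Θ : C3 → KX} {a : C3}
    (hΘ : ∀ᶠ a' in 𝓝 a, HolMapAt Θ a' ∧ map Θ (𝓝 a') = 𝓝 (Θ a')) {v : KX → ℝ} {E w : C3 → ℝ}
    (hv : PshAt (reguSup 𝒰 v) (Θ a)) (hE : ∀ᶠ a' in 𝓝 a, Θ a' ∈ 𝒰 → v (Θ a') = E a' + w a')
    (hw : PHAt w a) : PshAt (reguSup (Θ ⁻¹' 𝒰) E) a := by
  have h1 : PshAt (fun a' => reguSup 𝒰 v (Θ a')) a := hv.comp (hΘ.mono fun a' h => h.1)
  have hw' : ∀ᶠ a' in 𝓝 a, ContinuousAt w a' := hw.eventually.mono fun _ h => h.continuousAt_C3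
  have h2 : (fun a' => reguSup 𝒰 v (Θ a')) =ᶠ[𝓝 a] fun a' => reguSup (Θ ⁻¹' 𝒰) E a' + w a' := by
    filter_upwards [hΘ, hE.eventually_nhds, hw'] with a' h3 h4 h5
    rw [← reguSup_comp h3.2, ← reguSup_add (mem_closure_preimage h𝒰 h3.2) h5]
    exact reguSup_congr h4
  have h3 : PshAt (fun a' => reguSup (Θ ⁻¹' 𝒰) E a' + w a') a := h1.congr h2
  have h4 := h3.add_coe (v := fun a' => - w a') (by
    have := (hw.const_mul (-1)).pshAt (isComplexManifold_Cn 3)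
    simpa using this) (hw'.mono fun a' h => h.neg)
  refine h4.congr (Eventually.of_forall fun a' => ?_)
  simp only
  rw [add_assoc, ← EReal.coe_add, add_neg_cancel, EReal.coe_zero, add_zero]

open Classical in
/-- explicit form of the psh condition for `h` in the etale charts -/
structure CoreData (c : ℝ) (K : C3 → ℝ) (Ke : Fin 3 → C3 → ℝ) (𝒰 : Set KX) (ε : ℝ)
    (h : KX → ℝ) : Prop where
  cont : ContinuousOn h 𝒰
  psh_reg : ∀ z, z ∉ O3 → PshAt (reguSup (reg ⁻¹' 𝒰) (fun z' => ‖LL z'‖ ^ 2 + ε * K z' +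
    h (reg z') + c * Real.log ‖if z 2 ∈ PiEis then z' 2 - z 2 else 1‖)) z
  psh_exc : ∀ f ∈ O3, ∀ j, ∀ a ∈ Vexc j, PshAt (reguSup (exc f j ⁻¹' 𝒰) (fun a' =>
    thetaExc j a' + ε * Ke j a' + h (exc f j a') +
      c * Real.log ‖if f 2 ∈ PiEis ∧ j ≠ 2 ∧ a 2 = 0 then a' 2 else 1‖)) a

/-- properties of the potentials of the Kähler class used in the claims -/
structure KappaData (K : C3 → ℝ) (Ke : Fin 3 → C3 → ℝ) : Prop where
  contK : ContinuousOn K O3ᶜ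
  contKe : ∀ j, ContinuousOn (Ke j) (Vexc j)
  bddK : ∀ R : ℝ, ∃ C : ℝ, ∀ z, z ∉ O3 → ‖z‖ ≤ R → K z ≤ C

open Classical in
/-- passage from potentials to etale charts -/
theorem coreData_of_psh {θ κ κ₀ : LocPot KX} {K : C3 → ℝ} {Ke : Fin 3 → C3 → ℝ}
    (hθ : HasPot θ (fun z => ‖LL z‖ ^ 2) thetaExc) (hκ : HasPot κ K Ke)
    (hκ₀ : HasPot κ₀ (fun _ => 0) (fun _ _ => 0)) (P : SNC 3 Unit KX)
    (hP : (∀ z, z ∉ O3 → ∃ u : C3 → ℂ, AnalyticAt ℂ u z ∧ u z ≠ 0 ∧ ∀ᶠ z' in 𝓝 z,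
      P.eq () (reg z) (reg z') = u z' * (if z 2 ∈ PiEis then z' 2 - z 2 else 1)) ∧
    ∀ f ∈ O3, ∀ j, ∀ a ∈ Vexc j, ∃ u : C3 → ℂ, AnalyticAt ℂ u a ∧ u a ≠ 0 ∧ ∀ᶠ a' in 𝓝 a,
      P.eq () (exc f j a) (exc f j a') =
        u a' * (if f 2 ∈ PiEis ∧ j ≠ 2 ∧ a 2 = 0 then a' 2 else 1))
    {c ε : ℝ} {𝒰 : Set KX} (h𝒰' : Dense 𝒰) (hdisj : ∀ y ∈ 𝒰, y ∉ P.D ()) {h : KX → ℝ}
    (hc : ContinuousOn h 𝒰)
    (hpsh : ∀ x, PshAt (reguSup 𝒰 (fun y => κ₀.pot x y + θ.pot x y + ε * κ.pot x y + h y +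
      c * Real.log ‖P.eq () x y‖)) x) : CoreData c K Ke 𝒰 ε h where
  cont := hc
  psh_reg := by
    intro z hz
    obtain ⟨u, hu1, hu2, hu3⟩ := hP.1 z hz
    refine core_transfer (w := fun z' => (κ₀.pot (reg z) (reg z') - 0) +
        (θ.pot (reg z) (reg z') - ‖LL z'‖ ^ 2) + ε * (κ.pot (reg z) (reg z') - K z') +
        c * Real.log ‖u z'‖) h𝒰' ?_ (hpsh (reg z)) ?_ ?_
    · filter_upwards [isOpen_O3_compl.mem_nhds hz] with z' hz'
      exact ⟨holMapAt_reg hz', map_reg_nhds hz'⟩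
    · have h1 : ∀ᶠ z' in 𝓝 z, (reg z' ∈ P.D () ↔ P.eq () (reg z) (reg z') = 0) :=
        (holMapAt_reg hz).1.eventually (P.mem_iff () (reg z))
      filter_upwards [h1, hu3] with z' h1 h3 hz'
      have h4 : P.eq () (reg z) (reg z') ≠ 0 := fun h0 => hdisj _ hz' (h1.2 h0)
      have h5 : Real.log ‖P.eq () (reg z) (reg z')‖ = Real.log ‖u z'‖ +
          Real.log ‖if z 2 ∈ PiEis then z' 2 - z 2 else 1‖ := by
        rw [h3] at h4 ⊢
        rw [norm_mul, Real.log_mul (norm_ne_zero_iff.2 (left_ne_zero_of_mul h4))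
          (norm_ne_zero_iff.2 (right_ne_zero_of_mul h4))]
      rw [h5]; ring
    · exact (((hκ₀.1 z hz).add (hθ.1 z hz)).add ((hκ.1 z hz).const_mul ε)).add
        ((phAt_log (isComplexManifold_Cn 3) (show Hol u z from hu1) hu2).const_mul c)
  psh_exc := by
    intro f hf j a ha
    obtain ⟨u, hu1, hu2, hu3⟩ := hP.2 f hf j a ha
    refine core_transfer (w := fun a' => (κ₀.pot (exc f j a) (exc f j a') - 0) +
        (θ.pot (exc f j a) (exc f j a') - thetaExc j a') +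
        ε * (κ.pot (exc f j a) (exc f j a') - Ke j a') +
        c * Real.log ‖u a'‖) h𝒰' ?_ (hpsh (exc f j a)) ?_ ?_
    · filter_upwards [(isOpen_Vexc j).mem_nhds ha] with z' hz'
      exact ⟨holMapAt_exc hf hz', map_exc_nhds hf hz'⟩
    · have h1 : ∀ᶠ a' in 𝓝 a, (exc f j a' ∈ P.D () ↔ P.eq () (exc f j a) (exc f j a') = 0) :=
        (holMapAt_exc hf ha).1.eventually (P.mem_iff () (exc f j a))
      filter_upwards [h1, hu3] with a' h1 h3 ha'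
      have h4 : P.eq () (exc f j a) (exc f j a') ≠ 0 := fun h0 => hdisj _ ha' (h1.2 h0)
      have h5 : Real.log ‖P.eq () (exc f j a) (exc f j a')‖ = Real.log ‖u a'‖ +
          Real.log ‖if f 2 ∈ PiEis ∧ j ≠ 2 ∧ a 2 = 0 then a' 2 else 1‖ := by
        rw [h3] at h4 ⊢
        rw [norm_mul, Real.log_mul (norm_ne_zero_iff.2 (left_ne_zero_of_mul h4))
          (norm_ne_zero_iff.2 (right_ne_zero_of_mul h4))]
      rw [h5]; ring
    · exact (((hκ₀.2 f hf j a ha).add (hθ.2 f hf j a ha)).add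
        ((hκ.2 f hf j a ha).const_mul ε)).add
        ((phAt_log (isComplexManifold_Cn 3) (show Hol u a from hu1) hu2).const_mul c)

end Pool.Agent.helper90.KMMP
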