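import Pool.Agent.helper90.KMMP.CoreC2

/-!
# Claim B
-/

open scoped Topology ContDiff
open Set Filter Metric

namespace Pool.Agent.helper90.KMMP

/-- points of the regular chart with `z 2 = 0` are on `T` -/
theorem z2_ne_zero {𝒰 : Set KX} (hT : ∀ y ∈ 𝒰, y ∉ TT) {z : C3} (hz : z ∉ O3) (hz' : reg z ∈ 𝒰) :
    z 2 ≠ 0 := fun h0 => hT _ hz' (Or.inl ⟨z, hz, h0, rfl⟩)

theorem not_mem_PiEis {x : ℂ} (h0 : x ≠ 0) (h1 : ‖x‖ < 1) : x ∉ PiEis := fun h =>
  absurd (one_le_norm_eis (piEis_sub_eis h) h0) (not_le.2 h1)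

theorem not_mem_O3_of {z : C3} (h0 : z 2 ≠ 0) (h1 : ‖z 2‖ < 1) : z ∉ O3 := fun h =>
  absurd (one_le_norm_eis (h 2) h0) (not_le.2 h1)

theorem zero_mem_PiEis : (0 : ℂ) ∈ PiEis := ⟨0, ⟨0, 0, by simp⟩, by simp⟩

/-- psh-ness in the regular chart away from `T` -/
theorem CoreData.psh_regT {c : ℝ} {K : C3 → ℝ} {Ke : Fin 3 → C3 → ℝ} {𝒰 : Set KX} {ε : ℝ}
    {h : KX → ℝ} (D : CoreData c K Ke 𝒰 ε h) (z : C3) (h0 : z 2 ≠ 0) (h1 : ‖z 2‖ < 1) :
    PshAt (reguSup (reg ⁻¹' 𝒰) (fun z' => ‖LL z'‖ ^ 2 + ε * K z' + h (reg z'))) z := by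
  have := D.psh_reg z (not_mem_O3_of h0 h1)
  simpa only [if_neg (not_mem_PiEis h0 h1), norm_one, Real.log_one, mul_zero, add_zero] using this

/-- psh-ness in the exceptional charts away from `T` -/
theorem CoreData.psh_excT {c : ℝ} {K : C3 → ℝ} {Ke : Fin 3 → C3 → ℝ} {𝒰 : Set KX} {ε : ℝ}
    {h : KX → ℝ} (D : CoreData c K Ke 𝒰 ε h) {f : C3} (hf : f ∈ O3) {j : Fin 3} {a : C3}
    (ha : a ∈ Vexc j) (h0 : a 2 ≠ 0) :
    PshAt (reguSup (exc f j ⁻¹' 𝒰) (fun a' => thetaExc j a' + ε * Ke j a' + h (exc f j a'))) a := by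
  have := D.psh_exc f hf j a ha
  have h1 : ¬ (f 2 ∈ PiEis ∧ j ≠ 2 ∧ a 2 = 0) := fun h => h0 h.2.2
  simpa only [if_neg h1, norm_one, Real.log_one, mul_zero, add_zero] using this

/-- Uniform upper bound near a fixed point `f` (`f 2 = 0`), in the region close to `T`. -/
theorem CoreData.near_fixed {c : ℝ} (hc : 0 < c) {K : C3 → ℝ} {Ke : Fin 3 → C3 → ℝ}
    (hK : KappaData K Ke) {𝒰 : Set KX} (h𝒰 : IsOpen 𝒰) (h𝒰' : Dense 𝒰) (hT : ∀ y ∈ 𝒰, y ∉ TT)
    {ε : ℝ} (hε : 0 < ε) (hε1 : ε ≤ 1) {h : KX → ℝ} (D : CoreData c K Ke 𝒰 ε h) {C₀ : ℝ}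
    (hC₀ : ∀ j (a : C3), ‖a j‖ ≤ (1 / 5) ^ 3 → (∀ k, k ≠ j → ‖a k‖ ≤ 2) →
      |Ke j a| ≤ C₀ ∧ thetaExc j a ≤ C₀) {m₁ r₁ : ℝ} (hr₁ : 0 < r₁)
    (hm₁ : ∀ z, z ∉ O3 → reg z ∈ 𝒰 → ‖z 2‖ < r₁ → h (reg z) + c * Real.log ‖z 2‖ ≤ m₁)
    {f : C3} (hf : f ∈ O3) (hf2 : f 2 = 0) {j : Fin 3} (hj : j ≠ 2) {z : C3} (hz : z ∉ O3)
    (hz𝒰 : reg z ∈ 𝒰) (hzj : ‖z j - f j‖ ≤ 1 / 5) (hzk : ∀ k, ‖z k - f k‖ ≤ 2 * ‖z j - f j‖)
    (hz2 : ‖z 2‖ ≤ r₁ * ‖z j - f j‖) :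
    h (reg z) + c * Real.log ‖z 2‖ ≤
      m₁ + 3 * C₀ + c * Real.log 5 + c * Real.log ‖z j - f j‖ := by
  have hz20 : z 2 ≠ 0 := z2_ne_zero hT hz hz𝒰
  have hne : z j ≠ f j := by
    intro h0
    rw [h0, sub_self, norm_zero, mul_zero] at hz2
    exact hz20 (norm_le_zero_iff.1 hz2)
  have hpos : 0 < ‖z j - f j‖ := norm_pos_iff.2 (sub_ne_zero.2 hne)
  set a := psi f j z with ha
  have hjj : a j = (z j - f j) ^ 3 := by rw [ha, psi, if_pos rfl]
  have hk : ∀ k, k ≠ j → ‖a k‖ ≤ 2 := by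
    intro k hkj
    rw [ha, psi, if_neg hkj, norm_div, div_le_iff₀ hpos]
    exact hzk k
  have ha2 : a 2 = z 2 / (z j - f j) := by
    rw [ha, psi, if_neg (Ne.symm hj), hf2, sub_zero]
  have ha20 : a 2 ≠ 0 := by rw [ha2]; exact div_ne_zero hz20 (sub_ne_zero.2 hne)
  have ha2n : ‖a 2‖ ≤ r₁ := by
    rw [ha2, norm_div, div_le_iff₀ hpos]; exact hz2
  have hreg : reg z = exc f j a := reg_eq_exc hf j hne
  have hcmem : ∀ t ∈ closedBall (0 : ℂ) 1,
      Function.update a j (((1 / 5) ^ 3 : ℝ) * t) ∈ Vexc j ∧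
      ‖Function.update a j (((1 / 5) ^ 3 : ℝ) * t) j‖ ≤ (1 / 5) ^ 3 ∧
      (∀ k, k ≠ j → ‖Function.update a j (((1 / 5) ^ 3 : ℝ) * t) k‖ ≤ 2) := by
    intro t ht
    have ht' : ‖t‖ ≤ 1 := by simpa using ht
    have h1 : ‖Function.update a j (((1 / 5) ^ 3 : ℝ) * t) j‖ ≤ (1 / 5) ^ 3 := by
      rw [Function.update_self, norm_mul, Complex.norm_real, Real.norm_of_nonneg (by positivity)]
      nlinarith
    have h2 : ∀ k, k ≠ j → ‖Function.update a j (((1 / 5) ^ 3 : ℝ) * t) k‖ ≤ 2 := by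
      intro k hkj
      rw [Function.update_of_ne hkj]; exact hk k hkj
    refine ⟨?_, h1, h2⟩
    intro k
    have h3 : ‖Function.update (Function.update a j (((1 / 5) ^ 3 : ℝ) * t)) j 1 k‖ ≤ 2 := by
      by_cases hkj : k = j
      · subst hkj; simp
      · rw [Function.update_of_ne hkj]; exact h2 k hkj
    calc _ ≤ (1 / 5 : ℝ) ^ 3 * 2 ^ 3 := by gcongr
      _ < 1 / 8 := by norm_num
  have hc2 : ∀ t : ℂ, Function.update a j (((1 / 5) ^ 3 : ℝ) * t) 2 = a 2 := fun t =>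
    Function.update_of_ne (Ne.symm hj) _ _
  have key := maxPrinciple_disc (u := reguSup (exc f j ⁻¹' 𝒰)
      (fun a' => thetaExc j a' + ε * Ke j a' + h (exc f j a')))
    (c := fun t : ℂ => Function.update a j (((1 / 5) ^ 3 : ℝ) * t))
    (fun t ht => ⟨holMapAt_update a j _ t, D.psh_excT hf (hcmem t ht).1 (by rw [hc2]; exact ha20)⟩)
    (2 * C₀ + m₁ + c * Real.log 5 - c * Real.log ‖a 2‖) ?_
  · -- conclusion
    set t₀ : ℂ := ((z j - f j) / (1 / 5 : ℝ)) ^ 3 with ht₀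
    have ht₀' : ‖t₀‖ ≤ 1 := by
      rw [ht₀, norm_pow, norm_div, Complex.norm_real, Real.norm_of_nonneg (by norm_num)]
      apply pow_le_one₀ (by positivity)
      rw [div_le_one (by norm_num)]; exact hzj
    have h1 := key t₀ (by simpa using ht₀')
    have h2 : Function.update a j (((1 / 5) ^ 3 : ℝ) * t₀) = a := by
      have : (((1 / 5) ^ 3 : ℝ) : ℂ) * t₀ = a j := by
        rw [hjj, ht₀]
        push_cast
        field_simp
      rw [this, Function.update_eq_self]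
    simp only [h2] at h1
    have hVe : a ∈ Vexc j := by
      have := (hcmem t₀ (by simpa using ht₀')).1
      rwa [h2] at this
    have ha𝒰 : exc f j a ∈ 𝒰 := hreg ▸ hz𝒰
    rw [reguSup_eq (show a ∈ exc f j ⁻¹' 𝒰 from ha𝒰)] at h1
    · have h3 : thetaExc j a + ε * Ke j a + h (exc f j a) ≤
          2 * C₀ + m₁ + c * Real.log 5 - c * Real.log ‖a 2‖ := by
        exact_mod_cast h1
      rw [← hreg] at h3
      have h4 := (abs_le.1 (hC₀ j a (by
        have := (hcmem t₀ (by simpa using ht₀')).2.1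
        rwa [h2] at this) hk).1)
      have h5 := thetaExc_nonneg j a
      have h6 : Real.log ‖a 2‖ = Real.log ‖z 2‖ - Real.log ‖z j - f j‖ := by
        rw [ha2, norm_div, Real.log_div (norm_ne_zero_iff.2 hz20) hpos.ne']
      rw [h6] at h3
      have h7 : 0 ≤ C₀ := by linarith
      have h8 : -C₀ ≤ ε * Ke j a := by nlinarith
      linarith
    · apply ContinuousAt.continuousWithinAt
      exact (((continuousOn_thetaExc j).continuousAt).add
        ((((hK.contKe j).continuousAt ((isOpen_Vexc j).mem_nhds hVe))).const_mul ε)).add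
        (continuousAt_h_exc h𝒰 D.cont hf hVe ha𝒰)
  · intro t ht
    have ht1 : t ∈ closedBall (0 : ℂ) 1 := sphere_subset_closedBall ht
    have ht' : ‖t‖ = 1 := by simpa using ht
    obtain ⟨hV, hj1, hk1⟩ := hcmem t ht1
    have hb2 := hc2 t
    set b : C3 := Function.update a j (((1 / 5) ^ 3 : ℝ) * t) with hb
    have hKb : ContinuousAt (Ke j) b := (hK.contKe j).continuousAt ((isOpen_Vexc j).mem_nhds hV)
    have hbj : ‖b j‖ = (1 / 5) ^ 3 := by
      rw [hb, Function.update_self, norm_mul, Complex.norm_real,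
        Real.norm_of_nonneg (by positivity), ht', mul_one]
    have hcontj : ContinuousAt (fun a' : C3 => ‖a' j‖) b := ((continuous_apply j).norm).continuousAt
    have hcont2 : ContinuousAt (fun a' : C3 => ‖a' 2‖) b := ((continuous_apply 2).norm).continuousAt
    have hbj0 : ‖b j‖ ≠ 0 := by rw [hbj]; norm_num
    have hb20 : ‖b 2‖ ≠ 0 := by rw [hb2]; exact norm_ne_zero_iff.2 ha20
    refine (reguSup_le_of_le (w := fun a' => thetaExc j a' + ε * Ke j a' +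
        (m₁ - c * (1 / 3 * Real.log ‖a' j‖ + Real.log ‖a' 2‖)))
      (mem_closure_preimage h𝒰' (map_exc_nhds hf hV))
      ((((continuousOn_thetaExc j).continuousAt).add (hKb.const_mul ε)).add
        (continuousAt_const.sub ((((hcontj.log hbj0).const_mul (1 / 3)).add
          (hcont2.log hb20)).const_mul c))) ?_).trans ?_
    · have h1 : ∀ᶠ a' in 𝓝 b, a' ∈ Vexc j := (isOpen_Vexc j).mem_nhds hV
      have h2 : ∀ᶠ a' : C3 in 𝓝 b, ‖a' j‖ ≠ 0 := hcontj.eventually_ne hbj0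
      have h3 : ∀ᶠ a' : C3 in 𝓝 b, ‖a' j‖ * ‖a' 2‖ ^ 3 < r₁ ^ 3 := by
        refine (hcontj.mul (hcont2.pow 3)).eventually (gt_mem_nhds ?_)
        change ‖b j‖ * ‖b 2‖ ^ 3 < r₁ ^ 3
        rw [hbj, hb2]
        calc (1 / 5 : ℝ) ^ 3 * ‖a 2‖ ^ 3 ≤ (1 / 5 : ℝ) ^ 3 * r₁ ^ 3 := by gcongr
          _ < r₁ ^ 3 := by nlinarith [pow_pos hr₁ 3]
      filter_upwards [h1, h2, h3] with a' h1 h2 h3 ha'
      have h0 : a' j ≠ 0 := norm_ne_zero_iff.1 h2
      obtain ⟨h4, h5⟩ := exc_eq_reg hf h1 h0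
      have h6 : (f + cbrt (a' j) • Function.update a' j 1) 2 = cbrt (a' j) * a' 2 := by
        simp only [Pi.add_apply, hf2, zero_add, Pi.smul_apply, smul_eq_mul]
        rw [Function.update_of_ne (Ne.symm hj)]
      have h7 : ‖cbrt (a' j) * a' 2‖ < r₁ := by
        apply lt_of_pow_lt_pow_left₀ 3 hr₁.le
        rw [norm_mul, mul_pow, norm_cbrt_pow]; exact h3
      have h8 := hm₁ _ h4 (h5 ▸ ha') (by rw [h6]; exact h7)
      rw [← h5, h6] at h8
      have h9 : a' 2 ≠ 0 := by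
        intro h9
        have := z2_ne_zero hT h4 (h5 ▸ ha')
        rw [h6, h9, mul_zero] at this
        exact this rfl
      have h10 : Real.log ‖cbrt (a' j) * a' 2‖ = 1 / 3 * Real.log ‖a' j‖ + Real.log ‖a' 2‖ := by
        rw [norm_mul, Real.log_mul (norm_ne_zero_iff.2 (cbrt_ne_zero h0)) (norm_ne_zero_iff.2 h9),
          ← norm_cbrt_pow (a' j), Real.log_pow]
        push_cast; ring
      rw [h10] at h8
      linarith
    · have h1 := hC₀ j b hj1 hk1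
      have h2 := (abs_le.1 h1.1).2
      have h3 : 1 / 3 * Real.log ‖b j‖ = - Real.log 5 := by
        rw [hbj, Real.log_pow, Real.log_div (by norm_num) (by norm_num), Real.log_one]
        push_cast; ring
      have h7 : 0 ≤ C₀ := (abs_nonneg _).trans h1.1
      have h4 : ε * Ke j b ≤ C₀ := by nlinarith
      have h5 : thetaExc j b + ε * Ke j b + (m₁ - c * (1 / 3 * Real.log ‖b j‖ + Real.log ‖b 2‖)) ≤
          2 * C₀ + m₁ + c * Real.log 5 - c * Real.log ‖a 2‖ := by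
        rw [h3, hb2]; linarith [h1.2]
      exact_mod_cast h5

end Pool.Agent.helper90.KMMP
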