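import Pool.Agent.helper90.KMMP.CoreB

/-!
# Claim B, upper bounds near `T`
-/

open scoped Topology ContDiff
open Set Filter Metric

namespace Pool.Agent.helper90.KMMP

theorem exists_bound_on_compact {X : Type*} [TopologicalSpace X] {S : Set X} (hS : IsCompact S)
    {P : X → Prop} {g : X → ℝ} (h : ∀ x ∈ S, ∃ M : ℝ, ∀ᶠ y in 𝓝 x, P y → g y ≤ M) :
    ∃ M : ℝ, ∀ y ∈ S, P y → g y ≤ M := by
  refine hS.induction_on (p := fun s => ∃ M : ℝ, ∀ y ∈ s, P y → g y ≤ M) ⟨0, by simp⟩ ?_ ?_ ?_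
  · rintro s t hst ⟨M, hM⟩
    exact ⟨M, fun y hy => hM y (hst hy)⟩
  · rintro s t ⟨M, hM⟩ ⟨M', hM'⟩
    refine ⟨max M M', fun y hy hP => ?_⟩
    rcases hy with hy | hy
    · exact (hM y hy hP).trans (le_max_left _ _)
    · exact (hM' y hy hP).trans (le_max_right _ _)
  · intro x hx
    obtain ⟨M, hM⟩ := h x hx
    exact ⟨_, mem_nhdsWithin_of_mem_nhds hM, M, fun y hy => hy⟩

theorem isCompact_box (j : Fin 3) {r s : ℝ} (hr : 0 ≤ r) (hs : 0 ≤ s) :
    IsCompact {a : C3 | ‖a j‖ ≤ r ∧ ∀ k, k ≠ j → ‖a k‖ ≤ s} := by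
  have hcl : IsClosed {a : C3 | ‖a j‖ ≤ r ∧ ∀ k, k ≠ j → ‖a k‖ ≤ s} := by
    have : {a : C3 | ‖a j‖ ≤ r ∧ ∀ k, k ≠ j → ‖a k‖ ≤ s} =
        {a : C3 | ‖a j‖ ≤ r} ∩ ⋂ k, ⋂ (_ : k ≠ j), {a : C3 | ‖a k‖ ≤ s} := by
      ext a; simp
    rw [this]
    exact (isClosed_le ((continuous_apply j).norm) continuous_const).inter
      (isClosed_iInter fun k => isClosed_iInter fun _ =>
        isClosed_le ((continuous_apply k).norm) continuous_const)
  refine (isCompact_closedBall (0 : C3) (r + s)).of_isClosed_subset hcl ?_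
  rintro a ⟨h1, h2⟩
  rw [mem_closedBall_zero_iff]
  refine (pi_norm_le_iff_of_nonneg (by positivity)).2 fun k => ?_
  by_cases hk : k = j
  · subst hk; linarith
  · linarith [h2 k hk]

/-- upper bound near a fixed point (constant depending on everything) -/
theorem CoreData.fixed_bound {c : ℝ} (hc : 0 < c) {K : C3 → ℝ} {Ke : Fin 3 → C3 → ℝ}
    (hK : KappaData K Ke) {𝒰 : Set KX} (hT : ∀ y ∈ 𝒰, y ∉ TT)
    {ε : ℝ} (hε : 0 < ε) {h : KX → ℝ} (D : CoreData c K Ke 𝒰 ε h)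
    {f : C3} (hf : f ∈ O3) (hf2 : f 2 = 0) :
    ∃ M : ℝ, ∀ z, z ∉ O3 → reg z ∈ 𝒰 → ‖z - f‖ < 1 / 4 →
      h (reg z) + c * Real.log ‖z 2‖ ≤ M + c * Real.log ‖z - f‖ := by
  have hbox : ∀ j : Fin 3, {a : C3 | ‖a j‖ ≤ (1 / 4) ^ 3 ∧ ∀ k, k ≠ j → ‖a k‖ ≤ 1} ⊆ Vexc j := by
    rintro j a ⟨h1, h2⟩ k
    have h3 : ‖Function.update a j 1 k‖ ≤ 1 := by
      by_cases hk : k = j
      · subst hk; simp
      · rw [Function.update_of_ne hk]; exact h2 k hk
    calc _ ≤ (1 / 4 : ℝ) ^ 3 * 1 ^ 3 := by gcongr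
      _ < 1 / 8 := by norm_num
  have hj : ∀ j : Fin 3, ∃ M : ℝ, ∀ a ∈ {a : C3 | ‖a j‖ ≤ (1 / 4) ^ 3 ∧ ∀ k, k ≠ j → ‖a k‖ ≤ 1},
      (exc f j a ∈ 𝒰 ∧ (j ≠ 2 → a 2 ≠ 0)) →
        h (exc f j a) + c * (if j = 2 then 0 else Real.log ‖a 2‖) ≤ M := by
    intro j
    apply exists_bound_on_compact (isCompact_box j (by positivity) zero_le_one)
    intro b hb
    have hV := hbox j hb
    have hKc : ContinuousAt (Ke j) b := (hK.contKe j).continuousAt ((isOpen_Vexc j).mem_nhds hV)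
    have hK1 : ∀ᶠ z' in 𝓝 b, Ke j b - 1 < Ke j z' := hKc.eventually (lt_mem_nhds (by linarith))
    obtain ⟨M, hM⟩ := exists_bound_of_pshAt (D.psh_exc f hf j b hV)
    by_cases hj2 : j = 2
    · subst hj2
      refine ⟨M - ε * (Ke 2 b - 1), ?_⟩
      filter_upwards [hM, hK1] with a h1 h2 h3
      have h4 := h1 h3.1
      simp only [ne_eq, not_true_eq_false, false_and, and_false, if_false, norm_one, Real.log_one,
        mul_zero, add_zero] at h4
      simp only [if_true, mul_zero, add_zero]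
      nlinarith [thetaExc_nonneg 2 a]
    · by_cases hb2 : b 2 = 0
      · refine ⟨M - ε * (Ke j b - 1), ?_⟩
        filter_upwards [hM, hK1] with a h1 h2 h3
        have h4 := h1 h3.1
        rw [if_pos ⟨hf2 ▸ zero_mem_PiEis, hj2, hb2⟩] at h4
        rw [if_neg hj2]
        nlinarith [thetaExc_nonneg j a]
      · refine ⟨M - ε * (Ke j b - 1) + c * (Real.log ‖b 2‖ + 1), ?_⟩
        have hcont : ContinuousAt (fun a : C3 => Real.log ‖a 2‖) b :=
          ((continuous_apply (2 : Fin 3)).norm.continuousAt).log (norm_ne_zero_iff.2 hb2)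
        have hlog : ∀ᶠ a : C3 in 𝓝 b, Real.log ‖a 2‖ < Real.log ‖b 2‖ + 1 :=
          hcont.eventually (gt_mem_nhds (by linarith))
        filter_upwards [hM, hK1, hlog] with a h1 h2 h5 h3
        have h4 := h1 h3.1
        rw [if_neg (fun h => hb2 h.2.2)] at h4
        simp only [norm_one, Real.log_one, mul_zero, add_zero] at h4
        rw [if_neg hj2]
        have h6 : c * Real.log ‖a 2‖ ≤ c * (Real.log ‖b 2‖ + 1) := by gcongr
        nlinarith [thetaExc_nonneg j a]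
  choose M hM using hj
  refine ⟨∑ j, |M j|, fun z hz hz𝒰 hzf => ?_⟩
  obtain ⟨j, hne, hjn, hVe, hreg, hk, hjj⟩ := exists_exc_chart hf hz (by linarith)
  have hz20 : z 2 ≠ 0 := z2_ne_zero hT hz hz𝒰
  have hpos : 0 < ‖z j - f j‖ := norm_pos_iff.2 (sub_ne_zero.2 hne)
  have hmem : psi f j z ∈ {a : C3 | ‖a j‖ ≤ (1 / 4) ^ 3 ∧ ∀ k, k ≠ j → ‖a k‖ ≤ 1} := by
    refine ⟨?_, hk⟩
    rw [hjj, norm_pow, hjn]
    exact pow_le_pow_left₀ (norm_nonneg _) hzf.le 3
  have hMj : M j ≤ ∑ j, |M j| := (le_abs_self _).trans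
    (Finset.single_le_sum (f := fun j => |M j|) (fun i _ => abs_nonneg _) (Finset.mem_univ j))
  have h2ne : j ≠ 2 → psi f j z 2 = z 2 / (z j - f j) := by
    intro hj2
    rw [psi, if_neg (Ne.symm hj2), hf2, sub_zero]
  have h1 := hM j (psi f j z) hmem ⟨hreg ▸ hz𝒰, fun hj2 => by
    rw [h2ne hj2]; exact div_ne_zero hz20 (sub_ne_zero.2 hne)⟩
  rw [← hreg] at h1
  by_cases hj2 : j = 2
  · rw [if_pos hj2, mul_zero, add_zero] at h1
    subst hj2
    rw [hf2, sub_zero] at hjn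
    rw [← hjn]
    linarith
  · rw [if_neg hj2, h2ne hj2, norm_div, Real.log_div (norm_ne_zero_iff.2 hz20) hpos.ne', hjn] at h1
    linarith

theorem finite_O3_closedBall (r : ℕ) : (O3 ∩ closedBall 0 (r : ℝ)).Finite := by
  have hE : (Eis ∩ closedBall 0 (r : ℝ)).Finite := by
    have : Eis ∩ closedBall 0 (r : ℝ) ⊆ (fun p : ℤ × ℤ => (p.1 : ℂ) + p.2 * om) ''
        (Icc (-(2 * r : ℤ)) (2 * r) ×ˢ Icc (-(2 * r : ℤ)) (2 * r)) := by
      rintro z ⟨⟨a, b, rfl⟩, hz⟩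
      refine ⟨(a, b), ?_, rfl⟩
      have h1 : ‖(a : ℂ) + b * om‖ ≤ r := by simpa using hz
      have h2 : Complex.normSq ((a : ℂ) + b * om) ≤ (r : ℝ) ^ 2 := by
        rw [Complex.normSq_eq_norm_sq]
        exact pow_le_pow_left₀ (norm_nonneg _) h1 2
      rw [eis_normSq] at h2
      have h3 : a ^ 2 - a * b + b ^ 2 ≤ (r : ℤ) ^ 2 := by exact_mod_cast h2
      have ha : |a| ≤ |(2 * r : ℤ)| := by
        apply sq_le_sq.1
        nlinarith [sq_nonneg (a - 2 * b)]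
      have hb : |b| ≤ |(2 * r : ℤ)| := by
        apply sq_le_sq.1
        nlinarith [sq_nonneg (b - 2 * a)]
      rw [abs_of_nonneg (by positivity : (0 : ℤ) ≤ 2 * r)] at ha hb
      exact ⟨abs_le.1 ha, abs_le.1 hb⟩
    exact (((Set.finite_Icc _ _).prod (Set.finite_Icc _ _)).image _).subset this
  have : O3 ∩ closedBall 0 (r : ℝ) ⊆ Set.pi univ (fun _ : Fin 3 => Eis ∩ closedBall 0 (r : ℝ)) := by
    rintro z ⟨hz, hz'⟩ i _
    refine ⟨hz i, ?_⟩
    rw [mem_closedBall_zero_iff] at hz' ⊢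
    exact (norm_le_pi_norm z i).trans hz'
  exact (Set.Finite.pi' fun _ => hE).subset (by
    intro z hz i
    exact this hz i (mem_univ i))

/-- translation of the first two coordinates -/
theorem exists_L3_near_four' (w : C3) : ∃ l ∈ L3, l 2 = 0 ∧ ‖(w - l) 0‖ ≤ 4 ∧ ‖(w - l) 1‖ ≤ 4 := by
  obtain ⟨l, hl, hl2⟩ := exists_L3_near_four w
  refine ⟨Function.update l 2 0, ?_, by simp, ?_, ?_⟩
  · rw [mem_L3_iff] at hl ⊢
    intro i
    by_cases hi : i = 2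
    · subst hi; rw [Function.update_self]; exact zero_mem_PiEis
    · rw [Function.update_of_ne hi]; exact hl i
  · rw [Pi.sub_apply, Function.update_of_ne (by decide)]
    exact (norm_le_pi_norm (w - l) 0).trans hl2
  · rw [Pi.sub_apply, Function.update_of_ne (by decide)]
    exact (norm_le_pi_norm (w - l) 1).trans hl2

/-- uniform upper bound near all fixed points on `z 2 = 0` -/
theorem CoreData.fixed_bound_unif {c : ℝ} (hc : 0 < c) {K : C3 → ℝ} {Ke : Fin 3 → C3 → ℝ}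
    (hK : KappaData K Ke) {𝒰 : Set KX} (hT : ∀ y ∈ 𝒰, y ∉ TT)
    {ε : ℝ} (hε : 0 < ε) {h : KX → ℝ} (D : CoreData c K Ke 𝒰 ε h) :
    ∃ M : ℝ, ∀ f ∈ O3, f 2 = 0 → ∀ z, z ∉ O3 → reg z ∈ 𝒰 → ‖z - f‖ < 1 / 4 →
      h (reg z) + c * Real.log ‖z 2‖ ≤ M + c * Real.log ‖z - f‖ := by
  have hfin := finite_O3_closedBall 4
  choose! M hM using fun (f : C3) (hf : f ∈ O3 ∧ f 2 = 0) => D.fixed_bound hc hK hT hε hf.1 hf.2
  obtain ⟨B, hB⟩ : ∃ B : ℝ, ∀ f ∈ O3 ∩ closedBall 0 ((4 : ℕ) : ℝ), M f ≤ B :=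
    (hfin.image M).bddAbove.imp fun B hB f hf => hB ⟨f, hf, rfl⟩
  refine ⟨B, fun f hf hf2 z hz hz𝒰 hzf => ?_⟩
  obtain ⟨l, hl, hl2, h0, h1⟩ := exists_L3_near_four' f
  have hfl : f - l ∈ O3 := O3_sub hf (L3_sub_O3 hl)
  have hfl2 : (f - l) 2 = 0 := by simp [hf2, hl2]
  have hfln : ‖f - l‖ ≤ ((4 : ℕ) : ℝ) := by
    refine (pi_norm_le_iff_of_nonneg (by positivity)).2 fun i => ?_
    fin_cases i
    · simpa using h0
    · simpa using h1
    · simp [hf2, hl2]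
  have hzl : z - l ∉ O3 := by
    intro h0
    apply hz
    have := O3_add h0 (L3_sub_O3 hl)
    simpa using this
  have hregl : reg (z - l) = reg z := by
    have := reg_add hl (z - l)
    rw [sub_add_cancel] at this
    exact this.symm
  have key := hM (f - l) ⟨hfl, hfl2⟩ (z - l) hzl (hregl ▸ hz𝒰) (by
    have : z - l - (f - l) = z - f := by abel
    rwa [this])
  have e1 : z - l - (f - l) = z - f := by abel
  have e2 : (z - l) 2 = z 2 := by simp [hl2]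
  rw [hregl, e1, e2] at key
  have := hB (f - l) ⟨hfl, by rwa [mem_closedBall_zero_iff]⟩
  linarith

/-- global upper bound near `T` -/
theorem CoreData.bound_T {c : ℝ} (hc : 0 < c) {K : C3 → ℝ} {Ke : Fin 3 → C3 → ℝ}
    (hK : KappaData K Ke) {𝒰 : Set KX} (hT : ∀ y ∈ 𝒰, y ∉ TT)
    {ε : ℝ} (hε : 0 < ε) {h : KX → ℝ} (D : CoreData c K Ke 𝒰 ε h) :
    ∃ M r : ℝ, 0 < r ∧ ∀ z, z ∉ O3 → reg z ∈ 𝒰 → ‖z 2‖ < r →
      h (reg z) + c * Real.log ‖z 2‖ ≤ M := by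
  have hloc : ∀ z : C3, z 2 = 0 → ∃ M : ℝ, ∀ᶠ z' in 𝓝 z, (z' ∉ O3 ∧ reg z' ∈ 𝒰) →
      h (reg z') + c * Real.log ‖z' 2‖ ≤ M := by
    intro z hz2
    by_cases hz : z ∈ O3
    · obtain ⟨M, hM⟩ := D.fixed_bound hc hK hT hε hz hz2
      refine ⟨M, ?_⟩
      filter_upwards [ball_mem_nhds z (show (0 : ℝ) < 1 / 4 by norm_num)] with z' h1 h2
      rw [mem_ball, dist_eq_norm] at h1
      have h3 := hM z' h2.1 h2.2 h1
      have h4 : Real.log ‖z' - z‖ ≤ 0 := Real.log_nonpos (norm_nonneg _) (by linarith)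
      nlinarith
    · obtain ⟨M, hM⟩ := exists_bound_of_pshAt (D.psh_reg z hz)
      have hKc : ContinuousAt K z := hK.contK.continuousAt (isOpen_O3_compl.mem_nhds hz)
      have hK1 : ∀ᶠ z' in 𝓝 z, K z - 1 < K z' := hKc.eventually (lt_mem_nhds (by linarith))
      refine ⟨M - ε * (K z - 1), ?_⟩
      filter_upwards [hM, hK1] with z' h1 h2 h3
      have h4 := h1 h3.2
      rw [if_pos (hz2 ▸ zero_mem_PiEis), hz2, sub_zero] at h4
      nlinarith [sq_nonneg ‖LL z'‖]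
  choose! M hM using hloc
  have hcomp : IsCompact ({z : C3 | z 2 = 0} ∩ closedBall 0 4) :=
    (isCompact_closedBall 0 4).inter_left (isClosed_eq (continuous_apply 2) continuous_const)
  let N : C3 → Set C3 := fun z => interior {z' | (z' ∉ O3 ∧ reg z' ∈ 𝒰) →
      h (reg z') + c * Real.log ‖z' 2‖ ≤ M z}
  obtain ⟨t, htsub, ht⟩ := hcomp.elim_nhds_subcover N (fun z hz => interior_mem_nhds.2 (hM z hz.1))
  obtain ⟨B, hB⟩ : ∃ B : ℝ, ∀ z ∈ t, M z ≤ B := ⟨∑ z ∈ t, |M z|, fun z hz =>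
    (le_abs_self _).trans (Finset.single_le_sum (f := fun x => |M x|) (fun i _ => abs_nonneg _) hz)⟩
  obtain ⟨δ, hδ, hleb⟩ := lebesgue_number_lemma_of_metric (c := fun z : t => N z) hcomp
    (fun z => isOpen_interior) (by
      intro z hz
      have := ht hz
      simp only [mem_iUnion] at this ⊢
      obtain ⟨x, hx, hxz⟩ := this
      exact ⟨⟨x, hx⟩, hxz⟩)
  refine ⟨B, δ, hδ, fun z hz hz𝒰 hz2 => ?_⟩
  obtain ⟨l, hl, hl2, h0, h1⟩ := exists_L3_near_four' z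
  have hzl : z - l ∉ O3 := by
    intro h0
    apply hz
    have := O3_add h0 (L3_sub_O3 hl)
    simpa using this
  have hregl : reg (z - l) = reg z := by
    have := reg_add hl (z - l)
    rw [sub_add_cancel] at this
    exact this.symm
  have e2 : (z - l) 2 = z 2 := by simp [hl2]
  obtain ⟨⟨x, hx⟩, hxb⟩ := hleb (Function.update (z - l) 2 0) ⟨by simp, by
    rw [mem_closedBall_zero_iff]
    refine (pi_norm_le_iff_of_nonneg (by norm_num)).2 fun i => ?_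
    fin_cases i
    · simpa using h0
    · simpa using h1
    · simp⟩
  have hmem : z - l ∈ ball (Function.update (z - l) 2 0) δ := by
    rw [mem_ball, dist_eq_norm, pi_norm_lt_iff hδ]
    intro i
    by_cases hi : i = 2
    · subst hi; simpa [e2, hl2] using hz2
    · rw [Pi.sub_apply, Function.update_of_ne hi, sub_self, norm_zero]; exact hδ
  have := interior_subset (hxb hmem) ⟨hzl, hregl ▸ hz𝒰⟩
  rw [hregl, e2] at this
  exact this.trans (hB x hx)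

end Pool.Agent.helper90.KMMP
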