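import Pool.Agent.helper90.KMMP.CoreB2

/-!
# Claim B, conclusion
-/

open scoped Topology ContDiff
open Set Filter Metric

namespace Pool.Agent.helper90.KMMP

theorem norm_sqrt2 : ‖(Real.sqrt 2 : ℂ)‖ ≤ 3 / 2 := by
  rw [Complex.norm_real, Real.norm_of_nonneg (Real.sqrt_nonneg _)]
  rw [Real.sqrt_le_left (by norm_num)]
  norm_num

/-- The disc in the leaf line through `x₁` (near `T`) passing near a fixed point. -/
theorem CoreData.leaf_discB {c : ℝ} (hc : 0 < c) {K : C3 → ℝ} {Ke : Fin 3 → C3 → ℝ}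
    (hK : KappaData K Ke) {𝒰 : Set KX} (h𝒰 : IsOpen 𝒰) (h𝒰' : Dense 𝒰) (hT : ∀ y ∈ 𝒰, y ∉ TT)
    {ε : ℝ} (hε : 0 < ε) (hε1 : ε ≤ 1) {h : KX → ℝ} (D : CoreData c K Ke 𝒰 ε h) {C₀ : ℝ}
    (hC₀ : ∀ j (a : C3), ‖a j‖ ≤ (1 / 5) ^ 3 → (∀ k, k ≠ j → ‖a k‖ ≤ 2) →
      |Ke j a| ≤ C₀ ∧ thetaExc j a ≤ C₀) {m₁ r₁ : ℝ} (hr₁ : 0 < r₁) (hr₁1 : r₁ ≤ 1)
    (hm₁ : ∀ z, z ∉ O3 → reg z ∈ 𝒰 → ‖z 2‖ < r₁ → h (reg z) + c * Real.log ‖z 2‖ ≤ m₁)
    {d₀ : ℝ} (hd₀ : 0 < d₀) (hd₀5 : d₀ < 1 / 5) (hd₀log : 3 * C₀ + c * Real.log 5 + c * Real.log d₀ ≤ -2)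
    {R : ℝ} (hR : 0 < R)
    (hdens : ∀ ζ w : ℂ, ∃ f₀ ∈ Eis, ∃ f₁ ∈ Eis,
      ‖ζ - f₀ - (Real.sqrt 2 : ℂ) * f₁‖ < d₀ / 16 ∧ ‖w - f₁‖ ≤ R) {CK : ℝ}
    (hCK : ∀ z, z ∉ O3 → ‖z‖ ≤ 5 + 6 * R → K z ≤ CK) {x₁ : C3} (hx₁ : x₁ ∉ O3)
    (hx₁𝒰 : reg x₁ ∈ 𝒰) (hx₁n : ‖x₁‖ ≤ 4) (hx₁2 : ‖x₁ 2‖ < r₁ * (d₀ / 4))
    (hx₁f : ∀ f ∈ O3, d₀ ≤ ‖x₁ - f‖) :
    h (reg x₁) + c * Real.log ‖x₁ 2‖ + ε * K x₁ ≤
      ε * CK + m₁ - Real.log 2 / Real.log (2 / (d₀ / (4 * (R + d₀)))) := by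
  have hx20 : x₁ 2 ≠ 0 := z2_ne_zero hT hx₁ hx₁𝒰
  obtain ⟨f₀, hf₀, f₁, hf₁, hd1, hd2⟩ := hdens (LL x₁) (x₁ 1)
  set f : C3 := ![f₀, f₁, 0] with hfdef
  have hf : f ∈ O3 := by
    intro i
    fin_cases i
    · exact hf₀
    · exact hf₁
    · exact ⟨0, 0, by simp [hfdef]⟩
  have hf2 : f 2 = 0 := rfl
  have hf1' : f 1 = f₁ := rfl
  have hf0' : f 0 = f₀ := rfl
  set t₁ : ℂ := f₁ - x₁ 1 with ht₁
  have ht₁R : ‖t₁‖ ≤ R := by rw [ht₁, norm_sub_rev]; exact hd2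
  set s : ℂ := (Real.sqrt 2 : ℂ) with hs
  have hsn : ‖s‖ ≤ 3 / 2 := norm_sqrt2
  set β : ℂ := LL x₁ - f₀ - s * f₁ with hβ
  have hx0 : x₁ 0 - f₀ = β + s * t₁ := by
    rw [hβ, ht₁, LL]; ring
  -- lower bound for `t₁`
  have ht₁low : d₀ / 2 < ‖t₁‖ := by
    by_contra hcon
    push Not at hcon
    have h1 : ‖x₁ - f‖ < d₀ := by
      rw [pi_norm_lt_iff hd₀]
      intro i
      fin_cases i
      · change ‖x₁ 0 - f₀‖ < d₀
        rw [hx0]
        calc _ ≤ ‖β‖ + ‖s * t₁‖ := norm_add_le _ _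
          _ ≤ d₀ / 16 + 3 / 2 * (d₀ / 2) := by
            rw [norm_mul]
            have := mul_le_mul hsn hcon (norm_nonneg _) (by norm_num)
            linarith
          _ < d₀ := by linarith
      · change ‖x₁ 1 - f₁‖ < d₀
        rw [norm_sub_rev]
        change ‖t₁‖ < d₀
        linarith
      · change ‖x₁ 2 - 0‖ < d₀
        rw [sub_zero]
        nlinarith
    exact absurd (hx₁f f hf) (not_le.2 h1)
  have ht₁0 : 0 < ‖t₁‖ := by linarith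
  have ht₁ne : t₁ ≠ 0 := norm_pos_iff.1 ht₁0
  set v : C3 := ![-s * t₁, t₁, 0] with hv
  have hv0 : v 0 = -s * t₁ := rfl
  have hv1 : v 1 = t₁ := rfl
  have hv2 : v 2 = 0 := rfl
  have hLv : LL v = 0 := by rw [LL, hv0, hv1]; ring
  have hvn : ‖v‖ ≤ 2 * R := by
    refine (pi_norm_le_iff_of_nonneg (by positivity)).2 fun i => ?_
    fin_cases i
    · change ‖-s * t₁‖ ≤ _
      rw [norm_mul, norm_neg]
      have := mul_le_mul hsn ht₁R (norm_nonneg _) (by norm_num)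
      linarith
    · change ‖t₁‖ ≤ _
      linarith
    · change ‖(0 : ℂ)‖ ≤ _
      rw [norm_zero]; positivity
  have hLD : ∀ t : ℂ, LL (x₁ + t • v) = LL x₁ := by
    intro t; rw [LL_add, LL_smul, hLv, mul_zero, add_zero]
  have hD2 : ∀ t : ℂ, (x₁ + t • v) 2 = x₁ 2 := by intro t; simp [hv2]
  have hx2lt : ‖x₁ 2‖ < 1 := by nlinarith
  have hx2r : ‖x₁ 2‖ < r₁ := by nlinarith
  have hDO : ∀ t : ℂ, x₁ + t • v ∉ O3 := fun t =>
    not_mem_O3_of (by rw [hD2]; exact hx20) (by rw [hD2]; exact hx2lt)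
  have hDn : ∀ t ∈ closedBall (0 : ℂ) 3, ‖x₁ + t • v‖ ≤ 4 + 6 * R := by
    intro t ht
    have ht' : ‖t‖ ≤ 3 := by simpa using ht
    calc _ ≤ ‖x₁‖ + ‖t • v‖ := norm_add_le _ _
      _ ≤ 4 + 6 * R := by
        rw [norm_smul]
        have : ‖t‖ * ‖v‖ ≤ 3 * (2 * R) := mul_le_mul ht' hvn (norm_nonneg _) (by norm_num)
        linarith
  have hD1 : ∀ t : ℂ, (x₁ + t • v) 1 - f 1 = (t - 1) * t₁ := by
    intro t
    rw [Pi.add_apply, Pi.smul_apply, hv1, hf1', smul_eq_mul, ht₁]; ring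
  have hD0 : ∀ t : ℂ, (x₁ + t • v) 0 - f 0 = β - s * ((t - 1) * t₁) := by
    intro t
    rw [Pi.add_apply, Pi.smul_apply, hv0, hf0', smul_eq_mul]
    have : x₁ 0 + t * (-s * t₁) - f₀ = (x₁ 0 - f₀) - t * s * t₁ := by ring
    rw [this, hx0]; ring
  set δ : ℝ := d₀ / 4 with hδ
  set δ₁ : ℝ := δ / ‖t₁‖ with hδ₁
  have hδ0 : 0 < δ := by positivity
  have hδ₁0 : 0 < δ₁ := by positivity
  have hδ₁1 : δ₁ < 1 := by rw [hδ₁, div_lt_one ht₁0]; linarith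
  set E : C3 → ℝ := fun z' => ‖LL z'‖ ^ 2 + ε * K z' + h (reg z') with hE
  have hcl : ∀ t : ℂ, x₁ + t • v ∈ closure (reg ⁻¹' 𝒰) := fun t =>
    mem_closure_preimage h𝒰' (map_reg_nhds (hDO t))
  set P : ℝ := c * Real.log ‖x₁ 2‖ with hP
  -- a general bound
  have hbound : ∀ t ∈ closedBall (0 : ℂ) 3, ∀ (w : C3 → ℝ) (B' : ℝ),
      ContinuousAt w (x₁ + t • v) → w (x₁ + t • v) ≤ B' →
      (∀ᶠ z' in 𝓝 (x₁ + t • v), z' ∉ O3 → z' ∈ reg ⁻¹' 𝒰 →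
        h (reg z') + c * Real.log ‖z' 2‖ ≤ w z') →
      reguSup (reg ⁻¹' 𝒰) E (x₁ + t • v) ≤ ((‖LL x₁‖ ^ 2 + ε * CK + B' - P : ℝ) : EReal) := by
    intro t ht w B' hw hwB hB'
    have hlog : ContinuousAt (fun z' : C3 => Real.log ‖z' 2‖) (x₁ + t • v) := by
      refine ((continuous_apply (2 : Fin 3)).norm.continuousAt).log ?_
      rw [hD2]; exact norm_ne_zero_iff.2 hx20
    have h1 := reguSup_le_of_le (v := E)
      (w := fun z' => ‖LL z'‖ ^ 2 + ε * CK + w z' - c * Real.log ‖z' 2‖) (hcl t)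
      ((((continuous_LL.norm.pow 2).add continuous_const).continuousAt.add hw).sub
        (hlog.const_mul c)) ?_
    · refine h1.trans ?_
      simp only [hLD t, hD2 t]
      have : ‖LL x₁‖ ^ 2 + ε * CK + w (x₁ + t • v) - c * Real.log ‖x₁ 2‖ ≤
          ‖LL x₁‖ ^ 2 + ε * CK + B' - P := by linarith
      exact_mod_cast this
    · have h2 : ∀ᶠ z' : C3 in 𝓝 (x₁ + t • v), ‖z'‖ < 5 + 6 * R :=
        continuous_norm.continuousAt.eventually (gt_mem_nhds (by linarith [hDn t ht]))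
      filter_upwards [h2, isOpen_O3_compl.mem_nhds (hDO t), hB'] with z' h2 h3 h4 h5
      have h6 := hCK z' h3 h2.le
      have h7 := h4 h3 h5
      simp only [hE]
      nlinarith
  have hgain : Real.log 2 / Real.log (2 / (d₀ / (4 * (R + d₀)))) ≤
      Real.log 2 / Real.log (2 / δ₁) := by
    have h1 : 1 < 2 / δ₁ := by rw [lt_div_iff₀ hδ₁0]; linarith
    have h2 : 2 / δ₁ ≤ 2 / (d₀ / (4 * (R + d₀))) := by
      apply div_le_div_of_nonneg_left (by norm_num) (by positivity)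
      rw [hδ₁, hδ, div_div]
      apply div_le_div_of_nonneg_left hd₀.le (by positivity)
      linarith
    apply div_le_div_of_nonneg_left (Real.log_pos (by norm_num)).le (Real.log_pos h1)
    exact Real.log_le_log (by linarith) h2
  have key := disc_gain (u := fun t : ℂ => reguSup (reg ⁻¹' 𝒰) E (x₁ + t • v)) (δ := δ₁)
    (B := ‖LL x₁‖ ^ 2 + ε * CK + m₁ - P) hδ₁0 hδ₁1 (fun t _ _ =>
      (D.psh_regT _ (by rw [hD2]; exact hx20) (by rw [hD2]; exact hx2lt)).comp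
        (f := fun t : ℂ => x₁ + t • v)
        (Eventually.of_forall fun s => holMapAt_line x₁ v s)) ?_ ?_
  · simp only [zero_smul, add_zero] at key
    rw [reguSup_eq (show x₁ ∈ reg ⁻¹' 𝒰 from hx₁𝒰)] at key
    · have h1 : E x₁ ≤ ‖LL x₁‖ ^ 2 + ε * CK + m₁ - P - Real.log 2 / Real.log (2 / δ₁) := by
        exact_mod_cast key
      simp only [hE] at h1
      linarith
    · apply ContinuousAt.continuousWithinAt
      exact (((continuous_LL.norm.pow 2).continuousAt).add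
        ((hK.contK.continuousAt (isOpen_O3_compl.mem_nhds hx₁)).const_mul ε)).add
        (continuousAt_h_reg h𝒰 D.cont hx₁ hx₁𝒰)
  · intro t ht
    refine hbound t (sphere_subset_closedBall ht) (fun _ => m₁) m₁ continuousAt_const le_rfl ?_
    have hcont2 : ContinuousAt (fun a' : C3 => ‖a' 2‖) (x₁ + t • v) :=
      ((continuous_apply (2 : Fin 3)).norm).continuousAt
    have h2 : ∀ᶠ z' : C3 in 𝓝 (x₁ + t • v), ‖z' 2‖ < r₁ :=
      hcont2.eventually (gt_mem_nhds (by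
        change ‖(x₁ + t • v) 2‖ < r₁
        rw [hD2]; exact hx2r))
    filter_upwards [h2] with z' h2 h3 h4
    exact hm₁ z' h3 h4 h2
  · intro t ht
    have ht1 : ‖t - 1‖ = δ₁ := by simpa [dist_eq_norm] using ht
    have ht3 : t ∈ closedBall (0 : ℂ) 3 := by
      rw [mem_closedBall_zero_iff]
      have : ‖t‖ ≤ ‖t - 1‖ + ‖(1 : ℂ)‖ := by
        have := norm_add_le (t - 1) 1
        simpa using this
      rw [ht1, norm_one] at this
      linarith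
    have htt : ‖(t - 1) * t₁‖ = δ := by
      rw [norm_mul, ht1, hδ₁]; field_simp
    have hcont : ∀ k : Fin 3, ContinuousAt (fun z' : C3 => ‖z' k - f k‖) (x₁ + t • v) := fun k =>
      (((continuous_apply k).sub continuous_const).norm).continuousAt
    have hn1 : ‖(x₁ + t • v) 1 - f 1‖ = δ := by rw [hD1, htt]
    have hn1ne : ‖(x₁ + t • v) 1 - f 1‖ ≠ 0 := by rw [hn1]; exact hδ0.ne'
    have h1 := hbound t ht3
      (fun z' => m₁ + 3 * C₀ + c * Real.log 5 + c * Real.log ‖z' 1 - f 1‖) (m₁ - 1)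
      (continuousAt_const.add (((hcont 1).log hn1ne).const_mul c)) ?_ ?_
    · refine h1.trans (le_of_eq ?_)
      congr 1; ring
    · simp only [hn1]
      have h5 : Real.log δ ≤ Real.log d₀ := Real.log_le_log hδ0 (by rw [hδ]; linarith)
      nlinarith
    · have e1 : ∀ᶠ z' : C3 in 𝓝 (x₁ + t • v), ‖z' 1 - f 1‖ < 1 / 5 :=
        (hcont 1).eventually (gt_mem_nhds (by
          change ‖(x₁ + t • v) 1 - f 1‖ < 1 / 5
          rw [hn1]; linarith))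
      have e0 : ∀ᶠ z' : C3 in 𝓝 (x₁ + t • v), ‖z' 0 - f 0‖ < 2 * ‖z' 1 - f 1‖ := by
        refine (hcont 0).eventually_lt ((hcont 1).const_mul 2) ?_
        simp only [hn1, hD0]
        calc _ ≤ ‖β‖ + ‖s * ((t - 1) * t₁)‖ := norm_sub_le _ _
          _ ≤ d₀ / 16 + 3 / 2 * δ := by
            rw [norm_mul, htt]
            have := mul_le_mul_of_nonneg_right hsn hδ0.le
            linarith
          _ < 2 * δ := by rw [hδ]; linarith
      have e2 : ∀ᶠ z' : C3 in 𝓝 (x₁ + t • v), ‖z' 2 - f 2‖ < r₁ * ‖z' 1 - f 1‖ := by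
        refine (hcont 2).eventually_lt ((hcont 1).const_mul r₁) ?_
        simp only [hn1, hD2, hf2, sub_zero]
        exact hx₁2
      filter_upwards [e1, e0, e2] with z' e1 e0 e2 h3 h4
      rw [hf2, sub_zero] at e2
      refine D.near_fixed hc hK h𝒰 h𝒰' hT hε hε1 hC₀ hr₁ hm₁ hf hf2 (j := 1) (by decide) h3 h4 e1.le
        ?_ e2.le
      intro k
      fin_cases k
      · exact e0.le
      · change ‖z' 1 - f 1‖ ≤ 2 * ‖z' 1 - f 1‖
        linarith [norm_nonneg (z' 1 - f 1)]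
      · change ‖z' 2 - f 2‖ ≤ _
        rw [hf2, sub_zero]
        nlinarith [norm_nonneg (z' 1 - f 1)]

end Pool.Agent.helper90.KMMP
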