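import Pool.Agent.helper90.KMMP.CoreB3

/-!
# Claim B, conclusion
-/

open scoped Topology ContDiff
open Set Filter Metric

namespace Pool.Agent.helper90.KMMP

theorem exists_bound_thetaExc : ∃ C : ℝ, ∀ j (a : C3), ‖a j‖ ≤ (1 / 5) ^ 3 →
    (∀ k, k ≠ j → ‖a k‖ ≤ 2) → thetaExc j a ≤ C := by
  have h : ∀ j : Fin 3, ∃ C : ℝ, ∀ a : C3, ‖a j‖ ≤ (1 / 5) ^ 3 →
      (∀ k, k ≠ j → ‖a k‖ ≤ 2) → thetaExc j a ≤ C := by
    intro j
    obtain ⟨C, hC⟩ := (isCompact_box j (r := (1 / 5) ^ 3) (s := 2) (by positivity)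
      (by norm_num)).exists_bound_of_continuousOn (continuousOn_thetaExc j).continuousOn
    exact ⟨C, fun a h1 h2 => (le_abs_self _).trans (hC a ⟨h1, h2⟩)⟩
  choose C hC using h
  refine ⟨∑ j, |C j|, fun j a h1 h2 => ?_⟩
  exact (hC j a h1 h2).trans ((le_abs_self _).trans
    (Finset.single_le_sum (f := fun j => |C j|) (fun i _ => abs_nonneg _) (Finset.mem_univ j)))

/-- Claim B -/
theorem claimB {c : ℝ} (hc : 0 < c) {K : C3 → ℝ} {Ke : Fin 3 → C3 → ℝ} (hK : KappaData K Ke)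
    {𝒰 : Set KX} (h𝒰 : IsOpen 𝒰) (h𝒰' : Dense 𝒰) (hT : ∀ y ∈ 𝒰, y ∉ TT)
    (hdata : ∀ ε : ℝ, 0 < ε → ε ≤ 1 → ∃ h : KX → ℝ, CoreData c K Ke 𝒰 ε h ∧
      ∃ z, z ∉ O3 ∧ z 2 = 0 ∧ ∃ C : ℝ, ∀ᶠ z' in 𝓝 z, reg z' ∈ 𝒰 →
        C ≤ h (reg z') + c * Real.log ‖z' 2‖) : False := by
  obtain ⟨C₁, hC₁0, hC₁⟩ := hK.exists_bound_exc (r := (1 / 5) ^ 3) (s := 2) (by positivity)
    (by norm_num) (by norm_num)
  obtain ⟨C₂, hC₂⟩ := exists_bound_thetaExc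
  set C₀ := max C₁ C₂ with hC₀def
  have hC₀ : ∀ j (a : C3), ‖a j‖ ≤ (1 / 5) ^ 3 → (∀ k, k ≠ j → ‖a k‖ ≤ 2) →
      |Ke j a| ≤ C₀ ∧ thetaExc j a ≤ C₀ := fun j a h1 h2 =>
    ⟨(hC₁ j a h1 h2).trans (le_max_left _ _), (hC₂ j a h1 h2).trans (le_max_right _ _)⟩
  have hC₀0 : 0 ≤ C₀ := hC₁0.trans (le_max_left _ _)
  -- the radius `d₀`
  set d₀ : ℝ := min (1 / 10) (Real.exp (-(2 + 3 * C₀ + c * Real.log 5) / c)) with hd₀def
  have hd₀ : 0 < d₀ := lt_min (by norm_num) (Real.exp_pos _)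
  have hd₀10 : d₀ ≤ 1 / 10 := min_le_left _ _
  have hd₀log : 3 * C₀ + c * Real.log 5 + c * Real.log d₀ ≤ -2 := by
    have h1 : Real.log d₀ ≤ -(2 + 3 * C₀ + c * Real.log 5) / c := by
      rw [← Real.log_exp (-(2 + 3 * C₀ + c * Real.log 5) / c)]
      exact Real.log_le_log hd₀ (min_le_right _ _)
    have h2 : c * Real.log d₀ ≤ c * (-(2 + 3 * C₀ + c * Real.log 5) / c) := by gcongr
    have h3 : c * (-(2 + 3 * C₀ + c * Real.log 5) / c) = -(2 + 3 * C₀ + c * Real.log 5) := by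
      field_simp
    linarith
  obtain ⟨R, hR, hdens⟩ := dens_eis (show (0 : ℝ) < d₀ / 16 by positivity)
  set g : ℝ := Real.log 2 / Real.log (2 / (d₀ / (4 * (R + d₀)))) with hg
  have hg0 : 0 < g := by
    refine div_pos (Real.log_pos (by norm_num)) (Real.log_pos ?_)
    rw [lt_div_iff₀ (by positivity), one_mul, div_lt_iff₀ (by positivity)]
    nlinarith
  obtain ⟨CK, hCK⟩ := hK.bddK (5 + 6 * R)
  obtain ⟨Cd, hCd0, hCd⟩ := hK.exists_lower hd₀ 4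
  set T : ℝ := |CK| + Cd + 1 with hTdef
  have hT0 : 0 < T := by positivity
  set ε : ℝ := min 1 (g / (4 * T)) with hε
  have hε0 : 0 < ε := lt_min one_pos (by positivity)
  have hε1 : ε ≤ 1 := min_le_left _ _
  have hεT : ε * T ≤ g / 4 := by
    calc ε * T ≤ g / (4 * T) * T := by gcongr; exact min_le_right _ _
      _ = g / 4 := by field_simp
  obtain ⟨h, D, zs, hzs, hzs2, C, hlow⟩ := hdata ε hε0 hε1
  obtain ⟨M, r, hr, hM⟩ := D.bound_T hc hK hT hε0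
  set MS : Set ℝ := {m | ∃ r : ℝ, 0 < r ∧ ∀ z, z ∉ O3 → reg z ∈ 𝒰 → ‖z 2‖ < r →
      h (reg z) + c * Real.log ‖z 2‖ ≤ m} with hMS
  have hMSne : MS.Nonempty := ⟨M, r, hr, hM⟩
  have hMSbdd : BddBelow MS := by
    refine ⟨C, ?_⟩
    rintro m ⟨r', hr', hm⟩
    have hcont2 : ContinuousAt (fun a' : C3 => ‖a' 2‖) zs :=
      ((continuous_apply (2 : Fin 3)).norm).continuousAt
    have h1 : ∀ᶠ z' : C3 in 𝓝 zs, ‖z' 2‖ < r' := hcont2.eventually (gt_mem_nhds (by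
      change ‖zs 2‖ < r'
      rw [hzs2, norm_zero]; exact hr'))
    obtain ⟨z', ⟨⟨h2, h3⟩, h4⟩, h5⟩ := mem_closure_iff_nhds.1
      (mem_closure_preimage h𝒰' (map_reg_nhds hzs)) _
      ((hlow.and h1).and (isOpen_O3_compl.mem_nhds hzs))
    exact (h2 h5).trans (hm z' h4 h5 h3)
  set m₀ : ℝ := sInf MS with hm₀
  set η : ℝ := min (1 / 2) (g / 16) with hη
  have hη0 : 0 < η := lt_min (by norm_num) (by positivity)
  have hη1 : η ≤ 1 / 2 := min_le_left _ _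
  have hη2 : η ≤ g / 16 := min_le_right _ _
  obtain ⟨m, ⟨r₀, hr₀, hm⟩, hmlt⟩ := exists_lt_of_csInf_lt hMSne (show sInf MS < m₀ + η by
    rw [← hm₀]; linarith)
  set r₁ : ℝ := min r₀ 1 with hr₁
  have hr₁0 : 0 < r₁ := lt_min hr₀ one_pos
  have hr₁1 : r₁ ≤ 1 := min_le_right _ _
  have hm₁ : ∀ z, z ∉ O3 → reg z ∈ 𝒰 → ‖z 2‖ < r₁ →
      h (reg z) + c * Real.log ‖z 2‖ ≤ m₀ + η := fun z h1 h2 h3 =>
    (hm z h1 h2 (h3.trans_le (min_le_left _ _))).trans hmlt.le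
  obtain ⟨Mu, hMu⟩ := D.fixed_bound_unif hc hK hT hε0
  set r₂ : ℝ := min (r₁ * (d₀ / 4)) (r₁ * Real.exp ((m₀ - 1 - Mu) / c)) with hr₂
  have hr₂0 : 0 < r₂ := lt_min (by positivity) (by positivity)
  have hr₂1 : r₂ ≤ r₁ * (d₀ / 4) := min_le_left _ _
  have hr₂log : Mu + c * Real.log (r₂ / r₁) ≤ m₀ - 1 := by
    have h1 : r₂ / r₁ ≤ Real.exp ((m₀ - 1 - Mu) / c) := by
      rw [div_le_iff₀ hr₁0, mul_comm]; exact min_le_right _ _
    have h2 : Real.log (r₂ / r₁) ≤ (m₀ - 1 - Mu) / c := by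
      rw [← Real.log_exp ((m₀ - 1 - Mu) / c)]
      exact Real.log_le_log (by positivity) h1
    have h3 : c * Real.log (r₂ / r₁) ≤ c * ((m₀ - 1 - Mu) / c) := by gcongr
    have h4 : c * ((m₀ - 1 - Mu) / c) = m₀ - 1 - Mu := by field_simp
    linarith
  -- a point close to the supremum
  obtain ⟨z, hz, hz𝒰, hz2, hzy⟩ : ∃ z, z ∉ O3 ∧ reg z ∈ 𝒰 ∧ ‖z 2‖ < r₂ ∧
      m₀ - η < h (reg z) + c * Real.log ‖z 2‖ := by
    by_contra hcon
    push Not at hcon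
    have : m₀ ≤ m₀ - η := csInf_le hMSbdd ⟨r₂, hr₂0, hcon⟩
    linarith
  obtain ⟨l, hl, hl2, h0, h1⟩ := exists_L3_near_four' z
  have hx₁ : z - l ∉ O3 := by
    intro h0
    apply hz
    have := O3_add h0 (L3_sub_O3 hl)
    simpa using this
  have hregl : reg (z - l) = reg z := by
    have := reg_add hl (z - l)
    rw [sub_add_cancel] at this
    exact this.symm
  have e2 : (z - l) 2 = z 2 := by simp [hl2]
  set x₁ := z - l with hx₁def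
  have hx₁𝒰 : reg x₁ ∈ 𝒰 := by rw [hregl]; exact hz𝒰
  have hx₁2 : ‖x₁ 2‖ < r₂ := by rw [e2]; exact hz2
  have hx₁y : m₀ - η < h (reg x₁) + c * Real.log ‖x₁ 2‖ := by rw [hregl, e2]; exact hzy
  have hx20 : x₁ 2 ≠ 0 := z2_ne_zero hT hx₁ hx₁𝒰
  have hx₁small : ‖x₁ 2‖ < 1 / 2 := by nlinarith
  have hx₁n : ‖x₁‖ ≤ 4 := by
    refine (pi_norm_le_iff_of_nonneg (by norm_num)).2 fun i => ?_
    fin_cases i
    · exact h0
    · exact h1
    · change ‖x₁ 2‖ ≤ 4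
      linarith
  have hfar : ∀ f ∈ O3, d₀ ≤ ‖x₁ - f‖ := by
    intro f hf
    by_contra hcon
    push Not at hcon
    have hf2 : f 2 = 0 := by
      by_contra hf2
      have h1 := one_le_norm_eis (hf 2) hf2
      have h2 := norm_le_pi_norm (x₁ - f) 2
      have h3 : ‖f 2‖ ≤ ‖x₁ 2‖ + ‖(x₁ - f) 2‖ := by
        have : f 2 = x₁ 2 - (x₁ - f) 2 := by simp
        calc ‖f 2‖ = ‖x₁ 2 - (x₁ - f) 2‖ := by rw [← this]
          _ ≤ _ := norm_sub_le _ _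
      linarith
    obtain ⟨j, hne, hjn, -, -, -, -⟩ := exists_exc_chart hf hx₁ (by linarith)
    have hpos : 0 < ‖x₁ - f‖ := by
      rw [← hjn]; exact norm_pos_iff.2 (sub_ne_zero.2 hne)
    by_cases hcase : j ≠ 2 ∧ ‖x₁ 2‖ ≤ r₁ * ‖x₁ j - f j‖
    · have h1 := D.near_fixed hc hK h𝒰 h𝒰' hT hε0 hε1 hC₀ hr₁0 hm₁ hf hf2 hcase.1 hx₁ hx₁𝒰
        (by rw [hjn]; linarith) (fun k => by
          rw [hjn]
          have := norm_le_pi_norm (x₁ - f) k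
          have h3 : ‖x₁ k - f k‖ ≤ ‖x₁ - f‖ := this
          linarith) hcase.2
      rw [hjn] at h1
      have h2 : c * Real.log ‖x₁ - f‖ ≤ c * Real.log d₀ := by
        gcongr
      linarith
    · have h1 : ‖x₁ - f‖ ≤ r₂ / r₁ := by
        rw [le_div_iff₀ hr₁0]
        by_cases hj2 : j = 2
        · subst hj2
          rw [hf2, sub_zero] at hjn
          rw [← hjn]
          nlinarith [norm_nonneg (x₁ 2)]
        · have h2 : r₁ * ‖x₁ j - f j‖ < ‖x₁ 2‖ := by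
            by_contra h3
            exact hcase ⟨hj2, not_lt.1 h3⟩
          rw [hjn] at h2
          linarith
      have h2 := hMu f hf hf2 x₁ hx₁ hx₁𝒰 (by linarith)
      have h3 : c * Real.log ‖x₁ - f‖ ≤ c * Real.log (r₂ / r₁) := by
        gcongr
      linarith
  have key := D.leaf_discB hc hK h𝒰 h𝒰' hT hε0 hε1 hC₀ hr₁0 hr₁1 hm₁ hd₀ (by linarith) hd₀log hR
    hdens hCK hx₁ hx₁𝒰 hx₁n (hx₁2.trans_le hr₂1) hfar
  have h2 := hCd x₁ hx₁n hfar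
  have h3 : ε * CK ≤ ε * |CK| := by gcongr; exact le_abs_self _
  have h4 : ε * (-Cd) ≤ ε * K x₁ := by gcongr
  have h5 : ε * |CK| + ε * Cd ≤ ε * T := by rw [hTdef]; nlinarith
  linarith

end Pool.Agent.helper90.KMMP
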