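import Pool.Agent.helper90.KMMP.CoreLem

/-!
# Claim C
-/

open scoped Topology ContDiff
open Set Filter Metric

namespace Pool.Agent.helper90.KMMP

/-! ### simplified form of the data for `c = 0` -/

theorem CoreData.psh_reg0 {K : C3 → ℝ} {Ke : Fin 3 → C3 → ℝ} {𝒰 : Set KX} {ε : ℝ} {h : KX → ℝ}
    (D : CoreData 0 K Ke 𝒰 ε h) (z : C3) (hz : z ∉ O3) :
    PshAt (reguSup (reg ⁻¹' 𝒰) (fun z' => ‖LL z'‖ ^ 2 + ε * K z' + h (reg z'))) z := by
  have := D.psh_reg z hz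
  simpa only [zero_mul, add_zero] using this

theorem CoreData.psh_exc0 {K : C3 → ℝ} {Ke : Fin 3 → C3 → ℝ} {𝒰 : Set KX} {ε : ℝ} {h : KX → ℝ}
    (D : CoreData 0 K Ke 𝒰 ε h) (f : C3) (hf : f ∈ O3) (j : Fin 3) (a : C3) (ha : a ∈ Vexc j) :
    PshAt (reguSup (exc f j ⁻¹' 𝒰) (fun a' => thetaExc j a' + ε * Ke j a' + h (exc f j a'))) a := by
  have := D.psh_exc f hf j a ha
  simpa only [zero_mul, add_zero] using this

/-- `h` is bounded above -/
theorem CoreData.bdd {K : C3 → ℝ} {Ke : Fin 3 → C3 → ℝ} (hK : KappaData K Ke) {𝒰 : Set KX}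
    {ε : ℝ} (hε : 0 < ε) {h : KX → ℝ} (D : CoreData 0 K Ke 𝒰 ε h) :
    ∃ B : ℝ, ∀ y ∈ 𝒰, h y ≤ B := by
  have hloc : ∀ x : KX, ∃ N ∈ 𝓝 x, ∃ M : ℝ, ∀ y ∈ N, y ∈ 𝒰 → h y ≤ M := by
    intro x
    rcases exists_reg_or_exc x with ⟨z, hz, rfl⟩ | ⟨f, hf, j, a, ha, -, rfl⟩
    · obtain ⟨M, hM⟩ := exists_bound_of_pshAt (D.psh_reg0 z hz)
      have hKc : ContinuousAt K z := hK.contK.continuousAt (isOpen_O3_compl.mem_nhds hz)
      have hK1 : ∀ᶠ z' in 𝓝 z, K z - 1 < K z' := hKc.eventually (lt_mem_nhds (by linarith))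
      refine ⟨reg '' {z' | (z' ∈ reg ⁻¹' 𝒰 → ‖LL z'‖ ^ 2 + ε * K z' + h (reg z') ≤ M) ∧
        K z - 1 < K z'}, ?_, M - ε * (K z - 1), ?_⟩
      · rw [← map_reg_nhds hz]
        exact image_mem_map (hM.and hK1)
      · rintro y ⟨z', ⟨h1, h2⟩, rfl⟩ hy
        have h3 := h1 hy
        nlinarith [sq_nonneg ‖LL z'‖]
    · obtain ⟨M, hM⟩ := exists_bound_of_pshAt (D.psh_exc0 f hf j a ha)
      have hKc : ContinuousAt (Ke j) a := (hK.contKe j).continuousAt ((isOpen_Vexc j).mem_nhds ha)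
      have hK1 : ∀ᶠ z' in 𝓝 a, Ke j a - 1 < Ke j z' := hKc.eventually (lt_mem_nhds (by linarith))
      refine ⟨exc f j '' {z' | (z' ∈ exc f j ⁻¹' 𝒰 → thetaExc j z' + ε * Ke j z' + h (exc f j z') ≤ M) ∧
        Ke j a - 1 < Ke j z'}, ?_, M - ε * (Ke j a - 1), ?_⟩
      · rw [← map_exc_nhds hf ha]
        exact image_mem_map (hM.and hK1)
      · rintro y ⟨z', ⟨h1, h2⟩, rfl⟩ hy
        have h3 := h1 hy
        nlinarith [thetaExc_nonneg j z']
  choose N hN M hM using hloc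
  obtain ⟨t, ht⟩ := isCompact_univ.elim_nhds_subcover N (fun x _ => hN x)
  obtain ⟨B, hB⟩ : ∃ B : ℝ, ∀ x ∈ t, M x ≤ B := ⟨∑ x ∈ t, |M x|, fun x hx =>
    (le_abs_self _).trans (Finset.single_le_sum (f := fun x => |M x|) (fun i _ => abs_nonneg _) hx)⟩
  refine ⟨B, fun y hy => ?_⟩
  have := ht.2 (mem_univ y)
  simp only [mem_iUnion] at this
  obtain ⟨x, hx, hyx⟩ := this
  exact (hM x y hyx hy).trans (hB x hx)

/-- upper bound for the regularization of a sum of a continuous function and a bounded one -/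
theorem reguSup_le_of_le {X : Type} [TopologicalSpace X] {𝒰 : Set X} {v w : X → ℝ} {y : X}
    (hy : y ∈ closure 𝒰) (hw : ContinuousAt w y) (h : ∀ᶠ y' in 𝓝 y, y' ∈ 𝒰 → v y' ≤ w y') :
    reguSup 𝒰 v y ≤ w y := by
  refine (reguSup_mono h).trans (le_of_eq ?_)
  exact reguSup_eq_of_tendsto hy
    (((continuous_coe_real_ereal.tendsto _).comp hw).mono_left nhdsWithin_le_nhds)

theorem holMapAt_update (a : C3) (j : Fin 3) (r : ℂ) (t : ℂ) :
    HolMapAt (fun t : ℂ => Function.update a j (r * t)) t := by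
  apply holMapAt_of_analyticAt_C
  rw [analyticAt_pi_iff]
  intro k
  by_cases hk : k = j
  · subst hk
    simp only [Function.update_self]
    fun_prop
  · simp only [Function.update_of_ne hk]
    fun_prop

theorem continuousAt_h_reg {𝒰 : Set KX} (h𝒰 : IsOpen 𝒰) {h : KX → ℝ} (hh : ContinuousOn h 𝒰) {z : C3}
    (hz : z ∉ O3) (hz' : reg z ∈ 𝒰) : ContinuousAt (fun z' => h (reg z')) z :=
  (hh.continuousAt (h𝒰.mem_nhds hz')).comp (f := reg) (holMapAt_reg hz).1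

theorem continuousAt_h_exc {𝒰 : Set KX} (h𝒰 : IsOpen 𝒰) {h : KX → ℝ} (hh : ContinuousOn h 𝒰)
    {f : C3} (hf : f ∈ O3) {j : Fin 3} {a : C3} (ha : a ∈ Vexc j) (ha' : exc f j a ∈ 𝒰) :
    ContinuousAt (fun a' => h (exc f j a')) a :=
  (hh.continuousAt (h𝒰.mem_nhds ha')).comp (f := exc f j) (holMapAt_exc hf ha).1

/-- points where `h` is close to its supremum may be chosen away from the lattice -/
theorem CoreData.near_sup {K : C3 → ℝ} {Ke : Fin 3 → C3 → ℝ} (hK : KappaData K Ke) {𝒰 : Set KX}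
    (h𝒰 : IsOpen 𝒰) (h𝒰' : Dense 𝒰)
    {ε : ℝ} (hε : 0 < ε) {h : KX → ℝ} (D : CoreData 0 K Ke 𝒰 ε h) {ρ : ℝ} (hρ0 : 0 < ρ)
    (hρ1 : ρ < 1 / 4) {Ce : ℝ} (hCe : ∀ j (a : C3), ‖a j‖ ≤ ρ ^ 3 → (∀ k, k ≠ j → ‖a k‖ ≤ 1) →
      |Ke j a| ≤ Ce) {B' : ℝ} (hB' : ∀ z, z ∉ O3 → reg z ∈ 𝒰 → (∀ f ∈ O3, ρ / 2 ≤ ‖z - f‖) →
        h (reg z) ≤ B') (z : C3) (hz : z ∉ O3) (hz' : reg z ∈ 𝒰) :
    h (reg z) ≤ B' + 6 * ρ ^ 2 + 2 * ε * Ce := by
  have hCe0 : 0 ≤ Ce := (abs_nonneg _).trans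
    (hCe 0 0 (by simp; positivity) (fun k _ => by simp))
  by_cases hfar : ∀ f ∈ O3, ρ / 2 ≤ ‖z - f‖
  · have := hB' z hz hz' hfar
    nlinarith [sq_nonneg ρ, mul_nonneg hε.le hCe0]
  push Not at hfar
  obtain ⟨f, hf, hzf⟩ := hfar
  obtain ⟨j, hne, hjn, hVe, hreg, hk, hjj⟩ := exists_exc_chart hf hz (by linarith)
  set a := psi f j z with ha
  have hcmem : ∀ t ∈ closedBall (0 : ℂ) 1, Function.update a j ((ρ ^ 3 : ℝ) * t) ∈ Vexc j ∧
      ‖Function.update a j ((ρ ^ 3 : ℝ) * t) j‖ ≤ ρ ^ 3 ∧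
      ∀ k, k ≠ j → ‖Function.update a j ((ρ ^ 3 : ℝ) * t) k‖ ≤ 1 := by
    intro t ht
    have ht' : ‖t‖ ≤ 1 := by simpa using ht
    have h1 : ‖Function.update a j ((ρ ^ 3 : ℝ) * t) j‖ ≤ ρ ^ 3 := by
      rw [Function.update_self, norm_mul, Complex.norm_real, Real.norm_of_nonneg (by positivity)]
      nlinarith [pow_pos hρ0 3]
    have h2 : ∀ k, k ≠ j → ‖Function.update a j ((ρ ^ 3 : ℝ) * t) k‖ ≤ 1 := by
      intro k hkj
      rw [Function.update_of_ne hkj]; exact hk k hkj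
    refine ⟨?_, h1, h2⟩
    intro k
    have h3 : ‖Function.update (Function.update a j ((ρ ^ 3 : ℝ) * t)) j 1 k‖ ≤ 1 := by
      by_cases hkj : k = j
      · subst hkj; simp
      · rw [Function.update_of_ne hkj]; exact h2 k hkj
    have h4 : ρ ^ 3 < (1 / 4) ^ 3 := pow_lt_pow_left₀ hρ1 hρ0.le (by norm_num)
    calc _ ≤ ρ ^ 3 * 1 ^ 3 := by gcongr
      _ < 1 / 8 := by rw [one_pow, mul_one]; linarith
  have key := maxPrinciple_disc (u := reguSup (exc f j ⁻¹' 𝒰)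
      (fun a' => thetaExc j a' + ε * Ke j a' + h (exc f j a')))
    (c := fun t : ℂ => Function.update a j ((ρ ^ 3 : ℝ) * t))
    (fun t ht => ⟨holMapAt_update a j _ t, D.psh_exc0 f hf j _ (hcmem t ht).1⟩)
    (6 * ρ ^ 2 + ε * Ce + B') ?_
  · -- conclusion
    set t₀ : ℂ := ((z j - f j) / ρ) ^ 3 with ht₀
    have ht₀' : ‖t₀‖ ≤ 1 := by
      rw [ht₀, norm_pow, norm_div, Complex.norm_real, Real.norm_of_nonneg hρ0.le, hjn]
      apply pow_le_one₀ (by positivity)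
      rw [div_le_one hρ0]; linarith
    have h1 := key t₀ (by simpa using ht₀')
    have h2 : Function.update a j ((ρ ^ 3 : ℝ) * t₀) = a := by
      have : ((ρ ^ 3 : ℝ) : ℂ) * t₀ = a j := by
        rw [hjj, ht₀]
        have : (ρ : ℂ) ≠ 0 := by exact_mod_cast hρ0.ne'
        push_cast
        field_simp
      rw [this, Function.update_eq_self]
    simp only [h2] at h1
    have ha𝒰 : exc f j a ∈ 𝒰 := hreg ▸ hz'
    rw [reguSup_eq (show a ∈ exc f j ⁻¹' 𝒰 from ha𝒰)] at h1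
    · have h3 : thetaExc j a + ε * Ke j a + h (exc f j a) ≤ 6 * ρ ^ 2 + ε * Ce + B' := by
        exact_mod_cast h1
      rw [← hreg] at h3
      have h4 := (abs_le.1 (hCe j a (by
        have := (hcmem t₀ (by simpa using ht₀')).2.1
        rwa [h2] at this) hk)).1
      have := thetaExc_nonneg j a
      nlinarith
    · apply ContinuousAt.continuousWithinAt
      exact (((continuousOn_thetaExc j).continuousAt).add
        ((((hK.contKe j).continuousAt ((isOpen_Vexc j).mem_nhds hVe))).const_mul ε)).add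
        (continuousAt_h_exc h𝒰 D.cont hf hVe ha𝒰)
  · intro t ht
    have ht1 : t ∈ closedBall (0 : ℂ) 1 := sphere_subset_closedBall ht
    obtain ⟨hV, hj1, hk1⟩ := hcmem t ht1
    set b : C3 := Function.update a j ((ρ ^ 3 : ℝ) * t) with hb
    have hKb : ContinuousAt (Ke j) b := (hK.contKe j).continuousAt ((isOpen_Vexc j).mem_nhds hV)
    refine (reguSup_le_of_le (w := fun a' => thetaExc j a' + ε * Ke j a' + B')
      (mem_closure_preimage h𝒰' (map_exc_nhds hf hV))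
      ((((continuousOn_thetaExc j).continuousAt).add (hKb.const_mul ε)).add continuousAt_const) ?_).trans
      ?_
    · have h1 : ∀ᶠ a' in 𝓝 b, a' ∈ Vexc j := (isOpen_Vexc j).mem_nhds hV
      have h2 : ∀ᶠ a' : C3 in 𝓝 b, (ρ / 2) ^ 3 < ‖a' j‖ := by
        have hcont : ContinuousAt (fun a' : C3 => ‖a' j‖) b :=
          ((continuous_apply j).norm).continuousAt
        refine hcont.eventually (lt_mem_nhds ?_)
        have ht' : ‖t‖ = 1 := by simpa using ht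
        change (ρ / 2) ^ 3 < ‖b j‖
        rw [hb, Function.update_self, norm_mul, Complex.norm_real,
          Real.norm_of_nonneg (by positivity), ht', mul_one]
        exact pow_lt_pow_left₀ (by linarith) (by positivity) (by norm_num)
      filter_upwards [h1, h2] with a' h1 h2 ha'
      have h0 : a' j ≠ 0 := by
        intro h0
        rw [h0, norm_zero] at h2
        have : 0 < (ρ / 2) ^ 3 := by positivity
        linarith
      obtain ⟨h3, h4⟩ := exc_eq_reg hf h1 h0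
      have h5 : ρ / 2 ≤ ‖cbrt (a' j)‖ := by
        rw [← norm_cbrt_pow] at h2
        exact (lt_of_pow_lt_pow_left₀ 3 (norm_nonneg _) h2).le
      have h6 : h (exc f j a') ≤ B' := by
        rw [h4]
        exact hB' _ h3 (h4 ▸ ha') (dist_O3_exc hf h1 (by linarith) h5)
      linarith
    · have h1 := thetaExc_le hk1 hρ0.le hj1
      have h2 := (abs_le.1 (hCe j b hj1 hk1)).2
      have h3 : thetaExc j b + ε * Ke j b + B' ≤ 6 * ρ ^ 2 + ε * Ce + B' := by nlinarith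
      exact_mod_cast h3

/-! ### the linear form `L` -/

theorem LL_add (z w : C3) : LL (z + w) = LL z + LL w := by simp [LL]; ring
theorem LL_sub (z w : C3) : LL (z - w) = LL z - LL w := by simp [LL]; ring
theorem LL_smul (t : ℂ) (w : C3) : LL (t • w) = t * LL w := by simp [LL]; ring
theorem LL_e0 : LL (Pi.single 0 1) = 1 := by simp [LL]
theorem continuous_LL : Continuous LL := by unfold LL; fun_prop

theorem holMapAt_line (x v : C3) (t : ℂ) : HolMapAt (fun t : ℂ => x + t • v) t := by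
  apply holMapAt_of_analyticAt_C
  fun_prop

/-- The disc in the leaf plane `L = L x₁` through `x₁` and the open set `Ω`. -/
theorem CoreData.leaf_disc {K : C3 → ℝ} {Ke : Fin 3 → C3 → ℝ} (hK : KappaData K Ke) {𝒰 : Set KX}
    (h𝒰 : IsOpen 𝒰) (h𝒰' : Dense 𝒰)
    {ε : ℝ} (hε : 0 < ε) {h : KX → ℝ} (D : CoreData 0 K Ke 𝒰 ε h) {Ω : Set KX} {zs : C3} {δ : ℝ}
    (hδ : 0 < δ) (hzs : ∀ z ∈ ball zs δ, reg z ∈ Ω) {B : ℝ} (hB : ∀ y ∈ 𝒰, h y ≤ B)
    (hΩ : ∀ y ∈ Ω ∩ 𝒰, h y ≤ B - 1) {R : ℝ} (hR : 0 < R)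
    (hdens : ∀ w : C3, ∃ l ∈ L3, ‖LL (w - l)‖ < δ / 4 ∧ ‖w - l‖ ≤ R) {CK : ℝ}
    (hCK : ∀ z, z ∉ O3 → ‖z‖ ≤ 5 + 3 * (R + δ) → K z ≤ CK) {x₁ : C3} (hx₁ : x₁ ∉ O3)
    (hx₁𝒰 : reg x₁ ∈ 𝒰) (hx₁n : ‖x₁‖ ≤ 4) (hx₁L : ∀ f ∈ O3, LL x₁ ≠ LL f) :
    h (reg x₁) + ε * K x₁ ≤ ε * CK + B - Real.log 2 / Real.log (2 / (δ / (4 * (R + δ + 1)))) := by
  obtain ⟨l, hl, hl1, hl2⟩ := hdens (x₁ - zs)
  set β : ℂ := LL (zs + l - x₁) with hβ
  have hβn : ‖β‖ < δ / 4 := by
    have : β = - LL (x₁ - zs - l) := by simp only [hβ, LL_add, LL_sub]; ring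
    rw [this, norm_neg]; exact hl1
  set v : C3 := (zs + l - x₁) - β • (Pi.single 0 1) with hv
  have hLv : LL v = 0 := by rw [hv, LL_sub, LL_smul, LL_e0, ← hβ]; ring
  have he0 : ‖β • (Pi.single 0 1 : C3)‖ ≤ ‖β‖ := by
    rw [norm_smul]
    have : ‖(Pi.single 0 1 : C3)‖ ≤ 1 := by
      refine (pi_norm_le_iff_of_nonneg zero_le_one).2 fun i => ?_
      by_cases hi : i = 0
      · subst hi; simp
      · simp [Pi.single_eq_of_ne hi]
    nlinarith [norm_nonneg β]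
  have hvn : ‖v‖ ≤ R + δ := by
    have h1 : ‖zs + l - x₁‖ ≤ R := by
      have : zs + l - x₁ = -(x₁ - zs - l) := by abel
      rw [this, norm_neg]; exact hl2
    calc ‖v‖ ≤ ‖zs + l - x₁‖ + ‖β • (Pi.single 0 1 : C3)‖ := norm_sub_le _ _
      _ ≤ R + δ := by linarith
  have hLD : ∀ t : ℂ, LL (x₁ + t • v) = LL x₁ := by
    intro t; rw [LL_add, LL_smul, hLv, mul_zero, add_zero]
  have hDO : ∀ t : ℂ, x₁ + t • v ∉ O3 := by
    intro t ht
    exact hx₁L _ ht (hLD t).symm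
  have hDn : ∀ t ∈ closedBall (0 : ℂ) 3, ‖x₁ + t • v‖ ≤ 4 + 3 * (R + δ) := by
    intro t ht
    have ht' : ‖t‖ ≤ 3 := by simpa using ht
    calc _ ≤ ‖x₁‖ + ‖t • v‖ := norm_add_le _ _
      _ ≤ 4 + 3 * (R + δ) := by
        rw [norm_smul]
        have : ‖t‖ * ‖v‖ ≤ 3 * (R + δ) := mul_le_mul ht' hvn (norm_nonneg _) (by norm_num)
        linarith
  set δ₁ := δ / (4 * (R + δ + 1)) with hδ₁
  have hδ₁0 : 0 < δ₁ := by positivity
  have hδ₁1 : δ₁ < 1 := by
    rw [hδ₁, div_lt_one (by positivity)]; nlinarith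
  set E : C3 → ℝ := fun z' => ‖LL z'‖ ^ 2 + ε * K z' + h (reg z') with hE
  have hcl : ∀ t : ℂ, x₁ + t • v ∈ closure (reg ⁻¹' 𝒰) := fun t =>
    mem_closure_preimage h𝒰' (map_reg_nhds (hDO t))
  -- a general bound
  have hbound : ∀ t ∈ closedBall (0 : ℂ) 3, ∀ B' : ℝ,
      (∀ᶠ z' in 𝓝 (x₁ + t • v), z' ∈ reg ⁻¹' 𝒰 → h (reg z') ≤ B') →
      reguSup (reg ⁻¹' 𝒰) E (x₁ + t • v) ≤ ((‖LL x₁‖ ^ 2 + ε * CK + B' : ℝ) : EReal) := by
    intro t ht B' hB'
    have h1 := reguSup_le_of_le (v := E) (w := fun z' => ‖LL z'‖ ^ 2 + ε * CK + B') (hcl t)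
      (((continuous_LL.norm.pow 2).add continuous_const).add continuous_const).continuousAt ?_
    · simp only [hLD t] at h1
      exact h1
    · have h2 : ∀ᶠ z' : C3 in 𝓝 (x₁ + t • v), ‖z'‖ < 5 + 3 * (R + δ) :=
        continuous_norm.continuousAt.eventually (gt_mem_nhds (by linarith [hDn t ht]))
      filter_upwards [h2, isOpen_O3_compl.mem_nhds (hDO t), hB'] with z' h2 h3 h4 h5
      have := hCK z' h3 h2.le
      have := h4 h5
      simp only [hE]
      nlinarith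
  have key := disc_gain (u := fun t : ℂ => reguSup (reg ⁻¹' 𝒰) E (x₁ + t • v)) (δ := δ₁)
    (B := ‖LL x₁‖ ^ 2 + ε * CK + B) hδ₁0 hδ₁1 (fun t _ _ =>
      (D.psh_reg0 _ (hDO t)).comp (f := fun t : ℂ => x₁ + t • v)
        (Eventually.of_forall fun s => holMapAt_line x₁ v s)) ?_ ?_
  · simp only [zero_smul, add_zero] at key
    rw [reguSup_eq (show x₁ ∈ reg ⁻¹' 𝒰 from hx₁𝒰)] at key
    · have h1 : E x₁ ≤ ‖LL x₁‖ ^ 2 + ε * CK + B - Real.log 2 / Real.log (2 / δ₁) := by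
        exact_mod_cast key
      simp only [hE] at h1
      linarith
    · apply ContinuousAt.continuousWithinAt
      exact (((continuous_LL.norm.pow 2).continuousAt).add
        ((hK.contK.continuousAt (isOpen_O3_compl.mem_nhds hx₁)).const_mul ε)).add
        (continuousAt_h_reg h𝒰 D.cont hx₁ hx₁𝒰)
  · intro t ht
    exact hbound t (sphere_subset_closedBall ht) B (Eventually.of_forall fun z' hz' => hB _ hz')
  · intro t ht
    have ht1 : ‖t - 1‖ = δ₁ := by simpa [dist_eq_norm] using ht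
    have ht3 : t ∈ closedBall (0 : ℂ) 3 := by
      rw [mem_closedBall_zero_iff]
      have : ‖t‖ ≤ ‖t - 1‖ + ‖(1 : ℂ)‖ := by
        have := norm_add_le (t - 1) 1
        simpa using this
      rw [ht1, norm_one] at this
      linarith
    have h1 := hbound t ht3 (B - 1) ?_
    · refine h1.trans (le_of_eq ?_)
      congr 1; ring
    · have h2 : x₁ + t • v ∈ ball (zs + l) δ := by
        rw [mem_ball, dist_eq_norm]
        have h3 : x₁ + t • v - (zs + l) = (t - 1) • v - β • (Pi.single 0 1 : C3) := by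
          rw [hv]; module
        rw [h3]
        calc _ ≤ ‖(t - 1) • v‖ + ‖β • (Pi.single 0 1 : C3)‖ := norm_sub_le _ _
          _ ≤ δ₁ * (R + δ) + ‖β‖ := by
            rw [norm_smul, ht1]
            gcongr
          _ < δ / 4 + δ / 4 := by
            have : δ₁ * (R + δ) < δ / 4 := by
              rw [hδ₁, div_mul_eq_mul_div, div_lt_div_iff₀ (by positivity) (by norm_num)]
              nlinarith
            linarith
          _ < δ := by linarith
      filter_upwards [isOpen_ball.mem_nhds h2] with z' hz' hz'𝒰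
      apply hΩ
      refine ⟨?_, hz'𝒰⟩
      have h4 : reg z' = reg (z' - l) := by
        have := reg_add hl (z' - l)
        rw [sub_add_cancel] at this
        exact this
      rw [h4]
      apply hzs
      rw [mem_ball, dist_eq_norm] at hz' ⊢
      have : z' - l - zs = z' - (zs + l) := by abel
      rwa [this]

end Pool.Agent.helper90.KMMP
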