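import Pool.Agent.helper90.KMMP.CoreC

/-!
# Claim C, conclusion
-/

open scoped Topology ContDiff
open Set Filter Metric

namespace Pool.Agent.helper90.KMMP

theorem countable_Eis : Eis.Countable := by
  have : Eis ⊆ range (fun p : ℤ × ℤ => (p.1 : ℂ) + p.2 * om) := by
    rintro z ⟨a, b, rfl⟩
    exact ⟨(a, b), rfl⟩
  exact (countable_range _).mono this

theorem isClosed_far (r : ℝ) : IsClosed {z : C3 | ∀ f ∈ O3, r ≤ ‖z - f‖} := by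
  have : {z : C3 | ∀ f ∈ O3, r ≤ ‖z - f‖} = ⋂ f ∈ O3, {z : C3 | r ≤ ‖z - f‖} := by
    ext z; simp
  rw [this]
  exact isClosed_biInter fun f _ => isClosed_le continuous_const (by fun_prop)

/-- lower bound for `K` away from the lattice -/
theorem KappaData.exists_lower {K : C3 → ℝ} {Ke : Fin 3 → C3 → ℝ} (hK : KappaData K Ke) {r : ℝ}
    (hr : 0 < r) (R : ℝ) : ∃ C : ℝ, 0 ≤ C ∧ ∀ z : C3, ‖z‖ ≤ R → (∀ f ∈ O3, r ≤ ‖z - f‖) →
      -C ≤ K z := by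
  have hc : IsCompact (closedBall (0 : C3) R ∩ {z : C3 | ∀ f ∈ O3, r ≤ ‖z - f‖}) :=
    (isCompact_closedBall 0 R).inter_right (isClosed_far r)
  have hsub : closedBall (0 : C3) R ∩ {z : C3 | ∀ f ∈ O3, r ≤ ‖z - f‖} ⊆ O3ᶜ := by
    rintro z ⟨_, hz⟩ hzO
    have h1 : r ≤ ‖z - z‖ := hz z hzO
    rw [sub_self, norm_zero] at h1
    linarith
  obtain ⟨C, hC⟩ := hc.exists_bound_of_continuousOn (hK.contK.mono hsub)
  refine ⟨max C 0, le_max_right _ _, fun z hz hz' => ?_⟩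
  have := hC z ⟨by simpa using hz, hz'⟩
  rw [Real.norm_eq_abs] at this
  have h2 := (abs_le.1 this).1
  have h3 := le_max_left C 0
  linarith

/-- bound for `Ke` on the compact pieces of the exceptional charts -/
theorem KappaData.exists_bound_exc {K : C3 → ℝ} {Ke : Fin 3 → C3 → ℝ} (hK : KappaData K Ke)
    {r s : ℝ} (hr : 0 ≤ r) (hs1 : 1 ≤ s) (hrs : r * s ^ 3 < 1 / 8) :
    ∃ C : ℝ, 0 ≤ C ∧ ∀ j (a : C3), ‖a j‖ ≤ r →
      (∀ k, k ≠ j → ‖a k‖ ≤ s) → |Ke j a| ≤ C := by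
  have h : ∀ j, ∃ C : ℝ, ∀ a : C3, ‖a j‖ ≤ r → (∀ k, k ≠ j → ‖a k‖ ≤ s) → |Ke j a| ≤ C := by
    intro j
    have hcl : IsClosed {a : C3 | ‖a j‖ ≤ r ∧ ∀ k, k ≠ j → ‖a k‖ ≤ s} := by
      have : {a : C3 | ‖a j‖ ≤ r ∧ ∀ k, k ≠ j → ‖a k‖ ≤ s} =
          {a : C3 | ‖a j‖ ≤ r} ∩ ⋂ k, ⋂ (_ : k ≠ j), {a : C3 | ‖a k‖ ≤ s} := by
        ext a; simp
      rw [this]
      exact (isClosed_le ((continuous_apply j).norm) continuous_const).inter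
        (isClosed_iInter fun k => isClosed_iInter fun _ =>
          isClosed_le ((continuous_apply k).norm) continuous_const)
    have hc : IsCompact {a : C3 | ‖a j‖ ≤ r ∧ ∀ k, k ≠ j → ‖a k‖ ≤ s} := by
      refine (isCompact_closedBall (0 : C3) (r + s)).of_isClosed_subset hcl ?_
      rintro a ⟨h1, h2⟩
      rw [mem_closedBall_zero_iff]
      refine (pi_norm_le_iff_of_nonneg (by positivity)).2 fun k => ?_
      by_cases hk : k = j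
      · subst hk; linarith
      · linarith [h2 k hk]
    have hsub : {a : C3 | ‖a j‖ ≤ r ∧ ∀ k, k ≠ j → ‖a k‖ ≤ s} ⊆ Vexc j := by
      rintro a ⟨h1, h2⟩ k
      have h3 : ‖Function.update a j 1 k‖ ≤ s := by
        by_cases hk : k = j
        · subst hk; simpa using hs1
        · rw [Function.update_of_ne hk]; exact h2 k hk
      calc _ ≤ r * s ^ 3 := by gcongr
        _ < 1 / 8 := hrs
    obtain ⟨C, hC⟩ := hc.exists_bound_of_continuousOn ((hK.contKe j).mono hsub)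
    exact ⟨C, fun a h1 h2 => hC a ⟨h1, h2⟩⟩
  choose C hC using h
  refine ⟨∑ j, |C j|, Finset.sum_nonneg fun j _ => abs_nonneg _, fun j a h1 h2 => ?_⟩
  exact (hC j a h1 h2).trans ((le_abs_self _).trans
    (Finset.single_le_sum (f := fun j => |C j|) (fun i _ => abs_nonneg _) (Finset.mem_univ j)))

/-- small translations moving `L z` off a countable set -/
theorem exists_generic {N : Set C3} {z : C3} (hN : N ∈ 𝓝 z) {S : Set ℂ} (hS : S.Countable) :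
    ∃ z' ∈ N, LL z' ∉ S := by
  have hd : Dense (((fun s => s - LL z) '' S)ᶜ) := (hS.image _).dense_compl ℂ
  have hcont : ContinuousAt (fun s : ℂ => z + s • (Pi.single 0 1 : C3)) 0 := by fun_prop
  have h1 : (fun s : ℂ => z + s • (Pi.single 0 1 : C3)) ⁻¹' N ∈ 𝓝 (0 : ℂ) := by
    apply hcont
    simpa using hN
  obtain ⟨s, hs1, hs2⟩ := mem_closure_iff_nhds.1 (hd 0) _ h1
  refine ⟨z + s • (Pi.single 0 1 : C3), hs1, fun h => hs2 ⟨_, h, ?_⟩⟩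
  simp only [LL_add, LL_smul, LL_e0]
  ring

theorem le_of_forall_reg {𝒰 : Set KX} (h𝒰 : IsOpen 𝒰) {h : KX → ℝ} (hh : ContinuousOn h 𝒰) {B : ℝ}
    (hB : ∀ z, z ∉ O3 → reg z ∈ 𝒰 → h (reg z) ≤ B) : ∀ y ∈ 𝒰, h y ≤ B := by
  intro y hy
  by_contra hcon
  push Not at hcon
  have h1 : {y' | B < h y'} ∩ 𝒰 ∈ 𝓝 y :=
    inter_mem ((hh.continuousAt (h𝒰.mem_nhds hy)).eventually (lt_mem_nhds hcon)) (h𝒰.mem_nhds hy)
  obtain ⟨y', hy', ⟨z, hz, rfl⟩⟩ := mem_closure_iff_nhds.1 (dense_reg y) _ h1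
  exact absurd (hB z hz hy'.2) (not_le.2 hy'.1)

/-- Claim C -/
theorem claimC {K : C3 → ℝ} {Ke : Fin 3 → C3 → ℝ} (hK : KappaData K Ke)
    {𝒰 : Set KX} (h𝒰 : IsOpen 𝒰) (h𝒰' : Dense 𝒰) {Ω : Set KX} (hΩ : IsOpen Ω)
    (hΩ' : Ω.Nonempty)
    (hdata : ∀ ε : ℝ, 0 < ε → ε ≤ 1 → ∃ h : KX → ℝ, CoreData 0 K Ke 𝒰 ε h ∧
      ∀ B : ℝ, (∀ y ∈ 𝒰, h y ≤ B) → ∀ y ∈ Ω ∩ 𝒰, h y ≤ B - 1) : False := by
  -- a ball in `Ω`
  obtain ⟨_, hzsΩ, ⟨zs, hzs, rfl⟩⟩ := dense_reg.inter_open_nonempty Ω hΩ hΩ'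
  obtain ⟨δ, hδ, hball⟩ := Metric.mem_nhds_iff.1
    ((holMapAt_reg hzs).1.preimage_mem_nhds (hΩ.mem_nhds hzsΩ))
  obtain ⟨R, hR, hdens⟩ := exists_L3_dens (show (0 : ℝ) < δ / 4 by positivity)
  set g : ℝ := Real.log 2 / Real.log (2 / (δ / (4 * (R + δ + 1)))) with hg
  have hδ₁0 : 0 < δ / (4 * (R + δ + 1)) := by positivity
  have hδ₁1 : δ / (4 * (R + δ + 1)) < 1 := by
    rw [div_lt_one (by positivity)]; nlinarith
  have hg0 : 0 < g := div_pos (Real.log_pos (by norm_num))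
    (Real.log_pos (by rw [lt_div_iff₀ hδ₁0]; linarith))
  set ρ : ℝ := min (1 / 8) (g / 6) with hρ
  have hρ0 : 0 < ρ := lt_min (by norm_num) (by positivity)
  have hρ1 : ρ ≤ 1 / 8 := min_le_left _ _
  have hρ2 : ρ ≤ g / 6 := min_le_right _ _
  have hρ3 : 6 * ρ ^ 2 ≤ g / 8 := by nlinarith
  obtain ⟨Ce, hCe0, hCe⟩ := hK.exists_bound_exc (r := ρ ^ 3) (s := 1) (by positivity)
    le_rfl (by
      have : ρ ^ 3 ≤ (1 / 8) ^ 3 := pow_le_pow_left₀ hρ0.le hρ1 3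
      linarith)
  obtain ⟨Cd, hCd0, hCd⟩ := hK.exists_lower (show (0 : ℝ) < ρ / 4 by positivity) 4
  obtain ⟨CK, hCK⟩ := hK.bddK (5 + 3 * (R + δ))
  set T : ℝ := 2 * Ce + |CK| + Cd + 1 with hT
  have hT0 : 0 < T := by positivity
  set ε : ℝ := min 1 (g / (8 * T)) with hε
  have hε0 : 0 < ε := lt_min one_pos (by positivity)
  have hε1 : ε ≤ 1 := min_le_left _ _
  have hεT : ε * T ≤ g / 8 := by
    calc ε * T ≤ g / (8 * T) * T := by gcongr; exact min_le_right _ _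
      _ = g / 8 := by field_simp
  obtain ⟨h, D, hgap⟩ := hdata ε hε0 hε1
  obtain ⟨B₁, hB₁⟩ := D.bdd hK hε0
  have hne : 𝒰.Nonempty := by
    obtain ⟨y, -, hy⟩ := mem_closure_iff_nhds.1 (h𝒰' (reg zs)) univ univ_mem
    exact ⟨y, hy⟩
  set B : ℝ := sSup (h '' 𝒰) with hBdef
  have hbdd : BddAbove (h '' 𝒰) := ⟨B₁, by rintro _ ⟨y, hy, rfl⟩; exact hB₁ y hy⟩
  have hB : ∀ y ∈ 𝒰, h y ≤ B := fun y hy => le_csSup hbdd ⟨y, hy, rfl⟩
  have hB2 : ∀ η : ℝ, 0 < η → ¬ ∀ y ∈ 𝒰, h y ≤ B - η := by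
    intro η hη hall
    have : B ≤ B - η := csSup_le (hne.image h) (by rintro _ ⟨y, hy, rfl⟩; exact hall y hy)
    linarith
  -- a point close to the supremum, away from the lattice
  obtain ⟨z₁, hz₁, hz₁𝒰, hz₁far, hz₁B⟩ : ∃ z, z ∉ O3 ∧ reg z ∈ 𝒰 ∧ (∀ f ∈ O3, ρ / 2 ≤ ‖z - f‖) ∧
      B - g / 2 < h (reg z) := by
    by_contra hcon
    push Not at hcon
    apply hB2 (g / 4) (by positivity)
    apply le_of_forall_reg h𝒰 D.cont
    intro z hz hz𝒰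
    have := D.near_sup hK h𝒰 h𝒰' hε0 hρ0 (by linarith) hCe hcon z hz hz𝒰
    have h2 : 2 * ε * Ce ≤ ε * T := by
      rw [hT]
      have : ε * (|CK| + Cd + 1) ≥ 0 := by positivity
      nlinarith
    linarith
  -- perturbation
  have hnhds : {z | z ∉ O3 ∧ reg z ∈ 𝒰 ∧ B - g / 2 < h (reg z)} ∩ ball z₁ (ρ / 4) ∈ 𝓝 z₁ := by
    refine inter_mem ?_ (ball_mem_nhds _ (by positivity))
    filter_upwards [isOpen_O3_compl.mem_nhds hz₁,
      (holMapAt_reg hz₁).1.preimage_mem_nhds (h𝒰.mem_nhds hz₁𝒰),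
      (continuousAt_h_reg h𝒰 D.cont hz₁ hz₁𝒰).eventually (lt_mem_nhds hz₁B)] with z h1 h2 h3
    exact ⟨h1, h2, h3⟩
  obtain ⟨z₂, ⟨⟨hz₂, hz₂𝒰, hz₂B⟩, hz₂b⟩, hz₂L⟩ := exists_generic hnhds (countable_O3.image LL)
  obtain ⟨l, hl, hl4⟩ := exists_L3_near_four z₂
  have hregl : reg (z₂ - l) = reg z₂ := by
    have := reg_add hl (z₂ - l)
    rw [sub_add_cancel] at this
    exact this.symm
  have hx₁ : z₂ - l ∉ O3 := by
    intro h0
    apply hz₂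
    have := O3_add h0 (L3_sub_O3 hl)
    simpa using this
  have hfar : ∀ f ∈ O3, ρ / 4 ≤ ‖z₂ - l - f‖ := by
    intro f hf
    have h1 := hz₁far (l + f) (O3_add (L3_sub_O3 hl) hf)
    have h2 : z₁ - (l + f) = (z₂ - l - f) - (z₂ - z₁) := by abel
    rw [h2] at h1
    have h3 := norm_sub_le (z₂ - l - f) (z₂ - z₁)
    have h4 : ‖z₂ - z₁‖ < ρ / 4 := by rw [← dist_eq_norm]; exact mem_ball.1 hz₂b
    linarith
  have key := D.leaf_disc hK h𝒰 h𝒰' hε0 hδ (fun z hz => hball hz) hB (hgap B hB) hR hdens hCK hx₁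
    (by rw [hregl]; exact hz₂𝒰) hl4 (fun f hf h0 => hz₂L ⟨f + l, O3_add hf (L3_sub_O3 hl), by
      rw [LL_add, ← h0, LL_sub]; ring⟩)
  rw [hregl] at key
  have h1 := hCd (z₂ - l) hl4 hfar
  have h2 : ε * CK ≤ ε * |CK| := by gcongr; exact le_abs_self _
  have h3 : ε * (-Cd) ≤ ε * K (z₂ - l) := by gcongr
  have h4 : ε * |CK| + ε * Cd ≤ ε * T := by
    rw [hT]
    have : 0 ≤ ε * (2 * Ce + 1) := by positivity
    nlinarith
  linarith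

end Pool.Agent.helper90.KMMP
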