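import Pool.Agent.helper90.KMMP.KX

/-!
# Density of `ℤ[ω] + √2 ℤ[ω]` in `ℂ`
-/

open scoped Topology ContDiff
open Set Filter Metric

namespace Pool.Agent.helper90.KMMP

theorem dens_real {δ : ℝ} (hδ : 0 < δ) :
    ∃ N : ℝ, ∀ x : ℝ, ∃ a b : ℤ, |x - a - Real.sqrt 2 * b| < δ ∧ |(b : ℝ)| ≤ N := by
  have hdense : Dense (AddSubgroup.closure {(1 : ℝ), Real.sqrt 2} : Set ℝ) := by
    rw [dense_addSubgroupClosure_pair_iff]
    have h := irrational_sqrt_two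
    simpa using h.inv
  let U : ℤ × ℤ → Set ℝ := fun ab => {y | |y - ab.1 - Real.sqrt 2 * ab.2| < δ}
  have hU : ∀ ab, IsOpen (U ab) := fun ab => isOpen_lt (by fun_prop) (by fun_prop)
  have hcov : Icc (0 : ℝ) 1 ⊆ ⋃ ab, U ab := by
    intro y _
    obtain ⟨z, hz, hz2⟩ := Metric.mem_closure_iff.1 (hdense y) δ hδ
    rw [SetLike.mem_coe, AddSubgroup.mem_closure_pair] at hz
    obtain ⟨a, b, hab⟩ := hz
    refine mem_iUnion.2 ⟨(a, b), ?_⟩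
    simp only [U, mem_setOf_eq]
    rw [Real.dist_eq, ← hab] at hz2
    have : y - a - Real.sqrt 2 * b = y - (a • (1 : ℝ) + b • Real.sqrt 2) := by
      simp; ring
    rwa [this]
  obtain ⟨t, ht⟩ := isCompact_Icc.elim_finite_subcover U hU hcov
  refine ⟨∑ ab ∈ t, |(ab.2 : ℝ)|, fun x => ?_⟩
  have hx : Int.fract x ∈ Icc (0 : ℝ) 1 := ⟨Int.fract_nonneg x, (Int.fract_lt_one x).le⟩
  obtain ⟨ab, hab, hab2⟩ : ∃ ab ∈ t, Int.fract x ∈ U ab := by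
    simpa using ht hx
  refine ⟨ab.1 + ⌊x⌋, ab.2, ?_, ?_⟩
  · simp only [U, mem_setOf_eq] at hab2
    have : x - ((ab.1 + ⌊x⌋ : ℤ) : ℝ) - Real.sqrt 2 * ab.2 =
        Int.fract x - ab.1 - Real.sqrt 2 * ab.2 := by
      rw [Int.fract]; push_cast; ring
    rwa [this]
  · exact Finset.single_le_sum (f := fun ab : ℤ × ℤ => |(ab.2 : ℝ)|) (fun i _ => abs_nonneg _) hab

/-- coordinates with respect to the basis `1, ω` -/
theorem exists_coord (ζ : ℂ) : ∃ x y : ℝ, ζ = x + y * om := by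
  refine ⟨ζ.re + ζ.im / Real.sqrt 3, 2 * ζ.im / Real.sqrt 3, ?_⟩
  have h3 : Real.sqrt 3 ≠ 0 := by positivity
  apply Complex.ext
  · simp [om]; ring
  · simp [om]; field_simp

theorem eis_add {a b : ℂ} (ha : a ∈ Eis) (hb : b ∈ Eis) : a + b ∈ Eis := by
  obtain ⟨x, y, rfl⟩ := ha
  obtain ⟨x', y', rfl⟩ := hb
  exact ⟨x + x', y + y', by push_cast; ring⟩

/-- every complex number is within distance 2 of `ℤ[ω]` -/
theorem exists_eis_near (w : ℂ) : ∃ f ∈ Eis, ‖w - f‖ ≤ 2 := by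
  obtain ⟨x, y, rfl⟩ := exists_coord w
  refine ⟨⌊x⌋ + ⌊y⌋ * om, ⟨⌊x⌋, ⌊y⌋, rfl⟩, ?_⟩
  have : (x : ℂ) + y * om - (⌊x⌋ + ⌊y⌋ * om) = ((Int.fract x : ℝ) : ℂ) + ((Int.fract y : ℝ) : ℂ) * om := by
    rw [Int.fract, Int.fract]; push_cast; ring
  rw [this]
  calc _ ≤ ‖((Int.fract x : ℝ) : ℂ)‖ + ‖((Int.fract y : ℝ) : ℂ) * om‖ := norm_add_le _ _
    _ ≤ 1 + 1 := by
      rw [norm_mul, norm_om, mul_one, Complex.norm_real, Complex.norm_real,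
        Real.norm_of_nonneg (Int.fract_nonneg x), Real.norm_of_nonneg (Int.fract_nonneg y)]
      linarith [Int.fract_lt_one x, Int.fract_lt_one y]
    _ = 2 := by norm_num

/-- uniform density -/
theorem dens_eis {δ : ℝ} (hδ : 0 < δ) : ∃ R : ℝ, 0 < R ∧ ∀ ζ w : ℂ, ∃ f₀ ∈ Eis, ∃ f₁ ∈ Eis,
    ‖ζ - f₀ - (Real.sqrt 2 : ℂ) * f₁‖ < δ ∧ ‖w - f₁‖ ≤ R := by
  obtain ⟨N, hN⟩ := dens_real (half_pos hδ)
  have hN0 : 0 ≤ N := by
    obtain ⟨a, b, _, h⟩ := hN 0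
    exact (abs_nonneg _).trans h
  refine ⟨2 + 2 * N, by positivity, fun ζ w => ?_⟩
  obtain ⟨w', hw', hww'⟩ := exists_eis_near w
  obtain ⟨x, y, hxy⟩ := exists_coord (ζ - (Real.sqrt 2 : ℂ) * w')
  obtain ⟨a, b, hab, hb⟩ := hN x
  obtain ⟨a', b', hab', hb'⟩ := hN y
  refine ⟨a + a' * om, ⟨a, a', rfl⟩, w' + (b + b' * om), eis_add hw' ⟨b, b', rfl⟩, ?_, ?_⟩
  · have : ζ - (a + a' * om) - (Real.sqrt 2 : ℂ) * (w' + (b + b' * om)) =
        ((x - a - Real.sqrt 2 * b : ℝ) : ℂ) + ((y - a' - Real.sqrt 2 * b' : ℝ) : ℂ) * om := by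
      have : ζ = x + y * om + (Real.sqrt 2 : ℂ) * w' := by rw [← hxy]; ring
      rw [this]; push_cast; ring
    rw [this]
    calc _ ≤ ‖((x - a - Real.sqrt 2 * b : ℝ) : ℂ)‖ + ‖((y - a' - Real.sqrt 2 * b' : ℝ) : ℂ) * om‖ :=
          norm_add_le _ _
      _ < δ / 2 + δ / 2 := by
        rw [norm_mul, norm_om, mul_one, Complex.norm_real, Complex.norm_real]
        exact add_lt_add hab hab'
      _ = δ := by ring
  · calc ‖w - (w' + (b + b' * om))‖ = ‖(w - w') - (b + b' * om)‖ := by congr 1; ring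
      _ ≤ ‖w - w'‖ + ‖(b : ℂ) + b' * om‖ := norm_sub_le _ _
      _ ≤ 2 + (N + N) := by
        refine add_le_add hww' ((norm_add_le _ _).trans (add_le_add ?_ ?_))
        · simpa using hb
        · rw [norm_mul, norm_om, mul_one]; simpa using hb'
      _ = 2 + 2 * N := by ring

end Pool.Agent.helper90.KMMP
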