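import Pool.Agent.helper90.KMMP.CoreA
import Pool.Agent.helper90.KMMP.Dens

/-!
# Lemmas on the lattice, the etale charts and local bounds
-/

open scoped Topology ContDiff
open Set Filter Metric

namespace Pool.Agent.helper90.KMMP

/-! ### lattice -/

theorem eis_normSq (a b : ℤ) : Complex.normSq ((a : ℂ) + b * om) = ((a ^ 2 - a * b + b ^ 2 : ℤ) : ℝ) := by
  have h3 := Real.mul_self_sqrt (show (0 : ℝ) ≤ 3 by norm_num)
  have h1 : ((a : ℂ) + b * om) = ⟨a - b / 2, b * (Real.sqrt 3 / 2)⟩ := by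
    apply Complex.ext
    · simp [om]; ring
    · simp [om]
  rw [h1, Complex.normSq_mk]
  push_cast
  nlinarith

theorem one_le_norm_eis {f : ℂ} (hf : f ∈ Eis) (h0 : f ≠ 0) : 1 ≤ ‖f‖ := by
  obtain ⟨a, b, rfl⟩ := hf
  have h1 : 0 < Complex.normSq ((a : ℂ) + b * om) := Complex.normSq_pos.2 h0
  rw [eis_normSq] at h1
  have h2 : 0 < a ^ 2 - a * b + b ^ 2 := by exact_mod_cast h1
  have h3 : (1 : ℝ) ≤ ((a ^ 2 - a * b + b ^ 2 : ℤ) : ℝ) := by exact_mod_cast h2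
  rw [← eis_normSq, Complex.normSq_eq_norm_sq] at h3
  nlinarith [norm_nonneg ((a : ℂ) + b * om)]

theorem eis_neg {a : ℂ} (ha : a ∈ Eis) : -a ∈ Eis := by
  obtain ⟨x, y, rfl⟩ := ha
  exact ⟨-x, -y, by push_cast; ring⟩

theorem eis_sub {a b : ℂ} (ha : a ∈ Eis) (hb : b ∈ Eis) : a - b ∈ Eis := by
  rw [sub_eq_add_neg]; exact eis_add ha (eis_neg hb)

theorem eis_om_mul {a : ℂ} (ha : a ∈ Eis) : om * a ∈ Eis := by
  obtain ⟨x, y, rfl⟩ := ha
  refine ⟨-y, x - y, ?_⟩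
  have h : om * (x + y * om) = x * om + y * om ^ 2 := by ring
  rw [h, om_sq]; push_cast; ring

theorem piEis_sub_eis {a : ℂ} (ha : a ∈ PiEis) : a ∈ Eis := by
  obtain ⟨u, hu, rfl⟩ := ha
  have : (1 - om) * u = u - om * u := by ring
  rw [this]
  exact eis_sub hu (eis_om_mul hu)

theorem L3_sub_O3 {l : C3} (hl : l ∈ L3) : l ∈ O3 := by
  obtain ⟨u, hu, rfl⟩ := hl
  intro i
  exact piEis_sub_eis ⟨u i, hu i, rfl⟩

theorem add_L3_mem_O3 {z l : C3} (hl : l ∈ L3) : z + l ∈ O3 ↔ z ∈ O3 := by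
  constructor
  · intro h
    have := O3_sub h (L3_sub_O3 hl)
    simpa using this
  · intro h
    exact O3_add h (L3_sub_O3 hl)

theorem reg_add {l : C3} (hl : l ∈ L3) (z : C3) : reg (z + l) = reg z :=
  (reg_eq_reg.2 ⟨0, l, hl, by simp⟩).symm

theorem norm_one_sub_om : ‖(1 : ℂ) - om‖ ≤ 2 := by
  calc _ ≤ ‖(1 : ℂ)‖ + ‖om‖ := norm_sub_le _ _
    _ = 2 := by rw [norm_one, norm_om]; norm_num

theorem one_sub_om_ne : (1 : ℂ) - om ≠ 0 := by
  intro h
  have := congrArg Complex.im h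
  simp [om] at this

/-- every complex number is within distance 4 of `π ℤ[ω]` -/
theorem exists_piEis_near (w : ℂ) : ∃ f ∈ PiEis, ‖w - f‖ ≤ 4 := by
  obtain ⟨u, hu, h⟩ := exists_eis_near (w / (1 - om))
  refine ⟨(1 - om) * u, ⟨u, hu, rfl⟩, ?_⟩
  have : w - (1 - om) * u = (1 - om) * (w / (1 - om) - u) := by
    field_simp [one_sub_om_ne]
  rw [this, norm_mul]
  nlinarith [norm_one_sub_om, norm_nonneg (w / (1 - om) - u), norm_nonneg ((1 : ℂ) - om)]

theorem mem_L3_iff {l : C3} : l ∈ L3 ↔ ∀ i, l i ∈ PiEis := by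
  constructor
  · rintro ⟨u, hu, rfl⟩ i
    exact ⟨u i, hu i, rfl⟩
  · intro h
    choose u hu hu2 using h
    exact ⟨u, hu, funext fun i => hu2 i⟩

/-- every point is within distance 4 of `Λ` -/
theorem exists_L3_near_four (w : C3) : ∃ l ∈ L3, ‖w - l‖ ≤ 4 := by
  choose l hl hl2 using fun i => exists_piEis_near (w i)
  exact ⟨l, mem_L3_iff.2 hl, (pi_norm_le_iff_of_nonneg (by norm_num)).2 hl2⟩

/-- uniform density for `Λ` -/
theorem exists_L3_dens {δ : ℝ} (hδ : 0 < δ) : ∃ R : ℝ, 0 < R ∧ ∀ w : C3, ∃ l ∈ L3,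
    ‖LL (w - l)‖ < δ ∧ ‖w - l‖ ≤ R := by
  obtain ⟨R, hR, h⟩ := dens_eis (half_pos hδ)
  refine ⟨δ + 4 * R + 4, by positivity, fun w => ?_⟩
  obtain ⟨f₀, hf₀, f₁, hf₁, h1, h2⟩ := h ((w 0 + (Real.sqrt 2 : ℂ) * w 1) / (1 - om))
    (w 1 / (1 - om))
  obtain ⟨g, hg, hg2⟩ := exists_piEis_near (w 2)
  have hn := norm_one_sub_om
  have hn0 := norm_nonneg ((1 : ℂ) - om)
  have hL : ‖LL (w - ![(1 - om) * f₀, (1 - om) * f₁, g])‖ < δ := by
    have : LL (w - ![(1 - om) * f₀, (1 - om) * f₁, g]) =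
        (1 - om) * ((w 0 + (Real.sqrt 2 : ℂ) * w 1) / (1 - om) - f₀ - (Real.sqrt 2 : ℂ) * f₁) := by
      simp only [LL, Pi.sub_apply, Matrix.cons_val_zero, Matrix.cons_val_one]
      field_simp [one_sub_om_ne]
      ring
    rw [this, norm_mul]
    nlinarith [norm_nonneg ((w 0 + (Real.sqrt 2 : ℂ) * w 1) / (1 - om) - f₀ - (Real.sqrt 2 : ℂ) * f₁)]
  have h1' : ‖w 1 - (1 - om) * f₁‖ ≤ 2 * R := by
    have : w 1 - (1 - om) * f₁ = (1 - om) * (w 1 / (1 - om) - f₁) := by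
      field_simp [one_sub_om_ne]
    rw [this, norm_mul]
    nlinarith [norm_nonneg (w 1 / (1 - om) - f₁)]
  refine ⟨![(1 - om) * f₀, (1 - om) * f₁, g], ?_, hL, ?_⟩
  · rw [mem_L3_iff]
    intro i
    fin_cases i
    · exact ⟨f₀, hf₀, rfl⟩
    · exact ⟨f₁, hf₁, rfl⟩
    · exact hg
  · refine (pi_norm_le_iff_of_nonneg (by positivity)).2 ?_
    intro i
    fin_cases i
    · have h3 : (w - ![(1 - om) * f₀, (1 - om) * f₁, g]) 0 =
          LL (w - ![(1 - om) * f₀, (1 - om) * f₁, g]) - (Real.sqrt 2 : ℂ) * (w 1 - (1 - om) * f₁) := by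
        simp [LL]
      change ‖(w - ![(1 - om) * f₀, (1 - om) * f₁, g]) 0‖ ≤ _
      rw [h3]
      refine (norm_sub_le _ _).trans ?_
      have hs : ‖(Real.sqrt 2 : ℂ)‖ ≤ 2 := by
        rw [Complex.norm_real, Real.norm_of_nonneg (Real.sqrt_nonneg _)]
        rw [Real.sqrt_le_left (by norm_num)]
        norm_num
      rw [norm_mul]
      nlinarith [norm_nonneg (w 1 - (1 - om) * f₁), norm_nonneg (Real.sqrt 2 : ℂ)]
    · change ‖w 1 - (1 - om) * f₁‖ ≤ _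
      linarith
    · change ‖w 2 - g‖ ≤ _
      nlinarith

/-! ### cube roots and exceptional charts -/

theorem cbrt_pow (t : ℂ) : cbrt t ^ 3 = t := by
  rw [cbrt, show (1 / 3 : ℂ) = ((3 : ℕ) : ℂ)⁻¹ by norm_num]
  exact Complex.cpow_nat_inv_pow t (by norm_num)

theorem norm_cbrt_pow (t : ℂ) : ‖cbrt t‖ ^ 3 = ‖t‖ := by
  rw [← norm_pow, cbrt_pow]

/-- points of the exceptional chart are in the ball of radius 1/2 -/
theorem norm_exc_lt {j : Fin 3} {a : C3} (ha : a ∈ Vexc j) :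
    ‖cbrt (a j) • Function.update a j 1‖ < 1 / 2 := by
  rw [pi_norm_lt_iff (by norm_num)]
  intro k
  have h := ha k
  have h1 : ‖(cbrt (a j) • Function.update a j 1) k‖ ^ 3 < (1 / 2) ^ 3 := by
    rw [Pi.smul_apply, smul_eq_mul, norm_mul, mul_pow, norm_cbrt_pow]
    calc _ < 1 / 8 := h
      _ = _ := by norm_num
  exact lt_of_pow_lt_pow_left₀ 3 (by norm_num) h1

/-- distance from the lattice for points of the exceptional chart -/
theorem dist_O3_exc {f : C3} (hf : f ∈ O3) {j : Fin 3} {a : C3} (ha : a ∈ Vexc j) {r : ℝ}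
    (hr : r ≤ 1 / 2) (h : r ≤ ‖cbrt (a j)‖) :
    ∀ g ∈ O3, r ≤ ‖f + cbrt (a j) • Function.update a j 1 - g‖ := by
  intro g hg
  by_cases hfg : f = g
  · subst hfg
    have h1 : f + cbrt (a j) • Function.update a j 1 - f = cbrt (a j) • Function.update a j 1 := by
      abel
    rw [h1]
    refine h.trans ?_
    have := norm_le_pi_norm (cbrt (a j) • Function.update a j 1) j
    simpa using this
  · have h1 := one_le_norm_O3 (O3_sub hf hg) (sub_ne_zero.2 hfg)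
    have h2 := norm_exc_lt ha
    have h3 : f - g = (f + cbrt (a j) • Function.update a j 1 - g) -
        cbrt (a j) • Function.update a j 1 := by abel
    rw [h3] at h1
    have := norm_sub_le (f + cbrt (a j) • Function.update a j 1 - g)
      (cbrt (a j) • Function.update a j 1)
    linarith

/-- a point near `f` in the exceptional chart where the `j`-th coordinate is the largest -/
theorem exists_exc_chart {f z : C3} (hf : f ∈ O3) (hz : z ∉ O3) (h : ‖z - f‖ < 1 / 2) :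
    ∃ j, z j ≠ f j ∧ ‖z j - f j‖ = ‖z - f‖ ∧ psi f j z ∈ Vexc j ∧ reg z = exc f j (psi f j z) ∧
      (∀ k, k ≠ j → ‖psi f j z k‖ ≤ 1) ∧ psi f j z j = (z j - f j) ^ 3 := by
  obtain ⟨j, -, hj⟩ := Finset.exists_max_image Finset.univ (fun k => ‖(z - f) k‖) ⟨0, by simp⟩
  have hn : ‖z - f‖ = ‖z j - f j‖ := by
    apply le_antisymm
    · exact (pi_norm_le_iff_of_nonneg (norm_nonneg _)).2 fun k => hj k (Finset.mem_univ k)
    · exact norm_le_pi_norm (z - f) j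
  have hne : z j ≠ f j := by
    intro h0
    rw [h0, sub_self, norm_zero, norm_eq_zero, sub_eq_zero] at hn
    exact hz (hn ▸ hf)
  have hpos : 0 < ‖z j - f j‖ := norm_pos_iff.2 (sub_ne_zero.2 hne)
  have hk : ∀ k, k ≠ j → ‖psi f j z k‖ ≤ 1 := by
    intro k hkj
    rw [psi, if_neg hkj, norm_div, div_le_one hpos]
    exact hj k (Finset.mem_univ k)
  have hjj : psi f j z j = (z j - f j) ^ 3 := by rw [psi, if_pos rfl]
  refine ⟨j, hne, hn.symm, ?_, reg_eq_exc hf j hne, hk, hjj⟩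
  intro k
  rw [hjj, norm_pow]
  have h1 : ‖Function.update (psi f j z) j 1 k‖ ≤ 1 := by
    by_cases hkj : k = j
    · subst hkj; simp
    · rw [Function.update_of_ne hkj]; exact hk k hkj
  have h2 : ‖z j - f j‖ ^ 3 < (1 / 2) ^ 3 := by
    rw [← hn]
    exact pow_lt_pow_left₀ h (norm_nonneg _) (by norm_num)
  calc _ ≤ ‖z j - f j‖ ^ 3 * 1 ^ 3 := by gcongr
    _ < _ := by rw [one_pow, mul_one]; linarith

theorem LL_update_le {j : Fin 3} {a : C3} (ha : ∀ k, k ≠ j → ‖a k‖ ≤ 1) :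
    ‖LL (Function.update a j 1)‖ ^ 2 ≤ 6 := by
  have h1 : ∀ k, ‖Function.update a j 1 k‖ ≤ 1 := by
    intro k
    by_cases hkj : k = j
    · subst hkj; simp
    · rw [Function.update_of_ne hkj]; exact ha k hkj
  have hs : ‖(Real.sqrt 2 : ℂ)‖ = Real.sqrt 2 := by
    rw [Complex.norm_real, Real.norm_of_nonneg (Real.sqrt_nonneg _)]
  have h2 : ‖LL (Function.update a j 1)‖ ≤ 1 + Real.sqrt 2 := by
    refine (norm_add_le _ _).trans ?_
    rw [norm_mul, hs]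
    nlinarith [h1 0, h1 1, Real.sqrt_nonneg 2]
  have h3 := Real.mul_self_sqrt (show (0 : ℝ) ≤ 2 by norm_num)
  have h4 : Real.sqrt 2 ≤ 3 / 2 := by
    rw [Real.sqrt_le_left (by norm_num)]; norm_num
  nlinarith [norm_nonneg (LL (Function.update a j 1)), Real.sqrt_nonneg 2]

theorem thetaExc_nonneg (j : Fin 3) (a : C3) : 0 ≤ thetaExc j a := by
  rw [thetaExc]; positivity

theorem thetaExc_le {j : Fin 3} {a : C3} (ha : ∀ k, k ≠ j → ‖a k‖ ≤ 1) {ρ : ℝ} (hρ : 0 ≤ ρ)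
    (haj : ‖a j‖ ≤ ρ ^ 3) : thetaExc j a ≤ 6 * ρ ^ 2 := by
  rw [thetaExc]
  have h1 : ‖a j‖ ^ (2 / 3 : ℝ) ≤ ρ ^ 2 := by
    calc ‖a j‖ ^ (2 / 3 : ℝ) ≤ (ρ ^ 3) ^ (2 / 3 : ℝ) := by
          apply Real.rpow_le_rpow (norm_nonneg _) haj (by norm_num)
      _ = ρ ^ 2 := by
        rw [← Real.rpow_natCast ρ 3, ← Real.rpow_mul hρ, ← Real.rpow_natCast ρ 2]
        norm_num
  have h2 := LL_update_le ha
  have h3 : 0 ≤ ‖a j‖ ^ (2 / 3 : ℝ) := by positivity
  nlinarith [sq_nonneg ρ]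

end Pool.Agent.helper90.KMMP
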