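import Mathlib

/-!
# Complex spaces, Bott-Chern classes, generalized pairs and log terminal models

All the definitions which are used by the statement of the result.

* reduced complex spaces, as topological spaces with a sheaf of holomorphic functions which are
  locally isomorphic to analytic subsets of open subsets of `ℂ^N`; complex manifolds;
* pluriharmonic, plurisubharmonic, smooth strictly plurisubharmonic functions;
* classes in `H^{1,1}_BC`, given by local potentials modulo pluriharmonic functions; Kähler, nef and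
  pseudo-effective classes; canonical class; class of an `ℝ`-divisor;
* compact Kähler log smooth generalized klt pairs and their (weak) log terminal models.
-/

open scoped Topology ContDiff
open Set Filter Metric

namespace Pool.Agent.helper90.KMMP

/-! ## Spaces with holomorphic functions -/

/-- A topological space together with, for every point `x`, the set of complex valued functions
that are holomorphic in a neighbourhood of `x` (a sheaf of `ℂ`-algebras of functions). -/
class HolSpace (X : Type) [TopologicalSpace X] where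
  /-- `Hol f x`: the function `f` is holomorphic in a neighbourhood of `x`. -/
  Hol : (X → ℂ) → X → Prop
  hol_const : ∀ (c : ℂ) (x : X), Hol (fun _ => c) x
  hol_add : ∀ {f g : X → ℂ} {x : X}, Hol f x → Hol g x → Hol (fun y => f y + g y) x
  hol_mul : ∀ {f g : X → ℂ} {x : X}, Hol f x → Hol g x → Hol (fun y => f y * g y) x
  hol_congr : ∀ {f g : X → ℂ} {x : X}, Hol f x → f =ᶠ[𝓝 x] g → Hol g x
  hol_eventually : ∀ {f : X → ℂ} {x : X}, Hol f x → ∀ᶠ y in 𝓝 x, Hol f y

export HolSpace (Hol)

/-- The holomorphic functions on (open subsets of) `ℂ`. -/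
instance : HolSpace ℂ where
  Hol f x := AnalyticAt ℂ f x
  hol_const c _ := analyticAt_const
  hol_add hf hg := hf.add hg
  hol_mul hf hg := hf.mul hg
  hol_congr hf h := hf.congr h
  hol_eventually hf := hf.eventually_analyticAt

/-- The holomorphic functions on (open subsets of) `ℂ^N`. -/
instance {N : ℕ} : HolSpace (Fin N → ℂ) where
  Hol f x := AnalyticAt ℂ f x
  hol_const c _ := analyticAt_const
  hol_add hf hg := hf.add hg
  hol_mul hf hg := hf.mul hg
  hol_congr hf h := hf.congr h
  hol_eventually hf := hf.eventually_analyticAt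

variable {X Y W : Type} [TopologicalSpace X] [HolSpace X] [TopologicalSpace Y] [HolSpace Y]
  [TopologicalSpace W] [HolSpace W]

/-- The map `f` is holomorphic at the point `x`: it is continuous at `x` and pulls back holomorphic
functions to holomorphic functions. -/
def HolMapAt (f : X → Y) (x : X) : Prop :=
  ContinuousAt f x ∧ ∀ g : Y → ℂ, Hol g (f x) → Hol (fun y => g (f y)) x

variable (X) in
/-- A local model (local embedding) of a reduced complex space at the point `x`: an isomorphism of
an open neighbourhood `U` of `x` with a closed analytic subset `{g_1 = ... = g_k = 0}` of an open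
subset `V` of `ℂ^N`. The holomorphic functions on `U` are the local restrictions of holomorphic
functions of `N` variables. -/
structure LocalModel (x : X) where
  /-- dimension of the ambient space -/
  N : ℕ
  /-- the embedding -/
  e : X → (Fin N → ℂ)
  /-- the neighbourhood of `x` -/
  U : Set X
  /-- the ambient open set -/
  V : Set (Fin N → ℂ)
  /-- number of equations -/
  k : ℕ
  /-- the equations -/
  g : Fin k → (Fin N → ℂ) → ℂ
  isOpen_U : IsOpen U
  mem_U : x ∈ U
  isOpen_V : IsOpen V
  isEmbedding : Topology.IsEmbedding (U.domRestrict e)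
  analytic_g : ∀ i, ∀ v ∈ V, AnalyticAt ℂ (g i) v
  image_eq : e '' U = {v | v ∈ V ∧ ∀ i, g i v = 0}
  hol_iff : ∀ y ∈ U, ∀ f : X → ℂ,
    Hol f y ↔ ∃ F : (Fin N → ℂ) → ℂ, AnalyticAt ℂ F (e y) ∧ f =ᶠ[𝓝 y] fun z => F (e z)

variable (X) in
/-- `X` is a (reduced) complex space. -/
def IsComplexSpace : Prop := ∀ x : X, Nonempty (LocalModel X x)

/-- `e` is a holomorphic chart: a homeomorphism from an open subset of `X` onto an open subset of
`ℂ^n` which identifies the holomorphic functions. -/
def IsHolChart {n : ℕ} (e : OpenPartialHomeomorph X (Fin n → ℂ)) : Prop :=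
  ∀ y ∈ e.source, ∀ f : X → ℂ, Hol f y ↔ AnalyticAt ℂ (fun v => f (e.symm v)) (e y)

variable (X) in
/-- `X` is a complex manifold of dimension `n`. -/
def IsComplexManifold (n : ℕ) : Prop :=
  ∀ x : X, ∃ e : OpenPartialHomeomorph X (Fin n → ℂ), IsHolChart e ∧ x ∈ e.source

/-! ## Pluriharmonic and plurisubharmonic functions -/

/-- `u` is pluriharmonic near `x`: it is the real part of a holomorphic function. -/
def PHAt (u : X → ℝ) (x : X) : Prop :=
  ∃ F : X → ℂ, Hol F x ∧ u =ᶠ[𝓝 x] fun y => (F y).re

/-- `u` is plurisubharmonic near `x`: it is upper semicontinuous with values in `[-∞, ∞)` and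
satisfies the sub-mean value inequality along every closed holomorphic disc `c` near `x`. The mean
value of `u` along the boundary circle is described by the continuous functions `φ ≥ u`. -/
def PshAt (u : X → EReal) (x : X) : Prop :=
  ∃ U ∈ 𝓝 x, (∀ y ∈ U, u y < ⊤) ∧ UpperSemicontinuousOn u U ∧
    ∀ c : ℂ → X, (∀ t ∈ closedBall (0 : ℂ) 1, c t ∈ U ∧ HolMapAt c t) →
      ∀ φ : ℂ → ℝ, ContinuousOn φ (sphere 0 1) →
        (∀ t ∈ sphere (0 : ℂ) 1, u (c t) ≤ (φ t : EReal)) →
          u (c 0) ≤ ((Real.circleAverage φ 0 1 : ℝ) : EReal)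

/-- `u` is smooth and strictly plurisubharmonic near `x`: in some local embedding it is the
restriction of a smooth function `Φ` such that `Φ - δ |v|²` is plurisubharmonic, `δ > 0`. -/
def SmoothStrictlyPshAt (u : X → ℝ) (x : X) : Prop :=
  ∃ (m : LocalModel X x) (Φ : (Fin m.N → ℂ) → ℝ) (δ : ℝ), 0 < δ ∧ ContDiffAt ℝ ∞ Φ (m.e x) ∧
    PshAt (fun v => ((Φ v - δ * ∑ i, ‖v i‖ ^ 2 : ℝ) : EReal)) (m.e x) ∧
    u =ᶠ[𝓝 x] fun y => Φ (m.e y)

/-! ## Classes in Bott-Chern cohomology -/

variable (X) in
/-- A representative of a class in `H^{1,1}_BC(X)`, given by local potentials: `pot x` is a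
continuous function near `x` and the potentials `pot x`, `pot y` for `y` close to `x` differ near
`y` by a pluriharmonic function. -/
structure LocPot where
  /-- the local potential near `x` -/
  pot : X → X → ℝ
  cont : ∀ x, ∀ᶠ y in 𝓝 x, ContinuousAt (pot x) y
  compat : ∀ x, ∀ᶠ y in 𝓝 x, PHAt (fun z => pot x z - pot y z) y

/-- The class of `u` is a Kähler class: after adding a global continuous function, the potentials
are smooth and strictly plurisubharmonic. -/
def IsKahler (u : LocPot X) : Prop :=
  ∃ h : X → ℝ, Continuous h ∧ ∀ x, SmoothStrictlyPshAt (fun y => u.pot x y + h y) x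

/-- The class of `u` is nef: it is the limit of the Kähler classes `u + ε k`, `ε → 0`, for some
Kähler class `k`. -/
def IsNef (u : LocPot X) : Prop :=
  ∃ k : LocPot X, IsKahler k ∧ ∀ ε : ℝ, 0 < ε →
    ∃ h : X → ℝ, Continuous h ∧
      ∀ x, SmoothStrictlyPshAt (fun y => u.pot x y + ε * k.pot x y + h y) x

/-- The class of `u` is pseudo-effective: it contains a closed positive current, given by local
plurisubharmonic potentials `pot x + v`, not identically `-∞`. -/
def IsPsef (u : LocPot X) : Prop :=
  ∃ v : X → EReal, Dense {x | v x ≠ ⊥} ∧ ∀ x, PshAt (fun y => (u.pot x y : EReal) + v y) x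

/-- `κ` is the system of weights of a continuous metric on the canonical bundle of the
`n`-dimensional manifold `X`, in charts `e x` around the points `x`; its class is the canonical
class `K_X`. -/
def IsCanonical (n : ℕ) (κ : LocPot X) : Prop :=
  ∃ e : X → OpenPartialHomeomorph X (Fin n → ℂ), (∀ x, IsHolChart (e x) ∧ x ∈ (e x).source) ∧
    ∀ x, ∀ᶠ y in 𝓝 x, ∀ᶠ z in 𝓝 y,
      κ.pot x z - κ.pot y z =
        Real.log ‖(fderiv ℂ (fun v => e y ((e x).symm v)) (e x z)).det‖

/-! ## Simple normal crossing divisors -/

/-- A simple normal crossing divisor on an `n`-dimensional manifold: a finite family of irreducible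
(connected) smooth hypersurfaces `D j`, with local equations `eq j x` near each point `x`; near
each point `x` the equations of the components through `x` are part of a coordinate system. -/
structure SNC (n : ℕ) (J X : Type) [TopologicalSpace X] [HolSpace X] where
  /-- the components -/
  D : J → Set X
  /-- `eq j x` is a local equation of `D j` near `x` -/
  eq : J → X → X → ℂ
  isClosed : ∀ j, IsClosed (D j)
  isConnected : ∀ j, IsConnected (D j)
  hol : ∀ j x, Hol (eq j x) x
  mem_iff : ∀ j x, ∀ᶠ y in 𝓝 x, (y ∈ D j ↔ eq j x y = 0)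
  snc : ∀ x, ∃ (e : OpenPartialHomeomorph X (Fin n → ℂ)) (k : J → Fin n),
    IsHolChart e ∧ x ∈ e.source ∧ InjOn k {j | x ∈ D j} ∧
      ∀ j, x ∈ D j → ∀ᶠ y in 𝓝 x, eq j x y = e y (k j)
  compat : ∀ j x, ∀ᶠ y in 𝓝 x, ∃ u : X → ℂ, Hol u y ∧ u y ≠ 0 ∧
    ∀ᶠ z in 𝓝 y, eq j x z = u z * eq j y z

/-- Equality `[u] = [v] + ∑ a_j [D_j]` of classes of type `(1,1)`, where `u`, `v` are systems of
local potentials and `[D_j]` is the class of the divisor `D_j`, with singular potentials
`log |eq j x|`. -/
def ClassEq {n : ℕ} {J : Type} [Fintype J] (P : SNC n J X) (a : J → ℝ) (u v : X → X → ℝ) : Prop :=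
  ∃ h : X → ℝ, ∀ x, ∃ F : X → ℂ, Hol F x ∧ ∀ᶠ y in 𝓝 x, (∀ j, y ∉ P.D j) →
    u x y = v x y + h y + ∑ j, a j * Real.log ‖P.eq j x y‖ + (F y).re

/-! ## Contracted divisors and modifications -/

/-- The subset `P` of `W` is contracted by the map `f`: it is covered by compact curves on which `f`
is constant. For an irreducible divisor `P` and a proper modification `f` this means that `P` is
`f`-exceptional. -/
def Contracted (f : W → Y) (P : Set W) : Prop :=
  ∀ w ∈ P, ∃ (S : Type) (_ : TopologicalSpace S) (_ : HolSpace S) (c : S → W),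
    CompactSpace S ∧ T2Space S ∧ ConnectedSpace S ∧ IsComplexManifold S 1 ∧
    (∀ s, HolMapAt c s) ∧ (∀ s, c s ∈ P) ∧ (∃ s, c s = w) ∧
    (∀ s, ¬ ∀ᶠ s' in 𝓝 s, c s' = c s) ∧ ∀ s s', f (c s) = f (c s')

/-- `f` is a modification with exceptional set `E`: it is surjective, holomorphic, and restricts to
an isomorphism from the complement of `E` onto the complement of `f(E)`. -/
def IsModification (f : W → Y) (E : Set W) : Prop :=
  Function.Surjective f ∧ (∀ w, HolMapAt f w) ∧
  ∃ g : Y → W, (∀ y, y ∉ f '' E → f (g y) = y ∧ HolMapAt g y) ∧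
    ∀ w, w ∉ E → f w ∉ f '' E ∧ g (f w) = w

/-! ## Generalized pairs -/

/-- A compact Kähler log smooth generalized klt pair `(X, B + β)` of dimension `n`: a connected
compact Kähler manifold `X`, an `ℝ`-divisor `B = ∑ b_j D_j` with simple normal crossing support and
coefficients in `[0, 1)`, and a nef class `β` on `X`. -/
structure GkltPair (n : ℕ) where
  /-- the manifold -/
  X : Type
  [top : TopologicalSpace X]
  [hol : HolSpace X]
  [compact : CompactSpace X]
  [t2 : T2Space X]
  [connected : ConnectedSpace X]
  isManifold : IsComplexManifold X n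
  exists_kahler : ∃ k : LocPot X, IsKahler k
  /-- the set of components of the boundary -/
  J : Type
  [finJ : Fintype J]
  /-- the support of the boundary -/
  supp : SNC n J X
  /-- the coefficients of the boundary -/
  b : J → ℝ
  b_nonneg : ∀ j, 0 ≤ b j
  b_lt_one : ∀ j, b j < 1
  /-- the nef class -/
  β : LocPot X
  β_nef : IsNef β

attribute [instance] GkltPair.top GkltPair.hol GkltPair.compact GkltPair.t2 GkltPair.connected
  GkltPair.finJ

/-- `γ` represents the adjoint class `K_X + B + β`. -/
def GkltPair.IsAdjoint {n : ℕ} (A : GkltPair n) (γ : LocPot A.X) : Prop :=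
  ∃ κ : LocPot A.X, IsCanonical n κ ∧
    ClassEq A.supp A.b γ.pot (fun x y => κ.pot x y + A.β.pot x y)

/-- The adjoint class `K_X + B + β` is pseudo-effective. -/
def GkltPair.Pseudoeffective {n : ℕ} (A : GkltPair n) : Prop :=
  ∃ γ : LocPot A.X, A.IsAdjoint γ ∧ IsPsef γ

/-- A weak log terminal model of a log smooth generalized klt pair `(X, B + β)`: a bimeromorphic
map `φ : X ⇢ Y` to a compact Kähler space, given by a common resolution `p : W → X`, `q : W → Y`.
Every log terminal model is a weak log terminal model: here `Y` is not required to be normal,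
strongly `ℚ`-factorial or generalized dlt. -/
structure WeakLogTerminalModel {n : ℕ} (A : GkltPair n) where
  /-- the common resolution -/
  W : Type
  [topW : TopologicalSpace W]
  [holW : HolSpace W]
  [compactW : CompactSpace W]
  [t2W : T2Space W]
  [connectedW : ConnectedSpace W]
  manifoldW : IsComplexManifold W n
  /-- the model -/
  Y : Type
  [topY : TopologicalSpace Y]
  [holY : HolSpace Y]
  [compactY : CompactSpace Y]
  [t2Y : T2Space Y]
  complexY : IsComplexSpace Y
  /-- the components of the relevant divisors on `W` -/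
  ι : Type
  [finι : Fintype ι]
  /-- the union of the exceptional divisors of `p` and `q` and of the strict transform of `B`,
  with simple normal crossings -/
  P : SNC n ι W
  /-- the map to `X` -/
  p : W → A.X
  /-- the map to the model -/
  q : W → Y
  p_modification : IsModification p (⋃ i ∈ {i | Contracted p (P.D i)}, P.D i)
  q_modification : IsModification q (⋃ i ∈ {i | Contracted q (P.D i)}, P.D i)
  /-- `p` is a projective (Kähler) modification, as a composite of blow ups is: for every Kähler
  class `k` on `X` there is an effective `p`-exceptional divisor `H` such that `p^* k - H` is a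
  Kähler class -/
  p_kahler : ∀ k : LocPot A.X, IsKahler k → ∃ (H : ι → ℝ) (kW : LocPot W),
    (∀ i, 0 ≤ H i) ∧ (∀ i, ¬ Contracted p (P.D i) → H i = 0) ∧ IsKahler kW ∧
    ClassEq P (fun i => - H i) kW.pot (fun w w' => k.pot (p w) (p w'))
  /-- `φ⁻¹` contracts no divisor -/
  inv_contracts_none : ∀ i, Contracted p (P.D i) → Contracted q (P.D i)
  /-- `mult i j` is the multiplicity of `P_i` in `p^* D_j` -/
  mult : ι → A.J → ℕ
  pullback_eq : ∀ j w, ∃ u : W → ℂ, Hol u w ∧ u w ≠ 0 ∧
    ∀ᶠ w' in 𝓝 w, A.supp.eq j (p w) (p w') = u w' * ∏ i, P.eq i w w' ^ mult i j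
  /-- `P_(strict j)` is the strict transform of `D_j` -/
  strict : A.J → ι
  mult_strict : ∀ j, mult (strict j) j = 1
  not_contracted_strict : ∀ j, ¬ Contracted p (P.D (strict j))
  mult_eq_zero : ∀ i j, ¬ Contracted p (P.D i) → i ≠ strict j → mult i j = 0
  /-- a metric on the canonical bundle of `W` -/
  κ : LocPot W
  canonical_κ : IsCanonical n κ
  /-- the class `K_X + B + β` -/
  γ : LocPot A.X
  adjoint_γ : A.IsAdjoint γ
  /-- the divisor `B_W` with `p^* (K_X + B + β) = K_W + B_W + p^* β` -/
  BW : ι → ℝ
  BW_eq : ∀ i, ¬ Contracted p (P.D i) → BW i = ∑ j, A.b j * mult i j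
  crepant_X : ClassEq P BW (fun w w' => γ.pot (p w) (p w'))
    (fun w w' => κ.pot w w' + A.β.pot (p w) (p w'))
  /-- the class `K_Y + φ_* B + β_Y` -/
  γm : LocPot Y
  nef_γm : IsNef γm
  /-- the divisor `B^m_W` with `q^* (K_Y + φ_* B + β_Y) = K_W + B^m_W + p^* β` -/
  Bm : ι → ℝ
  Bm_eq : ∀ i, ¬ Contracted q (P.D i) → Bm i = ∑ j, A.b j * mult i j
  crepant_Y : ClassEq P Bm (fun w w' => γm.pot (q w) (q w'))
    (fun w w' => κ.pot w w' + A.β.pot (p w) (p w'))
  /-- log discrepancies: `a(P_i, X, B + β) = 1 - B_W i < 1 - B^m_W i = a(P_i, Y, φ_* B + β)` for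
  every `φ`-exceptional divisor `P_i` -/
  discrepancy : ∀ i, ¬ Contracted p (P.D i) → Contracted q (P.D i) → 1 - BW i < 1 - Bm i

end Pool.Agent.helper90.KMMP
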