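import Pool.Agent.helper90.KMMP.Defs

/-!
# Approximation of continuous functions on the circle by real parts of polynomials
-/

open scoped Topology ContDiff
open Set Filter Metric

namespace Pool.Agent.helper90.KMMP

theorem exists_poly_approx {φ : ℂ → ℝ} (hφ : ContinuousOn φ (sphere 0 1)) {η : ℝ} (hη : 0 < η) :
    ∃ P : Polynomial ℂ, ∀ t ∈ sphere (0 : ℂ) 1, |φ t - (P.eval t).re| < η := by
  have : Fact (0 < 2 * Real.pi) := ⟨Real.two_pi_pos⟩
  have hmem : ∀ z : Circle, (z : ℂ) ∈ sphere (0 : ℂ) 1 := fun z => by simp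
  let F : C(AddCircle (2 * Real.pi), ℂ) :=
    ⟨fun x => ((φ (AddCircle.toCircle x : ℂ) : ℝ) : ℂ), by
      refine Complex.continuous_ofReal.comp ?_
      exact hφ.comp_continuous ((continuous_subtype_val (p := fun x => x ∈ Submonoid.unitSphere ℂ)).comp AddCircle.continuous_toCircle)
        (fun x => hmem _)⟩
  have hF : F ∈ (Submodule.span ℂ (range (@fourier (2 * Real.pi)))).topologicalClosure := by
    rw [span_fourier_closure_eq_top]; trivial
  obtain ⟨g, hg, hgF⟩ := Metric.mem_closure_iff.1 hF η hη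
  have hPQ : ∃ P Q : Polynomial ℂ, ∀ x : AddCircle (2 * Real.pi),
      g x = P.eval (AddCircle.toCircle x : ℂ) +
        (starRingEnd ℂ) (Q.eval (AddCircle.toCircle x : ℂ)) := by
    refine Submodule.span_induction (p := fun (g : C(AddCircle (2 * Real.pi), ℂ)) _ =>
      ∃ P Q : Polynomial ℂ, ∀ x : AddCircle (2 * Real.pi),
      g x = P.eval (AddCircle.toCircle x : ℂ) +
        (starRingEnd ℂ) (Q.eval (AddCircle.toCircle x : ℂ))) ?_ ?_ ?_ ?_ hg
    · rintro _ ⟨n, rfl⟩
      have hz : ∀ x : AddCircle (2 * Real.pi), fourier n x = (AddCircle.toCircle x : ℂ) ^ n := by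
        intro x
        rw [fourier_apply, AddCircle.toCircle_zsmul, Circle.coe_zpow]
      obtain ⟨m, rfl | rfl⟩ := n.eq_nat_or_neg
      · refine ⟨Polynomial.X ^ m, 0, fun x => ?_⟩
        rw [hz]; simp
      · refine ⟨0, Polynomial.X ^ m, fun x => ?_⟩
        rw [hz]
        simp only [zpow_neg, zpow_natCast, Polynomial.eval_zero, zero_add, Polynomial.eval_pow,
          Polynomial.eval_X, map_pow]
        rw [← Circle.coe_inv_eq_conj, Circle.coe_inv, inv_pow]
    · exact ⟨0, 0, fun x => by simp⟩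
    · rintro g₁ g₂ - - ⟨P₁, Q₁, h₁⟩ ⟨P₂, Q₂, h₂⟩
      refine ⟨P₁ + P₂, Q₁ + Q₂, fun x => ?_⟩
      rw [ContinuousMap.add_apply, h₁, h₂, Polynomial.eval_add, Polynomial.eval_add, map_add]
      ring
    · rintro a g₁ - ⟨P₁, Q₁, h₁⟩
      refine ⟨Polynomial.C a * P₁, Polynomial.C ((starRingEnd ℂ) a) * Q₁, fun x => ?_⟩
      rw [ContinuousMap.smul_apply, h₁]
      simp only [Polynomial.eval_mul, Polynomial.eval_C, map_mul, Complex.conj_conj, smul_eq_mul]
      ring
  obtain ⟨P, Q, hPQ⟩ := hPQ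
  refine ⟨P + Q, fun t ht => ?_⟩
  let z : Circle := ⟨t, by
    change t ∈ (Submonoid.unitSphere ℂ : Set ℂ)
    exact ht⟩
  obtain ⟨x, hx⟩ : ∃ x : AddCircle (2 * Real.pi), AddCircle.toCircle x = z :=
    ⟨(AddCircle.homeomorphCircle (T := 2 * Real.pi) (by positivity)).symm z, by
      rw [← AddCircle.homeomorphCircle_apply (T := 2 * Real.pi) (by positivity)]
      simp⟩
  have h1 := hPQ x
  have h2 : dist (F x) (g x) < η := (ContinuousMap.dist_apply_le_dist x).trans_lt hgF
  have h3 : F x = ((φ t : ℝ) : ℂ) := by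
    change ((φ (AddCircle.toCircle x : ℂ) : ℝ) : ℂ) = _
    rw [hx]
  rw [h3, dist_eq_norm] at h2
  have h4 : (AddCircle.toCircle x : ℂ) = t := by rw [hx]
  rw [h4] at h1
  have h5 : φ t - ((P + Q).eval t).re = (((φ t : ℝ) : ℂ) - g x).re := by
    rw [h1, Polynomial.eval_add]
    simp
  rw [h5]
  exact (Complex.abs_re_le_norm _).trans_lt h2

theorem circleAverage_re_poly (P : Polynomial ℂ) :
    Real.circleAverage (fun t => (P.eval t).re) 0 1 = (P.eval 0).re := by
  have h1 : Real.circleAverage (fun t => P.eval t) 0 1 = P.eval 0 := by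
    apply DiffContOnCl.circleAverage
    exact (P.differentiable.diffContOnCl)
  have h2 : CircleIntegrable (fun t => P.eval t) 0 1 :=
    P.continuous.continuousOn.circleIntegrable (by norm_num)
  rw [← h1, Real.circleAverage, Real.circleAverage]
  rw [Complex.real_smul, Complex.re_ofReal_mul, smul_eq_mul]
  congr 1
  have h3 := ContinuousLinearMap.intervalIntegral_comp_comm Complex.reCLM
    (a := 0) (b := 2 * Real.pi) (f := fun θ => P.eval (circleMap 0 1 θ)) h2
  simpa using h3

end Pool.Agent.helper90.KMMP
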