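import Pool.Agent.helper90.KMMP.Psh
import Pool.Agent.helper90.KMMP.DiscGain
import Pool.Agent.helper90.KMMP.PolyA

/-!
# Sub-mean value inequality on large discs
-/

open scoped Topology ContDiff
open Set Filter Metric

namespace Pool.Agent.helper90.KMMP

/-- sub-mean value inequality on large discs in `ℂ^n` -/
theorem psh_subMean {n : ℕ} {u : (Fin n → ℂ) → EReal} {c : ℂ → (Fin n → ℂ)}
    (hc : ∀ t ∈ closedBall (0 : ℂ) 1, HolMapAt c t ∧ PshAt u (c t)) {φ : ℂ → ℝ}
    (hφ : ContinuousOn φ (sphere 0 1)) (hle : ∀ t ∈ sphere (0 : ℂ) 1, u (c t) ≤ (φ t : EReal)) :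
    u (c 0) ≤ ((Real.circleAverage φ 0 1 : ℝ) : EReal) := by
  apply EReal.le_of_forall_lt_iff_le.1
  intro q hq
  have hq' : Real.circleAverage φ 0 1 < q := by exact_mod_cast hq
  set η : ℝ := (q - Real.circleAverage φ 0 1) / 2 with hη
  have hη0 : 0 < η := by rw [hη]; linarith
  obtain ⟨P, hP⟩ := exists_poly_approx hφ hη0
  have hPc : Continuous fun t : ℂ => -(P.eval t).re :=
    (Complex.continuous_re.comp P.continuous).neg
  have hPH : ∀ t : ℂ, PHAt (fun t : ℂ => -(P.eval t).re) t := fun t =>
    ⟨fun t => -(P.eval t), by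
      change AnalyticAt ℂ (fun t => -(P.eval t)) t
      exact (AnalyticAt.aeval_polynomial (f := fun z : ℂ => z) analyticAt_id P).neg,
      Eventually.of_forall fun y => by simp⟩
  have hpsh : ∀ t ∈ closedBall (0 : ℂ) 1,
      PshAt (fun t => u (c t) + ((-(P.eval t).re : ℝ) : EReal)) t := by
    intro t ht
    refine PshAt.add_coe (((hc t ht).2).comp (f := c) ?_) ((hPH t).pshAt isComplexManifold_C)
      (Eventually.of_forall fun s => hPc.continuousAt)
    filter_upwards [((hc t ht).1.analyticAt_C).eventually_analyticAt] with s hs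
    exact holMapAt_of_analyticAt_C hs
  have key := maxPrinciple (K := closedBall (0 : ℂ) 1) (U := ball (0 : ℂ) 1)
    (isCompact_closedBall 0 1) isOpen_ball ball_subset_closedBall
    (u := fun t => u (c t) + ((-(P.eval t).re : ℝ) : EReal))
    (fun t ht => ((hpsh t ht).upperSemicontinuousAt).upperSemicontinuousWithinAt _)
    (fun t ht => hpsh t (ball_subset_closedBall ht)) η ?_ 0 (by simp)
  · have h1 : u (c 0) + ((-(P.eval 0).re : ℝ) : EReal) + (((P.eval 0).re : ℝ) : EReal) ≤
        (η : EReal) + (((P.eval 0).re : ℝ) : EReal) := add_le_add_left key _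
    rw [add_assoc, ← EReal.coe_add, neg_add_cancel, EReal.coe_zero, add_zero, ← EReal.coe_add] at h1
    refine h1.trans ?_
    have h2 : (P.eval 0).re ≤ Real.circleAverage φ 0 1 + η := by
      rw [← circleAverage_re_poly]
      have h3 : Real.circleAverage (fun t => (P.eval t).re) 0 1 ≤
          Real.circleAverage (fun t => φ t + η) 0 1 := by
        apply Real.circleAverage_mono
        · exact (Complex.continuous_re.comp P.continuous).continuousOn.circleIntegrable (by norm_num)
        · exact (hφ.add continuousOn_const).circleIntegrable (by norm_num)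
        · intro t ht
          have := (abs_lt.1 (hP t (by simpa using ht))).1
          linarith
      rw [Real.circleAverage_fun_add (hφ.circleIntegrable (by norm_num))
        (continuousOn_const.circleIntegrable (by norm_num)), Real.circleAverage_const] at h3
      exact h3
    have h4 : η + (P.eval 0).re ≤ q := by linarith
    exact_mod_cast h4
  · rintro t ⟨ht1, ht2⟩
    have ht : t ∈ sphere (0 : ℂ) 1 := by
      rw [mem_sphere]
      exact le_antisymm (mem_closedBall.1 ht1) (not_lt.1 ht2)
    have h1 := (abs_lt.1 (hP t ht)).2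
    calc u (c t) + ((-(P.eval t).re : ℝ) : EReal) ≤ (φ t : EReal) + ((-(P.eval t).re : ℝ) : EReal) :=
          add_le_add_left (hle t ht) _
      _ ≤ η := by
        rw [← EReal.coe_add]
        have : φ t + -(P.eval t).re ≤ η := by linarith
        exact_mod_cast this

end Pool.Agent.helper90.KMMP
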