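import Pool.Agent.helper90.KMMP.Psh
import Pool.Agent.helper90.KMMP.Regu
import Pool.Agent.helper90.KMMP.Poly

/-!
# Extension of plurisubharmonic functions across thin sets
-/

open scoped Topology ContDiff
open Set Filter Metric MeasureTheory

namespace Pool.Agent.helper90.KMMP

variable {X : Type} [TopologicalSpace X] [HolSpace X]

/-- `A ⊆ ℂ^n` is thin: the images of `D ∩ (ℂ × A)` under continuously differentiable maps
`B : D → ℂ^n`, `D ⊆ ℂ × ℂ^n` open, have measure zero. -/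
def Thin {n : ℕ} (A : Set (Fin n → ℂ)) : Prop :=
  ∀ (D : Set (ℂ × (Fin n → ℂ))) (B : ℂ × (Fin n → ℂ) → (Fin n → ℂ)), IsOpen D →
    ContDiffOn ℝ 1 B D → volume (B '' (D ∩ (univ ×ˢ A))) = 0

theorem Thin.mono {n : ℕ} {A A' : Set (Fin n → ℂ)} (h : Thin A) (hA : A' ⊆ A) : Thin A' := by
  intro D B hD hB
  exact measure_mono_null (image_mono (inter_subset_inter_right _ (prod_mono_right hA)))
    (h D B hD hB)

theorem Thin.iUnion {n : ℕ} {ι : Type*} [Countable ι] {A : ι → Set (Fin n → ℂ)}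
    (h : ∀ i, Thin (A i)) : Thin (⋃ i, A i) := by
  intro D B hD hB
  have : B '' (D ∩ (univ ×ˢ ⋃ i, A i)) = ⋃ i, B '' (D ∩ (univ ×ˢ A i)) := by
    rw [← image_iUnion, ← inter_iUnion]
    congr 2
    ext p; simp
  rw [this]
  exact measure_iUnion_null fun i => h i D B hD hB

theorem map_add_smul_mem {n : ℕ} {x d : Fin n → ℂ} {U : Set (Fin n → ℂ)} {r : ℝ}
    (hU : closedBall x (r * ‖d‖) ⊆ U) {t : ℂ} (ht : ‖t‖ ≤ r) : x + t • d ∈ U := by
  apply hU
  rw [mem_closedBall, dist_eq_norm, add_sub_cancel_left, norm_smul]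
  gcongr

/-- upper bound on a neighbourhood of a compact set on which a psh function is defined -/
theorem exists_upper_bound_of_compact {n : ℕ} {u : (Fin n → ℂ) → EReal} {S : Set (Fin n → ℂ)}
    (hS : IsCompact S) (hu : ∀ x ∈ S, PshAt u x) :
    ∃ (M : ℝ) (O : Set (Fin n → ℂ)), IsOpen O ∧ S ⊆ O ∧ ∀ y ∈ O, u y ≤ M := by
  refine hS.induction_on (p := fun s => ∃ (M : ℝ) (O : Set (Fin n → ℂ)), IsOpen O ∧ s ⊆ O ∧
    ∀ y ∈ O, u y ≤ M) ⟨0, ∅, isOpen_empty, Subset.rfl, by simp⟩ ?_ ?_ ?_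
  · rintro s t hst ⟨M, O, h1, h2, h3⟩
    exact ⟨M, O, h1, hst.trans h2, h3⟩
  · rintro s t ⟨M, O, h1, h2, h3⟩ ⟨M', O', h1', h2', h3'⟩
    refine ⟨max M M', O ∪ O', h1.union h1', union_subset_union h2 h2', fun y hy => ?_⟩
    rcases hy with hy | hy
    · exact (h3 y hy).trans (by exact_mod_cast le_max_left M M')
    · exact (h3' y hy).trans (by exact_mod_cast le_max_right M M')
  · intro x hx
    obtain ⟨M, hM1, -⟩ := EReal.lt_iff_exists_real_btwn.1 (hu x hx).lt_top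
    have h1 : {y | u y < M} ∈ 𝓝 x := (hu x hx).upperSemicontinuousAt M hM1
    refine ⟨_, mem_nhdsWithin_of_mem_nhds (interior_mem_nhds.2 h1), M, _, isOpen_interior,
      Subset.rfl, fun y hy => ?_⟩
    have h2 : y ∈ {y | u y < M} := interior_subset hy
    exact le_of_lt h2

/-- the line `x + ℂ d` avoids `A` except at `x`, for almost all `d` -/
theorem Thin.exists_direction {n : ℕ} {A : Set (Fin n → ℂ)} (hA : Thin A) (x : Fin n → ℂ)
    {N : Set (Fin n → ℂ)} (hN : IsOpen N) (hN' : N.Nonempty) :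
    ∃ d ∈ N, ∀ t : ℂ, t ≠ 0 → x + t • d ∉ A := by
  have h0 := hA univ (fun p => p.1 • (p.2 - x)) isOpen_univ (by
    apply ContDiff.contDiffOn
    exact contDiff_fst.smul (contDiff_snd.sub contDiff_const))
  obtain ⟨d, hd, hd'⟩ : ∃ d ∈ N, d ∉ (fun p : ℂ × (Fin n → ℂ) => p.1 • (p.2 - x)) ''
      (univ ∩ (univ ×ˢ A)) := by
    by_contra hcon
    push Not at hcon
    exact (hN.measure_pos volume hN').ne' (measure_mono_null hcon h0)
  refine ⟨d, hd, fun t ht hmem => hd' ⟨(t⁻¹, x + t • d), ⟨mem_univ _, mem_univ _, hmem⟩, ?_⟩⟩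
  simp only [add_sub_cancel_left]
  rw [smul_smul, inv_mul_cancel₀ ht, one_smul]

/-- almost all translates of a disc avoid `A` -/
theorem Thin.exists_translate {n : ℕ} {A : Set (Fin n → ℂ)} (hA : Thin A) {c : ℂ → (Fin n → ℂ)}
    (hc : ∀ t ∈ closedBall (0 : ℂ) 1, AnalyticAt ℂ c t)
    {N : Set (Fin n → ℂ)} (hN : IsOpen N) (hN' : N.Nonempty) :
    ∃ s ∈ N, ∀ t ∈ closedBall (0 : ℂ) 1, c t + s ∉ A := by
  have hD : IsOpen ({t : ℂ | AnalyticAt ℂ c t} ×ˢ (univ : Set (Fin n → ℂ))) :=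
    (isOpen_analyticAt ℂ c).prod isOpen_univ
  have h0 := hA _ (fun p => p.2 - c p.1) hD (by
    apply ContDiffOn.sub contDiff_snd.contDiffOn
    intro p hp
    have h1 : ContDiffAt ℝ 1 c p.1 := (hp.1.restrictScalars (𝕜 := ℝ)).contDiffAt
    exact (h1.comp p contDiff_fst.contDiffAt).contDiffWithinAt)
  obtain ⟨s, hs, hs'⟩ : ∃ s ∈ N, s ∉ (fun p : ℂ × (Fin n → ℂ) => p.2 - c p.1) ''
      (({t : ℂ | AnalyticAt ℂ c t} ×ˢ (univ : Set (Fin n → ℂ))) ∩ (univ ×ˢ A)) := by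
    by_contra hcon
    push Not at hcon
    exact (hN.measure_pos volume hN').ne' (measure_mono_null hcon h0)
  refine ⟨s, hs, fun t ht hmem => hs' ⟨(t, c t + s), ⟨⟨hc t ht, mem_univ _⟩, mem_univ _, hmem⟩, ?_⟩⟩
  simp only [add_sub_cancel_left]

theorem holMapAt_translate {n : ℕ} {c : ℂ → (Fin n → ℂ)} {t : ℂ} (hc : AnalyticAt ℂ c t)
    (s : Fin n → ℂ) : HolMapAt (fun t => c t + s) t :=
  holMapAt_of_analyticAt_C (hc.add analyticAt_const)

/-- local boundedness -/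
theorem psh_extension_bdd {n : ℕ} {U A 𝒰 : Set (Fin n → ℂ)} (hU : IsOpen U)
    (hA : Thin (A ∩ U)) (h𝒰 : 𝒰 ⊆ U \ A)
    {v : (Fin n → ℂ) → ℝ} (hv : ContinuousOn v 𝒰)
    (hpsh : ∀ x ∈ U \ A, PshAt (reguSup 𝒰 v) x) {x₀ : Fin n → ℂ} (hx₀ : x₀ ∈ U) :
    ∃ M : ℝ, ∀ᶠ y in 𝓝 x₀, y ∈ 𝒰 → v y ≤ M := by
  by_cases hx₀A : x₀ ∈ A
  swap
  · exact exists_bound_of_pshAt (hpsh x₀ ⟨hx₀, hx₀A⟩)
  obtain ⟨R, hR, hball⟩ := Metric.isOpen_iff.1 hU x₀ hx₀
  obtain ⟨d, -, hd⟩ := hA.exists_direction x₀ isOpen_univ univ_nonempty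
  have hd0 : d ≠ 0 := by
    rintro rfl
    exact hd 1 one_ne_zero (by simpa using ⟨hx₀A, hx₀⟩)
  have hdn : 0 < ‖d‖ := norm_pos_iff.2 hd0
  set r : ℝ := R / (4 * ‖d‖) with hr
  have hr0 : 0 < r := by positivity
  have hrd : r * ‖d‖ = R / 4 := by rw [hr]; field_simp
  set S : Set (Fin n → ℂ) := (fun t : ℂ => x₀ + t • d) '' sphere (0 : ℂ) r with hS
  have hSc : IsCompact S := (isCompact_sphere 0 r).image (by fun_prop)
  have hSU : ∀ y ∈ S, y ∈ U \ A := by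
    rintro _ ⟨t, ht, rfl⟩
    have ht' : ‖t‖ = r := by simpa using ht
    have hyU : x₀ + t • d ∈ U := by
      apply hball
      rw [mem_ball, dist_eq_norm, add_sub_cancel_left, norm_smul, ht', hrd]
      linarith
    refine ⟨hyU, fun hyA => hd t ?_ ⟨hyA, hyU⟩⟩
    rintro rfl
    rw [norm_zero] at ht'
    linarith
  obtain ⟨M, O, hO, hSO, hM⟩ := exists_upper_bound_of_compact hSc (fun x hx => hpsh x (hSU x hx))
  obtain ⟨δ, hδ, hthick⟩ := hSc.exists_thickening_subset_open hO hSO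
  refine ⟨M, ?_⟩
  filter_upwards [ball_mem_nhds x₀ (show 0 < min (δ / 2) (R / 4) by positivity)] with x hx hx𝒰
  rw [mem_ball, dist_eq_norm] at hx
  have hxδ : ‖x - x₀‖ < δ / 2 := hx.trans_le (min_le_left _ _)
  have hxR : ‖x - x₀‖ < R / 4 := hx.trans_le (min_le_right _ _)
  obtain ⟨d', hd'1, hd'2⟩ := hA.exists_direction x (N := ball d (min (δ / (2 * r)) ‖d‖)) isOpen_ball
    ⟨d, mem_ball_self (by positivity)⟩
  rw [mem_ball, dist_eq_norm] at hd'1
  have hd'δ : ‖d' - d‖ < δ / (2 * r) := hd'1.trans_le (min_le_left _ _)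
  have hd'd : ‖d' - d‖ < ‖d‖ := hd'1.trans_le (min_le_right _ _)
  have hd'n : ‖d'‖ ≤ 2 * ‖d‖ := by
    have : d' = (d' - d) + d := by abel
    calc ‖d'‖ = ‖(d' - d) + d‖ := by rw [← this]
      _ ≤ ‖d' - d‖ + ‖d‖ := norm_add_le _ _
      _ ≤ 2 * ‖d‖ := by linarith
  have hmem : ∀ t : ℂ, ‖t‖ ≤ 1 → x + ((r : ℂ) * t) • d' ∈ U \ A := by
    intro t ht
    have hyU : x + ((r : ℂ) * t) • d' ∈ U := by
      apply hball
      rw [mem_ball, dist_eq_norm]
      have h1 : x + ((r : ℂ) * t) • d' - x₀ = (x - x₀) + ((r : ℂ) * t) • d' := by abel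
      rw [h1]
      calc _ ≤ ‖x - x₀‖ + ‖((r : ℂ) * t) • d'‖ := norm_add_le _ _
        _ ≤ R / 4 + r * (2 * ‖d‖) := by
          rw [norm_smul, norm_mul, Complex.norm_real, Real.norm_of_nonneg hr0.le]
          have h2 : r * ‖t‖ * ‖d'‖ ≤ r * 1 * (2 * ‖d‖) := by gcongr
          linarith
        _ < R := by nlinarith
    refine ⟨hyU, fun hyA => ?_⟩
    by_cases ht0 : (r : ℂ) * t = 0
    · rw [ht0, zero_smul, add_zero] at hyA
      exact (h𝒰 hx𝒰).2 hyA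
    · exact hd'2 _ ht0 ⟨hyA, hyU⟩
  have key := maxPrinciple_disc (u := reguSup 𝒰 v) (c := fun t : ℂ => x + ((r : ℂ) * t) • d')
    (fun t ht => ⟨holMapAt_of_analyticAt_C (by fun_prop), hpsh _ (hmem t (by simpa using ht))⟩) M ?_
    0 (by simp)
  · simp only [mul_zero, zero_smul, add_zero] at key
    rw [reguSup_eq hx𝒰 (hv x hx𝒰)] at key
    exact_mod_cast key
  · intro t ht
    have ht' : ‖t‖ = 1 := by simpa using ht
    apply hM
    apply hthick
    rw [mem_thickening_iff]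
    refine ⟨x₀ + ((r : ℂ) * t) • d, ⟨(r : ℂ) * t, ?_, rfl⟩, ?_⟩
    · rw [mem_sphere_zero_iff_norm, norm_mul, Complex.norm_real, Real.norm_of_nonneg hr0.le, ht',
        mul_one]
    · rw [dist_eq_norm]
      have h1 : x + ((r : ℂ) * t) • d' - (x₀ + ((r : ℂ) * t) • d) =
          (x - x₀) + ((r : ℂ) * t) • (d' - d) := by
        rw [smul_sub]; abel
      rw [h1]
      calc _ ≤ ‖x - x₀‖ + ‖((r : ℂ) * t) • (d' - d)‖ := norm_add_le _ _
        _ < δ / 2 + r * (δ / (2 * r)) := by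
          rw [norm_smul, norm_mul, Complex.norm_real, Real.norm_of_nonneg hr0.le, ht', mul_one]
          have h2 : r * ‖d' - d‖ < r * (δ / (2 * r)) := by gcongr
          linarith
        _ = δ := by field_simp; ring

/-- Extension theorem. `A` is thin in `U`, `𝒰 ⊆ U \ A` is open, `v` is continuous on `𝒰`. If the regularization of `v` is psh on `U \ A`, it is psh on `U`. -/
theorem psh_extension {n : ℕ} {U A 𝒰 : Set (Fin n → ℂ)} (hU : IsOpen U)
    (hA : Thin (A ∩ U)) (h𝒰 : 𝒰 ⊆ U \ A) (h𝒰o : IsOpen 𝒰)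
    {v : (Fin n → ℂ) → ℝ} (hv : ContinuousOn v 𝒰)
    (hpsh : ∀ x ∈ U \ A, PshAt (reguSup 𝒰 v) x) : ∀ x ∈ U, PshAt (reguSup 𝒰 v) x := by
  intro x₀ hx₀
  refine ⟨U, hU.mem_nhds hx₀, ?_, fun y _ =>
    (upperSemicontinuousAt_reguSup v y).upperSemicontinuousWithinAt _, ?_⟩
  · intro y hy
    obtain ⟨M, hM⟩ := psh_extension_bdd hU hA h𝒰 hv hpsh hy
    refine lt_of_le_of_lt (reguSup_le (a := (M : EReal)) ?_) (EReal.coe_lt_top M)
    filter_upwards [hM] with z h1 h2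
    exact_mod_cast h1 h2
  · intro c hc φ hφ hle
    have hca : ∀ t ∈ closedBall (0 : ℂ) 1, AnalyticAt ℂ c t := fun t ht => (hc t ht).2.analyticAt_C
    by_contra hcon
    rw [not_le] at hcon
    obtain ⟨q, hq1, hq2⟩ := EReal.lt_iff_exists_real_btwn.1 hcon
    have hq1' : Real.circleAverage φ 0 1 < q := by exact_mod_cast hq1
    set η : ℝ := q - Real.circleAverage φ 0 1 with hη
    have hη0 : 0 < η := by rw [hη]; linarith
    -- uniform upper bound on translated circles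
    have hunif : ∃ ρ : ℝ, 0 < ρ ∧ ∀ t ∈ sphere (0 : ℂ) 1, ∀ s : Fin n → ℂ, ‖s‖ < ρ →
        reguSup 𝒰 v (c t + s) ≤ ((φ t + η : ℝ) : EReal) := by
      have hsph : IsCompact (sphere (0 : ℂ) 1) := isCompact_sphere 0 1
      have hloc : ∀ t ∈ sphere (0 : ℂ) 1, ∃ ρ : ℝ, 0 < ρ ∧ ∀ᶠ t' in 𝓝[sphere (0 : ℂ) 1] t,
          ∀ s : Fin n → ℂ, ‖s‖ < ρ → reguSup 𝒰 v (c t' + s) ≤ ((φ t' + η : ℝ) : EReal) := by
        intro t ht
        have h1 : reguSup 𝒰 v (c t) < ((φ t + η / 2 : ℝ) : EReal) :=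
          lt_of_le_of_lt (hle t ht) (by exact_mod_cast (by linarith : φ t < φ t + η / 2))
        have h2 := upperSemicontinuousAt_reguSup (𝒰 := 𝒰) v (c t) _ h1
        obtain ⟨ρ, hρ, hρ2⟩ := Metric.mem_nhds_iff.1 h2
        refine ⟨ρ / 2, by positivity, ?_⟩
        have h3 : ∀ᶠ t' in 𝓝[sphere (0 : ℂ) 1] t, c t' ∈ ball (c t) (ρ / 2) :=
          mem_nhdsWithin_of_mem_nhds ((hca t (sphere_subset_closedBall ht)).continuousAt
            (ball_mem_nhds _ (by positivity)))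
        have h4 : ∀ᶠ t' in 𝓝[sphere (0 : ℂ) 1] t, φ t - η / 2 < φ t' :=
          (hφ t ht).eventually (lt_mem_nhds (by linarith))
        filter_upwards [h3, h4] with t' h3 h4 s hs
        have h5 : c t' + s ∈ ball (c t) ρ := by
          rw [mem_ball, dist_eq_norm] at h3 ⊢
          have : c t' + s - c t = (c t' - c t) + s := by abel
          rw [this]
          calc _ ≤ ‖c t' - c t‖ + ‖s‖ := norm_add_le _ _
            _ < ρ := by linarith
        have h6 : reguSup 𝒰 v (c t' + s) < ((φ t + η / 2 : ℝ) : EReal) := hρ2 h5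
        refine h6.le.trans ?_
        exact_mod_cast (by linarith : φ t + η / 2 ≤ φ t' + η)
      refine hsph.induction_on (p := fun S => ∃ ρ : ℝ, 0 < ρ ∧ ∀ t ∈ S, ∀ s : Fin n → ℂ, ‖s‖ < ρ →
        reguSup 𝒰 v (c t + s) ≤ ((φ t + η : ℝ) : EReal)) ⟨1, one_pos, by simp⟩ ?_ ?_ ?_
      · rintro s t hst ⟨ρ, h1, h2⟩
        exact ⟨ρ, h1, fun t' ht' => h2 t' (hst ht')⟩
      · rintro s t ⟨ρ, h1, h2⟩ ⟨ρ', h1', h2'⟩
        refine ⟨min ρ ρ', lt_min h1 h1', fun t' ht' s' hs' => ?_⟩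
        rcases ht' with ht' | ht'
        · exact h2 t' ht' s' (hs'.trans_le (min_le_left _ _))
        · exact h2' t' ht' s' (hs'.trans_le (min_le_right _ _))
      · intro t ht
        obtain ⟨ρ, h1, h2⟩ := hloc t ht
        exact ⟨_, h2, ρ, h1, fun t' ht' => ht'⟩
    obtain ⟨ρ, hρ, hunif⟩ := hunif
    -- the disc stays in `U` after small translation
    have himg : IsCompact (c '' closedBall (0 : ℂ) 1) :=
      (isCompact_closedBall 0 1).image_of_continuousOn fun t ht =>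
        (hca t ht).continuousAt.continuousWithinAt
    obtain ⟨δ, hδ, hthick⟩ := himg.exists_thickening_subset_open hU (by
      rintro _ ⟨t, ht, rfl⟩; exact (hc t ht).1)
    have h0 : (0 : ℂ) ∈ closedBall (0 : ℂ) 1 := by simp
    -- a point of `𝒰` near `c 0` where `v > q`
    obtain ⟨y, hy𝒰, hyρ, hyq⟩ : ∃ y ∈ 𝒰, ‖y - c 0‖ < min ρ δ ∧ q < v y := by
      have h1 := frequently_lt_of_lt_reguSup hq2
      have h2 : ∀ᶠ y in 𝓝[𝒰] (c 0), y ∈ 𝒰 ∧ ‖y - c 0‖ < min ρ δ := by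
        refine (eventually_mem_nhdsWithin).and (mem_nhdsWithin_of_mem_nhds ?_)
        have : ball (c 0) (min ρ δ) ∈ 𝓝 (c 0) := ball_mem_nhds _ (by positivity)
        filter_upwards [this] with y hy
        rwa [mem_ball, dist_eq_norm] at hy
      obtain ⟨y, hy1, hy2, hy3⟩ := (h1.and_eventually h2).exists
      exact ⟨y, hy2, hy3, by exact_mod_cast hy1⟩
    have hopen : IsOpen {s : Fin n → ℂ | c 0 + s ∈ 𝒰 ∧ q < v (c 0 + s) ∧ ‖s‖ < min ρ δ} := by
      have h1 : IsOpen {z : Fin n → ℂ | z ∈ 𝒰 ∧ q < v z} := by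
        have := hv.isOpen_inter_preimage h𝒰o (isOpen_Ioi (a := q))
        exact this
      have h2 : IsOpen ((fun s : Fin n → ℂ => c 0 + s) ⁻¹' {z : Fin n → ℂ | z ∈ 𝒰 ∧ q < v z}) :=
        h1.preimage (by fun_prop)
      have h3 : IsOpen {s : Fin n → ℂ | ‖s‖ < min ρ δ} := isOpen_lt continuous_norm continuous_const
      have : {s : Fin n → ℂ | c 0 + s ∈ 𝒰 ∧ q < v (c 0 + s) ∧ ‖s‖ < min ρ δ} =
          ((fun s : Fin n → ℂ => c 0 + s) ⁻¹' {z : Fin n → ℂ | z ∈ 𝒰 ∧ q < v z}) ∩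
            {s : Fin n → ℂ | ‖s‖ < min ρ δ} := by
        ext s; simp [and_assoc]
      rw [this]
      exact h2.inter h3
    obtain ⟨s, ⟨hs𝒰, hsq, hsn⟩, hsA⟩ := hA.exists_translate hca hopen
      ⟨y - c 0, by simpa using hy𝒰, by simpa using hyq, hyρ⟩
    have hsρ : ‖s‖ < ρ := hsn.trans_le (min_le_left _ _)
    have hsδ : ‖s‖ < δ := hsn.trans_le (min_le_right _ _)
    have hdU : ∀ t ∈ closedBall (0 : ℂ) 1, c t + s ∈ U \ A := by
      intro t ht
      have h1 : c t + s ∈ U := by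
        apply hthick
        rw [mem_thickening_iff]
        exact ⟨c t, ⟨t, ht, rfl⟩, by rw [dist_eq_norm, add_sub_cancel_left]; exact hsδ⟩
      exact ⟨h1, fun h2 => hsA t ht ⟨h2, h1⟩⟩
    have key := psh_subMean (u := reguSup 𝒰 v) (c := fun t => c t + s) (φ := fun t => φ t + η)
      (fun t ht => ⟨holMapAt_translate (hca t ht) s, hpsh _ (hdU t ht)⟩)
      (hφ.add continuousOn_const) (fun t ht => hunif t ht s hsρ)
    rw [reguSup_eq hs𝒰 (hv _ hs𝒰), Real.circleAverage_fun_add (hφ.circleIntegrable (by norm_num))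
        (continuousOn_const.circleIntegrable (by norm_num)), Real.circleAverage_const] at key
    have h5 : v (c 0 + s) ≤ Real.circleAverage φ 0 1 + η := by exact_mod_cast key
    linarith

/-- The same on an `n`-dimensional manifold `X`: `A ⊆ X` is thin in charts. -/
theorem psh_extension_manifold' {n : ℕ} (hX : IsComplexManifold X n) {A 𝒰 : Set X}
    (hA : ∀ e : OpenPartialHomeomorph X (Fin n → ℂ), IsHolChart e → Thin (e '' (A ∩ e.source)))
    (h𝒰 : 𝒰 ⊆ Aᶜ) (h𝒰o : IsOpen 𝒰) {x₀ : X} {v : X → ℝ}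
    (hv : ∀ᶠ y in 𝓝 x₀, y ∈ 𝒰 → ContinuousAt v y)
    (hpsh : ∀ᶠ x in 𝓝 x₀, x ∉ A → PshAt (reguSup 𝒰 v) x) : PshAt (reguSup 𝒰 v) x₀ := by
  obtain ⟨e, he, hx₀⟩ := hX x₀
  obtain ⟨N, hN, hNo, hxN⟩ := eventually_nhds_iff.1 (hv.and hpsh)
  set U : Set (Fin n → ℂ) := e.target ∩ e.symm ⁻¹' N with hU
  have hUo : IsOpen U := e.isOpen_inter_preimage_symm hNo
  set 𝒰' : Set (Fin n → ℂ) := (e.target ∩ e.symm ⁻¹' (N ∩ 𝒰)) with h𝒰'
  have h𝒰'o : IsOpen 𝒰' := e.isOpen_inter_preimage_symm (hNo.inter h𝒰o)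
  have hmap : ∀ z ∈ e.target, map e.symm (𝓝 z) = 𝓝 (e.symm z) := fun z hz =>
    e.symm.map_nhds_eq hz
  -- comparison of the regularizations
  have hcmp : ∀ z ∈ U, reguSup 𝒰' (fun z => v (e.symm z)) z = reguSup 𝒰 v (e.symm z) := by
    intro z hz
    rw [← reguSup_comp (hmap z hz.1)]
    apply reguSup_congr_set
    filter_upwards [hUo.mem_nhds hz] with z' hz'
    constructor
    · rintro ⟨_, _, h⟩; exact h
    · intro h; exact ⟨hz'.1, hz'.2, h⟩
  have key := psh_extension (U := U) (A := e.symm ⁻¹' A) (𝒰 := 𝒰') (v := fun z => v (e.symm z))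
    hUo ((hA e he).mono (by
      rintro z ⟨hzA, hzU⟩
      exact ⟨e.symm z, ⟨hzA, e.map_target hzU.1⟩, e.right_inv hzU.1⟩))
    (by
      rintro z ⟨h1, h2, h3⟩
      exact ⟨⟨h1, h2⟩, fun h4 => h𝒰 h3 h4⟩) h𝒰'o
    (by
      rintro z ⟨h1, h2, h3⟩
      exact (((hN _ h2).1 h3).comp (f := e.symm)
        (e.symm.continuousAt h1)).continuousWithinAt)
    (by
      rintro z ⟨hzU, hzA⟩
      have h1 : PshAt (reguSup 𝒰 v) (e.symm z) := (hN _ hzU.2).2 hzA
      have h2 : PshAt (fun z => reguSup 𝒰 v (e.symm z)) z := h1.comp (f := e.symm) (by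
        filter_upwards [e.open_target.mem_nhds hzU.1] with z' hz'
        exact he.holMapAt_symm hz')
      refine h2.congr ?_
      filter_upwards [hUo.mem_nhds hzU] with z' hz'
      exact (hcmp z' hz').symm) (e x₀) ⟨e.map_source hx₀, by
        change e.symm (e x₀) ∈ N
        rw [e.left_inv hx₀]; exact hxN⟩
  have h3 : PshAt (fun y => reguSup 𝒰' (fun z => v (e.symm z)) (e y)) x₀ := key.comp (f := e) (by
    filter_upwards [e.open_source.mem_nhds hx₀] with y hy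
    exact he.holMapAt hy)
  refine h3.congr ?_
  filter_upwards [e.open_source.mem_nhds hx₀, hNo.mem_nhds hxN] with y hy hyN
  rw [hcmp (e y) ⟨e.map_source hy, by
    change e.symm (e y) ∈ N
    rw [e.left_inv hy]; exact hyN⟩, e.left_inv hy]

/-- The same with two superfluous hypotheses. -/
theorem psh_extension_manifold {n : ℕ} (hX : IsComplexManifold X n) {A 𝒰 : Set X}
    (_hAc : IsClosed A)
    (hA : ∀ e : OpenPartialHomeomorph X (Fin n → ℂ), IsHolChart e → Thin (e '' (A ∩ e.source)))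
    (h𝒰 : 𝒰 ⊆ Aᶜ) (h𝒰o : IsOpen 𝒰) (_h𝒰d : Dense 𝒰) {x₀ : X} {v : X → ℝ}
    (hv : ∀ᶠ y in 𝓝 x₀, y ∈ 𝒰 → ContinuousAt v y)
    (hpsh : ∀ᶠ x in 𝓝 x₀, x ∉ A → PshAt (reguSup 𝒰 v) x) : PshAt (reguSup 𝒰 v) x₀ :=
  psh_extension_manifold' hX hA h𝒰 h𝒰o hv hpsh

end Pool.Agent.helper90.KMMP
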