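import Pool.Agent.helper90.KMMP.Defs

/-!
# Etale atlases

A set `X` with a family of etale charts `Θ i : V i → X`, `V i ⊆ ℂ^n` open, gets a topology and a
sheaf of holomorphic functions.
-/

open scoped Topology ContDiff
open Set Filter Metric

namespace Pool.Agent.helper90.KMMP

/-- An etale atlas on a set. -/
structure EtaleAtlas (n : ℕ) (X : Type) where
  I : Type
  V : I → Set (Fin n → ℂ)
  Θ : I → (Fin n → ℂ) → X
  isOpen_V : ∀ i, IsOpen (V i)
  surj : ∀ x, ∃ i, ∃ a ∈ V i, Θ i a = x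
  locInj : ∀ i, ∀ a ∈ V i, ∃ N ∈ 𝓝 a, N ⊆ V i ∧ InjOn (Θ i) N
  trans : ∀ i j, ∀ a ∈ V i, ∀ b ∈ V j, Θ i a = Θ j b →
    ∃ τ : (Fin n → ℂ) → (Fin n → ℂ), AnalyticAt ℂ τ a ∧ τ a = b ∧
      ∀ᶠ a' in 𝓝 a, Θ j (τ a') = Θ i a'

namespace EtaleAtlas

variable {n : ℕ} {X : Type} (A : EtaleAtlas n X)

/-- The topology defined by an etale atlas. -/
@[instance_reducible]
def topology : TopologicalSpace X where
  IsOpen U := ∀ i, IsOpen (A.V i ∩ A.Θ i ⁻¹' U)
  isOpen_univ := by simpa using A.isOpen_V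
  isOpen_inter := by
    intro s t hs ht i
    have : A.V i ∩ A.Θ i ⁻¹' (s ∩ t) = (A.V i ∩ A.Θ i ⁻¹' s) ∩ (A.V i ∩ A.Θ i ⁻¹' t) := by
      ext; simp; tauto
    rw [this]; exact (hs i).inter (ht i)
  isOpen_sUnion := by
    intro s hs i
    have : A.V i ∩ A.Θ i ⁻¹' (⋃₀ s) = ⋃ t ∈ s, (A.V i ∩ A.Θ i ⁻¹' t) := by
      ext; simp
    rw [this]; exact isOpen_biUnion fun t ht => hs t ht i

theorem isOpen_topology_iff (U : Set X) :
    IsOpen[A.topology] U ↔ ∀ i, IsOpen (A.V i ∩ A.Θ i ⁻¹' U) := Iff.rfl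

theorem continuousAt_aux (i : A.I) (a : Fin n → ℂ) (ha : a ∈ A.V i) :
    @ContinuousAt _ _ _ A.topology (A.Θ i) a := by
  let _ := A.topology
  rw [ContinuousAt, _root_.tendsto_nhds]
  intro s hs has
  have h := (A.isOpen_topology_iff s).1 hs i
  exact Filter.mem_of_superset (h.mem_nhds ⟨ha, has⟩) inter_subset_right

theorem isOpen_image_aux (i : A.I) (N : Set (Fin n → ℂ)) (hN : IsOpen N) (hNV : N ⊆ A.V i) :
    IsOpen[A.topology] (A.Θ i '' N) := by
  rw [A.isOpen_topology_iff]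
  intro j
  rw [isOpen_iff_mem_nhds]
  rintro b ⟨hb, a, haN, hab⟩
  obtain ⟨τ, hτ, hτb, h⟩ := A.trans j i b hb a (hNV haN) hab.symm
  have h1 : ∀ᶠ b' in 𝓝 b, τ b' ∈ N := hτ.continuousAt (by rw [hτb]; exact hN.mem_nhds haN)
  filter_upwards [h, h1, (A.isOpen_V j).mem_nhds hb] with b' h2 h3 h4
  exact ⟨h4, τ b', h3, h2⟩

theorem open_map_aux (i : A.I) (a : Fin n → ℂ) (ha : a ∈ A.V i) (N : Set (Fin n → ℂ))
    (hN : N ∈ 𝓝 a) : A.Θ i '' N ∈ @nhds _ A.topology (A.Θ i a) := by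
  let _ := A.topology
  obtain ⟨N', hN', hN'o, haN'⟩ := _root_.mem_nhds_iff.1 hN
  have h1 : IsOpen (A.Θ i '' (N' ∩ A.V i)) :=
    A.isOpen_image_aux i _ (hN'o.inter (A.isOpen_V i)) inter_subset_right
  refine Filter.mem_of_superset (h1.mem_nhds ⟨a, ⟨haN', ha⟩, rfl⟩) ?_
  exact image_mono (inter_subset_left.trans hN')

theorem analytic_trans (i j : A.I) (f : X → ℂ) {a b : Fin n → ℂ} (ha : a ∈ A.V i) (hb : b ∈ A.V j)
    (hab : A.Θ i a = A.Θ j b) (h : AnalyticAt ℂ (fun v => f (A.Θ j v)) b) :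
    AnalyticAt ℂ (fun v => f (A.Θ i v)) a := by
  obtain ⟨τ, hτ, hτb, h1⟩ := A.trans i j a ha b hb hab
  have h2 : AnalyticAt ℂ ((fun v => f (A.Θ j v)) ∘ τ) a := by
    refine AnalyticAt.comp ?_ hτ
    rw [hτb]; exact h
  refine h2.congr ?_
  filter_upwards [h1] with a' h3
  simp [h3]

/-- The sheaf of holomorphic functions defined by an etale atlas. -/
@[instance_reducible]
def holSpace : @HolSpace X A.topology := by
  letI := A.topology
  exact
  { Hol := fun f x => ∀ i, ∀ a ∈ A.V i, A.Θ i a = x → AnalyticAt ℂ (fun v => f (A.Θ i v)) a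
    hol_const := fun c x i a ha hx => analyticAt_const
    hol_add := fun {f g x} hf hg i a ha hx => (hf i a ha hx).add (hg i a ha hx)
    hol_mul := fun {f g x} hf hg i a ha hx => (hf i a ha hx).mul (hg i a ha hx)
    hol_congr := by
      intro f g x hf h i a ha hx
      refine (hf i a ha hx).congr ?_
      have h1 : Tendsto (A.Θ i) (𝓝 a) (𝓝 (A.Θ i a)) := A.continuousAt_aux i a ha
      rw [hx] at h1
      exact h1.eventually h
    hol_eventually := by
      intro f x hf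
      obtain ⟨i, a, ha, hx⟩ := A.surj x
      have h1 := (hf i a ha hx).eventually_analyticAt
      have h2 := A.open_map_aux i a ha _ (Filter.inter_mem h1 ((A.isOpen_V i).mem_nhds ha))
      rw [hx] at h2
      filter_upwards [h2]
      rintro y ⟨a', ⟨h3, h4⟩, rfl⟩ j b hb hby
      exact A.analytic_trans j i f hb h4 hby h3 }

/-- The topology and the holomorphic functions of `X` are given by the atlas `A`. -/
structure Compatible [TopologicalSpace X] [HolSpace X] (A : EtaleAtlas n X) : Prop where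
  continuousAt : ∀ i, ∀ a ∈ A.V i, ContinuousAt (A.Θ i) a
  open_map : ∀ i, ∀ a ∈ A.V i, ∀ N ∈ 𝓝 a, A.Θ i '' N ∈ 𝓝 (A.Θ i a)
  hol_iff : ∀ (f : X → ℂ) (i : A.I), ∀ a ∈ A.V i,
    (Hol f (A.Θ i a) ↔ AnalyticAt ℂ (fun v => f (A.Θ i v)) a)

theorem compatible : @Compatible n X A.topology A.holSpace A := by
  let _ := A.topology
  let _ := A.holSpace
  refine @Compatible.mk n X A.topology A.holSpace A ?_ ?_ ?_
  · exact A.continuousAt_aux
  · exact A.open_map_aux
  · intro f i a ha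
    constructor
    · intro h
      exact h i a ha rfl
    · intro h j b hb hba
      exact A.analytic_trans j i f hb ha hba h

variable {A} [TopologicalSpace X] [HolSpace X] (hA : A.Compatible)
include hA

/-- Charts: local inverses of the etale charts. -/
theorem Compatible.exists_chart (i : A.I) (a : Fin n → ℂ) (ha : a ∈ A.V i) :
    ∃ e : OpenPartialHomeomorph X (Fin n → ℂ), IsHolChart e ∧ A.Θ i a ∈ e.source ∧
      e (A.Θ i a) = a ∧ ∀ v ∈ e.target, v ∈ A.V i ∧ e.symm v = A.Θ i v := by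
  obtain ⟨N, hN, hNV, hinj⟩ := A.locInj i a ha
  obtain ⟨N', hN', hN'o, haN'⟩ := _root_.mem_nhds_iff.1 hN
  have hinj' : InjOn (A.Θ i) N' := hinj.mono hN'
  have hN'V : N' ⊆ A.V i := hN'.trans hNV
  let E : PartialEquiv (Fin n → ℂ) X := hinj'.toPartialEquiv (A.Θ i) N'
  have hEs : E.source = N' := rfl
  have hE : ∀ v, E v = A.Θ i v := fun v => rfl
  have hc : ContinuousOn E E.source := by
    intro v hv
    exact (hA.continuousAt i v (hN'V hv)).continuousWithinAt
  have ho : IsOpenMap (E.source.domRestrict E) := by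
    rw [isOpenMap_iff_nhds_le]
    rintro ⟨v, hv⟩
    intro s hs
    rw [Filter.mem_map] at hs
    have h1 : (fun w : E.source => E w.1) ⁻¹' s ∈ 𝓝 (⟨v, hv⟩ : E.source) := hs
    rw [nhds_subtype_eq_comap, Filter.mem_comap] at h1
    obtain ⟨t, ht, hts⟩ := h1
    have h2 := hA.open_map i v (hN'V hv) (t ∩ N') (Filter.inter_mem ht (hN'o.mem_nhds hv))
    refine Filter.mem_of_superset h2 ?_
    rintro _ ⟨w, ⟨hwt, hwN⟩, rfl⟩
    exact hts (show (⟨w, hwN⟩ : E.source) ∈ _ from hwt)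
  let e := (OpenPartialHomeomorph.ofContinuousOpenRestrict E hc ho hN'o).symm
  have he_symm : ∀ v, e.symm v = A.Θ i v := fun v => rfl
  have he_target : e.target = N' := rfl
  have hsrc : ∀ v ∈ N', A.Θ i v ∈ e.source := by
    intro v hv
    have := e.map_target (x := v) hv
    rwa [he_symm] at this
  have hev : ∀ v ∈ N', e (A.Θ i v) = v := by
    intro v hv
    have := e.right_inv (x := v) hv
    rwa [he_symm] at this
  refine ⟨e, ?_, hsrc a haN', hev a haN', fun v hv => ⟨hN'V hv, he_symm v⟩⟩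
  intro y hy f
  have h1 : e y ∈ N' := e.map_source hy
  have h2 : A.Θ i (e y) = y := e.left_inv hy
  have h3 := hA.hol_iff f i (e y) (hN'V h1)
  rw [h2] at h3
  exact h3

theorem Compatible.isComplexManifold : IsComplexManifold X n := by
  intro x
  obtain ⟨i, a, ha, rfl⟩ := A.surj x
  obtain ⟨e, he, h1, -, -⟩ := hA.exists_chart i a ha
  exact ⟨e, he, h1⟩

theorem Compatible.holMapAt (i : A.I) (a : Fin n → ℂ) (ha : a ∈ A.V i) : HolMapAt (A.Θ i) a :=
  ⟨hA.continuousAt i a ha, fun g hg => (hA.hol_iff g i a ha).1 hg⟩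

theorem Compatible.continuousAt_iff {Z : Type} [TopologicalSpace Z] (g : X → Z) (i : A.I)
    (a : Fin n → ℂ) (ha : a ∈ A.V i) :
    ContinuousAt g (A.Θ i a) ↔ ContinuousAt (fun v => g (A.Θ i v)) a := by
  constructor
  · intro h
    exact h.comp_of_eq (hA.continuousAt i a ha) rfl
  · intro h s hs
    have h1 := h hs
    rw [Filter.mem_map] at h1 ⊢
    refine Filter.mem_of_superset (hA.open_map i a ha _ h1) ?_
    rintro _ ⟨v, hv, rfl⟩
    exact hv

/-- Local potentials from potentials on the etale charts. -/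
theorem Compatible.exists_locPot (Q : A.I → (Fin n → ℂ) → ℝ)
    (hQ : ∀ i, ∀ a ∈ A.V i, ContinuousAt (Q i) a)
    (hQ' : ∀ i j, ∀ a ∈ A.V i, ∀ b ∈ A.V j, A.Θ i a = A.Θ j b →
      ∃ τ : (Fin n → ℂ) → (Fin n → ℂ), AnalyticAt ℂ τ a ∧ τ a = b ∧
      (∀ᶠ a' in 𝓝 a, A.Θ j (τ a') = A.Θ i a') ∧ PHAt (fun a' => Q i a' - Q j (τ a')) a) :
    ∃ L : LocPot X, ∀ x, ∀ᶠ y in 𝓝 x, ∀ i, ∀ a ∈ A.V i, A.Θ i a = y →
      PHAt (fun a' => L.pot x (A.Θ i a') - Q i a') a := by
  choose ι α hα hια using A.surj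
  have hch : ∀ x, ∃ e : OpenPartialHomeomorph X (Fin n → ℂ), IsHolChart e ∧ x ∈ e.source ∧
      e x = α x ∧ ∀ v ∈ e.target, v ∈ A.V (ι x) ∧ e.symm v = A.Θ (ι x) v := by
    intro x
    obtain ⟨e, h1, h2, h3, h4⟩ := hA.exists_chart (ι x) (α x) (hα x)
    rw [hια x] at h2 h3
    exact ⟨e, h1, h2, h3, h4⟩
  choose e he hxe hex het using hch
  -- the key comparison
  have key : ∀ x, ∀ y ∈ (e x).source, ∀ i, ∀ a ∈ A.V i, A.Θ i a = y →
      PHAt (fun a' => Q (ι x) (e x (A.Θ i a')) - Q i a') a := by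
    intro x y hy i a ha hay
    have h1 : e x y ∈ (e x).target := (e x).map_source hy
    have h2 := het x _ h1
    have h3 : A.Θ (ι x) (e x y) = y := by rw [← h2.2, (e x).left_inv hy]
    obtain ⟨τ, hτ, hτa, hΘ, F, hF, hF'⟩ := hQ' i (ι x) a ha (e x y) h2.1 (by rw [h3, hay])
    refine ⟨fun v => - F v, ?_, ?_⟩
    · have : AnalyticAt ℂ F a := hF
      exact this.neg
    · have h4 : ∀ᶠ a' in 𝓝 a, τ a' ∈ (e x).target :=
        hτ.continuousAt (by rw [hτa]; exact (e x).open_target.mem_nhds h1)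
      filter_upwards [hΘ, hF', h4] with a' h5 h6 h7
      have h8 : e x (A.Θ i a') = τ a' := by
        rw [← h5, ← (het x _ h7).2, (e x).right_inv h7]
      rw [h8, Complex.neg_re, ← h6]
      ring
  refine ⟨⟨fun x y => Q (ι x) (e x y), ?_, ?_⟩, ?_⟩
  · intro x
    filter_upwards [(e x).open_source.mem_nhds (hxe x)] with y hy
    have h1 : e x y ∈ (e x).target := (e x).map_source hy
    exact ContinuousAt.comp (hQ _ _ (het x _ h1).1) ((e x).continuousAt hy)
  · intro x
    filter_upwards [(e x).open_source.mem_nhds (hxe x)] with y hy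
    obtain ⟨F, hF, hF'⟩ := key x y hy (ι y) (α y) (hα y) (hια y)
    refine ⟨fun z => F (e y z), ?_, ?_⟩
    · rw [he y y (hxe y), hex y]
      have hF2 : AnalyticAt ℂ F (α y) := hF
      refine hF2.congr ?_
      have : ∀ᶠ v in 𝓝 (α y), v ∈ (e y).target := by
        rw [← hex y]
        exact (e y).open_target.mem_nhds ((e y).map_source (hxe y))
      filter_upwards [this] with v hv
      rw [(e y).right_inv hv]
    · have h1 : Tendsto (e y) (𝓝 y) (𝓝 (α y)) := by
        rw [← hex y]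
        exact (e y).continuousAt (hxe y)
      filter_upwards [h1.eventually hF', (e y).open_source.mem_nhds (hxe y)] with z h2 h3
      have h4 := het y _ ((e y).map_source h3)
      rw [← h4.2, (e y).left_inv h3] at h2
      exact h2
  · intro x
    filter_upwards [(e x).open_source.mem_nhds (hxe x)] with y hy
    exact key x y hy

end EtaleAtlas

end Pool.Agent.helper90.KMMP
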