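import Pool.Agent.helper90.KMMP.Glue

/-!
# The threefold `X`

`X` is the crepant resolution of `ℂ³ / G`, `G = Λ ⋊ μ₃`, `Λ = π O³`, `O = ℤ[ω]`, `π = 1 - ω`.
The points with nontrivial stabilizer are the points of `O³`.
Points of `X` are represented by pairs `(z, ℓ)`, `z ∈ ℂ³`, `ℓ ∈ ℙ²`; `ℓ` is irrelevant if
`z ∉ O³`.
-/

open scoped Topology ContDiff
open Set Filter Metric

namespace Pool.Agent.helper90.KMMP

/-- `ℂ³` -/
abbrev C3 := Fin 3 → ℂ

/-- `ℙ²` -/
abbrev PP2 := Projectivization ℂ C3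

/-- primitive cube root of unity `ω = (-1 + √3 i) / 2` -/
noncomputable def om : ℂ := ⟨-1 / 2, Real.sqrt 3 / 2⟩

/-- `ℤ[ω]` -/
def Eis : Set ℂ := {z | ∃ a b : ℤ, z = a + b * om}

/-- `O³`, the set of points with a nontrivial stabilizer -/
def O3 : Set C3 := {z | ∀ i, z i ∈ Eis}

/-- the translation lattice `Λ = (1 - ω) O³` -/
def L3 : Set C3 := {z | ∃ u ∈ O3, z = (1 - om) • u}

/-- `z` and `w` are in the same orbit of `G` -/
def kmRel (z w : C3) : Prop := ∃ k : ℕ, ∃ l ∈ L3, w = om ^ k • z + l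

/-! ### the ring `ℤ[ω]` -/

theorem om_sq : om ^ 2 = -1 - om := by
  have h : Real.sqrt 3 * Real.sqrt 3 = 3 := Real.mul_self_sqrt (by norm_num)
  apply Complex.ext
  · simp [om, pow_two]; nlinarith
  · simp [om, pow_two]; ring

theorem om_cube : om ^ 3 = 1 := by
  linear_combination (om - 1) * om_sq

theorem om_ne_zero : om ≠ 0 := by
  intro h
  have := om_cube
  rw [h] at this
  norm_num at this

theorem norm_om : ‖om‖ = 1 := by
  have h : ‖om‖ ^ 3 = 1 := by rw [← norm_pow, om_cube, norm_one]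
  exact (pow_eq_one_iff_of_nonneg (norm_nonneg _) (by norm_num)).1 h

theorem norm_om_pow (k : ℕ) : ‖om ^ k‖ = 1 := by rw [norm_pow, norm_om, one_pow]

theorem one_sub_om_ne_zero : (1 : ℂ) - om ≠ 0 := by
  intro h
  have h1 : om = 1 := by linear_combination -h
  have := om_sq
  rw [h1] at this
  norm_num at this

theorem Eis_zero : (0 : ℂ) ∈ Eis := ⟨0, 0, by simp⟩

theorem Eis_one : (1 : ℂ) ∈ Eis := ⟨1, 0, by simp⟩

theorem Eis_add {x y : ℂ} (hx : x ∈ Eis) (hy : y ∈ Eis) : x + y ∈ Eis := by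
  obtain ⟨a, b, rfl⟩ := hx
  obtain ⟨c, d, rfl⟩ := hy
  exact ⟨a + c, b + d, by push_cast; ring⟩

theorem Eis_neg {x : ℂ} (hx : x ∈ Eis) : -x ∈ Eis := by
  obtain ⟨a, b, rfl⟩ := hx
  exact ⟨-a, -b, by push_cast; ring⟩

theorem Eis_sub {x y : ℂ} (hx : x ∈ Eis) (hy : y ∈ Eis) : x - y ∈ Eis := by
  rw [sub_eq_add_neg]; exact Eis_add hx (Eis_neg hy)

theorem Eis_om : om ∈ Eis := ⟨0, 1, by simp⟩

theorem Eis_mul {x y : ℂ} (hx : x ∈ Eis) (hy : y ∈ Eis) : x * y ∈ Eis := by
  obtain ⟨a, b, rfl⟩ := hx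
  obtain ⟨c, d, rfl⟩ := hy
  refine ⟨a * c - b * d, a * d + b * c - b * d, ?_⟩
  push_cast
  linear_combination (b * d : ℂ) * om_sq

theorem Eis_int (a : ℤ) : (a : ℂ) ∈ Eis := ⟨a, 0, by simp⟩

theorem Eis_om_pow (k : ℕ) : om ^ k ∈ Eis := by
  induction k with
  | zero => simpa using Eis_one
  | succ k ih => rw [pow_succ]; exact Eis_mul ih Eis_om

theorem normSq_Eis (a b : ℤ) : Complex.normSq (a + b * om) = ((a ^ 2 - a * b + b ^ 2 : ℤ) : ℝ) := by
  have h : Real.sqrt 3 * Real.sqrt 3 = 3 := Real.mul_self_sqrt (by norm_num)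
  rw [Complex.normSq_apply]
  simp [om]
  nlinarith

theorem one_le_norm_Eis {x : ℂ} (hx : x ∈ Eis) (h0 : x ≠ 0) : 1 ≤ ‖x‖ := by
  obtain ⟨a, b, rfl⟩ := hx
  have h1 : 0 < Complex.normSq (a + b * om) := Complex.normSq_pos.2 h0
  rw [normSq_Eis] at h1
  have h2 : (1 : ℤ) ≤ a ^ 2 - a * b + b ^ 2 := by
    have : (0 : ℤ) < a ^ 2 - a * b + b ^ 2 := by exact_mod_cast h1
    omega
  have h3 : (1 : ℝ) ≤ Complex.normSq (a + b * om) := by
    rw [normSq_Eis]; exact_mod_cast h2
  rw [Complex.normSq_eq_norm_sq] at h3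
  nlinarith [norm_nonneg ((a : ℂ) + b * om)]

theorem O3_zero : (0 : C3) ∈ O3 := fun _ => Eis_zero

theorem O3_add {x y : C3} (hx : x ∈ O3) (hy : y ∈ O3) : x + y ∈ O3 :=
  fun i => Eis_add (hx i) (hy i)

theorem O3_neg {x : C3} (hx : x ∈ O3) : -x ∈ O3 := fun i => Eis_neg (hx i)

theorem O3_sub {x y : C3} (hx : x ∈ O3) (hy : y ∈ O3) : x - y ∈ O3 :=
  fun i => Eis_sub (hx i) (hy i)

theorem O3_smul {c : ℂ} {x : C3} (hc : c ∈ Eis) (hx : x ∈ O3) : c • x ∈ O3 :=
  fun i => Eis_mul hc (hx i)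

theorem one_le_norm_O3 {x : C3} (hx : x ∈ O3) (h0 : x ≠ 0) : 1 ≤ ‖x‖ := by
  obtain ⟨i, hi⟩ : ∃ i, x i ≠ 0 := by
    by_contra! h
    exact h0 (funext h)
  exact (one_le_norm_Eis (hx i) hi).trans (norm_le_pi_norm x i)

theorem O3_eq_zero {x : C3} (hx : x ∈ O3) (h : ‖x‖ < 1) : x = 0 := by
  by_contra h0
  exact absurd (one_le_norm_O3 hx h0) (not_le.2 h)

theorem L3_subset_O3 {x : C3} (hx : x ∈ L3) : x ∈ O3 := by
  obtain ⟨u, hu, rfl⟩ := hx
  exact O3_smul (Eis_sub Eis_one Eis_om) hu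

theorem L3_zero : (0 : C3) ∈ L3 := ⟨0, O3_zero, by simp⟩

theorem L3_add {x y : C3} (hx : x ∈ L3) (hy : y ∈ L3) : x + y ∈ L3 := by
  obtain ⟨u, hu, rfl⟩ := hx
  obtain ⟨v, hv, rfl⟩ := hy
  exact ⟨u + v, O3_add hu hv, by rw [smul_add]⟩

theorem L3_neg {x : C3} (hx : x ∈ L3) : -x ∈ L3 := by
  obtain ⟨u, hu, rfl⟩ := hx
  exact ⟨-u, O3_neg hu, by rw [smul_neg]⟩

theorem L3_sub {x y : C3} (hx : x ∈ L3) (hy : y ∈ L3) : x - y ∈ L3 := by
  rw [sub_eq_add_neg]; exact L3_add hx (L3_neg hy)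

theorem L3_smul {c : ℂ} {x : C3} (hc : c ∈ Eis) (hx : x ∈ L3) : c • x ∈ L3 := by
  obtain ⟨u, hu, rfl⟩ := hx
  exact ⟨c • u, O3_smul hc hu, by rw [smul_comm]⟩

theorem L3_one_sub_om_pow {f : C3} (hf : f ∈ O3) (k : ℕ) : (1 - om ^ k) • f ∈ L3 := by
  induction k with
  | zero => simpa using L3_zero
  | succ k ih =>
    have : (1 - om ^ (k + 1)) • f = (1 - om ^ k) • f + om ^ k • ((1 - om) • f) := by
      rw [smul_smul, ← add_smul]; congr 1; ring
    rw [this]
    exact L3_add ih (L3_smul (Eis_om_pow k) ⟨f, hf, rfl⟩)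

theorem L3_three {f : C3} (hf : f ∈ O3) : (3 : ℂ) • f ∈ L3 := by
  refine ⟨(2 + om) • f, O3_smul (Eis_add ⟨2, 0, by simp⟩ Eis_om) hf, ?_⟩
  rw [smul_smul]
  congr 1
  linear_combination om_sq

/-! ### the equivalence relation -/

theorem kmRel_refl (z : C3) : kmRel z z := ⟨0, 0, L3_zero, by simp⟩

theorem om_pow_mul_om_pow (k : ℕ) : om ^ (2 * k) * om ^ k = 1 := by
  rw [← pow_add, show 2 * k + k = 3 * k by ring, pow_mul, om_cube, one_pow]

theorem kmRel_symm {z w : C3} (h : kmRel z w) : kmRel w z := by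
  obtain ⟨k, l, hl, rfl⟩ := h
  refine ⟨2 * k, -(om ^ (2 * k) • l), L3_neg (L3_smul (Eis_om_pow _) hl), ?_⟩
  rw [smul_add, smul_smul, om_pow_mul_om_pow, one_smul]
  abel

theorem kmRel_trans {z w v : C3} (h : kmRel z w) (h' : kmRel w v) : kmRel z v := by
  obtain ⟨k, l, hl, rfl⟩ := h
  obtain ⟨m, l', hl', rfl⟩ := h'
  refine ⟨m + k, om ^ m • l + l', L3_add (L3_smul (Eis_om_pow _) hl) hl', ?_⟩
  rw [smul_add, smul_smul, pow_add, add_assoc]

theorem kmRel_O3 {z w : C3} (h : kmRel z w) : z ∈ O3 ↔ w ∈ O3 := by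
  have key : ∀ {z w : C3}, kmRel z w → z ∈ O3 → w ∈ O3 := by
    intro z w h hz
    obtain ⟨k, l, hl, rfl⟩ := h
    exact O3_add (O3_smul (Eis_om_pow _) hz) (L3_subset_O3 hl)
  exact ⟨key h, key (kmRel_symm h)⟩

theorem kmRel_add {z l : C3} (hl : l ∈ L3) : kmRel z (z + l) := ⟨0, l, hl, by simp⟩

theorem kmRel_rot {f : C3} (hf : f ∈ O3) (v : C3) (k : ℕ) : kmRel (f + v) (f + om ^ k • v) := by
  refine ⟨k, (1 - om ^ k) • f, L3_one_sub_om_pow hf k, ?_⟩
  rw [smul_add, sub_smul, one_smul]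
  abel

/-- for points of `O³`, `kmRel` is congruence modulo `Λ` -/
theorem sub_mem_L3_of_kmRel {f g : C3} (hf : f ∈ O3) (h : kmRel f g) : g - f ∈ L3 := by
  obtain ⟨k, l, hl, rfl⟩ := h
  have : om ^ k • f + l - f = l - (1 - om ^ k) • f := by
    rw [sub_smul, one_smul]; abel
  rw [this]
  exact L3_sub hl (L3_one_sub_om_pow hf k)

/-- the equivalence relation whose classes are the points of `X` -/
def kmSetoid : Setoid (C3 × PP2) where
  r a b := kmRel a.1 b.1 ∧ (a.1 ∈ O3 → a.2 = b.2)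
  iseqv := by
    refine ⟨fun a => ⟨kmRel_refl _, fun _ => rfl⟩, fun {a b} h => ⟨kmRel_symm h.1, fun hb =>
      (h.2 ((kmRel_O3 h.1).2 hb)).symm⟩, fun {a b c} h h' => ⟨kmRel_trans h.1 h'.1, fun ha =>
      (h.2 ha).trans (h'.2 ((kmRel_O3 h.1).1 ha))⟩⟩

/-- The threefold `X`. -/
def KX : Type := Quotient kmSetoid

/-- a base point of `ℙ²` -/
noncomputable def pt0 : PP2 :=
  Projectivization.mk ℂ (fun _ => 1) (by intro h; simpa using congrFun h 0)

/-- The regular etale chart (used on the complement of `O³`). -/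
noncomputable def reg (z : C3) : KX := Quotient.mk kmSetoid (z, pt0)

/-- principal cube root -/
noncomputable def cbrt (t : ℂ) : ℂ := t ^ (1 / 3 : ℂ)

/-- The exceptional etale charts: `f ∈ O³`, `j = 0, 1, 2`; coordinates `a`: `a j` is the cube of
`z j - f j`, the other `a k` are the ratios `(z k - f k) / (z j - f j)`. -/
noncomputable def exc (f : C3) (j : Fin 3) (a : C3) : KX :=
  if a j = 0 then Quotient.mk kmSetoid
    (f, Projectivization.mk ℂ (Function.update a j 1) (by
      intro h; simpa using congrFun h j))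
  else reg (f + cbrt (a j) • Function.update a j 1)

/-- domain of the exceptional chart -/
def Vexc (j : Fin 3) : Set C3 := {a | ∀ k, ‖a j‖ * ‖Function.update a j 1 k‖ ^ 3 < 1 / 8}

/-- coordinates in the exceptional chart -/
noncomputable def psi (f : C3) (j : Fin 3) (z : C3) : C3 :=
  fun k => if k = j then (z j - f j) ^ 3 else (z k - f k) / (z j - f j)

/-! ### basic relations -/

theorem update_one_ne_zero (j : Fin 3) (a : C3) : Function.update a j (1 : ℂ) ≠ 0 := by
  intro h; simpa using congrFun h j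

theorem cbrt_cube (t : ℂ) : cbrt t ^ 3 = t := by
  have := Complex.cpow_nat_inv_pow t (n := 3) (by norm_num)
  unfold cbrt
  convert this using 3
  norm_num

theorem cbrt_eq_zero {t : ℂ} (h : cbrt t = 0) : t = 0 := by
  rw [← cbrt_cube t, h]; norm_num

theorem exists_om_pow_of_cube_eq {s t : ℂ} (h : s ^ 3 = t ^ 3) : ∃ k : ℕ, s = om ^ k * t := by
  by_cases ht : t = 0
  · refine ⟨0, ?_⟩
    rw [ht] at h ⊢
    have : s = 0 := by
      by_contra hs
      exact (pow_ne_zero 3 hs) (by simpa using h)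
    simp [this]
  · have h1 : (s - t) * (s - om * t) * (s - om ^ 2 * t) = 0 := by
      have h2 := om_cube
      have h3 := om_sq
      have : (s - t) * (s - om * t) * (s - om ^ 2 * t) = s ^ 3 - om ^ 3 * t ^ 3
        - (1 + om + om ^ 2) * s ^ 2 * t + (om + om ^ 2 + om ^ 3) * s * t ^ 2 := by ring
      rw [this, h2, h3, h]; ring
    rcases mul_eq_zero.1 h1 with h1 | h1
    · rcases mul_eq_zero.1 h1 with h1 | h1
      · exact ⟨0, by linear_combination h1⟩
      · exact ⟨1, by linear_combination h1⟩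
    · exact ⟨2, by linear_combination h1⟩

theorem kmk_eq_iff {p q : C3 × PP2} :
    (Quotient.mk kmSetoid p : KX) = (Quotient.mk kmSetoid q : KX) ↔
      kmRel p.1 q.1 ∧ (p.1 ∈ O3 → p.2 = q.2) := Quotient.eq (r := kmSetoid)

theorem reg_eq_reg {z w : C3} : reg z = reg w ↔ kmRel z w :=
  kmk_eq_iff.trans ⟨fun h => h.1, fun h => ⟨h, fun _ => rfl⟩⟩

theorem reg_rot {f : C3} (hf : f ∈ O3) (v : C3) (k : ℕ) :
    reg (f + om ^ k • v) = reg (f + v) := (reg_eq_reg.2 (kmRel_rot hf v k)).symm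

/-- nonexceptional points in the exceptional charts, with an arbitrary cube root -/
theorem exc_eq_of_cube {f : C3} (hf : f ∈ O3) {j : Fin 3} {a : C3} (h : a j ≠ 0) {s : ℂ}
    (hs : s ^ 3 = a j) : exc f j a = reg (f + s • Function.update a j 1) := by
  unfold exc
  rw [if_neg h]
  obtain ⟨k, hk⟩ := exists_om_pow_of_cube_eq (s := s) (t := cbrt (a j)) (by rw [hs, cbrt_cube])
  rw [hk, mul_smul, reg_rot hf]

theorem reg_eq_exc {f : C3} (hf : f ∈ O3) (j : Fin 3) {z : C3} (hz : z j ≠ f j) :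
    reg z = exc f j (psi f j z) := by
  have h0 : z j - f j ≠ 0 := sub_ne_zero.2 hz
  have h1 : psi f j z j = (z j - f j) ^ 3 := by simp [psi]
  rw [exc_eq_of_cube hf (by rw [h1]; exact pow_ne_zero 3 h0) h1.symm]
  congr 1
  funext k
  by_cases hk : k = j
  · subst hk; simp
  · simp only [Pi.add_apply, Pi.smul_apply, Function.update_of_ne hk, psi, if_neg hk, smul_eq_mul]
    field_simp
    ring

/-- exceptional points are not regular points -/
theorem exc_ne_reg {f : C3} (hf : f ∈ O3) {j : Fin 3} {a z : C3} (ha : a j = 0) (hz : z ∉ O3) :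
    exc f j a ≠ reg z := by
  unfold exc
  rw [if_pos ha]
  intro h
  exact hz ((kmRel_O3 (kmk_eq_iff.1 h).1).1 hf)

theorem norm_lt_half_of_mem_Vexc {j : Fin 3} {a : C3} (ha : a ∈ Vexc j) {s : ℂ}
    (hs : s ^ 3 = a j) : ‖s • Function.update a j (1 : ℂ)‖ < 1 / 2 := by
  rw [pi_norm_lt_iff (by norm_num)]
  intro k
  have h := ha k
  rw [← hs, norm_pow, ← mul_pow, ← norm_mul] at h
  rw [Pi.smul_apply, smul_eq_mul]
  by_contra! h1
  have h2 : (1 / 2 : ℝ) ^ 3 ≤ ‖s * Function.update a j (1 : ℂ) k‖ ^ 3 := by gcongr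
  have h3 : (1 / 2 : ℝ) ^ 3 = 1 / 8 := by norm_num
  linarith

/-- nonexceptional points in the exceptional charts are regular points -/
theorem exc_eq_reg {f : C3} (hf : f ∈ O3) {j : Fin 3} {a : C3} (ha : a ∈ Vexc j) (h : a j ≠ 0) :
    f + cbrt (a j) • Function.update a j 1 ∉ O3 ∧
      exc f j a = reg (f + cbrt (a j) • Function.update a j 1) := by
  refine ⟨fun h1 => ?_, by unfold exc; rw [if_neg h]⟩
  have h2 : cbrt (a j) • Function.update a j (1 : ℂ) ∈ O3 := by
    have := O3_sub h1 hf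
    rwa [add_sub_cancel_left] at this
  have h3 := O3_eq_zero h2 ((norm_lt_half_of_mem_Vexc ha (cbrt_cube _)).trans (by norm_num))
  rcases smul_eq_zero.1 h3 with h4 | h4
  · exact h (cbrt_eq_zero h4)
  · exact update_one_ne_zero j a h4

theorem exc_add_lattice {f l : C3} (hf : f ∈ O3) (hl : l ∈ L3) (j : Fin 3) (a : C3) :
    exc (f + l) j a = exc f j a := by
  have _ := hf
  unfold exc
  by_cases ha : a j = 0
  · rw [if_pos ha, if_pos ha]
    exact ((kmk_eq_iff (p := (f, _)) (q := (f + l, _))).2 ⟨kmRel_add hl, fun _ => rfl⟩).symm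
  · rw [if_neg ha, if_neg ha, eq_comm, reg_eq_reg]
    have := kmRel_add (z := f + cbrt (a j) • Function.update a j (1 : ℂ)) hl
    convert this using 1
    abel

/-! ### open sets -/

theorem isClosed_Eis : IsClosed Eis := by
  refine isClosed_of_pairwise_le_dist one_pos ?_
  intro x hx y hy hxy
  rw [dist_eq_norm]
  exact one_le_norm_Eis (Eis_sub hx hy) (sub_ne_zero.2 hxy)

theorem isClosed_O3 : IsClosed O3 := by
  have : O3 = ⋂ i : Fin 3, (fun z : C3 => z i) ⁻¹' Eis := by
    ext z; simp [O3]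
  rw [this]
  exact isClosed_iInter fun i => isClosed_Eis.preimage (continuous_apply i)

theorem isClosed_L3 : IsClosed L3 := by
  refine isClosed_of_pairwise_le_dist one_pos ?_
  intro x hx y hy hxy
  rw [dist_eq_norm]
  exact one_le_norm_O3 (O3_sub (L3_subset_O3 hx) (L3_subset_O3 hy)) (sub_ne_zero.2 hxy)

theorem isOpen_O3_compl : IsOpen (O3ᶜ : Set C3) := isClosed_O3.isOpen_compl

theorem continuous_update_one (j : Fin 3) :
    Continuous (fun a : C3 => Function.update a j (1 : ℂ)) :=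
  continuous_id.update j continuous_const

theorem isOpen_Vexc (j : Fin 3) : IsOpen (Vexc j) := by
  have : Vexc j = ⋂ k : Fin 3, {a : C3 | ‖a j‖ * ‖Function.update a j 1 k‖ ^ 3 < 1 / 8} := by
    ext z; simp [Vexc]
  rw [this]
  refine isOpen_iInter_of_finite fun k => isOpen_lt ?_ continuous_const
  have h1 : Continuous (fun a : C3 => Function.update a j (1 : ℂ) k) :=
    (continuous_apply k).comp (continuous_update_one j)
  exact ((continuous_apply j).norm).mul (h1.norm.pow 3)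

theorem mem_Vexc_of_eq_zero {j : Fin 3} {a : C3} (ha : a j = 0) : a ∈ Vexc j := by
  intro k
  rw [ha]; norm_num

/-- every point of `ℙ²` has coordinates bounded by `1` in some affine chart -/
theorem exists_affine (ℓ : PP2) : ∃ (j : Fin 3) (a : C3), a j = 0 ∧ (∀ k, ‖a k‖ ≤ 1) ∧
    Projectivization.mk ℂ (Function.update a j 1) (update_one_ne_zero j a) = ℓ := by
  have hv := ℓ.rep_nonzero
  set v := ℓ.rep with hvdef
  obtain ⟨j, hj⟩ := Finite.exists_max (fun k => ‖v k‖)
  have hvj : v j ≠ 0 := by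
    intro h
    apply hv
    funext k
    have := hj k
    rw [h, norm_zero] at this
    exact norm_le_zero_iff.1 this
  have key : Function.update (Function.update ((v j)⁻¹ • v) j 0) j 1 = (v j)⁻¹ • v := by
    funext k
    by_cases hk : k = j
    · subst hk; simp [hvj]
    · simp [Function.update_of_ne hk]
  refine ⟨j, Function.update ((v j)⁻¹ • v) j 0, by simp, ?_, ?_⟩
  · intro k
    by_cases hk : k = j
    · subst hk; simp
    · rw [Function.update_of_ne hk, Pi.smul_apply, smul_eq_mul, norm_mul, norm_inv,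
        inv_mul_le_iff₀ (norm_pos_iff.2 hvj)]
      simpa using hj k
  · rw [← ℓ.mk_rep, Projectivization.mk_eq_mk_iff']
    exact ⟨(v j)⁻¹, key.symm⟩

theorem exists_reg_or_exc' (x : KX) :
    (∃ z, z ∉ O3 ∧ reg z = x) ∨ ∃ f ∈ O3, ∃ j, ∃ a, (∀ k, ‖a k‖ ≤ 1) ∧ a ∈ Vexc j ∧ a j = 0 ∧
      exc f j a = x := by
  obtain ⟨⟨z, ℓ⟩, rfl⟩ := Quotient.exists_rep x
  by_cases hz : z ∈ O3
  · right
    obtain ⟨j, a, ha, ha1, hl⟩ := exists_affine ℓ
    refine ⟨z, hz, j, a, ha1, mem_Vexc_of_eq_zero ha, ha, ?_⟩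
    unfold exc
    rw [if_pos ha, hl]
  · left
    exact ⟨z, hz, kmk_eq_iff.2 ⟨kmRel_refl z, fun h => absurd h hz⟩⟩

theorem exists_reg_or_exc (x : KX) :
    (∃ z, z ∉ O3 ∧ reg z = x) ∨ ∃ f ∈ O3, ∃ j, ∃ a ∈ Vexc j, a j = 0 ∧ exc f j a = x := by
  rcases exists_reg_or_exc' x with h | ⟨f, hf, j, a, -, ha, ha0, h⟩
  · exact Or.inl h
  · exact Or.inr ⟨f, hf, j, a, ha, ha0, h⟩

/-! ### transition maps -/

/-- existence of a holomorphic transition map -/
def IsTrans (Θ Θ' : C3 → KX) (a b : C3) : Prop :=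
  ∃ τ : C3 → C3, AnalyticAt ℂ τ a ∧ τ a = b ∧ ∀ᶠ a' in 𝓝 a, Θ' (τ a') = Θ a'

theorem IsTrans.comp {Θ Θ' Θ'' : C3 → KX} {a b c : C3} (h : IsTrans Θ Θ' a b)
    (h' : IsTrans Θ' Θ'' b c) : IsTrans Θ Θ'' a c := by
  obtain ⟨τ, hτ, hab, h1⟩ := h
  obtain ⟨σ, hσ, hbc, h2⟩ := h'
  refine ⟨σ ∘ τ, AnalyticAt.comp (by rw [hab]; exact hσ) hτ, by simp [hab, hbc], ?_⟩
  have h3 : Tendsto τ (𝓝 a) (𝓝 b) := by rw [← hab]; exact hτ.continuousAt
  filter_upwards [h1, h3.eventually h2] with a' h4 h5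
  rw [← h4, ← h5]; rfl

theorem analyticAt_apply (k : Fin 3) (a : C3) : AnalyticAt ℂ (fun z : C3 => z k) a :=
  (ContinuousLinearMap.proj (R := ℂ) (φ := fun _ : Fin 3 => ℂ) k).analyticAt a

theorem trans_reg_reg {z w : C3} (h : kmRel z w) : IsTrans reg reg z w := by
  obtain ⟨k, l, hl, rfl⟩ := h
  refine ⟨fun z' => om ^ k • z' + l, ?_, rfl, Eventually.of_forall fun z' => ?_⟩
  · rw [analyticAt_pi_iff]
    intro i
    exact (analyticAt_const.mul (analyticAt_apply i z)).add analyticAt_const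
  · exact (reg_eq_reg.2 ⟨k, l, hl, rfl⟩).symm

theorem analyticAt_psi (f : C3) (j : Fin 3) {z : C3} (hz : z j ≠ f j) :
    AnalyticAt ℂ (psi f j) z := by
  unfold psi
  rw [analyticAt_pi_iff]
  intro k
  by_cases hk : k = j
  · subst hk
    simp only [if_true]
    exact ((analyticAt_apply k z).sub analyticAt_const).pow 3
  · simp only [if_neg hk]
    exact ((analyticAt_apply k z).sub analyticAt_const).div
      ((analyticAt_apply j z).sub analyticAt_const) (sub_ne_zero.2 hz)

theorem analyticAt_update_one (j : Fin 3) (a : C3) :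
    AnalyticAt ℂ (fun a : C3 => Function.update a j (1 : ℂ)) a := by
  rw [analyticAt_pi_iff]
  intro k
  by_cases hk : k = j
  · subst hk
    simp only [Function.update_self]
    exact analyticAt_const
  · simp only [Function.update_of_ne hk]
    exact analyticAt_apply k a

theorem trans_reg_exc {f : C3} (hf : f ∈ O3) (j : Fin 3) {z : C3} (hz : z j ≠ f j) :
    IsTrans reg (exc f j) z (psi f j z) := by
  refine ⟨psi f j, analyticAt_psi f j hz, rfl, ?_⟩
  have : ∀ᶠ z' : C3 in 𝓝 z, z' j ≠ f j :=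
    (continuous_apply j).continuousAt.eventually_ne hz
  filter_upwards [this] with z' hz'
  exact (reg_eq_exc hf j hz').symm

theorem psi_exc (f : C3) (j : Fin 3) {a : C3} {s : ℂ} (ha : a j ≠ 0) (hs : s ^ 3 = a j) :
    psi f j (f + s • Function.update a j 1) = a := by
  have hs0 : s ≠ 0 := by
    rintro rfl
    exact ha (by rw [← hs]; norm_num)
  funext k
  by_cases hk : k = j
  · subst hk
    simp [psi, hs]
  · simp [psi, hk, hs0]

/-- a holomorphic branch of the cube root -/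
theorem exists_cbrt_branch {t₀ s₀ : ℂ} (h0 : t₀ ≠ 0) (h : s₀ ^ 3 = t₀) :
    ∃ c : ℂ → ℂ, AnalyticAt ℂ c t₀ ∧ c t₀ = s₀ ∧ ∀ t, c t ^ 3 = t := by
  refine ⟨fun t => s₀ * cbrt (t / t₀), ?_, ?_, ?_⟩
  · refine analyticAt_const.mul ?_
    unfold cbrt
    refine AnalyticAt.cpow (analyticAt_id.div_const) analyticAt_const ?_
    simp [h0]
  · simp [h0, cbrt]
  · intro t
    rw [mul_pow, cbrt_cube, h]
    field_simp

theorem trans_exc_reg {f : C3} (hf : f ∈ O3) (j : Fin 3) {a : C3} {s : ℂ} (ha : a j ≠ 0)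
    (hs : s ^ 3 = a j) : IsTrans (exc f j) reg a (f + s • Function.update a j 1) := by
  obtain ⟨c, hc, hcs, hc3⟩ := exists_cbrt_branch ha hs
  refine ⟨fun a' => f + c (a' j) • Function.update a' j 1, ?_, by simp only [hcs], ?_⟩
  · have h1 : AnalyticAt ℂ (fun a' : C3 => c (a' j)) a :=
      AnalyticAt.comp (g := c) (f := fun a' : C3 => a' j) hc (analyticAt_apply j a)
    rw [analyticAt_pi_iff]
    intro i
    refine analyticAt_const.add (h1.mul ?_)
    exact (analyticAt_pi_iff.1 (analyticAt_update_one j a)) i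
  · have : ∀ᶠ a' : C3 in 𝓝 a, a' j ≠ 0 :=
      (continuous_apply j).continuousAt.eventually_ne ha
    filter_upwards [this] with a' ha'
    exact (exc_eq_of_cube hf ha' (hc3 _)).symm

theorem cbrt_ne_zero {t : ℂ} (h : t ≠ 0) : cbrt t ≠ 0 := fun h' => h (cbrt_eq_zero h')

/-- comparison of two exceptional charts with the same center -/
theorem exc_eq_exc_iff_aux {j j' : Fin 3} {a : C3}
    (hc : Function.update a j (1 : ℂ) j' ≠ 0) {b : C3}
    (hb : ∀ k, k ≠ j' → b k = Function.update a j 1 k / Function.update a j 1 j') :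
    Function.update b j' 1 = (Function.update a j (1 : ℂ) j')⁻¹ • Function.update a j 1 := by
  funext k
  by_cases hk : k = j'
  · subst hk
    simp [hc]
  · rw [Function.update_of_ne hk, hb k hk, Pi.smul_apply, smul_eq_mul]
    field_simp

theorem exc_change {f : C3} (hf : f ∈ O3) {j j' : Fin 3} {a b : C3}
    (hc : Function.update a j (1 : ℂ) j' ≠ 0)
    (hb : ∀ k, k ≠ j' → b k = Function.update a j 1 k / Function.update a j 1 j')
    (hb' : b j' = a j * Function.update a j 1 j' ^ 3) : exc f j' b = exc f j a := by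
  have h1 := exc_eq_exc_iff_aux hc hb
  by_cases ha : a j = 0
  · have hb0 : b j' = 0 := by rw [hb', ha, zero_mul]
    unfold exc
    rw [if_pos ha, if_pos hb0]
    refine (kmk_eq_iff (p := (f, _)) (q := (f, _))).2 ⟨kmRel_refl f, fun _ => ?_⟩
    rw [Projectivization.mk_eq_mk_iff']
    exact ⟨_, h1.symm⟩
  · have hb0 : b j' ≠ 0 := by rw [hb']; exact mul_ne_zero ha (pow_ne_zero 3 hc)
    rw [exc_eq_of_cube hf (s := cbrt (a j) * Function.update a j 1 j') hb0
      (by rw [mul_pow, cbrt_cube, hb']), exc_eq_of_cube hf ha (cbrt_cube (a j)), h1, smul_smul,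
      mul_assoc, mul_inv_cancel₀ hc, mul_one]

theorem trans_exc_exc_zero {f : C3} (hf : f ∈ O3) (j j' : Fin 3) {a b : C3} (ha : a j = 0)
    (hb : b j' = 0) (h : exc f j a = exc f j' b) : IsTrans (exc f j) (exc f j') a b := by
  have h1 : ∃ c : ℂ, c • Function.update b j' 1 = Function.update a j 1 := by
    unfold exc at h
    rw [if_pos ha, if_pos hb] at h
    have h2 := (kmk_eq_iff.1 h).2 hf
    exact (Projectivization.mk_eq_mk_iff' _ _ _ _ _).1 h2
  obtain ⟨c, hc⟩ := h1
  have hc1 : Function.update a j 1 j' = c := by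
    rw [← hc]; simp
  have hc0 : c ≠ 0 := by
    rintro rfl
    rw [zero_smul] at hc
    exact update_one_ne_zero j a hc.symm
  have hu : ∀ k, AnalyticAt ℂ (fun a' : C3 => Function.update a' j (1 : ℂ) k) a :=
    fun k => (analyticAt_pi_iff.1 (analyticAt_update_one j a)) k
  refine ⟨fun a' k => if k = j' then a' j * Function.update a' j 1 j' ^ 3 else
    Function.update a' j 1 k / Function.update a' j 1 j', ?_, ?_, ?_⟩
  · rw [analyticAt_pi_iff]
    intro k
    by_cases hk : k = j'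
    · simp only [if_pos hk]
      exact (analyticAt_apply j a).mul ((hu j').pow 3)
    · simp only [if_neg hk]
      exact (hu k).div (hu j') (by rw [hc1]; exact hc0)
  · funext k
    by_cases hk : k = j'
    · subst hk
      simp [ha, hb]
    · simp only [if_neg hk]
      rw [hc1, ← hc, Pi.smul_apply, Function.update_of_ne hk, smul_eq_mul]
      field_simp
  · have h2 : ∀ᶠ a' : C3 in 𝓝 a, Function.update a' j (1 : ℂ) j' ≠ 0 :=
      (hu j').continuousAt.eventually_ne (by rw [hc1]; exact hc0)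
    filter_upwards [h2] with a' h3
    refine exc_change hf h3 (fun k hk => by simp [hk]) (by simp)

theorem trans_exc_exc {f f' : C3} (hf : f ∈ O3) (hf' : f' ∈ O3) {j j' : Fin 3} {a b : C3}
    (ha : a ∈ Vexc j) (hb : b ∈ Vexc j') (h : exc f j a = exc f' j' b) :
    IsTrans (exc f j) (exc f' j') a b := by
  by_cases ha0 : a j = 0
  · have hb0 : b j' = 0 := by
      by_contra hb0
      obtain ⟨h1, h2⟩ := exc_eq_reg hf' hb hb0
      rw [h2] at h
      exact exc_ne_reg hf ha0 h1 h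
    have h1 : kmRel f f' := by
      unfold exc at h
      rw [if_pos ha0, if_pos hb0] at h
      exact (kmk_eq_iff.1 h).1
    have h2 := sub_mem_L3_of_kmRel hf h1
    have h3 : exc f' j' = exc f j' := by
      funext v
      have := exc_add_lattice hf h2 j' v
      rwa [add_sub_cancel] at this
    rw [h3] at h ⊢
    exact trans_exc_exc_zero hf j j' ha0 hb0 h
  · have hb0 : b j' ≠ 0 := by
      intro hb0
      obtain ⟨h1, h2⟩ := exc_eq_reg hf ha ha0
      rw [h2] at h
      exact exc_ne_reg hf' hb0 h1 h.symm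
    rw [exc_eq_of_cube hf ha0 (cbrt_cube _), exc_eq_of_cube hf' hb0 (cbrt_cube _), reg_eq_reg] at h
    refine ((trans_exc_reg hf j ha0 (cbrt_cube _)).comp (trans_reg_reg h)).comp ?_
    have h1 := trans_reg_exc hf' j' (z := f' + cbrt (b j') • Function.update b j' 1)
      (by simpa using cbrt_ne_zero hb0)
    rwa [psi_exc f' j' hb0 (cbrt_cube _)] at h1

/-! ### local injectivity -/

theorem one_sub_om_pow_smul_mem_L3 {z : C3} {k : ℕ} (hk : k = 1 ∨ k = 2)
    (h : (1 - om ^ k) • z ∈ L3) : z ∈ O3 := by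
  obtain ⟨u, hu, h⟩ := h
  rcases hk with rfl | rfl
  · rw [pow_one] at h
    have : z = u := by
      have := congrArg (fun v => (1 - om)⁻¹ • v) h
      simpa [smul_smul, inv_mul_cancel₀ one_sub_om_ne_zero] using this
    rwa [this]
  · have h1 : z = (-om) • u := by
      have h2 : (1 - om ^ 2) • z = (1 - om ^ 2) • ((-om) • u) := by
        rw [h, smul_smul]
        congr 1
        linear_combination (-1 : ℂ) * om_cube
      have h3 : (1 : ℂ) - om ^ 2 ≠ 0 := by
        intro h3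
        have h4 := om_sq
        have h5 := om_cube
        have h6 : om ^ 2 = 1 := by linear_combination -h3
        have h7 : om = 1 := by linear_combination h5 - om * h6
        exact one_sub_om_ne_zero (by rw [h7]; ring)
      have := congrArg (fun v => (1 - om ^ 2)⁻¹ • v) h2
      simpa only [smul_smul, inv_mul_cancel₀ h3, one_smul, ← mul_assoc, one_mul] using this
    rw [h1]
    exact O3_smul (Eis_neg Eis_om) hu

theorem om_pow_mod (k : ℕ) : om ^ k = om ^ (k % 3) := by
  conv_lhs => rw [← Nat.div_add_mod k 3, pow_add, pow_mul, om_cube, one_pow, one_mul]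

theorem kmRel_iff {z w : C3} : kmRel z w ↔ ∃ k : Fin 3, w - om ^ (k : ℕ) • z ∈ L3 := by
  constructor
  · rintro ⟨k, l, hl, rfl⟩
    refine ⟨⟨k % 3, Nat.mod_lt _ (by norm_num)⟩, ?_⟩
    have : om ^ k • z + l - om ^ (k % 3) • z = l := by rw [← om_pow_mod]; abel
    simpa only [this] using hl
  · rintro ⟨k, h⟩
    exact ⟨k, _, h, by abel⟩

theorem isClosed_kmRel : IsClosed {p : C3 × C3 | kmRel p.1 p.2} := by
  have : {p : C3 × C3 | kmRel p.1 p.2} =
      ⋃ k : Fin 3, (fun p : C3 × C3 => p.2 - om ^ (k : ℕ) • p.1) ⁻¹' L3 := by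
    ext p
    simp only [mem_ofPred_eq, kmRel_iff, mem_iUnion, mem_preimage]
  rw [this]
  refine isClosed_iUnion_of_finite fun k => isClosed_L3.preimage ?_
  fun_prop

theorem reg_locInj {z : C3} (hz : z ∉ O3) : ∃ N ∈ 𝓝 z, N ⊆ O3ᶜ ∧ InjOn reg N := by
  have h1 : ∀ k : ℕ, k = 1 ∨ k = 2 → ∀ᶠ p in 𝓝 z ×ˢ 𝓝 z, p.2 - om ^ k • p.1 ∉ L3 := by
    intro k hk
    rw [← nhds_prod_eq]
    have h2 : Continuous (fun p : C3 × C3 => p.2 - om ^ k • p.1) := by fun_prop
    refine (isClosed_L3.isOpen_compl.preimage h2).mem_nhds ?_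
    intro h3
    refine hz (one_sub_om_pow_smul_mem_L3 hk ?_)
    rw [sub_smul, one_smul]
    exact h3
  have h2 : ∀ᶠ p in 𝓝 z ×ˢ 𝓝 z, ‖p.2 - p.1‖ < 1 := by
    rw [← nhds_prod_eq]
    have h2 : Continuous (fun p : C3 × C3 => ‖p.2 - p.1‖) :=
      (continuous_snd.sub continuous_fst).norm
    refine h2.continuousAt.eventually_lt continuousAt_const ?_
    simp
  obtain ⟨t, ht, h⟩ := Filter.eventually_prod_self_iff'.1
    (((h1 1 (Or.inl rfl)).and (h1 2 (Or.inr rfl))).and h2)
  refine ⟨t ∩ O3ᶜ, Filter.inter_mem ht (isOpen_O3_compl.mem_nhds hz), inter_subset_right, ?_⟩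
  intro x hx y hy hxy
  rw [reg_eq_reg, kmRel_iff] at hxy
  obtain ⟨k, hk⟩ := hxy
  have h3 := h x hx.1 y hy.1
  fin_cases k
  · simp only [pow_zero, one_smul] at hk
    exact (sub_eq_zero.1 (O3_eq_zero (L3_subset_O3 hk) h3.2)).symm
  · exact absurd hk h3.1.1
  · exact absurd hk h3.1.2

/-- comparison of two exceptional charts with the same center -/
theorem exc_eq_exc {f : C3} (hf : f ∈ O3) {j j' : Fin 3} {a b : C3} (ha : a ∈ Vexc j)
    (hb : b ∈ Vexc j') (h : exc f j a = exc f j' b) :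
    ∃ c : ℂ, c • Function.update b j' 1 = Function.update a j 1 ∧ b j' = a j * c ^ 3 := by
  by_cases ha0 : a j = 0
  · have hb0 : b j' = 0 := by
      by_contra hb0
      obtain ⟨h1, h2⟩ := exc_eq_reg hf hb hb0
      rw [h2] at h
      exact exc_ne_reg hf ha0 h1 h
    unfold exc at h
    rw [if_pos ha0, if_pos hb0] at h
    have h2 := (kmk_eq_iff.1 h).2 hf
    obtain ⟨c, hc⟩ := (Projectivization.mk_eq_mk_iff' _ _ _ _ _).1 h2
    exact ⟨c, hc, by rw [ha0, hb0, zero_mul]⟩
  · have hb0 : b j' ≠ 0 := by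
      intro hb0
      obtain ⟨h1, h2⟩ := exc_eq_reg hf ha ha0
      rw [h2] at h
      exact exc_ne_reg hf hb0 h1 h.symm
    have hs := cbrt_cube (a j)
    have ht := cbrt_cube (b j')
    set s := cbrt (a j)
    set t := cbrt (b j')
    have hs0 : s ≠ 0 := by
      intro h; rw [h] at hs; exact ha0 (by rw [← hs]; norm_num)
    rw [exc_eq_of_cube hf ha0 hs, exc_eq_of_cube hf hb0 ht, reg_eq_reg] at h
    obtain ⟨k, l, hl, h⟩ := h
    have h1 : t • Function.update b j' 1 - (om ^ k * s) • Function.update a j (1 : ℂ) =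
        l - (1 - om ^ k) • f := by
      have h2 := congrArg (fun v => v - f) h
      simp only [add_sub_cancel_left] at h2
      rw [h2, smul_add, smul_smul, sub_smul, one_smul]
      abel
    have h2 : t • Function.update b j' 1 - (om ^ k * s) • Function.update a j (1 : ℂ) ∈ O3 := by
      rw [h1]
      exact L3_subset_O3 (L3_sub hl (L3_one_sub_om_pow hf k))
    have h3 : ‖(om ^ k * s) • Function.update a j (1 : ℂ)‖ < 1 / 2 := by
      rw [mul_smul, norm_smul, norm_om_pow, one_mul]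
      exact norm_lt_half_of_mem_Vexc ha hs
    have h4 := O3_eq_zero h2 (by
      refine (norm_sub_le _ _).trans_lt ?_
      linarith [norm_lt_half_of_mem_Vexc hb ht])
    rw [sub_eq_zero] at h4
    have h5 : (om ^ k * s) ≠ 0 := mul_ne_zero (pow_ne_zero _ om_ne_zero) hs0
    refine ⟨(om ^ k * s)⁻¹ * t, ?_, ?_⟩
    · rw [mul_smul, h4, smul_smul, inv_mul_cancel₀ h5, one_smul]
    · rw [← ht, ← hs, mul_pow, inv_pow, mul_pow, ← pow_mul, mul_comm k 3, pow_mul, om_cube,
        one_pow, one_mul]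
      field_simp

theorem exc_injOn {f : C3} (hf : f ∈ O3) (j : Fin 3) : InjOn (exc f j) (Vexc j) := by
  intro a ha b hb h
  obtain ⟨c, hc, hab⟩ := exc_eq_exc hf ha hb h
  have hc1 : c = 1 := by
    have := congrFun hc j
    simpa using this
  rw [hc1, one_smul] at hc
  rw [hc1, one_pow, mul_one] at hab
  funext k
  by_cases hk : k = j
  · rw [hk, hab]
  · have := congrFun hc k
    rw [Function.update_of_ne hk, Function.update_of_ne hk] at this
    exact this.symm

/-! ### the atlas -/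

/-- The etale atlas of `X`. -/
noncomputable def kmAtlas : EtaleAtlas 3 KX where
  I := Option ({f : C3 // f ∈ O3} × Fin 3)
  V i := match i with
    | none => O3ᶜ
    | some (_, j) => Vexc j
  Θ i := match i with
    | none => reg
    | some (f, j) => exc f j
  isOpen_V := by
    rintro (_ | ⟨f, j⟩)
    · exact isOpen_O3_compl
    · exact isOpen_Vexc j
  surj := by
    intro x
    rcases exists_reg_or_exc x with ⟨z, hz, h⟩ | ⟨f, hf, j, a, ha, -, h⟩
    · exact ⟨none, z, hz, h⟩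
    · exact ⟨some (⟨f, hf⟩, j), a, ha, h⟩
  locInj := by
    rintro (_ | ⟨⟨f, hf⟩, j⟩) a ha
    · exact reg_locInj ha
    · exact ⟨Vexc j, (isOpen_Vexc j).mem_nhds ha, subset_rfl, exc_injOn hf j⟩
  trans := by
    rintro (_ | ⟨⟨f, hf⟩, j⟩) (_ | ⟨⟨f', hf'⟩, j'⟩) a ha b hb hab
    · exact trans_reg_reg (reg_eq_reg.1 hab)
    · have hb0 : b j' ≠ 0 := by
        intro hb0
        exact exc_ne_reg hf' hb0 ha hab.symm
      have hab' : exc f' j' b = reg a := hab.symm
      rw [exc_eq_of_cube hf' hb0 (cbrt_cube _), reg_eq_reg] at hab'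
      have h1 := trans_reg_exc hf' j' (z := f' + cbrt (b j') • Function.update b j' 1)
        (by simpa using cbrt_ne_zero hb0)
      rw [psi_exc f' j' hb0 (cbrt_cube _)] at h1
      exact (trans_reg_reg (kmRel_symm hab')).comp h1
    · have ha0 : a j ≠ 0 := by
        intro ha0
        exact exc_ne_reg hf ha0 hb hab
      have hab' : exc f j a = reg b := hab
      rw [exc_eq_of_cube hf ha0 (cbrt_cube _), reg_eq_reg] at hab'
      exact (trans_exc_reg hf j ha0 (cbrt_cube _)).comp (trans_reg_reg hab')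
    · exact trans_exc_exc hf hf' ha hb hab

noncomputable instance : TopologicalSpace KX := kmAtlas.topology
noncomputable instance : HolSpace KX := kmAtlas.holSpace

theorem kmAtlas_compatible : kmAtlas.Compatible := kmAtlas.compatible

theorem KX_isComplexManifold : IsComplexManifold KX 3 := kmAtlas_compatible.isComplexManifold

theorem holMapAt_reg {z : C3} (hz : z ∉ O3) : HolMapAt reg z :=
  kmAtlas_compatible.holMapAt none z hz

theorem holMapAt_exc {f : C3} (hf : f ∈ O3) {j : Fin 3} {a : C3} (ha : a ∈ Vexc j) :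
    HolMapAt (exc f j) a :=
  kmAtlas_compatible.holMapAt (some (⟨f, hf⟩, j)) a ha

theorem nhds_reg {z : C3} (hz : z ∉ O3) : 𝓝 (reg z) = map reg (𝓝 z) := by
  refine le_antisymm ?_ (holMapAt_reg hz).1
  intro s hs
  have := kmAtlas_compatible.open_map none z hz _ hs
  exact Filter.mem_of_superset this (image_preimage_subset _ _)

theorem nhds_exc {f : C3} (hf : f ∈ O3) {j : Fin 3} {a : C3} (ha : a ∈ Vexc j) :
    𝓝 (exc f j a) = map (exc f j) (𝓝 a) := by
  refine le_antisymm ?_ (holMapAt_exc hf ha).1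
  intro s hs
  have := kmAtlas_compatible.open_map (some (⟨f, hf⟩, j)) a ha _ hs
  exact Filter.mem_of_superset this (image_preimage_subset _ _)

/-! ### Hausdorff -/

theorem frequently_of_neBot {Θ Θ' : C3 → KX} {a b : C3}
    (h : (map Θ (𝓝 a) ⊓ map Θ' (𝓝 b)).NeBot) : ∃ᶠ p : C3 × C3 in 𝓝 (a, b), Θ p.1 = Θ' p.2 := by
  rw [Filter.Frequently]
  intro h1
  rw [nhds_prod_eq] at h1
  obtain ⟨s, hs, t, ht, hst⟩ := Filter.mem_prod_iff.1 h1
  have h2 : Θ '' s ∩ Θ' '' t ∈ map Θ (𝓝 a) ⊓ map Θ' (𝓝 b) :=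
    Filter.inter_mem_inf (Filter.image_mem_map hs) (Filter.image_mem_map ht)
  obtain ⟨x, ⟨v, hv, hvx⟩, ⟨w, hw, hwx⟩⟩ := h.nonempty_of_mem h2
  exact hst (show (v, w) ∈ s ×ˢ t from ⟨hv, hw⟩) (hvx.trans hwx.symm)

/-- the image of a point of the exceptional chart in `ℂ³` (with a choice of the cube root) -/
noncomputable def blowdown (f : C3) (j : Fin 3) (a : C3) : C3 :=
  f + cbrt (a j) • Function.update a j 1

theorem continuousAt_cbrt_zero : ContinuousAt cbrt 0 := by
  have h0 : cbrt 0 = 0 := by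
    have := cbrt_cube 0
    exact pow_eq_zero_iff (by norm_num) |>.1 this
  rw [Metric.continuousAt_iff]
  intro ε hε
  refine ⟨ε ^ 3, by positivity, ?_⟩
  intro t ht
  rw [dist_zero_right] at ht
  rw [h0, dist_zero_right]
  by_contra! h
  have h1 : ε ^ 3 ≤ ‖cbrt t‖ ^ 3 := by gcongr
  rw [← norm_pow, cbrt_cube] at h1
  linarith

theorem blowdown_of_eq_zero {f : C3} {j : Fin 3} {a : C3} (ha : a j = 0) :
    blowdown f j a = f := by
  have h0 : cbrt 0 = 0 := by
    have := cbrt_cube 0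
    exact pow_eq_zero_iff (by norm_num) |>.1 this
  rw [blowdown, ha, h0, zero_smul, add_zero]

theorem continuousAt_blowdown {f : C3} {j : Fin 3} {a : C3} (ha : a j = 0) :
    ContinuousAt (blowdown f j) a := by
  unfold blowdown
  have h1 : ContinuousAt (fun a : C3 => cbrt (a j)) a := by
    refine ContinuousAt.comp (f := fun a : C3 => a j) (g := cbrt) ?_ (continuous_apply j).continuousAt
    rw [ha]
    exact continuousAt_cbrt_zero
  exact continuousAt_const.add (h1.smul (continuous_update_one j).continuousAt)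

theorem exists_blowdown {f : C3} {j : Fin 3} {a : C3} :
    ∃ ℓ, exc f j a = Quotient.mk kmSetoid (blowdown f j a, ℓ) := by
  by_cases ha : a j = 0
  · refine ⟨Projectivization.mk ℂ (Function.update a j 1) (update_one_ne_zero j a), ?_⟩
    rw [blowdown_of_eq_zero ha]
    unfold exc
    rw [if_pos ha]
  · refine ⟨pt0, ?_⟩
    unfold exc
    rw [if_neg ha]
    rfl

theorem kmRel_blowdown_reg {f : C3} {j : Fin 3} {a z : C3} (h : exc f j a = reg z) :
    kmRel (blowdown f j a) z := by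
  obtain ⟨ℓ, hℓ⟩ := exists_blowdown (f := f) (j := j) (a := a)
  rw [hℓ] at h
  exact (kmk_eq_iff.1 h).1

theorem kmRel_blowdown {f f' : C3} {j j' : Fin 3} {a b : C3} (h : exc f j a = exc f' j' b) :
    kmRel (blowdown f j a) (blowdown f' j' b) := by
  obtain ⟨ℓ, hℓ⟩ := exists_blowdown (f := f) (j := j) (a := a)
  obtain ⟨ℓ', hℓ'⟩ := exists_blowdown (f := f') (j := j') (a := b)
  rw [hℓ, hℓ'] at h
  exact (kmk_eq_iff.1 h).1

theorem kmRel_of_frequently {a b : C3} (h : ∃ᶠ p : C3 × C3 in 𝓝 (a, b), kmRel p.1 p.2) :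
    kmRel a b := by
  have h1 : (a, b) ∈ closure {p : C3 × C3 | kmRel p.1 p.2} := mem_closure_iff_frequently.2 h
  rwa [isClosed_kmRel.closure_eq] at h1

theorem sep_exc_reg {f : C3} (hf : f ∈ O3) {j : Fin 3} {a z : C3} (ha : a j = 0) (hz : z ∉ O3)
    (h : (𝓝 (exc f j a) ⊓ 𝓝 (reg z)).NeBot) : False := by
  rw [nhds_exc hf (mem_Vexc_of_eq_zero ha), nhds_reg hz] at h
  have h1 := frequently_of_neBot h
  have h2 : Tendsto (fun p : C3 × C3 => (blowdown f j p.1, p.2)) (𝓝 (a, z)) (𝓝 (f, z)) := by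
    rw [nhds_prod_eq, nhds_prod_eq]
    have h3 := continuousAt_blowdown (f := f) ha
    rw [ContinuousAt, blowdown_of_eq_zero ha] at h3
    exact h3.prodMap tendsto_id
  have h3 : ∃ᶠ p : C3 × C3 in 𝓝 (f, z), kmRel p.1 p.2 := by
    refine h2.frequently (h1.mono ?_)
    intro p hp
    exact kmRel_blowdown_reg hp
  exact hz ((kmRel_O3 (kmRel_of_frequently h3)).1 hf)

theorem sep_exc_exc {f f' : C3} (hf : f ∈ O3) (hf' : f' ∈ O3) {j j' : Fin 3} {a b : C3}
    (ha : a j = 0) (hb : b j' = 0) (h : (𝓝 (exc f j a) ⊓ 𝓝 (exc f' j' b)).NeBot) :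
    exc f j a = exc f' j' b := by
  rw [nhds_exc hf (mem_Vexc_of_eq_zero ha), nhds_exc hf' (mem_Vexc_of_eq_zero hb)] at h
  have h1 := frequently_of_neBot h
  have hT : ∀ (f : C3) (j : Fin 3) (a : C3), a j = 0 → Tendsto (blowdown f j) (𝓝 a) (𝓝 f) := by
    intro f j a ha
    have h3 := continuousAt_blowdown (f := f) ha
    rwa [ContinuousAt, blowdown_of_eq_zero ha] at h3
  have h2 : Tendsto (fun p : C3 × C3 => (blowdown f j p.1, blowdown f' j' p.2)) (𝓝 (a, b))
      (𝓝 (f, f')) := by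
    rw [nhds_prod_eq, nhds_prod_eq]
    exact (hT f j a ha).prodMap (hT f' j' b hb)
  have h3 : ∃ᶠ p : C3 × C3 in 𝓝 (f, f'), kmRel p.1 p.2 := by
    refine h2.frequently (h1.mono ?_)
    intro p hp
    exact kmRel_blowdown hp
  have h4 := sub_mem_L3_of_kmRel hf (kmRel_of_frequently h3)
  have h5 : exc f' j' = exc f j' := by
    funext v
    have := exc_add_lattice hf h4 j' v
    rwa [add_sub_cancel] at this
  rw [h5] at h1 ⊢
  have h6 : ∀ᶠ p : C3 × C3 in 𝓝 (a, b), p.1 ∈ Vexc j ∧ p.2 ∈ Vexc j' :=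
    ((isOpen_Vexc j).prod (isOpen_Vexc j')).mem_nhds
      ⟨mem_Vexc_of_eq_zero ha, mem_Vexc_of_eq_zero hb⟩
  have h7 : ∀ m n : Fin 3, Function.update a j (1 : ℂ) m * Function.update b j' 1 n =
      Function.update a j 1 n * Function.update b j' 1 m := by
    intro m n
    have h8 : IsClosed {p : C3 × C3 | Function.update p.1 j (1 : ℂ) m *
        Function.update p.2 j' 1 n = Function.update p.1 j 1 n * Function.update p.2 j' 1 m} := by
      have c1 : ∀ (j k : Fin 3), Continuous (fun a : C3 => Function.update a j (1 : ℂ) k) :=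
        fun j k => (continuous_apply k).comp (continuous_update_one j)
      exact isClosed_eq (((c1 j m).comp continuous_fst).mul ((c1 j' n).comp continuous_snd))
        (((c1 j n).comp continuous_fst).mul ((c1 j' m).comp continuous_snd))
    have h9 : ∃ᶠ p : C3 × C3 in 𝓝 (a, b), p ∈ {p : C3 × C3 | Function.update p.1 j (1 : ℂ) m *
        Function.update p.2 j' 1 n = Function.update p.1 j 1 n * Function.update p.2 j' 1 m} := by
      refine (h1.and_eventually h6).mono ?_
      rintro p ⟨hp, hp1, hp2⟩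
      obtain ⟨c, hc, -⟩ := exc_eq_exc hf hp1 hp2 hp
      rw [mem_ofPred_eq, ← hc]
      simp only [Pi.smul_apply, smul_eq_mul]
      ring
    have h10 := mem_closure_iff_frequently.2 h9
    rwa [h8.closure_eq] at h10
  unfold exc
  rw [if_pos ha, if_pos hb]
  refine (kmk_eq_iff (p := (f, _)) (q := (f, _))).2 ⟨kmRel_refl f, fun _ => ?_⟩
  rw [Projectivization.mk_eq_mk_iff']
  refine ⟨Function.update a j 1 j', ?_⟩
  funext n
  have := h7 j' n
  rw [Function.update_self, mul_one] at this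
  exact this

instance : T2Space KX := by
  rw [t2_iff_nhds]
  intro x y hxy
  rcases exists_reg_or_exc x with ⟨z, hz, rfl⟩ | ⟨f, hf, j, a, ha, ha0, rfl⟩ <;>
  rcases exists_reg_or_exc y with ⟨w, hw, rfl⟩ | ⟨f', hf', j', b, hb, hb0, rfl⟩
  · rw [nhds_reg hz, nhds_reg hw] at hxy
    rw [reg_eq_reg]
    refine kmRel_of_frequently ((frequently_of_neBot hxy).mono fun p hp => reg_eq_reg.1 hp)
  · rw [inf_comm] at hxy
    exact (sep_exc_reg hf' hb0 hz hxy).elim
  · exact (sep_exc_reg hf ha0 hw hxy).elim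
  · exact sep_exc_exc hf hf' ha0 hb0 hxy

/-! ### compactness -/

theorem exists_Eis_near (z : ℂ) : ∃ e ∈ Eis, ‖z - 3 * e‖ ≤ 3 := by
  have h3 : Real.sqrt 3 ≠ 0 := by positivity
  set y : ℝ := 2 * z.im / Real.sqrt 3
  set x : ℝ := z.re + y / 2
  have hz : z = x + y * om := by
    apply Complex.ext
    · simp [om, x]; ring
    · simp [om, y]; field_simp
  refine ⟨(round (x / 3) : ℤ) + (round (y / 3) : ℤ) * om, ⟨_, _, rfl⟩, ?_⟩
  have h1 : z - 3 * ((round (x / 3) : ℤ) + (round (y / 3) : ℤ) * om) =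
      (3 * (x / 3 - round (x / 3)) : ℝ) + (3 * (y / 3 - round (y / 3)) : ℝ) * om := by
    rw [hz]; push_cast; ring
  rw [h1]
  refine (norm_add_le _ _).trans ?_
  rw [norm_mul, norm_om, mul_one, Complex.norm_real, Complex.norm_real, Real.norm_eq_abs,
    Real.norm_eq_abs, abs_mul, abs_mul]
  have h4 := abs_sub_round (x / 3)
  have h5 := abs_sub_round (y / 3)
  rw [abs_of_pos (by norm_num : (0 : ℝ) < 3)]
  linarith

theorem exists_L3_near (z : C3) : ∃ l ∈ L3, ‖z - l‖ ≤ 3 := by
  choose e he hze using fun i => exists_Eis_near (z i)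
  refine ⟨(3 : ℂ) • e, L3_three he, ?_⟩
  rw [pi_norm_le_iff_of_nonneg (by norm_num)]
  intro i
  exact hze i

/-- the compact part of the regular chart -/
def Kreg : Set C3 := closedBall 0 3 ∩ {z | ∀ f ∈ O3, 1 / 4 ≤ ‖z - f‖}

theorem isCompact_Kreg : IsCompact Kreg := by
  refine (isCompact_closedBall 0 3).inter_right ?_
  have : {z : C3 | ∀ f ∈ O3, 1 / 4 ≤ ‖z - f‖} = ⋂ f ∈ O3, {z : C3 | 1 / 4 ≤ ‖z - f‖} := by
    ext z; simp
  rw [this]
  exact isClosed_biInter fun f _ => isClosed_le continuous_const (by fun_prop)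

theorem Kreg_subset : Kreg ⊆ O3ᶜ := by
  intro z hz h
  have := hz.2 z h
  rw [sub_self, norm_zero] at this
  norm_num at this

/-- the compact part of the exceptional chart -/
def Kexc (j : Fin 3) : Set C3 := closedBall 0 1 ∩ {a | ‖a j‖ ≤ 1 / 64}

theorem isCompact_Kexc (j : Fin 3) : IsCompact (Kexc j) :=
  (isCompact_closedBall 0 1).inter_right (isClosed_le (by fun_prop) continuous_const)

theorem Kexc_subset (j : Fin 3) : Kexc j ⊆ Vexc j := by
  intro a ha k
  have h1 : ‖a j‖ ≤ 1 / 64 := ha.2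
  have h2 : ‖a‖ ≤ 1 := by simpa using ha.1
  have h3 : ‖Function.update a j (1 : ℂ) k‖ ≤ 1 := by
    by_cases hk : k = j
    · subst hk; simp
    · rw [Function.update_of_ne hk]
      exact (norm_le_pi_norm a k).trans h2
  have h4 : ‖Function.update a j (1 : ℂ) k‖ ^ 3 ≤ 1 := pow_le_one₀ (norm_nonneg _) h3
  have h5 : ‖a j‖ * ‖Function.update a j (1 : ℂ) k‖ ^ 3 ≤ 1 / 64 * 1 :=
    mul_le_mul h1 h4 (by positivity) (by norm_num)
  linarith

theorem finite_O3_inter : (closedBall (0 : C3) 4 ∩ O3).Finite := by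
  have : DiscreteTopology O3 := by
    refine DiscreteTopology.of_forall_le_dist one_pos ?_
    rintro ⟨x, hx⟩ ⟨y, hy⟩ hxy
    rw [Subtype.dist_eq, dist_eq_norm]
    refine one_le_norm_O3 (O3_sub hx hy) (sub_ne_zero.2 fun h => hxy (Subtype.ext h))
  exact Metric.finite_isBounded_inter_isClosed DiscreteTopology.isDiscrete
    isBounded_closedBall isClosed_O3

theorem KX_cover (x : KX) : x ∈ reg '' Kreg ∪ ⋃ f ∈ closedBall (0 : C3) 4 ∩ O3, ⋃ j : Fin 3,
    exc f j '' Kexc j := by
  rcases exists_reg_or_exc' x with ⟨z, hz, rfl⟩ | ⟨f, hf, j, a, ha1, ha, ha0, rfl⟩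
  · obtain ⟨l, hl, hzl⟩ := exists_L3_near z
    have h1 : reg z = reg (z - l) := by
      rw [reg_eq_reg, sub_eq_add_neg]
      exact kmRel_add (L3_neg hl)
    have h2 : z - l ∉ O3 := by
      intro h
      apply hz
      have := O3_add h (L3_subset_O3 hl)
      rwa [sub_add_cancel] at this
    rw [h1]
    generalize z - l = w at h2 hzl
    by_cases h3 : w ∈ Kreg
    · exact Or.inl ⟨w, h3, rfl⟩
    · right
      have h4 : ∃ f ∈ O3, ‖w - f‖ < 1 / 4 := by
        by_contra! h
        exact h3 ⟨by simpa using hzl, h⟩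
      obtain ⟨f, hf, hwf⟩ := h4
      have hfn : f ∈ closedBall (0 : C3) 4 := by
        rw [mem_closedBall_zero_iff]
        have : f = w - (w - f) := by abel
        rw [this]
        refine (norm_sub_le _ _).trans ?_
        linarith
      obtain ⟨j, hj⟩ := Finite.exists_max (fun k => ‖w k - f k‖)
      have hwj : w j ≠ f j := by
        intro h
        apply h2
        have : w = f := by
          funext k
          have := hj k
          rw [h, sub_self, norm_zero] at this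
          exact sub_eq_zero.1 (norm_le_zero_iff.1 this)
        rwa [this]
      have hpos : 0 < ‖w j - f j‖ := norm_pos_iff.2 (sub_ne_zero.2 hwj)
      have hlt : ‖w j - f j‖ < 1 / 4 := (norm_le_pi_norm (w - f) j).trans_lt hwf
      refine mem_biUnion (x := f) ⟨hfn, hf⟩ (mem_iUnion.2 ⟨j, psi f j w, ?_, ?_⟩)
      · have h5 : ‖psi f j w j‖ ≤ 1 / 64 := by
          simp only [psi, if_true]
          rw [norm_pow]
          calc ‖w j - f j‖ ^ 3 ≤ (1 / 4) ^ 3 := by gcongr
            _ = 1 / 64 := by norm_num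
        refine ⟨?_, h5⟩
        rw [mem_closedBall_zero_iff, pi_norm_le_iff_of_nonneg (by norm_num)]
        intro k
        by_cases hk : k = j
        · rw [hk]
          exact h5.trans (by norm_num)
        · simp only [psi, if_neg hk]
          rw [norm_div, div_le_one hpos]
          exact hj k
      · exact (reg_eq_exc hf j hwj).symm
  · right
    obtain ⟨l, hl, hfl⟩ := exists_L3_near f
    have hf' : f - l ∈ O3 := O3_sub hf (L3_subset_O3 hl)
    refine mem_biUnion (x := f - l) ⟨?_, hf'⟩ (mem_iUnion.2 ⟨j, a, ?_, ?_⟩)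
    · rw [mem_closedBall_zero_iff]
      linarith
    · refine ⟨?_, ?_⟩
      · rw [mem_closedBall_zero_iff, pi_norm_le_iff_of_nonneg (by norm_num)]
        exact ha1
      · rw [mem_ofPred_eq, ha0, norm_zero]
        norm_num
    · have := exc_add_lattice hf' hl j a
      rwa [sub_add_cancel, eq_comm] at this

instance : CompactSpace KX := by
  refine ⟨?_⟩
  have h : (univ : Set KX) = reg '' Kreg ∪ ⋃ f ∈ closedBall (0 : C3) 4 ∩ O3, ⋃ j : Fin 3,
      exc f j '' Kexc j := (eq_univ_of_forall KX_cover).symm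
  rw [h]
  refine IsCompact.union ?_ (finite_O3_inter.isCompact_biUnion fun f hf =>
    isCompact_iUnion fun j => ?_)
  · exact isCompact_Kreg.image_of_continuousOn fun z hz =>
      (holMapAt_reg (Kreg_subset hz)).1.continuousWithinAt
  · exact (isCompact_Kexc j).image_of_continuousOn fun a ha =>
      (holMapAt_exc hf.2 (Kexc_subset j ha)).1.continuousWithinAt

/-! ### density of the regular points, connectedness -/

/-- the set of exceptional points is closed with empty interior, so that regular points are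
dense -/
theorem dense_reg : Dense (reg '' O3ᶜ) := by
  intro x
  rcases exists_reg_or_exc x with ⟨z, hz, rfl⟩ | ⟨f, hf, j, a, ha, ha0, rfl⟩
  · exact subset_closure ⟨z, hz, rfl⟩
  · have h1 : Continuous (fun ε : ℂ => Function.update a j ε) :=
      continuous_const.update j continuous_id
    have h2 : Tendsto (fun ε : ℂ => Function.update a j ε) (𝓝[≠] 0) (𝓝 a) := by
      have := (h1.tendsto 0).mono_left (nhdsWithin_le_nhds (s := {0}ᶜ))
      rwa [← ha0, Function.update_eq_self, ha0] at this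
    have h3 : Tendsto (fun ε : ℂ => exc f j (Function.update a j ε)) (𝓝[≠] 0)
        (𝓝 (exc f j a)) := (holMapAt_exc hf ha).1.tendsto.comp h2
    refine mem_closure_of_frequently_of_tendsto (Eventually.frequently ?_) h3
    filter_upwards [h2 ((isOpen_Vexc j).mem_nhds ha), self_mem_nhdsWithin] with ε h4 h5
    have h6 : Function.update a j ε j ≠ 0 := by
      rw [Function.update_self]; exact h5
    obtain ⟨h7, h8⟩ := exc_eq_reg hf h4 h6
    exact ⟨_, h7, h8.symm⟩

theorem countable_O3 : O3.Countable := by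
  have : O3 ⊆ range (fun p : Fin 3 → ℤ × ℤ => fun i => ((p i).1 + (p i).2 * om : ℂ)) := by
    intro z hz
    choose a b hab using hz
    exact ⟨fun i => (a i, b i), funext fun i => (hab i).symm⟩
  exact (countable_range _).mono this

theorem isConnected_O3_compl : IsConnected (O3ᶜ : Set C3) := by
  refine (countable_O3.isPathConnected_compl_of_one_lt_rank ?_).isConnected
  rw [rank_real_of_complex, rank_fin_fun]
  norm_num

instance : ConnectedSpace KX := by
  rw [connectedSpace_iff_univ]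
  have h1 : IsConnected (reg '' O3ᶜ) := isConnected_O3_compl.image _ fun z hz =>
      (holMapAt_reg hz).1.continuousWithinAt
  have h2 := h1.closure
  rwa [dense_reg.closure_eq] at h2

end Pool.Agent.helper90.KMMP
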