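import Pool.Agent.helper90.KMMP.KXKb1

/-!
# The surface `T` in the threefold `X`
-/

open scoped Topology ContDiff
open Set Filter Metric

namespace Pool.Agent.helper90.KMMP

/-! ### membership in `T` -/

theorem PiEis_subset {z : ℂ} (hz : z ∈ PiEis) : z ∈ Eis := by
  obtain ⟨u, hu, rfl⟩ := hz
  exact Eis_mul (Eis_sub Eis_one Eis_om) hu

theorem PiEis_zero : (0 : ℂ) ∈ PiEis := ⟨0, Eis_zero, by simp⟩

theorem PiEis_add {x y : ℂ} (hx : x ∈ PiEis) (hy : y ∈ PiEis) : x + y ∈ PiEis := by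
  obtain ⟨u, hu, rfl⟩ := hx
  obtain ⟨v, hv, rfl⟩ := hy
  exact ⟨u + v, Eis_add hu hv, by ring⟩

theorem PiEis_of_L3 {l : C3} (hl : l ∈ L3) (i : Fin 3) : l i ∈ PiEis := by
  obtain ⟨u, hu, rfl⟩ := hl
  exact ⟨u i, hu i, rfl⟩

/-- the lattice vector `(0, 0, p)` -/
def vec2 (p : ℂ) : C3 := fun i => if i = 2 then p else 0

theorem vec2_mem_L3 {p : ℂ} (hp : p ∈ PiEis) : vec2 p ∈ L3 := by
  obtain ⟨u, hu, rfl⟩ := hp
  refine ⟨vec2 u, ?_, ?_⟩
  · intro i
    by_cases hi : i = 2 <;> simp [vec2, hi, hu, Eis_zero]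
  · funext i
    by_cases hi : i = 2 <;> simp [vec2, hi]

theorem PiEis_of_kmRel {w z : C3} (h : kmRel w z) (hw : w 2 = 0) : z 2 ∈ PiEis := by
  obtain ⟨k, l, hl, rfl⟩ := h
  have : (om ^ k • w + l) 2 = l 2 := by simp [hw]
  rw [this]
  exact PiEis_of_L3 hl 2

theorem reg_mem_TT {z : C3} (hz : z ∉ O3) : reg z ∈ TT ↔ z 2 ∈ PiEis := by
  constructor
  · rintro (⟨w, hw, hw2, h⟩ | ⟨f, hf, j, hj, a, ha, hf2, ha2, h⟩)
    · exact PiEis_of_kmRel (reg_eq_reg.1 h) hw2
    · refine PiEis_of_kmRel (kmRel_blowdown_reg h) ?_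
      simp [blowdown, hf2, ha2, Function.update_of_ne hj.symm]
  · intro h
    left
    have h1 := L3_neg (vec2_mem_L3 h)
    refine ⟨z + -vec2 (z 2), ?_, by simp [vec2], (reg_eq_reg.2 (kmRel_add h1)).symm⟩
    intro h2
    exact hz ((kmRel_O3 (kmRel_add h1)).2 h2)

theorem eq_zero_of_mem_Eis {x : ℂ} (hx : x ∈ Eis) (h : ‖x‖ < 1) : x = 0 := by
  by_contra h0
  exact absurd (one_le_norm_Eis hx h0) (not_le.2 h)

theorem exc_mem_TT {f : C3} (hf : f ∈ O3) {j : Fin 3} {a : C3} (ha : a ∈ Vexc j) :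
    exc f j a ∈ TT ↔ f 2 ∈ PiEis ∧ j ≠ 2 ∧ a 2 = 0 := by
  constructor
  · rintro (⟨w, hw, hw2, h⟩ | ⟨f', hf', j', hj', a', ha', hf2, ha2, h⟩)
    · have h1 := PiEis_of_kmRel (kmRel_symm (kmRel_blowdown_reg h.symm)) hw2
      have ha0 : a j ≠ 0 := by
        intro ha0
        exact exc_ne_reg hf ha0 hw h.symm
      have h2 : blowdown f j a 2 = f 2 + cbrt (a j) * Function.update a j (1 : ℂ) 2 := rfl
      rw [h2] at h1
      have h3 : cbrt (a j) * Function.update a j (1 : ℂ) 2 ∈ Eis := by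
        have := Eis_sub (PiEis_subset h1) (hf 2)
        rwa [add_sub_cancel_left] at this
      have h4 : ‖cbrt (a j) * Function.update a j (1 : ℂ) 2‖ < 1 := by
        have h5 := norm_lt_half_of_mem_Vexc ha (cbrt_cube _)
        have h6 := norm_le_pi_norm (cbrt (a j) • Function.update a j (1 : ℂ)) 2
        rw [Pi.smul_apply, smul_eq_mul] at h6
        linarith
      have h5 := eq_zero_of_mem_Eis h3 h4
      rw [h5, add_zero] at h1
      have h6 : Function.update a j (1 : ℂ) 2 = 0 :=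
        (mul_eq_zero.1 h5).resolve_left (cbrt_ne_zero ha0)
      have hj : j ≠ 2 := by
        rintro rfl
        simp at h6
      rw [Function.update_of_ne hj.symm] at h6
      exact ⟨h1, hj, h6⟩
    · obtain ⟨⟨l, hl, rfl⟩, h1, h2⟩ := exc_eq_exc_swap hf' hf ha' ha h
      have hj : j ≠ 2 := by
        rintro rfl
        rw [Function.update_of_ne hj'.symm] at h1
        exact h1 ha2
      refine ⟨?_, hj, ?_⟩
      · rw [Pi.add_apply, hf2, zero_add]
        exact PiEis_of_L3 hl 2
      · rw [h2]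
        simp [swapc, hj.symm, Function.update_of_ne hj'.symm, ha2]
  · rintro ⟨h, hj, ha2⟩
    right
    have h1 := L3_neg (vec2_mem_L3 h)
    refine ⟨f + -vec2 (f 2), O3_add hf (L3_subset_O3 h1), j, hj, a, ha, by simp [vec2], ha2, ?_⟩
    exact exc_add_lattice hf h1 j a

/-- `T` in the charts -/
def isT (i : kmAtlas.I) (a : C3) : Prop :=
  match i with
  | none => a 2 ∈ PiEis
  | some (f, j) => f.1 2 ∈ PiEis ∧ j ≠ 2 ∧ a 2 = 0

theorem km_mem_TT (i : kmAtlas.I) {a : C3} (ha : a ∈ kmAtlas.V i) :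
    kmAtlas.Θ i a ∈ TT ↔ isT i a := by
  rcases i with _ | ⟨⟨f, hf⟩, j⟩
  · exact reg_mem_TT ha
  · exact exc_mem_TT hf ha

theorem isT_iff_near {i : kmAtlas.I} {a : C3} (ha : isT i a) :
    ∀ᶠ v : C3 in 𝓝 a, (isT i v ↔ v 2 - a 2 = 0) := by
  rcases i with _ | ⟨⟨f, hf⟩, j⟩
  · have ha' : a 2 ∈ PiEis := ha
    have h1 : ContinuousAt (fun v : C3 => ‖v 2 - a 2‖) a :=
      ((continuous_apply (2 : Fin 3)).sub continuous_const).norm.continuousAt
    have h2 : ∀ᶠ v : C3 in 𝓝 a, ‖v 2 - a 2‖ < 1 :=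
      h1.eventually_lt continuousAt_const (by simp)
    filter_upwards [h2] with v hv
    constructor
    · intro h
      have h' : v 2 ∈ PiEis := h
      exact eq_zero_of_mem_Eis (Eis_sub (PiEis_subset h') (PiEis_subset ha')) hv
    · intro h
      show v 2 ∈ PiEis
      rw [sub_eq_zero.1 h]
      exact ha'
  · obtain ⟨h1, h2, h3⟩ := ha
    refine Eventually.of_forall fun v => ?_
    rw [h3, sub_zero]
    exact ⟨fun h => h.2.2, fun h => ⟨h1, h2, h⟩⟩

theorem isClosed_PiEis : IsClosed PiEis := by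
  refine isClosed_of_pairwise_le_dist one_pos ?_
  intro x hx y hy hxy
  rw [dist_eq_norm]
  exact one_le_norm_Eis (Eis_sub (PiEis_subset hx) (PiEis_subset hy)) (sub_ne_zero.2 hxy)

theorem not_isT_near {i : kmAtlas.I} {a : C3} (ha : ¬ isT i a) :
    ∀ᶠ v : C3 in 𝓝 a, ¬ isT i v := by
  rcases i with _ | ⟨⟨f, hf⟩, j⟩
  · have ha' : a 2 ∉ PiEis := ha
    have h1 : Continuous (fun v : C3 => v 2) := continuous_apply 2
    exact h1.continuousAt (isClosed_PiEis.isOpen_compl.mem_nhds ha')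
  · by_cases h1 : f 2 ∈ PiEis ∧ j ≠ 2
    · have h2 : a 2 ≠ 0 := fun h => ha ⟨h1.1, h1.2, h⟩
      filter_upwards [(continuous_apply (2 : Fin 3)).continuousAt.eventually_ne h2] with v hv h
      exact hv h.2.2
    · refine Eventually.of_forall fun v h => h1 ⟨h.1, h.2.1⟩

theorem not_mem_TT_near {x : KX} (hx : x ∉ TT) : ∀ᶠ y in 𝓝 x, y ∉ TT := by
  obtain ⟨i, a, ha, rfl⟩ := kmAtlas.surj x
  rw [kmNhds i ha, Filter.eventually_map]
  have h1 : ¬ isT i a := fun h => hx ((km_mem_TT i ha).2 h)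
  filter_upwards [not_isT_near h1, (kmAtlas.isOpen_V i).mem_nhds ha] with v hv hvV h
  exact hv ((km_mem_TT i hvV).1 h)

theorem isClosed_TT : IsClosed TT := by
  rw [← isOpen_compl_iff, isOpen_iff_mem_nhds]
  intro x hx
  exact not_mem_TT_near hx

/-! ### `T` is connected -/

/-- parametrization of the plane `z₂ = 0` -/
def plane2 (p : Fin 2 → ℂ) : C3 := ![p 0, p 1, 0]

theorem continuous_plane2 : Continuous plane2 := by
  refine continuous_pi fun i => ?_
  fin_cases i
  · exact continuous_apply 0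
  · exact continuous_apply 1
  · exact continuous_const

theorem isConnected_plane : IsConnected (plane2 ⁻¹' O3ᶜ : Set (Fin 2 → ℂ)) := by
  have h1 : (plane2 ⁻¹' O3).Countable := by
    refine countable_O3.preimage_of_injOn ?_
    intro p _ q _ h
    funext i
    fin_cases i
    · exact congrFun h 0
    · exact congrFun h 1
  refine (h1.isPathConnected_compl_of_one_lt_rank ?_).isConnected
  rw [rank_real_of_complex, rank_fin_fun]
  norm_num

theorem isConnected_TT : IsConnected TT := by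
  have h1 : IsConnected ((fun p => reg (plane2 p)) '' (plane2 ⁻¹' O3ᶜ)) := by
    refine isConnected_plane.image _ fun p hp => ?_
    exact ((holMapAt_reg hp).1.comp continuous_plane2.continuousAt).continuousWithinAt
  refine h1.subset_closure ?_ ?_
  · rintro _ ⟨p, hp, rfl⟩
    exact Or.inl ⟨plane2 p, hp, rfl, rfl⟩
  · rintro x (⟨z, hz, hz2, rfl⟩ | ⟨f, hf, j, hj, a, ha, hf2, ha2, rfl⟩)
    · refine subset_closure ⟨![z 0, z 1], ?_, ?_⟩
      · have : plane2 ![z 0, z 1] = z := by
          funext i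
          fin_cases i
          · rfl
          · rfl
          · exact hz2.symm
        show plane2 ![z 0, z 1] ∈ O3ᶜ
        rw [this]
        exact hz
      · show reg (plane2 ![z 0, z 1]) = reg z
        congr 1
        funext i
        fin_cases i
        · rfl
        · rfl
        · exact hz2.symm
    · -- approximate by nonexceptional points
      have key : ∀ b : C3, b ∈ Vexc j → b j ≠ 0 → b 2 = 0 →
          exc f j b ∈ (fun p => reg (plane2 p)) '' (plane2 ⁻¹' O3ᶜ) := by
        intro b hb hb0 hb2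
        obtain ⟨h2, h3⟩ := exc_eq_reg hf hb hb0
        set w := f + cbrt (b j) • Function.update b j (1 : ℂ) with hw
        have hw2 : w 2 = 0 := by
          rw [hw]
          simp [hf2, Function.update_of_ne hj.symm, hb2]
        have h4 : plane2 ![w 0, w 1] = w := by
          funext i
          fin_cases i
          · rfl
          · rfl
          · exact hw2.symm
        refine ⟨![w 0, w 1], ?_, ?_⟩
        · show plane2 ![w 0, w 1] ∈ O3ᶜ
          rw [h4]; exact h2
        · show reg (plane2 ![w 0, w 1]) = _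
          rw [h4, h3]
      by_cases ha0 : a j = 0
      · have c1 : Continuous (fun ε : ℂ => Function.update a j ε) :=
          continuous_const.update j continuous_id
        have c2 : Tendsto (fun ε : ℂ => Function.update a j ε) (𝓝[≠] 0) (𝓝 a) := by
          have := (c1.tendsto 0).mono_left (nhdsWithin_le_nhds (s := {0}ᶜ))
          rwa [← ha0, Function.update_eq_self, ha0] at this
        have c3 : Tendsto (fun ε : ℂ => exc f j (Function.update a j ε)) (𝓝[≠] 0)
            (𝓝 (exc f j a)) := (holMapAt_exc hf ha).1.tendsto.comp c2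
        refine mem_closure_of_frequently_of_tendsto (Eventually.frequently ?_) c3
        filter_upwards [c2 ((isOpen_Vexc j).mem_nhds ha), self_mem_nhdsWithin] with ε h4 h5
        refine key _ h4 ?_ ?_
        · rw [Function.update_self]; exact h5
        · rw [Function.update_of_ne hj.symm, ha2]
      · exact subset_closure (key a ha ha0 ha2)

/-! ### transition of the local equations -/

/-- transition maps which preserve the local equations of `T` -/
def IsTransT (Θ Θ' : C3 → KX) (a b : C3) : Prop :=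
  ∃ τ : C3 → C3, AnalyticAt ℂ τ a ∧ τ a = b ∧ (∀ᶠ v in 𝓝 a, Θ' (τ v) = Θ v) ∧
    ∃ u : C3 → ℂ, AnalyticAt ℂ u a ∧ u a ≠ 0 ∧ ∀ᶠ v in 𝓝 a, τ v 2 - b 2 = u v * (v 2 - a 2)

theorem IsTransT.comp {Θ Θ' Θ'' : C3 → KX} {a b c : C3} (h : IsTransT Θ Θ' a b)
    (h' : IsTransT Θ' Θ'' b c) : IsTransT Θ Θ'' a c := by
  obtain ⟨τ, hτ, hab, h1, u, hu, hu0, h2⟩ := h
  obtain ⟨σ, hσ, hbc, h3, w, hw, hw0, h4⟩ := h'
  have h5 : Tendsto τ (𝓝 a) (𝓝 b) := by rw [← hab]; exact hτ.continuousAt
  refine ⟨σ ∘ τ, AnalyticAt.comp (by rw [hab]; exact hσ) hτ, by simp [hab, hbc], ?_,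
    fun v => w (τ v) * u v, ?_, ?_, ?_⟩
  · filter_upwards [h1, h5.eventually h3] with v h6 h7
    rw [← h6, ← h7]; rfl
  · have h6 : AnalyticAt ℂ (fun v => w (τ v)) a :=
      AnalyticAt.comp (g := w) (f := τ) (by rw [hab]; exact hw) hτ
    exact h6.mul hu
  · show w (τ a) * u a ≠ 0
    rw [hab]
    exact mul_ne_zero hw0 hu0
  · filter_upwards [h2, h5.eventually h4] with v h6 h7
    show σ (τ v) 2 - c 2 = _
    rw [h7, h6]; ring

theorem transT_reg_reg {z w : C3} (h : kmRel z w) : IsTransT reg reg z w := by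
  obtain ⟨k, l, hl, rfl⟩ := h
  refine ⟨fun z' => om ^ k • z' + l, ?_, rfl, Eventually.of_forall fun z' => ?_,
    fun _ => om ^ k, analyticAt_const, pow_ne_zero _ om_ne_zero, Eventually.of_forall fun v => ?_⟩
  · rw [analyticAt_pi_iff]
    intro i
    exact (analyticAt_const.mul (analyticAt_apply i z)).add analyticAt_const
  · exact (reg_eq_reg.2 ⟨k, l, hl, rfl⟩).symm
  · simp only [Pi.add_apply, Pi.smul_apply, smul_eq_mul]
    ring

theorem transT_reg_exc {f : C3} (hf : f ∈ O3) {j : Fin 3} {z : C3} (hz : z j ≠ f j)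
    (hj : j ≠ 2) (hz2 : z 2 = f 2) : IsTransT reg (exc f j) z (psi f j z) := by
  have h1 : ∀ᶠ z' : C3 in 𝓝 z, z' j ≠ f j :=
    (continuous_apply j).continuousAt.eventually_ne hz
  refine ⟨psi f j, analyticAt_psi f j hz, rfl, ?_, fun v => (v j - f j)⁻¹, ?_, ?_, ?_⟩
  · filter_upwards [h1] with z' hz'
    exact (reg_eq_exc hf j hz').symm
  · exact ((analyticAt_apply j z).sub analyticAt_const).inv (sub_ne_zero.2 hz)
  · exact inv_ne_zero (sub_ne_zero.2 hz)
  · refine Eventually.of_forall fun v => ?_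
    simp only [psi, if_neg hj.symm, hz2, sub_self, zero_div, sub_zero]
    rw [div_eq_inv_mul]

theorem transT_exc_reg {f : C3} (hf : f ∈ O3) {j : Fin 3} {a : C3} (ha : a j ≠ 0)
    (hj : j ≠ 2) (ha2 : a 2 = 0) :
    IsTransT (exc f j) reg a (f + cbrt (a j) • Function.update a j 1) := by
  obtain ⟨c, hc, hcs, hc3, h1, h2, h3⟩ := exists_cbrt_local hf ha
  refine ⟨_, h1, by rw [hcs], ?_, fun v => c (v j), ?_, ?_, ?_⟩
  · filter_upwards [h2] with v hv
    exact hv.symm
  · exact AnalyticAt.comp (g := c) (f := fun a' : C3 => a' j) hc (analyticAt_apply j a)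
  · show c (a j) ≠ 0
    rw [hcs]
    exact cbrt_ne_zero ha
  · refine Eventually.of_forall fun v => ?_
    simp only [Pi.add_apply, Pi.smul_apply, smul_eq_mul, Function.update_of_ne hj.symm, ha2]
    ring

theorem transT_exc_exc_same {f : C3} (hf : f ∈ O3) {j k : Fin 3} {a : C3} (hj : j ≠ 2)
    (hk : k ≠ 2) (ha2 : a 2 = 0) (h : Function.update a j (1 : ℂ) k ≠ 0) :
    IsTransT (exc f j) (exc f k) a (swapc j k a) := by
  have h1 : ∀ᶠ a' : C3 in 𝓝 a, Function.update a' j (1 : ℂ) k ≠ 0 :=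
    (analyticAt_update_one_apply j k a).continuousAt.eventually_ne h
  refine ⟨swapc j k, analyticAt_swapc j k h, rfl, ?_,
    fun v => (Function.update v j (1 : ℂ) k)⁻¹, ?_, inv_ne_zero h, ?_⟩
  · filter_upwards [h1] with v hv
    exact exc_swap hf j k hv
  · exact (analyticAt_update_one_apply j k a).inv h
  · refine Eventually.of_forall fun v => ?_
    simp only [swapc, if_neg hk.symm, Function.update_of_ne hj.symm, ha2, zero_div, sub_zero]
    rw [div_eq_inv_mul]

theorem transT_exc_exc {f f' : C3} (hf : f ∈ O3) (hf' : f' ∈ O3) {j k : Fin 3} {a b : C3}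
    (ha : a ∈ Vexc j) (hb : b ∈ Vexc k) (hj : j ≠ 2) (hk : k ≠ 2) (ha2 : a 2 = 0)
    (h : exc f j a = exc f' k b) : IsTransT (exc f j) (exc f' k) a b := by
  obtain ⟨⟨l, hl, rfl⟩, h1, rfl⟩ := exc_eq_exc_swap hf hf' ha hb h
  have h3 : exc (f + l) k = exc f k := by
    funext v
    exact exc_add_lattice hf hl k v
  rw [h3]
  exact transT_exc_exc_same hf hj hk ha2 h1

theorem transT {i i' : kmAtlas.I} {a b : C3} (ha : a ∈ kmAtlas.V i) (hb : b ∈ kmAtlas.V i')
    (haT : isT i a) (hbT : isT i' b) (h : kmAtlas.Θ i a = kmAtlas.Θ i' b) :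
    IsTransT (kmAtlas.Θ i) (kmAtlas.Θ i') a b := by
  rcases i with _ | ⟨⟨f, hf⟩, j⟩ <;> rcases i' with _ | ⟨⟨f', hf'⟩, j'⟩
  · exact transT_reg_reg (reg_eq_reg.1 h)
  · obtain ⟨h1, h2, h3⟩ := hbT
    obtain ⟨n, l, hl, h4, h5, h6⟩ := reg_eq_exc_psi ha hf' hb h
    have h7 : (om ^ n • a + l) 2 = f' 2 := by
      have h8 : psi f' j' (om ^ n • a + l) 2 = 0 := by rw [← h5]; exact h3
      simp only [psi, if_neg h2.symm] at h8
      rcases div_eq_zero_iff.1 h8 with h9 | h9
      · exact sub_eq_zero.1 h9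
      · exact absurd (sub_eq_zero.1 h9) h4
    have h8 := (transT_reg_reg (z := a) ⟨n, l, hl, rfl⟩).comp (transT_reg_exc hf' h4 h2 h7)
    rw [← h5] at h8
    exact h8
  · obtain ⟨h1, h2, h3⟩ := haT
    have ha0 : a j ≠ 0 := by
      intro h0
      exact exc_ne_reg hf h0 hb h
    have h4 := transT_exc_reg hf ha0 h2 h3
    have h5 : exc f j a = reg b := h
    rw [exc_eq_of_cube hf ha0 (cbrt_cube _), reg_eq_reg] at h5
    exact h4.comp (transT_reg_reg h5)
  · exact transT_exc_exc hf hf' ha hb haT.2.1 hbT.2.1 haT.2.2 h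

/-! ### the divisor -/

/-- translation of a chart -/
noncomputable def translChart (e : OpenPartialHomeomorph KX C3) (c : C3) :
    OpenPartialHomeomorph KX C3 :=
  e.trans (Homeomorph.addRight (-c)).toOpenPartialHomeomorph

theorem translChart_apply (e : OpenPartialHomeomorph KX C3) (c : C3) (x : KX) :
    translChart e c x = e x + -c := rfl

theorem translChart_source (e : OpenPartialHomeomorph KX C3) (c : C3) :
    (translChart e c).source = e.source := by
  simp [translChart]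

theorem translChart_isHolChart {e : OpenPartialHomeomorph KX C3} (he : IsHolChart e) (c : C3) :
    IsHolChart (translChart e c) := by
  intro y hy f
  rw [translChart_source] at hy
  rw [he y hy f]
  have hsymm : ∀ v, (translChart e c).symm v = e.symm (v + c) := by
    intro v
    show e.symm (v + - -c) = e.symm (v + c)
    rw [neg_neg]
  constructor
  · intro h
    have h1 : AnalyticAt ℂ (fun v : C3 => v + c) (translChart e c y) :=
      analyticAt_id.add analyticAt_const
    have h2 : AnalyticAt ℂ ((fun v => f (e.symm v)) ∘ fun v : C3 => v + c)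
        (translChart e c y) := by
      refine AnalyticAt.comp ?_ h1
      rw [translChart_apply]
      simpa using h
    refine h2.congr (Eventually.of_forall fun v => ?_)
    simp only [Function.comp_apply]
    rw [hsymm]
  · intro h
    have h1 : AnalyticAt ℂ (fun v : C3 => v + -c) (e y) :=
      analyticAt_id.add analyticAt_const
    have h2 : AnalyticAt ℂ ((fun v => f ((translChart e c).symm v)) ∘ fun v : C3 => v + -c)
        (e y) := by
      refine AnalyticAt.comp ?_ h1
      exact h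
    refine h2.congr (Eventually.of_forall fun v => ?_)
    simp only [Function.comp_apply]
    rw [hsymm]
    simp

open Classical in
/-- the surface `T` as a simple normal crossing divisor -/
theorem exists_T : ∃ P : SNC 3 Unit KX, P.D () = TT ∧
    (∀ z, z ∉ O3 → ∃ u : C3 → ℂ, AnalyticAt ℂ u z ∧ u z ≠ 0 ∧ ∀ᶠ z' in 𝓝 z,
      P.eq () (reg z) (reg z') = u z' * (if z 2 ∈ PiEis then z' 2 - z 2 else 1)) ∧
    ∀ f ∈ O3, ∀ j, ∀ a ∈ Vexc j, ∃ u : C3 → ℂ, AnalyticAt ℂ u a ∧ u a ≠ 0 ∧ ∀ᶠ a' in 𝓝 a,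
      P.eq () (exc f j a) (exc f j a') =
        u a' * (if f 2 ∈ PiEis ∧ j ≠ 2 ∧ a 2 = 0 then a' 2 else 1) := by
  obtain ⟨ι, α, e, H⟩ := km_exists_charts
  let E : KX → KX → ℂ := fun x y => if x ∈ TT then e x y 2 - α x 2 else 1
  have hET : ∀ {x}, x ∈ TT → ∀ y, E x y = e x y 2 - α x 2 := fun hx y => if_pos hx
  have hEn : ∀ {x}, x ∉ TT → ∀ y, E x y = 1 := fun hx y => if_neg hx
  -- the local equation in the charts
  have key : ∀ (i : kmAtlas.I) (a : C3) (x : KX), a ∈ kmAtlas.V i → kmAtlas.Θ i a = x →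
      ∀ y ∈ TT, x ∈ (e y).source → E y x = 0 → x ∈ TT →
      ∃ u : C3 → ℂ, AnalyticAt ℂ u a ∧ u a ≠ 0 ∧ ∀ᶠ v in 𝓝 a,
        E y (kmAtlas.Θ i v) = u v * (v 2 - a 2) := by
    intro i a x ha hax y hyT hxy h0 hxT
    have hy := H y
    have hb := hy.2.2.2.2.2 _ ((e y).map_source hxy)
    have hb2 : kmAtlas.Θ (ι y) (e y x) = x := by
      rw [← hb.2, (e y).left_inv hxy]
    obtain ⟨τ, hτ, hτa, h1, u, hu, hu0, h2⟩ := transT ha hb.1
      ((km_mem_TT i ha).1 (by rw [hax]; exact hxT))
      ((km_mem_TT (ι y) hb.1).1 (by rw [hb2]; exact hxT)) (by rw [hax, hb2])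
    refine ⟨u, hu, hu0, ?_⟩
    have h3 := chart_eq_lift hy.2.2.2.2.2 (Θ := kmAtlas.Θ i) hτ.continuousAt
      (by rw [hτa]; exact (e y).map_source hxy) h1
    filter_upwards [h2, h3] with v h4 h5
    rw [hET hyT] at h0 ⊢
    rw [h5, ← h4, ← sub_eq_zero.1 h0]
  have hmem : ∀ x, ∀ᶠ y in 𝓝 x, (y ∈ TT ↔ E x y = 0) := by
    intro x
    by_cases hx : x ∈ TT
    · have hH := H x
      have h1 : isT (ι x) (α x) := (km_mem_TT _ hH.1).1 (by rw [hH.2.1]; exact hx)
      have h2 : ∀ᶠ y in 𝓝 x, (isT (ι x) (e x y) ↔ e x y 2 - α x 2 = 0) := by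
        have h3 : Tendsto (e x) (𝓝 x) (𝓝 (α x)) := by
          rw [← hH.2.2.2.2.1]
          exact (e x).continuousAt hH.2.2.2.1
        exact h3.eventually (isT_iff_near h1)
      filter_upwards [h2, (e x).open_source.mem_nhds hH.2.2.2.1] with y h3 h4
      have h5 := hH.2.2.2.2.2 _ ((e x).map_source h4)
      rw [hET hx, ← h3, ← km_mem_TT _ h5.1, ← h5.2, (e x).left_inv h4]
    · filter_upwards [not_mem_TT_near hx] with y hy
      rw [hEn hx]
      simp [hy]
  have hself : ∀ x ∈ TT, E x x = 0 := fun x hx => by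
    rw [hET hx, (H x).2.2.2.2.1, sub_self]
  have hhol : ∀ x, ∀ y ∈ (e x).source, Hol (E x) y := by
    intro x y hy
    by_cases hx : x ∈ TT
    · have h1 : E x = fun y => e x y 2 - α x 2 := funext fun y => hET hx y
      rw [h1]
      exact (H x).2.2.1.hol_apply hy (u := fun v => v 2 - α x 2)
        ((analyticAt_apply 2 _).sub analyticAt_const)
    · have h1 : E x = fun _ => 1 := funext fun y => hEn hx y
      rw [h1]
      exact HolSpace.hol_const _ _
  refine ⟨{ D := fun _ => TT, eq := fun _ => E, isClosed := fun _ => isClosed_TT,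
            isConnected := fun _ => isConnected_TT, hol := fun _ x => hhol x x (H x).2.2.2.1,
            mem_iff := fun _ x => hmem x, snc := ?_, compat := ?_ }, rfl, ?_, ?_⟩
  · intro x
    refine ⟨translChart (e x) (α x), fun _ => 2, translChart_isHolChart (H x).2.2.1 _, ?_, ?_, ?_⟩
    · rw [translChart_source]; exact (H x).2.2.2.1
    · intro a _ b _ _
      rfl
    · intro _ hx
      refine Eventually.of_forall fun y => ?_
      have hx' : x ∈ TT := hx
      show E x y = _
      rw [hET hx', translChart_apply, Pi.add_apply, Pi.neg_apply, sub_eq_add_neg]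
  · intro _ x
    by_cases hx : x ∈ TT
    · filter_upwards [hmem x, (e x).open_source.mem_nhds (H x).2.2.2.1] with y h1 h2
      by_cases hy : y ∈ TT
      · have hH := H y
        obtain ⟨u, hu, hu0, h3⟩ := key (ι y) (α y) y hH.1 hH.2.1 x hx h2 (h1.1 hy) hy
        refine ⟨fun z => u (e y z), ?_, ?_, ?_⟩
        · refine hH.2.2.1.hol_apply hH.2.2.2.1 ?_
          rw [hH.2.2.2.2.1]
          exact hu
        · show u (e y y) ≠ 0
          rw [hH.2.2.2.2.1]
          exact hu0
        · have h4 : Tendsto (e y) (𝓝 y) (𝓝 (α y)) := by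
            rw [← hH.2.2.2.2.1]
            exact (e y).continuousAt hH.2.2.2.1
          filter_upwards [h4.eventually h3, (e y).open_source.mem_nhds hH.2.2.2.1] with z h5 h6
          have h7 := hH.2.2.2.2.2 _ ((e y).map_source h6)
          rw [← h7.2, (e y).left_inv h6] at h5
          rw [h5, hET hy]
      · refine ⟨E x, hhol x y h2, fun h => hy (h1.2 h), Eventually.of_forall fun z => ?_⟩
        rw [hEn hy, mul_one]
    · filter_upwards [not_mem_TT_near hx] with y hy
      refine ⟨fun _ => 1, HolSpace.hol_const _ _, one_ne_zero, Eventually.of_forall fun z => ?_⟩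
      rw [hEn hx, hEn hy, mul_one]
  · intro z hz
    by_cases hT : z 2 ∈ PiEis
    · have hx : reg z ∈ TT := (reg_mem_TT hz).2 hT
      obtain ⟨u, hu, hu0, h3⟩ := key none z (reg z) hz rfl (reg z) hx (H (reg z)).2.2.2.1
        (hself _ hx) hx
      refine ⟨u, hu, hu0, ?_⟩
      filter_upwards [h3] with v hv
      rw [if_pos hT]
      exact hv
    · have hx : reg z ∉ TT := fun h => hT ((reg_mem_TT hz).1 h)
      refine ⟨fun _ => 1, analyticAt_const, one_ne_zero, Eventually.of_forall fun v => ?_⟩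
      rw [if_neg hT]
      show E (reg z) (reg v) = _
      rw [hEn hx, mul_one]
  · intro f hf j a ha
    by_cases hT : f 2 ∈ PiEis ∧ j ≠ 2 ∧ a 2 = 0
    · have hx : exc f j a ∈ TT := (exc_mem_TT hf ha).2 hT
      obtain ⟨u, hu, hu0, h3⟩ := key (some (⟨f, hf⟩, j)) a (exc f j a) ha rfl (exc f j a) hx
        (H (exc f j a)).2.2.2.1 (hself _ hx) hx
      refine ⟨u, hu, hu0, ?_⟩
      filter_upwards [h3] with v hv
      rw [if_pos hT]
      rw [hT.2.2, sub_zero] at hv
      exact hv
    · have hx : exc f j a ∉ TT := fun h => hT ((exc_mem_TT hf ha).1 h)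
      refine ⟨fun _ => 1, analyticAt_const, one_ne_zero, Eventually.of_forall fun v => ?_⟩
      rw [if_neg hT]
      show E (exc f j a) (exc f j v) = _
      rw [hEn hx, mul_one]

end Pool.Agent.helper90.KMMP
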