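import Pool.Agent.helper90.KMMP.Psh
import Pool.Agent.helper90.KMMP.SncTools

/-!
# Divisor classes on compact manifolds

`exists_classEq`: a class plus an `ℝ`-divisor is represented by continuous potentials (a metric on
the line bundles of the components, by a partition of unity).
`psef_of_classEq`: psh potentials plus an effective divisor give a pseudo-effective class.
-/

open scoped Topology ContDiff
open Set Filter Metric

namespace Pool.Agent.helper90.KMMP

/-- data for a metric on the line bundle of one component: positive continuous functions `E x` near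
`x` such that `‖eq x‖ * E x` does not depend on `x` -/
theorem SNC.exists_metric {n : ℕ} {X : Type} [TopologicalSpace X] [HolSpace X] [CompactSpace X]
    [T2Space X] (hX : IsComplexManifold X n) {J : Type} (P : SNC n J X) (j : J) :
    ∃ (m : X → ℝ) (E : X → X → ℝ), ∀ x, ∀ᶠ y in 𝓝 x, ContinuousAt (E x) y ∧ 0 < E x y ∧
      m y = ‖P.eq j x y‖ * E x y := by
  classical
  -- good neighbourhoods
  have hU : ∀ a : X, ∃ U : Set X, IsOpen U ∧ a ∈ U ∧ ∀ y ∈ U, ∃ u : X → ℂ, Hol u y ∧ u y ≠ 0 ∧
      ∀ᶠ z in 𝓝 y, P.eq j a z = u z * P.eq j y z := by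
    intro a
    obtain ⟨U, hU1, hU2, hU3⟩ := eventually_nhds_iff.1 (P.compat j a)
    exact ⟨U, hU2, hU3, hU1⟩
  choose U hUo hUa hUu using hU
  obtain ⟨t, ht⟩ := CompactSpace.elim_nhds_subcover U (fun a => (hUo a).mem_nhds (hUa a))
  obtain ⟨χ, hχ⟩ := PartitionOfUnity.exists_isSubordinate (s := (univ : Set X)) isClosed_univ
    (fun a : t => U a) (fun a => hUo a) (by
      intro x _
      have hx : x ∈ ⋃ a ∈ t, U a := by rw [ht]; trivial
      simp only [mem_iUnion] at hx ⊢
      obtain ⟨a, ha, hxa⟩ := hx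
      exact ⟨⟨a, ha⟩, hxa⟩)
  have hsum : ∀ x, ∑ a : t, χ a x = 1 := by
    intro x
    have := χ.sum_eq_one (mem_univ x)
    rwa [finsum_eq_sum_of_fintype] at this
  -- the units
  have hu : ∀ (a : t) (x : X), ∃ u : X → ℂ, Hol u x ∧ u x ≠ 0 ∧
      (x ∈ U a → ∀ᶠ z in 𝓝 x, P.eq j a z = u z * P.eq j x z) := by
    intro a x
    by_cases hx : x ∈ U a
    · obtain ⟨u, h1, h2, h3⟩ := hUu a x hx
      exact ⟨u, h1, h2, fun _ => h3⟩
    · exact ⟨fun _ => 1, HolSpace.hol_const 1 x, one_ne_zero, fun h => absurd h hx⟩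
  choose u hu1 hu2 hu3 using hu
  refine ⟨fun y => ∑ a : t, χ a y * ‖P.eq j a y‖, fun x y => ∑ a : t, χ a y * ‖u a x y‖, ?_⟩
  intro x
  have hc : ∀ᶠ y in 𝓝 x, ContinuousAt (fun y => ∑ a : t, χ a y * ‖u a x y‖) y := by
    have h1 : ∀ᶠ y in 𝓝 x, ∀ a : t, ContinuousAt (u a x) y := by
      rw [eventually_all]
      intro a
      filter_upwards [HolSpace.hol_eventually (hu1 a x)] with y hy
      exact Hol.continuousAt hX.isComplexSpace hy
    filter_upwards [h1] with y hy
    apply tendsto_finsetSum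
    intro a _
    exact (χ a).continuous.continuousAt.mul (hy a).norm
  have hpos : 0 < ∑ a : t, χ a x * ‖u a x x‖ := by
    obtain ⟨a, ha⟩ : ∃ a : t, 0 < χ a x := by
      by_contra hcon
      push Not at hcon
      have : ∑ a : t, χ a x ≤ 0 := Finset.sum_nonpos fun a _ => hcon a
      rw [hsum x] at this
      linarith
    apply Finset.sum_pos' (fun a _ => mul_nonneg (χ.nonneg a x) (norm_nonneg _))
    exact ⟨a, Finset.mem_univ a, mul_pos ha (norm_pos_iff.2 (hu2 a x))⟩
  have hpos' : ∀ᶠ y in 𝓝 x, 0 < ∑ a : t, χ a y * ‖u a x y‖ :=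
    hc.self_of_nhds.eventually (lt_mem_nhds hpos)
  have heq : ∀ᶠ y in 𝓝 x, ∀ a : t, χ a y * ‖P.eq j a y‖ = ‖P.eq j x y‖ * (χ a y * ‖u a x y‖) := by
    rw [eventually_all]
    intro a
    by_cases hx : x ∈ U a
    · filter_upwards [hu3 a x hx] with y hy
      rw [hy, norm_mul]; ring
    · have h1 : x ∉ tsupport (χ a) := fun h => hx (hχ a h)
      have h2 : ∀ᶠ y in 𝓝 x, χ a y = 0 := by
        filter_upwards [(isClosed_tsupport (χ a)).isOpen_compl.mem_nhds h1] with y hy
        exact image_eq_zero_of_notMem_tsupport hy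
      filter_upwards [h2] with y hy
      rw [hy]; ring
  filter_upwards [hc, hpos', heq] with y h1 h2 h3
  refine ⟨h1, h2, ?_⟩
  rw [Finset.mul_sum]
  exact Finset.sum_congr rfl fun a _ => h3 a

/-- on a compact manifold, every `ℝ`-divisor class plus a class is represented by continuous
potentials -/
theorem exists_classEq {n : ℕ} {X : Type} [TopologicalSpace X] [HolSpace X] [CompactSpace X]
    [T2Space X] (hX : IsComplexManifold X n) {J : Type} [Fintype J] (P : SNC n J X) (b : J → ℝ)
    (v : LocPot X) : ∃ γ : LocPot X, ClassEq P b γ.pot v.pot := by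
  choose m E hE using fun j => P.exists_metric hX j
  have hE' : ∀ x, ∀ᶠ y in 𝓝 x, ∀ j, ContinuousAt (E j x) y ∧ 0 < E j x y ∧
      m j y = ‖P.eq j x y‖ * E j x y := by
    intro x
    rw [eventually_all]
    exact fun j => hE j x
  have hcl : ∀ x, ∀ᶠ y in 𝓝 x, ContinuousAt (fun y => ∑ j, b j * Real.log (E j x y)) y := by
    intro x
    filter_upwards [hE' x] with y hy
    apply tendsto_finsetSum
    intro j _
    exact ((hy j).1.log (hy j).2.1.ne').const_mul _
  have hmem : ∀ x, ∀ᶠ y in 𝓝 x, ∀ j, (y ∈ P.D j ↔ P.eq j x y = 0) := by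
    intro x
    rw [eventually_all]
    exact fun j => P.mem_iff j x
  refine ⟨⟨fun x y => v.pot x y - ∑ j, b j * Real.log (E j x y), ?_, ?_⟩, ?_⟩
  · intro x
    filter_upwards [v.cont x, hcl x] with y h1 h2
    exact h1.sub h2
  · intro x
    have hcomp : ∀ᶠ y in 𝓝 x, ∀ j, ∃ u : X → ℂ, Hol u y ∧ u y ≠ 0 ∧
        ∀ᶠ z in 𝓝 y, P.eq j x z = u z * P.eq j y z := by
      rw [eventually_all]
      exact fun j => P.compat j x
    filter_upwards [v.compat x, hcomp, (hE' x).eventually_nhds] with y h1 h2 h3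
    choose u hu1 hu2 hu3 using h2
    -- `log E x - log E y = - log |u|`
    have hlog : ∀ j, ∀ᶠ z in 𝓝 y, Real.log (E j x z) - Real.log (E j y z) =
        - Real.log ‖u j z‖ := by
      intro j
      have hu0 : ∀ᶠ z in 𝓝 y, u j z ≠ 0 :=
        (Hol.continuousAt hX.isComplexSpace (hu1 j)).eventually_ne (hu2 j)
      -- off the divisor
      have hoff : ∀ᶠ z in 𝓝 y, (∀ i, z ∉ P.D i) → Real.log (E j x z) - Real.log (E j y z) +
          Real.log ‖u j z‖ = 0 := by
        filter_upwards [h3, hE' y, hu3 j, hu0, hmem y] with z h4 h5 h6 h7 h8 h9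
        have h10 : P.eq j y z ≠ 0 := fun h => h9 j ((h8 j).2 h)
        have h11 := (h4 j).2.2
        have h12 := (h5 j).2.2
        rw [h11, h6, norm_mul] at h12
        have h13 : ‖P.eq j y z‖ ≠ 0 := norm_ne_zero_iff.2 h10
        have h14 : ‖u j z‖ * E j x z = E j y z := by
          have : ‖P.eq j y z‖ * (‖u j z‖ * E j x z) = ‖P.eq j y z‖ * E j y z := by
            rw [← h12]; ring
          exact mul_left_cancel₀ h13 this
        rw [← h14, Real.log_mul (norm_ne_zero_iff.2 h7) (h4 j).2.1.ne']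
        ring
      have hcont : ∀ᶠ z in 𝓝 y, ContinuousAt (fun z => Real.log (E j x z) - Real.log (E j y z) +
          Real.log ‖u j z‖) z := by
        filter_upwards [h3, hE' y, HolSpace.hol_eventually (hu1 j), hu0] with z h4 h5 h6 h7
        exact (((h4 j).1.log (h4 j).2.1.ne').sub ((h5 j).1.log (h5 j).2.1.ne')).add
          ((Hol.continuousAt hX.isComplexSpace h6).norm.log (norm_ne_zero_iff.2 h7))
      filter_upwards [hoff.eventually_nhds, hcont] with z h4 h5
      have hne : (𝓝[{x | ∀ i, x ∉ P.D i}] z).NeBot :=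
        mem_closure_iff_nhdsWithin_neBot.1 (P.dense_compl' z)
      have t1 : Tendsto (fun z => Real.log (E j x z) - Real.log (E j y z) + Real.log ‖u j z‖)
          (𝓝[{x | ∀ i, x ∉ P.D i}] z) (𝓝 (Real.log (E j x z) - Real.log (E j y z) +
          Real.log ‖u j z‖)) := h5.tendsto.mono_left nhdsWithin_le_nhds
      have t2 : Tendsto (fun z => Real.log (E j x z) - Real.log (E j y z) + Real.log ‖u j z‖)
          (𝓝[{x | ∀ i, x ∉ P.D i}] z) (𝓝 0) := by
        apply tendsto_const_nhds.congr'
        filter_upwards [self_mem_nhdsWithin, nhdsWithin_le_nhds h4] with z' h6 h7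
        exact (h7 h6).symm
      have := tendsto_nhds_unique t1 t2
      linarith
    have hPH : PHAt (fun z => ∑ j, b j * Real.log ‖u j z‖) y := by
      apply PHAt.sum
      intro j _
      exact PHAt.const_mul _ (phAt_log hX (hu1 j) (hu2 j))
    apply (h1.add hPH).congr
    have hall : ∀ᶠ z in 𝓝 y, ∀ j, Real.log (E j x z) - Real.log (E j y z) =
        - Real.log ‖u j z‖ := by
      rw [eventually_all]; exact hlog
    filter_upwards [hall] with z hz
    have h4 : ∑ j, b j * Real.log ‖u j z‖ = ∑ j, b j * Real.log (E j y z) -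
        ∑ j, b j * Real.log (E j x z) := by
      rw [← Finset.sum_sub_distrib]
      apply Finset.sum_congr rfl
      intro j _
      have := hz j
      have h5 : Real.log ‖u j z‖ = Real.log (E j y z) - Real.log (E j x z) := by linarith
      rw [h5]; ring
    rw [h4]; ring
  · refine ⟨fun y => - ∑ j, b j * Real.log (m j y), fun x => ⟨fun _ => 0, HolSpace.hol_const 0 x,
      ?_⟩⟩
    filter_upwards [hE' x, hmem x] with y h1 h2 h3
    have h4 : ∀ j, Real.log (m j y) = Real.log ‖P.eq j x y‖ + Real.log (E j x y) := by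
      intro j
      rw [(h1 j).2.2, Real.log_mul (norm_ne_zero_iff.2 fun h => h3 j ((h2 j).2 h))
        (h1 j).2.1.ne']
    simp only [h4, mul_add, Finset.sum_add_distrib, Complex.zero_re]
    ring

/-- if `v` has psh potentials and `b ≥ 0`, then `[v] + b D` is pseudo-effective -/
theorem psef_of_classEq {n : ℕ} {X : Type} [TopologicalSpace X] [HolSpace X] [CompactSpace X]
    [T2Space X] (hX : IsComplexManifold X n) {J : Type} [Fintype J] (P : SNC n J X) (b : J → ℝ)
    (hb : ∀ j, 0 ≤ b j) (v : LocPot X) (hv : ∀ x, PshAt (fun y => (v.pot x y : EReal)) x)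
    (γ : LocPot X) (h : ClassEq P b γ.pot v.pot) : IsPsef γ := by
  obtain ⟨h, hh⟩ := h
  choose F hF hFe using hh
  set ψ : X → X → ℝ := fun x y => v.pot x y - γ.pot x y + (F x y).re with hψ
  have hψc : ∀ x, ∀ᶠ y in 𝓝 x, ContinuousAt (ψ x) y := by
    intro x
    filter_upwards [v.cont x, γ.cont x, HolSpace.hol_eventually (hF x)] with y h1 h2 h3
    exact (h1.sub h2).add
      (Complex.continuous_re.continuousAt.comp (Hol.continuousAt hX.isComplexSpace h3))
  have hglue := P.QL_glue hX hb hψc (h := fun y => - h y) (fun x => by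
    filter_upwards [hFe x] with y h1 h2
    have := h1 h2
    simp only [hψ]
    linarith)
  refine ⟨fun y => QL (ψ y) b (fun j => P.eq j y) y, ?_, ?_⟩
  · apply P.dense_compl'.mono
    intro x hx
    change QL (ψ x) b (fun j => P.eq j x) x ≠ ⊥
    rw [QL, if_neg]
    · exact EReal.coe_ne_bot _
    · rintro ⟨j, -, hj⟩
      exact hx j ((P.mem_iff j x).self_of_nhds.2 hj)
  · intro x
    have hPHF : PHAt (fun y => (F x y).re) x := ⟨F x, hF x, Eventually.of_forall fun _ => rfl⟩
    have hFc : ∀ᶠ y in 𝓝 x, ContinuousAt (fun y => (F x y).re) y := by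
      filter_upwards [HolSpace.hol_eventually (hF x)] with y h3
      exact Complex.continuous_re.continuousAt.comp (Hol.continuousAt hX.isComplexSpace h3)
    have h1 : PshAt (fun y => ((v.pot x y + (F x y).re : ℝ) : EReal)) x := by
      apply ((hv x).add_coe (hPHF.pshAt hX) hFc).congr
      filter_upwards with y
      rw [EReal.coe_add]
    have h2 : ∀ᶠ y in 𝓝 x, ContinuousAt (fun y => v.pot x y + (F x y).re) y := by
      filter_upwards [v.cont x, hFc] with y h3 h4
      exact h3.add h4
    have h3 := pshAt_QL hX h1 h2 hb (f := fun j => P.eq j x) (fun j => P.hol j x)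
    apply h3.congr
    filter_upwards [hglue x] with y hy
    rw [hy]
    by_cases h0 : ∃ j, b j ≠ 0 ∧ P.eq j x y = 0
    · simp only [QL, if_pos h0]
      rw [EReal.add_bot]
    · simp only [QL, if_neg h0]
      rw [← EReal.coe_add]
      congr 1
      simp only [hψ]
      ring

end Pool.Agent.helper90.KMMP
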