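import Pool.Agent.helper90.KMMP.KXPot4

/-!
# `θ` is nef
-/

set_option linter.unusedSectionVars false
set_option linter.unusedVariables false

open scoped Topology ContDiff
open Set Filter Metric MeasureTheory

namespace Pool.Agent.helper90.KMMP
namespace KP

/-- the gluing constant -/
noncomputable def cN (ε : ℝ) : ℝ := ε * gap0 / 2

theorem cN_pos {ε : ℝ} (hε : 0 < ε) : 0 < cN ε := by
  unfold cN
  have := gap0_pos
  positivity

/-- the gluing variable -/
noncomputable def XN (ε : ℝ) (w : C3) : ℝ := ‖LL w‖ ^ 2 + ε * radD (sqn w) - cN ε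

/-- the gluing function in the ball of radius `1/8` -/
noncomputable def bN0 (ε : ℝ) (w : C3) : ℝ :=
  cN ε * cvx (1 / cN ε * XN ε w) - XN ε w + cN ε * cvx0

/-- the gluing function -/
noncomputable def bN (ε : ℝ) (w : C3) : ℝ := if sqn w < 1 / 8 then bN0 ε w else 0

theorem bN0_zero {ε : ℝ} (hε : 0 < ε) {w : C3} (h1 : 3 / 32 ≤ sqn w) (h2 : sqn w ≤ 1 / 8) :
    bN0 ε w = 0 := by
  have hc := cN_pos hε
  have h3 := gap0_le h1 h2
  have h4 : cN ε ≤ XN ε w := by
    unfold XN
    have h5 : ε * gap0 ≤ ε * radD (sqn w) := mul_le_mul_of_nonneg_left h3 hε.le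
    have h6 : ε * gap0 = 2 * cN ε := by unfold cN; ring
    have h7 : 0 ≤ ‖LL w‖ ^ 2 := by positivity
    linarith
  have h5 : 1 ≤ 1 / cN ε * XN ε w := by
    rw [one_div, ← div_eq_inv_mul, le_div_iff₀ hc, one_mul]
    exact h4
  unfold bN0
  rw [cvx_eq h5]
  field_simp
  ring

theorem bN_zero' {ε : ℝ} (hε : 0 < ε) {w : C3} (h1 : 3 / 32 ≤ sqn w) : bN ε w = 0 := by
  unfold bN
  split_ifs with h
  · exact bN0_zero hε h1 h.le
  · rfl

theorem bN_zero {ε : ℝ} {w : C3} (h1 : 1 / 8 ≤ sqn w) : bN ε w = 0 := by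
  unfold bN
  rw [if_neg (not_lt.2 h1)]

theorem bN_om (ε : ℝ) (w : C3) : bN ε (om • w) = bN ε w := by
  have h1 := sqn_om_pow 1 w
  rw [pow_one] at h1
  have h2 : ‖LL (om • w)‖ ^ 2 = ‖LL w‖ ^ 2 := by rw [LL_smul', norm_mul, norm_om, one_mul]
  unfold bN bN0 XN
  rw [h1, h2]

theorem contDiffAt_XN (ε : ℝ) (w : C3) {m : WithTop ℕ∞} (hm : m ≤ ∞) :
    ContDiffAt ℝ m (XN ε) w := by
  unfold XN
  exact ((contDiffAt_normSq_comp (analyticAt_LL w)).add (contDiffAt_const.mul
    (((contDiff_radD.of_le hm).contDiffAt).comp w contDiff_sqn.contDiffAt))).sub contDiffAt_const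

theorem contDiffAt_cvxX (ε : ℝ) (w : C3) {m : WithTop ℕ∞} (hm : m ≤ ∞) :
    ContDiffAt ℝ m (fun w => cN ε * cvx (1 / cN ε * XN ε w)) w := by
  have h1 : ContDiffAt ℝ m (fun w => 1 / cN ε * XN ε w) w :=
    contDiffAt_const.mul (contDiffAt_XN ε w hm)
  exact contDiffAt_const.mul ((contDiff_cvx.of_le hm).contDiffAt.comp w h1)

theorem contDiffAt_bN0 (ε : ℝ) (w : C3) {m : WithTop ℕ∞} (hm : m ≤ ∞) :
    ContDiffAt ℝ m (bN0 ε) w := by
  unfold bN0
  exact ((contDiffAt_cvxX ε w hm).sub (contDiffAt_XN ε w hm)).add contDiffAt_const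

theorem bN_eventually {ε : ℝ} {w : C3} (h : sqn w < 1 / 8) : bN ε =ᶠ[𝓝 w] bN0 ε := by
  filter_upwards [continuous_sqn.continuousAt.eventually (gt_mem_nhds h)] with w' hw'
  unfold bN
  rw [if_pos hw']

theorem bN_eventually_zero {ε : ℝ} (hε : 0 < ε) {w : C3} (h : 3 / 32 < sqn w) :
    bN ε =ᶠ[𝓝 w] fun _ => 0 := by
  filter_upwards [continuous_sqn.continuousAt.eventually (lt_mem_nhds h)] with w' hw'
  exact bN_zero' hε hw'.le

theorem continuousAt_bN {ε : ℝ} (hε : 0 < ε) (w : C3) : ContinuousAt (bN ε) w := by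
  rcases lt_or_ge (sqn w) (1 / 8) with h | h
  · exact (contDiffAt_bN0 ε w (m := 0) (by simp)).continuousAt.congr (bN_eventually h).symm
  · exact continuousAt_const.congr (bN_eventually_zero hε (by linarith)).symm

theorem fderiv_LL (w v : C3) : fderiv ℂ LL w v = LL v := by
  let L : C3 →L[ℂ] ℂ := ContinuousLinearMap.proj (R := ℂ) (φ := fun _ : Fin 3 => ℂ) 0 +
    (Real.sqrt 2 : ℂ) • ContinuousLinearMap.proj (R := ℂ) (φ := fun _ : Fin 3 => ℂ) 1
  have h : HasFDerivAt LL L w := L.hasFDerivAt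
  rw [h.fderiv]
  rfl

theorem levi_LL (w v : C3) : levi (fun w => ‖LL w‖ ^ 2) w v = 4 * ‖LL v‖ ^ 2 := by
  rw [levi_normSq_comp (analyticAt_LL w), fderiv_LL]

theorem contDiffAt_radD_sqn (w : C3) : ContDiffAt ℝ 2 (fun w : C3 => radD (sqn w)) w :=
  ((contDiff_radD.of_le two_le_infty).contDiffAt).comp w contDiff_sqn.contDiffAt

theorem contDiffAt_LLsq (w : C3) {m : WithTop ℕ∞} : ContDiffAt ℝ m (fun w => ‖LL w‖ ^ 2) w :=
  contDiffAt_normSq_comp (analyticAt_LL w)

theorem levi_const_fun (c : ℝ) (w v : C3) : levi (fun _ : C3 => c) w v = 0 := by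
  simp [levi, hess]

theorem levi_XN (ε : ℝ) (w v : C3) :
    levi (XN ε) w v = 4 * ‖LL v‖ ^ 2 + ε * levi (fun w => radD (sqn w)) w v := by
  unfold XN
  rw [levi_sub ((contDiffAt_LLsq w).add (contDiffAt_const.mul (contDiffAt_radD_sqn w)))
    contDiffAt_const, levi_add (contDiffAt_LLsq w) (contDiffAt_const.mul (contDiffAt_radD_sqn w)),
    levi_const_mul _ (contDiffAt_radD_sqn w), levi_const_fun, levi_LL, sub_zero]

theorem levi_cvxX_ge {ε : ℝ} (hε : 0 < ε) (w v : C3) :
    Real.smoothTransition (1 / cN ε * XN ε w) * levi (XN ε) w v ≤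
      levi (fun w => cN ε * cvx (1 / cN ε * XN ε w)) w v := by
  have hc := cN_pos hε
  have hX : ContDiffAt ℝ 2 (XN ε) w := contDiffAt_XN ε w two_le_infty
  have h1 : ContDiffAt ℝ 2 (fun w => 1 / cN ε * XN ε w) w := contDiffAt_const.mul hX
  have h2 : ContDiffAt ℝ 2 cvx (1 / cN ε * XN ε w) := (contDiff_cvx.of_le two_le_infty).contDiffAt
  have h3 : ContDiffAt ℝ 2 (fun w => cvx (1 / cN ε * XN ε w)) w :=
    ContDiffAt.comp w (g := cvx) (f := fun w => 1 / cN ε * XN ε w) h2 h1
  rw [levi_const_mul _ h3, levi_real_comp (ψ := cvx) h1 h2, levi_const_mul _ hX, deriv_cvx]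
  have h4 := deriv_deriv_cvx_nonneg (1 / cN ε * XN ε w)
  rw [deriv_cvx] at h4
  have h5 : cN ε * (Real.smoothTransition (1 / cN ε * XN ε w) * (1 / cN ε * levi (XN ε) w v)) =
      Real.smoothTransition (1 / cN ε * XN ε w) * levi (XN ε) w v := by
    field_simp
  rw [mul_add, h5]
  have h6 : 0 ≤ cN ε * (deriv Real.smoothTransition (1 / cN ε * XN ε w) *
      ((fderiv ℝ (fun w => 1 / cN ε * XN ε w) w v) ^ 2 +
        (fderiv ℝ (fun w => 1 / cN ε * XN ε w) w (Complex.I • v)) ^ 2)) := by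
    refine mul_nonneg hc.le (mul_nonneg h4 (by positivity))
  linarith

/-- the total potential in the inner ball -/
noncomputable def inner (ε : ℝ) (w : C3) : ℝ :=
  ε * radF0 (sqn w) + cN ε * cvx (1 / cN ε * XN ε w)

theorem contDiffAt_radF0_sqn {w : C3} (hw : w ≠ 0) {m : WithTop ℕ∞} (hm : m ≤ ∞) :
    ContDiffAt ℝ m (fun w : C3 => radF0 (sqn w)) w :=
  ((contDiffAt_radF0 (sqn_pos hw)).of_le hm).comp w contDiff_sqn.contDiffAt

theorem contDiffAt_inner (ε : ℝ) {w : C3} (hw : w ≠ 0) {m : WithTop ℕ∞} (hm : m ≤ ∞) :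
    ContDiffAt ℝ m (inner ε) w :=
  (contDiffAt_const.mul (contDiffAt_radF0_sqn hw hm)).add (contDiffAt_cvxX ε w hm)

theorem levi_inner_pos {ε : ℝ} (hε : 0 < ε) {w : C3} (hw : w ≠ 0) {v : C3} (hv : v ≠ 0) :
    0 < levi (inner ε) w v := by
  have h0 := contDiffAt_radF0_sqn hw two_le_infty
  have h1 : levi (inner ε) w v = ε * levi (fun w => radF0 (sqn w)) w v +
      levi (fun w => cN ε * cvx (1 / cN ε * XN ε w)) w v := by
    unfold inner
    rw [levi_add (contDiffAt_const.mul h0) (contDiffAt_cvxX ε w two_le_infty), levi_const_mul _ h0]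
  have h2 := levi_cvxX_ge hε w v
  rw [levi_XN] at h2
  have h3 := levi_radF0_pos (sqn_pos hw) hv
  have h4 := levi_radF_pos (sqn_pos hw) hv
  have h5 : levi (fun w : C3 => radF (sqn w)) w v = levi (fun w : C3 => radF0 (sqn w)) w v +
      levi (fun w => radD (sqn w)) w v := by
    simp only [radF_eq_add]
    exact levi_add h0 (contDiffAt_radD_sqn w) v
  rw [h5] at h4
  have hS0 := Real.smoothTransition.nonneg (1 / cN ε * XN ε w)
  have hS1 := Real.smoothTransition.le_one (1 / cN ε * XN ε w)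
  set S := Real.smoothTransition (1 / cN ε * XN ε w)
  set A := levi (fun w : C3 => radF0 (sqn w)) w v
  set D := levi (fun w : C3 => radD (sqn w)) w v
  rw [h1]
  have h6 : 0 ≤ 4 * ‖LL v‖ ^ 2 * S := by positivity
  have h7 : 0 < (1 - S) * A + S * (A + D) := by
    rcases hS0.eq_or_lt with h8 | h8
    · rw [← h8]; simpa using h3
    · have h9 : 0 ≤ (1 - S) * A := mul_nonneg (by linarith) h3.le
      have h10 : 0 < S * (A + D) := mul_pos h8 h4
      linarith
  have h8 : 0 < ε * ((1 - S) * A + S * (A + D)) := mul_pos hε h7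
  nlinarith

/-- the gluing function on `X` -/
noncomputable def hN (ε : ℝ) : KX → ℝ :=
  Quotient.lift (fun p : C3 × PP2 => ballB (bN ε) p.1)
    (fun p q h => ballB_kmRel (bN_om ε) (h : kmRel p.1 q.1 ∧ _).1)

theorem hN_reg (ε : ℝ) (z : C3) : hN ε (reg z) = ballB (bN ε) z := rfl

theorem hN_exc {ε : ℝ} {f : C3} (hf : f ∈ O3) {j : Fin 3} {a : C3} (ha : a ∈ Vexc j) :
    hN ε (exc f j a) = bN ε (cbrt (a j) • Function.update a j 1) := by
  by_cases h0 : a j = 0
  · have h1 : hN ε (exc f j a) = ballB (bN ε) f := by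
      unfold exc
      rw [if_pos h0]
      rfl
    have h2 : cbrt (a j) = 0 := by
      rw [h0]; unfold cbrt
      exact Complex.zero_cpow (by norm_num)
    rw [h1, h2, zero_smul, ballB_box (fun w hw => bN_zero hw) hf (by simp), sub_self]
  · have h1 : hN ε (exc f j a) = ballB (bN ε) (f + cbrt (a j) • Function.update a j 1) := by
      unfold exc
      rw [if_neg h0]
      rfl
    rw [h1, ballB_box (fun w hw => bN_zero hw) hf, add_sub_cancel_left]
    intro i
    have h7 := norm_lt_half_of_mem_Vexc (j := j) ha (cbrt_cube (a j))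
    rw [Pi.add_apply, add_sub_cancel_left]
    exact (norm_le_pi_norm _ i).trans_lt h7

theorem hN_exc_eventually {ε : ℝ} (hε : 0 < ε) {f : C3} (hf : f ∈ O3) {j : Fin 3} {a : C3}
    (ha : a j = 0) : ∀ᶠ a' in 𝓝 a, hN ε (exc f j a') = cN ε + cN ε * cvx0 - thetaExc j a' := by
  have hc := cN_pos hε
  have h1 : Continuous fun a' : C3 => ‖a' j‖ ^ (2 / 3 : ℝ) * mm j a' :=
    (((continuous_apply j).norm).rpow_const fun _ => Or.inr (by norm_num)).mul (continuous_mm j)
  have h2 : ‖a j‖ ^ (2 / 3 : ℝ) * mm j a < 1 / 16 := by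
    rw [ha, norm_zero, Real.zero_rpow (by norm_num), zero_mul]; norm_num
  have h3 : thetaExc j a < cN ε := by
    unfold thetaExc
    rw [ha, norm_zero, Real.zero_rpow (by norm_num), zero_mul]; exact hc
  filter_upwards [h1.continuousAt.eventually (gt_mem_nhds h2),
    (continuousOn_thetaExc j).continuousAt.eventually (gt_mem_nhds h3),
    (isOpen_Vexc j).mem_nhds (mem_Vexc_of_eq_zero ha)] with a' h4 h5 h6
  have h7 : sqn (cbrt (a' j) • Function.update a' j (1 : ℂ)) =
      ‖a' j‖ ^ (2 / 3 : ℝ) * mm j a' := by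
    rw [sqn_smul]
    nth_rewrite 2 [← cbrt_cube (a' j)]
    rw [norm_cube_rpow]
    rfl
  have h8 : ‖LL (cbrt (a' j) • Function.update a' j (1 : ℂ))‖ ^ 2 = thetaExc j a' :=
    (thetaExc_of_cube (cbrt_cube (a' j))).symm
  have h9 : XN ε (cbrt (a' j) • Function.update a' j (1 : ℂ)) = thetaExc j a' - cN ε := by
    unfold XN
    rw [h7, h8, radD_zero h4.le]
    ring
  rw [hN_exc hf h6]
  unfold bN
  rw [if_pos (by rw [h7]; linarith)]
  unfold bN0
  rw [h9, cvx_zero]
  · ring
  · have : 0 < 1 / cN ε := by positivity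
    exact mul_nonpos_of_nonneg_of_nonpos this.le (by linarith)

theorem continuous_hN {ε : ℝ} (hε : 0 < ε) : Continuous (hN ε) := by
  rw [continuous_iff_continuousAt]
  intro x
  rcases exists_reg_or_exc x with ⟨z, hz, rfl⟩ | ⟨f, hf, j, a, ha, ha0, rfl⟩
  · exact (kmAtlas_compatible.continuousAt_iff (hN ε) none z hz).2
      (continuousAt_ballB (fun w hw => bN_zero hw) (fun w _ => continuousAt_bN hε w) hz)
  · refine (kmAtlas_compatible.continuousAt_iff (hN ε) (some (⟨f, hf⟩, j)) a ha).2 ?_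
    have h1 : ContinuousAt (fun a' => cN ε + cN ε * cvx0 - thetaExc j a') a :=
      continuousAt_const.sub (continuousOn_thetaExc j).continuousAt
    refine h1.congr ?_
    filter_upwards [hN_exc_eventually hε hf ha0] with a' ha'
    exact ha'.symm

/-- `θ + ε κ` contains a Kähler form -/
theorem smooth_sum {θ κ : LocPot KX} (hθ : HasPot θ (fun z => ‖LL z‖ ^ 2) thetaExc)
    (hκ : HasPot κ potReg potExc) {ε : ℝ} (hε : 0 < ε) (x : KX) :
    SmoothStrictlyPshAt (fun y => θ.pot x y + ε * κ.pot x y + hN ε y) x := by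
  rcases exists_reg_or_exc x with ⟨z, hz, rfl⟩ | ⟨f, hf, j, a, ha, ha0, rfl⟩
  · have hPH : PHAt (fun z' => θ.pot (reg z) (reg z') + ε * κ.pot (reg z) (reg z') -
        (‖LL z'‖ ^ 2 + ε * potReg z')) z := by
      refine ((hθ.1 z hz).add ((hκ.1 z hz).const_mul ε)).congr ?_
      exact Eventually.of_forall fun z' => by ring
    by_cases h : ∃ f ∈ O3, sqn (z - f) < 1 / 4
    · obtain ⟨f, hf, h⟩ := h
      have h0 := sub_ne_zero_of_O3 hz hf
      have hLL : PHAt (fun z' : C3 => ‖LL z'‖ ^ 2 - ‖LL (z' - f)‖ ^ 2) z := by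
        refine (phAt_LL_sub (u := 1) (by simp) (-f) z).congr ?_
        exact Eventually.of_forall fun z' => by simp only [one_smul, sub_eq_add_neg]
      have hPH2 : PHAt (fun z' => θ.pot (reg z) (reg z') + ε * κ.pot (reg z) (reg z') -
          (‖LL (z' - f)‖ ^ 2 + ε * radF (sqn (z' - f)))) z := by
        refine ((hPH.add hLL).add ((sqn_sub_phAt f z).const_mul ε)).congr ?_
        filter_upwards [potReg_eventually hf h] with z' hz'
        rw [hz']
        ring
      rcases lt_or_ge (sqn (z - f)) (1 / 8) with h8 | h8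
      · -- inner ball
        refine smooth_reg hz (Q := fun z' => inner ε (z' - f))
          (contDiffAt_translate (contDiffAt_inner ε h0 le_rfl)) (fun v hv => ?_) ?_
        · rw [levi_translate (contDiffAt_inner ε h0 two_le_infty)]
          exact levi_inner_pos hε h0 hv
        · refine (hPH2.add (phAt_const (cN ε + cN ε * cvx0) z)).congr ?_
          have h9 : ∀ᶠ z' in 𝓝 z, bN ε (z' - f) = bN0 ε (z' - f) := by
            have : Tendsto (fun z' : C3 => z' - f) (𝓝 z) (𝓝 (z - f)) := by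
              have : Continuous fun z' : C3 => z' - f := by fun_prop
              exact this.continuousAt
            exact this.eventually (bN_eventually h8)
          filter_upwards [ballB_eventually_eq (b := bN ε) hf h, h9] with z' h10 h11
          rw [hN_reg, h10, h11, radF_eq_add]
          unfold bN0 inner
          have h12 : XN ε (z' - f) = ‖LL (z' - f)‖ ^ 2 + ε * radD (sqn (z' - f)) - cN ε := rfl
          rw [h12]
          ring
      · -- middle shell
        have hF : ContDiffAt ℝ ∞ (fun w : C3 => ‖LL w‖ ^ 2 + ε * radF (sqn w)) (z - f) :=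
          (contDiffAt_LLsq _).add (contDiffAt_const.mul (contDiffAt_radF_sqn h0 le_rfl))
        refine smooth_reg hz (Q := fun z' => ‖LL (z' - f)‖ ^ 2 + ε * radF (sqn (z' - f)))
          (contDiffAt_translate (u := fun w : C3 => ‖LL w‖ ^ 2 + ε * radF (sqn w)) hF)
          (fun v hv => ?_) ?_
        · rw [levi_translate (u := fun w : C3 => ‖LL w‖ ^ 2 + ε * radF (sqn w))
            (hF.of_le two_le_infty), levi_add (contDiffAt_LLsq _)
            (contDiffAt_const.mul (contDiffAt_radF_sqn h0 two_le_infty)),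
            levi_const_mul _ (contDiffAt_radF_sqn h0 two_le_infty), levi_LL]
          have h9 := levi_radF_pos (sqn_pos h0) hv
          positivity
        · refine hPH2.congr ?_
          have h9 : ∀ᶠ z' in 𝓝 z, bN ε (z' - f) = 0 := by
            have : Tendsto (fun z' : C3 => z' - f) (𝓝 z) (𝓝 (z - f)) := by
              have : Continuous fun z' : C3 => z' - f := by fun_prop
              exact this.continuousAt
            exact this.eventually (bN_eventually_zero hε (by linarith))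
          filter_upwards [ballB_eventually_eq (b := bN ε) hf h, h9] with z' h10 h11
          rw [hN_reg, h10, h11]
          ring
    · -- far from the lattice
      push Not at h
      refine smooth_reg hz (Q := fun z' => ‖LL z'‖ ^ 2 + ε * sqn z')
        ((contDiffAt_LLsq z).add (contDiffAt_const.mul contDiff_sqn.contDiffAt))
        (fun v hv => ?_) ?_
      · rw [levi_add (contDiffAt_LLsq z) (contDiffAt_const.mul contDiff_sqn.contDiffAt),
          levi_const_mul _ contDiff_sqn.contDiffAt, levi_LL, levi_sqn]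
        have := sqn_pos hv
        positivity
      · refine hPH.congr ?_
        filter_upwards [potReg_eventually_sqn h,
          ballB_eventually_zero (b := bN ε) (fun w hw => bN_zero hw) h] with z' h10 h11
        rw [hN_reg, h10, h11]
        ring
  · -- exceptional points
    refine smooth_exc hf ha (Q := fun a' => ε * potExc0 j a')
      (contDiffAt_const.mul (contDiffAt_potExc0 j a)) (fun v hv => ?_) ?_
    · rw [levi_const_mul _ ((contDiffAt_potExc0 j a).of_le two_le_infty)]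
      exact mul_pos hε (levi_potExc0_pos ha0 hv)
    · refine (((hθ.2 f hf j a ha).add ((hκ.2 f hf j a ha).const_mul ε)).add
        (phAt_const (cN ε + cN ε * cvx0) a)).congr ?_
      filter_upwards [potExc_eventually ha0, hN_exc_eventually hε hf ha0] with a' h1 h2
      rw [h2, h1]
      ring

theorem isNef_of_hasPot {θ κ : LocPot KX} (hθ : HasPot θ (fun z => ‖LL z‖ ^ 2) thetaExc)
    (hκ : HasPot κ potReg potExc) : IsNef θ :=
  ⟨κ, isKahler_of_hasPot hκ, fun ε hε => ⟨hN ε, continuous_hN hε, smooth_sum hθ hκ hε⟩⟩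

end KP

/-- existence of the nef class `θ` and of a Kähler class `κ` -/
theorem exists_theta_kappa : ∃ (θ κ : LocPot KX) (K : C3 → ℝ) (Ke : Fin 3 → C3 → ℝ),
    HasPot θ (fun z => ‖LL z‖ ^ 2) thetaExc ∧ HasPot κ K Ke ∧ IsKahler κ ∧ IsNef θ ∧
    ContinuousOn K O3ᶜ ∧ (∀ j, ContinuousOn (Ke j) (Vexc j)) ∧
    (∀ R : ℝ, ∃ C : ℝ, ∀ z, z ∉ O3 → ‖z‖ ≤ R → K z ≤ C) := by
  obtain ⟨θ, hθ⟩ := KP.potData_theta.exists_locPot
  obtain ⟨κ, hκ⟩ := KP.potData_kappa.exists_locPot
  exact ⟨θ, κ, KP.potReg, KP.potExc, hθ, hκ, KP.isKahler_of_hasPot hκ, KP.isNef_of_hasPot hθ hκ,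
    fun z hz => (KP.potData_kappa.contG z hz).continuousWithinAt,
    fun j => (KP.continuous_potExc j).continuousOn, KP.potReg_le⟩

end Pool.Agent.helper90.KMMP
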