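import Pool.Agent.helper90.KMMP.KXPot3

/-!
# `θ` is plurisubharmonic
-/

set_option linter.unusedSectionVars false
set_option linter.unusedVariables false

open scoped Topology ContDiff
open Set Filter Metric MeasureTheory

namespace Pool.Agent.helper90.KMMP
namespace KP

/-! ### the functions `(|f|² + δ)^(1/3)` -/

theorem hasDerivAt_cube {δ t : ℝ} (h : 0 < t + δ) (p : ℝ) :
    HasDerivAt (fun t : ℝ => (t + δ) ^ p) (p * (t + δ) ^ (p - 1)) t := by
  have h1 : HasDerivAt (fun t : ℝ => t + δ) 1 t := (hasDerivAt_id t).add_const δ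
  have h2 := h1.rpow_const (p := p) (Or.inl h.ne')
  rw [one_mul] at h2
  exact h2

theorem contDiffAt_cube {δ t : ℝ} (h : 0 < t + δ) (p : ℝ) :
    ContDiffAt ℝ 2 (fun t : ℝ => (t + δ) ^ p) t :=
  (contDiffAt_id.add contDiffAt_const).rpow_const_of_ne h.ne'

theorem levi_cube_nonneg {f : C3 → ℂ} {x : C3} (hf : AnalyticAt ℂ f x) {δ : ℝ} (hδ : 0 < δ)
    (v : C3) : 0 ≤ levi (fun a => (‖f a‖ ^ 2 + δ) ^ (1 / 3 : ℝ)) x v := by
  set t : ℝ := ‖f x‖ ^ 2 with ht
  have ht0 : 0 ≤ t := by positivity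
  have htδ : 0 < t + δ := by linarith
  have h1 := levi_real_comp (s := fun a => ‖f a‖ ^ 2) (ψ := fun t : ℝ => (t + δ) ^ (1 / 3 : ℝ))
    (x := x) (contDiffAt_normSq_comp hf) (contDiffAt_cube htδ _) v
  have h2 : deriv (fun t : ℝ => (t + δ) ^ (1 / 3 : ℝ)) =ᶠ[𝓝 t]
      fun t => 1 / 3 * (t + δ) ^ (1 / 3 - 1 : ℝ) := by
    have h3 : ∀ᶠ t' in 𝓝 t, 0 < t' + δ := by
      have : Continuous fun t' : ℝ => t' + δ := by fun_prop
      exact this.continuousAt.eventually (lt_mem_nhds htδ)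
    filter_upwards [h3] with t' ht'
    exact (hasDerivAt_cube ht' _).deriv
  have h3 : deriv (deriv (fun t : ℝ => (t + δ) ^ (1 / 3 : ℝ))) t =
      1 / 3 * ((1 / 3 - 1) * (t + δ) ^ (1 / 3 - 1 - 1 : ℝ)) := by
    rw [h2.deriv_eq]
    exact ((hasDerivAt_cube htδ _).const_mul _).deriv
  rw [h1]
  show 0 ≤ deriv (fun t : ℝ => (t + δ) ^ (1 / 3 : ℝ)) t * _ +
    deriv (deriv (fun t : ℝ => (t + δ) ^ (1 / 3 : ℝ))) t * _
  rw [h2.eq_of_nhds, h3, levi_normSq_comp hf, fderiv_normSq_comp hf, fderiv_normSq_comp hf]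
  have h4 : (2 * ((starRingEnd ℂ) (f x) * fderiv ℂ f x v).re) ^ 2 +
      (2 * ((starRingEnd ℂ) (f x) * fderiv ℂ f x (Complex.I • v)).re) ^ 2 =
      4 * (t * ‖fderiv ℂ f x v‖ ^ 2) := by
    rw [map_smul, ht, Complex.sq_norm, Complex.sq_norm, Complex.normSq_apply, Complex.normSq_apply]
    simp only [smul_eq_mul, Complex.mul_re, Complex.mul_im, Complex.conj_re, Complex.conj_im,
      Complex.I_re, Complex.I_im]
    ring
  rw [h4]
  have h5 : (t + δ) ^ (1 / 3 - 1 : ℝ) = (t + δ) * (t + δ) ^ (1 / 3 - 1 - 1 : ℝ) := by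
    rw [← Real.rpow_one_add' htδ.le (by norm_num)]
    norm_num
  rw [h5]
  have h6 : 0 < (t + δ) ^ (1 / 3 - 1 - 1 : ℝ) := Real.rpow_pos_of_pos htδ _
  have h7 : 1 / 3 * ((t + δ) * (t + δ) ^ (1 / 3 - 1 - 1 : ℝ)) * (4 * ‖fderiv ℂ f x v‖ ^ 2) +
      1 / 3 * ((1 / 3 - 1) * (t + δ) ^ (1 / 3 - 1 - 1 : ℝ)) *
        (4 * (t * ‖fderiv ℂ f x v‖ ^ 2)) =
      4 / 3 * (t + δ) ^ (1 / 3 - 1 - 1 : ℝ) * ‖fderiv ℂ f x v‖ ^ 2 * (t / 3 + δ) := by
    ring
  rw [h7]
  positivity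

theorem cube_add_le {A δ : ℝ} (hA : 0 ≤ A) (hδ : 0 ≤ δ) :
    (A + δ) ^ (1 / 3 : ℝ) ≤ A ^ (1 / 3 : ℝ) + δ ^ (1 / 3 : ℝ) := by
  have h1 : (A ^ (1 / 3 : ℝ)) ^ 3 = A := by
    rw [← Real.rpow_natCast, ← Real.rpow_mul hA]; norm_num
  have h2 : (δ ^ (1 / 3 : ℝ)) ^ 3 = δ := by
    rw [← Real.rpow_natCast, ← Real.rpow_mul hδ]; norm_num
  have h3 : 0 ≤ A ^ (1 / 3 : ℝ) := by positivity
  have h4 : 0 ≤ δ ^ (1 / 3 : ℝ) := by positivity
  have h5 : ((A ^ (1 / 3 : ℝ) + δ ^ (1 / 3 : ℝ)) ^ 3) ^ (1 / 3 : ℝ) =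
      A ^ (1 / 3 : ℝ) + δ ^ (1 / 3 : ℝ) := by
    rw [← Real.rpow_natCast, ← Real.rpow_mul (by positivity)]; norm_num
  rw [← h5]
  refine Real.rpow_le_rpow (by positivity) ?_ (by norm_num)
  nlinarith [mul_nonneg h3 h4, mul_nonneg (mul_nonneg h3 h4) h3, mul_nonneg (mul_nonneg h3 h4) h4]

theorem pshAt_cube {f : C3 → ℂ} (hf : ∀ a, AnalyticAt ℂ f a) (x : C3) :
    PshAt (fun a => (((‖f a‖ ^ 2) ^ (1 / 3 : ℝ) : ℝ) : EReal)) x := by
  have hfc : Continuous f := continuous_iff_continuousAt.2 fun a => (hf a).continuousAt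
  have hc0 : ∀ δ : ℝ, Continuous fun a => (‖f a‖ ^ 2 + δ) ^ (1 / 3 : ℝ) := fun δ =>
    ((hfc.norm.pow 2).add continuous_const).rpow_const fun _ => Or.inr (by norm_num)
  refine ⟨univ, univ_mem, fun y _ => EReal.coe_lt_top _, ?_, ?_⟩
  · have h1 : Continuous fun a => (((‖f a‖ ^ 2) ^ (1 / 3 : ℝ) : ℝ) : EReal) :=
      continuous_coe_real_ereal.comp (by simpa using hc0 0)
    intro y _
    exact h1.continuousAt.upperSemicontinuousAt.upperSemicontinuousWithinAt _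
  · intro c hc φ hφ hle
    have hca : ∀ t ∈ closedBall (0 : ℂ) 1, AnalyticAt ℂ c t := fun t ht =>
      analyticAt_of_holMapAt_disc (hc t ht).2
    rw [EReal.coe_le_coe_iff]
    refine le_of_forall_pos_le_add fun η hη => ?_
    set δ : ℝ := η ^ 3 with hδ
    have hδ0 : 0 < δ := by positivity
    have hδη : δ ^ (1 / 3 : ℝ) = η := by
      rw [hδ, ← Real.rpow_natCast, ← Real.rpow_mul hη.le]; norm_num
    have hg : ∀ t ∈ closedBall (0 : ℂ) 1,
        ContDiffAt ℝ 2 (fun t => (‖f (c t)‖ ^ 2 + δ) ^ (1 / 3 : ℝ)) t := by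
      intro t ht
      have h1 : AnalyticAt ℂ (fun t => f (c t)) t := AnalyticAt.comp (g := f) (hf _) (hca t ht)
      have h2 : ContDiffAt ℝ 2 (fun t => ‖f (c t)‖ ^ 2) t := contDiffAt_normSq_comp h1
      exact ContDiffAt.comp t (g := fun t : ℝ => (t + δ) ^ (1 / 3 : ℝ))
        (f := fun t => ‖f (c t)‖ ^ 2) (contDiffAt_cube (by positivity) _) h2
    have hcont : ContinuousOn (fun t => (‖f (c t)‖ ^ 2 + δ) ^ (1 / 3 : ℝ)) (closedBall 0 1) :=
      fun t ht => (hg t ht).continuousAt.continuousWithinAt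
    have h1 := le_circleAverage_of_levi (g := fun t => (‖f (c t)‖ ^ 2 + δ) ^ (1 / 3 : ℝ))
      (fun z hz => hg z (ball_subset_closedBall hz)) hcont (fun z hz v => by
        have h3 : ContDiffAt ℝ 2 (fun a => (‖f a‖ ^ 2 + δ) ^ (1 / 3 : ℝ)) (c z) :=
          ContDiffAt.comp (c z) (g := fun t : ℝ => (t + δ) ^ (1 / 3 : ℝ))
            (f := fun a => ‖f a‖ ^ 2) (contDiffAt_cube (by positivity) _)
            (contDiffAt_normSq_comp (hf _))
        rw [levi_comp (u := fun a => (‖f a‖ ^ 2 + δ) ^ (1 / 3 : ℝ)) h3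
          (hca z (ball_subset_closedBall hz))]
        exact levi_cube_nonneg (hf _) hδ0 _)
    have h2 : Real.circleAverage (fun t => (‖f (c t)‖ ^ 2 + δ) ^ (1 / 3 : ℝ)) 0 1 ≤
        Real.circleAverage (fun t => φ t + η) 0 1 := by
      refine Real.circleAverage_mono ?_ ?_ ?_
      · exact (hcont.mono sphere_subset_closedBall).circleIntegrable (by norm_num)
      · exact (hφ.add continuousOn_const).circleIntegrable (by norm_num)
      · intro t ht
        have h2 : (((‖f (c t)‖ ^ 2) ^ (1 / 3 : ℝ) : ℝ) : EReal) ≤ (φ t : EReal) :=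
          hle t (by simpa using ht)
        have h3 : (‖f (c t)‖ ^ 2) ^ (1 / 3 : ℝ) ≤ φ t := by exact_mod_cast h2
        have h4 := cube_add_le (A := ‖f (c t)‖ ^ 2) (by positivity) hδ0.le
        rw [hδη] at h4
        show (‖f (c t)‖ ^ 2 + δ) ^ (1 / 3 : ℝ) ≤ φ t + η
        linarith
    have h3 : Real.circleAverage (fun t => φ t + η) 0 1 = Real.circleAverage φ 0 1 + η := by
      have h4 := Real.circleAverage_add (f₁ := φ) (f₂ := fun _ => η) (c := 0) (R := 1)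
        (hφ.circleIntegrable (by norm_num)) (circleIntegrable_const _ _ _)
      rw [Real.circleAverage_const] at h4
      exact h4
    have h4 : (‖f (c 0)‖ ^ 2) ^ (1 / 3 : ℝ) ≤ (‖f (c 0)‖ ^ 2 + δ) ^ (1 / 3 : ℝ) :=
      Real.rpow_le_rpow (by positivity) (by linarith) (by norm_num)
    linarith

/-- `thetaExc = (|g|²)^(1/3)` -/
noncomputable def gT (j : Fin 3) (a : C3) : ℂ := a j * LL (Function.update a j 1) ^ 3

theorem analyticAt_gT (j : Fin 3) (a : C3) : AnalyticAt ℂ (gT j) a := by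
  unfold gT
  refine (analyticAt_apply j a).mul (AnalyticAt.pow ?_ 3)
  exact AnalyticAt.comp (g := LL) (f := fun a : C3 => Function.update a j 1) (analyticAt_LL _)
    (analyticAt_update_one j a)

theorem thetaExc_eq (j : Fin 3) (a : C3) : thetaExc j a = (‖gT j a‖ ^ 2) ^ (1 / 3 : ℝ) := by
  unfold thetaExc gT
  have h1 : ‖a j * LL (Function.update a j 1) ^ 3‖ ^ 2 =
      ‖a j‖ ^ 2 * (‖LL (Function.update a j 1)‖ ^ 2) ^ 3 := by
    rw [norm_mul, norm_pow]; ring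
  rw [h1, Real.mul_rpow (by positivity) (by positivity), ← Real.rpow_natCast (‖a j‖),
    ← Real.rpow_mul (norm_nonneg _), ← Real.rpow_natCast (‖LL (Function.update a j 1)‖ ^ 2) 3,
    ← Real.rpow_mul (by positivity)]
  norm_num

end KP

/-- `‖a j‖^(2/3) ‖L u‖² = (‖a j * (L u)^3‖²)^(1/3)` is psh -/
theorem pshAt_thetaExc (j : Fin 3) (a : C3) : PshAt (fun a' => (thetaExc j a' : EReal)) a := by
  have h := KP.pshAt_cube (KP.analyticAt_gT j) a
  refine h.congr (Eventually.of_forall fun a' => ?_)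
  simp only [KP.thetaExc_eq]

namespace KP

theorem pshAt_re {F : C3 → ℂ} {a : C3} (hF : AnalyticAt ℂ F a) :
    PshAt (fun v => (((F v).re : ℝ) : EReal)) a := by
  refine pshAt_of_levi (contDiffAt_re_comp hF) ?_
  filter_upwards [hF.eventually_analyticAt] with y hy v
  rw [levi_re_comp hy]

/-- plurisubharmonicity in an etale chart -/
theorem pshAt_of_chart {n : ℕ} {X : Type} [TopologicalSpace X] [HolSpace X] {A : EtaleAtlas n X}
    (hA : A.Compatible) (i : A.I) {a : Fin n → ℂ} (ha : a ∈ A.V i) {u : X → EReal}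
    (hu : PshAt (fun v => u (A.Θ i v)) a) : PshAt u (A.Θ i a) := by
  obtain ⟨e, he, hx, hea, hev⟩ := hA.exists_chart i a ha
  have h1 : PshAt (fun y => u (A.Θ i (e y))) (A.Θ i a) := by
    refine PshAt.comp (u := fun v => u (A.Θ i v)) (f := e) (by rw [hea]; exact hu) ?_
    filter_upwards [e.open_source.mem_nhds hx] with y hy
    exact he.holMapAt hy
  refine h1.congr ?_
  filter_upwards [e.open_source.mem_nhds hx] with y hy
  have h4 := hev _ (e.map_source hy)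
  rw [← h4.2, e.left_inv hy]

theorem pshAt_reg {z : C3} (hz : z ∉ O3) {u : KX → EReal} (hu : PshAt (fun v => u (reg v)) z) :
    PshAt u (reg z) :=
  pshAt_of_chart kmAtlas_compatible none hz hu

theorem pshAt_exc {f : C3} (hf : f ∈ O3) {j : Fin 3} {a : C3} (ha : a ∈ Vexc j)
    {u : KX → EReal} (hu : PshAt (fun v => u (exc f j v)) a) : PshAt u (exc f j a) :=
  pshAt_of_chart kmAtlas_compatible (some (⟨f, hf⟩, j)) ha hu

/-- a psh function plus a pluriharmonic function on `ℂ³` -/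
theorem pshAt_of_sub {u Q : C3 → ℝ} {a : C3} (hQ : PshAt (fun v => (Q v : EReal)) a)
    (h : PHAt (fun v => u v - Q v) a) : PshAt (fun v => (u v : EReal)) a := by
  obtain ⟨F, hF, hF'⟩ := h
  have hF0 : AnalyticAt ℂ F a := hF
  have h1 := hQ.add_coe (pshAt_re hF0) (by
    filter_upwards [hF0.eventually_analyticAt] with y hy
    exact Complex.continuous_re.continuousAt.comp hy.continuousAt)
  refine h1.congr ?_
  filter_upwards [hF'] with v hv
  rw [← EReal.coe_add, ← hv]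
  congr 1
  ring

end KP

theorem theta_psh {θ : LocPot KX} (hθ : HasPot θ (fun z => ‖LL z‖ ^ 2) thetaExc) (x : KX) :
    PshAt (fun y => (θ.pot x y : EReal)) x := by
  rcases exists_reg_or_exc x with ⟨z, hz, rfl⟩ | ⟨f, hf, j, a, ha, ha0, rfl⟩
  · refine KP.pshAt_reg hz (KP.pshAt_of_sub (Q := fun z => ‖LL z‖ ^ 2) ?_ (hθ.1 z hz))
    refine pshAt_of_levi (contDiffAt_normSq_comp (KP.analyticAt_LL z)) ?_
    refine Eventually.of_forall fun y v => ?_
    rw [levi_normSq_comp (KP.analyticAt_LL y)]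
    positivity
  · exact KP.pshAt_exc hf ha (KP.pshAt_of_sub (pshAt_thetaExc j a) (hθ.2 f hf j a ha))

end Pool.Agent.helper90.KMMP
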