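import Pool.Agent.helper90.KMMP.KXKDefs
import Pool.Agent.helper90.KMMP.KXNef
import Pool.Agent.helper90.KMMP.KXTheta
import Pool.Agent.helper90.KMMP.KXKb
import Pool.Agent.helper90.KMMP.KXKc

/-!
# Classes and divisors on the threefold `X`

The definitions are in `KXKDefs.lean`; `exists_theta_kappa` is in `KXNef.lean`, `theta_psh` in
`KXTheta.lean`, `exists_T`, `exists_canonical` in `KXKb.lean`, `exists_classEq`,
`psef_of_classEq` in `KXKc.lean`.
-/
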