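import Pool.Agent.helper90.KMMP.KX

/-!
# Classes and divisors on the threefold `X`: definitions
-/

open scoped Topology ContDiff
open Set Filter Metric

namespace Pool.Agent.helper90.KMMP

/-- the linear form `L = z₀ + √2 z₁` -/
noncomputable def LL (z : C3) : ℂ := z 0 + (Real.sqrt 2 : ℂ) * z 1

/-- `u` has the potentials `Q` in the regular chart and `Qe f j` in the exceptional charts. -/
def HasPot (u : LocPot KX) (Q : C3 → ℝ) (Qe : Fin 3 → C3 → ℝ) : Prop :=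
  (∀ z, z ∉ O3 → PHAt (fun z' => u.pot (reg z) (reg z') - Q z') z) ∧
  ∀ f ∈ O3, ∀ j, ∀ a ∈ Vexc j, PHAt (fun a' => u.pot (exc f j a) (exc f j a') - Qe j a') a

/-- the potential of `θ` in the exceptional charts -/
noncomputable def thetaExc (j : Fin 3) (a : C3) : ℝ :=
  ‖a j‖ ^ (2 / 3 : ℝ) * ‖LL (Function.update a j 1)‖ ^ 2

/-- the surface `T` -/
def TT : Set KX := {x | (∃ z, z ∉ O3 ∧ z 2 = 0 ∧ reg z = x) ∨
  ∃ f ∈ O3, ∃ j ≠ 2, ∃ a ∈ Vexc j, f 2 = 0 ∧ a 2 = 0 ∧ exc f j a = x}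

/-- the multiples of `π = 1 - ω` in `ℤ[ω]` -/
def PiEis : Set ℂ := {z | ∃ u ∈ Eis, z = (1 - om) * u}

end Pool.Agent.helper90.KMMP
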