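import Pool.Agent.helper90.KMMP.KXTrans
import Pool.Agent.helper90.KMMP.KXKDefs

/-!
# The canonical class of the threefold `X` is trivial
-/

open scoped Topology ContDiff
open Set Filter Metric

namespace Pool.Agent.helper90.KMMP

/-! ### charts -/

theorem kmNhds (i : kmAtlas.I) {a : C3} (ha : a ∈ kmAtlas.V i) :
    𝓝 (kmAtlas.Θ i a) = map (kmAtlas.Θ i) (𝓝 a) := by
  refine le_antisymm ?_ (kmAtlas_compatible.continuousAt i a ha)
  intro s hs
  have := kmAtlas_compatible.open_map i a ha _ hs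
  exact Filter.mem_of_superset this (image_preimage_subset _ _)

theorem km_exists_charts : ∃ (ι : KX → kmAtlas.I) (α : KX → C3)
    (e : KX → OpenPartialHomeomorph KX C3), ∀ x, α x ∈ kmAtlas.V (ι x) ∧
      kmAtlas.Θ (ι x) (α x) = x ∧ IsHolChart (e x) ∧ x ∈ (e x).source ∧ e x x = α x ∧
      ∀ v ∈ (e x).target, v ∈ kmAtlas.V (ι x) ∧ (e x).symm v = kmAtlas.Θ (ι x) v := by
  choose ι α hα hια using kmAtlas.surj
  have hch : ∀ x, ∃ e : OpenPartialHomeomorph KX C3, IsHolChart e ∧ x ∈ e.source ∧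
      e x = α x ∧ ∀ v ∈ e.target, v ∈ kmAtlas.V (ι x) ∧ e.symm v = kmAtlas.Θ (ι x) v := by
    intro x
    obtain ⟨e, h1, h2, h3, h4⟩ := kmAtlas_compatible.exists_chart (ι x) (α x) (hα x)
    rw [hια x] at h2 h3
    exact ⟨e, h1, h2, h3, h4⟩
  choose e he hxe hex het using hch
  exact ⟨ι, α, e, fun x => ⟨hα x, hια x, he x, hxe x, hex x, het x⟩⟩

/-- lifts to a chart are unique -/
theorem chart_eq_lift {j : kmAtlas.I} {e : OpenPartialHomeomorph KX C3}
    (het : ∀ v ∈ e.target, v ∈ kmAtlas.V j ∧ e.symm v = kmAtlas.Θ j v) {Θ : C3 → KX}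
    {a : C3} {τ : C3 → C3} (hτ : ContinuousAt τ a) (hτa : τ a ∈ e.target)
    (h : ∀ᶠ v in 𝓝 a, kmAtlas.Θ j (τ v) = Θ v) : ∀ᶠ v in 𝓝 a, e (Θ v) = τ v := by
  have h1 : ∀ᶠ v in 𝓝 a, τ v ∈ e.target := hτ (e.open_target.mem_nhds hτa)
  filter_upwards [h, h1] with v h2 h3
  rw [← h2, ← (het _ h3).2, e.right_inv h3]

theorem IsHolChart.hol_apply {e : OpenPartialHomeomorph KX C3} (he : IsHolChart e) {y : KX}
    (hy : y ∈ e.source) {u : C3 → ℂ} (hu : AnalyticAt ℂ u (e y)) : Hol (fun z => u (e z)) y := by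
  rw [he y hy]
  refine hu.congr ?_
  filter_upwards [e.open_target.mem_nhds (e.map_source hy)] with v hv
  rw [e.right_inv hv]

theorem analyticAt_transition {e e' : OpenPartialHomeomorph KX C3} (he : IsHolChart e)
    (he' : IsHolChart e') {y : KX} (hy : y ∈ e.source) (hy' : y ∈ e'.source) :
    AnalyticAt ℂ (fun v => e' (e.symm v)) (e y) := by
  rw [analyticAt_pi_iff]
  intro k
  have h1 : Hol (fun z => e' z k) y := he'.hol_apply hy' (u := fun v => v k) (analyticAt_apply k _)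
  exact (he y hy _).1 h1

/-! ### Jacobians -/

/-- the norm of the jacobian of the local maps from the charts to `ℂ³` -/
noncomputable def kmWt (i : kmAtlas.I) : ℝ :=
  match i with
  | none => 1
  | some _ => 1 / 3

theorem kmWt_pos (i : kmAtlas.I) : 0 < kmWt i := by
  unfold kmWt
  rcases i with _ | i <;> norm_num

/-- the derivative of `v ↦ f + c(v_j) • update v j 1` -/
noncomputable def jacL (j : Fin 3) (a : C3) (c c' : ℂ) : C3 →L[ℂ] C3 :=
  ContinuousLinearMap.pi fun k =>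
    if k = j then c' • ContinuousLinearMap.proj (R := ℂ) (φ := fun _ : Fin 3 => ℂ) j else
      c • ContinuousLinearMap.proj (R := ℂ) (φ := fun _ : Fin 3 => ℂ) k +
        (a k * c') • ContinuousLinearMap.proj (R := ℂ) (φ := fun _ : Fin 3 => ℂ) j

theorem det_jacL (j : Fin 3) (a : C3) (c c' : ℂ) : (jacL j a c c').det = c' * c ^ 2 := by
  have h : (jacL j a c c').det = LinearMap.det (jacL j a c c' : C3 →ₗ[ℂ] C3) := rfl
  rw [h, ← LinearMap.det_toMatrix', Matrix.det_fin_three]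
  fin_cases j <;> simp [LinearMap.toMatrix'_apply, jacL] <;> ring

theorem hasFDerivAt_jac (f : C3) (j : Fin 3) (a : C3) {c : ℂ → ℂ} {c' : ℂ}
    (hc : HasDerivAt c c' (a j)) :
    HasFDerivAt (fun v : C3 => f + c (v j) • Function.update v j (1 : ℂ)) (jacL j a (c (a j)) c')
      a := by
  have h1 : ∀ k, HasFDerivAt (fun v : C3 => v k)
      (ContinuousLinearMap.proj (R := ℂ) (φ := fun _ : Fin 3 => ℂ) k) a := fun k =>
    (ContinuousLinearMap.proj (R := ℂ) (φ := fun _ : Fin 3 => ℂ) k).hasFDerivAt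
  have h2 : HasFDerivAt (fun v : C3 => c (v j))
      (c' • ContinuousLinearMap.proj (R := ℂ) (φ := fun _ : Fin 3 => ℂ) j) a :=
    hc.comp_hasFDerivAt a (h1 j)
  rw [hasFDerivAt_pi']
  intro k
  by_cases hk : k = j
  · subst hk
    have h3 : HasFDerivAt (fun v : C3 => f k + c (v k)) _ a := h2.const_add (f k)
    refine (h3.congr_fderiv ?_).congr_of_eventuallyEq (Eventually.of_forall fun v => ?_)
    · ext v
      simp [jacL]
    · simp
  · have h3 : HasFDerivAt (fun v : C3 => f k + c (v j) * v k) _ a :=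
      (h2.mul (h1 k)).const_add (f k)
    refine (h3.congr_fderiv ?_).congr_of_eventuallyEq (Eventually.of_forall fun v => ?_)
    · ext v
      simp [jacL, hk]
      ring
    · simp [hk]

/-- lifting of the chart `i` to `ℂ³` near nonexceptional points -/
theorem exists_regular_lift (i : kmAtlas.I) {a : C3} (ha : a ∈ kmAtlas.V i)
    (hreg : ∃ z, z ∉ O3 ∧ kmAtlas.Θ i a = reg z) :
    ∃ ρ : C3 → C3, AnalyticAt ℂ ρ a ∧ ρ a ∉ O3 ∧ (∀ᶠ v in 𝓝 a, reg (ρ v) = kmAtlas.Θ i v) ∧
      ‖(fderiv ℂ ρ a).det‖ = kmWt i := by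
  rcases i with _ | ⟨⟨f, hf⟩, j⟩
  · refine ⟨fun v => v, analyticAt_id, ha, Eventually.of_forall fun v => rfl, ?_⟩
    have h1 : fderiv ℂ (fun v : C3 => v) a = ContinuousLinearMap.id ℂ C3 := fderiv_fun_id
    rw [h1]
    simp [kmWt, ContinuousLinearMap.det]
  · obtain ⟨z, hz, hza⟩ := hreg
    have ha' : a ∈ Vexc j := ha
    have hza' : exc f j a = reg z := hza
    have ha0 : a j ≠ 0 := by
      intro h
      exact exc_ne_reg hf h hz hza'
    obtain ⟨c, hc, hcs, hc3, h1, h2, h3⟩ := exists_cbrt_local hf ha0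
    refine ⟨_, h1, ?_, ?_, ?_⟩
    · have := (exc_eq_reg hf ha' ha0).1
      rw [hcs]
      exact this
    · filter_upwards [h2] with v hv
      exact hv.symm
    · have h4 : HasDerivAt c (deriv c (a j)) (a j) := hc.differentiableAt.hasDerivAt
      rw [(hasFDerivAt_jac f j a h4).fderiv, det_jacL]
      have h5 : HasDerivAt (fun t => c t ^ 3) (3 * c (a j) ^ 2 * deriv c (a j)) (a j) := by
        have := h4.fun_pow 3
        simpa using this
      have h6 : HasDerivAt (fun t => c t ^ 3) 1 (a j) := by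
        have h7 : (fun t => c t ^ 3) = fun t => t := funext hc3
        rw [h7]
        exact hasDerivAt_id _
      have h7 := h5.unique h6
      have h8 : deriv c (a j) * c (a j) ^ 2 = 1 / 3 := by linear_combination h7 / 3
      rw [h8]
      simp [kmWt]

theorem det_smul_C3 (c : ℂ) (A : C3 →L[ℂ] C3) : (c • A).det = c ^ 3 * A.det := by
  have h : (c • A).det = LinearMap.det (c • (A : C3 →ₗ[ℂ] C3)) := rfl
  rw [h, LinearMap.det_smul]
  simp [ContinuousLinearMap.det]

theorem det_comp_C3 (A B : C3 →L[ℂ] C3) : (A.comp B).det = A.det * B.det := by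
  have h : (A.comp B).det = LinearMap.det ((A : C3 →ₗ[ℂ] C3).comp (B : C3 →ₗ[ℂ] C3)) := rfl
  rw [h, LinearMap.det_comp]

/-- the jacobian of transition maps at regular points -/
theorem norm_det_transition_reg {i j : kmAtlas.I} {a : C3} (ha : a ∈ kmAtlas.V i)
    {σ : C3 → C3} (hσ : AnalyticAt ℂ σ a) (hσa : σ a ∈ kmAtlas.V j)
    (h : ∀ᶠ v in 𝓝 a, kmAtlas.Θ j (σ v) = kmAtlas.Θ i v)
    (hreg : ∃ z, z ∉ O3 ∧ kmAtlas.Θ i a = reg z) :
    kmWt j * ‖(fderiv ℂ σ a).det‖ = kmWt i := by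
  obtain ⟨ρ, hρ, hρa, h1, h2⟩ := exists_regular_lift i ha hreg
  have hreg' : ∃ z, z ∉ O3 ∧ kmAtlas.Θ j (σ a) = reg z := by
    rw [h.self_of_nhds]; exact hreg
  obtain ⟨ρ', hρ', hρa', h1', h2'⟩ := exists_regular_lift j hσa hreg'
  have h3 : reg (ρ a) = reg (ρ' (σ a)) := by
    rw [h1.self_of_nhds, h1'.self_of_nhds, h.self_of_nhds]
  obtain ⟨k, l, hl, hkl⟩ := reg_eq_reg.1 h3
  obtain ⟨N, hN, -, hinj⟩ := reg_locInj hρa'
  have hT : ∀ w, reg (om ^ k • w + l) = reg w := fun w => (reg_eq_reg.2 ⟨k, l, hl, rfl⟩).symm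
  have hc1 : ContinuousAt (fun v => ρ' (σ v)) a := hρ'.continuousAt.comp hσ.continuousAt
  have hc2 : ContinuousAt (fun v => om ^ k • ρ v + l) a := by
    have := hρ.continuousAt
    fun_prop
  have h4 : (fun v => ρ' (σ v)) =ᶠ[𝓝 a] fun v => om ^ k • ρ v + l := by
    have h5 : ∀ᶠ v in 𝓝 a, ρ' (σ v) ∈ N := hc1 hN
    have h6 : ∀ᶠ v in 𝓝 a, om ^ k • ρ v + l ∈ N := by
      refine hc2 ?_
      show N ∈ 𝓝 (om ^ k • ρ a + l)
      rw [← hkl]
      exact hN
    have h7 : ∀ᶠ v in 𝓝 a, reg (ρ' (σ v)) = kmAtlas.Θ j (σ v) := hσ.continuousAt.eventually h1'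
    filter_upwards [h5, h6, h7, h, h1] with v h5 h6 h7 h8 h9
    refine hinj h5 h6 ?_
    rw [h7, h8, hT, h9]
  have h5 := h4.fderiv_eq (𝕜 := ℂ)
  have h6 : fderiv ℂ (fun v => ρ' (σ v)) a = (fderiv ℂ ρ' (σ a)).comp (fderiv ℂ σ a) :=
    fderiv_fun_comp a hρ'.differentiableAt hσ.differentiableAt
  have h7 : fderiv ℂ (fun v => om ^ k • ρ v + l) a = om ^ k • fderiv ℂ ρ a := by
    rw [fderiv_add_const]
    exact fderiv_fun_const_smul hρ.differentiableAt _
  rw [h6, h7] at h5
  have h8 := congrArg (fun A : C3 →L[ℂ] C3 => ‖A.det‖) h5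
  simp only [det_comp_C3, det_smul_C3, norm_mul, norm_pow, norm_om, one_pow, one_mul] at h8
  rw [← h2', h8, h2]

/-- the jacobian of transition maps -/
theorem norm_det_transition {i j : kmAtlas.I} {a : C3} (ha : a ∈ kmAtlas.V i)
    {σ : C3 → C3} (hσ : AnalyticAt ℂ σ a) (hσa : σ a ∈ kmAtlas.V j)
    (h : ∀ᶠ v in 𝓝 a, kmAtlas.Θ j (σ v) = kmAtlas.Θ i v) :
    kmWt j * ‖(fderiv ℂ σ a).det‖ = kmWt i := by
  rcases i with _ | ⟨⟨f, hf⟩, j'⟩
  · exact norm_det_transition_reg ha hσ hσa h ⟨a, ha, rfl⟩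
  · by_cases ha0 : a j' = 0
    · have h1 : Continuous (fun ε : ℂ => Function.update a j' ε) :=
        continuous_const.update j' continuous_id
      have h2 : Tendsto (fun ε : ℂ => Function.update a j' ε) (𝓝[≠] 0) (𝓝 a) := by
        have := (h1.tendsto 0).mono_left (nhdsWithin_le_nhds (s := {0}ᶜ))
        rwa [← ha0, Function.update_eq_self, ha0] at this
      have h3 : ContinuousAt (fun v => kmWt j * ‖(fderiv ℂ σ v).det‖) a := by
        have h4 : ContinuousAt (fderiv ℂ σ) a := hσ.fderiv.continuousAt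
        have h5 : Continuous (fun A : C3 →L[ℂ] C3 => A.det) := ContinuousLinearMap.continuous_det
        exact continuousAt_const.mul (h5.continuousAt.comp h4).norm
      have h4 : Tendsto (fun ε : ℂ => kmWt j * ‖(fderiv ℂ σ (Function.update a j' ε)).det‖)
          (𝓝[≠] 0) (𝓝 (kmWt j * ‖(fderiv ℂ σ a).det‖)) := h3.tendsto.comp h2
      have h5 : ∀ᶠ ε : ℂ in 𝓝[≠] 0, kmWt j * ‖(fderiv ℂ σ (Function.update a j' ε)).det‖ =
          kmWt (some (⟨f, hf⟩, j')) := by
        have e1 := h2.eventually hσ.eventually_analyticAt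
        have e2 := h2.eventually ((kmAtlas.isOpen_V _).mem_nhds ha)
        have e3 := h2.eventually (hσ.continuousAt ((kmAtlas.isOpen_V j).mem_nhds hσa))
        have e4 := h2.eventually h.eventually_nhds
        filter_upwards [e1, e2, e3, e4, self_mem_nhdsWithin] with ε e1 e2 e3 e4 e5
        refine norm_det_transition_reg e2 e1 e3 e4 ?_
        have h6 : Function.update a j' ε j' ≠ 0 := by
          rw [Function.update_self]; exact e5
        obtain ⟨h7, h8⟩ := exc_eq_reg hf (show _ ∈ Vexc j' from e2) h6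
        exact ⟨_, h7, h8⟩
      refine tendsto_nhds_unique h4 ?_
      exact (tendsto_congr' h5).2 tendsto_const_nhds
    · obtain ⟨h7, h8⟩ := exc_eq_reg hf (show _ ∈ Vexc j' from ha) ha0
      exact norm_det_transition_reg ha hσ hσa h ⟨_, h7, h8⟩

theorem phAt_const' {X : Type} [TopologicalSpace X] [HolSpace X] (c : ℝ) (x : X) :
    PHAt (fun _ => c) x :=
  ⟨fun _ => (c : ℂ), HolSpace.hol_const _ _, Eventually.of_forall fun _ => by simp⟩

/-- the canonical class is trivial -/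
theorem exists_canonical : ∃ κ₀ : LocPot KX, IsCanonical 3 κ₀ ∧
    HasPot κ₀ (fun _ => 0) (fun _ _ => 0) := by
  obtain ⟨ι, α, e, H⟩ := km_exists_charts
  refine ⟨⟨fun x _ => Real.log (kmWt (ι x)), fun x => Eventually.of_forall fun y =>
    continuousAt_const, fun x => Eventually.of_forall fun y => ?_⟩, ?_, ?_, ?_⟩
  · exact phAt_const' (Real.log (kmWt (ι x)) - Real.log (kmWt (ι y))) y
  · refine ⟨e, fun x => ⟨(H x).2.2.1, (H x).2.2.2.1⟩, fun x => ?_⟩
    filter_upwards [(e x).open_source.mem_nhds (H x).2.2.2.1] with y hy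
    filter_upwards [(e x).open_source.mem_nhds hy, (e y).open_source.mem_nhds (H y).2.2.2.1]
      with z hzx hzy
    have hx := H x
    have hy' := H y
    have h1 := analyticAt_transition hx.2.2.1 hy'.2.2.1 hzx hzy
    have h2 : (e x).symm (e x z) = z := (e x).left_inv hzx
    have h3 := norm_det_transition (i := ι x) (j := ι y) (a := e x z)
      ((hx.2.2.2.2.2 _ ((e x).map_source hzx)).1) h1
      (by rw [h2]; exact (hy'.2.2.2.2.2 _ ((e y).map_source hzy)).1) (by
        have h4 : ContinuousAt (e x).symm (e x z) :=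
          (e x).continuousAt_symm ((e x).map_source hzx)
        have h5 : ∀ᶠ v in 𝓝 (e x z), (e x).symm v ∈ (e y).source := by
          refine h4 ?_
          rw [h2]
          exact (e y).open_source.mem_nhds hzy
        filter_upwards [h5, (e x).open_target.mem_nhds ((e x).map_source hzx)] with v h6 h7
        rw [← (hy'.2.2.2.2.2 _ ((e y).map_source h6)).2, (e y).left_inv h6,
          (hx.2.2.2.2.2 _ h7).2])
    show Real.log (kmWt (ι x)) - Real.log (kmWt (ι y)) = _
    have h4 : ‖(fderiv ℂ (fun v => e y ((e x).symm v)) (e x z)).det‖ = kmWt (ι x) / kmWt (ι y) := by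
      rw [eq_div_iff (kmWt_pos _).ne', ← h3]; ring
    rw [h4, Real.log_div (kmWt_pos _).ne' (kmWt_pos _).ne']
  · intro z hz
    exact phAt_const' (Real.log (kmWt (ι (reg z))) - 0) z
  · intro f hf j a ha
    exact phAt_const' (Real.log (kmWt (ι (exc f j a))) - 0) a

end Pool.Agent.helper90.KMMP
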