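import Pool.Agent.helper90.KMMP.LeviC3
import Pool.Agent.helper90.KMMP.KXKDefs

/-!
# The potentials on `ℂ³` and in the exceptional charts
-/

set_option linter.unusedSectionVars false
set_option linter.unusedVariables false

open scoped Topology ContDiff
open Set Filter Metric MeasureTheory

namespace Pool.Agent.helper90.KMMP

namespace KP

/-! ### Eisenstein integers -/

theorem one_le_norm_of_eis {x : ℂ} (hx : x ∈ Eis) (h0 : x ≠ 0) : 1 ≤ ‖x‖ ^ 2 := by
  have := one_le_norm_Eis hx h0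
  nlinarith

theorem O3_om_pow {f : C3} (hf : f ∈ O3) (k : ℕ) : om ^ k • f ∈ O3 := O3_smul (Eis_om_pow k) hf

theorem one_le_sqn_of_O3 {f : C3} (hf : f ∈ O3) (h0 : f ≠ 0) : 1 ≤ sqn f := by
  obtain ⟨i, hi⟩ : ∃ i, f i ≠ 0 := by
    by_contra hcon
    push Not at hcon
    exact h0 (funext hcon)
  calc (1 : ℝ) ≤ ‖f i‖ ^ 2 := one_le_norm_of_eis (hf i) hi
    _ ≤ sqn f := Finset.single_le_sum (f := fun i => ‖f i‖ ^ 2) (fun i _ => by positivity)
        (Finset.mem_univ i)

/-! ### Euclidean norm -/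

/-- Euclidean norm -/
noncomputable def enm (w : C3) : ℝ := ‖(WithLp.toLp 2 w : EuclideanSpace ℂ (Fin 3))‖

theorem enm_sq (w : C3) : enm w ^ 2 = sqn w := by
  unfold enm sqn
  rw [EuclideanSpace.norm_sq_eq]

theorem enm_nonneg (w : C3) : 0 ≤ enm w := norm_nonneg _

theorem enm_add_le (v w : C3) : enm (v + w) ≤ enm v + enm w := by
  unfold enm
  rw [WithLp.toLp_add]
  exact norm_add_le _ _

theorem enm_neg (w : C3) : enm (-w) = enm w := by
  unfold enm
  rw [WithLp.toLp_neg, norm_neg]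

theorem enm_sub_comm (v w : C3) : enm (v - w) = enm (w - v) := by
  rw [← enm_neg, neg_sub]

theorem enm_lt_iff {w : C3} {r : ℝ} (hr : 0 ≤ r) : enm w < r ↔ sqn w < r ^ 2 := by
  rw [← enm_sq]
  exact (pow_lt_pow_iff_left₀ (enm_nonneg w) hr two_ne_zero).symm

theorem sqn_smul (c : ℂ) (w : C3) : sqn (c • w) = ‖c‖ ^ 2 * sqn w := by
  unfold sqn
  rw [Finset.mul_sum]
  refine Finset.sum_congr rfl fun i _ => ?_
  rw [Pi.smul_apply, norm_smul, mul_pow]

theorem sqn_om_pow (k : ℕ) (w : C3) : sqn (om ^ k • w) = sqn w := by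
  rw [sqn_smul, norm_om_pow]; ring

theorem continuous_sqn : Continuous (sqn : C3 → ℝ) := (contDiff_sqn (m := 0)).continuous

theorem O3_unique {z f g : C3} (hf : f ∈ O3) (hg : g ∈ O3) (h1 : sqn (z - f) < 1 / 4)
    (h2 : sqn (z - g) < 1 / 4) : f = g := by
  by_contra hne
  have h3 : 1 ≤ sqn (g - f) := one_le_sqn_of_O3 (O3_sub hg hf) (sub_ne_zero.2 (Ne.symm hne))
  have h4 : enm (z - f) < 1 / 2 := (enm_lt_iff (by norm_num)).2 (by linarith)
  have h5 : enm (z - g) < 1 / 2 := (enm_lt_iff (by norm_num)).2 (by linarith)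
  have h6 : enm (g - f) ≤ enm (z - f) + enm (z - g) := by
    have : g - f = (z - f) + -(z - g) := by abel
    rw [this]
    refine (enm_add_le _ _).trans ?_
    rw [enm_neg]
  have h7 : enm (g - f) < 1 := by linarith
  rw [enm_lt_iff (by norm_num)] at h7
  linarith

/-! ### periodic functions supported in balls -/

open Classical in
/-- the periodic function which is `b (z - f)` in the ball of radius `1/2` about `f ∈ O³` -/
noncomputable def ballB (b : C3 → ℝ) (z : C3) : ℝ :=
  if h : ∃ f ∈ O3, sqn (z - f) < 1 / 4 then b (z - h.choose) else 0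

theorem ballB_eq {b : C3 → ℝ} {z f : C3} (hf : f ∈ O3) (h : sqn (z - f) < 1 / 4) :
    ballB b z = b (z - f) := by
  have hex : ∃ f ∈ O3, sqn (z - f) < 1 / 4 := ⟨f, hf, h⟩
  unfold ballB
  rw [dif_pos hex]
  have := O3_unique hex.choose_spec.1 hf hex.choose_spec.2 h
  rw [this]

theorem ballB_zero {b : C3 → ℝ} {z : C3} (hb : ∀ w, 1 / 8 ≤ sqn w → b w = 0)
    (hz : ∀ f ∈ O3, 1 / 8 ≤ sqn (z - f)) : ballB b z = 0 := by
  unfold ballB
  split_ifs with hex
  · exact hb _ (hz _ hex.choose_spec.1)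
  · rfl

theorem ballB_eventually_eq {b : C3 → ℝ} {z f : C3} (hf : f ∈ O3) (h : sqn (z - f) < 1 / 4) :
    ballB b =ᶠ[𝓝 z] fun z' => b (z' - f) := by
  have hc : ContinuousAt (fun z' : C3 => sqn (z' - f)) z :=
    (continuous_sqn.comp (continuous_id.sub continuous_const)).continuousAt
  filter_upwards [hc.eventually (gt_mem_nhds h)] with z' hz' using ballB_eq hf hz'

theorem ballB_eventually_zero {b : C3 → ℝ} {z : C3} (hb : ∀ w, 1 / 8 ≤ sqn w → b w = 0)
    (hz : ∀ f ∈ O3, 1 / 4 ≤ sqn (z - f)) : ballB b =ᶠ[𝓝 z] fun _ => 0 := by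
  have hc : ContinuousAt (fun z' : C3 => sqn (z' - z)) z :=
    (continuous_sqn.comp (continuous_id.sub continuous_const)).continuousAt
  have h0 : sqn (z - z) < 1 / 100 := by
    rw [sub_self]; simp [sqn]
  filter_upwards [hc.eventually (gt_mem_nhds h0)] with z' hz'
  refine ballB_zero hb fun f hf => ?_
  have h1 := hz f hf
  by_contra hcon
  rw [not_le] at hcon
  have h2 : enm (z' - z) < 1 / 10 := (enm_lt_iff (by norm_num)).2 (by linarith)
  have h3 : enm (z' - f) < 4 / 10 := (enm_lt_iff (by norm_num)).2 (by linarith)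
  have h4 : enm (z - f) ≤ enm (z' - f) + enm (z' - z) := by
    have : z - f = (z' - f) + -(z' - z) := by abel
    rw [this]
    refine (enm_add_le _ _).trans ?_
    rw [enm_neg]
  have h5 : enm (z - f) < 1 / 2 := by linarith
  rw [enm_lt_iff (by norm_num)] at h5
  linarith

theorem ballB_kmRel {b : C3 → ℝ} (hb : ∀ w, b (om • w) = b w) {z w : C3} (h : kmRel z w) :
    ballB b z = ballB b w := by
  obtain ⟨k, l, hl, rfl⟩ := h
  have hbk : ∀ k w, b (om ^ k • w) = b w := by
    intro k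
    induction k with
    | zero => intro w; simp
    | succ k ih =>
      intro w
      have : om ^ (k + 1) • w = om • (om ^ k • w) := by rw [smul_smul]; congr 1; ring
      rw [this, hb, ih]
  by_cases hex : ∃ f ∈ O3, sqn (z - f) < 1 / 4
  · obtain ⟨f, hf, hfz⟩ := hex
    have h1 : om ^ k • z + l - (om ^ k • f + l) = om ^ k • (z - f) := by
      rw [smul_sub]; abel
    rw [ballB_eq hf hfz, ballB_eq (f := om ^ k • f + l) (O3_add (O3_om_pow hf k) (L3_subset_O3 hl))
      (by rw [h1, sqn_om_pow]; exact hfz), h1, hbk]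
  · have hex' : ¬ ∃ f ∈ O3, sqn (om ^ k • z + l - f) < 1 / 4 := by
      rintro ⟨g, hg, hgz⟩
      apply hex
      -- inverse rotation
      refine ⟨om ^ (2 * k) • (g - l), O3_om_pow (O3_sub hg (L3_subset_O3 hl)) _, ?_⟩
      have h2 : z - om ^ (2 * k) • (g - l) = om ^ (2 * k) • (om ^ k • z + l - g) := by
        have h3 : om ^ (2 * k) * om ^ k = 1 := by
          rw [← pow_add]
          have : 2 * k + k = 3 * k := by ring
          rw [this, pow_mul, om_cube, one_pow]
        rw [smul_sub, smul_sub, smul_add, smul_smul, h3, one_smul]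
        abel
      rw [h2, sqn_om_pow]
      exact hgz
    unfold ballB
    rw [dif_neg hex, dif_neg hex']

end KP

end Pool.Agent.helper90.KMMP
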