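import Pool.Agent.helper90.KMMP.KX

/-!
# Explicit transition maps of the atlas of `X`
-/

open scoped Topology ContDiff
open Set Filter Metric

namespace Pool.Agent.helper90.KMMP

/-- the transition from the exceptional chart `j` to the exceptional chart `k` -/
noncomputable def swapc (j k : Fin 3) (a : C3) : C3 := fun m =>
  if m = k then a j * (Function.update a j 1 k) ^ 3 else
    Function.update a j 1 m / Function.update a j 1 k

theorem exc_swap {f : C3} (hf : f ∈ O3) (j k : Fin 3) {a : C3}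
    (h : Function.update a j (1 : ℂ) k ≠ 0) : exc f k (swapc j k a) = exc f j a :=
  exc_change hf h (fun m hm => by simp [swapc, hm]) (by simp [swapc])

theorem analyticAt_update_one_apply (j k : Fin 3) (a : C3) :
    AnalyticAt ℂ (fun a' : C3 => Function.update a' j (1 : ℂ) k) a :=
  (analyticAt_pi_iff.1 (analyticAt_update_one j a)) k

theorem analyticAt_swapc (j k : Fin 3) {a : C3} (h : Function.update a j (1 : ℂ) k ≠ 0) :
    AnalyticAt ℂ (swapc j k) a := by
  unfold swapc
  rw [analyticAt_pi_iff]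
  intro m
  by_cases hm : m = k
  · simp only [if_pos hm]
    exact (analyticAt_apply j a).mul ((analyticAt_update_one_apply j k a).pow 3)
  · simp only [if_neg hm]
    exact (analyticAt_update_one_apply j m a).div (analyticAt_update_one_apply j k a) h

theorem exc_sub_mem_L3 {f f2 : C3} (hf : f ∈ O3) (hf2 : f2 ∈ O3) {j k : Fin 3} {a b : C3}
    (ha : a ∈ Vexc j) (hb : b ∈ Vexc k) (h : exc f j a = exc f2 k b) : f2 - f ∈ L3 := by
  by_cases ha0 : a j = 0
  · have hb0 : b k = 0 := by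
      by_contra hb0
      obtain ⟨h1, h2⟩ := exc_eq_reg hf2 hb hb0
      rw [h2] at h
      exact exc_ne_reg hf ha0 h1 h
    unfold exc at h
    rw [if_pos ha0, if_pos hb0] at h
    exact sub_mem_L3_of_kmRel hf (kmk_eq_iff.1 h).1
  · have hb0 : b k ≠ 0 := by
      intro hb0
      obtain ⟨h1, h2⟩ := exc_eq_reg hf ha ha0
      rw [h2] at h
      exact exc_ne_reg hf2 hb0 h1 h.symm
    have hs := cbrt_cube (a j)
    have ht := cbrt_cube (b k)
    set s := cbrt (a j)
    set t := cbrt (b k)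
    rw [exc_eq_of_cube hf ha0 hs, exc_eq_of_cube hf2 hb0 ht, reg_eq_reg] at h
    obtain ⟨n, l, hl, h⟩ := h
    have h1 : (f2 - f) - (l - (1 - om ^ n) • f) =
        om ^ n • (s • Function.update a j (1 : ℂ)) - t • Function.update b k 1 := by
      have h2 : f2 = om ^ n • (f + s • Function.update a j 1) + l -
          t • Function.update b k (1 : ℂ) := by
        rw [← h]; abel
      rw [h2, smul_add, sub_smul, one_smul]
      abel
    have h4 : (f2 - f) - (l - (1 - om ^ n) • f) ∈ O3 :=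
      O3_sub (O3_sub hf2 hf) (L3_subset_O3 (L3_sub hl (L3_one_sub_om_pow hf n)))
    have h5 := O3_eq_zero h4 (by
      rw [h1]
      refine (norm_sub_le _ _).trans_lt ?_
      rw [norm_smul, norm_om_pow, one_mul]
      linarith [norm_lt_half_of_mem_Vexc hb ht, norm_lt_half_of_mem_Vexc ha hs])
    rw [sub_eq_zero] at h5
    rw [h5]
    exact L3_sub hl (L3_one_sub_om_pow hf n)

theorem exc_eq_exc_swap {f f2 : C3} (hf : f ∈ O3) (hf2 : f2 ∈ O3) {j k : Fin 3} {a b : C3}
    (ha : a ∈ Vexc j) (hb : b ∈ Vexc k) (h : exc f j a = exc f2 k b) :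
    (∃ l ∈ L3, f2 = f + l) ∧ Function.update a j 1 k ≠ 0 ∧ b = swapc j k a := by
  have h1 := exc_sub_mem_L3 hf hf2 ha hb h
  have h2 : exc f2 k b = exc f k b := by
    have := exc_add_lattice hf h1 k b
    rwa [add_sub_cancel] at this
  rw [h2] at h
  obtain ⟨c, hc, hc'⟩ := exc_eq_exc hf ha hb h
  have hc1 : Function.update a j 1 k = c := by
    rw [← hc]; simp
  have hc0 : c ≠ 0 := by
    rintro rfl
    rw [zero_smul] at hc
    exact update_one_ne_zero j a hc.symm
  refine ⟨⟨f2 - f, h1, by rw [add_sub_cancel]⟩, by rw [hc1]; exact hc0, ?_⟩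
  funext m
  by_cases hm : m = k
  · simp only [swapc, if_pos hm]
    rw [hm, hc', hc1]
  · simp only [swapc, if_neg hm]
    rw [hc1, ← hc, Pi.smul_apply, Function.update_of_ne hm, smul_eq_mul]
    field_simp

theorem reg_eq_exc_psi {z : C3} (hz : z ∉ O3) {f : C3} (hf : f ∈ O3) {j : Fin 3} {a : C3}
    (ha : a ∈ Vexc j) (h : reg z = exc f j a) :
    ∃ n : ℕ, ∃ l ∈ L3, (om ^ n • z + l) j ≠ f j ∧ a = psi f j (om ^ n • z + l) ∧
      ∀ i, ‖(om ^ n • z + l) i - f i‖ < 1 / 2 := by
  have ha0 : a j ≠ 0 := by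
    intro ha0
    exact exc_ne_reg hf ha0 hz h.symm
  have hs := cbrt_cube (a j)
  rw [exc_eq_of_cube hf ha0 hs, reg_eq_reg] at h
  obtain ⟨n, l, hl, h⟩ := h
  refine ⟨n, l, hl, ?_, ?_, ?_⟩
  · rw [← h]
    simpa using cbrt_ne_zero ha0
  · rw [← h, psi_exc f j ha0 hs]
  · intro i
    rw [← h, Pi.add_apply, add_sub_cancel_left]
    exact (norm_le_pi_norm _ i).trans_lt (norm_lt_half_of_mem_Vexc ha hs)

theorem exists_cbrt_local {f : C3} (hf : f ∈ O3) {j : Fin 3} {a : C3} (ha0 : a j ≠ 0) :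
    ∃ c : ℂ → ℂ, AnalyticAt ℂ c (a j) ∧ c (a j) = cbrt (a j) ∧ (∀ t, c t ^ 3 = t) ∧
      AnalyticAt ℂ (fun a' : C3 => f + c (a' j) • Function.update a' j 1) a ∧
      (∀ᶠ a' in 𝓝 a, exc f j a' = reg (f + c (a' j) • Function.update a' j 1)) ∧
      ∀ a' : C3, a' j ≠ 0 → psi f j (f + c (a' j) • Function.update a' j 1) = a' := by
  obtain ⟨c, hc, hcs, hc3⟩ := exists_cbrt_branch ha0 (cbrt_cube (a j))
  refine ⟨c, hc, hcs, hc3, ?_, ?_, ?_⟩
  · have h1 : AnalyticAt ℂ (fun a' : C3 => c (a' j)) a :=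
      AnalyticAt.comp (g := c) (f := fun a' : C3 => a' j) hc (analyticAt_apply j a)
    rw [analyticAt_pi_iff]
    intro i
    refine analyticAt_const.add (h1.mul ?_)
    exact analyticAt_update_one_apply j i a
  · have : ∀ᶠ a' : C3 in 𝓝 a, a' j ≠ 0 :=
      (continuous_apply j).continuousAt.eventually_ne ha0
    filter_upwards [this] with a' ha'
    exact exc_eq_of_cube hf ha' (hc3 _)
  · intro a' ha'
    exact psi_exc f j ha' (hc3 _)

end Pool.Agent.helper90.KMMP
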