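import Pool.Agent.helper90.KMMP.PshA
import Pool.Agent.helper90.KMMP.PolyA
import Pool.Agent.helper90.KMMP.Charts

/-!
# Quasi-logarithmic functions and maximum principles
-/

open scoped Topology ContDiff
open Set Filter Metric

namespace Pool.Agent.helper90.KMMP

variable {X Y W : Type} [TopologicalSpace X] [HolSpace X] [TopologicalSpace Y] [HolSpace Y]
  [TopologicalSpace W] [HolSpace W]

/-- `ψ + ∑ a i log |f i|`, with value `-∞` on the zeros of the `f i` with `a i ≠ 0` -/
noncomputable def QL {ι : Type*} [Fintype ι] (ψ : X → ℝ) (a : ι → ℝ) (f : ι → X → ℂ) (y : X) :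
    EReal :=
  open Classical in
  if ∃ i, a i ≠ 0 ∧ f i y = 0 then ⊥ else ((ψ y + ∑ i, a i * Real.log ‖f i y‖ : ℝ) : EReal)

theorem QL_of_ne {Z : Type} {ι : Type*} [Fintype ι] {ψ : Z → ℝ} {a : ι → ℝ} {f : ι → Z → ℂ} {y : Z}
    (h : ∀ i, a i ≠ 0 → f i y ≠ 0) :
    QL ψ a f y = ((ψ y + ∑ i, a i * Real.log ‖f i y‖ : ℝ) : EReal) := by
  rw [QL, if_neg]
  rintro ⟨i, h1, h2⟩
  exact h i h1 h2

theorem QL_of_eq {Z : Type} {ι : Type*} [Fintype ι] {ψ : Z → ℝ} {a : ι → ℝ} {f : ι → Z → ℂ} {y : Z}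
    {i : ι} (h : a i ≠ 0) (h' : f i y = 0) : QL ψ a f y = ⊥ := by
  rw [QL, if_pos ⟨i, h, h'⟩]

theorem QL_lt_top {Z : Type} {ι : Type*} [Fintype ι] {ψ : Z → ℝ} {a : ι → ℝ} {f : ι → Z → ℂ}
    {y : Z} : QL ψ a f y < ⊤ := by
  rw [QL]
  split_ifs
  · exact bot_lt_top
  · exact EReal.coe_lt_top _

/-- pointwise continuity -/
theorem QL_continuousAt {Z : Type} [TopologicalSpace Z] {ι : Type*} [Fintype ι] {ψ : Z → ℝ}
    {a : ι → ℝ} (ha : ∀ i, 0 ≤ a i) {f : ι → Z → ℂ} {y : Z} (hψ : ContinuousAt ψ y)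
    (hf : ∀ i, ContinuousAt (f i) y) : ContinuousAt (QL ψ a f) y := by
  classical
  by_cases h : ∃ i, a i ≠ 0 ∧ f i y = 0
  · obtain ⟨i₀, h1, h2⟩ := h
    have hpos : 0 < a i₀ := lt_of_le_of_ne (ha i₀) (Ne.symm h1)
    rw [ContinuousAt, QL_of_eq h1 h2, EReal.tendsto_nhds_bot_iff_real]
    intro M
    -- upper bounds
    have hb : ∀ i, ∃ C : ℝ, ∀ᶠ z in 𝓝 y, a i * Real.log ‖f i z‖ ≤ C := by
      intro i
      refine ⟨a i * (‖f i y‖ + 1), ?_⟩
      have : ∀ᶠ z in 𝓝 y, ‖f i z‖ < ‖f i y‖ + 1 :=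
        (hf i).norm.eventually (gt_mem_nhds (by linarith))
      filter_upwards [this] with z hz
      have h3 : Real.log ‖f i z‖ ≤ ‖f i z‖ := by
        have := Real.log_le_self (norm_nonneg (f i z))
        exact this
      exact mul_le_mul_of_nonneg_left (by linarith) (ha i)
    choose C hC using hb
    have hψb : ∀ᶠ z in 𝓝 y, ψ z < ψ y + 1 := hψ.eventually (gt_mem_nhds (by linarith))
    set B : ℝ := ψ y + 1 + ∑ i ∈ Finset.univ.erase i₀, C i with hB
    have hnorm : ∀ᶠ z in 𝓝 y, ‖f i₀ z‖ < Real.exp ((M - B) / a i₀) := by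
      have := (hf i₀).norm.eventually (gt_mem_nhds (show ‖f i₀ y‖ < Real.exp ((M - B) / a i₀) by
        rw [h2, norm_zero]; exact Real.exp_pos _))
      exact this
    filter_upwards [hψb, hnorm, eventually_all.2 hC] with z h3 h4 h5
    by_cases hz : ∃ i, a i ≠ 0 ∧ f i z = 0
    · obtain ⟨i, h6, h7⟩ := hz
      rw [QL_of_eq h6 h7]
      exact EReal.bot_lt_coe M
    · push Not at hz
      rw [QL_of_ne hz]
      have h6 : 0 < ‖f i₀ z‖ := norm_pos_iff.2 (hz i₀ h1)
      have h7 : Real.log ‖f i₀ z‖ < (M - B) / a i₀ := by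
        rw [← Real.log_exp ((M - B) / a i₀)]
        exact Real.log_lt_log h6 h4
      have h8 : a i₀ * Real.log ‖f i₀ z‖ < M - B := by
        rw [lt_div_iff₀ hpos] at h7
        linarith
      have h9 : ∑ i ∈ Finset.univ.erase i₀, a i * Real.log ‖f i z‖ ≤
          ∑ i ∈ Finset.univ.erase i₀, C i := Finset.sum_le_sum fun i _ => h5 i
      have h10 := Finset.sum_erase_add Finset.univ (fun i => a i * Real.log ‖f i z‖)
        (Finset.mem_univ i₀)
      have h11 : ψ z + ∑ i, a i * Real.log ‖f i z‖ < M := by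
        rw [← h10]; linarith
      exact_mod_cast h11
  · push Not at h
    have h1 : ∀ᶠ z in 𝓝 y, ∀ i, a i ≠ 0 → f i z ≠ 0 := by
      rw [eventually_all]
      intro i
      by_cases hai : a i = 0
      · exact Eventually.of_forall fun z h => absurd hai h
      · filter_upwards [(hf i).eventually_ne (h i hai)] with z hz _
        exact hz
    have h2 : QL ψ a f =ᶠ[𝓝 y] fun z => ((ψ z + ∑ i, a i * Real.log ‖f i z‖ : ℝ) : EReal) :=
      h1.mono fun z hz => QL_of_ne hz
    refine ContinuousAt.congr ?_ h2.symm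
    refine continuous_coe_real_ereal.continuousAt.comp ?_
    refine hψ.add (tendsto_finsetSum _ fun i _ => ?_)
    by_cases hai : a i = 0
    · simp only [hai, zero_mul]; exact tendsto_const_nhds
    · exact ((hf i).norm.log (norm_ne_zero_iff.2 (h i hai))).const_mul (a i)

/-! ### maximum principles -/

theorem usc_add_coe {Z : Type} [TopologicalSpace Z] {u : Z → EReal} {g : Z → ℝ} {K : Set Z}
    {z : Z} (hu : UpperSemicontinuousWithinAt u K z) (hg : ContinuousWithinAt g K z) :
    UpperSemicontinuousWithinAt (fun y => u y + g y) K z := by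
  refine hu.add' ?_ ?_
  · exact (continuous_coe_real_ereal.continuousAt.comp_continuousWithinAt
      hg).upperSemicontinuousWithinAt
  · exact EReal.continuousAt_add (Or.inr (EReal.coe_ne_bot _)) (Or.inr (EReal.coe_ne_top _))

/-- Maximum principle on a compact subset `K` of `ℂ`, general form: psh-ness is needed only at points
where `u ≠ -∞`. -/
theorem maxPrinciple_aux {K U : Set ℂ} (hK : IsCompact K) (hU : IsOpen U) (hUK : U ⊆ K)
    {u : ℂ → EReal} (hu : UpperSemicontinuousOn u K) (hpsh : ∀ t ∈ U, u t ≠ ⊥ → PshAt u t) (M : ℝ)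
    (hM : ∀ t ∈ K \ U, u t ≤ M) : ∀ t ∈ K, u t ≤ M := by
  intro t₁ ht₁
  by_contra hcon
  rw [not_le] at hcon
  obtain ⟨M', hM'1, hM'2⟩ := EReal.lt_iff_exists_real_btwn.1 hcon
  have hMM' : M < M' := by exact_mod_cast hM'1
  obtain ⟨R, hR⟩ := hK.isBounded.exists_norm_le
  set η : ℝ := (M' - M) / (R ^ 2 + 1) with hη
  have hη0 : 0 < η := div_pos (by linarith) (by positivity)
  have hηR : η * R ^ 2 < M' - M := by
    rw [hη, div_mul_eq_mul_div, div_lt_iff₀ (by positivity)]
    nlinarith
  have hcont : Continuous fun t : ℂ => η * ‖t‖ ^ 2 := by fun_prop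
  obtain ⟨t₀, ht₀, hmax⟩ := UpperSemicontinuousOn.exists_isMaxOn ⟨t₁, ht₁⟩ hK
    (f := fun t => u t + ((η * ‖t‖ ^ 2 : ℝ) : EReal))
    (fun t ht => usc_add_coe (hu t ht) hcont.continuousWithinAt)
  have h1 : (M' : EReal) < u t₀ + ((η * ‖t₀‖ ^ 2 : ℝ) : EReal) := by
    refine lt_of_lt_of_le hM'2 (le_trans ?_ (hmax ht₁))
    have : (0 : EReal) ≤ ((η * ‖t₁‖ ^ 2 : ℝ) : EReal) := by
      exact_mod_cast (by positivity : 0 ≤ η * ‖t₁‖ ^ 2)
    calc u t₁ = u t₁ + 0 := (add_zero _).symm
      _ ≤ _ := add_le_add_right this _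
  have hle2 : η * ‖t₀‖ ^ 2 ≤ η * R ^ 2 := by
    have := hR t₀ ht₀
    gcongr
  by_cases hU₀ : t₀ ∈ U
  · have hbot : u t₀ ≠ ⊥ := by
      intro h
      rw [h, EReal.bot_add] at h1
      exact not_lt_bot h1
    have hp := hpsh t₀ hU₀ hbot
    have htop : u t₀ ≠ ⊤ := hp.lt_top.ne
    lift u t₀ to ℝ using ⟨htop, hbot⟩ with m hm
    obtain ⟨N, hN, -, -, hdisc⟩ := hp
    obtain ⟨r, hr, hball⟩ := Metric.mem_nhds_iff.1 (inter_mem hN (hU.mem_nhds hU₀))
    set r' : ℝ := r / 2 with hr'
    have hr'0 : 0 < r' := by positivity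
    have hmem : ∀ s ∈ closedBall (0 : ℂ) 1, t₀ + (r' : ℂ) * s ∈ N ∩ U := by
      intro s hs
      apply hball
      rw [mem_ball, dist_eq_norm, add_sub_cancel_left, norm_mul, Complex.norm_real,
        Real.norm_of_nonneg hr'0.le]
      have : ‖s‖ ≤ 1 := by simpa using hs
      nlinarith
    set P : Polynomial ℂ := Polynomial.C (((‖t₀‖ ^ 2 + r' ^ 2 : ℝ) : ℂ)) +
      Polynomial.C (2 * (starRingEnd ℂ) t₀ * r') * Polynomial.X with hP
    have hPev : ∀ s ∈ sphere (0 : ℂ) 1, (P.eval s).re = ‖t₀ + (r' : ℂ) * s‖ ^ 2 := by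
      intro s hs
      have hs1 : ‖s‖ = 1 := by simpa using hs
      have hs2 : s.re * s.re + s.im * s.im = 1 := by
        have := Complex.sq_norm s
        rw [hs1, Complex.normSq_apply] at this
        linarith
      have e1 : ‖t₀ + (r' : ℂ) * s‖ ^ 2 = ‖t₀‖ ^ 2 + r' ^ 2 * (s.re * s.re + s.im * s.im) +
          2 * r' * (t₀.re * s.re + t₀.im * s.im) := by
        rw [Complex.sq_norm, Complex.sq_norm, Complex.normSq_apply, Complex.normSq_apply]
        simp only [Complex.add_re, Complex.add_im, Complex.re_ofReal_mul, Complex.im_ofReal_mul]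
        ring
      have e2 : (P.eval s).re = ‖t₀‖ ^ 2 + r' ^ 2 + 2 * r' * (t₀.re * s.re + t₀.im * s.im) := by
        simp only [hP, Polynomial.eval_add, Polynomial.eval_C, Polynomial.eval_mul,
          Polynomial.eval_X, Complex.add_re, Complex.ofReal_re, Complex.mul_re, Complex.mul_im,
          Complex.conj_re, Complex.conj_im, Complex.ofReal_im, Complex.re_ofNat, Complex.im_ofNat]
        ring
      rw [e1, e2, hs2, mul_one]
    have hle : ∀ s ∈ sphere (0 : ℂ) 1, u (t₀ + (r' : ℂ) * s) ≤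
        (((m + η * ‖t₀‖ ^ 2) - η * (P.eval s).re : ℝ) : EReal) := by
      intro s hs
      rw [hPev s hs]
      have h2 := hmax (hUK (hmem s (sphere_subset_closedBall hs)).2)
      have h3 : u (t₀ + (r' : ℂ) * s) + ((η * ‖t₀ + (r' : ℂ) * s‖ ^ 2 : ℝ) : EReal) +
          ((-(η * ‖t₀ + (r' : ℂ) * s‖ ^ 2) : ℝ) : EReal) ≤
          ((m + η * ‖t₀‖ ^ 2 : ℝ) : EReal) + ((-(η * ‖t₀ + (r' : ℂ) * s‖ ^ 2) : ℝ) : EReal) := by
        refine add_le_add_left ?_ _
        refine h2.trans (le_of_eq ?_)
        simp only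
        rw [← hm]
        norm_cast
      rw [add_assoc, ← EReal.coe_add, add_neg_cancel, EReal.coe_zero, add_zero,
        ← EReal.coe_add] at h3
      exact h3
    have key := hdisc (fun s => t₀ + (r' : ℂ) * s) (fun s hs => ⟨(hmem s hs).1, by
      refine ⟨by fun_prop, fun g hg => ?_⟩
      have hg' : AnalyticAt ℂ g (t₀ + (r' : ℂ) * s) := hg
      exact AnalyticAt.fun_comp hg' (by fun_prop)⟩)
      (fun s => (m + η * ‖t₀‖ ^ 2) - η * (P.eval s).re)
      (continuous_const.sub (continuous_const.mul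
        (Complex.continuous_re.comp P.continuous))).continuousOn hle
    have havg : Real.circleAverage (fun s => (m + η * ‖t₀‖ ^ 2) - η * (P.eval s).re) 0 1 =
        (m + η * ‖t₀‖ ^ 2) - η * (‖t₀‖ ^ 2 + r' ^ 2) := by
      have h4 : (fun s => (m + η * ‖t₀‖ ^ 2) - η * (P.eval s).re) =
          fun s => ((Polynomial.C (((m + η * ‖t₀‖ ^ 2 : ℝ)) : ℂ) -
            Polynomial.C ((η : ℝ) : ℂ) * P).eval s).re := by
        funext s
        simp only [Polynomial.eval_sub, Polynomial.eval_C, Polynomial.eval_mul, Complex.sub_re,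
          Complex.ofReal_re, Complex.re_ofReal_mul]
      rw [h4, circleAverage_re_poly]
      simp only [Polynomial.eval_sub, Polynomial.eval_C, Polynomial.eval_mul, Complex.sub_re,
          Complex.ofReal_re, Complex.re_ofReal_mul, hP, Polynomial.eval_add, Polynomial.eval_X,
          mul_zero, add_zero]
    rw [havg] at key
    simp only [mul_zero, add_zero] at key
    rw [← hm] at key
    have h5 : m ≤ (m + η * ‖t₀‖ ^ 2) - η * (‖t₀‖ ^ 2 + r' ^ 2) := by exact_mod_cast key
    nlinarith [mul_pos hη0 (pow_pos hr'0 2)]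
  · have h2 := hM t₀ ⟨ht₀, hU₀⟩
    have h3 : u t₀ + ((η * ‖t₀‖ ^ 2 : ℝ) : EReal) ≤ ((M + η * ‖t₀‖ ^ 2 : ℝ) : EReal) := by
      rw [EReal.coe_add]
      exact add_le_add_left h2 _
    have h4 : M' < M + η * ‖t₀‖ ^ 2 := by exact_mod_cast h1.trans_le h3
    linarith

/-- Maximum principle on a compact subset `K` of `ℂ`: `u` is usc on `K` and psh on the open set
`U ⊆ K`, and `≤ M` on `K \ U`. -/
theorem maxPrinciple {K U : Set ℂ} (hK : IsCompact K) (hU : IsOpen U) (hUK : U ⊆ K)
    {u : ℂ → EReal} (hu : UpperSemicontinuousOn u K) (hpsh : ∀ t ∈ U, PshAt u t) (M : ℝ)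
    (hM : ∀ t ∈ K \ U, u t ≤ M) : ∀ t ∈ K, u t ≤ M :=
  maxPrinciple_aux hK hU hUK hu (fun t ht _ => hpsh t ht) M hM

/-- Maximum principle along a disc in `X` for a psh function `u` on a neighbourhood of the disc. -/
theorem maxPrinciple_disc {u : X → EReal} {c : ℂ → X}
    (hc : ∀ t ∈ closedBall (0 : ℂ) 1, HolMapAt c t ∧ PshAt u (c t)) (M : ℝ)
    (hM : ∀ t ∈ sphere (0 : ℂ) 1, u (c t) ≤ M) : ∀ t ∈ closedBall (0 : ℂ) 1, u (c t) ≤ M := by
  refine maxPrinciple (isCompact_closedBall 0 1) isOpen_ball ball_subset_closedBall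
    (u := fun t => u (c t)) ?_ ?_ M ?_
  · intro t ht a ha
    have h1 := (hc t ht).2.upperSemicontinuousAt a ha
    exact ((hc t ht).1.1.eventually h1).filter_mono nhdsWithin_le_nhds
  · intro t ht
    refine ((hc t (ball_subset_closedBall ht)).2).comp (f := c) ?_
    filter_upwards [isOpen_ball.mem_nhds ht] with s hs
    exact (hc s (ball_subset_closedBall hs)).1
  · rintro t ⟨ht1, ht2⟩
    apply hM
    rw [mem_sphere]
    exact le_antisymm (mem_closedBall.1 ht1) (not_lt.1 ht2)

/-- quasi-logarithmic functions are continuous with values in `EReal` -/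
theorem continuousAt_QL {n : ℕ} (hX : IsComplexManifold X n) {ι : Type*} [Fintype ι] {ψ : X → ℝ}
    {x : X} (hψ' : ∀ᶠ y in 𝓝 x, ContinuousAt ψ y)
    {a : ι → ℝ} (ha : ∀ i, 0 ≤ a i) {f : ι → X → ℂ} (hf : ∀ i, Hol (f i) x) :
    ContinuousAt (QL ψ a f) x :=
  QL_continuousAt ha hψ'.self_of_nhds fun i => Hol.continuousAt hX.isComplexSpace (hf i)

/-- quasi-logarithmic functions are psh -/
theorem pshAt_QL {n : ℕ} (hX : IsComplexManifold X n) {ι : Type*} [Fintype ι] {ψ : X → ℝ} {x : X}
    (hψ : PshAt (fun y => (ψ y : EReal)) x) (hψ' : ∀ᶠ y in 𝓝 x, ContinuousAt ψ y)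
    {a : ι → ℝ} (ha : ∀ i, 0 ≤ a i) {f : ι → X → ℂ} (hf : ∀ i, Hol (f i) x) :
    PshAt (QL ψ a f) x := by
  classical
  have hev : ∀ᶠ y in 𝓝 x, PshAt (fun y => (ψ y : EReal)) y ∧ ContinuousAt ψ y ∧
      ∀ i, Hol (f i) y :=
    hψ.eventually.and (hψ'.and (eventually_all.2 fun i => HolSpace.hol_eventually (hf i)))
  refine ⟨_, hev, fun y _ => QL_lt_top, ?_, ?_⟩
  · intro y hy
    exact (QL_continuousAt ha hy.2.1 fun i =>
      Hol.continuousAt hX.isComplexSpace (hy.2.2 i)).continuousWithinAt.upperSemicontinuousWithinAt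
  intro c hc φ hφ hle
  apply EReal.le_of_forall_lt_iff_le.1
  intro q hq
  have hq' : Real.circleAverage φ 0 1 < q := by exact_mod_cast hq
  set η : ℝ := (q - Real.circleAverage φ 0 1) / 2 with hη
  have hη0 : 0 < η := by rw [hη]; linarith
  obtain ⟨P, hP⟩ := exists_poly_approx hφ hη0
  have hPc : Continuous fun t : ℂ => -(P.eval t).re :=
    (Complex.continuous_re.comp P.continuous).neg
  have hPH : ∀ t : ℂ, PHAt (fun t : ℂ => -(P.eval t).re) t := fun t =>
    ⟨fun t => -(P.eval t), by
      change AnalyticAt ℂ (fun t => -(P.eval t)) t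
      exact (AnalyticAt.aeval_polynomial (f := fun z : ℂ => z) analyticAt_id P).neg,
      Eventually.of_forall fun y => by simp⟩
  have hadd : ∀ t : ℂ, QL ψ a f (c t) + ((-(P.eval t).re : ℝ) : EReal) =
      QL (fun t => ψ (c t) + -(P.eval t).re) a (fun i t => f i (c t)) t := by
    intro t
    by_cases h : ∃ i, a i ≠ 0 ∧ f i (c t) = 0
    · obtain ⟨i, h1, h2⟩ := h
      rw [QL_of_eq h1 h2, QL_of_eq (f := fun i t => f i (c t)) h1 h2, EReal.bot_add]
    · push Not at h
      rw [QL_of_ne h, QL_of_ne (f := fun i t => f i (c t)) h, ← EReal.coe_add]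
      congr 1
      ring
  have key := maxPrinciple_aux (K := closedBall (0 : ℂ) 1) (U := ball (0 : ℂ) 1)
    (isCompact_closedBall 0 1) isOpen_ball ball_subset_closedBall
    (u := fun t => QL (fun t => ψ (c t) + -(P.eval t).re) a (fun i t => f i (c t)) t)
    ?_ ?_ η ?_ 0 (by simp)
  · rw [← hadd] at key
    have h1 : QL ψ a f (c 0) + ((-(P.eval 0).re : ℝ) : EReal) + (((P.eval 0).re : ℝ) : EReal) ≤
        (η : EReal) + (((P.eval 0).re : ℝ) : EReal) := add_le_add_left key _
    rw [add_assoc, ← EReal.coe_add, neg_add_cancel, EReal.coe_zero, add_zero, ← EReal.coe_add] at h1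
    refine h1.trans ?_
    have h2 : (P.eval 0).re ≤ Real.circleAverage φ 0 1 + η := by
      rw [← circleAverage_re_poly]
      have h3 : Real.circleAverage (fun t => (P.eval t).re) 0 1 ≤
          Real.circleAverage (fun t => φ t + η) 0 1 := by
        apply Real.circleAverage_mono
        · exact (Complex.continuous_re.comp P.continuous).continuousOn.circleIntegrable (by norm_num)
        · exact (hφ.add continuousOn_const).circleIntegrable (by norm_num)
        · intro t ht
          have := (abs_lt.1 (hP t (by simpa using ht))).1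
          linarith
      rw [Real.circleAverage_fun_add (hφ.circleIntegrable (by norm_num))
        (continuousOn_const.circleIntegrable (by norm_num)), Real.circleAverage_const] at h3
      exact h3
    have h4 : η + (P.eval 0).re ≤ q := by linarith
    exact_mod_cast h4
  · intro t ht
    obtain ⟨⟨-, hct, hft⟩, hc2⟩ := hc t ht
    have hcc : ContinuousAt c t := hc2.1
    exact (QL_continuousAt ha ((hct.comp (f := c) hcc).add hPc.continuousAt) fun i =>
      (Hol.continuousAt hX.isComplexSpace (hft i)).comp (f := c)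
        hcc).continuousWithinAt.upperSemicontinuousWithinAt
  · intro t ht hne
    have hct := hc t (ball_subset_closedBall ht)
    have hcev : ∀ᶠ s in 𝓝 t, HolMapAt c s := by
      filter_upwards [isOpen_ball.mem_nhds ht] with s hs
      exact (hc s (ball_subset_closedBall hs)).2
    have h0 : ∀ i, a i ≠ 0 → f i (c t) ≠ 0 := by
      intro i h1 h2
      exact hne (QL_of_eq (f := fun i t => f i (c t)) h1 h2)
    have hHol : ∀ i, Hol (fun s => f i (c s)) t := fun i => hct.2.2 _ (hct.1.2.2 i)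
    have hψc : PshAt (fun s => ((ψ (c s) : ℝ) : EReal)) t := hct.1.1.comp (f := c) hcev
    have hsum : PHAt (fun s => -(P.eval s).re + ∑ i, a i * Real.log ‖f i (c s)‖) t := by
      refine (hPH t).add (PHAt.sum fun i _ => ?_)
      by_cases hai : a i = 0
      · simp only [hai, zero_mul]
        exact phAt_const 0 t
      · exact (phAt_log isComplexManifold_C (hHol i) (h0 i hai)).const_mul (a i)
    have hcont : ∀ᶠ s in 𝓝 t, ContinuousAt
        (fun s => -(P.eval s).re + ∑ i, a i * Real.log ‖f i (c s)‖) s := by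
      have h1 : ∀ᶠ s in 𝓝 t, ∀ i, a i ≠ 0 → f i (c s) ≠ 0 := by
        rw [eventually_all]
        intro i
        by_cases hai : a i = 0
        · exact Eventually.of_forall fun z h => absurd hai h
        · have hcf : ContinuousAt (fun s => f i (c s)) t :=
            Hol.continuousAt isComplexManifold_C.isComplexSpace (hHol i)
          filter_upwards [hcf.eventually_ne (h0 i hai)] with z hz _
          exact hz
      have h2 : ∀ᶠ s in 𝓝 t, ∀ i, Hol (fun s => f i (c s)) s :=
        eventually_all.2 fun i => HolSpace.hol_eventually (hHol i)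
      filter_upwards [h1, h2] with s hs1 hs2
      refine hPc.continuousAt.add (tendsto_finsetSum _ fun i _ => ?_)
      by_cases hai : a i = 0
      · simp only [hai, zero_mul]; exact tendsto_const_nhds
      · exact ((Hol.continuousAt isComplexManifold_C.isComplexSpace (hs2 i)).norm.log
          (norm_ne_zero_iff.2 (hs1 i hai))).const_mul (a i)
    have hpsh := hψc.add_coe (hsum.pshAt isComplexManifold_C) hcont
    refine hpsh.congr ?_
    have h1 : ∀ᶠ s in 𝓝 t, ∀ i, a i ≠ 0 → f i (c s) ≠ 0 := by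
      rw [eventually_all]
      intro i
      by_cases hai : a i = 0
      · exact Eventually.of_forall fun z h => absurd hai h
      · have hcf : ContinuousAt (fun s => f i (c s)) t :=
          Hol.continuousAt isComplexManifold_C.isComplexSpace (hHol i)
        filter_upwards [hcf.eventually_ne (h0 i hai)] with z hz _
        exact hz
    filter_upwards [h1] with s hs
    rw [QL_of_ne (f := fun i t => f i (c t)) hs, ← EReal.coe_add]
    congr 1
    ring
  · rintro t ⟨ht1, ht2⟩
    have ht : t ∈ sphere (0 : ℂ) 1 := by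
      rw [mem_sphere]
      exact le_antisymm (mem_closedBall.1 ht1) (not_lt.1 ht2)
    rw [← hadd]
    have h1 := (abs_lt.1 (hP t ht)).2
    calc QL ψ a f (c t) + ((-(P.eval t).re : ℝ) : EReal)
        ≤ (φ t : EReal) + ((-(P.eval t).re : ℝ) : EReal) := add_le_add_left (hle t ht) _
      _ ≤ η := by
        rw [← EReal.coe_add]
        have : φ t + -(P.eval t).re ≤ η := by linarith
        exact_mod_cast this

theorem circleAverage_lt {φ : ℂ → ℝ} {M : ℝ} (hφ : ContinuousOn φ (sphere 0 1))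
    (hle : ∀ t ∈ sphere (0 : ℂ) 1, φ t ≤ M) {t₁ : ℂ} (ht₁ : t₁ ∈ sphere (0 : ℂ) 1)
    (hlt : φ t₁ < M) : Real.circleAverage φ 0 1 < M := by
  have hmem : ∀ θ : ℝ, circleMap 0 1 θ ∈ sphere (0 : ℂ) 1 := fun θ =>
    circleMap_mem_sphere 0 zero_le_one θ
  have hcont : Continuous fun θ : ℝ => φ (circleMap 0 1 θ) :=
    hφ.comp_continuous (continuous_circleMap 0 1) hmem
  have hpos : 0 < ∫ θ in (0 : ℝ)..2 * Real.pi, (M - φ (circleMap 0 1 θ)) := by
    have hc2 : Continuous fun θ : ℝ => M - φ (circleMap 0 1 θ) := continuous_const.sub hcont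
    apply intervalIntegral.integral_pos Real.two_pi_pos hc2.continuousOn
    · intro θ _
      have := hle _ (hmem θ)
      linarith
    · have h1 : t₁ ∈ range (circleMap 0 1) := by
        rw [range_circleMap]; simpa using ht₁
      obtain ⟨θ, hθ⟩ := h1
      obtain ⟨θ', h2, h3⟩ := (periodic_circleMap 0 1).exists_mem_Ico₀ Real.two_pi_pos θ
      refine ⟨θ', Ico_subset_Icc_self h2, ?_⟩
      rw [← h3, hθ]
      linarith
  rw [intervalIntegral.integral_sub (by simp) (hcont.intervalIntegrable _ _),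
    intervalIntegral.integral_const, smul_eq_mul, sub_zero] at hpos
  rw [Real.circleAverage, smul_eq_mul, inv_mul_lt_iff₀ Real.two_pi_pos]
  linarith

/-- A psh function on a compact connected manifold of dimension 1 is constant. -/
theorem psh_constant {S : Type} [TopologicalSpace S] [HolSpace S] [CompactSpace S] [T2Space S]
    [ConnectedSpace S] (hS : IsComplexManifold S 1) {u : S → EReal} (hu : ∀ s, PshAt u s)
    (hne : ∃ s, u s ≠ ⊥) : ∃ c : ℝ, ∀ s, u s = c := by
  have husc : UpperSemicontinuous u := fun s => (hu s).upperSemicontinuousAt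
  obtain ⟨s₁, hs₁⟩ := hne
  obtain ⟨s₀, -, hmax⟩ := UpperSemicontinuousOn.exists_isMaxOn (s := (univ : Set S))
    ⟨s₁, mem_univ _⟩ isCompact_univ (f := u) (husc.upperSemicontinuousOn _)
  have hmax' : ∀ s, u s ≤ u s₀ := fun s => hmax (mem_univ s)
  have htop : u s₀ ≠ ⊤ := (hu s₀).lt_top.ne
  have hbot : u s₀ ≠ ⊥ := fun h => hs₁ (le_bot_iff.1 (h ▸ hmax' s₁))
  lift u s₀ to ℝ using ⟨htop, hbot⟩ with M hM
  refine ⟨M, ?_⟩
  have hclosed : IsClosed {s | u s = M} := by
    have h1 : {s | u s = M} = u ⁻¹' (Ici (M : EReal)) := by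
      ext s
      exact ⟨fun h => h.ge, fun h => le_antisymm (hmax' s) h⟩
    rw [h1]
    exact husc.isClosed_preimage _
  have hopen : IsOpen {s | u s = M} := by
    rw [isOpen_iff_mem_nhds]
    intro s hs
    have hs' : u s = M := hs
    obtain ⟨U, hU, -, -, hdisc⟩ := hu s
    obtain ⟨e, he, hse⟩ := hS s
    have h1 : ∀ᶠ v in 𝓝 (e s), v ∈ e.target ∧ e.symm v ∈ U := by
      refine Filter.Eventually.and (e.open_target.mem_nhds (e.map_source hse)) ?_
      have h2 : Tendsto e.symm (𝓝 (e s)) (𝓝 s) := by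
        have := e.symm.continuousAt (e.map_source hse)
        rw [ContinuousAt, e.left_inv hse] at this
        exact this
      exact h2.eventually hU
    obtain ⟨r, hr, hball⟩ := Metric.mem_nhds_iff.1 h1
    have h3 : ∀ᶠ z in 𝓝 s, z ∈ e.source ∧ e z ∈ ball (e s) r :=
      Filter.Eventually.and (e.open_source.mem_nhds hse) ((e.continuousAt hse).eventually (ball_mem_nhds _ hr))
    filter_upwards [h3] with z ⟨hz1, hz2⟩
    by_contra hcon
    have hlt : u z < M := lt_of_le_of_ne (hmax' z) hcon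
    obtain ⟨b, hb1, hb2⟩ := EReal.lt_iff_exists_real_btwn.1 hlt
    have hbM : b < M := by exact_mod_cast hb2
    -- the disc
    set d : ℂ := e z 0 - e s 0 with hd
    have hd1 : ‖d‖ < r := by
      have h4 := mem_ball.1 hz2
      rw [dist_eq_norm] at h4
      exact (norm_le_pi_norm (e z - e s) 0).trans_lt h4
    have hd0 : d ≠ 0 := by
      intro h
      have h4 : e z = e s := by
        funext i
        rw [Subsingleton.elim i 0]
        exact sub_eq_zero.1 h
      have h5 : z = s := e.injOn hz1 hse h4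
      rw [h5, hs'] at hlt
      exact lt_irrefl _ hlt
    set c : ℂ → S := fun t => e.symm (fun i => e s i + t * d) with hc
    have hc0 : c 0 = s := by
      simp only [hc, zero_mul, add_zero]
      exact e.left_inv hse
    have hc1 : c 1 = z := by
      have h4 : (fun i => e s i + 1 * d) = e z := by
        funext i
        rw [Subsingleton.elim i 0, hd]
        ring
      simp only [hc]
      rw [h4, e.left_inv hz1]
    have hcmem : ∀ t ∈ closedBall (0 : ℂ) 1, (fun i => e s i + t * d) ∈ ball (e s) r := by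
      intro t ht
      have ht' : ‖t‖ ≤ 1 := by simpa using ht
      rw [mem_ball, dist_eq_norm]
      refine (pi_norm_lt_iff hr).2 fun i => ?_
      simp only [Pi.sub_apply, add_sub_cancel_left, norm_mul]
      nlinarith [norm_nonneg d]
    have hcU : ∀ t ∈ closedBall (0 : ℂ) 1, c t ∈ U ∧ HolMapAt c t := by
      intro t ht
      obtain ⟨h4, h5⟩ := hball (hcmem t ht)
      refine ⟨h5, ?_⟩
      refine HolMapAt.comp (g := e.symm) (f := fun t : ℂ => (fun i => e s i + t * d))
        (he.holMapAt_symm h4) (holMapAt_of_analyticAt_C ?_)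
      exact (analyticAt_pi_iff.2 fun i => by fun_prop)
    -- the majorant
    have hcc : ContinuousAt c 1 := (hcU 1 (by simp)).2.1
    have h6 : ∀ᶠ t in 𝓝 (1 : ℂ), u (c t) < b := by
      have h7 : ∀ᶠ y in 𝓝 (c 1), u y < b := by
        rw [hc1]
        exact husc z b hb1
      exact hcc.eventually h7
    obtain ⟨δ, hδ, hδb⟩ := Metric.mem_nhds_iff.1 h6
    set φ : ℂ → ℝ := fun t => M - (M - b) * max 0 (1 - ‖t - 1‖ / δ) with hφ
    have hφc : Continuous φ := by fun_prop
    have hφle : ∀ t, φ t ≤ M := by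
      intro t
      have : 0 ≤ (M - b) * max 0 (1 - ‖t - 1‖ / δ) :=
        mul_nonneg (by linarith) (le_max_left _ _)
      simp only [hφ]; linarith
    have hφ1 : φ 1 < M := by
      simp only [hφ, sub_self, norm_zero, zero_div, sub_zero]
      rw [max_eq_right zero_le_one]
      linarith
    have hle : ∀ t ∈ sphere (0 : ℂ) 1, u (c t) ≤ (φ t : EReal) := by
      intro t ht
      by_cases h7 : ‖t - 1‖ < δ
      · have h8 : u (c t) < b := hδb (by rw [mem_ball, dist_eq_norm]; exact h7)
        refine h8.le.trans ?_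
        have h9 : max 0 (1 - ‖t - 1‖ / δ) ≤ 1 := by
          refine max_le zero_le_one ?_
          have : 0 ≤ ‖t - 1‖ / δ := by positivity
          linarith
        have h10 : b ≤ φ t := by
          simp only [hφ]
          nlinarith
        exact_mod_cast h10
      · have h8 : max 0 (1 - ‖t - 1‖ / δ) = 0 := by
          apply max_eq_left
          rw [sub_nonpos, le_div_iff₀ hδ]
          linarith
        have h9 : φ t = M := by simp only [hφ, h8]; ring
        rw [h9]
        exact hmax' _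
    have key := hdisc c hcU φ hφc.continuousOn hle
    rw [hc0, hs'] at key
    have key' : M ≤ Real.circleAverage φ 0 1 := by exact_mod_cast key
    have := circleAverage_lt hφc.continuousOn (fun t _ => hφle t) (t₁ := 1) (by simp) hφ1
    linarith
  have huniv : {s | u s = M} = univ :=
    IsClopen.eq_univ ⟨hclosed, hopen⟩ ⟨s₀, hM.symm⟩
  intro s
  have : s ∈ {s | u s = M} := huniv ▸ mem_univ s
  exact this

end Pool.Agent.helper90.KMMP
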