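import Pool.Agent.helper90.KMMP.PshA
import Pool.Agent.helper90.KMMP.PshB

/-!
# Toolbox on holomorphic maps, pluriharmonic and plurisubharmonic functions
-/
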