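import Pool.Agent.helper90.KMMP.KXPot
import Pool.Agent.helper90.KMMP.KXTrans
import Pool.Agent.helper90.KMMP.Psh

/-!
# Potentials on the threefold from potentials on the charts
-/

set_option linter.unusedSectionVars false
set_option linter.unusedVariables false

open scoped Topology ContDiff
open Set Filter Metric MeasureTheory

namespace Pool.Agent.helper90.KMMP
namespace KP

/-! ### pluriharmonic functions on `ℂ³` -/

theorem phAt_re {F : C3 → ℂ} {x : C3} (hF : AnalyticAt ℂ F x) : PHAt (fun y => (F y).re) x :=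
  ⟨F, hF, EventuallyEq.rfl⟩

theorem phAt_zero_of_eventually {u : C3 → ℝ} {x : C3} (hu : ∀ᶠ y in 𝓝 x, u y = 0) : PHAt u x :=
  ⟨fun _ => 0, analyticAt_const, by simpa [EventuallyEq] using hu⟩

theorem phAt_logC {F : C3 → ℂ} {x : C3} (hF : AnalyticAt ℂ F x) (h0 : F x ≠ 0) :
    PHAt (fun y => Real.log ‖F y‖) x := by
  refine ⟨fun y => Complex.log (F y / F x) + (Real.log ‖F x‖ : ℝ), ?_, ?_⟩
  · refine AnalyticAt.add ?_ analyticAt_const
    refine AnalyticAt.clog (hF.div analyticAt_const h0) ?_
    rw [div_self h0]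
    exact Complex.one_mem_slitPlane
  · filter_upwards [hF.continuousAt.eventually_ne h0] with y hy
    rw [Complex.add_re, Complex.log_re, Complex.ofReal_re, norm_div,
      Real.log_div (norm_ne_zero_iff.2 hy) (norm_ne_zero_iff.2 h0)]
    ring

theorem herm_add_right {n : ℕ} (x v w : Fin n → ℂ) : herm x (v + w) = herm x v + herm x w := by
  unfold herm
  rw [← Finset.sum_add_distrib]
  exact Finset.sum_congr rfl fun i _ => by rw [Pi.add_apply]; ring

theorem sqn_add {n : ℕ} (w c : Fin n → ℂ) : sqn (w + c) = sqn w + 2 * (herm c w).re + sqn c := by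
  unfold sqn herm
  rw [Complex.re_sum, Finset.mul_sum, ← Finset.sum_add_distrib, ← Finset.sum_add_distrib]
  refine Finset.sum_congr rfl fun i _ => ?_
  rw [Pi.add_apply, Complex.sq_norm, Complex.sq_norm, Complex.sq_norm, Complex.normSq_apply,
    Complex.normSq_apply, Complex.normSq_apply]
  simp only [Complex.add_re, Complex.add_im, Complex.mul_re, Complex.conj_re, Complex.conj_im]
  ring

theorem analyticAt_herm (c : C3) (x : C3) : AnalyticAt ℂ (fun w : C3 => herm c w) x := by
  unfold herm
  exact Finset.analyticAt_fun_sum _ fun i _ => analyticAt_const.mul (analyticAt_apply i x)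

theorem analyticAt_affine (u : ℂ) (c x : C3) : AnalyticAt ℂ (fun z : C3 => u • z + c) x := by
  rw [analyticAt_pi_iff]
  intro i
  exact (analyticAt_const.mul (analyticAt_apply i x)).add analyticAt_const

theorem analyticAt_LL (x : C3) : AnalyticAt ℂ LL x := by
  unfold LL
  exact (analyticAt_apply 0 x).add (analyticAt_const.mul (analyticAt_apply 1 x))

theorem phAt_sqn_sub {u : ℂ} (hu : ‖u‖ = 1) (c x : C3) :
    PHAt (fun z : C3 => sqn z - sqn (u • z + c)) x := by
  have h1 : AnalyticAt ℂ (fun z : C3 => -(2 * herm c (u • z) + (sqn c : ℝ))) x := by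
    have h2 : AnalyticAt ℂ (fun z : C3 => u • z) x := by
      simpa using analyticAt_affine u 0 x
    have h3 : AnalyticAt ℂ (fun z : C3 => herm c (u • z)) x :=
      AnalyticAt.comp (g := fun w => herm c w) (analyticAt_herm c _) h2
    exact ((analyticAt_const.mul h3).add analyticAt_const).neg
  refine (phAt_re h1).congr ?_
  refine Eventually.of_forall fun z => ?_
  simp only
  rw [sqn_add, sqn_smul, hu]
  simp only [Complex.neg_re, Complex.add_re, Complex.ofReal_re, Complex.mul_re]
  simp
  ring

theorem LL_add' (z w : C3) : LL (z + w) = LL z + LL w := by simp [LL]; ring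

theorem LL_smul' (t : ℂ) (w : C3) : LL (t • w) = t * LL w := by simp [LL]; ring

theorem normSq_add (z w : ℂ) :
    ‖z + w‖ ^ 2 = ‖z‖ ^ 2 + 2 * ((starRingEnd ℂ) w * z).re + ‖w‖ ^ 2 := by
  rw [Complex.sq_norm, Complex.sq_norm, Complex.sq_norm, Complex.normSq_apply,
    Complex.normSq_apply, Complex.normSq_apply]
  simp only [Complex.add_re, Complex.add_im, Complex.mul_re, Complex.conj_re, Complex.conj_im]
  ring

theorem phAt_LL_sub {u : ℂ} (hu : ‖u‖ = 1) (c x : C3) :
    PHAt (fun z : C3 => ‖LL z‖ ^ 2 - ‖LL (u • z + c)‖ ^ 2) x := by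
  have h1 : AnalyticAt ℂ (fun z : C3 => -(2 * ((starRingEnd ℂ) (LL c) * (u * LL z)) +
      (‖LL c‖ ^ 2 : ℝ))) x :=
    ((analyticAt_const.mul (analyticAt_const.mul (analyticAt_const.mul
      (analyticAt_LL x)))).add analyticAt_const).neg
  refine (phAt_re h1).congr ?_
  refine Eventually.of_forall fun z => ?_
  simp only
  rw [LL_add', LL_smul', normSq_add, norm_mul, hu]
  simp only [Complex.neg_re, Complex.add_re, Complex.ofReal_re, Complex.mul_re]
  simp
  ring

/-! ### potentials on `X` -/

/-- compatible potentials on the charts -/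
structure PotData (G : C3 → ℝ) (E : Fin 3 → C3 → ℝ) : Prop where
  contG : ∀ z, z ∉ O3 → ContinuousAt G z
  contE : ∀ j, ∀ a ∈ Vexc j, ContinuousAt (E j) a
  reg_reg : ∀ z, z ∉ O3 → ∀ (k : ℕ), ∀ l ∈ L3, PHAt (fun z' => G z' - G (om ^ k • z' + l)) z
  reg_exc : ∀ f ∈ O3, ∀ j, ∀ z : C3, z j ≠ f j → (∀ i, ‖z i - f i‖ < 1 / 2) →
    PHAt (fun z' => G z' - E j (psi f j z')) z
  exc_exc : ∀ j k, ∀ a ∈ Vexc j, Function.update a j (1 : ℂ) k ≠ 0 →
    PHAt (fun a' => E j a' - E k (swapc j k a')) a

/-- the potentials on the atlas -/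
noncomputable def atlasPot (G : C3 → ℝ) (E : Fin 3 → C3 → ℝ) : kmAtlas.I → C3 → ℝ := fun i =>
  match i with
  | none => G
  | some (_, j) => E j

theorem PotData.exists_locPot {G : C3 → ℝ} {E : Fin 3 → C3 → ℝ} (h : PotData G E) :
    ∃ L : LocPot KX, HasPot L G E := by
  obtain ⟨L, hL⟩ := kmAtlas_compatible.exists_locPot (atlasPot G E) (by
    rintro (_ | ⟨⟨f, hf⟩, j⟩) a ha
    · exact h.contG a ha
    · exact h.contE j a ha) (by
    rintro (_ | ⟨⟨f, hf⟩, j⟩) (_ | ⟨⟨f', hf'⟩, j'⟩) a ha b hb hab
    · -- regular - regular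
      have hab' : reg a = reg b := hab
      rw [reg_eq_reg] at hab'
      obtain ⟨k, l, hl, rfl⟩ := hab'
      refine ⟨fun z' => om ^ k • z' + l, analyticAt_affine _ _ _, rfl,
        Eventually.of_forall fun z' => (reg_eq_reg.2 ⟨k, l, hl, rfl⟩).symm, ?_⟩
      exact h.reg_reg a ha k l hl
    · -- regular - exceptional
      have hab' : reg a = exc f' j' b := hab
      obtain ⟨n, l, hl, h1, h2, h3⟩ := reg_eq_exc_psi ha hf' hb hab'
      have h4 : AnalyticAt ℂ (fun z' : C3 => psi f' j' (om ^ n • z' + l)) a :=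
        AnalyticAt.comp (g := psi f' j') (f := fun z' : C3 => om ^ n • z' + l)
          (analyticAt_psi f' j' h1) (analyticAt_affine _ _ _)
      refine ⟨fun z' => psi f' j' (om ^ n • z' + l), h4, h2.symm, ?_, ?_⟩
      · have h5 : ∀ᶠ z' : C3 in 𝓝 a, (om ^ n • z' + l) j' ≠ f' j' := by
          have : Continuous fun z' : C3 => (om ^ n • z' + l) j' := by fun_prop
          exact this.continuousAt.eventually_ne h1
        filter_upwards [h5] with z' hz'
        show exc f' j' _ = reg z'
        rw [← reg_eq_exc hf' j' hz', reg_eq_reg]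
        exact kmRel_symm ⟨n, l, hl, rfl⟩
      · have h6 := h.reg_exc f' hf' j' _ h1 h3
        have h7 : PHAt (fun z' : C3 => G (om ^ n • z' + l) - E j' (psi f' j' (om ^ n • z' + l))) a :=
          PHAt.comp (u := fun z' => G z' - E j' (psi f' j' z')) (f := fun z' : C3 => om ^ n • z' + l)
            h6 (holMapAt_of_analyticAt (analyticAt_affine _ _ _))
        refine ((h.reg_reg a ha n l hl).add h7).congr ?_
        refine Eventually.of_forall fun z' => ?_
        show _ = G z' - E j' _
        ring
    · -- exceptional - regular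
      have hab' : exc f j a = reg b := hab
      have ha0 : a j ≠ 0 := fun ha0 => exc_ne_reg hf ha0 hb hab'
      obtain ⟨c, hc, hca, hc3, hz0, hz0e, hpsi⟩ := exists_cbrt_local hf (j := j) ha0
      rw [hz0e.self_of_nhds, reg_eq_reg] at hab'
      obtain ⟨k, l, hl, rfl⟩ := hab'
      set z0 : C3 → C3 := fun a' => f + c (a' j) • Function.update a' j 1 with hz0def
      have haf : AnalyticAt ℂ (fun a' : C3 => om ^ k • z0 a' + l) a :=
        AnalyticAt.comp (g := fun z : C3 => om ^ k • z + l) (f := z0) (analyticAt_affine _ _ _) hz0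
      refine ⟨fun a' => om ^ k • z0 a' + l, haf, rfl, ?_, ?_⟩
      · filter_upwards [hz0e] with a' ha'
        show reg _ = exc f j a'
        rw [ha', reg_eq_reg]
        exact kmRel_symm ⟨k, l, hl, rfl⟩
      · have hz0O : z0 a ∉ O3 := fun hcon => hb ((kmRel_O3 ⟨k, l, hl, rfl⟩).1 hcon)
        have h5 : PHAt (fun a' : C3 => G (z0 a') - G (om ^ k • z0 a' + l)) a :=
          PHAt.comp (u := fun z => G z - G (om ^ k • z + l)) (f := z0)
            (h.reg_reg _ hz0O k l hl) (holMapAt_of_analyticAt hz0)
        have hca0 : c (a j) ≠ 0 := by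
          intro h0
          have := hc3 (a j)
          rw [h0] at this
          exact ha0 (by rw [← this]; norm_num)
        have h6 : PHAt (fun a' : C3 => G (z0 a') - E j (psi f j (z0 a'))) a := by
          refine PHAt.comp (u := fun z => G z - E j (psi f j z)) (f := z0)
            (h.reg_exc f hf j _ ?_ ?_) (holMapAt_of_analyticAt hz0)
          · simp only [hz0def, Pi.add_apply, Pi.smul_apply, Function.update_self, smul_eq_mul,
              mul_one]
            intro h7
            exact hca0 (by simpa using h7)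
          · intro i
            have h7 := norm_lt_half_of_mem_Vexc (j := j) ha (hc3 (a j))
            rw [hz0def]
            simp only [Pi.add_apply, add_sub_cancel_left]
            exact (norm_le_pi_norm _ i).trans_lt h7
        refine (h5.sub h6).congr ?_
        have h7 : ∀ᶠ a' : C3 in 𝓝 a, a' j ≠ 0 :=
          (continuous_apply j).continuousAt.eventually_ne ha0
        filter_upwards [h7] with a' ha'
        show _ = E j a' - G _
        rw [hpsi a' ha']
        ring
    · -- exceptional - exceptional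
      have hab' : exc f j a = exc f' j' b := hab
      obtain ⟨⟨l, hl, hfl⟩, h1, h2⟩ := exc_eq_exc_swap hf hf' ha hb hab'
      refine ⟨swapc j j', analyticAt_swapc j j' h1, h2.symm, ?_, h.exc_exc j j' a ha h1⟩
      have h3 : ∀ᶠ a' : C3 in 𝓝 a, Function.update a' j (1 : ℂ) j' ≠ 0 :=
        (analyticAt_update_one_apply j j' a).continuousAt.eventually_ne h1
      filter_upwards [h3] with a' ha'
      show exc f' j' _ = exc f j a'
      rw [hfl, exc_add_lattice hf hl, exc_swap hf j j' ha'])
  refine ⟨L, ?_, ?_⟩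
  · intro z hz
    exact (hL (reg z)).self_of_nhds none z hz rfl
  · intro f hf j a ha
    exact (hL (exc f j a)).self_of_nhds (some (⟨f, hf⟩, j)) a ha rfl

end KP

end Pool.Agent.helper90.KMMP
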