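import Pool.Agent.helper90.KMMP.KXPot2

/-!
# The potentials of `θ` and `κ`
-/

set_option linter.unusedSectionVars false
set_option linter.unusedVariables false

open scoped Topology ContDiff
open Set Filter Metric MeasureTheory

namespace Pool.Agent.helper90.KMMP

theorem continuousOn_thetaExc (j : Fin 3) : Continuous (thetaExc j) := by
  unfold thetaExc
  refine Continuous.mul ?_ ?_
  · exact ((continuous_apply j).norm).rpow_const fun _ => Or.inr (by norm_num)
  · have h1 : Continuous LL := by unfold LL; fun_prop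
    exact ((h1.comp (continuous_update_one j)).norm).pow 2

namespace KP

theorem norm_cube_rpow (t : ℂ) : ‖t ^ 3‖ ^ (2 / 3 : ℝ) = ‖t‖ ^ 2 := by
  rw [norm_pow, ← Real.rpow_natCast, ← Real.rpow_natCast, ← Real.rpow_mul (norm_nonneg _)]
  norm_num

theorem smul_update_psi (f : C3) (j : Fin 3) {z : C3} (hz : z j ≠ f j) :
    (z j - f j) • Function.update (psi f j z) j (1 : ℂ) = z - f := by
  have h0 : z j - f j ≠ 0 := sub_ne_zero.2 hz
  funext k
  by_cases hk : k = j
  · subst hk; simp
  · simp only [Pi.sub_apply, Pi.smul_apply, Function.update_of_ne hk, psi, if_neg hk, smul_eq_mul]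
    field_simp

theorem psi_self (f : C3) (j : Fin 3) (z : C3) : psi f j z j = (z j - f j) ^ 3 := by
  simp [psi]

theorem update_swapc (j k : Fin 3) {a : C3} (h : Function.update a j (1 : ℂ) k ≠ 0) :
    Function.update (swapc j k a) k (1 : ℂ) =
      (Function.update a j (1 : ℂ) k)⁻¹ • Function.update a j 1 := by
  funext m
  by_cases hm : m = k
  · subst hm
    simp [h]
  · rw [Function.update_of_ne hm]
    simp only [swapc, if_neg hm, Pi.smul_apply, smul_eq_mul]
    field_simp

theorem swapc_self (j k : Fin 3) (a : C3) :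
    swapc j k a k = a j * (Function.update a j 1 k) ^ 3 := by
  simp [swapc]

/-! ### `θ` -/

theorem thetaExc_of_cube {j : Fin 3} {a : C3} {t : ℂ} (h : t ^ 3 = a j) :
    thetaExc j a = ‖LL (t • Function.update a j 1)‖ ^ 2 := by
  unfold thetaExc
  rw [← h, norm_cube_rpow, LL_smul', norm_mul, mul_pow]

theorem thetaExc_psi (f : C3) (j : Fin 3) {z : C3} (hz : z j ≠ f j) :
    thetaExc j (psi f j z) = ‖LL (z - f)‖ ^ 2 := by
  rw [thetaExc_of_cube (t := z j - f j) (psi_self f j z).symm, smul_update_psi f j hz]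

theorem thetaExc_swapc (j k : Fin 3) {a : C3} (h : Function.update a j (1 : ℂ) k ≠ 0) :
    thetaExc k (swapc j k a) = thetaExc j a := by
  have h0 : 0 < ‖Function.update a j (1 : ℂ) k‖ := norm_pos_iff.2 h
  unfold thetaExc
  rw [update_swapc j k h, swapc_self, LL_smul', norm_mul, norm_mul, norm_inv,
    Real.mul_rpow (norm_nonneg _) (norm_nonneg _), norm_cube_rpow]
  field_simp

theorem potData_theta : PotData (fun z => ‖LL z‖ ^ 2) thetaExc where
  contG := fun z _ => by
    have h1 : Continuous LL := by unfold LL; fun_prop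
    exact (h1.norm.pow 2).continuousAt
  contE := fun j a _ => (continuousOn_thetaExc j).continuousAt
  reg_reg := fun z _ k l _ => phAt_LL_sub (norm_om_pow k) l z
  reg_exc := by
    intro f hf j z hz hbox
    refine (phAt_LL_sub (u := 1) (by simp) (-f) z).congr ?_
    have : ∀ᶠ z' : C3 in 𝓝 z, z' j ≠ f j := (continuous_apply j).continuousAt.eventually_ne hz
    filter_upwards [this] with z' hz'
    rw [thetaExc_psi f j hz', one_smul, sub_eq_add_neg z' f]
  exc_exc := by
    intro j k a ha h
    apply phAt_zero_of_eventually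
    have : ∀ᶠ a' : C3 in 𝓝 a, Function.update a' j (1 : ℂ) k ≠ 0 :=
      (analyticAt_update_one_apply j k a).continuousAt.eventually_ne h
    filter_upwards [this] with a' ha'
    rw [thetaExc_swapc j k ha', sub_self]

/-! ### `κ` -/

/-- the bump of the Kähler potential -/
noncomputable def bK (w : C3) : ℝ := radF (sqn w) - sqn w

theorem bK_zero {w : C3} (h : 1 / 8 ≤ sqn w) : bK w = 0 := by
  unfold bK
  rw [radF_eq h, sub_self]

theorem bK_om (w : C3) : bK (om • w) = bK w := by
  have := sqn_om_pow 1 w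
  rw [pow_one] at this
  unfold bK
  rw [this]

/-- the potential of `κ` in the regular chart -/
noncomputable def potReg (z : C3) : ℝ := sqn z + ballB bK z

/-- `|u|²` for `u = (a with a j = 1)` -/
noncomputable def mm (j : Fin 3) (a : C3) : ℝ := sqn (Function.update a j (1 : ℂ))

/-- the potential of `κ` in the exceptional charts -/
noncomputable def potExc (j : Fin 3) (a : C3) : ℝ :=
  1 / 32 * Real.log (mm j a) + ‖a j‖ ^ 2 * mm j a ^ 3 + radC + radD (‖a j‖ ^ (2 / 3 : ℝ) * mm j a)

theorem one_le_mm (j : Fin 3) (a : C3) : 1 ≤ mm j a := by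
  unfold mm sqn
  have h1 := Finset.single_le_sum (f := fun i => ‖Function.update a j (1 : ℂ) i‖ ^ 2)
    (fun i _ => by positivity) (Finset.mem_univ j)
  simpa using h1

theorem mm_pos (j : Fin 3) (a : C3) : 0 < mm j a := lt_of_lt_of_le one_pos (one_le_mm j a)

theorem radF_of_cube {j : Fin 3} {a : C3} {t : ℂ} (h : t ^ 3 = a j) (ht : t ≠ 0) :
    radF (sqn (t • Function.update a j 1)) = potExc j a + 1 / 16 * Real.log ‖t‖ := by
  have h1 : sqn (t • Function.update a j (1 : ℂ)) = ‖t‖ ^ 2 * mm j a := sqn_smul _ _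
  have h2 : 0 < ‖t‖ := norm_pos_iff.2 ht
  have h3 : ‖a j‖ ^ 2 = ‖t‖ ^ 6 := by rw [← h, norm_pow, ← pow_mul]
  unfold radF potExc
  rw [h1, ← h, norm_cube_rpow, h, h3, Real.log_mul (by positivity) (mm_pos j a).ne', Real.log_pow]
  push_cast
  ring

/-- `‖z - f‖ < 1/2` in the sup norm implies that `f` is the only lattice point in the ball of radius
`1/2`. -/
theorem ballB_box {b : C3 → ℝ} (hb : ∀ w, 1 / 8 ≤ sqn w → b w = 0) {z f : C3} (hf : f ∈ O3)
    (h : ∀ i, ‖z i - f i‖ < 1 / 2) : ballB b z = b (z - f) := by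
  by_cases h1 : sqn (z - f) < 1 / 4
  · exact ballB_eq hf h1
  · rw [hb _ (by linarith [not_lt.1 h1])]
    refine ballB_zero hb fun g hg => ?_
    by_cases hfg : g = f
    · rw [hfg]; linarith [not_lt.1 h1]
    · obtain ⟨i, hi⟩ : ∃ i, g i ≠ f i := by
        by_contra hcon
        push Not at hcon
        exact hfg (funext hcon)
      have h2 : 1 ≤ ‖g i - f i‖ := one_le_norm_Eis (Eis_sub (hg i) (hf i)) (sub_ne_zero.2 hi)
      have h3 : ‖g i - f i‖ ≤ ‖z i - f i‖ + ‖z i - g i‖ := by
        have : g i - f i = (z i - f i) - (z i - g i) := by ring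
        rw [this]
        exact norm_sub_le _ _
      have h4 : 1 / 2 ≤ ‖z i - g i‖ := by linarith [h i]
      have h5 : ‖(z - g) i‖ ^ 2 ≤ sqn (z - g) :=
        Finset.single_le_sum (f := fun i => ‖(z - g) i‖ ^ 2) (fun i _ => by positivity)
          (Finset.mem_univ i)
      rw [Pi.sub_apply] at h5
      nlinarith

theorem continuousAt_ballB {b : C3 → ℝ} (hb : ∀ w, 1 / 8 ≤ sqn w → b w = 0)
    (hc : ∀ w, w ≠ 0 → ContinuousAt b w) {z : C3} (hz : z ∉ O3) : ContinuousAt (ballB b) z := by
  by_cases h : ∃ f ∈ O3, sqn (z - f) < 1 / 4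
  · obtain ⟨f, hf, h⟩ := h
    have h1 : ContinuousAt (fun z' => b (z' - f)) z := by
      have h2 : z - f ≠ 0 := fun h0 => hz (by rw [sub_eq_zero] at h0; rw [h0]; exact hf)
      exact ContinuousAt.comp (g := b) (f := fun z' => z' - f) (hc _ h2) (by fun_prop)
    exact h1.congr (ballB_eventually_eq hf h).symm
  · push Not at h
    exact continuousAt_const.congr (ballB_eventually_zero hb h).symm

theorem contDiffAt_bK {w : C3} (hw : w ≠ 0) : ContDiffAt ℝ ∞ bK w := by
  unfold bK
  exact ((contDiffAt_radF (sqn_pos hw)).comp w contDiff_sqn.contDiffAt).sub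
    contDiff_sqn.contDiffAt

theorem continuous_mm (j : Fin 3) : Continuous (mm j) :=
  continuous_sqn.comp (continuous_update_one j)

theorem continuous_radD : Continuous radD := (contDiff_radD).continuous

theorem continuous_potExc (j : Fin 3) : Continuous (potExc j) := by
  unfold potExc
  refine ((((continuous_mm j).log fun a => (mm_pos j a).ne').const_mul _ |>.add
    (((continuous_apply j).norm.pow 2).mul ((continuous_mm j).pow 3))).add continuous_const).add ?_
  exact continuous_radD.comp ((((continuous_apply j).norm).rpow_const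
    fun _ => Or.inr (by norm_num)).mul (continuous_mm j))

theorem potReg_kmRel_sub (k : ℕ) {l : C3} (hl : l ∈ L3) (z : C3) :
    potReg z - potReg (om ^ k • z + l) = sqn z - sqn (om ^ k • z + l) := by
  unfold potReg
  rw [ballB_kmRel bK_om (z := z) (w := om ^ k • z + l) ⟨k, l, hl, rfl⟩]
  ring

theorem mm_swapc (j k : Fin 3) {a : C3} (h : Function.update a j (1 : ℂ) k ≠ 0) :
    mm k (swapc j k a) = mm j a / ‖Function.update a j (1 : ℂ) k‖ ^ 2 := by
  unfold mm
  rw [update_swapc j k h, sqn_smul, norm_inv]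
  field_simp

theorem potExc_swapc (j k : Fin 3) {a : C3} (h : Function.update a j (1 : ℂ) k ≠ 0) :
    potExc j a - potExc k (swapc j k a) =
      1 / 16 * Real.log ‖Function.update a j (1 : ℂ) k‖ := by
  have h0 : 0 < ‖Function.update a j (1 : ℂ) k‖ := norm_pos_iff.2 h
  have h1 := mm_pos j a
  unfold potExc
  rw [mm_swapc j k h, swapc_self, norm_mul, Real.mul_rpow (norm_nonneg _) (norm_nonneg _),
    norm_cube_rpow, norm_pow, Real.log_div h1.ne' (by positivity), Real.log_pow]
  have h2 : ‖a j‖ ^ (2 / 3 : ℝ) * ‖Function.update a j (1 : ℂ) k‖ ^ 2 *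
      (mm j a / ‖Function.update a j (1 : ℂ) k‖ ^ 2) = ‖a j‖ ^ (2 / 3 : ℝ) * mm j a := by
    field_simp
  rw [h2]
  have h3 : (‖a j‖ * ‖Function.update a j (1 : ℂ) k‖ ^ 3) ^ 2 *
      (mm j a / ‖Function.update a j (1 : ℂ) k‖ ^ 2) ^ 3 = ‖a j‖ ^ 2 * mm j a ^ 3 := by
    field_simp
  rw [h3]
  push_cast
  ring

theorem potData_kappa : PotData potReg potExc where
  contG := by
    intro z hz
    exact continuous_sqn.continuousAt.add (continuousAt_ballB (fun w hw => bK_zero hw)
      (fun w hw => (contDiffAt_bK hw).continuousAt) hz)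
  contE := fun j a _ => (continuous_potExc j).continuousAt
  reg_reg := by
    intro z _ k l hl
    refine (phAt_sqn_sub (norm_om_pow k) l z).congr ?_
    exact Eventually.of_forall fun z' => (potReg_kmRel_sub k hl z').symm
  reg_exc := by
    intro f hf j z hz hbox
    have h1 : PHAt (fun z' : C3 => Real.log ‖z' j - f j‖) z :=
      phAt_logC ((analyticAt_apply j z).sub analyticAt_const) (sub_ne_zero.2 hz)
    refine ((phAt_sqn_sub (u := 1) (by simp) (-f) z).add (h1.const_mul (1 / 16))).congr ?_
    have h2 : ∀ᶠ z' : C3 in 𝓝 z, z' j ≠ f j := (continuous_apply j).continuousAt.eventually_ne hz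
    have h3 : ∀ᶠ z' : C3 in 𝓝 z, ∀ i, ‖z' i - f i‖ < 1 / 2 := by
      rw [eventually_all]
      intro i
      have : Continuous fun z' : C3 => ‖z' i - f i‖ := by fun_prop
      exact this.continuousAt.eventually (gt_mem_nhds (hbox i))
    filter_upwards [h2, h3] with z' h4 h5
    have h6 := radF_of_cube (psi_self f j z').symm (sub_ne_zero.2 h4)
    rw [smul_update_psi f j h4] at h6
    unfold potReg
    rw [ballB_box (fun w hw => bK_zero hw) hf h5, one_smul, ← sub_eq_add_neg]
    unfold bK
    linarith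
  exc_exc := by
    intro j k a ha h
    have h1 : PHAt (fun a' : C3 => Real.log ‖Function.update a' j (1 : ℂ) k‖) a :=
      phAt_logC (analyticAt_update_one_apply j k a) h
    refine (h1.const_mul (1 / 16)).congr ?_
    have : ∀ᶠ a' : C3 in 𝓝 a, Function.update a' j (1 : ℂ) k ≠ 0 :=
      (analyticAt_update_one_apply j k a).continuousAt.eventually_ne h
    filter_upwards [this] with a' ha'
    rw [potExc_swapc j k ha']

end KP

end Pool.Agent.helper90.KMMP
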