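import Pool.Agent.helper90.KMMP.KXPot3

/-!
# Positivity of `κ`
-/

set_option linter.unusedSectionVars false
set_option linter.unusedVariables false

open scoped Topology ContDiff
open Set Filter Metric MeasureTheory

namespace Pool.Agent.helper90.KMMP
namespace KP

/-- the local model given by a chart -/
noncomputable def modelOfChart {n : ℕ} {X : Type} [TopologicalSpace X] [HolSpace X]
    (e : OpenPartialHomeomorph X (Fin n → ℂ)) (he : IsHolChart e) {x : X} (hx : x ∈ e.source) :
    LocalModel X x where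
  N := n
  e := e
  U := e.source
  V := e.target
  k := 0
  g := fun i => i.elim0
  isOpen_U := e.open_source
  mem_U := hx
  isOpen_V := e.open_target
  isEmbedding := e.isOpenEmbedding_restrict.isEmbedding
  analytic_g := fun i => i.elim0
  image_eq := by
    rw [e.image_source_eq_target]
    ext v
    simp
  hol_iff := by
    intro y hy f
    rw [he y hy f]
    constructor
    · intro h
      refine ⟨fun v => f (e.symm v), h, ?_⟩
      filter_upwards [e.open_source.mem_nhds hy] with z hz
      rw [e.left_inv hz]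
    · rintro ⟨F, hF, h⟩
      refine hF.congr ?_
      have h1 : Tendsto e.symm (𝓝 (e y)) (𝓝 y) := by
        have := e.continuousAt_symm (e.map_source hy)
        rwa [ContinuousAt, e.left_inv hy] at this
      filter_upwards [h1.eventually h, e.open_target.mem_nhds (e.map_source hy)] with v hv hv'
      rw [hv, e.right_inv hv']

theorem smooth_of_chart {n : ℕ} {X : Type} [TopologicalSpace X] [HolSpace X] {A : EtaleAtlas n X}
    (hA : A.Compatible) (i : A.I) {a : Fin n → ℂ} (ha : a ∈ A.V i) {Q : (Fin n → ℂ) → ℝ}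
    (hQ : ContDiffAt ℝ ∞ Q a) (hl : ∀ v, v ≠ 0 → 0 < levi Q a v) {u : X → ℝ}
    (hu : PHAt (fun a' => u (A.Θ i a') - Q a') a) : SmoothStrictlyPshAt u (A.Θ i a) := by
  obtain ⟨e, he, hx, hea, hev⟩ := hA.exists_chart i a ha
  obtain ⟨F, hF, hF'⟩ := hu
  have hF0 : AnalyticAt ℂ F a := hF
  have hΦ : ContDiffAt ℝ ∞ (fun v => Q v + (F v).re) a := hQ.add (contDiffAt_re_comp hF0)
  have hΦl : ∀ v, v ≠ 0 → 0 < levi (fun v => Q v + (F v).re) a v := by
    intro v hv
    rw [levi_add (hQ.of_le two_le_infty) (contDiffAt_re_comp hF0), levi_re_comp hF0, add_zero]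
    exact hl v hv
  obtain ⟨δ, hδ, hδ'⟩ := exists_delta_of_levi_pos (hΦ.of_le two_le_infty) hΦl
  refine ⟨modelOfChart e he hx, fun v => Q v + (F v).re, δ, hδ, ?_, ?_, ?_⟩
  · show ContDiffAt ℝ ∞ _ (e (A.Θ i a))
    rw [hea]; exact hΦ
  · show PshAt _ (e (A.Θ i a))
    rw [hea]; exact hδ'
  · show u =ᶠ[𝓝 (A.Θ i a)] fun y => Q (e y) + (F (e y)).re
    have h1 : Tendsto e (𝓝 (A.Θ i a)) (𝓝 a) := by
      have := e.continuousAt hx
      rwa [ContinuousAt, hea] at this
    filter_upwards [h1.eventually hF', e.open_source.mem_nhds hx] with y h2 h3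
    have h4 := hev _ (e.map_source h3)
    rw [← h4.2, e.left_inv h3] at h2
    linarith

theorem smooth_reg {z : C3} (hz : z ∉ O3) {Q : C3 → ℝ} (hQ : ContDiffAt ℝ ∞ Q z)
    (hl : ∀ v, v ≠ 0 → 0 < levi Q z v) {u : KX → ℝ} (hu : PHAt (fun z' => u (reg z') - Q z') z) :
    SmoothStrictlyPshAt u (reg z) :=
  smooth_of_chart kmAtlas_compatible none (a := z) hz hQ hl hu

theorem smooth_exc {f : C3} (hf : f ∈ O3) {j : Fin 3} {a : C3} (ha : a ∈ Vexc j) {Q : C3 → ℝ}
    (hQ : ContDiffAt ℝ ∞ Q a) (hl : ∀ v, v ≠ 0 → 0 < levi Q a v) {u : KX → ℝ}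
    (hu : PHAt (fun a' => u (exc f j a') - Q a') a) :
    SmoothStrictlyPshAt u (exc f j a) :=
  smooth_of_chart kmAtlas_compatible (some (⟨f, hf⟩, j)) (a := a) ha hQ hl hu

/-! ### translation -/

theorem analyticAt_sub_const (f x : C3) : AnalyticAt ℂ (fun z : C3 => z - f) x :=
  analyticAt_id.sub analyticAt_const

theorem fderiv_sub_const_apply (f x v : C3) : fderiv ℂ (fun z : C3 => z - f) x v = v := by
  rw [fderiv_sub_const]
  simp

theorem levi_translate {u : C3 → ℝ} {f z : C3} (hu : ContDiffAt ℝ 2 u (z - f)) (v : C3) :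
    levi (fun z' => u (z' - f)) z v = levi u (z - f) v := by
  rw [levi_comp (f := fun z' : C3 => z' - f) hu (analyticAt_sub_const f z),
    fderiv_sub_const_apply]

theorem contDiffAt_translate {u : C3 → ℝ} {f z : C3} {m : WithTop ℕ∞}
    (hu : ContDiffAt ℝ m u (z - f)) : ContDiffAt ℝ m (fun z' => u (z' - f)) z :=
  ContDiffAt.comp z (g := u) (f := fun z' : C3 => z' - f) hu (by fun_prop)

/-! ### the potentials of `κ` in the exceptional charts -/

theorem contDiffAt_mm (j : Fin 3) (a : C3) {m : WithTop ℕ∞} : ContDiffAt ℝ m (mm j) a :=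
  contDiff_sqn.contDiffAt.comp a ((analyticAt_update_one j a).restrictScalars (𝕜 := ℝ)).contDiffAt

theorem fderiv_update_one (j : Fin 3) (a v : C3) :
    fderiv ℂ (fun a : C3 => Function.update a j (1 : ℂ)) a v = Function.update v j 0 := by
  have h : HasFDerivAt (fun a : C3 => Function.update a j (1 : ℂ))
      (ContinuousLinearMap.pi fun k => if k = j then (0 : C3 →L[ℂ] ℂ) else
        ContinuousLinearMap.proj (R := ℂ) (φ := fun _ : Fin 3 => ℂ) k) a := by
    rw [hasFDerivAt_pi]
    intro k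
    by_cases hk : k = j
    · subst hk
      simp only [Function.update_self, if_true]
      exact hasFDerivAt_const _ _
    · simp only [Function.update_of_ne hk, if_neg hk]
      exact (ContinuousLinearMap.proj (R := ℂ) (φ := fun _ : Fin 3 => ℂ) k).hasFDerivAt
  rw [h.fderiv]
  funext k
  by_cases hk : k = j
  · subst hk; simp
  · simp [hk]

/-- the smooth part of `potExc` -/
noncomputable def potExc0 (j : Fin 3) (a : C3) : ℝ :=
  1 / 32 * Real.log (mm j a) + ‖a j‖ ^ 2 * mm j a ^ 3 + radC

theorem contDiffAt_potExc0 (j : Fin 3) (a : C3) : ContDiffAt ℝ ∞ (potExc0 j) a := by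
  unfold potExc0
  refine ((contDiffAt_const.mul ((contDiffAt_mm j a).log (mm_pos j a).ne')).add ?_).add
    contDiffAt_const
  exact (contDiffAt_normSq_comp (analyticAt_apply j a)).mul ((contDiffAt_mm j a).pow 3)

theorem potExc_eventually {j : Fin 3} {a : C3} (ha : a j = 0) : potExc j =ᶠ[𝓝 a] potExc0 j := by
  have h1 : Continuous fun a' : C3 => ‖a' j‖ ^ (2 / 3 : ℝ) * mm j a' :=
    (((continuous_apply j).norm).rpow_const fun _ => Or.inr (by norm_num)).mul (continuous_mm j)
  have h2 : ‖a j‖ ^ (2 / 3 : ℝ) * mm j a < 1 / 16 := by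
    rw [ha, norm_zero, Real.zero_rpow (by norm_num), zero_mul]; norm_num
  filter_upwards [h1.continuousAt.eventually (gt_mem_nhds h2)] with a' ha'
  unfold potExc potExc0
  rw [radD_zero ha'.le, add_zero]

/-- the Levi form of `log |w|²` -/
theorem levi_log_sqn {w : C3} (hw : w ≠ 0) (v : C3) :
    levi (fun w => Real.log (sqn w)) w v =
      4 * ((sqn w)⁻¹ * sqn v - (sqn w ^ 2)⁻¹ * ‖herm w v‖ ^ 2) := by
  have h0 := sqn_pos hw
  rw [levi_radial (ψ := Real.log) (Real.contDiffAt_log.2 h0.ne')]
  rw [Real.deriv_log', deriv_inv]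
  ring

theorem levi_log_mm_ge (j : Fin 3) (a v : C3) :
    4 * (sqn (Function.update v j 0) / mm j a ^ 2) ≤ levi (fun a => Real.log (mm j a)) a v := by
  have hw := update_one_ne_zero j a
  have h0 : 0 < sqn (Function.update a j (1 : ℂ)) := sqn_pos hw
  have h1 : levi (fun a => Real.log (mm j a)) a v =
      levi (fun w => Real.log (sqn w)) (Function.update a j 1) (Function.update v j 0) := by
    rw [← fderiv_update_one j a v]
    exact levi_comp (u := fun w => Real.log (sqn w)) (f := fun a : C3 => Function.update a j (1 : ℂ))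
      ((Real.contDiffAt_log.2 h0.ne').comp _ contDiff_sqn.contDiffAt) (analyticAt_update_one j a) v
  rw [h1, levi_log_sqn hw]
  have h2 : ‖herm (Function.update a j (1 : ℂ)) (Function.update v j 0)‖ ^ 2 ≤
      (mm j a - 1) * sqn (Function.update v j 0) := by
    have h3 : herm (Function.update a j (1 : ℂ)) (Function.update v j 0) =
        herm (Function.update a j (0 : ℂ)) (Function.update v j 0) := by
      unfold herm
      refine Finset.sum_congr rfl fun i _ => ?_
      by_cases hi : i = j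
      · subst hi; simp
      · simp [hi]
    have h4 : sqn (Function.update a j (0 : ℂ)) = mm j a - 1 := by
      unfold mm sqn
      rw [← Finset.add_sum_erase _ _ (Finset.mem_univ j),
        ← Finset.add_sum_erase _ (fun i => ‖Function.update a j (1 : ℂ) i‖ ^ 2) (Finset.mem_univ j)]
      simp only [Function.update_self, norm_zero, norm_one]
      have : ∑ x ∈ Finset.univ.erase j, ‖Function.update a j (0 : ℂ) x‖ ^ 2 =
          ∑ x ∈ Finset.univ.erase j, ‖Function.update a j (1 : ℂ) x‖ ^ 2 := by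
        refine Finset.sum_congr rfl fun i hi => ?_
        have hi' : i ≠ j := Finset.ne_of_mem_erase hi
        rw [Function.update_of_ne hi', Function.update_of_ne hi']
      rw [this]
      ring
    rw [h3, ← h4]
    exact herm_le _ _
  have h5 : 0 < mm j a := mm_pos j a
  have h6 : (sqn (Function.update a j (1 : ℂ)))⁻¹ * sqn (Function.update v j 0) -
      (sqn (Function.update a j (1 : ℂ)) ^ 2)⁻¹ *
        ‖herm (Function.update a j (1 : ℂ)) (Function.update v j 0)‖ ^ 2 =
      (mm j a * sqn (Function.update v j 0) -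
        ‖herm (Function.update a j (1 : ℂ)) (Function.update v j 0)‖ ^ 2) / mm j a ^ 2 := by
    unfold mm
    field_simp
  rw [h6]
  refine mul_le_mul_of_nonneg_left ?_ (by norm_num)
  refine div_le_div_of_nonneg_right ?_ (by positivity)
  linarith

theorem levi_potExc0_pos {j : Fin 3} {a : C3} (ha : a j = 0) {v : C3} (hv : v ≠ 0) :
    0 < levi (potExc0 j) a v := by
  have h0 := mm_pos j a
  have hlog : ContDiffAt ℝ 2 (fun a => Real.log (mm j a)) a := (contDiffAt_mm j a).log h0.ne'
  have hsq : ContDiffAt ℝ 2 (fun a : C3 => ‖a j‖ ^ 2) a := contDiffAt_normSq_comp (analyticAt_apply j a)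
  have hmm : ContDiffAt ℝ 2 (fun a => mm j a ^ 3) a := (contDiffAt_mm j a).pow 3
  have h1 : levi (potExc0 j) a v = 1 / 32 * levi (fun a => Real.log (mm j a)) a v +
      levi (fun a : C3 => ‖a j‖ ^ 2 * mm j a ^ 3) a v := by
    unfold potExc0
    rw [levi_add ((contDiffAt_const.mul hlog).add (hsq.mul hmm)) contDiffAt_const,
      levi_add (contDiffAt_const.mul hlog) (hsq.mul hmm), levi_const_mul _ hlog]
    have : levi (fun _ : C3 => radC) a v = 0 := by simp [levi, hess]
    rw [this, add_zero]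
  have h2 : levi (fun a : C3 => ‖a j‖ ^ 2 * mm j a ^ 3) a v = 4 * ‖v j‖ ^ 2 * mm j a ^ 3 := by
    rw [levi_mul hsq hmm, fderiv_normSq_comp (analyticAt_apply j a),
      fderiv_normSq_comp (analyticAt_apply j a), levi_normSq_comp (analyticAt_apply j a), ha]
    have h3 : fderiv ℂ (fun a : C3 => a j) a v = v j := by
      have : fderiv ℂ (fun v : C3 => v j) a =
        ContinuousLinearMap.proj (R := ℂ) (φ := fun _ => ℂ) j :=
        (ContinuousLinearMap.proj (R := ℂ) (φ := fun _ => ℂ) j).fderiv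
      rw [this]; simp
    rw [h3]
    simp
    ring
  have h3 := levi_log_mm_ge j a v
  rw [h1, h2]
  have h4 : 0 ≤ sqn (Function.update v j 0) := sqn_nonneg _
  by_cases hvj : v j = 0
  · have h5 : Function.update v j 0 = v := by
      rw [← hvj, Function.update_eq_self]
    have h6 : 0 < sqn v := sqn_pos hv
    rw [h5] at h3
    have h7 : 0 < 4 * (sqn v / mm j a ^ 2) := by positivity
    have h8 : 0 ≤ 4 * ‖v j‖ ^ 2 * mm j a ^ 3 := by positivity
    linarith
  · have h5 : 0 < ‖v j‖ := norm_pos_iff.2 hvj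
    have h7 : 0 ≤ 4 * (sqn (Function.update v j 0) / mm j a ^ 2) := by positivity
    have h8 : 0 < 4 * ‖v j‖ ^ 2 * mm j a ^ 3 := by positivity
    linarith

/-! ### the potentials of `κ` in the regular chart -/

theorem sub_ne_zero_of_O3 {z f : C3} (hz : z ∉ O3) (hf : f ∈ O3) : z - f ≠ 0 := by
  intro h
  rw [sub_eq_zero] at h
  exact hz (h ▸ hf)

theorem sqn_sub_phAt (f z : C3) : PHAt (fun z' : C3 => sqn z' - sqn (z' - f)) z := by
  refine (phAt_sqn_sub (u := 1) (by simp) (-f) z).congr ?_
  refine Eventually.of_forall fun z' => ?_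
  simp only [one_smul, sub_eq_add_neg]

theorem potReg_eventually {z f : C3} (hf : f ∈ O3) (h : sqn (z - f) < 1 / 4) :
    potReg =ᶠ[𝓝 z] fun z' => radF (sqn (z' - f)) + (sqn z' - sqn (z' - f)) := by
  filter_upwards [ballB_eventually_eq (b := bK) hf h] with z' hz'
  unfold potReg
  rw [hz']
  unfold bK
  ring

theorem potReg_eventually_sqn {z : C3} (h : ∀ f ∈ O3, 1 / 4 ≤ sqn (z - f)) :
    potReg =ᶠ[𝓝 z] sqn := by
  filter_upwards [ballB_eventually_zero (b := bK) (fun w hw => bK_zero hw) h] with z' hz'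
  unfold potReg
  rw [hz', add_zero]

theorem contDiffAt_radF_sqn {w : C3} (hw : w ≠ 0) {m : WithTop ℕ∞} (hm : m ≤ ∞) :
    ContDiffAt ℝ m (fun w : C3 => radF (sqn w)) w :=
  ((contDiffAt_radF (sqn_pos hw)).of_le hm).comp w contDiff_sqn.contDiffAt

/-- positivity of `κ` -/
theorem isKahler_of_hasPot {κ : LocPot KX} (hκ : HasPot κ potReg potExc) : IsKahler κ := by
  refine ⟨fun _ => 0, continuous_const, fun x => ?_⟩
  simp only [add_zero]
  rcases exists_reg_or_exc x with ⟨z, hz, rfl⟩ | ⟨f, hf, j, a, ha, ha0, rfl⟩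
  · by_cases h : ∃ f ∈ O3, sqn (z - f) < 1 / 4
    · obtain ⟨f, hf, h⟩ := h
      have h0 := sub_ne_zero_of_O3 hz hf
      refine smooth_reg hz (Q := fun z' => radF (sqn (z' - f)))
        (contDiffAt_translate (u := fun w => radF (sqn w)) (contDiffAt_radF_sqn h0 le_rfl))
        (fun v hv => ?_) ?_
      · rw [levi_translate (u := fun w => radF (sqn w)) (contDiffAt_radF_sqn h0 two_le_infty)]
        exact levi_radF_pos (sqn_pos h0) hv
      · refine ((hκ.1 z hz).add (sqn_sub_phAt f z)).congr ?_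
        filter_upwards [potReg_eventually hf h] with z' hz'
        rw [hz']
        ring
    · push Not at h
      refine smooth_reg hz (Q := sqn) contDiff_sqn.contDiffAt (fun v hv => ?_) ?_
      · rw [levi_sqn]
        have := sqn_pos hv
        linarith
      · refine (hκ.1 z hz).congr ?_
        filter_upwards [potReg_eventually_sqn h] with z' hz'
        rw [hz']
  · refine smooth_exc hf ha (Q := potExc0 j) (contDiffAt_potExc0 j a)
      (fun v hv => levi_potExc0_pos ha0 hv) ?_
    refine (hκ.2 f hf j a ha).congr ?_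
    filter_upwards [potExc_eventually ha0] with a' ha'
    rw [ha']

theorem potReg_le (R : ℝ) : ∃ C : ℝ, ∀ z, z ∉ O3 → ‖z‖ ≤ R → potReg z ≤ C := by
  refine ⟨3 * R ^ 2 + 1 / 8, fun z hz hR => ?_⟩
  have hR0 : 0 ≤ R := (norm_nonneg z).trans hR
  have h1 : sqn z ≤ 3 * R ^ 2 := by
    unfold sqn
    calc ∑ i, ‖z i‖ ^ 2 ≤ ∑ _i : Fin 3, R ^ 2 := Finset.sum_le_sum fun i _ =>
          pow_le_pow_left₀ (norm_nonneg _) ((norm_le_pi_norm z i).trans hR) 2
      _ = 3 * R ^ 2 := by simp
  have h2 : ballB bK z ≤ 1 / 8 := by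
    by_cases h : ∃ f ∈ O3, sqn (z - f) < 1 / 8
    · obtain ⟨f, hf, h⟩ := h
      rw [ballB_eq hf (by linarith)]
      unfold bK
      have h3 := sqn_pos (sub_ne_zero_of_O3 hz hf)
      have h4 := radF_le h3 h.le
      linarith
    · push Not at h
      rw [ballB_zero (fun w hw => bK_zero hw) h]
      norm_num
  unfold potReg
  linarith

theorem exists_kappa : ∃ κ : LocPot KX, HasPot κ potReg potExc ∧ IsKahler κ := by
  obtain ⟨κ, hκ⟩ := potData_kappa.exists_locPot
  exact ⟨κ, hκ, isKahler_of_hasPot hκ⟩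

end KP

end Pool.Agent.helper90.KMMP
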