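import Pool.Agent.helper90.KMMP.Defs

/-!
# The Levi form of smooth functions

`levi u x v = D²u(x)(v,v) + D²u(x)(iv,iv)`.
-/

set_option linter.unusedSectionVars false
set_option linter.unusedVariables false

open scoped Topology ContDiff
open Set Filter Metric MeasureTheory

namespace Pool.Agent.helper90.KMMP

section defs

variable {E F : Type*} [NormedAddCommGroup E] [NormedSpace ℝ E] [NormedAddCommGroup F]
  [NormedSpace ℝ F]

/-- second directional derivative -/
noncomputable def hess (u : E → ℝ) (x v : E) : ℝ := fderiv ℝ (fderiv ℝ u) x v v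

theorem eventually_differentiableAt {u : E → F} {x : E} (hu : ContDiffAt ℝ 2 u x) :
    ∀ᶠ y in 𝓝 x, DifferentiableAt ℝ u y := by
  filter_upwards [hu.eventually (by simp)] with y hy
  exact hy.differentiableAt (by norm_num)

theorem differentiableAt_fderiv {u : E → F} {x : E} (hu : ContDiffAt ℝ 2 u x) :
    DifferentiableAt ℝ (fderiv ℝ u) x :=
  (hu.fderiv_right (m := 1) (by norm_num)).differentiableAt (by norm_num)

/-- second derivative along a curve -/
theorem hasDerivAt_deriv_comp {u : E → ℝ} {γ : ℝ → E} {t : ℝ} (hu : ContDiffAt ℝ 2 u (γ t))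
    (hγ : ContDiffAt ℝ 2 γ t) :
    HasDerivAt (deriv fun s => u (γ s))
      (hess u (γ t) (deriv γ t) + fderiv ℝ u (γ t) (deriv (deriv γ) t)) t := by
  have hγc : ContinuousAt γ t := hγ.continuousAt
  have h1 : (deriv fun s => u (γ s)) =ᶠ[𝓝 t] fun s => fderiv ℝ u (γ s) (deriv γ s) := by
    filter_upwards [hγc.eventually (eventually_differentiableAt hu),
      eventually_differentiableAt hγ] with s hs1 hs2
    exact (hs1.hasFDerivAt.comp_hasDerivAt s hs2.hasDerivAt).deriv
  have h2 : HasDerivAt (fun s => fderiv ℝ u (γ s))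
      (fderiv ℝ (fderiv ℝ u) (γ t) (deriv γ t)) t :=
    (differentiableAt_fderiv hu).hasFDerivAt.comp_hasDerivAt t
      (hγ.differentiableAt (by norm_num)).hasDerivAt
  have h3 : ContDiffAt ℝ 1 (deriv γ) t := by
    have h4 : ContDiffAt ℝ 1 (fun s => fderiv ℝ γ s 1) t :=
      (hγ.fderiv_right (m := 1) (by norm_num)).clm_apply contDiffAt_const
    exact h4
  have h4 : HasDerivAt (deriv γ) (deriv (deriv γ) t) t :=
    (h3.differentiableAt (by norm_num)).hasDerivAt
  have h5 := h2.clm_apply h4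
  exact h5.congr_of_eventuallyEq h1

theorem deriv_deriv_comp {u : E → ℝ} {γ : ℝ → E} {t : ℝ} (hu : ContDiffAt ℝ 2 u (γ t))
    (hγ : ContDiffAt ℝ 2 γ t) :
    deriv (deriv fun s => u (γ s)) t =
      hess u (γ t) (deriv γ t) + fderiv ℝ u (γ t) (deriv (deriv γ) t) :=
  (hasDerivAt_deriv_comp hu hγ).deriv

theorem deriv_line (x v : E) : deriv (fun s : ℝ => x + s • v) = fun _ => v := by
  ext s
  have : HasDerivAt (fun s : ℝ => x + s • v) ((1 : ℝ) • v) s :=
    ((hasDerivAt_id s).smul_const v).const_add x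
  rw [this.deriv, one_smul]

theorem hess_eq_deriv {u : E → ℝ} {x : E} (hu : ContDiffAt ℝ 2 u x) (v : E) :
    hess u x v = deriv (deriv fun s : ℝ => u (x + s • v)) 0 := by
  have h1 := deriv_deriv_comp (u := u) (γ := fun s : ℝ => x + s • v) (t := 0) (by simpa using hu)
    (by fun_prop)
  rw [h1, deriv_line]
  simp

end defs

section levi

variable {E F : Type*} [NormedAddCommGroup E] [NormedSpace ℂ E] [NormedAddCommGroup F]
  [NormedSpace ℂ F] [CompleteSpace E] [CompleteSpace F]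

/-- the Levi form (multiplied by `4`) -/
noncomputable def levi (u : E → ℝ) (x v : E) : ℝ := hess u x v + hess u x (Complex.I • v)

theorem levi_congr {u v : E → ℝ} {x : E} (h : u =ᶠ[𝓝 x] v) (w : E) : levi u x w = levi v x w := by
  have h1 : fderiv ℝ u =ᶠ[𝓝 x] fderiv ℝ v := h.fderiv
  unfold levi hess
  rw [h1.fderiv_eq]

theorem levi_add {u v : E → ℝ} {x : E} (hu : ContDiffAt ℝ 2 u x) (hv : ContDiffAt ℝ 2 v x)
    (w : E) : levi (fun y => u y + v y) x w = levi u x w + levi v x w := by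
  have h1 : fderiv ℝ (fun y => u y + v y) =ᶠ[𝓝 x] fun y => fderiv ℝ u y + fderiv ℝ v y := by
    filter_upwards [eventually_differentiableAt hu, eventually_differentiableAt hv] with y h1 h2
    exact fderiv_fun_add h1 h2
  unfold levi hess
  rw [h1.fderiv_eq, fderiv_fun_add (differentiableAt_fderiv hu) (differentiableAt_fderiv hv)]
  simp only [add_apply]
  ring

theorem levi_const_mul {u : E → ℝ} {x : E} (c : ℝ) (hu : ContDiffAt ℝ 2 u x) (w : E) :
    levi (fun y => c * u y) x w = c * levi u x w := by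
  have h1 : fderiv ℝ (fun y => c * u y) =ᶠ[𝓝 x] fun y => c • fderiv ℝ u y := by
    filter_upwards [eventually_differentiableAt hu] with y h1
    exact fderiv_const_mul h1 c
  unfold levi hess
  rw [h1.fderiv_eq, fderiv_fun_const_smul (differentiableAt_fderiv hu) c]
  simp only [smul_apply, smul_eq_mul]
  ring

theorem levi_sub {u v : E → ℝ} {x : E} (hu : ContDiffAt ℝ 2 u x) (hv : ContDiffAt ℝ 2 v x)
    (w : E) : levi (fun y => u y - v y) x w = levi u x w - levi v x w := by
  have h1 := levi_add hu (v := fun y => (-1) * v y) (contDiffAt_const.mul hv) w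
  rw [levi_const_mul (-1) hv] at h1
  have h2 : (fun y => u y - v y) = fun y => u y + (-1) * v y := by ext y; ring
  rw [h2, h1]
  ring

/-- real curve in direction `a` in a holomorphic disc -/
theorem hasDerivAt_disc {κ : ℂ → E} {a : ℂ} {s : ℝ} (h : AnalyticAt ℂ κ (s * a)) :
    HasDerivAt (fun s : ℝ => κ (s * a)) (a • deriv κ (s * a)) s := by
  have h1 : HasDerivAt (fun s : ℝ => (s : ℂ) * a) (1 * a) s :=
    Complex.ofRealCLM.hasDerivAt.mul_const a
  rw [one_mul] at h1
  exact h.differentiableAt.hasDerivAt.scomp s h1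

theorem eventually_analytic_line {κ : ℂ → E} {a : ℂ} (h : AnalyticAt ℂ κ 0) :
    ∀ᶠ s : ℝ in 𝓝 0, AnalyticAt ℂ κ (s * a) := by
  have hc : ContinuousAt (fun s : ℝ => (s : ℂ) * a) 0 := by fun_prop
  have h1 : ∀ᶠ z in 𝓝 ((fun s : ℝ => (s : ℂ) * a) 0), AnalyticAt ℂ κ z := by
    simpa using h.eventually_analyticAt
  exact hc.eventually h1

theorem deriv_disc_eventuallyEq {κ : ℂ → E} {a : ℂ} (h : AnalyticAt ℂ κ 0) :
    deriv (fun s : ℝ => κ (s * a)) =ᶠ[𝓝 0] fun s : ℝ => a • deriv κ (s * a) := by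
  filter_upwards [eventually_analytic_line h] with s hs using (hasDerivAt_disc hs).deriv

theorem deriv_deriv_disc {κ : ℂ → E} {a : ℂ} (h : AnalyticAt ℂ κ 0) :
    deriv (deriv (fun s : ℝ => κ (s * a))) 0 = (a * a) • deriv (deriv κ) 0 := by
  rw [(deriv_disc_eventuallyEq h).deriv_eq]
  have h1 : AnalyticAt ℂ (deriv κ) 0 := h.deriv
  have h2 : HasDerivAt (fun s : ℝ => deriv κ (s * a)) (a • deriv (deriv κ) (((0 : ℝ) : ℂ) * a)) 0 :=
    hasDerivAt_disc (by simpa using h1)
  rw [(h2.fun_const_smul a).deriv]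
  simp [smul_smul]

theorem contDiffAt_disc {κ : ℂ → E} {a : ℂ} (h : AnalyticAt ℂ κ 0) {n : WithTop ℕ∞} :
    ContDiffAt ℝ n (fun s : ℝ => κ (s * a)) 0 := by
  have h1 : ContDiffAt ℝ n κ (((0 : ℝ) : ℂ) * a) := by
    simp only [Complex.ofReal_zero, zero_mul]
    exact (h.restrictScalars (𝕜 := ℝ)).contDiffAt
  have h2 : ContDiffAt ℝ n (fun s : ℝ => (s : ℂ) * a) 0 := by
    have : ContDiff ℝ n (fun s : ℝ => (s : ℂ)) := Complex.ofRealCLM.contDiff
    exact (this.mul contDiff_const).contDiffAt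
  exact h1.comp (0 : ℝ) h2

/-- Levi form along a holomorphic disc -/
theorem levi_curve {u : E → ℝ} {κ : ℂ → E} (hu : ContDiffAt ℝ 2 u (κ 0))
    (hκ : AnalyticAt ℂ κ 0) :
    deriv (deriv fun s : ℝ => u (κ (s * 1))) 0 +
      deriv (deriv fun s : ℝ => u (κ (s * Complex.I))) 0 = levi u (κ 0) (deriv κ 0) := by
  have key : ∀ a : ℂ, deriv (deriv fun s : ℝ => u (κ (s * a))) 0 =
      hess u (κ 0) (a • deriv κ 0) + fderiv ℝ u (κ 0) ((a * a) • deriv (deriv κ) 0) := by
    intro a
    have h1 := deriv_deriv_comp (u := u) (γ := fun s : ℝ => κ (s * a)) (t := 0)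
      (by simpa using hu) (contDiffAt_disc hκ)
    rw [h1, deriv_deriv_disc hκ, (deriv_disc_eventuallyEq hκ).eq_of_nhds]
    simp
  rw [key, key, levi, Complex.I_mul_I, one_smul, one_mul, one_smul, neg_one_smul, map_neg]
  ring

theorem levi_eq_deriv {u : E → ℝ} {x : E} (hu : ContDiffAt ℝ 2 u x) (v : E) :
    levi u x v = deriv (deriv fun s : ℝ => u (x + ((s : ℂ) * 1) • v)) 0 +
      deriv (deriv fun s : ℝ => u (x + ((s : ℂ) * Complex.I) • v)) 0 := by
  have h1 := levi_curve (u := u) (κ := fun ζ : ℂ => x + ζ • v) (by simpa using hu) (by fun_prop)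
  rw [h1]
  have h2 : deriv (fun ζ : ℂ => x + ζ • v) 0 = v := by
    have : HasDerivAt (fun ζ : ℂ => x + ζ • v) ((1 : ℂ) • v) 0 :=
      ((hasDerivAt_id (0 : ℂ)).smul_const v).const_add x
    rw [this.deriv, one_smul]
  rw [h2]
  simp

/-- The Levi form of the composition with a holomorphic map. -/
theorem levi_comp {u : F → ℝ} {f : E → F} {x : E} (hu : ContDiffAt ℝ 2 u (f x))
    (hf : AnalyticAt ℂ f x) (v : E) :
    levi (fun y => u (f y)) x v = levi u (f x) (fderiv ℂ f x v) := by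
  have hc : ContDiffAt ℝ 2 (fun y => u (f y)) x :=
    hu.comp x (hf.restrictScalars (𝕜 := ℝ)).contDiffAt
  rw [levi_eq_deriv hc]
  have hκ : AnalyticAt ℂ (fun ζ : ℂ => f (x + ζ • v)) 0 := by
    refine AnalyticAt.fun_comp (g := f) (f := fun ζ : ℂ => x + ζ • v) (by simpa using hf) ?_
    fun_prop
  have h1 := levi_curve (u := u) (κ := fun ζ : ℂ => f (x + ζ • v)) (by simpa using hu) hκ
  rw [h1]
  have h2 : deriv (fun ζ : ℂ => f (x + ζ • v)) 0 = fderiv ℂ f x v := by
    have h3 : HasDerivAt (fun ζ : ℂ => x + ζ • v) ((1 : ℂ) • v) 0 :=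
      ((hasDerivAt_id (0 : ℂ)).smul_const v).const_add x
    have h4 : HasFDerivAt f (fderiv ℂ f x) (x + (0 : ℂ) • v) := by
      simpa using hf.differentiableAt.hasFDerivAt
    have h5 : HasDerivAt (fun ζ : ℂ => f (x + ζ • v)) (fderiv ℂ f x ((1 : ℂ) • v)) 0 :=
      h4.comp_hasDerivAt (0 : ℂ) h3
    simpa using h5.deriv
  rw [h2]
  simp

end levi

end Pool.Agent.helper90.KMMP
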