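import Mathlib

/-!
# Radial cut-off functions
-/

set_option linter.unusedVariables false

open scoped Topology ContDiff
open Set Filter Metric MeasureTheory

namespace Pool.Agent.helper90.KMMP

/-- smooth cut-off, `0` on `x ≤ 1/16` and `1` on `1/8 ≤ x` -/
noncomputable def cutS (x : ℝ) : ℝ := Real.smoothTransition (16 * x - 1)

theorem contDiff_cutS : ContDiff ℝ ∞ cutS := by
  have h : ContDiff ℝ ∞ Real.smoothTransition := Real.smoothTransition.contDiff
  exact h.comp ((contDiff_const.mul contDiff_id).sub contDiff_const)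

theorem cutS_zero {x : ℝ} (hx : x ≤ 1 / 16) : cutS x = 0 :=
  Real.smoothTransition.zero_of_nonpos (by linarith)

theorem cutS_one {x : ℝ} (hx : 1 / 8 ≤ x) : cutS x = 1 :=
  Real.smoothTransition.one_of_one_le (by linarith)

theorem cutS_pos {x : ℝ} (hx : 1 / 16 < x) : 0 < cutS x :=
  Real.smoothTransition.pos_of_pos (by linarith)

theorem cutS_nonneg (x : ℝ) : 0 ≤ cutS x := Real.smoothTransition.nonneg _

theorem cutS_le_one (x : ℝ) : cutS x ≤ 1 := Real.smoothTransition.le_one _

theorem cutS_mono : Monotone cutS := fun x y h =>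
  Real.smoothTransition.monotone (by linarith)

/-- integrand -/
noncomputable def radH (x : ℝ) : ℝ := cutS x * (1 - 1 / (32 * x) - 3 * x ^ 2)

theorem contDiff_radH : ContDiff ℝ ∞ radH := by
  rw [contDiff_iff_contDiffAt]
  intro x
  rcases le_or_gt x (1 / 32) with hx | hx
  · have h1 : radH =ᶠ[𝓝 x] fun _ => 0 := by
      filter_upwards [gt_mem_nhds (show x < 1 / 16 by linarith)] with y hy
      rw [radH, cutS_zero hy.le, zero_mul]
    exact contDiffAt_const.congr_of_eventuallyEq h1
  · have hx0 : 32 * x ≠ 0 := by positivity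
    unfold radH
    refine contDiff_cutS.contDiffAt.mul ?_
    refine (contDiffAt_const.sub ?_).sub ?_
    · exact contDiffAt_const.div (contDiffAt_const.mul contDiffAt_id) hx0
    · exact contDiffAt_const.mul (contDiffAt_id.pow 2)

theorem radH_zero {x : ℝ} (hx : x ≤ 1 / 16) : radH x = 0 := by
  rw [radH, cutS_zero hx, zero_mul]

theorem radH_pos {x : ℝ} (hx : 1 / 16 < x) (hx' : x ≤ 1 / 8) : 0 < radH x := by
  refine mul_pos (cutS_pos hx) ?_
  have h1 : 1 / (32 * x) ≤ 1 / 2 := by
    rw [div_le_div_iff₀ (by positivity) (by norm_num)]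
    linarith
  nlinarith

theorem radH_nonneg {x : ℝ} (hx' : x ≤ 1 / 8) : 0 ≤ radH x := by
  rcases le_or_gt x (1 / 16) with hx | hx
  · rw [radH_zero hx]
  · exact (radH_pos hx hx').le

/-- the correction term -/
noncomputable def radD (s : ℝ) : ℝ := ∫ τ in (0 : ℝ)..s, radH τ

theorem hasDerivAt_radD (s : ℝ) : HasDerivAt radD (radH s) s :=
  intervalIntegral.integral_hasDerivAt_right (contDiff_radH.continuous.intervalIntegrable _ _)
    (contDiff_radH.continuous.stronglyMeasurableAtFilter _ _) contDiff_radH.continuous.continuousAt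

theorem contDiff_radD : ContDiff ℝ ∞ radD := by
  rw [contDiff_infty_iff_deriv]
  refine ⟨fun s => (hasDerivAt_radD s).differentiableAt, ?_⟩
  have : deriv radD = radH := by
    ext s; exact (hasDerivAt_radD s).deriv
  rw [this]
  exact contDiff_radH

theorem radD_zero {s : ℝ} (hs : s ≤ 1 / 16) : radD s = 0 := by
  unfold radD
  rw [intervalIntegral.integral_congr (g := fun _ => (0 : ℝ))]
  · simp
  · intro τ hτ
    refine radH_zero ?_
    rcases le_total 0 s with h | h
    · rw [uIcc_of_le h] at hτ; exact hτ.2.trans hs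
    · rw [uIcc_of_ge h] at hτ; linarith [hτ.2]

theorem radD_mono {s t : ℝ} (hst : s ≤ t) (ht : t ≤ 1 / 8) : radD s ≤ radD t := by
  have h1 : radD t - radD s = ∫ τ in s..t, radH τ := by
    unfold radD
    rw [intervalIntegral.integral_interval_sub_left] <;>
      exact contDiff_radH.continuous.intervalIntegrable _ _
  have h2 : 0 ≤ ∫ τ in s..t, radH τ :=
    intervalIntegral.integral_nonneg hst fun τ hτ => radH_nonneg (hτ.2.trans ht)
  linarith

/-- the gap -/
noncomputable def gap0 : ℝ := radD (3 / 32)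

theorem gap0_pos : 0 < gap0 := by
  have h1 : gap0 - radD (1 / 16) = ∫ τ in (1 / 16 : ℝ)..(3 / 32), radH τ := by
    unfold gap0 radD
    rw [intervalIntegral.integral_interval_sub_left] <;>
      exact contDiff_radH.continuous.intervalIntegrable _ _
  have h2 : 0 < ∫ τ in (1 / 16 : ℝ)..(3 / 32), radH τ := by
    refine intervalIntegral.intervalIntegral_pos_of_pos_on
      (contDiff_radH.continuous.intervalIntegrable _ _) ?_ (by norm_num)
    intro τ hτ
    exact radH_pos hτ.1 (by linarith [hτ.2])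
  rw [radD_zero le_rfl] at h1
  linarith

theorem gap0_le {s : ℝ} (h1 : 3 / 32 ≤ s) (h2 : s ≤ 1 / 8) : gap0 ≤ radD s := radD_mono h1 h2

/-- normalising constant -/
noncomputable def radC : ℝ := 1 / 8 - (1 / 32 * Real.log (1 / 8) + (1 / 8) ^ 3 + radD (1 / 8))

/-- the radial potential: `(1/32) log s + s^3 + C` for small `s`, and `s` for `s ≥ 1/8` -/
noncomputable def radF (s : ℝ) : ℝ := 1 / 32 * Real.log s + s ^ 3 + radC + radD s

/-- `s F'(s)` -/
noncomputable def radG (s : ℝ) : ℝ := (1 - cutS s) * (1 / 32 + 3 * s ^ 3) + cutS s * s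

theorem hasDerivAt_radF {s : ℝ} (hs : 0 < s) : HasDerivAt radF (radG s / s) s := by
  have h1 : HasDerivAt radF (1 / 32 * s⁻¹ + 3 * s ^ 2 + 0 + radH s) s := by
    have h2 := (Real.hasDerivAt_log hs.ne').const_mul (1 / 32 : ℝ)
    have h3 : HasDerivAt (fun s : ℝ => s ^ 3) (3 * s ^ 2) s := by
      simpa using hasDerivAt_pow 3 s
    exact ((h2.add h3).add (hasDerivAt_const s radC)).add (hasDerivAt_radD s)
  have h4 : 1 / 32 * s⁻¹ + 3 * s ^ 2 + 0 + radH s = radG s / s := by
    unfold radH radG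
    field_simp
    ring
  rwa [h4] at h1

theorem contDiffAt_radF {s : ℝ} (hs : 0 < s) : ContDiffAt ℝ ∞ radF s := by
  unfold radF
  exact (((contDiffAt_const.mul (Real.contDiffAt_log.2 hs.ne')).add (contDiffAt_id.pow 3)).add
    contDiffAt_const).add contDiff_radD.contDiffAt

theorem contDiff_radG : ContDiff ℝ ∞ radG := by
  unfold radG
  exact ((contDiff_const.sub contDiff_cutS).mul (contDiff_const.add
    (contDiff_const.mul (contDiff_id.pow 3)))).add (contDiff_cutS.mul contDiff_id)

theorem radF_eq {s : ℝ} (hs : 1 / 8 ≤ s) : radF s = s := by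
  have hd : ∀ t ∈ Ici (1 / 8 : ℝ), HasDerivAt (fun t => radF t - t) 0 t := by
    intro t ht
    have ht' : (0 : ℝ) < t := lt_of_lt_of_le (by norm_num) ht
    have h1 := (hasDerivAt_radF ht').sub (hasDerivAt_id t)
    have h2 : radG t / t - 1 = 0 := by
      rw [radG, cutS_one ht]; field_simp; ring
    rwa [h2] at h1
  have h1 : radF s - s = radF (1 / 8) - 1 / 8 := by
    have h2 := (convex_Ici (1 / 8 : ℝ)).is_const_of_fderivWithin_eq_zero (𝕜 := ℝ)
      (f := fun t => radF t - t) (fun t ht => (hd t ht).differentiableAt.differentiableWithinAt)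
      (fun t ht => by
        have h3 := (hd t ht).hasFDerivAt.hasFDerivWithinAt (s := Ici (1 / 8 : ℝ))
        rw [h3.fderivWithin (uniqueDiffOn_Ici _ t ht)]
        ext; simp) hs (self_mem_Ici (a := (1 / 8 : ℝ)))
    exact h2
  have h2 : radF (1 / 8) = 1 / 8 := by
    unfold radF radC
    ring
  linarith

theorem radG_pos {s : ℝ} (hs : 0 < s) : 0 < radG s := by
  have h1 := cutS_nonneg s
  have h2 := cutS_le_one s
  unfold radG
  rcases eq_or_lt_of_le h1 with h | h
  · rw [← h]; simp; positivity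
  · have h3 : 0 ≤ (1 - cutS s) * (1 / 32 + 3 * s ^ 3) := mul_nonneg (by linarith) (by positivity)
    have h4 : 0 < cutS s * s := mul_pos h hs
    linarith

theorem hasDerivAt_radG (s : ℝ) : HasDerivAt radG
    ((1 - cutS s) * (9 * s ^ 2) + cutS s + deriv cutS s * (s - 1 / 32 - 3 * s ^ 3)) s := by
  have hc : HasDerivAt cutS (deriv cutS s) s :=
    (contDiff_cutS.differentiable (by simp) s).hasDerivAt
  have h3 : HasDerivAt (fun s : ℝ => 1 / 32 + 3 * s ^ 3) (3 * (3 * s ^ 2)) s := by
    have := ((hasDerivAt_pow 3 s).const_mul (3 : ℝ)).const_add (1 / 32 : ℝ)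
    simpa using this
  have h1 := ((hc.const_sub 1).mul h3).add (hc.mul (hasDerivAt_id s))
  have h4 : (1 - cutS s) * (9 * s ^ 2) + cutS s + deriv cutS s * (s - 1 / 32 - 3 * s ^ 3) =
      -deriv cutS s * (1 / 32 + 3 * s ^ 3) + (1 - cutS s) * (3 * (3 * s ^ 2)) +
        (deriv cutS s * id s + cutS s * 1) := by
    simp only [id]
    ring
  rw [h4]
  exact h1

theorem deriv_cutS_nonneg (s : ℝ) : 0 ≤ deriv cutS s := cutS_mono.deriv_nonneg

theorem deriv_cutS_zero {s : ℝ} (hs : s < 1 / 16 ∨ 1 / 8 < s) : deriv cutS s = 0 := by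
  rcases hs with h | h
  · have h1 : cutS =ᶠ[𝓝 s] fun _ => 0 := by
      filter_upwards [gt_mem_nhds h] with y hy using cutS_zero hy.le
    rw [h1.deriv_eq]; simp
  · have h1 : cutS =ᶠ[𝓝 s] fun _ => 1 := by
      filter_upwards [lt_mem_nhds h] with y hy using cutS_one hy.le
    rw [h1.deriv_eq]; simp

theorem deriv_radG_pos {s : ℝ} (hs : 0 < s) : 0 < deriv radG s := by
  rw [(hasDerivAt_radG s).deriv]
  have h1 := cutS_nonneg s
  have h2 := cutS_le_one s
  have h3 := deriv_cutS_nonneg s
  have h4 : 0 ≤ deriv cutS s * (s - 1 / 32 - 3 * s ^ 3) := by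
    by_cases h : s < 1 / 16 ∨ 1 / 8 < s
    · rw [deriv_cutS_zero h, zero_mul]
    · rw [not_or, not_lt, not_lt] at h
      refine mul_nonneg h3 ?_
      have h5 : s ^ 2 ≤ (1 / 8) ^ 2 := pow_le_pow_left₀ hs.le h.2 2
      nlinarith
  have h5 : 0 < (1 - cutS s) * (9 * s ^ 2) + cutS s := by
    rcases eq_or_lt_of_le h1 with h | h
    · rw [← h]; simp; positivity
    · have : 0 ≤ (1 - cutS s) * (9 * s ^ 2) := mul_nonneg (by linarith) (by positivity)
      linarith
  linarith

theorem deriv_radF {s : ℝ} (hs : 0 < s) : deriv radF s = radG s / s := (hasDerivAt_radF hs).deriv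

theorem deriv_deriv_radF {s : ℝ} (hs : 0 < s) :
    deriv (deriv radF) s = (deriv radG s * s - radG s) / s ^ 2 := by
  have h1 : deriv radF =ᶠ[𝓝 s] fun s => radG s / s := by
    filter_upwards [lt_mem_nhds hs] with t ht using deriv_radF ht
  rw [h1.deriv_eq]
  have h2 : HasDerivAt radG (deriv radG s) s :=
    (contDiff_radG.differentiable (by simp) s).hasDerivAt
  have h3 : HasDerivAt (fun s => radG s / s) ((deriv radG s * s - radG s * 1) / s ^ 2) s :=
    h2.div (hasDerivAt_id s) hs.ne'
  simpa using h3.deriv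

theorem radF_le {s : ℝ} (hs : 0 < s) (hs' : s ≤ 1 / 8) : radF s ≤ 1 / 8 := by
  have hmono : MonotoneOn radF (Ioi 0) := by
    refine monotoneOn_of_deriv_nonneg (convex_Ioi 0) ?_ ?_ ?_
    · exact fun t ht => (contDiffAt_radF ht).continuousAt.continuousWithinAt
    · rw [interior_Ioi]
      exact fun t ht => (hasDerivAt_radF ht).differentiableAt.differentiableWithinAt
    · rw [interior_Ioi]
      intro t ht
      rw [deriv_radF ht]
      exact (div_pos (radG_pos ht) ht).le
  have h1 := hmono (show s ∈ Ioi (0 : ℝ) from hs) (show (1 / 8 : ℝ) ∈ Ioi 0 by norm_num) hs'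
  rwa [radF_eq le_rfl] at h1

/-! ### smooth convex function -/

/-- smooth, convex, `0` on `x ≤ 0`, slope `1` on `x ≥ 1` -/
noncomputable def cvx (x : ℝ) : ℝ := ∫ τ in (0 : ℝ)..x, Real.smoothTransition τ

theorem hasDerivAt_cvx (x : ℝ) : HasDerivAt cvx (Real.smoothTransition x) x :=
  intervalIntegral.integral_hasDerivAt_right
    (Real.smoothTransition.continuous.intervalIntegrable _ _)
    (Real.smoothTransition.continuous.stronglyMeasurableAtFilter _ _)
    Real.smoothTransition.continuousAt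

theorem deriv_cvx : deriv cvx = Real.smoothTransition := by
  ext x; exact (hasDerivAt_cvx x).deriv

theorem contDiff_cvx : ContDiff ℝ ∞ cvx := by
  rw [contDiff_infty_iff_deriv]
  refine ⟨fun s => (hasDerivAt_cvx s).differentiableAt, ?_⟩
  rw [deriv_cvx]
  exact Real.smoothTransition.contDiff

theorem cvx_zero {x : ℝ} (hx : x ≤ 0) : cvx x = 0 := by
  unfold cvx
  rw [intervalIntegral.integral_congr (g := fun _ => (0 : ℝ))]
  · simp
  · intro τ hτ
    refine Real.smoothTransition.zero_of_nonpos ?_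
    rw [uIcc_of_ge hx] at hτ
    exact hτ.2

/-- the offset -/
noncomputable def cvx0 : ℝ := 1 - cvx 1

theorem cvx_eq {x : ℝ} (hx : 1 ≤ x) : cvx x = x - cvx0 := by
  have h1 : cvx x - cvx 1 = ∫ τ in (1 : ℝ)..x, Real.smoothTransition τ := by
    unfold cvx
    rw [intervalIntegral.integral_interval_sub_left] <;>
      exact Real.smoothTransition.continuous.intervalIntegrable _ _
  have h2 : ∫ τ in (1 : ℝ)..x, Real.smoothTransition τ = ∫ τ in (1 : ℝ)..x, (1 : ℝ) := by
    refine intervalIntegral.integral_congr fun τ hτ => ?_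
    rw [uIcc_of_le hx] at hτ
    exact Real.smoothTransition.one_of_one_le hτ.1
  rw [h2] at h1
  simp only [intervalIntegral.integral_const, smul_eq_mul, mul_one] at h1
  unfold cvx0
  linarith

theorem deriv_deriv_cvx_nonneg (x : ℝ) : 0 ≤ deriv (deriv cvx) x := by
  rw [deriv_cvx]
  exact Real.smoothTransition.monotone.deriv_nonneg

end Pool.Agent.helper90.KMMP
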