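import Pool.Agent.helper90.KMMP.LeviPsh
import Pool.Agent.helper90.KMMP.Radial

/-!
# Levi forms of the concrete potentials
-/

set_option linter.unusedSectionVars false
set_option linter.unusedVariables false

open scoped Topology ContDiff
open Set Filter Metric MeasureTheory

namespace Pool.Agent.helper90.KMMP

theorem two_le_infty : (2 : WithTop ℕ∞) ≤ ∞ := WithTop.coe_le_coe.2 le_top

/-! ### products -/

section

variable {E : Type*} [NormedAddCommGroup E] [NormedSpace ℂ E] [CompleteSpace E]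

theorem hess_mul {p q : E → ℝ} {x : E} (hp : ContDiffAt ℝ 2 p x) (hq : ContDiffAt ℝ 2 q x)
    (w : E) : hess (fun y => p y * q y) x w =
      p x * hess q x w + q x * hess p x w + 2 * (fderiv ℝ p x w * fderiv ℝ q x w) := by
  have h1 : fderiv ℝ (fun y => p y * q y) =ᶠ[𝓝 x] fun y => p y • fderiv ℝ q y + q y • fderiv ℝ p y := by
    filter_upwards [eventually_differentiableAt hp, eventually_differentiableAt hq] with y h1 h2
    exact fderiv_fun_mul h1 h2
  have h2 := ((hp.differentiableAt (by norm_num)).hasFDerivAt.fun_smul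
    (differentiableAt_fderiv hq).hasFDerivAt).fun_add
    ((hq.differentiableAt (by norm_num)).hasFDerivAt.fun_smul
    (differentiableAt_fderiv hp).hasFDerivAt)
  unfold hess
  rw [h1.fderiv_eq, h2.fderiv]
  simp only [add_apply, smul_apply, ContinuousLinearMap.smulRight_apply, smul_eq_mul]
  ring

theorem levi_mul {p q : E → ℝ} {x : E} (hp : ContDiffAt ℝ 2 p x) (hq : ContDiffAt ℝ 2 q x)
    (w : E) : levi (fun y => p y * q y) x w =
      p x * levi q x w + q x * levi p x w +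
        2 * (fderiv ℝ p x w * fderiv ℝ q x w +
          fderiv ℝ p x (Complex.I • w) * fderiv ℝ q x (Complex.I • w)) := by
  unfold levi
  rw [hess_mul hp hq, hess_mul hp hq]
  ring

theorem fderiv_normSq_comp {f : E → ℂ} {x : E} (hf : AnalyticAt ℂ f x) (v : E) :
    fderiv ℝ (fun y => ‖f y‖ ^ 2) x v = 2 * ((starRingEnd ℂ) (f x) * fderiv ℂ f x v).re := by
  have h1 : HasFDerivAt f ((fderiv ℂ f x).restrictScalars ℝ) x :=
    hf.differentiableAt.hasFDerivAt.restrictScalars ℝ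
  have h2 := h1.norm_sq
  rw [h2.fderiv]
  simp [Complex.inner]
  ring

end

/-! ### sums of squares -/

/-- Euclidean norm squared -/
noncomputable def sqn {n : ℕ} (w : Fin n → ℂ) : ℝ := ∑ i, ‖w i‖ ^ 2

theorem sqn_nonneg {n : ℕ} (w : Fin n → ℂ) : 0 ≤ sqn w :=
  Finset.sum_nonneg fun i _ => by positivity

theorem sqn_pos {n : ℕ} {w : Fin n → ℂ} (hw : w ≠ 0) : 0 < sqn w := by
  obtain ⟨i, hi⟩ : ∃ i, w i ≠ 0 := by
    by_contra hcon
    push Not at hcon
    exact hw (funext hcon)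
  refine Finset.sum_pos' (fun i _ => by positivity) ⟨i, Finset.mem_univ i, ?_⟩
  have : 0 < ‖w i‖ := norm_pos_iff.2 hi
  positivity

theorem contDiff_sqn {n : ℕ} {m : WithTop ℕ∞} : ContDiff ℝ m (sqn : (Fin n → ℂ) → ℝ) :=
  contDiff_sumSq

theorem levi_sqn {n : ℕ} (x v : Fin n → ℂ) : levi sqn x v = 4 * sqn v := levi_sumSq x v

/-- hermitian product -/
noncomputable def herm {n : ℕ} (w v : Fin n → ℂ) : ℂ := ∑ i, (starRingEnd ℂ) (w i) * v i

theorem fderiv_sqn {n : ℕ} (x v : Fin n → ℂ) : fderiv ℝ sqn x v = 2 * (herm x v).re := by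
  have h1 : ∀ i : Fin n, AnalyticAt ℂ (fun v : Fin n → ℂ => v i) x := fun i =>
    (ContinuousLinearMap.proj (R := ℂ) i).analyticAt x
  have h2 : fderiv ℝ (sqn : (Fin n → ℂ) → ℝ) x =
      ∑ i, fderiv ℝ (fun v : Fin n → ℂ => ‖v i‖ ^ 2) x := by
    unfold sqn
    exact fderiv_fun_sum fun i _ => (contDiffAt_normSq_comp (h1 i) (n := 1)).differentiableAt
      (by norm_num)
  rw [h2, ContinuousLinearMap.sum_apply, herm, Complex.re_sum, Finset.mul_sum]
  refine Finset.sum_congr rfl fun i _ => ?_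
  rw [fderiv_normSq_comp (h1 i)]
  have h3 : fderiv ℂ (fun v : Fin n → ℂ => v i) x =
      ContinuousLinearMap.proj (R := ℂ) (φ := fun _ => ℂ) i :=
    (ContinuousLinearMap.proj (R := ℂ) (φ := fun _ => ℂ) i).fderiv
  rw [h3]
  simp

theorem herm_smul_I {n : ℕ} (x v : Fin n → ℂ) :
    herm x (Complex.I • v) = Complex.I * herm x v := by
  unfold herm
  rw [Finset.mul_sum]
  refine Finset.sum_congr rfl fun i _ => ?_
  simp only [Pi.smul_apply, smul_eq_mul]
  ring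

theorem fderiv_sqn_sq {n : ℕ} (x v : Fin n → ℂ) :
    (fderiv ℝ sqn x v) ^ 2 + (fderiv ℝ sqn x (Complex.I • v)) ^ 2 = 4 * ‖herm x v‖ ^ 2 := by
  rw [fderiv_sqn, fderiv_sqn, herm_smul_I, Complex.sq_norm, Complex.normSq_apply]
  simp only [Complex.mul_re, Complex.I_re, Complex.I_im]
  ring

theorem herm_le {n : ℕ} (x v : Fin n → ℂ) : ‖herm x v‖ ^ 2 ≤ sqn x * sqn v := by
  have h1 : ‖herm x v‖ ≤ ∑ i, ‖x i‖ * ‖v i‖ := by
    unfold herm
    refine (norm_sum_le _ _).trans (Finset.sum_le_sum fun i _ => ?_)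
    rw [norm_mul, RCLike.norm_conj]
  have h2 := Finset.sum_mul_sq_le_sq_mul_sq Finset.univ (fun i => ‖x i‖) (fun i => ‖v i‖)
  unfold sqn
  calc ‖herm x v‖ ^ 2 ≤ (∑ i, ‖x i‖ * ‖v i‖) ^ 2 := pow_le_pow_left₀ (norm_nonneg _) h1 2
    _ ≤ _ := h2

/-- radial functions -/
theorem levi_radial {n : ℕ} {ψ : ℝ → ℝ} {x : Fin n → ℂ} (hψ : ContDiffAt ℝ 2 ψ (sqn x))
    (v : Fin n → ℂ) : levi (fun w => ψ (sqn w)) x v =
      4 * (deriv ψ (sqn x) * sqn v + deriv (deriv ψ) (sqn x) * ‖herm x v‖ ^ 2) := by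
  rw [levi_real_comp contDiff_sqn.contDiffAt hψ, levi_sqn, fderiv_sqn_sq]
  ring

theorem levi_radial_pos {n : ℕ} {ψ : ℝ → ℝ} {x : Fin n → ℂ} (hψ : ContDiffAt ℝ 2 ψ (sqn x))
    (h1 : 0 < deriv ψ (sqn x)) (h2 : 0 < deriv ψ (sqn x) + sqn x * deriv (deriv ψ) (sqn x))
    {v : Fin n → ℂ} (hv : v ≠ 0) : 0 < levi (fun w => ψ (sqn w)) x v := by
  rw [levi_radial hψ]
  have h3 := sqn_pos hv
  have h4 := herm_le x v
  have h5 : 0 ≤ ‖herm x v‖ ^ 2 := by positivity
  rcases le_or_gt 0 (deriv (deriv ψ) (sqn x)) with h | h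
  · have h6 : 0 ≤ deriv (deriv ψ) (sqn x) * ‖herm x v‖ ^ 2 := mul_nonneg h h5
    have h7 : 0 < deriv ψ (sqn x) * sqn v := mul_pos h1 h3
    linarith
  · have h6 : deriv (deriv ψ) (sqn x) * (sqn x * sqn v) ≤
        deriv (deriv ψ) (sqn x) * ‖herm x v‖ ^ 2 := mul_le_mul_of_nonpos_left h4 h.le
    have h7 : 0 < (deriv ψ (sqn x) + sqn x * deriv (deriv ψ) (sqn x)) * sqn v := mul_pos h2 h3
    nlinarith

theorem levi_radial_nonneg {n : ℕ} {ψ : ℝ → ℝ} {x : Fin n → ℂ} (hψ : ContDiffAt ℝ 2 ψ (sqn x))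
    (h1 : 0 ≤ deriv ψ (sqn x)) (h2 : 0 ≤ deriv ψ (sqn x) + sqn x * deriv (deriv ψ) (sqn x))
    (v : Fin n → ℂ) : 0 ≤ levi (fun w => ψ (sqn w)) x v := by
  rw [levi_radial hψ]
  have h3 := sqn_nonneg v
  have h4 := herm_le x v
  have h5 : 0 ≤ ‖herm x v‖ ^ 2 := by positivity
  rcases le_or_gt 0 (deriv (deriv ψ) (sqn x)) with h | h
  · have h6 : 0 ≤ deriv (deriv ψ) (sqn x) * ‖herm x v‖ ^ 2 := mul_nonneg h h5
    have h7 : 0 ≤ deriv ψ (sqn x) * sqn v := mul_nonneg h1 h3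
    linarith
  · have h6 : deriv (deriv ψ) (sqn x) * (sqn x * sqn v) ≤
        deriv (deriv ψ) (sqn x) * ‖herm x v‖ ^ 2 := mul_le_mul_of_nonpos_left h4 h.le
    have h7 : 0 ≤ (deriv ψ (sqn x) + sqn x * deriv (deriv ψ) (sqn x)) * sqn v := mul_nonneg h2 h3
    nlinarith

/-- the Levi form of `radF (sqn w)` is positive -/
theorem levi_radF_pos {n : ℕ} {x : Fin n → ℂ} (hx : 0 < sqn x) {v : Fin n → ℂ} (hv : v ≠ 0) :
    0 < levi (fun w => radF (sqn w)) x v := by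
  refine levi_radial_pos ((contDiffAt_radF hx).of_le two_le_infty) ?_ ?_ hv
  · rw [deriv_radF hx]; exact div_pos (radG_pos hx) hx
  · rw [deriv_radF hx, deriv_deriv_radF hx]
    have h1 := deriv_radG_pos hx
    have h2 : radG (sqn x) / sqn x + sqn x * ((deriv radG (sqn x) * sqn x - radG (sqn x)) /
        sqn x ^ 2) = deriv radG (sqn x) := by
      field_simp
      ring
    rw [h2]
    exact h1

/-- the inner potential -/
noncomputable def radF0 (s : ℝ) : ℝ := 1 / 32 * Real.log s + s ^ 3 + radC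

theorem radF_eq_add (s : ℝ) : radF s = radF0 s + radD s := rfl

theorem contDiffAt_radF0 {s : ℝ} (hs : 0 < s) : ContDiffAt ℝ ∞ radF0 s := by
  unfold radF0
  exact ((contDiffAt_const.mul (Real.contDiffAt_log.2 hs.ne')).add (contDiffAt_id.pow 3)).add
    contDiffAt_const

theorem hasDerivAt_radF0 {s : ℝ} (hs : 0 < s) :
    HasDerivAt radF0 (1 / 32 * s⁻¹ + 3 * s ^ 2) s := by
  have h2 := (Real.hasDerivAt_log hs.ne').const_mul (1 / 32 : ℝ)
  have h3 : HasDerivAt (fun s : ℝ => s ^ 3) (3 * s ^ 2) s := by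
    simpa using hasDerivAt_pow 3 s
  have h4 := (h2.add h3).add (hasDerivAt_const s radC)
  rw [add_zero] at h4
  exact h4

theorem levi_radF0_pos {n : ℕ} {x : Fin n → ℂ} (hx : 0 < sqn x) {v : Fin n → ℂ} (hv : v ≠ 0) :
    0 < levi (fun w => radF0 (sqn w)) x v := by
  have h1 : deriv radF0 =ᶠ[𝓝 (sqn x)] fun s => 1 / 32 * s⁻¹ + 3 * s ^ 2 := by
    filter_upwards [lt_mem_nhds hx] with s hs using (hasDerivAt_radF0 hs).deriv
  have h2 : deriv (deriv radF0) (sqn x) = -(1 / 32 * (sqn x ^ 2)⁻¹) + 6 * sqn x := by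
    rw [h1.deriv_eq]
    have h3 := (hasDerivAt_inv hx.ne').const_mul (1 / 32 : ℝ)
    have h4 : HasDerivAt (fun s : ℝ => 3 * s ^ 2) (3 * (2 * sqn x)) (sqn x) := by
      simpa using (hasDerivAt_pow 2 (sqn x)).const_mul (3 : ℝ)
    rw [(h3.fun_add h4).deriv]
    ring
  refine levi_radial_pos ((contDiffAt_radF0 hx).of_le two_le_infty) ?_ ?_ hv
  · rw [h1.eq_of_nhds]; positivity
  · rw [h1.eq_of_nhds, h2]
    have h3 : 1 / 32 * (sqn x)⁻¹ + 3 * sqn x ^ 2 +
        sqn x * (-(1 / 32 * (sqn x ^ 2)⁻¹) + 6 * sqn x) = 9 * sqn x ^ 2 := by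
      field_simp
      ring
    rw [h3]
    positivity

end Pool.Agent.helper90.KMMP
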