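import Pool.Agent.helper90.KMMP.Levi

set_option linter.unusedSectionVars false
set_option linter.unusedVariables false

open scoped Topology ContDiff
open Set Filter Metric MeasureTheory

namespace Pool.Agent.helper90.KMMP

/-! ### sub-mean value property of smooth functions of one variable -/

/-- polar coordinates -/
noncomputable def polG (g : ℂ → ℝ) (p : ℝ × ℝ) : ℝ := g (Complex.exp (p.1 + p.2 * Complex.I))

theorem norm_exp_polar (p : ℝ × ℝ) : ‖Complex.exp (p.1 + p.2 * Complex.I)‖ = Real.exp p.1 := by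
  rw [Complex.norm_exp]; simp

theorem exp_polar_mem {p : ℝ × ℝ} (hp : p.1 < 0) :
    Complex.exp (p.1 + p.2 * Complex.I) ∈ ball (0 : ℂ) 1 := by
  rw [mem_ball_zero_iff, norm_exp_polar]
  exact Real.exp_lt_one_iff.2 hp

theorem contDiff_polar {n : WithTop ℕ∞} :
    ContDiff ℝ n fun p : ℝ × ℝ => Complex.exp (p.1 + p.2 * Complex.I) := by
  have h1 : ContDiff ℝ n fun p : ℝ × ℝ => ((p.1 : ℝ) : ℂ) :=
    Complex.ofRealCLM.contDiff.comp contDiff_fst
  have h2 : ContDiff ℝ n fun p : ℝ × ℝ => ((p.2 : ℝ) : ℂ) :=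
    Complex.ofRealCLM.contDiff.comp contDiff_snd
  exact (h1.add (h2.mul contDiff_const)).cexp

section

variable {g : ℂ → ℝ} (hg : ∀ z ∈ ball (0 : ℂ) 1, ContDiffAt ℝ 2 g z)
include hg

theorem contDiffAt_polG {p : ℝ × ℝ} (hp : p.1 < 0) : ContDiffAt ℝ 2 (polG g) p :=
  (hg _ (exp_polar_mem hp)).comp p contDiff_polar.contDiffAt

theorem hess_polG (hΔ : ∀ z ∈ ball (0 : ℂ) 1, ∀ v, 0 ≤ levi g z v) {p : ℝ × ℝ} (hp : p.1 < 0) :
    0 ≤ hess (polG g) p (1, 0) + hess (polG g) p (0, 1) := by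
  have h0 := contDiffAt_polG hg hp
  rw [hess_eq_deriv h0, hess_eq_deriv h0]
  let κ : ℂ → ℂ := fun ζ => Complex.exp (p.1 + p.2 * Complex.I + ζ)
  have hκ : AnalyticAt ℂ κ 0 := by fun_prop
  have hκ0 : κ 0 = Complex.exp (p.1 + p.2 * Complex.I) := by simp [κ]
  have h1 := levi_curve (u := g) (κ := κ) (by rw [hκ0]; exact hg _ (exp_polar_mem hp)) hκ
  have e1 : (fun s : ℝ => polG g (p + s • ((1, 0) : ℝ × ℝ))) = fun s : ℝ => g (κ (s * 1)) := by
    ext s
    simp only [polG, κ, Prod.fst_add, Prod.snd_add, Prod.smul_mk, smul_eq_mul]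
    congr 2
    push_cast
    ring
  have e2 : (fun s : ℝ => polG g (p + s • ((0, 1) : ℝ × ℝ))) =
      fun s : ℝ => g (κ (s * Complex.I)) := by
    ext s
    simp only [polG, κ, Prod.fst_add, Prod.snd_add, Prod.smul_mk, smul_eq_mul]
    congr 2
    push_cast
    ring
  rw [e1, e2, h1, hκ0]
  exact hΔ _ (exp_polar_mem hp) _

omit hg in
theorem polG_periodic (p : ℝ × ℝ) : polG g (p + (0, 2 * Real.pi)) = polG g p := by
  simp only [polG, Prod.fst_add, Prod.snd_add, add_zero]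
  congr 1
  rw [Complex.exp_eq_exp_iff_exists_int]
  exact ⟨1, by push_cast; ring⟩

omit hg in
theorem fderiv_polG_periodic (x : ℝ) :
    fderiv ℝ (polG g) (x, 2 * Real.pi) = fderiv ℝ (polG g) (x, 0) := by
  have h1 : (fun p => polG g (p + (0, 2 * Real.pi))) = polG g := by
    ext p; exact polG_periodic p
  have h2 := fderiv_comp_add_right (𝕜 := ℝ) (f := polG g) (x := ((x, 0) : ℝ × ℝ))
    ((0, 2 * Real.pi) : ℝ × ℝ)
  rw [h1] at h2
  rw [h2]
  simp

/-- derivative of the circular mean -/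
noncomputable def polA (g : ℂ → ℝ) (s : ℝ) : ℝ :=
  ∫ y in (0 : ℝ)..(2 * Real.pi), fderiv ℝ (polG g) (s, y) (1, 0)

/-- circular mean -/
noncomputable def polN (g : ℂ → ℝ) (s : ℝ) : ℝ :=
  ∫ y in (0 : ℝ)..(2 * Real.pi), polG g (s, y)

theorem polA_mono (hΔ : ∀ z ∈ ball (0 : ℂ) 1, ∀ v, 0 ≤ levi g z v) {s₁ s₂ : ℝ} (h12 : s₁ ≤ s₂)
    (h2 : s₂ < 0) : polA g s₁ ≤ polA g s₂ := by
  have hneg : ∀ p ∈ (uIcc s₁ s₂) ×ˢ (uIcc (0 : ℝ) (2 * Real.pi)), p.1 < 0 := by
    intro p hp
    rw [uIcc_of_le h12] at hp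
    exact lt_of_le_of_lt hp.1.2 h2
  have hneg' : ∀ p ∈ Ioo (min s₁ s₂) (max s₁ s₂) ×ˢ Ioo (min 0 (2 * Real.pi)) (max 0 (2 * Real.pi)),
      p.1 < 0 := by
    intro p hp
    rw [max_eq_right h12] at hp
    exact lt_trans hp.1.2 h2
  have hd : ∀ p : ℝ × ℝ, p.1 < 0 → ∀ w : ℝ × ℝ, HasFDerivAt (fun q => fderiv ℝ (polG g) q w)
      ((fderiv ℝ (fderiv ℝ (polG g)) p).flip w) p := by
    intro p hp w
    have h3 := (differentiableAt_fderiv (contDiffAt_polG hg hp)).hasFDerivAt
    have h4 := h3.clm_apply (hasFDerivAt_const w p)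
    simpa using h4
  have hcont : ∀ p : ℝ × ℝ, p.1 < 0 → ContinuousAt (fderiv ℝ (fderiv ℝ (polG g))) p := by
    intro p hp
    have h3 : ContDiffAt ℝ 0 (fderiv ℝ (fderiv ℝ (polG g))) p :=
      ((contDiffAt_polG hg hp).fderiv_right (m := 1) (by norm_num)).fderiv_right (m := 0)
        (by norm_num)
    exact h3.continuousAt
  have key := integral2_divergence_prod_of_hasFDerivAt_off_countable
    (fun q => fderiv ℝ (polG g) q (1, 0)) (fun q => fderiv ℝ (polG g) q (0, 1))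
    (fun p => (fderiv ℝ (fderiv ℝ (polG g)) p).flip (1, 0))
    (fun p => (fderiv ℝ (fderiv ℝ (polG g)) p).flip (0, 1)) s₁ 0 s₂ (2 * Real.pi) ∅ countable_empty
    (fun p hp => ((hd p (hneg p hp) _).continuousAt).continuousWithinAt)
    (fun p hp => ((hd p (hneg p hp) _).continuousAt).continuousWithinAt)
    (fun p hp => hd p (hneg' p hp.1) _) (fun p hp => hd p (hneg' p hp.1) _)
    (by
      refine ContinuousOn.integrableOn_compact (isCompact_uIcc.prod isCompact_uIcc) ?_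
      intro p hp
      have h3 := hcont p (hneg p hp)
      refine ContinuousAt.continuousWithinAt ?_
      simp only [ContinuousLinearMap.flip_apply]
      fun_prop)
  have h3 : 0 ≤ ∫ x in s₁..s₂, ∫ y in (0 : ℝ)..(2 * Real.pi),
      (fderiv ℝ (fderiv ℝ (polG g)) (x, y)).flip (1, 0) (1, 0) +
        (fderiv ℝ (fderiv ℝ (polG g)) (x, y)).flip (0, 1) (0, 1) := by
    refine intervalIntegral.integral_nonneg h12 fun x hx => ?_
    refine intervalIntegral.integral_nonneg (by positivity) fun y hy => ?_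
    exact hess_polG hg hΔ (p := (x, y)) (lt_of_le_of_lt hx.2 h2)
  rw [key] at h3
  simp only [fderiv_polG_periodic, sub_self, zero_add] at h3
  unfold polA
  linarith

theorem polN_sub {s₁ s₂ : ℝ} (h12 : s₁ ≤ s₂) (h2 : s₂ < 0) :
    polN g s₂ - polN g s₁ = ∫ x in s₁..s₂, polA g x := by
  have hneg : ∀ p ∈ (uIcc s₁ s₂) ×ˢ (uIcc (0 : ℝ) (2 * Real.pi)), p.1 < 0 := by
    intro p hp
    rw [uIcc_of_le h12] at hp
    exact lt_of_le_of_lt hp.1.2 h2
  have hneg' : ∀ p ∈ Ioo (min s₁ s₂) (max s₁ s₂) ×ˢ Ioo (min 0 (2 * Real.pi)) (max 0 (2 * Real.pi)),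
      p.1 < 0 := by
    intro p hp
    rw [max_eq_right h12] at hp
    exact lt_trans hp.1.2 h2
  have hd : ∀ p : ℝ × ℝ, p.1 < 0 → HasFDerivAt (polG g) (fderiv ℝ (polG g) p) p := fun p hp =>
    ((contDiffAt_polG hg hp).differentiableAt (by norm_num)).hasFDerivAt
  have hcont : ∀ p : ℝ × ℝ, p.1 < 0 → ContinuousAt (fderiv ℝ (polG g)) p := by
    intro p hp
    have h3 : ContDiffAt ℝ 1 (fderiv ℝ (polG g)) p :=
      (contDiffAt_polG hg hp).fderiv_right (m := 1) (by norm_num)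
    exact h3.continuousAt
  have key := integral2_divergence_prod_of_hasFDerivAt_off_countable
    (polG g) (fun _ => (0 : ℝ)) (fderiv ℝ (polG g)) (fun p => 0) s₁ 0 s₂ (2 * Real.pi) ∅
    countable_empty
    (fun p hp => ((hd p (hneg p hp)).continuousAt).continuousWithinAt)
    continuousOn_const
    (fun p hp => hd p (hneg' p hp.1)) (fun p hp => hasFDerivAt_const _ _)
    (by
      refine ContinuousOn.integrableOn_compact (isCompact_uIcc.prod isCompact_uIcc) ?_
      intro p hp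
      have h3 := hcont p (hneg p hp)
      refine ContinuousAt.continuousWithinAt ?_
      fun_prop)
  simp only [zero_apply, add_zero, intervalIntegral.integral_zero, sub_self, zero_add] at key
  exact key.symm

theorem polA_nonneg (hΔ : ∀ z ∈ ball (0 : ℂ) 1, ∀ v, 0 ≤ levi g z v) {M : ℝ}
    (hM : ∀ z ∈ ball (0 : ℂ) 1, |g z| ≤ M) {s₀ : ℝ} (hs₀ : s₀ < 0) : 0 ≤ polA g s₀ := by
  by_contra hcon
  rw [not_le] at hcon
  have hN : ∀ s < 0, |polN g s| ≤ M * (2 * Real.pi) := by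
    intro s hs
    have h1 := intervalIntegral.norm_integral_le_of_norm_le_const (a := 0) (b := 2 * Real.pi)
      (f := fun y => polG g (s, y)) (C := M) (fun y _ => hM _ (exp_polar_mem (p := (s, y)) hs))
    rw [sub_zero, abs_of_pos (by positivity)] at h1
    exact h1
  have h1 : ∀ s ≤ s₀, polN g s₀ - polN g s ≤ (s₀ - s) * polA g s₀ := by
    intro s hs
    rw [polN_sub hg hs hs₀]
    have h2 : ∫ x in s..s₀, polA g x ≤ ∫ x in s..s₀, polA g s₀ := by
      refine intervalIntegral.integral_mono_on hs ?_ (by simp) ?_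
      · have : MonotoneOn (polA g) (uIcc s s₀) := by
          intro x hx y hy hxy
          rw [uIcc_of_le hs] at hy
          exact polA_mono hg hΔ hxy (lt_of_le_of_lt hy.2 hs₀)
        exact this.intervalIntegrable
      · intro x hx
        exact polA_mono hg hΔ hx.2 hs₀
    simpa using h2
  have hM0 : 0 ≤ M := (abs_nonneg _).trans (hM 0 (by simp))
  set T : ℝ := (M * (2 * Real.pi) * 2 + 1) / (-polA g s₀) with hT
  have hTpos : 0 ≤ T := div_nonneg (by positivity) (by linarith)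
  have h2 := h1 (s₀ - T) (by linarith)
  have h3 := hN s₀ hs₀
  have h4 := hN (s₀ - T) (by linarith)
  rw [abs_le] at h3 h4
  have h5 : (s₀ - (s₀ - T)) * polA g s₀ = -(M * (2 * Real.pi) * 2 + 1) := by
    rw [hT]
    have : polA g s₀ ≠ 0 := hcon.ne
    field_simp
    ring
  rw [h5] at h2
  linarith [h3.1, h3.2, h4.1, h4.2]

omit hg in
theorem circleAverage_eq_polN (s : ℝ) :
    Real.circleAverage g 0 (Real.exp s) = (2 * Real.pi)⁻¹ * polN g s := by
  unfold Real.circleAverage polN polG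
  rw [smul_eq_mul]
  congr 2
  ext θ
  simp only [circleMap, zero_add]
  congr 1
  rw [Complex.exp_add, Complex.ofReal_exp]

/-- The sub-mean value property of smooth subharmonic functions. -/
theorem le_circleAverage_of_levi (hc : ContinuousOn g (closedBall 0 1))
    (hΔ : ∀ z ∈ ball (0 : ℂ) 1, ∀ v, 0 ≤ levi g z v) : g 0 ≤ Real.circleAverage g 0 1 := by
  obtain ⟨M, hM⟩ := (isCompact_closedBall (0 : ℂ) 1).exists_bound_of_continuousOn hc
  have hM' : ∀ z ∈ ball (0 : ℂ) 1, |g z| ≤ M := fun z hz => hM z (ball_subset_closedBall hz)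
  have hmono : ∀ r₁ r₂ : ℝ, 0 < r₁ → r₁ ≤ r₂ → r₂ < 1 →
      Real.circleAverage g 0 r₁ ≤ Real.circleAverage g 0 r₂ := by
    intro r₁ r₂ h1 h12 h2
    have hr2 : 0 < r₂ := lt_of_lt_of_le h1 h12
    have hl1 := Real.exp_log h1
    have hl2 := Real.exp_log hr2
    have h3 : Real.log r₁ ≤ Real.log r₂ := Real.log_le_log h1 h12
    have h4 : Real.log r₂ < 0 := Real.log_neg hr2 h2
    rw [← hl1, ← hl2, circleAverage_eq_polN, circleAverage_eq_polN]
    refine mul_le_mul_of_nonneg_left ?_ (by positivity)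
    have h5 := polN_sub hg h3 h4
    have h6 : 0 ≤ ∫ x in Real.log r₁..Real.log r₂, polA g x :=
      intervalIntegral.integral_nonneg h3 fun x hx =>
        polA_nonneg hg hΔ hM' (lt_of_le_of_lt hx.2 h4)
    linarith
  have hcA : ContinuousOn (Real.circleAverage g 0) (Icc 0 1) := by
    refine Real.ContinuousOn.circleAverage (s := Icc 0 1) ?_ fun r hr => hr.1
    refine hc.mono ?_
    intro z hz
    rw [mem_closedBall_zero_iff]
    have := hz.2
    simpa using this
  have h0 : Real.circleAverage g 0 0 = g 0 := Real.circleAverage_zero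
  -- at zero
  have h1 : ∀ r : ℝ, 0 < r → r < 1 → g 0 ≤ Real.circleAverage g 0 r := by
    intro r hr hr1
    have h2 : Tendsto (Real.circleAverage g 0) (𝓝[Ioo 0 1] 0) (𝓝 (g 0)) := by
      have h3 := hcA 0 (by simp)
      rw [← h0]
      exact h3.mono_left (nhdsWithin_mono _ Ioo_subset_Icc_self)
    have : (𝓝[Ioo (0 : ℝ) 1] 0).NeBot := by
      rw [← mem_closure_iff_nhdsWithin_neBot, closure_Ioo (by norm_num)]
      simp
    refine le_of_tendsto h2 ?_
    have h4 : ∀ᶠ t in 𝓝[Ioo (0 : ℝ) 1] 0, t < r := by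
      refine Filter.Eventually.filter_mono nhdsWithin_le_nhds ?_
      exact gt_mem_nhds hr
    filter_upwards [h4, self_mem_nhdsWithin] with t ht1 ht2
    exact hmono t r ht2.1 ht1.le hr1
  have h2 : Tendsto (Real.circleAverage g 0) (𝓝[Ioo 0 1] 1) (𝓝 (Real.circleAverage g 0 1)) := by
    have h3 := hcA 1 (by simp)
    exact h3.mono_left (nhdsWithin_mono _ Ioo_subset_Icc_self)
  have : (𝓝[Ioo (0 : ℝ) 1] 1).NeBot := by
    rw [← mem_closure_iff_nhdsWithin_neBot, closure_Ioo (by norm_num)]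
    simp
  refine ge_of_tendsto h2 ?_
  filter_upwards [self_mem_nhdsWithin] with t ht using h1 t ht.1 ht.2

end

end Pool.Agent.helper90.KMMP
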