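import Pool.Agent.helper90.KMMP.WS6
import Pool.Agent.helper90.KMMP.SncTools
import Pool.Agent.helper90.KMMP.DiscGain

/-!
# Bounds for the function `h` near generic points of the components
-/

open scoped Topology ContDiff
open Set Filter Metric MeasureTheory

namespace Pool.Agent.helper90.KMMP

/-- a function which is continuous at a point is locally bounded -/
theorem exists_abs_le_of_continuousAt {X : Type} [TopologicalSpace X] {f : X → ℝ} {x : X}
    (hf : ContinuousAt f x) : ∃ C : ℝ, 0 ≤ C ∧ ∀ᶠ y in 𝓝 x, |f y| ≤ C := by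
  refine ⟨|f x| + 1, by positivity, ?_⟩
  have h1 : ∀ᶠ y in 𝓝 x, |f y| < |f x| + 1 :=
    hf.abs.eventually (gt_mem_nhds (by linarith))
  exact h1.mono fun y hy => hy.le

/-- holomorphic function that does not vanish at `x`: the logarithm is locally bounded -/
theorem exists_abs_log_le {n : ℕ} {X : Type} [TopologicalSpace X] [HolSpace X]
    (hX : IsComplexManifold X n) {f : X → ℂ} {x : X} (hf : Hol f x) (h0 : f x ≠ 0) :
    ∃ C : ℝ, 0 ≤ C ∧ ∀ᶠ y in 𝓝 x, |Real.log ‖f y‖| ≤ C :=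
  exists_abs_le_of_continuousAt
    ((Hol.continuousAt hX.isComplexSpace hf).norm.log (norm_ne_zero_iff.2 h0))

namespace WeakLogTerminalModel

variable {n : ℕ} {A : GkltPair n} (M : WeakLogTerminalModel A)

theorem mem_Dl {w : M.W} : w ∈ M.Dl ↔ ∃ i, w ∈ M.P.D i := mem_iUnion

theorem not_mem_Dl {w : M.W} : w ∉ M.Dl ↔ ∀ i, w ∉ M.P.D i := by
  rw [mem_Dl]; push Not; rfl

theorem not_mem_exP {w : M.W} (h : ∀ i, Contracted M.p (M.P.D i) → w ∉ M.P.D i) : w ∉ M.exP := by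
  intro h2
  simp only [exP, mem_iUnion] at h2
  obtain ⟨i, hi, hi'⟩ := h2
  exact h i hi hi'

/-- the equations of the components near `w`, off `Dl` -/
theorem eventually_eq_ne (w : M.W) : ∀ᶠ w' in 𝓝 w, w' ∉ M.Dl → ∀ i, M.P.eq i w w' ≠ 0 := by
  have h2 : ∀ᶠ w' in 𝓝 w, ∀ i, (w' ∈ M.P.D i ↔ M.P.eq i w w' = 0) := by
    rw [eventually_all]
    exact fun i => M.P.mem_iff i w
  filter_upwards [h2] with w' h h3 i h4
  exact h3 (mem_iUnion.2 ⟨i, (h i).2 h4⟩)

/-- Lower bound at a generic point of `D_j` -/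
theorem lower_bound {κX k : LocPot A.X} {H : M.ι → ℝ} (hH0 : ∀ i, 0 ≤ H i)
    (hH : ∀ i, ¬ Contracted M.p (M.P.D i) → H i = 0) {ε : ℝ} (hε : 0 < ε) {h : M.W → ℝ}
    {Ψ : LocPot M.W} (hΨ : M.EpsData κX k H ε h Ψ) {hX : A.X → ℝ}
    (hhX : ∀ w, w ∉ M.Dl → hX (M.p w) = h w) (j : A.J) :
    ∃ x ∈ A.supp.D j, ∃ C : ℝ, ∀ᶠ y in 𝓝 x, y ∈ M.good →
      C ≤ hX y + M.G (M.strict j) * Real.log ‖A.supp.eq j x y‖ := by
  classical
  set i₀ := M.strict j with hi₀
  obtain ⟨w₀, hw₀, hw₀'⟩ := M.P.exists_generic i₀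
  obtain ⟨g, hg1, hg2, hg3, hg4⟩ := M.exists_inverse
  have hcs := M.manifoldW.isComplexSpace
  have hw₀ex : w₀ ∉ M.exP := by
    apply M.not_mem_exP
    intro i hi hmem
    by_cases h1 : i = i₀
    · rw [h1] at hi; exact M.not_contracted_strict j hi
    · exact hw₀' i h1 hmem
  obtain ⟨hx1, hgx⟩ := hg2 w₀ hw₀ex
  set x := M.p w₀ with hx
  have hgc : Tendsto g (𝓝 x) (𝓝 w₀) := by
    have := (hg1 x hx1).2.1.1
    unfold ContinuousAt at this
    rwa [hgx] at this
  have hpw := M.p_modification.2.1 w₀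
  -- the equation of `D_j`
  obtain ⟨u, hu, hu0, hue⟩ := M.pullback_eq j w₀
  have hmult : M.mult i₀ j = 1 := M.mult_strict j
  have hxD : x ∈ A.supp.D j := by
    apply ((A.supp.mem_iff j x).self_of_nhds).2
    have h1 := hue.self_of_nhds
    rw [h1]
    have h2 : M.P.eq i₀ w₀ w₀ = 0 := ((M.P.mem_iff i₀ w₀).self_of_nhds).1 hw₀
    have h3 : ∏ i, M.P.eq i w₀ w₀ ^ M.mult i j = 0 := by
      apply Finset.prod_eq_zero (Finset.mem_univ i₀)
      rw [hmult, pow_one, h2]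
    rw [h3, mul_zero]
  have hHi₀ : H i₀ = 0 := hH i₀ (M.not_contracted_strict j)
  have hother : ∀ i, i ≠ i₀ → M.P.eq i w₀ w₀ ≠ 0 := fun i hi h1 =>
    hw₀' i hi (((M.P.mem_iff i w₀).self_of_nhds).2 h1)
  -- bounds
  obtain ⟨F, hF, hFe⟩ := hΨ.ident w₀
  have b1 := exists_abs_le_of_continuousAt (Ψ.cont w₀).self_of_nhds
  have b2 := exists_abs_le_of_continuousAt
    (ContinuousAt.comp (f := M.p) (κX.cont x).self_of_nhds hpw.1)
  have b3 := exists_abs_le_of_continuousAt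
    (ContinuousAt.comp (f := M.p) (A.β.cont x).self_of_nhds hpw.1)
  have b4 := exists_abs_le_of_continuousAt
    (ContinuousAt.comp (f := M.p) (k.cont x).self_of_nhds hpw.1)
  have b5 := exists_abs_le_of_continuousAt
    (Complex.continuous_re.continuousAt.comp (Hol.continuousAt hcs hF))
  have b6 : ∀ i, ∃ C : ℝ, 0 ≤ C ∧ (i ≠ i₀ → ∀ᶠ y in 𝓝 w₀, |Real.log ‖M.P.eq i w₀ y‖| ≤ C) := by
    intro i
    by_cases hi : i = i₀
    · exact ⟨0, le_rfl, fun h => absurd hi h⟩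
    · obtain ⟨C, h1, h2⟩ := exists_abs_log_le M.manifoldW (M.P.hol i w₀) (hother i hi)
      exact ⟨C, h1, fun _ => h2⟩
  have b7 := exists_abs_log_le M.manifoldW hu hu0
  obtain ⟨C1, hC1, b1⟩ := b1
  obtain ⟨C2, hC2, b2⟩ := b2
  obtain ⟨C3, hC3, b3⟩ := b3
  obtain ⟨C4, hC4, b4⟩ := b4
  obtain ⟨C5, hC5, b5⟩ := b5
  choose C6 hC6 b6 using b6
  obtain ⟨C7, hC7, b7⟩ := b7
  have b6' : ∀ᶠ y in 𝓝 w₀, ∀ i, i ≠ i₀ → |Real.log ‖M.P.eq i w₀ y‖| ≤ C6 i := by
    rw [eventually_all]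
    intro i
    by_cases hi : i = i₀
    · exact Eventually.of_forall fun y h => absurd hi h
    · exact (b6 i hi).mono fun y h _ => h
  refine ⟨x, hxD, - (C1 + C2 + C3 + ε * C4 + C5 +
    ∑ i ∈ Finset.univ.erase i₀, |M.G i - ε * H i| * C6 i +
    |M.G i₀| * (C7 + ∑ i ∈ Finset.univ.erase i₀, M.mult i j * C6 i)), ?_⟩
  have hmain : ∀ᶠ w in 𝓝 w₀, w ∉ M.Dl → - (C1 + C2 + C3 + ε * C4 + C5 +
    ∑ i ∈ Finset.univ.erase i₀, |M.G i - ε * H i| * C6 i +
    |M.G i₀| * (C7 + ∑ i ∈ Finset.univ.erase i₀, M.mult i j * C6 i)) ≤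
      h w + M.G i₀ * Real.log ‖A.supp.eq j x (M.p w)‖ := by
    filter_upwards [hFe, hue, b1, b2, b3, b4, b5, b6', b7, M.eventually_eq_ne w₀,
      (Hol.continuousAt hcs hu).eventually_ne hu0]
      with w h1 h2 h3 h4 h5 h6 h7 h8 h9 h10 h11 hw
    have e1 := h1 hw
    have e10 := h10 hw
    simp only [Function.comp_apply] at h4 h5 h6 h7
    -- split the sums
    rw [← Finset.add_sum_erase _ _ (Finset.mem_univ i₀), hHi₀, mul_zero, sub_zero] at e1
    have e2 : Real.log ‖A.supp.eq j x (M.p w)‖ = Real.log ‖u w‖ + (Real.log ‖M.P.eq i₀ w₀ w‖ +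
        ∑ i ∈ Finset.univ.erase i₀, M.mult i j * Real.log ‖M.P.eq i w₀ w‖) := by
      rw [h2, norm_mul, norm_prod, Real.log_mul (norm_ne_zero_iff.2 h11), Real.log_prod]
      · rw [← Finset.add_sum_erase _ _ (Finset.mem_univ i₀)]
        congr 2
        · rw [hmult, pow_one]
        · apply Finset.sum_congr rfl
          intro i _
          rw [norm_pow, Real.log_pow]
      · intro i _
        rw [norm_ne_zero_iff]
        exact pow_ne_zero _ (e10 i)
      · apply Finset.prod_ne_zero_iff.2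
        intro i _
        rw [norm_ne_zero_iff]
        exact pow_ne_zero _ (e10 i)
    have e3 : |∑ i ∈ Finset.univ.erase i₀, (M.G i - ε * H i) * Real.log ‖M.P.eq i w₀ w‖| ≤
        ∑ i ∈ Finset.univ.erase i₀, |M.G i - ε * H i| * C6 i := by
      apply (Finset.abs_sum_le_sum_abs _ _).trans
      apply Finset.sum_le_sum
      intro i hi
      rw [abs_mul]
      exact mul_le_mul_of_nonneg_left (h8 i (Finset.ne_of_mem_erase hi)) (abs_nonneg _)
    have e4 : |∑ i ∈ Finset.univ.erase i₀, (M.mult i j : ℝ) * Real.log ‖M.P.eq i w₀ w‖| ≤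
        ∑ i ∈ Finset.univ.erase i₀, M.mult i j * C6 i := by
      apply (Finset.abs_sum_le_sum_abs _ _).trans
      apply Finset.sum_le_sum
      intro i hi
      rw [abs_mul, abs_of_nonneg (Nat.cast_nonneg (α := ℝ) _)]
      exact mul_le_mul_of_nonneg_left (h8 i (Finset.ne_of_mem_erase hi)) (Nat.cast_nonneg _)
    set S1 := ∑ i ∈ Finset.univ.erase i₀, (M.G i - ε * H i) * Real.log ‖M.P.eq i w₀ w‖
    set S2 := ∑ i ∈ Finset.univ.erase i₀, (M.mult i j : ℝ) * Real.log ‖M.P.eq i w₀ w‖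
    set T1 := ∑ i ∈ Finset.univ.erase i₀, |M.G i - ε * H i| * C6 i
    set T2 := ∑ i ∈ Finset.univ.erase i₀, (M.mult i j : ℝ) * C6 i
    have e5 : |M.G i₀ * (Real.log ‖u w‖ + S2)| ≤ |M.G i₀| * (C7 + T2) := by
      rw [abs_mul]
      apply mul_le_mul_of_nonneg_left _ (abs_nonneg _)
      exact (abs_add_le _ _).trans (add_le_add h9 e4)
    have e6 : |ε * k.pot x (M.p w)| ≤ ε * C4 := by
      rw [abs_mul, abs_of_pos hε]
      exact mul_le_mul_of_nonneg_left h6 hε.le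
    have e7 : h w + M.G i₀ * Real.log ‖A.supp.eq j x (M.p w)‖ = Ψ.pot w₀ w - κX.pot x (M.p w) -
      A.β.pot x (M.p w) - ε * k.pot x (M.p w) - S1 - (F w).re +
        M.G i₀ * (Real.log ‖u w‖ + S2) := by
      rw [e2, e1]; ring
    rw [e7]
    have := abs_le.1 h3
    have := abs_le.1 h4
    have := abs_le.1 h5
    have := abs_le.1 e6
    have := abs_le.1 h7
    have := abs_le.1 e3
    have := abs_le.1 e5
    linarith [(abs_le.1 h3).1, (abs_le.1 h4).2, (abs_le.1 h5).2, (abs_le.1 e6).2, (abs_le.1 h7).2,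
      (abs_le.1 e3).2, (abs_le.1 e5).1]
  filter_upwards [hgc.eventually hmain] with y hy hyg
  obtain ⟨h1, h2⟩ := hg3 y hyg
  have h3 := hy h1
  have h4 : M.p (g y) = y := (hg1 y h2).1
  rw [h4] at h3
  have h5 : hX y = h (g y) := by rw [← hhX (g y) h1, h4]
  rw [h5]
  exact h3

/-- psh regularization of the expression with a fixed base point -/
theorem psh_regu_fixed {κX k : LocPot A.X} {H : M.ι → ℝ} {ε : ℝ} {h : M.W → ℝ}
    {Ψ : LocPot M.W} (hΨ : M.EpsData κX k H ε h Ψ) {x : A.X} {w₀ w₁ : M.W}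
    (hκ : PHAt (fun z => κX.pot x z - κX.pot (M.p w₁) z) (M.p w₁))
    (hβ : PHAt (fun z => A.β.pot x z - A.β.pot (M.p w₁) z) (M.p w₁))
    (hk : PHAt (fun z => k.pot x z - k.pot (M.p w₁) z) (M.p w₁))
    (hc : ∀ i, ∃ u : M.W → ℂ, Hol u w₁ ∧ u w₁ ≠ 0 ∧
      ∀ᶠ z in 𝓝 w₁, M.P.eq i w₀ z = u z * M.P.eq i w₁ z) :
    PshAt (reguSup M.Dlᶜ (fun w => κX.pot x (M.p w) + A.β.pot x (M.p w) +
      ε * k.pot x (M.p w) + h w + ∑ i, (M.G i - ε * H i) * Real.log ‖M.P.eq i w₀ w‖)) w₁ ∧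
    (w₁ ∉ M.Dl → reguSup M.Dlᶜ (fun w => κX.pot x (M.p w) + A.β.pot x (M.p w) +
      ε * k.pot x (M.p w) + h w + ∑ i, (M.G i - ε * H i) * Real.log ‖M.P.eq i w₀ w‖) w₁ =
      ((κX.pot x (M.p w₁) + A.β.pot x (M.p w₁) + ε * k.pot x (M.p w₁) + h w₁ +
        ∑ i, (M.G i - ε * H i) * Real.log ‖M.P.eq i w₀ w₁‖ : ℝ) : EReal)) := by
  choose u hu hu0 hue using hc
  obtain ⟨F, hF, hFe⟩ := hΨ.ident w₁
  have hcs := M.manifoldW.isComplexSpace
  have hpw := M.p_modification.2.1 w₁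
  set v : M.W → ℝ := fun w => κX.pot x (M.p w) + A.β.pot x (M.p w) +
      ε * k.pot x (M.p w) + h w + ∑ i, (M.G i - ε * H i) * Real.log ‖M.P.eq i w₀ w‖ with hv
  -- the pluriharmonic difference
  set R : M.W → ℝ := fun w => (κX.pot x (M.p w) - κX.pot (M.p w₁) (M.p w)) +
    (A.β.pot x (M.p w) - A.β.pot (M.p w₁) (M.p w)) +
    ε * (k.pot x (M.p w) - k.pot (M.p w₁) (M.p w)) +
    ∑ i, (M.G i - ε * H i) * Real.log ‖u i w‖ - (F w).re with hR
  have hRPH : PHAt R w₁ := by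
    refine PHAt.sub (PHAt.add (PHAt.add (PHAt.add ?_ ?_) ?_) ?_) ?_
    · exact PHAt.comp (f := M.p) (u := fun z => κX.pot x z - κX.pot (M.p w₁) z) hκ hpw
    · exact PHAt.comp (f := M.p) (u := fun z => A.β.pot x z - A.β.pot (M.p w₁) z) hβ hpw
    · exact PHAt.const_mul _
        (PHAt.comp (f := M.p) (u := fun z => k.pot x z - k.pot (M.p w₁) z) hk hpw)
    · apply PHAt.sum
      intro i _
      exact PHAt.const_mul _ (phAt_log M.manifoldW (hu i) (hu0 i))
    · exact ⟨F, hF, Eventually.of_forall fun _ => rfl⟩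
  have hRc : ∀ᶠ w in 𝓝 w₁, ContinuousAt R w := hRPH.eventually_continuousAt hcs
  have hveq : ∀ᶠ w in 𝓝 w₁, w ∈ M.Dlᶜ → v w = Ψ.pot w₁ w + R w := by
    have hue' : ∀ᶠ w in 𝓝 w₁, ∀ i, M.P.eq i w₀ w = u i w * M.P.eq i w₁ w := by
      rw [eventually_all]; exact hue
    have hu0' : ∀ᶠ w in 𝓝 w₁, ∀ i, u i w ≠ 0 := by
      rw [eventually_all]
      exact fun i => (Hol.continuousAt hcs (hu i)).eventually_ne (hu0 i)
    filter_upwards [hFe, hue', hu0', M.eventually_eq_ne w₁] with w h1 h2 h3 h4 hw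
    have h5 := h4 hw
    have h6 : ∑ i, (M.G i - ε * H i) * Real.log ‖M.P.eq i w₀ w‖ =
        ∑ i, (M.G i - ε * H i) * Real.log ‖u i w‖ +
        ∑ i, (M.G i - ε * H i) * Real.log ‖M.P.eq i w₁ w‖ := by
      rw [← Finset.sum_add_distrib]
      apply Finset.sum_congr rfl
      intro i _
      rw [h2 i, norm_mul, Real.log_mul (norm_ne_zero_iff.2 (h3 i)) (norm_ne_zero_iff.2 (h5 i))]
      ring
    simp only [hv, hR]
    rw [h6, h1 hw]
    ring
  have hcont : ∀ᶠ w in 𝓝 w₁, ContinuousAt (fun w => Ψ.pot w₁ w + R w) w := by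
    filter_upwards [Ψ.cont w₁, hRc] with w h1 h2
    exact h1.add h2
  have hdense := M.dense_compl_Dl
  have hreg : reguSup M.Dlᶜ v =ᶠ[𝓝 w₁] fun w => ((Ψ.pot w₁ w + R w : ℝ) : EReal) := by
    filter_upwards [reguSup_congr' hveq, hcont] with w h1 h2
    rw [h1]
    apply reguSup_eq_of_tendsto (hdense w)
    exact ((continuous_coe_real_ereal.tendsto _).comp h2.tendsto).mono_left nhdsWithin_le_nhds
  constructor
  · have h1 := (hΨ.psh w₁).add_coe (hRPH.pshAt M.manifoldW) hRc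
    apply h1.congr
    filter_upwards [hreg] with w hw
    rw [hw, EReal.coe_add]
  · intro hw₁
    have h2 := hveq.self_of_nhds hw₁
    rw [hreg.self_of_nhds]
    change ((Ψ.pot w₁ w₁ + R w₁ : ℝ) : EReal) = ((v w₁ : ℝ) : EReal)
    rw [h2]

/-- If some `G_i < 0` then there is a fixed nonempty open set on which
`h_ε ≤ sup h_ε - 1` for all `0 < ε ≤ 1`. -/
theorem gap_open {κX k : LocPot A.X} {H : M.ι → ℝ} (hH0 : ∀ i, 0 ≤ H i)
    (hH : ∀ i, ¬ Contracted M.p (M.P.D i) → H i = 0)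
    (hG : ∀ j, M.G (M.strict j) ≤ 0) {i₀ : M.ι} (hi₀ : M.G i₀ < 0) :
    ∃ Ω : Set A.X, IsOpen Ω ∧ Ω.Nonempty ∧ ∀ ε : ℝ, 0 < ε → ε ≤ 1 → ∀ (h : M.W → ℝ)
      (Ψ : LocPot M.W), M.EpsData κX k H ε h Ψ → ∀ hX : A.X → ℝ,
      (∀ w, w ∉ M.Dl → hX (M.p w) = h w) → ∀ B : ℝ, (∀ y ∈ M.good, hX y ≤ B) →
      ∀ y ∈ Ω ∩ M.good, hX y ≤ B - 1 := by
  classical
  obtain ⟨w₀, hw₀, hw₀'⟩ := M.P.exists_generic i₀
  obtain ⟨g, hg1, hg2, hg3, hg4⟩ := M.exists_inverse
  have hcs := M.manifoldW.isComplexSpace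
  set x := M.p w₀ with hx
  have hpw := M.p_modification.2.1 w₀
  obtain ⟨e, κ, he, hes, -, hev, heq⟩ := M.P.near' w₀
  set κ₀ := κ i₀ with hκ₀
  have heqi := heq i₀ hw₀
  have he0 : e w₀ κ₀ = 0 := by
    have := (hev.self_of_nhds.2 i₀).1 (by rw [e.left_inv hes]; exact hw₀)
    exact this.2
  have hother : ∀ i, i ≠ i₀ → M.P.eq i w₀ w₀ ≠ 0 := fun i hi h1 =>
    hw₀' i hi (((M.P.mem_iff i w₀).self_of_nhds).2 h1)
  -- bounds
  obtain ⟨C2, hC2, b2⟩ := exists_abs_le_of_continuousAt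
    (ContinuousAt.comp (f := M.p) (κX.cont x).self_of_nhds hpw.1)
  obtain ⟨C3, hC3, b3⟩ := exists_abs_le_of_continuousAt
    (ContinuousAt.comp (f := M.p) (A.β.cont x).self_of_nhds hpw.1)
  obtain ⟨C4, hC4, b4⟩ := exists_abs_le_of_continuousAt
    (ContinuousAt.comp (f := M.p) (k.cont x).self_of_nhds hpw.1)
  have b6 : ∀ i, ∃ C : ℝ, 0 ≤ C ∧ (i ≠ i₀ → ∀ᶠ y in 𝓝 w₀, |Real.log ‖M.P.eq i w₀ y‖| ≤ C) := by
    intro i
    by_cases hi : i = i₀
    · exact ⟨0, le_rfl, fun h => absurd hi h⟩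
    · obtain ⟨C, h1, h2⟩ := exists_abs_log_le M.manifoldW (M.P.hol i w₀) (hother i hi)
      exact ⟨C, h1, fun _ => h2⟩
  choose C6 hC6 b6 using b6
  have b6' : ∀ᶠ y in 𝓝 w₀, ∀ i, i ≠ i₀ → |Real.log ‖M.P.eq i w₀ y‖| ≤ C6 i := by
    rw [eventually_all]
    intro i
    by_cases hi : i = i₀
    · exact Eventually.of_forall fun y h => absurd hi h
    · exact (b6 i hi).mono fun y h _ => h
  set C : ℝ := C2 + C3 + C4 + ∑ i ∈ Finset.univ.erase i₀, (|M.G i| + H i) * C6 i with hC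
  have hC0 : 0 ≤ C := by
    have : 0 ≤ ∑ i ∈ Finset.univ.erase i₀, (|M.G i| + H i) * C6 i :=
      Finset.sum_nonneg fun i _ => mul_nonneg (add_nonneg (abs_nonneg _) (hH0 i)) (hC6 i)
    rw [hC]; linarith
  -- compatibility
  have c1 := hpw.1.eventually (κX.compat x)
  have c2 := hpw.1.eventually (A.β.compat x)
  have c3 := hpw.1.eventually (k.compat x)
  have c4 : ∀ᶠ w₁ in 𝓝 w₀, ∀ i, ∃ u : M.W → ℂ, Hol u w₁ ∧ u w₁ ≠ 0 ∧
      ∀ᶠ z in 𝓝 w₁, M.P.eq i w₀ z = u z * M.P.eq i w₁ z := by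
    rw [eventually_all]
    exact fun i => M.P.compat i w₀
  have hsymm : Tendsto e.symm (𝓝 (e w₀)) (𝓝 w₀) := by
    have := e.continuousAt_symm (e.map_source hes)
    unfold ContinuousAt at this
    rwa [e.left_inv hes] at this
  obtain ⟨R, hR, hball⟩ := Metric.eventually_nhds_iff_ball.1 ((hev.and heqi).and
    (hsymm.eventually (((b2.and b3).and (b4.and b6')).and ((c1.and c2).and (c3.and c4)))))
  set r := R / 2 with hr
  have hr0 : 0 < r := by positivity
  -- the size of the small discs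
  set g₀ := - M.G i₀ with hg₀
  have hg₀0 : 0 < g₀ := by rw [hg₀]; linarith
  set δ := Real.exp (-(2 * C + 1) / g₀) with hδ
  have hδ0 : 0 < δ := Real.exp_pos _
  have hδ1 : δ < 1 := by
    rw [hδ, Real.exp_lt_one_iff]
    apply div_neg_of_neg_of_pos _ hg₀0
    linarith
  have hlogδ : g₀ * Real.log δ = -(2 * C + 1) := by
    rw [hδ, Real.log_exp]; field_simp
  set V : Set (Fin n → ℂ) := {v | v ∈ ball (e w₀) r ∧ v κ₀ ≠ 0 ∧ ‖v κ₀‖ < r * δ} with hV
  have hVo : IsOpen V := by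
    apply isOpen_ball.inter
    apply IsOpen.inter
    · exact isOpen_ne_fun (continuous_apply κ₀) continuous_const
    · exact isOpen_lt (continuous_apply κ₀).norm continuous_const
  set O : Set M.W := e.source ∩ e ⁻¹' V with hO
  have hOo : IsOpen O := e.isOpen_inter_preimage hVo
  have hsub : ball (e w₀) r ⊆ ball (e w₀) R := ball_subset_ball (by rw [hr]; linarith)
  have hnD : ∀ v ∈ ball (e w₀) R, v κ₀ ≠ 0 → e.symm v ∉ M.Dl := by
    intro v hv h0
    rw [M.not_mem_Dl]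
    intro i hi
    obtain ⟨h1, h2⟩ := ((hball v hv).1.1.2 i).1 hi
    by_cases h3 : i = i₀
    · subst h3; exact h0 h2
    · exact hw₀' i h3 h1
  refine ⟨M.good ∩ g ⁻¹' O, ?_, ?_, ?_⟩
  · rw [isOpen_iff_eventually]
    rintro y ⟨hy1, hy2⟩
    filter_upwards [M.isOpen_good.mem_nhds hy1,
      (hg1 y (hg3 y hy1).2).2.1.1.eventually (hOo.mem_nhds hy2)] with z h1 h2
    exact ⟨h1, h2⟩
  · -- a point
    set v : Fin n → ℂ := Function.update (e w₀) κ₀ ((r * δ / 2 : ℝ) : ℂ) with hv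
    have hrδ : 0 < r * δ := by positivity
    have hvκ : v κ₀ = ((r * δ / 2 : ℝ) : ℂ) := by simp [hv]
    have hvn : ‖v κ₀‖ = r * δ / 2 := by
      rw [hvκ, Complex.norm_real, Real.norm_eq_abs, abs_of_pos (by positivity)]
    have hvV : v ∈ V := by
      refine ⟨?_, ?_, ?_⟩
      · rw [mem_ball, dist_pi_lt_iff hr0]
        intro i
        by_cases hi : i = κ₀
        · rw [hi, he0, dist_zero_right, hvn]
          nlinarith
        · simp only [hv, Function.update_of_ne hi, dist_self]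
          exact hr0
      · rw [← norm_pos_iff, hvn]; positivity
      · rw [hvn]; linarith
    have hvR := hsub hvV.1
    have ht := (hball v hvR).1.1.1
    have hnDv := hnD v hvR hvV.2.1
    have hex : e.symm v ∉ M.exP := M.not_mem_exP fun i _ hi =>
      (M.not_mem_Dl.1 hnDv) i hi
    refine ⟨M.p (e.symm v), hg4 _ hnDv, ?_⟩
    change g (M.p (e.symm v)) ∈ O
    rw [(hg2 _ hex).2]
    refine ⟨e.map_target ht, ?_⟩
    change e (e.symm v) ∈ V
    rw [e.right_inv ht]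
    exact hvV
  · intro ε hε hε1 h Ψ hΨ hX hhX B hB y hy
    obtain ⟨⟨hy1, hy2⟩, -⟩ := hy
    obtain ⟨h1, h2⟩ := hg3 y hy1
    obtain ⟨hyp, -, -⟩ := hg1 y h2
    have hhB : ∀ w, w ∉ M.Dl → h w ≤ B := fun w hw => by
      rw [← hhX w hw]; exact hB _ (hg4 w hw)
    have hXy : hX y = h (g y) := by rw [← hhX (g y) h1, hyp]
    rw [hXy]
    set w := g y with hw
    set v := e w with hv
    have hvV : v ∈ V := hy2.2
    have hwe : e.symm v = w := e.left_inv hy2.1
    set γ := ε * H i₀ - M.G i₀ with hγ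
    have hγg : g₀ ≤ γ := by
      rw [hγ, hg₀]
      have := mul_nonneg hε.le (hH0 i₀)
      linarith
    -- the remaining bounded terms
    set AA : M.W → ℝ := fun w => κX.pot x (M.p w) + A.β.pot x (M.p w) +
      ε * k.pot x (M.p w) + ∑ i ∈ Finset.univ.erase i₀, (M.G i - ε * H i) *
        Real.log ‖M.P.eq i w₀ w‖ with hAA
    have hAAb : ∀ v ∈ ball (e w₀) R, |AA (e.symm v)| ≤ C := by
      intro v hv
      obtain ⟨⟨⟨a1, a2⟩, a3, a4⟩, -⟩ := (hball v hv).2
      simp only [Function.comp_apply] at a1 a2 a3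
      have e3 : |∑ i ∈ Finset.univ.erase i₀, (M.G i - ε * H i) *
          Real.log ‖M.P.eq i w₀ (e.symm v)‖| ≤
          ∑ i ∈ Finset.univ.erase i₀, (|M.G i| + H i) * C6 i := by
        apply (Finset.abs_sum_le_sum_abs _ _).trans
        apply Finset.sum_le_sum
        intro i hi
        rw [abs_mul]
        apply mul_le_mul _ (a4 i (Finset.ne_of_mem_erase hi)) (abs_nonneg _)
          (add_nonneg (abs_nonneg _) (hH0 i))
        have h3 : |ε * H i| ≤ H i := by
          rw [abs_of_nonneg (mul_nonneg hε.le (hH0 i))]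
          nlinarith [hH0 i]
        exact (abs_sub _ _).trans (by linarith)
      have e6 : |ε * k.pot x (M.p (e.symm v))| ≤ C4 := by
        rw [abs_mul, abs_of_pos hε]
        nlinarith [abs_nonneg (k.pot x (M.p (e.symm v)))]
      simp only [hAA]
      rw [hC]
      rw [abs_le] at a1 a2 e3 e6 ⊢
      constructor <;> linarith [a1.1, a1.2, a2.1, a2.2, e3.1, e3.2, e6.1, e6.2]
    set Φ := reguSup M.Dlᶜ (fun w => κX.pot x (M.p w) + A.β.pot x (M.p w) +
      ε * k.pot x (M.p w) + h w + ∑ i, (M.G i - ε * H i) * Real.log ‖M.P.eq i w₀ w‖) with hΦ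
    have hΦpsh : ∀ v ∈ ball (e w₀) R, PshAt Φ (e.symm v) := by
      intro v hv
      obtain ⟨-, ⟨a1, a2⟩, a3, a4⟩ := (hball v hv).2
      exact (M.psh_regu_fixed hΨ a1 a2 a3 a4).1
    have hΦeq : ∀ v ∈ ball (e w₀) R, v κ₀ ≠ 0 → Φ (e.symm v) =
        ((AA (e.symm v) + h (e.symm v) - γ * Real.log ‖v κ₀‖ : ℝ) : EReal) := by
      intro v hv h0
      obtain ⟨-, ⟨a1, a2⟩, a3, a4⟩ := (hball v hv).2
      have h3 := (M.psh_regu_fixed hΨ a1 a2 a3 a4).2 (hnD v hv h0)
      rw [hΦ, h3]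
      congr 1
      rw [← Finset.add_sum_erase _ _ (Finset.mem_univ i₀), (hball v hv).1.2]
      simp only [hAA, hγ]
      ring
    -- the transversal disc
    set c : ℂ → M.W := fun t => e.symm (Function.update v κ₀ (r * t)) with hc
    have hvr : ∀ i, dist (v i) (e w₀ i) < r := by
      have := hvV.1
      rwa [mem_ball, dist_pi_lt_iff hr0] at this
    have hcR : ∀ t ∈ closedBall (0 : ℂ) 1, Function.update v κ₀ (r * t) ∈ ball (e w₀) R := by
      intro t ht
      rw [mem_ball, dist_pi_lt_iff hR]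
      intro i
      by_cases hi : i = κ₀
      · rw [hi, he0, dist_zero_right, Function.update_self, norm_mul, Complex.norm_real,
          Real.norm_eq_abs, abs_of_pos hr0]
        have : ‖t‖ ≤ 1 := by simpa using ht
        rw [hr] at *
        nlinarith
      · rw [Function.update_of_ne hi]
        exact (hvr i).trans (by rw [hr]; linarith)
    have hana : ∀ t : ℂ, AnalyticAt ℂ (fun t : ℂ => Function.update v κ₀ (r * t)) t := by
      intro t
      rw [analyticAt_pi_iff]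
      intro i
      by_cases hi : i = κ₀
      · subst hi
        simp only [Function.update_self]
        exact analyticAt_const.mul analyticAt_id
      · simp only [Function.update_of_ne hi]
        exact analyticAt_const
    have hdisc : ∀ t ∈ closedBall (0 : ℂ) 1, HolMapAt c t ∧ PshAt Φ (c t) := by
      intro t ht
      refine ⟨?_, hΦpsh _ (hcR t ht)⟩
      exact (he.holMapAt_symm (hball _ (hcR t ht)).1.1.1).comp
        (f := fun t : ℂ => Function.update v κ₀ (r * t)) (holMapAt_of_analyticAt_C (hana t))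
    have hbd : ∀ t ∈ sphere (0 : ℂ) 1, Φ (c t) ≤ ((C + B - γ * Real.log r : ℝ) : EReal) := by
      intro t ht
      have htn : ‖t‖ = 1 := by simpa using ht
      have ht' := sphere_subset_closedBall ht
      have h0 : Function.update v κ₀ (r * t) κ₀ ≠ 0 := by
        rw [Function.update_self]
        apply mul_ne_zero (by exact_mod_cast hr0.ne')
        intro h; rw [h, norm_zero] at htn; norm_num at htn
      have hnorm : ‖Function.update v κ₀ (r * t) κ₀‖ = r := by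
        rw [Function.update_self, norm_mul, htn, Complex.norm_real,
          Real.norm_eq_abs, abs_of_pos hr0, mul_one]
      simp only [hc]
      rw [hΦeq _ (hcR t ht') h0, hnorm]
      have h3 := hAAb _ (hcR t ht')
      have h4 := hhB _ (hnD _ (hcR t ht') h0)
      have h5 := (abs_le.1 h3).2
      exact_mod_cast (by linarith :
        AA (e.symm (Function.update v κ₀ (r * t))) + h (e.symm (Function.update v κ₀ (r * t))) -
          γ * Real.log r ≤ C + B - γ * Real.log r)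
    have hmax := maxPrinciple_disc hdisc _ hbd
    -- the point `v`
    have hrC : (r : ℂ) ≠ 0 := by exact_mod_cast hr0.ne'
    have ht0 : v κ₀ / r ∈ closedBall (0 : ℂ) 1 := by
      rw [mem_closedBall, dist_zero_right, norm_div, Complex.norm_real, Real.norm_eq_abs,
        abs_of_pos hr0, div_le_one hr0]
      exact (hvV.2.2.trans (by nlinarith)).le
    have hupd : Function.update v κ₀ (r * (v κ₀ / r)) = v := by
      rw [mul_div_cancel₀ _ hrC, Function.update_eq_self]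
    have h3 := hmax _ ht0
    simp only [hc] at h3
    rw [hupd, hΦeq v (hsub hvV.1) hvV.2.1] at h3
    have h4 : AA (e.symm v) + h (e.symm v) - γ * Real.log ‖v κ₀‖ ≤ C + B - γ * Real.log r := by
      exact_mod_cast h3
    rw [hwe] at h4
    have h5 := (abs_le.1 (hAAb v (hsub hvV.1))).1
    rw [hwe] at h5
    have hvpos : 0 < ‖v κ₀‖ := norm_pos_iff.2 hvV.2.1
    have h6 : Real.log ‖v κ₀‖ - Real.log r ≤ Real.log δ := by
      have : Real.log ‖v κ₀‖ ≤ Real.log (r * δ) := Real.log_le_log hvpos hvV.2.2.le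
      rw [Real.log_mul hr0.ne' hδ0.ne'] at this
      linarith
    have h7 : Real.log δ < 0 := Real.log_neg hδ0 hδ1
    nlinarith [mul_le_mul_of_nonneg_left h6 (hg₀0.le.trans hγg),
      mul_le_mul_of_nonpos_right hγg h7.le]

end WeakLogTerminalModel

end Pool.Agent.helper90.KMMP
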