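import Pool.Agent.helper90.KMMP.WS6
import Pool.Agent.helper90.KMMP.WSideB

/-!
# Consequences of the existence of a weak log terminal model, on `W` and on `X`
-/
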