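import Pool.Agent.helper90.KMMP.CoreB4
import Pool.Agent.helper90.KMMP.WSide
import Pool.Agent.helper90.KMMP.ClaimD

/-!
# The pair `(X, T/2 + θ)` and the nonexistence of its log terminal model
-/

open scoped Topology ContDiff
open Set Filter Metric

namespace Pool.Agent.helper90.KMMP

/-- the sum of two classes -/
def LocPot.add {X : Type} [TopologicalSpace X] [HolSpace X] (u v : LocPot X) : LocPot X where
  pot x y := u.pot x y + v.pot x y
  cont x := by
    filter_upwards [u.cont x, v.cont x] with y h1 h2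
    exact h1.add h2
  compat x := by
    filter_upwards [u.compat x, v.compat x] with y h1 h2
    refine (h1.add h2).congr (Eventually.of_forall fun z => ?_)
    ring

theorem HasPot.add_zero {u v : LocPot KX} {Q : C3 → ℝ} {Qe : Fin 3 → C3 → ℝ}
    (hu : HasPot u (fun _ => 0) (fun _ _ => 0)) (hv : HasPot v Q Qe) :
    HasPot (u.add v) Q Qe := by
  constructor
  · intro z hz
    refine ((hu.1 z hz).add (hv.1 z hz)).congr (Eventually.of_forall fun z' => ?_)
    simp only [LocPot.add]; ring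
  · intro f hf j a ha
    refine ((hu.2 f hf j a ha).add (hv.2 f hf j a ha)).congr (Eventually.of_forall fun z' => ?_)
    simp only [LocPot.add]; ring

/-- the nef class `θ` -/
noncomputable def kTheta : LocPot KX := exists_theta_kappa.choose
/-- the Kähler class `κ` -/
noncomputable def kKappa : LocPot KX := exists_theta_kappa.choose_spec.choose
/-- the potential of `κ` in the regular chart -/
noncomputable def kK : C3 → ℝ := exists_theta_kappa.choose_spec.choose_spec.choose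
/-- the potentials of `κ` in the exceptional charts -/
noncomputable def kKe : Fin 3 → C3 → ℝ :=
  exists_theta_kappa.choose_spec.choose_spec.choose_spec.choose

theorem kTheta_kKappa_spec : HasPot kTheta (fun z => ‖LL z‖ ^ 2) thetaExc ∧ HasPot kKappa kK kKe ∧
    IsKahler kKappa ∧ IsNef kTheta ∧
    ContinuousOn kK O3ᶜ ∧ (∀ j, ContinuousOn (kKe j) (Vexc j)) ∧
    (∀ R : ℝ, ∃ C : ℝ, ∀ z, z ∉ O3 → ‖z‖ ≤ R → kK z ≤ C) :=
  exists_theta_kappa.choose_spec.choose_spec.choose_spec.choose_spec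

theorem kappaData : KappaData kK kKe :=
  ⟨kTheta_kKappa_spec.2.2.2.2.1, kTheta_kKappa_spec.2.2.2.2.2.1, kTheta_kKappa_spec.2.2.2.2.2.2⟩

/-- the canonical class -/
noncomputable def kCan : LocPot KX := exists_canonical.choose

theorem kCan_spec : IsCanonical 3 kCan ∧ HasPot kCan (fun _ => 0) (fun _ _ => 0) :=
  exists_canonical.choose_spec

/-- the surface `T` -/
noncomputable def kT : SNC 3 Unit KX := exists_T.choose

open Classical in
theorem kT_spec : kT.D () = TT ∧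
    (∀ z, z ∉ O3 → ∃ u : C3 → ℂ, AnalyticAt ℂ u z ∧ u z ≠ 0 ∧ ∀ᶠ z' in 𝓝 z,
      kT.eq () (reg z) (reg z') = u z' * (if z 2 ∈ PiEis then z' 2 - z 2 else 1)) ∧
    ∀ f ∈ O3, ∀ j, ∀ a ∈ Vexc j, ∃ u : C3 → ℂ, AnalyticAt ℂ u a ∧ u a ≠ 0 ∧ ∀ᶠ a' in 𝓝 a,
      kT.eq () (exc f j a) (exc f j a') =
        u a' * (if f 2 ∈ PiEis ∧ j ≠ 2 ∧ a 2 = 0 then a' 2 else 1) :=
  exists_T.choose_spec

/-- The pair `(X, T/2 + θ)`. -/
@[reducible] noncomputable def kmPair : GkltPair 3 where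
  X := KX
  isManifold := KX_isComplexManifold
  exists_kahler := ⟨kKappa, kTheta_kKappa_spec.2.2.1⟩
  J := Unit
  supp := kT
  b := fun _ => 1 / 2
  b_nonneg := fun _ => by norm_num
  b_lt_one := fun _ => by norm_num
  β := kTheta
  β_nef := kTheta_kKappa_spec.2.2.2.1

theorem kmPair_pseudoeffective : kmPair.Pseudoeffective := by
  obtain ⟨γ, hγ⟩ := exists_classEq KX_isComplexManifold kT (fun _ => 1 / 2) (kCan.add kTheta)
  refine ⟨γ, ⟨kCan, kCan_spec.1, hγ⟩, ?_⟩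
  exact psef_of_classEq KX_isComplexManifold kT (fun _ => 1 / 2) (fun _ => by norm_num)
    (kCan.add kTheta) (theta_psh (kCan_spec.2.add_zero kTheta_kKappa_spec.1)) γ hγ

theorem mem_exc_closure_T {x : KX} (hx : x ∈ TT) {N : Set KX} (hN : N ∈ 𝓝 x) :
    ∃ z, z ∉ O3 ∧ z 2 = 0 ∧ reg z ∈ N := by
  rcases hx with ⟨z, hz, hz2, rfl⟩ | ⟨f, hf, j, hj, a, ha, hf2, ha2, rfl⟩
  · exact ⟨z, hz, hz2, mem_of_mem_nhds hN⟩
  · by_cases haj : a j = 0
    · have h1 : exc f j ⁻¹' N ∩ Vexc j ∈ 𝓝 a :=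
        inter_mem ((holMapAt_exc hf ha).1.preimage_mem_nhds hN) ((isOpen_Vexc j).mem_nhds ha)
      have hcont : ContinuousAt (fun t : ℂ => Function.update a j t) (a j) :=
        (continuous_const.update j continuous_id).continuousAt
      have h2 : (fun t : ℂ => Function.update a j t) ⁻¹' (exc f j ⁻¹' N ∩ Vexc j) ∈ 𝓝 (a j) := by
        apply hcont
        simpa using h1
      obtain ⟨t, ht, ht0⟩ : ∃ t ∈ (fun t : ℂ => Function.update a j t) ⁻¹'
          (exc f j ⁻¹' N ∩ Vexc j), t ≠ 0 := by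
        have := (((Set.countable_singleton (0 : ℂ)).dense_compl ℂ) (a j))
        obtain ⟨t, ht1, ht2⟩ := mem_closure_iff_nhds.1 this _ h2
        exact ⟨t, ht1, ht2⟩
      have h3 : Function.update a j t j ≠ 0 := by simpa using ht0
      obtain ⟨h4, h5⟩ := exc_eq_reg hf ht.2 h3
      refine ⟨_, h4, ?_, h5 ▸ ht.1⟩
      have h2j : (2 : Fin 3) ≠ j := Ne.symm hj
      simp only [Pi.add_apply, Pi.smul_apply, smul_eq_mul, hf2, Function.update_of_ne h2j, ha2,
        mul_zero, add_zero]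
    · obtain ⟨h4, h5⟩ := exc_eq_reg hf ha haj
      refine ⟨_, h4, ?_, h5 ▸ mem_of_mem_nhds hN⟩
      have h2j : (2 : Fin 3) ≠ j := Ne.symm hj
      simp only [Pi.add_apply, Pi.smul_apply, smul_eq_mul, hf2, Function.update_of_ne h2j, ha2,
        mul_zero, add_zero]

variable (M : WeakLogTerminalModel kmPair)

/-- the function `eq_T ∘ p` vanishes only on the components -/
theorem eqT_factor (w : M.W) : ∃ u : M.W → ℂ, Hol u w ∧ u w ≠ 0 ∧
    ∀ᶠ w' in 𝓝 w, kT.eq () (M.p w) (M.p w') = u w' * ∏ i, M.P.eq i w w' ^ M.mult i () :=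
  M.pullback_eq () w

theorem exists_mem_of_mem_T (w : M.W) (h : M.p w ∈ kT.D ()) : ∃ i, w ∈ M.P.D i := by
  obtain ⟨u, -, hu0, hu⟩ := eqT_factor M w
  have h1 := hu.self_of_nhds
  have h2 : kT.eq () (M.p w) (M.p w) = 0 := ((kT.mem_iff () (M.p w)).self_of_nhds).1 h
  rw [h2] at h1
  rcases mul_eq_zero.1 h1.symm with h3 | h3
  · exact absurd h3 hu0
  · obtain ⟨i, -, hi⟩ := Finset.prod_eq_zero_iff.1 h3
    refine ⟨i, ((M.P.mem_iff i w).self_of_nhds).2 ?_⟩
    by_contra h0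
    exact pow_ne_zero _ h0 hi

theorem good_disjoint : ∀ y ∈ M.good, y ∉ TT := by
  intro y hy hyT
  obtain ⟨w, rfl⟩ := M.p_modification.1 y
  obtain ⟨i, hi⟩ := exists_mem_of_mem_T M w (by rw [kT_spec.1]; exact hyT)
  exact hy ⟨w, mem_iUnion.2 ⟨i, hi⟩, rfl⟩

theorem p_mem_T {w : M.W} (hw : w ∈ M.P.D (M.strict ())) : M.p w ∈ TT := by
  obtain ⟨u, -, hu0, hu⟩ := eqT_factor M w
  have h1 := hu.self_of_nhds
  have h2 : M.P.eq (M.strict ()) w w = 0 := ((M.P.mem_iff (M.strict ()) w).self_of_nhds).1 hw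
  have h3 : ∏ i, M.P.eq i w w ^ M.mult i () = 0 := by
    apply Finset.prod_eq_zero (Finset.mem_univ (M.strict ()))
    rw [M.mult_strict (), pow_one, h2]
  rw [h3, mul_zero] at h1
  rw [← kT_spec.1]
  exact ((kT.mem_iff () (M.p w)).self_of_nhds).2 h1

theorem G_strict : M.G (M.strict ()) = 1 / 2 - M.F (M.strict ()) := by
  rw [WeakLogTerminalModel.G]
  simp [M.mult_strict ()]

theorem exists_hX : ∀ h : M.W → ℝ, ∃ hX : KX → ℝ, ∀ w, w ∉ M.Dl → hX (M.p w) = h w := by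
  intro h
  obtain ⟨g, -, hg, -⟩ := M.exists_inverse
  refine ⟨fun y => h (g y), fun w hw => ?_⟩
  have h1 : w ∉ M.exP := fun h2 => hw (by
    simp only [WeakLogTerminalModel.exP, mem_iUnion] at h2
    obtain ⟨i, -, hi⟩ := h2
    exact mem_iUnion.2 ⟨i, hi⟩)
  simp only [(hg w h1).2]

theorem coreData_of_epsData {H : M.ι → ℝ} (hH0 : ∀ i, 0 ≤ H i)
    (hH : ∀ i, ¬ Contracted M.p (M.P.D i) → H i = 0) {ε : ℝ} (hε : 0 < ε) {h : M.W → ℝ}
    {Ψ : LocPot M.W} (hΨ : M.EpsData kCan kKappa H ε h Ψ) {hX : KX → ℝ}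
    (hhX : ∀ w, w ∉ M.Dl → hX (M.p w) = h w) :
    CoreData (max (M.G (M.strict ())) 0) kK kKe M.good ε hX := by
  obtain ⟨h1, h2⟩ := M.psh_on_X hH0 hH hε hΨ hhX
  refine coreData_of_psh kTheta_kKappa_spec.1 kTheta_kKappa_spec.2.1 kCan_spec.2 kT
    ⟨kT_spec.2.1, kT_spec.2.2⟩ M.dense_good (fun y hy => by
      rw [kT_spec.1]; exact good_disjoint M y hy) h1 (fun x => ?_)
  have h3 := h2 x
  simpa only [Finset.univ_unique, Finset.sum_singleton] using h3

/-- Claim B for the model: `G_0 ≤ 0` -/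
theorem G_strict_nonpos : M.G (M.strict ()) ≤ 0 := by
  by_contra hcon
  push Not at hcon
  obtain ⟨H, hH0, hH, hdata⟩ := M.exists_epsData kCan kCan_spec.1 kKappa kTheta_kKappa_spec.2.2.1
  refine claimB hcon kappaData M.isOpen_good M.dense_good (good_disjoint M) (fun ε hε hε1 => ?_)
  obtain ⟨h, Ψ, hΨ⟩ := hdata ε hε
  obtain ⟨hX, hhX⟩ := exists_hX M h
  have hD := coreData_of_epsData M hH0 hH hε hΨ hhX
  rw [max_eq_left hcon.le] at hD
  refine ⟨hX, hD, ?_⟩
  obtain ⟨x, hx, C, hC⟩ := M.lower_bound hH0 hH hε hΨ hhX ()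
  have hx' : x ∈ TT := by rw [← kT_spec.1]; exact hx
  have hcompat := kT.compat () x
  obtain ⟨z, hz, hz2, hzC, u, huH, hu0, hu⟩ := mem_exc_closure_T hx' (hC.eventually_nhds.and hcompat)
  refine ⟨z, hz, hz2, ?_⟩
  obtain ⟨u', hu'H, hu'0, hu'⟩ := kT_spec.2.1 z hz
  simp only [if_pos (show z 2 ∈ PiEis from hz2 ▸ zero_mem_PiEis)] at hu'
  have hreg := (holMapAt_reg hz)
  -- the units
  have hur : AnalyticAt ℂ (fun z' => u (reg z')) z := hreg.2 u huH
  have hc1 : ContinuousAt (fun z' => Real.log ‖u (reg z')‖) z :=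
    hur.continuousAt.norm.log (norm_ne_zero_iff.2 hu0)
  have hc2 : ContinuousAt (fun z' => Real.log ‖u' z'‖) z :=
    hu'H.continuousAt.norm.log (norm_ne_zero_iff.2 hu'0)
  refine ⟨C - M.G (M.strict ()) * (Real.log ‖u (reg z)‖ + 1 + (Real.log ‖u' z‖ + 1)), ?_⟩
  have e1 : ∀ᶠ z' in 𝓝 z, Real.log ‖u (reg z')‖ < Real.log ‖u (reg z)‖ + 1 :=
    hc1.eventually (gt_mem_nhds (by linarith))
  have e2 : ∀ᶠ z' in 𝓝 z, Real.log ‖u' z'‖ < Real.log ‖u' z‖ + 1 :=
    hc2.eventually (gt_mem_nhds (by linarith))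
  filter_upwards [e1, e2, hu', hreg.1.eventually hu, hreg.1.eventually hzC,
    isOpen_O3_compl.mem_nhds hz, hur.continuousAt.eventually_ne hu0,
    hu'H.continuousAt.eventually_ne hu'0] with z' e1 e2 e3 e4 e5 e6 e7 e8 hz'
  have h1 := e5 hz'
  have hz'2 : z' 2 ≠ 0 := z2_ne_zero (good_disjoint M) e6 hz'
  have h3 : Real.log ‖kT.eq () x (reg z')‖ =
      Real.log ‖u (reg z')‖ + (Real.log ‖u' z'‖ + Real.log ‖z' 2‖) := by
    rw [e4, e3, hz2, sub_zero, norm_mul, norm_mul,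
      Real.log_mul (norm_ne_zero_iff.2 e7) (mul_ne_zero (norm_ne_zero_iff.2 e8)
        (norm_ne_zero_iff.2 hz'2)),
      Real.log_mul (norm_ne_zero_iff.2 e8) (norm_ne_zero_iff.2 hz'2)]
  change C ≤ hX (reg z') + M.G (M.strict ()) * Real.log ‖kT.eq () x (reg z')‖ at h1
  rw [h3] at h1
  nlinarith

/-- Claim C for the model: `G_i ≥ 0` -/
theorem G_nonneg (i : M.ι) : 0 ≤ M.G i := by
  by_contra hcon
  push Not at hcon
  obtain ⟨H, hH0, hH, hdata⟩ := M.exists_epsData kCan kCan_spec.1 kKappa kTheta_kKappa_spec.2.2.1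
  obtain ⟨Ω, hΩ, hΩ', hgap⟩ := M.gap_open (κX := kCan) (k := kKappa) hH0 hH
    (fun j => G_strict_nonpos M) hcon
  refine claimC kappaData M.isOpen_good M.dense_good hΩ hΩ' (fun ε hε hε1 => ?_)
  obtain ⟨h, Ψ, hΨ⟩ := hdata ε hε
  obtain ⟨hX, hhX⟩ := exists_hX M h
  have hD := coreData_of_epsData M hH0 hH hε hΨ hhX
  rw [max_eq_right (G_strict_nonpos M)] at hD
  exact ⟨hX, hD, hgap ε hε hε1 h Ψ hΨ hX hhX⟩

theorem no_model (M : WeakLogTerminalModel kmPair) : False := by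
  have hG0 : M.G (M.strict ()) = 0 := le_antisymm (G_strict_nonpos M) (G_nonneg M _)
  have hq : Contracted M.q (M.P.D (M.strict ())) := by
    by_contra hcon
    have h1 := G_strict M
    rw [M.F_eq_zero hcon, hG0] at h1
    norm_num at h1
  obtain ⟨h, hident⟩ := M.ident_zero kCan kCan_spec.1
  obtain ⟨g, -, hg, -⟩ := M.exists_inverse
  refine claimD (W := M.W) (Y := M.Y) M.manifoldW (p := M.p) (q := M.q) M.P (M.strict ()) M.G
    (G_nonneg M) hG0 M.p_modification.2.1 M.q_modification.2.1 ?_ (M.not_contracted_strict ()) hq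
    (fun w hw => p_mem_T M hw) (kCan.add kTheta) (kCan_spec.2.add_zero kTheta_kKappa_spec.1) M.γm h ?_
  · intro w w' hw hpw
    have h1 : w ∉ M.exP := by
      intro h2
      simp only [WeakLogTerminalModel.exP, mem_iUnion] at h2
      obtain ⟨i, hi, hi'⟩ := h2
      exact hw i hi hi'
    have h2 : w' ∉ M.exP := by
      intro h3
      exact (hg w h1).1 ⟨w', h3, hpw.symm⟩
    rw [← (hg w h1).2, ← (hg w' h2).2, hpw]
  · intro w
    obtain ⟨Fh, hFh, hF⟩ := hident w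
    refine ⟨Fh, hFh, ?_⟩
    filter_upwards [hF] with w' h1 h2
    have h3 : w' ∉ M.Dl := by
      intro h4
      obtain ⟨i, hi⟩ := mem_iUnion.1 h4
      exact h2 i hi
    exact h1 h3

/-- The main result. -/
theorem main : ∃ A : GkltPair 3, A.Pseudoeffective ∧ IsEmpty (WeakLogTerminalModel A) :=
  ⟨kmPair, kmPair_pseudoeffective, ⟨no_model⟩⟩

end Pool.Agent.helper90.KMMP
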