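import Pool.Agent.helper90.KMMP.Defs

/-!
# Toolbox on holomorphic maps, pluriharmonic and plurisubharmonic functions
-/

open scoped Topology ContDiff
open Set Filter Metric

namespace Pool.Agent.helper90.KMMP

variable {X Y W : Type} [TopologicalSpace X] [HolSpace X] [TopologicalSpace Y] [HolSpace Y]
  [TopologicalSpace W] [HolSpace W]

/-! ### holomorphic functions and maps -/

theorem Hol.const_mul {f : X → ℂ} {x : X} (c : ℂ) (hf : Hol f x) : Hol (fun y => c * f y) x :=
  HolSpace.hol_mul (HolSpace.hol_const c x) hf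

theorem Hol.neg {f : X → ℂ} {x : X} (hf : Hol f x) : Hol (fun y => - f y) x := by
  refine HolSpace.hol_congr (Hol.const_mul (-1) hf) (Eventually.of_forall fun y => ?_)
  simp

theorem Hol.sub {f g : X → ℂ} {x : X} (hf : Hol f x) (hg : Hol g x) :
    Hol (fun y => f y - g y) x := by
  refine HolSpace.hol_congr (HolSpace.hol_add hf (Hol.neg hg)) (Eventually.of_forall fun y => ?_)
  simp [sub_eq_add_neg]

theorem Hol.pow {f : X → ℂ} {x : X} (hf : Hol f x) (n : ℕ) : Hol (fun y => f y ^ n) x := by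
  induction n with
  | zero => simpa using HolSpace.hol_const (1 : ℂ) x
  | succ n ih =>
    simp only [pow_succ]
    exact HolSpace.hol_mul ih hf

theorem Hol.sum {ι : Type*} {s : Finset ι} {f : ι → X → ℂ} {x : X} (hf : ∀ i ∈ s, Hol (f i) x) :
    Hol (fun y => ∑ i ∈ s, f i y) x := by
  classical
  induction s using Finset.induction_on with
  | empty => simpa using HolSpace.hol_const (0 : ℂ) x
  | insert a s ha ih =>
    simp only [Finset.sum_insert ha]
    exact HolSpace.hol_add (hf a (Finset.mem_insert_self a s))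
      (ih fun i hi => hf i (Finset.mem_insert_of_mem hi))

theorem Hol.prod {ι : Type*} {s : Finset ι} {f : ι → X → ℂ} {x : X} (hf : ∀ i ∈ s, Hol (f i) x) :
    Hol (fun y => ∏ i ∈ s, f i y) x := by
  classical
  induction s using Finset.induction_on with
  | empty => simpa using HolSpace.hol_const (1 : ℂ) x
  | insert a s ha ih =>
    simp only [Finset.prod_insert ha]
    exact HolSpace.hol_mul (hf a (Finset.mem_insert_self a s))
      (ih fun i hi => hf i (Finset.mem_insert_of_mem hi))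

theorem HolMapAt.id (x : X) : HolMapAt (fun y : X => y) x :=
  ⟨continuousAt_id, fun _ hg => hg⟩

theorem HolMapAt.comp {g : Y → W} {f : X → Y} {x : X} (hg : HolMapAt g (f x)) (hf : HolMapAt f x) :
    HolMapAt (fun y => g (f y)) x :=
  ⟨ContinuousAt.comp hg.1 hf.1, fun h hh => hf.2 _ (hg.2 h hh)⟩

theorem HolMapAt.eventually_hol {f : X → Y} {x : X} (hf : HolMapAt f x) {g : Y → ℂ}
    (hg : Hol g (f x)) : ∀ᶠ y in 𝓝 x, Hol (fun z => g (f z)) y :=
  HolSpace.hol_eventually (hf.2 g hg)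

theorem HolMapAt.congr {f g : X → Y} {x : X} (hf : HolMapAt f x) (h : f =ᶠ[𝓝 x] g) :
    HolMapAt g x := by
  refine ⟨hf.1.congr h, fun u hu => ?_⟩
  rw [← h.eq_of_nhds] at hu
  exact HolSpace.hol_congr (hf.2 u hu) (h.mono fun y hy => by simp [hy])

theorem HolMapAt.const (c : Y) (x : X) : HolMapAt (fun _ : X => c) x :=
  ⟨continuousAt_const, fun g _ => HolSpace.hol_const (g c) x⟩

theorem hol_C_iff {f : ℂ → ℂ} {x : ℂ} : Hol f x ↔ AnalyticAt ℂ f x := Iff.rfl
theorem hol_CN_iff {n : ℕ} {f : (Fin n → ℂ) → ℂ} {x : Fin n → ℂ} : Hol f x ↔ AnalyticAt ℂ f x :=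
  Iff.rfl

theorem holMapAt_of_analyticAt {n m : ℕ} {f : (Fin n → ℂ) → (Fin m → ℂ)} {x : Fin n → ℂ}
    (hf : AnalyticAt ℂ f x) : HolMapAt f x :=
  ⟨hf.continuousAt, fun _ hg => AnalyticAt.comp hg hf⟩

theorem HolMapAt.analyticAt {n m : ℕ} {f : (Fin n → ℂ) → (Fin m → ℂ)} {x : Fin n → ℂ}
    (hf : HolMapAt f x) : AnalyticAt ℂ f x := by
  rw [analyticAt_pi_iff]
  intro i
  exact hf.2 (fun v => v i) (hol_CN_iff.mpr
    ((ContinuousLinearMap.proj (R := ℂ) (φ := fun _ : Fin m => ℂ) i).analyticAt (f x)))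

theorem holMapAt_of_analyticAt_C {m : ℕ} {f : ℂ → (Fin m → ℂ)} {x : ℂ}
    (hf : AnalyticAt ℂ f x) : HolMapAt f x :=
  ⟨hf.continuousAt, fun _ hg => AnalyticAt.comp hg hf⟩

theorem HolMapAt.analyticAt_C {m : ℕ} {f : ℂ → (Fin m → ℂ)} {x : ℂ}
    (hf : HolMapAt f x) : AnalyticAt ℂ f x := by
  rw [analyticAt_pi_iff]
  intro i
  exact hf.2 (fun v => v i) (hol_CN_iff.mpr
    ((ContinuousLinearMap.proj (R := ℂ) (φ := fun _ : Fin m => ℂ) i).analyticAt (f x)))

theorem holMapAt_of_analyticAt_CC {f : ℂ → ℂ} {x : ℂ}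
    (hf : AnalyticAt ℂ f x) : HolMapAt f x :=
  ⟨hf.continuousAt, fun _ hg => AnalyticAt.comp hg hf⟩

theorem HolMapAt.analyticAt_CC {f : ℂ → ℂ} {x : ℂ} (hf : HolMapAt f x) : AnalyticAt ℂ f x :=
  hf.2 (fun v => v) (hol_C_iff.mpr analyticAt_id)

theorem holMapAt_of_analyticAt_NC {n : ℕ} {f : (Fin n → ℂ) → ℂ} {x : Fin n → ℂ}
    (hf : AnalyticAt ℂ f x) : HolMapAt f x :=
  ⟨hf.continuousAt, fun _ hg => AnalyticAt.comp hg hf⟩

theorem LocalModel.continuousAt_e {x : X} (m : LocalModel X x) {y : X} (hy : y ∈ m.U) :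
    ContinuousAt m.e y := by
  have h : ContinuousOn m.e m.U := continuousOn_iff_continuous_domRestrict.mpr m.isEmbedding.continuous
  exact h.continuousAt (m.isOpen_U.mem_nhds hy)

/-- holomorphic functions on a complex space are continuous -/
theorem Hol.continuousAt (hX : IsComplexSpace X) {f : X → ℂ} {x : X} (hf : Hol f x) :
    ContinuousAt f x := by
  obtain ⟨m⟩ := hX x
  obtain ⟨F, hF, hfF⟩ := (m.hol_iff x m.mem_U f).mp hf
  have h1 : ContinuousAt (fun z => F (m.e z)) x :=
    ContinuousAt.comp hF.continuousAt (m.continuousAt_e m.mem_U)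
  exact h1.congr hfF.symm

theorem IsComplexManifold.isComplexSpace {n : ℕ} (hX : IsComplexManifold X n) :
    IsComplexSpace X := by
  intro x
  obtain ⟨e, he, hx⟩ := hX x
  refine ⟨{ N := n, e := e, U := e.source, V := e.target, k := 0, g := fun i => i.elim0,
            isOpen_U := e.open_source, mem_U := hx, isOpen_V := e.open_target,
            isEmbedding := ?_, analytic_g := fun i => i.elim0, image_eq := ?_, hol_iff := ?_ }⟩
  · exact e.isOpenEmbedding_restrict.isEmbedding
  · rw [e.image_source_eq_target]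
    ext v
    simp
  · intro y hy f
    rw [he y hy f]
    constructor
    · intro h
      refine ⟨_, h, ?_⟩
      filter_upwards [e.open_source.mem_nhds hy] with z hz
      simp [e.left_inv hz]
    · rintro ⟨F, hF, hfF⟩
      refine hF.congr ?_
      have h1 : Tendsto e.symm (𝓝 (e y)) (𝓝 y) := by
        have := e.continuousAt_symm (e.map_source hy)
        rwa [ContinuousAt, e.left_inv hy] at this
      filter_upwards [h1.eventually hfF, e.open_target.mem_nhds (e.map_source hy)] with v hv hv'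
      rw [hv, e.right_inv hv']

theorem IsHolChart.holMapAt {n : ℕ} {e : OpenPartialHomeomorph X (Fin n → ℂ)} (he : IsHolChart e)
    {x : X} (hx : x ∈ e.source) : HolMapAt e x := by
  refine ⟨e.continuousAt hx, fun g hg => ?_⟩
  rw [he x hx]
  refine AnalyticAt.congr hg ?_
  filter_upwards [e.open_target.mem_nhds (e.map_source hx)] with v hv
  rw [e.right_inv hv]

theorem IsHolChart.holMapAt_symm {n : ℕ} {e : OpenPartialHomeomorph X (Fin n → ℂ)}
    (he : IsHolChart e) {v : Fin n → ℂ} (hv : v ∈ e.target) : HolMapAt e.symm v := by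
  refine ⟨e.continuousAt_symm hv, fun g hg => ?_⟩
  have h := (he (e.symm v) (e.map_target hv) g).mp hg
  rwa [e.right_inv hv] at h

/-! ### pluriharmonic functions -/

theorem phAt_const (c : ℝ) (x : X) : PHAt (fun _ => c) x :=
  ⟨fun _ => (c : ℂ), HolSpace.hol_const _ x, Eventually.of_forall fun y => by simp⟩

theorem PHAt.add {u v : X → ℝ} {x : X} (hu : PHAt u x) (hv : PHAt v x) :
    PHAt (fun y => u y + v y) x := by
  obtain ⟨F, hF, hF'⟩ := hu
  obtain ⟨G, hG, hG'⟩ := hv
  refine ⟨_, HolSpace.hol_add hF hG, ?_⟩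
  filter_upwards [hF', hG'] with y h1 h2
  simp [h1, h2]

theorem PHAt.const_mul {u : X → ℝ} {x : X} (c : ℝ) (hu : PHAt u x) :
    PHAt (fun y => c * u y) x := by
  obtain ⟨F, hF, hF'⟩ := hu
  refine ⟨_, Hol.const_mul (c : ℂ) hF, ?_⟩
  filter_upwards [hF'] with y h1
  simp [h1]

theorem PHAt.congr {u v : X → ℝ} {x : X} (hu : PHAt u x) (h : u =ᶠ[𝓝 x] v) : PHAt v x := by
  obtain ⟨F, hF, hF'⟩ := hu
  exact ⟨F, hF, h.symm.trans hF'⟩

theorem PHAt.sub {u v : X → ℝ} {x : X} (hu : PHAt u x) (hv : PHAt v x) :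
    PHAt (fun y => u y - v y) x := by
  refine (hu.add (hv.const_mul (-1))).congr (Eventually.of_forall fun y => ?_)
  ring

theorem PHAt.neg {u : X → ℝ} {x : X} (hu : PHAt u x) : PHAt (fun y => - u y) x := by
  refine (hu.const_mul (-1)).congr (Eventually.of_forall fun y => ?_)
  ring

theorem PHAt.sum {ι : Type*} {s : Finset ι} {u : ι → X → ℝ} {x : X} (hu : ∀ i ∈ s, PHAt (u i) x) :
    PHAt (fun y => ∑ i ∈ s, u i y) x := by
  classical
  induction s using Finset.induction_on with
  | empty => simpa using phAt_const 0 x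
  | insert a s ha ih =>
    simp only [Finset.sum_insert ha]
    exact (hu a (Finset.mem_insert_self a s)).add
      (ih fun i hi => hu i (Finset.mem_insert_of_mem hi))

theorem PHAt.eventually {u : X → ℝ} {x : X} (hu : PHAt u x) : ∀ᶠ y in 𝓝 x, PHAt u y := by
  obtain ⟨F, hF, hF'⟩ := hu
  filter_upwards [HolSpace.hol_eventually hF, hF'.eventually_nhds] with y h1 h2
  exact ⟨F, h1, h2⟩

theorem PHAt.comp {u : Y → ℝ} {f : X → Y} {x : X} (hu : PHAt u (f x)) (hf : HolMapAt f x) :
    PHAt (fun y => u (f y)) x := by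
  obtain ⟨F, hF, hF'⟩ := hu
  exact ⟨_, hf.2 F hF, hf.1.eventually hF'⟩

theorem PHAt.continuousAt (hX : IsComplexSpace X) {u : X → ℝ} {x : X} (hu : PHAt u x) :
    ContinuousAt u x := by
  obtain ⟨F, hF, hF'⟩ := hu
  exact (Complex.continuous_re.continuousAt.comp (Hol.continuousAt hX hF)).congr hF'.symm

/-- on a complex manifold, `log |f|` is pluriharmonic where `f ≠ 0` -/
theorem phAt_log {n : ℕ} (hX : IsComplexManifold X n) {f : X → ℂ} {x : X} (hf : Hol f x)
    (h0 : f x ≠ 0) : PHAt (fun y => Real.log ‖f y‖) x := by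
  obtain ⟨e, he, hx⟩ := hX x
  have hfa := (he x hx f).mp hf
  have hcont : ContinuousAt f x := Hol.continuousAt hX.isComplexSpace hf
  have h1 : PHAt (fun y => (Complex.log (f y / f x)).re) x := by
    refine ⟨fun y => Complex.log (f y / f x), ?_, Eventually.of_forall fun y => rfl⟩
    rw [he x hx]
    have h2 : AnalyticAt ℂ (fun v => f (e.symm v) / f x) (e x) :=
      hfa.div analyticAt_const h0
    refine h2.clog ?_
    rw [e.left_inv hx, div_self h0]
    exact Complex.one_mem_slitPlane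
  refine (h1.add (phAt_const (Real.log ‖f x‖) x)).congr ?_
  filter_upwards [hcont.eventually_ne h0] with y hy
  rw [Complex.log_re, norm_div, Real.log_div (norm_ne_zero_iff.mpr hy) (norm_ne_zero_iff.mpr h0)]
  ring


/-! ### plurisubharmonic functions -/

theorem PshAt.congr {u v : X → EReal} {x : X} (hu : PshAt u x) (h : u =ᶠ[𝓝 x] v) :
    PshAt v x := by
  obtain ⟨U, hU, h1, h2, h3⟩ := hu
  refine ⟨U ∩ {y | u y = v y}, inter_mem hU h, ?_, ?_, ?_⟩
  · intro y hy
    rw [← show u y = v y from hy.2]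
    exact h1 y hy.1
  · intro y hy
    have h4 : UpperSemicontinuousWithinAt u (U ∩ {y | u y = v y}) y :=
      (h2.mono inter_subset_left) y hy
    exact h4.congr_of_eventuallyEq hy (eventually_nhdsWithin_of_forall fun z hz => hz.2)
  · intro c hc φ hφ hle
    rw [← show u (c 0) = v (c 0) from (hc 0 (by simp)).1.2]
    refine h3 c (fun t ht => ⟨(hc t ht).1.1, (hc t ht).2⟩) φ hφ fun t ht => ?_
    rw [show u (c t) = v (c t) from (hc t (sphere_subset_closedBall ht)).1.2]
    exact hle t ht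

theorem PshAt.eventually {u : X → EReal} {x : X} (hu : PshAt u x) : ∀ᶠ y in 𝓝 x, PshAt u y := by
  obtain ⟨U, hU, h⟩ := hu
  filter_upwards [eventually_mem_nhds_iff.mpr hU] with y hy
  exact ⟨U, hy, h⟩

theorem PshAt.lt_top {u : X → EReal} {x : X} (hu : PshAt u x) : u x < ⊤ := by
  obtain ⟨U, hU, h1, -⟩ := hu
  exact h1 x (mem_of_mem_nhds hU)

theorem PshAt.upperSemicontinuousAt {u : X → EReal} {x : X} (hu : PshAt u x) :
    UpperSemicontinuousAt u x := by
  obtain ⟨U, hU, h1, h2, -⟩ := hu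
  intro y hy
  have h3 := h2 x (mem_of_mem_nhds hU) y hy
  rwa [nhdsWithin_eq_nhds.mpr hU] at h3

/-- pull back under holomorphic maps -/
theorem PshAt.comp {u : Y → EReal} {f : X → Y} {x : X} (hu : PshAt u (f x))
    (hf : ∀ᶠ y in 𝓝 x, HolMapAt f y) : PshAt (fun y => u (f y)) x := by
  obtain ⟨U, hU, h1, h2, h3⟩ := hu
  have hfx : ContinuousAt f x := (hf.self_of_nhds).1
  refine ⟨{y | HolMapAt f y} ∩ f ⁻¹' U, inter_mem hf (hfx hU), ?_, ?_, ?_⟩
  · intro y hy
    exact h1 _ hy.2
  · refine UpperSemicontinuousOn.comp h2 ?_ fun y hy => hy.2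
    intro y hy
    exact hy.1.1.continuousWithinAt
  · intro c hc φ hφ hle
    exact h3 (fun t => f (c t))
      (fun t ht => ⟨(hc t ht).1.2, HolMapAt.comp (hc t ht).1.1 (hc t ht).2⟩) φ hφ hle

theorem circleAvg_le {φ ψ : ℂ → ℝ} (hφ : ContinuousOn φ (sphere 0 1))
    (hψ : ContinuousOn ψ (sphere 0 1)) (h : ∀ t ∈ sphere (0 : ℂ) 1, φ t ≤ ψ t) :
    Real.circleAverage φ 0 1 ≤ Real.circleAverage ψ 0 1 := by
  refine Real.circleAverage_mono ?_ ?_ ?_
  · exact ContinuousOn.circleIntegrable zero_le_one hφ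
  · exact ContinuousOn.circleIntegrable zero_le_one hψ
  · simpa using h

theorem circleAvg_sub {φ ψ : ℂ → ℝ} (hφ : ContinuousOn φ (sphere 0 1))
    (hψ : ContinuousOn ψ (sphere 0 1)) :
    Real.circleAverage (fun t => φ t - ψ t) 0 1 =
      Real.circleAverage φ 0 1 - Real.circleAverage ψ 0 1 :=
  Real.circleAverage_fun_sub (ContinuousOn.circleIntegrable zero_le_one hφ)
    (ContinuousOn.circleIntegrable zero_le_one hψ)

/-- the sum of a psh function and a continuous psh function -/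
theorem PshAt.add_coe {u : X → EReal} {v : X → ℝ} {x : X} (hu : PshAt u x)
    (hv : PshAt (fun y => (v y : EReal)) x) (hv' : ∀ᶠ y in 𝓝 x, ContinuousAt v y) :
    PshAt (fun y => u y + v y) x := by
  obtain ⟨U, hU, h1, h2, h3⟩ := hu
  obtain ⟨V, hV, k1, k2, k3⟩ := hv
  refine ⟨U ∩ V ∩ {y | ContinuousAt v y}, inter_mem (inter_mem hU hV) hv', ?_, ?_, ?_⟩
  · intro y hy
    exact EReal.add_lt_top (h1 y hy.1.1).ne (EReal.coe_ne_top _)
  · refine UpperSemicontinuousOn.add' (h2.mono fun y hy => hy.1.1)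
      (k2.mono fun y hy => hy.1.2) fun y hy => ?_
    exact EReal.continuousAt_add (Or.inr (EReal.coe_ne_bot _)) (Or.inr (EReal.coe_ne_top _))
  · intro c hc φ hφ hle
    have hvc : ContinuousOn (fun t => v (c t)) (sphere 0 1) := by
      intro t ht
      have h4 := hc t (sphere_subset_closedBall ht)
      exact (ContinuousAt.comp (f := c) (g := v) h4.1.2 h4.2.1).continuousWithinAt
    have h5 : u (c 0) ≤ ((Real.circleAverage (fun t => φ t - v (c t)) 0 1 : ℝ) : EReal) := by
      refine h3 c (fun t ht => ⟨(hc t ht).1.1.1, (hc t ht).2⟩) _ (hφ.sub hvc) fun t ht => ?_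
      have h6 := hle t ht
      rw [EReal.coe_sub]
      exact EReal.le_sub_iff_add_le (Or.inl (EReal.coe_ne_bot _)) (Or.inl (EReal.coe_ne_top _)) |>.mpr h6
    have h7 : ((v (c 0) : ℝ) : EReal) ≤
        ((Real.circleAverage (fun t => v (c t)) 0 1 : ℝ) : EReal) :=
      k3 c (fun t ht => ⟨(hc t ht).1.1.2, (hc t ht).2⟩) _ hvc fun t ht => le_rfl
    rw [circleAvg_sub hφ hvc] at h5
    calc u (c 0) + (v (c 0) : ℝ) ≤ ((Real.circleAverage φ 0 1 -
          Real.circleAverage (fun t => v (c t)) 0 1 : ℝ) : EReal) +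
          ((Real.circleAverage (fun t => v (c t)) 0 1 : ℝ) : EReal) := add_le_add h5 h7
      _ = ((Real.circleAverage φ 0 1 : ℝ) : EReal) := by
        rw [← EReal.coe_add]; congr 1; ring

omit [HolSpace X] in
theorem usc_coe_of_continuousAt {u : X → ℝ} {s : Set X} (h : ∀ y ∈ s, ContinuousAt u y) :
    UpperSemicontinuousOn (fun y => (u y : EReal)) s := by
  intro y hy
  exact ((continuous_coe_real_ereal.continuousAt.comp (h y hy)).upperSemicontinuousAt).upperSemicontinuousWithinAt s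

/-- criterion for continuous functions -/
theorem pshAt_coe_iff {u : X → ℝ} {x : X} (hu : ∀ᶠ y in 𝓝 x, ContinuousAt u y) :
    PshAt (fun y => (u y : EReal)) x ↔
      ∃ U ∈ 𝓝 x, ∀ c : ℂ → X, (∀ t ∈ closedBall (0 : ℂ) 1, c t ∈ U ∧ HolMapAt c t) →
        u (c 0) ≤ Real.circleAverage (fun t => u (c t)) 0 1 := by
  constructor
  · rintro ⟨U, hU, h1, h2, h3⟩
    refine ⟨U ∩ {y | ContinuousAt u y}, inter_mem hU hu, fun c hc => ?_⟩
    have hvc : ContinuousOn (fun t => u (c t)) (sphere 0 1) := by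
      intro t ht
      have h4 := hc t (sphere_subset_closedBall ht)
      exact (ContinuousAt.comp (f := c) (g := u) h4.1.2 h4.2.1).continuousWithinAt
    exact EReal.coe_le_coe_iff.mp
      (h3 c (fun t ht => ⟨(hc t ht).1.1, (hc t ht).2⟩) _ hvc fun t ht => le_rfl)
  · rintro ⟨U, hU, h⟩
    refine ⟨U ∩ {y | ContinuousAt u y}, inter_mem hU hu, fun y _ => EReal.coe_lt_top _,
      usc_coe_of_continuousAt fun y hy => hy.2, fun c hc φ hφ hle => ?_⟩
    have hvc : ContinuousOn (fun t => u (c t)) (sphere 0 1) := by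
      intro t ht
      have h4 := hc t (sphere_subset_closedBall ht)
      exact (ContinuousAt.comp (f := c) (g := u) h4.1.2 h4.2.1).continuousWithinAt
    refine EReal.coe_le_coe_iff.mpr ((h c fun t ht => ⟨(hc t ht).1.1, (hc t ht).2⟩).trans
      (circleAvg_le hvc hφ fun t ht => EReal.coe_le_coe_iff.mp (hle t ht)))

theorem circleAvg_re_of_analytic {F : ℂ → ℂ} (hF : ∀ t ∈ closedBall (0 : ℂ) 1, AnalyticAt ℂ F t) :
    Real.circleAverage (fun t => (F t).re) 0 1 = (F 0).re := by
  have h1 : InnerProductSpace.HarmonicOnNhd (fun t => (F t).re) (closedBall (0 : ℂ) |1|) := by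
    intro t ht
    exact (hF t (by simpa using ht)).harmonicAt_re
  exact h1.circleAverage_eq

theorem PHAt.pshAt {n : ℕ} (hX : IsComplexManifold X n) {u : X → ℝ} {x : X} (hu : PHAt u x) :
    PshAt (fun y => (u y : EReal)) x := by
  have hc : ∀ᶠ y in 𝓝 x, ContinuousAt u y :=
    hu.eventually.mono fun y hy => hy.continuousAt hX.isComplexSpace
  rw [pshAt_coe_iff hc]
  obtain ⟨F, hF, hF'⟩ := hu
  refine ⟨{y | Hol F y ∧ u y = (F y).re}, (HolSpace.hol_eventually hF).and hF', fun c hc => ?_⟩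
  have h1 : ∀ t ∈ closedBall (0 : ℂ) 1, AnalyticAt ℂ (fun s => F (c s)) t := fun t ht =>
    (hc t ht).2.2 F (hc t ht).1.1
  have h2 : Real.circleAverage (fun t => u (c t)) 0 1 =
      Real.circleAverage (fun t => (F (c t)).re) 0 1 := by
    refine Real.circleAverage_congr_sphere fun t ht => ?_
    exact (hc t (sphere_subset_closedBall (by simpa using ht))).1.2
  rw [h2, circleAvg_re_of_analytic h1, (hc 0 (by simp)).1.2]

theorem PshAt.const_mul {u : X → ℝ} {x : X} {a : ℝ} (ha : 0 ≤ a)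
    (hu : PshAt (fun y => (u y : EReal)) x) : PshAt (fun y => ((a * u y : ℝ) : EReal)) x := by
  rcases ha.eq_or_lt with rfl | ha
  · refine ⟨univ, univ_mem, fun y _ => EReal.coe_lt_top _, ?_, ?_⟩
    · simp only [zero_mul]
      exact upperSemicontinuousOn_const
    · intro c hc φ hφ hle
      simp only [zero_mul] at hle ⊢
      have h1 : Real.circleAverage (fun _ : ℂ => (0 : ℝ)) 0 1 ≤ Real.circleAverage φ 0 1 :=
        circleAvg_le continuousOn_const hφ fun t ht => by
          simpa using EReal.coe_le_coe_iff.mp (hle t ht)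
      rw [Real.circleAverage_const] at h1
      exact EReal.coe_le_coe_iff.mpr h1
  · obtain ⟨U, hU, h1, h2, h3⟩ := hu
    refine ⟨U, hU, fun y _ => EReal.coe_lt_top _, ?_, ?_⟩
    · intro y hy z hz
      induction z with
      | bot => exact absurd hz (not_lt_bot)
      | top => exact Eventually.of_forall fun _ => EReal.coe_lt_top _
      | coe r =>
        have h4 : ((u y : ℝ) : EReal) < ((r / a : ℝ) : EReal) := by
          rw [EReal.coe_lt_coe_iff] at hz ⊢
          rw [lt_div_iff₀ ha]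
          linarith [mul_comm a (u y)]
        filter_upwards [h2 y hy _ h4] with w hw
        rw [EReal.coe_lt_coe_iff] at hw ⊢
        rw [lt_div_iff₀ ha] at hw
        linarith [mul_comm a (u w)]
    · intro c hc φ hφ hle
      have h5 := h3 c hc (fun t => a⁻¹ * φ t) (continuousOn_const.mul hφ) fun t ht => by
        have h6 := EReal.coe_le_coe_iff.mp (hle t ht)
        rw [EReal.coe_le_coe_iff]
        rw [inv_mul_eq_div, le_div_iff₀ ha]
        linarith [mul_comm a (u (c t))]
      have h7 : Real.circleAverage (fun t => a⁻¹ * φ t) 0 1 = a⁻¹ * Real.circleAverage φ 0 1 :=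
        Real.circleAverage_fun_smul (a := a⁻¹) (f := φ)
      rw [h7, EReal.coe_le_coe_iff, inv_mul_eq_div, le_div_iff₀ ha] at h5
      rw [EReal.coe_le_coe_iff]
      linarith [mul_comm a (u (c 0))]

theorem PshAt.max {u v : X → EReal} {x : X} (hu : PshAt u x) (hv : PshAt v x) :
    PshAt (fun y => Max.max (u y) (v y)) x := by
  obtain ⟨U, hU, h1, h2, h3⟩ := hu
  obtain ⟨V, hV, k1, k2, k3⟩ := hv
  refine ⟨U ∩ V, inter_mem hU hV, ?_, ?_, ?_⟩
  · intro y hy
    exact max_lt (h1 y hy.1) (k1 y hy.2)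
  · exact UpperSemicontinuousOn.sup (h2.mono inter_subset_left) (k2.mono inter_subset_right)
  · intro c hc φ hφ hle
    refine max_le (h3 c (fun t ht => ⟨(hc t ht).1.1, (hc t ht).2⟩) φ hφ fun t ht =>
      (le_max_left _ _).trans (hle t ht))
      (k3 c (fun t ht => ⟨(hc t ht).1.2, (hc t ht).2⟩) φ hφ fun t ht =>
      (le_max_right _ _).trans (hle t ht))

end Pool.Agent.helper90.KMMP
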