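import Pool.Agent.helper90.KMMP.Psh

/-!
# Sanity check: a pair whose adjoint class is nef is its own (weak) log terminal model
-/

open scoped Topology ContDiff
open Set Filter Metric

namespace Pool.Agent.helper90.KMMP

theorem not_contracted_id {X : Type} [TopologicalSpace X] [HolSpace X] {P : Set X}
    (hP : P.Nonempty) : ¬ Contracted (fun x : X => x) P := by
  intro h
  obtain ⟨w, hw⟩ := hP
  obtain ⟨S, _, _, c, _, _, _, _, _, _, ⟨s, hs⟩, h1, h2⟩ := h w hw
  exact h1 s (Eventually.of_forall fun s' => h2 s' s)

theorem exists_model_of_nef {n : ℕ} (A : GkltPair n) (γ : LocPot A.X) (hγ : A.IsAdjoint γ)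
    (hnef : IsNef γ) : Nonempty (WeakLogTerminalModel A) := by
  classical
  obtain ⟨κ, hκ, hcl⟩ := hγ
  have hnc : ∀ i, ¬ Contracted (fun x : A.X => x) (A.supp.D i) := fun i =>
    not_contracted_id (A.supp.isConnected i).nonempty
  have hmod : IsModification (fun x : A.X => x)
      (⋃ i ∈ {i | Contracted (fun x : A.X => x) (A.supp.D i)}, A.supp.D i) := by
    have : (⋃ i ∈ {i | Contracted (fun x : A.X => x) (A.supp.D i)}, A.supp.D i) = ∅ := by
      ext x; simp [hnc]
    rw [this]
    exact ⟨fun x => ⟨x, rfl⟩, fun x => HolMapAt.id x, fun x => x,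
      fun y _ => ⟨rfl, HolMapAt.id y⟩, fun w _ => ⟨by simp, rfl⟩⟩
  exact ⟨
  { W := A.X
    manifoldW := A.isManifold
    Y := A.X
    complexY := A.isManifold.isComplexSpace
    ι := A.J
    P := A.supp
    p := fun x => x
    q := fun x => x
    p_modification := hmod
    q_modification := hmod
    p_kahler := fun k hk => ⟨fun _ => 0, k, fun _ => le_rfl, fun _ _ => rfl, hk,
      fun _ => 0, fun x => ⟨fun _ => 0, HolSpace.hol_const 0 x,
        Eventually.of_forall fun y _ => by simp⟩⟩
    inv_contracts_none := fun i hi => hi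
    mult := fun i j => if i = j then 1 else 0
    pullback_eq := fun j w => ⟨fun _ => 1, HolSpace.hol_const 1 w, one_ne_zero,
      Eventually.of_forall fun w' => by
        rw [one_mul, Finset.prod_eq_single j]
        · simp
        · intro i _ hij
          simp [hij]
        · intro h; exact absurd (Finset.mem_univ j) h⟩
    strict := fun j => j
    mult_strict := fun j => by simp
    not_contracted_strict := hnc
    mult_eq_zero := fun i j _ hij => by simp [hij]
    κ := κ
    canonical_κ := hκ
    γ := γ
    adjoint_γ := ⟨κ, hκ, hcl⟩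
    BW := A.b
    BW_eq := fun i _ => by simp
    crepant_X := hcl
    γm := γ
    nef_γm := hnef
    Bm := A.b
    Bm_eq := fun i _ => by simp
    crepant_Y := hcl
    discrepancy := fun i _ hi => absurd hi (hnc i) }⟩

end Pool.Agent.helper90.KMMP
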