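import Pool.Agent.helper90.KMMP.Ext

/-!
# Consequences of the existence of a weak log terminal model: topology
-/

open scoped Topology ContDiff
open Set Filter Metric MeasureTheory

namespace Pool.Agent.helper90.KMMP

attribute [instance] WeakLogTerminalModel.topW WeakLogTerminalModel.holW
  WeakLogTerminalModel.compactW WeakLogTerminalModel.t2W WeakLogTerminalModel.connectedW
  WeakLogTerminalModel.topY WeakLogTerminalModel.holY WeakLogTerminalModel.compactY
  WeakLogTerminalModel.t2Y WeakLogTerminalModel.finι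

namespace SNC

variable {n : ℕ} {J X : Type} [TopologicalSpace X] [HolSpace X] (P : SNC n J X)

theorem eq_zero_iff (j : J) (x : X) : x ∈ P.D j ↔ P.eq j x x = 0 :=
  (P.mem_iff j x).self_of_nhds

theorem not_eventually_mem (j : J) (x : X) : ¬ ∀ᶠ y in 𝓝 x, y ∈ P.D j := by
  intro h
  have hx : x ∈ P.D j := h.self_of_nhds
  obtain ⟨e, k, he, hxe, _, heq⟩ := P.snc x
  have h1 := heq j hx
  have h2 : ∀ᶠ y in 𝓝 x, e y (k j) = 0 := by
    filter_upwards [h, h1, P.mem_iff j x] with y hy hy1 hy2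
    rw [← hy1]
    exact hy2.1 hy
  have h3 : ∀ᶠ v in 𝓝 (e x), v (k j) = 0 := by
    rw [← e.map_nhds_eq hxe]
    exact h2
  have h4 : e x (k j) = 0 := h3.self_of_nhds
  have h5 : Tendsto (fun t : ℂ => e x + (Pi.single (k j) t : Fin n → ℂ)) (𝓝 0) (𝓝 (e x)) := by
    have : Continuous (fun t : ℂ => e x + (Pi.single (k j) t : Fin n → ℂ)) :=
      continuous_const.add (continuous_single (A := fun _ : Fin n => ℂ) (k j))
    have h6 := this.tendsto 0
    simpa using h6
  have h6 : ∀ᶠ t : ℂ in 𝓝 0, t = 0 := by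
    filter_upwards [h5.eventually h3] with t ht
    simp only [Pi.add_apply, Pi.single_eq_same, h4, zero_add] at ht
    exact ht
  have h7 : ∀ᶠ t : ℂ in 𝓝[≠] 0, t = 0 := h6.filter_mono nhdsWithin_le_nhds
  have h8 : ∀ᶠ t : ℂ in 𝓝[≠] 0, t ≠ 0 := self_mem_nhdsWithin
  obtain ⟨t, ht, ht'⟩ := (h7.and h8).exists
  exact ht' ht

theorem dense_compl (j : J) : Dense (P.D j)ᶜ := by
  intro x
  rw [mem_closure_iff_frequently]
  intro h
  apply P.not_eventually_mem j x
  filter_upwards [h] with y hy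
  by_contra h'
  exact hy h'

theorem isOpen_compl (j : J) : IsOpen (P.D j)ᶜ := (P.isClosed j).isOpen_compl

theorem isClosed_iUnion [Finite J] : IsClosed (⋃ j, P.D j) := isClosed_iUnion_of_finite P.isClosed

theorem dense_compl_iUnion [Finite J] [BaireSpace X] : Dense (⋃ j, P.D j)ᶜ := by
  rw [compl_iUnion]
  exact dense_iInter_of_isOpen P.isOpen_compl P.dense_compl

end SNC

namespace WeakLogTerminalModel

variable {n : ℕ} {A : GkltPair n} (M : WeakLogTerminalModel A)

/-- the union of all components -/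
def Dl : Set M.W := ⋃ i, M.P.D i

/-- the `p`-exceptional locus -/
def exP : Set M.W := ⋃ i ∈ {i | Contracted M.p (M.P.D i)}, M.P.D i

/-- complement of the image of all components in `X` -/
def good : Set A.X := (M.p '' M.Dl)ᶜ

/-- `F = B_W - B^m_W` -/
def F (i : M.ι) : ℝ := M.BW i - M.Bm i

/-- `G = p^* B - F` -/
noncomputable def G (i : M.ι) : ℝ := ∑ j, A.b j * M.mult i j - M.F i

theorem F_eq_zero {i : M.ι} (hi : ¬ Contracted M.q (M.P.D i)) : M.F i = 0 := by
  have hp : ¬ Contracted M.p (M.P.D i) := fun h => hi (M.inv_contracts_none i h)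
  rw [F, M.BW_eq i hp, M.Bm_eq i hi, sub_self]

theorem F_pos {i : M.ι} (hp : ¬ Contracted M.p (M.P.D i)) (hq : Contracted M.q (M.P.D i)) :
    0 < M.F i := by
  have := M.discrepancy i hp hq
  rw [F]
  linarith

theorem exP_subset_Dl : M.exP ⊆ M.Dl := by
  intro w hw
  simp only [exP, mem_iUnion] at hw
  obtain ⟨i, _, hi⟩ := hw
  exact mem_iUnion.2 ⟨i, hi⟩

theorem isClosed_Dl : IsClosed M.Dl := M.P.isClosed_iUnion

theorem isClosed_exP : IsClosed M.exP := by
  apply Set.Finite.isClosed_biUnion (Set.toFinite _)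
  intro i _
  exact M.P.isClosed i

theorem dense_compl_Dl : Dense M.Dlᶜ := M.P.dense_compl_iUnion

theorem continuous_p : Continuous M.p :=
  continuous_iff_continuousAt.2 fun w => (M.p_modification.2.1 w).1

theorem continuous_q : Continuous M.q :=
  continuous_iff_continuousAt.2 fun w => (M.q_modification.2.1 w).1

theorem holMapAt_p (w : M.W) : HolMapAt M.p w := M.p_modification.2.1 w

theorem holMapAt_q (w : M.W) : HolMapAt M.q w := M.q_modification.2.1 w

theorem surjective_p : Function.Surjective M.p := M.p_modification.1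

theorem isClosed_image_exP : IsClosed (M.p '' M.exP) :=
  (M.isClosed_exP.isCompact.image M.continuous_p).isClosed

theorem isOpen_good : IsOpen M.good :=
  (M.isClosed_Dl.isCompact.image M.continuous_p).isClosed.isOpen_compl

/-- the inverse of `p` -/
theorem exists_inverse : ∃ g : A.X → M.W, (∀ y, y ∉ M.p '' M.exP → M.p (g y) = y ∧ HolMapAt g y ∧
    g y ∉ M.exP) ∧ (∀ w, w ∉ M.exP → M.p w ∉ M.p '' M.exP ∧ g (M.p w) = w) ∧
    (∀ y ∈ M.good, g y ∉ M.Dl ∧ y ∉ M.p '' M.exP) ∧ (∀ w, w ∉ M.Dl → M.p w ∈ M.good) := by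
  obtain ⟨_, _, g, hg1, hg2⟩ := M.p_modification
  have h1 : ∀ y, y ∉ M.p '' M.exP → M.p (g y) = y ∧ HolMapAt g y ∧ g y ∉ M.exP := by
    intro y hy
    obtain ⟨h1, h2⟩ := hg1 y hy
    refine ⟨h1, h2, fun h => hy ?_⟩
    rw [← h1]
    exact mem_image_of_mem _ h
  refine ⟨g, h1, hg2, ?_, ?_⟩
  · intro y hy
    have h2 : y ∉ M.p '' M.exP := fun h => hy (image_mono M.exP_subset_Dl h)
    refine ⟨fun h => hy ?_, h2⟩
    rw [← (h1 y h2).1]
    exact mem_image_of_mem _ h
  · rintro w hw ⟨w', hw', h⟩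
    have hwe : w ∉ M.exP := fun h => hw (M.exP_subset_Dl h)
    obtain ⟨h3, h4⟩ := hg2 w hwe
    have hwe' : w' ∉ M.exP := by
      intro h5
      exact h3 (by rw [← h]; exact mem_image_of_mem _ h5)
    obtain ⟨_, h5⟩ := hg2 w' hwe'
    rw [h] at h5
    rw [h4] at h5
    rw [h5] at hw
    exact hw hw'

theorem dense_good : Dense M.good := by
  obtain ⟨g, _, _, _, h4⟩ := M.exists_inverse
  have h := M.surjective_p.denseRange.dense_image M.continuous_p M.dense_compl_Dl
  apply h.mono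
  rintro _ ⟨w, hw, rfl⟩
  exact h4 w hw

/-- away from the exceptional locus `p` is a local homeomorphism -/
theorem map_nhds_p {w : M.W} (hw : w ∉ M.exP) : map M.p (𝓝 w) = 𝓝 (M.p w) := by
  obtain ⟨g, h1, h2, _, _⟩ := M.exists_inverse
  apply le_antisymm (M.continuous_p.tendsto w)
  obtain ⟨h3, h4⟩ := h2 w hw
  have hg : Tendsto g (𝓝 (M.p w)) (𝓝 w) := by
    have := (h1 _ h3).2.1.1.tendsto
    rwa [h4] at this
  have h5 : ∀ᶠ y in 𝓝 (M.p w), (M.p ∘ g) y = id y := by
    filter_upwards [M.isClosed_image_exP.isOpen_compl.mem_nhds h3] with y hy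
    exact (h1 y hy).1
  calc 𝓝 (M.p w) = map (M.p ∘ g) (𝓝 (M.p w)) := by
        rw [Filter.map_congr h5, Filter.map_id]
    _ = map M.p (map g (𝓝 (M.p w))) := by rw [Filter.map_map]
    _ ≤ map M.p (𝓝 w) := Filter.map_mono hg

end WeakLogTerminalModel

end Pool.Agent.helper90.KMMP
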