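import Pool.Agent.helper90.KMMP.WS0

/-!
# Consequences of the existence of a weak log terminal model: class identities
-/

open scoped Topology ContDiff
open Set Filter Metric MeasureTheory

namespace Pool.Agent.helper90.KMMP

theorem analyticAt_det {n : ℕ} (L₀ : (Fin n → ℂ) →L[ℂ] (Fin n → ℂ)) :
    AnalyticAt ℂ (fun L : (Fin n → ℂ) →L[ℂ] (Fin n → ℂ) => L.det) L₀ := by
  have h1 : (fun L : (Fin n → ℂ) →L[ℂ] (Fin n → ℂ) => L.det) = fun L =>
      ∑ σ : Equiv.Perm (Fin n), (Equiv.Perm.sign σ : ℤ) • ∏ i, (L (Pi.single i 1)) (σ i) := by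
    ext L
    rw [ContinuousLinearMap.det, ← LinearMap.det_toMatrix', Matrix.det_apply]
    apply Finset.sum_congr rfl
    intro σ _
    rw [Units.smul_def]
    congr 1
  rw [h1]
  apply Finset.analyticAt_fun_sum
  intro σ _
  have h2 : ∀ c : ℤ, ∀ f : ((Fin n → ℂ) →L[ℂ] (Fin n → ℂ)) → ℂ, AnalyticAt ℂ f L₀ →
      AnalyticAt ℂ (fun L => c • f L) L₀ := by
    intro c f hf
    have : (fun L => c • f L) = fun L => (c : ℂ) * f L := by
      ext L
      simp
    rw [this]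
    exact analyticAt_const.mul hf
  apply h2
  apply Finset.analyticAt_fun_prod
  intro i _
  have h3 : AnalyticAt ℂ (fun L : (Fin n → ℂ) →L[ℂ] (Fin n → ℂ) =>
      ((ContinuousLinearMap.proj (σ i) : (Fin n → ℂ) →L[ℂ] ℂ).comp
        (ContinuousLinearMap.apply ℂ (Fin n → ℂ) (Pi.single i 1 : Fin n → ℂ))) L) L₀ :=
    ContinuousLinearMap.analyticAt _ _
  exact h3

variable {X : Type} [TopologicalSpace X] [HolSpace X]

theorem hol_add' {f g : X → ℂ} {x : X} (hf : Hol f x) (hg : Hol g x) :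
    Hol (fun y => f y + g y) x := HolSpace.hol_add hf hg

/-- transition maps are analytic -/
theorem IsHolChart.analyticAt_trans {n : ℕ} {a b : OpenPartialHomeomorph X (Fin n → ℂ)}
    (ha : IsHolChart a) (hb : IsHolChart b) {y : X} (hya : y ∈ a.source) (hyb : y ∈ b.source) :
    AnalyticAt ℂ (fun v => b (a.symm v)) (a y) := by
  apply HolMapAt.analyticAt
  have h1 : HolMapAt a.symm (a y) := ha.holMapAt_symm (a.map_source hya)
  have h2 : HolMapAt b (a.symm (a y)) := by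
    rw [a.left_inv hya]
    exact hb.holMapAt hyb
  exact h2.comp h1

omit [HolSpace X] in
theorem eventually_symm {n : ℕ} {a : OpenPartialHomeomorph X (Fin n → ℂ)} {y : X}
    (hya : y ∈ a.source) {s : X → Prop} (hs : ∀ᶠ z in 𝓝 y, s z) : ∀ᶠ v in 𝓝 (a y), s (a.symm v) := by
  have h := a.continuousAt_symm (a.map_source hya)
  rw [ContinuousAt, a.left_inv hya] at h
  exact h.eventually hs

theorem det_chain {n : ℕ} {a b c : OpenPartialHomeomorph X (Fin n → ℂ)}
    (ha : IsHolChart a) (hb : IsHolChart b) (hc : IsHolChart c) {y : X} (hya : y ∈ a.source)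
    (hyb : y ∈ b.source) (hyc : y ∈ c.source) :
    (fderiv ℂ (fun v => c (a.symm v)) (a y)).det =
      (fderiv ℂ (fun v => c (b.symm v)) (b y)).det *
        (fderiv ℂ (fun v => b (a.symm v)) (a y)).det := by
  have h1 : (fun v => c (a.symm v)) =ᶠ[𝓝 (a y)] (fun v => c (b.symm v)) ∘ (fun v => b (a.symm v)) := by
    filter_upwards [eventually_symm hya (b.open_source.mem_nhds hyb)] with v hv
    simp only [Function.comp_apply]
    rw [b.left_inv hv]
  have hab := (ha.analyticAt_trans hb hya hyb).differentiableAt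
  have hbc := (hb.analyticAt_trans hc hyb hyc).differentiableAt
  have h2 : b (a.symm (a y)) = b y := by rw [a.left_inv hya]
  rw [h1.fderiv_eq, fderiv_comp _ (by rw [h2]; exact hbc) hab, h2]
  simp only [ContinuousLinearMap.det, ContinuousLinearMap.toLinearMap_comp, LinearMap.det_comp]

omit [HolSpace X] in
theorem det_self {n : ℕ} {a : OpenPartialHomeomorph X (Fin n → ℂ)} {y : X} (hya : y ∈ a.source) :
    (fderiv ℂ (fun v => a (a.symm v)) (a y)).det = 1 := by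
  have h1 : (fun v => a (a.symm v)) =ᶠ[𝓝 (a y)] fun v => v := by
    filter_upwards [a.open_target.mem_nhds (a.map_source hya)] with v hv
    exact a.right_inv hv
  rw [h1.fderiv_eq, fderiv_fun_id, ContinuousLinearMap.det]
  simp

theorem det_ne_zero {n : ℕ} {a b : OpenPartialHomeomorph X (Fin n → ℂ)}
    (ha : IsHolChart a) (hb : IsHolChart b) {y : X} (hya : y ∈ a.source)
    (hyb : y ∈ b.source) : (fderiv ℂ (fun v => b (a.symm v)) (a y)).det ≠ 0 := by
  have h := det_chain ha hb ha hya hyb hya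
  rw [det_self hya] at h
  intro h0
  rw [h0, mul_zero] at h
  exact one_ne_zero h

/-- The canonical class is unique. -/
theorem isCanonical_unique {n : ℕ} {X : Type} [TopologicalSpace X] [HolSpace X] {κ κ' : LocPot X}
    (hκ : IsCanonical n κ) (hκ' : IsCanonical n κ') :
    ∃ h : X → ℝ, ∀ x, ∃ F : X → ℂ, Hol F x ∧ ∀ᶠ y in 𝓝 x,
      κ.pot x y = κ'.pot x y + h y + (F y).re := by
  obtain ⟨e, he, hpot⟩ := hκ
  obtain ⟨e', he', hpot'⟩ := hκ'
  have hX : IsComplexManifold X n := fun x => ⟨e x, (he x).1, (he x).2⟩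
  refine ⟨fun z => κ.pot z z - κ'.pot z z -
    Real.log ‖(fderiv ℂ (fun v => e' z ((e z).symm v)) (e z z)).det‖, fun x => ?_⟩
  have hHol : Hol (fun z => (fderiv ℂ (fun v => e' x ((e x).symm v)) (e x z)).det) x := by
    rw [(he x).1 x (he x).2]
    have h1 : AnalyticAt ℂ (fun w => (fderiv ℂ (fun v => e' x ((e x).symm v)) w).det) (e x x) := by
      have h2 := ((he x).1.analyticAt_trans (he' x).1 (he x).2 (he' x).2).fderiv
      exact (analyticAt_det _).comp h2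
    apply h1.congr
    filter_upwards [(e x).open_target.mem_nhds ((e x).map_source (he x).2)] with v hv
    rw [(e x).right_inv hv]
  have hne := det_ne_zero (he x).1 (he' x).1 (he x).2 (he' x).2
  obtain ⟨F, hF, hFe⟩ := phAt_log hX hHol hne
  refine ⟨F, hF, ?_⟩
  filter_upwards [hFe, hpot x, hpot' x, (e x).open_source.mem_nhds (he x).2,
    (e' x).open_source.mem_nhds (he' x).2] with y h1 h2 h3 h4 h5
  have h2' := h2.self_of_nhds
  have h3' := h3.self_of_nhds
  rw [← h1]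
  have hc1 := det_chain (he x).1 (he y).1 (he' y).1 h4 (he y).2 (he' y).2
  have hc2 := det_chain (he x).1 (he' x).1 (he' y).1 h4 h5 (he' y).2
  have n1 := det_ne_zero (he x).1 (he y).1 h4 (he y).2
  have n2 := det_ne_zero (he y).1 (he' y).1 (he y).2 (he' y).2
  have n3 := det_ne_zero (he x).1 (he' x).1 h4 h5
  have n4 := det_ne_zero (he' x).1 (he' y).1 h5 (he' y).2
  rw [hc1] at hc2
  have hlog := congrArg (fun z : ℂ => Real.log ‖z‖) hc2
  simp only [norm_mul] at hlog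
  rw [Real.log_mul (norm_ne_zero_iff.2 n2) (norm_ne_zero_iff.2 n1),
    Real.log_mul (norm_ne_zero_iff.2 n4) (norm_ne_zero_iff.2 n3)] at hlog
  linarith

namespace WeakLogTerminalModel

variable {n : ℕ} {A : GkltPair n} (M : WeakLogTerminalModel A)

theorem isComplexSpace_W : IsComplexSpace M.W := M.manifoldW.isComplexSpace

theorem eventually_eq_ne_zero (w : M.W) :
    ∀ᶠ w' in 𝓝 w, w' ∉ M.Dl → ∀ i, M.P.eq i w w' ≠ 0 := by
  have h : ∀ᶠ w' in 𝓝 w, ∀ i, (w' ∈ M.P.D i ↔ M.P.eq i w w' = 0) := by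
    rw [eventually_all]
    exact fun i => M.P.mem_iff i w
  filter_upwards [h] with w' h1 h2 i h3
  exact h2 (mem_iUnion.2 ⟨i, (h1 i).2 h3⟩)

/-- pull back of `log |eq_j|` to `W` -/
theorem log_pullback (j : A.J) (w : M.W) :
    ∃ Fu : M.W → ℂ, Hol Fu w ∧ ∀ᶠ w' in 𝓝 w, w' ∉ M.Dl → (M.p w' ∉ A.supp.D j ∧
      Real.log ‖A.supp.eq j (M.p w) (M.p w')‖ =
        ∑ i, (M.mult i j : ℝ) * Real.log ‖M.P.eq i w w'‖ + (Fu w').re) := by
  obtain ⟨u, hu, hu0, heq⟩ := M.pullback_eq j w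
  obtain ⟨Fu, hFu, hFue⟩ := phAt_log M.manifoldW hu hu0
  refine ⟨Fu, hFu, ?_⟩
  have hu0' : ∀ᶠ w' in 𝓝 w, u w' ≠ 0 := (Hol.continuousAt M.isComplexSpace_W hu).eventually_ne hu0
  have hmem : ∀ᶠ w' in 𝓝 w, (M.p w' ∈ A.supp.D j ↔ A.supp.eq j (M.p w) (M.p w') = 0) :=
    (M.holMapAt_p w).1.eventually (A.supp.mem_iff j (M.p w))
  filter_upwards [heq, hFue, hu0', hmem, M.eventually_eq_ne_zero w] with w' h1 h2 h3 h4 h5 h6
  have h7 := h5 h6
  have hprod : ∏ i, M.P.eq i w w' ^ M.mult i j ≠ 0 :=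
    Finset.prod_ne_zero_iff.2 fun i _ => pow_ne_zero _ (h7 i)
  refine ⟨fun h8 => ?_, ?_⟩
  · rw [h4, h1] at h8
    exact mul_ne_zero h3 hprod h8
  · rw [h1, norm_mul, Real.log_mul (norm_ne_zero_iff.2 h3) (norm_ne_zero_iff.2 hprod), norm_prod,
      Real.log_prod (fun i _ => norm_ne_zero_iff.2 (pow_ne_zero _ (h7 i))), ← h2, add_comm]
    congr 1
    apply Finset.sum_congr rfl
    intro i _
    rw [norm_pow, Real.log_pow]

/-- the class identity on `W` -/
theorem ident_zero (κX : LocPot A.X) (hκ : IsCanonical n κX) :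
    ∃ h : M.W → ℝ, ∀ w, ∃ Fh : M.W → ℂ, Hol Fh w ∧ ∀ᶠ w' in 𝓝 w, w' ∉ M.Dl →
      M.γm.pot (M.q w) (M.q w') = κX.pot (M.p w) (M.p w') + A.β.pot (M.p w) (M.p w') + h w' +
        ∑ i, M.G i * Real.log ‖M.P.eq i w w'‖ + (Fh w').re := by
  obtain ⟨κA, hκA, h3, hh3⟩ := M.adjoint_γ
  obtain ⟨h4, hh4⟩ := isCanonical_unique hκA hκ
  obtain ⟨h1, hh1⟩ := M.crepant_X
  obtain ⟨h2, hh2⟩ := M.crepant_Y
  refine ⟨fun w' => h2 w' - h1 w' + h3 (M.p w') + h4 (M.p w'), fun w => ?_⟩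
  obtain ⟨F1, hF1, e1⟩ := hh1 w
  obtain ⟨F2, hF2, e2⟩ := hh2 w
  obtain ⟨F3, hF3, e3⟩ := hh3 (M.p w)
  obtain ⟨F4, hF4, e4⟩ := hh4 (M.p w)
  choose Fu hFu e5 using fun j => M.log_pullback j w
  have hFsum : Hol (fun w' => ∑ j, (A.b j : ℂ) * Fu j w') w :=
    Hol.sum fun j _ => Hol.const_mul _ (hFu j)
  have e3' := (M.holMapAt_p w).1.eventually e3
  have e4' := (M.holMapAt_p w).1.eventually e4
  have e5' : ∀ᶠ w' in 𝓝 w, ∀ j, w' ∉ M.Dl → (M.p w' ∉ A.supp.D j ∧
      Real.log ‖A.supp.eq j (M.p w) (M.p w')‖ =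
        ∑ i, (M.mult i j : ℝ) * Real.log ‖M.P.eq i w w'‖ + (Fu j w').re) :=
    eventually_all.2 e5
  refine ⟨fun w' => F2 w' - F1 w' + F3 (M.p w') + F4 (M.p w') + ∑ j, (A.b j : ℂ) * Fu j w',
    hol_add' (hol_add' (hol_add' (Hol.sub hF2 hF1) ((M.holMapAt_p w).2 _ hF3))
      ((M.holMapAt_p w).2 _ hF4)) hFsum, ?_⟩
  filter_upwards [e1, e2, e3', e4', e5'] with w' a1 a2 a3 a4 a5 hw'
  have hD : ∀ i, w' ∉ M.P.D i := fun i h => hw' (mem_iUnion.2 ⟨i, h⟩)
  have b1 := a1 hD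
  have b2 := a2 hD
  have b3 := a3 fun j => (a5 j hw').1
  have b5 := fun j => (a5 j hw').2
  rw [b2]
  rw [b1, a4] at b3
  simp only [b5] at b3
  have hs : ∑ j, A.b j * (∑ i, (M.mult i j : ℝ) * Real.log ‖M.P.eq i w w'‖ + (Fu j w').re) =
      ∑ i, (∑ j, A.b j * M.mult i j) * Real.log ‖M.P.eq i w w'‖ + ∑ j, A.b j * (Fu j w').re := by
    simp only [mul_add, Finset.sum_add_distrib, Finset.mul_sum, Finset.sum_mul]
    congr 1
    rw [Finset.sum_comm]
    apply Finset.sum_congr rfl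
    intro i _
    apply Finset.sum_congr rfl
    intro j _
    ring
  rw [hs] at b3
  have hG : ∑ i, M.G i * Real.log ‖M.P.eq i w w'‖ =
      ∑ i, (∑ j, A.b j * M.mult i j) * Real.log ‖M.P.eq i w w'‖ -
        ∑ i, M.BW i * Real.log ‖M.P.eq i w w'‖ + ∑ i, M.Bm i * Real.log ‖M.P.eq i w w'‖ := by
    rw [← Finset.sum_sub_distrib, ← Finset.sum_add_distrib]
    apply Finset.sum_congr rfl
    intro i _
    rw [G, F]
    ring
  rw [hG]
  have hre : (∑ j, (A.b j : ℂ) * Fu j w').re = ∑ j, A.b j * (Fu j w').re := by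
    rw [Complex.re_sum]
    apply Finset.sum_congr rfl
    intro j _
    rw [Complex.re_ofReal_mul]
  simp only [Complex.add_re, Complex.sub_re, hre]
  linarith

end WeakLogTerminalModel

end Pool.Agent.helper90.KMMP
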