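import Pool.Agent.helper90.KMMP.WS1

/-!
# Consequences of the existence of a weak log terminal model: psh representatives
-/

open scoped Topology ContDiff
open Set Filter Metric MeasureTheory

namespace Pool.Agent.helper90.KMMP

/-! ### convex functions are psh -/

theorem circleAverage_eq_setAverage {E : Type*} [NormedAddCommGroup E] [NormedSpace ℝ E]
    (f : ℂ → E) (c : ℂ) (R : ℝ) : Real.circleAverage f c R =
      ⨍ θ in Ioc 0 (2 * Real.pi), f (circleMap c R θ) := by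
  rw [Real.circleAverage_def, setAverage_eq,
    intervalIntegral.integral_of_le (by positivity)]
  congr 1
  rw [Measure.real, Real.volume_Ioc, ENNReal.toReal_ofReal (by linarith [Real.pi_pos]), sub_zero]

theorem jensen_circle {N : ℕ} {s : Set (Fin N → ℂ)} {φ : (Fin N → ℂ) → ℝ} (hs : IsClosed s)
    (hφ : ConvexOn ℝ s φ) (hc : ContinuousOn φ s) {c : ℂ → (Fin N → ℂ)}
    (hcs : ∀ t ∈ closedBall (0 : ℂ) 1, c t ∈ s ∧ AnalyticAt ℂ c t) :
    φ (c 0) ≤ Real.circleAverage (fun t => φ (c t)) 0 1 := by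
  have h1 : DiffContOnCl ℂ c (ball 0 |1|) := by
    apply DifferentiableOn.diffContOnCl
    intro t ht
    have : t ∈ closedBall (0 : ℂ) 1 := by
      have := closure_ball_subset_closedBall ht
      simpa using this
    exact (hcs t this).2.differentiableAt.differentiableWithinAt
  have h2 := h1.circleAverage
  rw [← h2, circleAverage_eq_setAverage, circleAverage_eq_setAverage]
  have hmem : ∀ θ : ℝ, circleMap 0 1 θ ∈ closedBall (0 : ℂ) 1 := fun θ => by
    apply sphere_subset_closedBall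
    exact circleMap_mem_sphere _ zero_le_one θ
  have hcont : Continuous (fun θ : ℝ => c (circleMap 0 1 θ)) := by
    rw [continuous_iff_continuousAt]
    intro θ
    exact ((hcs _ (hmem θ)).2.continuousAt).comp (continuous_circleMap 0 1).continuousAt
  have hcont2 : Continuous (fun θ : ℝ => φ (c (circleMap 0 1 θ))) :=
    hc.comp_continuous hcont fun θ => (hcs _ (hmem θ)).1
  apply hφ.map_set_average_le hc hs
  · rw [Real.volume_Ioc]
    simp [Real.pi_pos]
  · rw [Real.volume_Ioc]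
    exact ENNReal.ofReal_ne_top
  · exact Eventually.of_forall fun θ => (hcs _ (hmem θ)).1
  · exact hcont.integrableOn_Ioc
  · exact hcont2.integrableOn_Ioc

theorem pshAt_of_convexOn {N : ℕ} {φ : (Fin N → ℂ) → ℝ} {v₀ : Fin N → ℂ} {r : ℝ} (hr : 0 < r)
    (hφ : ConvexOn ℝ (closedBall v₀ r) φ) (hc : ContinuousOn φ (closedBall v₀ r)) :
    PshAt (fun v => (φ v : EReal)) v₀ := by
  have hcont : ∀ᶠ y in 𝓝 v₀, ContinuousAt φ y := by
    filter_upwards [isOpen_ball.mem_nhds (mem_ball_self hr)] with y hy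
    exact hc.continuousAt (mem_of_superset (isOpen_ball.mem_nhds hy) ball_subset_closedBall)
  rw [pshAt_coe_iff hcont]
  refine ⟨closedBall v₀ r, closedBall_mem_nhds v₀ hr, fun c hcU => ?_⟩
  exact jensen_circle isClosed_closedBall hφ hc fun t ht =>
    ⟨(hcU t ht).1, (hcU t ht).2.analyticAt_C⟩

/-! ### smooth functions are differences of convex functions -/

theorem sum_sq_convex {N : ℕ} (x y : Fin N → ℂ) {a b : ℝ} (hab : a + b = 1) :
    a * ∑ i, ‖x i‖ ^ 2 + b * ∑ i, ‖y i‖ ^ 2 - ∑ i, ‖(a • x + b • y) i‖ ^ 2 =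
      a * b * ∑ i, ‖(x - y) i‖ ^ 2 := by
  rw [Finset.mul_sum, Finset.mul_sum, Finset.mul_sum, ← Finset.sum_add_distrib,
    ← Finset.sum_sub_distrib]
  apply Finset.sum_congr rfl
  intro i _
  have hb : b = 1 - a := by linarith
  subst hb
  simp only [← Complex.normSq_eq_norm_sq, Complex.normSq_apply, Pi.add_apply, Pi.smul_apply,
    Pi.sub_apply, Complex.add_re, Complex.add_im, Complex.real_smul, Complex.re_ofReal_mul,
    Complex.im_ofReal_mul, Complex.sub_re, Complex.sub_im]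
  ring

theorem sq_norm_le_sum {N : ℕ} (v : Fin N → ℂ) : ‖v‖ ^ 2 ≤ ∑ i, ‖v i‖ ^ 2 := by
  have h0 : 0 ≤ ∑ i, ‖v i‖ ^ 2 := Finset.sum_nonneg fun i _ => by positivity
  have h : ‖v‖ ≤ Real.sqrt (∑ i, ‖v i‖ ^ 2) := by
    rw [pi_norm_le_iff_of_nonneg (Real.sqrt_nonneg _)]
    intro i
    apply Real.le_sqrt_of_sq_le
    exact Finset.single_le_sum (f := fun i => ‖v i‖ ^ 2) (fun i _ => by positivity)
      (Finset.mem_univ i)
  calc ‖v‖ ^ 2 ≤ Real.sqrt (∑ i, ‖v i‖ ^ 2) ^ 2 := by gcongr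
    _ = _ := Real.sq_sqrt h0

theorem exists_convexOn {N : ℕ} {Ψ : (Fin N → ℂ) → ℝ} {v₀ : Fin N → ℂ}
    (hΨ : ContDiffAt ℝ 2 Ψ v₀) : ∃ (C r : ℝ), 0 < r ∧ ContinuousOn Ψ (closedBall v₀ r) ∧
      ∀ C', C ≤ C' → ConvexOn ℝ (closedBall v₀ r) fun v => C' * ∑ i, ‖v i‖ ^ 2 - Ψ v := by
  have h1 : ContDiffAt ℝ 1 (fderiv ℝ Ψ) v₀ := hΨ.fderiv_right (by norm_num)
  obtain ⟨K, t, ht, hK⟩ := h1.exists_lipschitzOnWith
  have h2 : ∀ᶠ v in 𝓝 v₀, DifferentiableAt ℝ Ψ v := by
    filter_upwards [hΨ.eventually (by norm_num)] with v hv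
    exact hv.differentiableAt (by norm_num)
  obtain ⟨r, hr, hrt⟩ := nhds_basis_closedBall.mem_iff.1 (inter_mem ht h2)
  have hdiff : ∀ v ∈ closedBall v₀ r, DifferentiableAt ℝ Ψ v := fun v hv => (hrt hv).2
  have hcont : ContinuousOn Ψ (closedBall v₀ r) := fun v hv =>
    (hdiff v hv).continuousAt.continuousWithinAt
  have htay : ∀ x ∈ closedBall v₀ r, ∀ z ∈ closedBall v₀ r,
      ‖Ψ x - Ψ z - fderiv ℝ Ψ z (x - z)‖ ≤ (K * ‖x - z‖) * ‖x - z‖ := by
    intro x hx z hz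
    have hseg : segment ℝ z x ⊆ closedBall v₀ r :=
      (convex_closedBall v₀ r).segment_subset hz hx
    apply (convex_segment (𝕜 := ℝ) z x).norm_image_sub_le_of_norm_fderiv_le' (𝕜 := ℝ)
      (fun w hw => hdiff w (hseg hw)) _ (left_mem_segment ℝ z x) (right_mem_segment ℝ z x)
    intro w hw
    have h3 := hK.norm_sub_le (hrt (hseg hw)).1 (hrt hz).1
    refine h3.trans ?_
    gcongr
    obtain ⟨a, b, ha, hb, hab, rfl⟩ := hw
    have : a • z + b • x - z = b • (x - z) := by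
      have : a = 1 - b := by linarith
      rw [this]
      module
    rw [this, norm_smul, Real.norm_of_nonneg hb]
    have : b ≤ 1 := by linarith
    nlinarith [norm_nonneg (x - z)]
  refine ⟨K, r, hr, hcont, fun C' hC' => ⟨convex_closedBall v₀ r, ?_⟩⟩
  intro x hx y hy a b ha hb hab
  have hz : a • x + b • y ∈ closedBall v₀ r := convex_closedBall v₀ r hx hy ha hb hab
  have hxz := htay x hx _ hz
  have hyz := htay y hy _ hz
  have e1 : x - (a • x + b • y) = b • (x - y) := by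
    have : a = 1 - b := by linarith
    rw [this]
    module
  have e2 : y - (a • x + b • y) = -(a • (x - y)) := by
    have : b = 1 - a := by linarith
    rw [this]
    module
  rw [e1] at hxz
  rw [e2] at hyz
  rw [norm_smul, Real.norm_of_nonneg hb, map_smul] at hxz
  rw [norm_neg, norm_smul, Real.norm_of_nonneg ha, map_neg, map_smul] at hyz
  set L := fderiv ℝ Ψ (a • x + b • y) (x - y) with hL
  set z := a • x + b • y with hzdef
  set d := ‖x - y‖ with hd
  have hx' := (abs_le.1 ((Real.norm_eq_abs _).symm.le.trans hxz)).2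
  have hy' := (abs_le.1 ((Real.norm_eq_abs _).symm.le.trans hyz)).2
  simp only [smul_eq_mul] at hx' hy' ⊢
  have hkey : a * Ψ x + b * Ψ y - Ψ z ≤ K * (a * b * d ^ 2) := by
    have h3 : a * (Ψ x - Ψ z - b * L) ≤ a * (K * (b * d) * (b * d)) :=
      mul_le_mul_of_nonneg_left hx' ha
    have h4 : b * (Ψ y - Ψ z - -(a * L)) ≤ b * (K * (a * d) * (a * d)) :=
      mul_le_mul_of_nonneg_left hy' hb
    have h5 : a * Ψ x + b * Ψ y - Ψ z = a * (Ψ x - Ψ z - b * L) + b * (Ψ y - Ψ z - -(a * L)) := by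
      have : a = 1 - b := by linarith
      rw [this]
      ring
    rw [h5]
    have h6 : a * (K * (b * d) * (b * d)) + b * (K * (a * d) * (a * d)) =
        K * (a * b * d ^ 2) * (a + b) := by ring
    rw [hab, mul_one] at h6
    linarith
  have hsum := sum_sq_convex x y hab
  have hsq := sq_norm_le_sum (x - y)
  rw [← hd] at hsq
  have hab0 : 0 ≤ a * b := mul_nonneg ha hb
  have h7 : (K : ℝ) * (a * b * d ^ 2) ≤ C' * (a * b * ∑ i, ‖(x - y) i‖ ^ 2) := by
    have h8 : a * b * d ^ 2 ≤ a * b * ∑ i, ‖(x - y) i‖ ^ 2 :=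
      mul_le_mul_of_nonneg_left hsq hab0
    have h9 : 0 ≤ a * b * d ^ 2 := by positivity
    calc (K : ℝ) * (a * b * d ^ 2) ≤ C' * (a * b * d ^ 2) :=
          mul_le_mul_of_nonneg_right hC' h9
      _ ≤ _ := mul_le_mul_of_nonneg_left h8 (K.2.trans hC')
  have h10 : C' * ∑ i, ‖z i‖ ^ 2 = C' * (a * ∑ i, ‖x i‖ ^ 2 + b * ∑ i, ‖y i‖ ^ 2) -
      C' * (a * b * ∑ i, ‖(x - y) i‖ ^ 2) := by
    rw [← hsum]
    ring
  rw [h10]
  linarith

theorem continuous_sum_sq {N : ℕ} : Continuous fun v : Fin N → ℂ => ∑ i, ‖v i‖ ^ 2 :=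
  continuous_finsetSum _ fun i _ => ((continuous_apply i).norm.pow 2)

/-- a smooth function becomes psh after adding a large multiple of `|v|²` and a sign change -/
theorem exists_pshAt_sub {N : ℕ} {Ψ : (Fin N → ℂ) → ℝ} {v₀ : Fin N → ℂ}
    (hΨ : ContDiffAt ℝ 2 Ψ v₀) : ∃ C : ℝ, ∀ C', C ≤ C' →
      PshAt (fun v => ((C' * ∑ i, ‖v i‖ ^ 2 - Ψ v : ℝ) : EReal)) v₀ := by
  obtain ⟨C, r, hr, hc, h⟩ := exists_convexOn hΨ
  refine ⟨C, fun C' hC' => ?_⟩
  exact pshAt_of_convexOn hr (h C' hC')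
    (((continuous_const.mul continuous_sum_sq).continuousOn).sub hc)

theorem pshAt_sum_sq {N : ℕ} {δ : ℝ} (hδ : 0 ≤ δ) (v₀ : Fin N → ℂ) :
    PshAt (fun v => ((δ * ∑ i, ‖v i‖ ^ 2 : ℝ) : EReal)) v₀ := by
  have h : ConvexOn ℝ (closedBall v₀ 1) fun v : Fin N → ℂ => δ * ∑ i, ‖v i‖ ^ 2 := by
    refine ⟨convex_closedBall _ _, ?_⟩
    intro x _ y _ a b ha hb hab
    have := sum_sq_convex x y hab
    simp only [smul_eq_mul]
    have h2 : 0 ≤ δ * (a * b * ∑ i, ‖(x - y) i‖ ^ 2) := by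
      have : 0 ≤ ∑ i, ‖(x - y) i‖ ^ 2 := Finset.sum_nonneg fun i _ => by positivity
      positivity
    rw [← this] at h2
    linarith
  exact pshAt_of_convexOn one_pos h (continuous_const.mul continuous_sum_sq).continuousOn

end Pool.Agent.helper90.KMMP
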