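import Pool.Agent.helper90.KMMP.WS2

/-!
# Consequences of the existence of a weak log terminal model: domination lemma
-/

open scoped Topology ContDiff
open Set Filter Metric MeasureTheory

namespace Pool.Agent.helper90.KMMP

variable {X Y W : Type} [TopologicalSpace X] [HolSpace X] [TopologicalSpace Y] [HolSpace Y]
  [TopologicalSpace W] [HolSpace W]

/-- the embedding of a local model is holomorphic -/
theorem LocalModel.holMapAt {x : X} (m : LocalModel X x) {y : X} (hy : y ∈ m.U) :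
    HolMapAt m.e y := by
  refine ⟨?_, fun g hg => (m.hol_iff y hy _).2 ⟨g, hg, EventuallyEq.rfl⟩⟩
  have h1 : ContinuousOn m.e m.U := continuousOn_iff_continuous_domRestrict.2 m.isEmbedding.continuous
  exact h1.continuousAt (m.isOpen_U.mem_nhds hy)

theorem LocalModel.eventually_holMapAt {x : X} (m : LocalModel X x) :
    ∀ᶠ y in 𝓝 x, HolMapAt m.e y := by
  filter_upwards [m.isOpen_U.mem_nhds m.mem_U] with y hy
  exact m.holMapAt hy

theorem SmoothStrictlyPshAt.pshAt {u : X → ℝ} {x : X} (hu : SmoothStrictlyPshAt u x) :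
    PshAt (fun y => (u y : EReal)) x := by
  obtain ⟨m, Φ, δ, hδ, _, hpsh, heq⟩ := hu
  have h1 := hpsh.add_coe (pshAt_sum_sq hδ.le (m.e x))
    (Eventually.of_forall fun y => (continuous_const.mul continuous_sum_sq).continuousAt)
  have h2 : PshAt (fun v => (Φ v : EReal)) (m.e x) := by
    apply h1.congr
    apply Eventually.of_forall
    intro v
    simp only
    rw [← EReal.coe_add]
    congr 1
    ring
  have h3 : PshAt (fun y => (Φ (m.e y) : EReal)) x := h2.comp m.eventually_holMapAt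
  apply h3.congr
  filter_upwards [heq] with y hy
  rw [hy]

theorem SmoothStrictlyPshAt.continuousAt {u : X → ℝ} {x : X} (hu : SmoothStrictlyPshAt u x) :
    ∀ᶠ y in 𝓝 x, ContinuousAt u y := by
  obtain ⟨m, Φ, δ, hδ, hΦ, hpsh, heq⟩ := hu
  have h1 : ∀ᶠ v in 𝓝 (m.e x), ContinuousAt Φ v := by
    have h2 : ContDiffAt ℝ 1 Φ (m.e x) := hΦ.of_le (by norm_cast)
    filter_upwards [h2.eventually (by norm_num)] with v hv
    exact hv.continuousAt
  have h3 := (m.holMapAt m.mem_U).1.eventually h1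
  filter_upwards [h3, heq.eventually_nhds, m.isOpen_U.mem_nhds m.mem_U] with y h4 h5 h6
  have h7 : ContinuousAt (fun y => Φ (m.e y)) y := ContinuousAt.comp (f := m.e) h4 (m.holMapAt h6).1
  exact h7.congr (EventuallyEq.symm h5)

/-- Domination lemma: `C u - uY ∘ q` is psh for `C` large. -/
theorem domination {u : W → ℝ} {w : W} (hu : SmoothStrictlyPshAt u w) {uY : Y → ℝ} {q : W → Y}
    (huY : SmoothStrictlyPshAt uY (q w)) (hq : HolMapAt q w) :
    ∃ C₀ : ℝ, ∀ C, C₀ ≤ C → PshAt (fun w' => ((C * u w' - uY (q w') : ℝ) : EReal)) w := by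
  obtain ⟨m, Φ, δ, hδ, hΦ, hpsh, heq⟩ := hu
  obtain ⟨mY, ΦY, δY, hδY, hΦY, hpshY, heqY⟩ := huY
  -- the map `mY.e ∘ q` factors through `m.e`
  have hcomp : ∀ i, ∃ F : (Fin m.N → ℂ) → ℂ, AnalyticAt ℂ F (m.e w) ∧
      (fun w' => mY.e (q w') i) =ᶠ[𝓝 w] fun w' => F (m.e w') := by
    intro i
    have h1 : Hol (fun y => mY.e y i) (q w) :=
      (mY.hol_iff _ mY.mem_U _).2 ⟨fun v => v i,
        (ContinuousLinearMap.proj (R := ℂ) (φ := fun _ : Fin mY.N => ℂ) i).analyticAt _,
        EventuallyEq.rfl⟩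
    exact (m.hol_iff _ m.mem_U _).1 (hq.2 _ h1)
  choose F hF hFe using hcomp
  have hFe' : ∀ᶠ w' in 𝓝 w, mY.e (q w') = fun i => F i (m.e w') := by
    filter_upwards [eventually_all.2 hFe] with w' hw'
    ext i
    exact hw' i
  have hF0 : (fun i => F i (m.e w)) = mY.e (q w) := hFe'.self_of_nhds.symm
  have hFsm : ContDiffAt ℝ 2 (fun v i => F i v) (m.e w) := by
    rw [contDiffAt_pi]
    intro i
    exact (hF i).restrictScalars.contDiffAt
  have hΨ : ContDiffAt ℝ 2 (fun v => ΦY (fun i => F i v)) (m.e w) := by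
    have h2 : ContDiffAt ℝ 2 ΦY (fun i => F i (m.e w)) := by
      rw [hF0]
      exact hΦY.of_le (by norm_cast)
    exact ContDiffAt.comp (m.e w) h2 hFsm
  obtain ⟨C₁, hC₁⟩ := exists_pshAt_sub hΨ
  refine ⟨max (C₁ / δ) 0, fun C hC => ?_⟩
  have hC0 : 0 ≤ C := (le_max_right _ _).trans hC
  have hC1 : C₁ ≤ C * δ := by
    have := (le_max_left _ _).trans hC
    rwa [div_le_iff₀ hδ] at this
  have h3 := hC₁ _ hC1
  have h4 := PshAt.const_mul hC0 hpsh
  -- continuity
  have hFcont : ∀ᶠ v in 𝓝 (m.e w), ContinuousAt (fun v => ΦY (fun i => F i v)) v := by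
    filter_upwards [hΨ.eventually (by norm_num)] with v hv
    exact hv.continuousAt
  have h5 := h4.add_coe h3 (by
    filter_upwards [hFcont] with v hv
    exact ((continuous_const.mul continuous_sum_sq).continuousAt).sub hv)
  have h6 : PshAt (fun v => ((C * Φ v - ΦY (fun i => F i v) : ℝ) : EReal)) (m.e w) := by
    apply h5.congr
    apply Eventually.of_forall
    intro v
    simp only
    rw [← EReal.coe_add]
    congr 1
    ring
  have h7 := h6.comp m.eventually_holMapAt
  apply h7.congr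
  filter_upwards [heq, hFe', hq.1.eventually heqY] with w' a1 a2 a3
  rw [a1, a3, a2]

theorem PHAt.eventually_continuousAt (hX : IsComplexSpace X) {u : X → ℝ} {x : X} (hu : PHAt u x) :
    ∀ᶠ y in 𝓝 x, ContinuousAt u y := by
  filter_upwards [hu.eventually] with y hy
  exact hy.continuousAt hX

/-- adding a pluriharmonic function -/
theorem PshAt.add_ph {n : ℕ} (hX : IsComplexManifold X n) {u : X → EReal} {v : X → ℝ} {x : X}
    (hu : PshAt u x) (hv : PHAt v x) : PshAt (fun y => u y + v y) x :=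
  hu.add_coe (hv.pshAt hX) (hv.eventually_continuousAt hX.isComplexSpace)

/-- real version -/
theorem PshAt.add_ph_real {n : ℕ} (hX : IsComplexManifold X n) {u v w : X → ℝ} {x : X}
    (hu : PshAt (fun y => (u y : EReal)) x) (hv : PHAt v x) (h : ∀ᶠ y in 𝓝 x, w y = u y + v y) :
    PshAt (fun y => (w y : EReal)) x := by
  apply (hu.add_ph hX hv).congr
  filter_upwards [h] with y hy
  rw [hy, EReal.coe_add]

theorem PshAt.add_real {u v w : X → ℝ} {x : X}
    (hu : PshAt (fun y => (u y : EReal)) x) (hv : PshAt (fun y => (v y : EReal)) x)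
    (hvc : ∀ᶠ y in 𝓝 x, ContinuousAt v y) (h : ∀ᶠ y in 𝓝 x, w y = u y + v y) :
    PshAt (fun y => (w y : EReal)) x := by
  apply (hu.add_coe hv hvc).congr
  filter_upwards [h] with y hy
  rw [hy, EReal.coe_add]

/-- The class `[u] + [h]` of a Kähler class on a compact manifold `W` dominates pull backs. -/
theorem domination_compact {n : ℕ} (hWm : IsComplexManifold W n) [CompactSpace W] {uW : LocPot W}
    {hW : W → ℝ}
    (huW : ∀ w, SmoothStrictlyPshAt (fun w' => uW.pot w w' + hW w') w) {uY : LocPot Y} {hY : Y → ℝ}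
    (huY : ∀ y, SmoothStrictlyPshAt (fun y' => uY.pot y y' + hY y') y) {q : W → Y}
    (hq : ∀ w, HolMapAt q w) : ∃ C : ℝ, 0 ≤ C ∧ ∀ w, PshAt (fun w' =>
      ((C * (uW.pot w w' + hW w') - (uY.pot (q w) (q w') + hY (q w')) : ℝ) : EReal)) w := by
  -- change of base point
  have hPH : ∀ (C : ℝ) (w : W), ∀ᶠ w' in 𝓝 w, PshAt (fun z =>
      ((C * (uW.pot w z + hW z) - (uY.pot (q w) (q z) + hY (q z)) : ℝ) : EReal)) w' →
      PshAt (fun z =>
        ((C * (uW.pot w' z + hW z) - (uY.pot (q w') (q z) + hY (q z)) : ℝ) : EReal)) w' := by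
    intro C w
    filter_upwards [uW.compat w, (hq w).1.eventually (uY.compat (q w))] with w' h1 h2 h3
    have h4 : PHAt (fun z => uY.pot (q w) (q z) - uY.pot (q w') (q z)) w' := h2.comp (hq w')
    apply h3.add_ph_real hWm ((h1.const_mul (-C)).add h4)
    apply Eventually.of_forall
    intro z
    ring
  -- local constants
  have hloc : ∀ w, ∃ C₀ : ℝ, ∀ᶠ w' in 𝓝 w, ∀ C, C₀ ≤ C → PshAt (fun z =>
        ((C * (uW.pot w' z + hW z) - (uY.pot (q w') (q z) + hY (q z)) : ℝ) : EReal)) w' := by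
    intro w
    obtain ⟨C₀, hC₀⟩ := domination (huW w) (huY (q w)) (hq w)
    refine ⟨C₀, ?_⟩
    filter_upwards [(hC₀ C₀ le_rfl).eventually, hPH C₀ w] with w' h1 h2 C hC
    have h3 := h2 h1
    have h4 : PshAt (fun z => (((C - C₀) * (uW.pot w' z + hW z) : ℝ) : EReal)) w' :=
      PshAt.const_mul (sub_nonneg.2 hC) (huW w').pshAt
    apply h3.add_real h4
    · filter_upwards [(huW w').continuousAt] with z hz
      exact continuousAt_const.mul hz
    · apply Eventually.of_forall
      intro z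
      ring
  choose C₀ hC₀ using hloc
  obtain ⟨t, ht⟩ := CompactSpace.elim_nhds_subcover (fun w => {w' | ∀ C, C₀ w ≤ C → PshAt (fun z =>
        ((C * (uW.pot w' z + hW z) - (uY.pot (q w') (q z) + hY (q z)) : ℝ) : EReal)) w'}) hC₀
  obtain ⟨C, hC⟩ : ∃ C : ℝ, 0 ≤ C ∧ ∀ w ∈ t, C₀ w ≤ C := by
    refine ⟨∑ w ∈ t, |C₀ w|, Finset.sum_nonneg fun _ _ => abs_nonneg _, fun w hw => ?_⟩
    exact (le_abs_self _).trans (Finset.single_le_sum (f := fun w => |C₀ w|)
      (fun _ _ => abs_nonneg _) hw)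
  refine ⟨C, hC.1, fun w => ?_⟩
  have hw : w ∈ ⋃ x ∈ t, {w' | ∀ C, C₀ x ≤ C → PshAt (fun z =>
        ((C * (uW.pot w' z + hW z) - (uY.pot (q w') (q z) + hY (q z)) : ℝ) : EReal)) w'} := by
    rw [ht]
    trivial
  simp only [mem_iUnion] at hw
  obtain ⟨x, hx, hw⟩ := hw
  exact hw C (hC.2 x hx)

namespace WeakLogTerminalModel

variable {n : ℕ} {A : GkltPair n} (M : WeakLogTerminalModel A)

/-- `Ψ` is a psh representative of the class `q^* γm + ε ω`, and `h` the corresponding function: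
`Ψ = K_X + β + ε k + h + ∑ (G_i - ε H_i) [P_i]`. -/
structure EpsData (κX k : LocPot A.X) (H : M.ι → ℝ) (ε : ℝ) (h : M.W → ℝ) (Ψ : LocPot M.W) :
    Prop where
  psh : ∀ w, PshAt (fun w' => (Ψ.pot w w' : EReal)) w
  ident : ∀ w, ∃ Fh : M.W → ℂ, Hol Fh w ∧ ∀ᶠ w' in 𝓝 w, w' ∉ M.Dl →
      Ψ.pot w w' = κX.pot (M.p w) (M.p w') + A.β.pot (M.p w) (M.p w') +
        ε * k.pot (M.p w) (M.p w') + h w' +
        ∑ i, (M.G i - ε * H i) * Real.log ‖M.P.eq i w w'‖ + (Fh w').re

/-- Nefness of `γm` gives psh representatives on `W`. Uses the domination lemma: if `ω` is smooth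
strictly psh on a manifold and `Φ` is a smooth function on `ℂ^N`, `f` holomorphic with values in
`ℂ^N`, then `C ω - Φ ∘ f` is psh for `C` large; and compactness of `W`. -/
theorem exists_epsData (κX : LocPot A.X) (hκ : IsCanonical n κX) (k : LocPot A.X)
    (hk : IsKahler k) :
    ∃ H : M.ι → ℝ, (∀ i, 0 ≤ H i) ∧ (∀ i, ¬ Contracted M.p (M.P.D i) → H i = 0) ∧
      ∀ ε : ℝ, 0 < ε → ∃ (h : M.W → ℝ) (Ψ : LocPot M.W), M.EpsData κX k H ε h Ψ := by
  obtain ⟨H, kW, hH0, hH, ⟨hW, hWc, hkW⟩, h5, hh5⟩ := M.p_kahler k hk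
  refine ⟨H, hH0, hH, fun ε hε => ?_⟩
  obtain ⟨kY, ⟨hY, hYc, hkY⟩, hnef⟩ := M.nef_γm
  obtain ⟨C, hC0, hC⟩ := domination_compact M.manifoldW hkW hkY M.holMapAt_q
  obtain ⟨h0, hh0⟩ := M.ident_zero κX hκ
  set ε' := ε / (C + 1) with hε'
  have hC1 : 0 < C + 1 := by linarith
  have hε'0 : 0 < ε' := div_pos hε hC1
  have hε'C : ε' * C ≤ ε := by
    rw [hε', div_mul_eq_mul_div, div_le_iff₀ hC1]
    nlinarith
  obtain ⟨hn, hnc, hnpsh⟩ := hnef ε' hε'0
  have hqc := M.continuous_q
  -- the potential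
  have hcontW : ∀ w, ∀ᶠ w' in 𝓝 w, ContinuousAt (kW.pot w) w' := kW.cont
  have hcontγ : ∀ w, ∀ᶠ w' in 𝓝 w, ContinuousAt (fun z => M.γm.pot (M.q w) (M.q z)) w' := by
    intro w
    filter_upwards [(hqc.tendsto w).eventually (M.γm.cont (M.q w))] with w' hw'
    exact ContinuousAt.comp (f := M.q) hw' hqc.continuousAt
  let Ψ : LocPot M.W :=
    { pot := fun w w' => M.γm.pot (M.q w) (M.q w') + hn (M.q w') +
        ε * (kW.pot w w' + hW w') - ε' * hY (M.q w')
      cont := by
        intro w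
        filter_upwards [hcontW w, hcontγ w] with w' h1 h2
        exact ((h2.add (hnc.comp hqc).continuousAt).add
          (continuousAt_const.mul (h1.add hWc.continuousAt))).sub
          (continuousAt_const.mul (hYc.comp hqc).continuousAt)
      compat := by
        intro w
        filter_upwards [kW.compat w, (hqc.tendsto w).eventually (M.γm.compat (M.q w))]
          with w' h1 h2
        have h3 : PHAt (fun z => M.γm.pot (M.q w) (M.q z) - M.γm.pot (M.q w') (M.q z)) w' :=
          h2.comp (M.holMapAt_q w')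
        apply ((h3.add (h1.const_mul ε))).congr
        apply Eventually.of_forall
        intro z
        simp only
        ring }
  refine ⟨fun w' => h0 w' + ε * h5 w' + hn (M.q w') + ε * hW w' - ε' * hY (M.q w'), Ψ, ?_, ?_⟩
  · intro w
    have h1 : PshAt (fun w' => ((M.γm.pot (M.q w) (M.q w') + ε' * kY.pot (M.q w) (M.q w') +
        hn (M.q w') : ℝ) : EReal)) w :=
      (hnpsh (M.q w)).pshAt.comp (Eventually.of_forall fun w' => M.holMapAt_q w')
    have h2 := PshAt.const_mul hε'0.le (hC w)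
    have h3 := PshAt.const_mul (sub_nonneg.2 hε'C) (hkW w).pshAt
    have hkYc : ∀ᶠ w' in 𝓝 w, ContinuousAt (fun z => kY.pot (M.q w) (M.q z)) w' := by
      filter_upwards [(hqc.tendsto w).eventually (kY.cont (M.q w))] with w' hw'
      exact ContinuousAt.comp (f := M.q) hw' hqc.continuousAt
    have h4 : PshAt (fun w' => ((M.γm.pot (M.q w) (M.q w') + ε' * kY.pot (M.q w) (M.q w') +
        hn (M.q w') + ε' * (C * (kW.pot w w' + hW w') - (kY.pot (M.q w) (M.q w') + hY (M.q w'))) :
        ℝ) : EReal)) w := by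
      apply h1.add_real h2
      · filter_upwards [hkYc, hcontW w] with w' a1 a2
        exact continuousAt_const.mul ((continuousAt_const.mul (a2.add hWc.continuousAt)).sub
          (a1.add (hYc.comp hqc).continuousAt))
      · exact Eventually.of_forall fun _ => rfl
    apply h4.add_real h3
    · filter_upwards [hcontW w] with w' a2
      exact continuousAt_const.mul (a2.add hWc.continuousAt)
    · apply Eventually.of_forall
      intro w'
      simp only [Ψ]
      ring
  · intro w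
    obtain ⟨F0, hF0, e0⟩ := hh0 w
    obtain ⟨F5, hF5, e5⟩ := hh5 w
    refine ⟨fun w' => F0 w' + (ε : ℂ) * F5 w', hol_add' hF0 (Hol.const_mul _ hF5), ?_⟩
    filter_upwards [e0, e5] with w' a0 a5 hw'
    have b0 := a0 hw'
    have b5 := a5 fun i h => hw' (mem_iUnion.2 ⟨i, h⟩)
    simp only [Ψ]
    rw [b0, b5]
    have hs : ∑ i, (M.G i - ε * H i) * Real.log ‖M.P.eq i w w'‖ =
        ∑ i, M.G i * Real.log ‖M.P.eq i w w'‖ + ε * ∑ i, - H i * Real.log ‖M.P.eq i w w'‖ := by
      rw [Finset.mul_sum, ← Finset.sum_add_distrib]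
      apply Finset.sum_congr rfl
      intro i _
      ring
    rw [hs, Complex.add_re, Complex.re_ofReal_mul]
    ring

end WeakLogTerminalModel

end Pool.Agent.helper90.KMMP
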