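import Pool.Agent.helper90.KMMP.WS3

/-!
# Consequences of the existence of a weak log terminal model: thin images
-/

open scoped Topology ContDiff
open Set Filter Metric MeasureTheory

namespace Pool.Agent.helper90.KMMP

variable {X Y W : Type} [TopologicalSpace X] [HolSpace X] [TopologicalSpace Y] [HolSpace Y]
  [TopologicalSpace W] [HolSpace W]

theorem HolMapAt.analyticAt_charts {n m : ℕ} {a : OpenPartialHomeomorph W (Fin n → ℂ)}
    (ha : IsHolChart a) {b : OpenPartialHomeomorph X (Fin m → ℂ)} (hb : IsHolChart b)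
    {p : W → X} {w : W} (hp : HolMapAt p w) (hw : w ∈ a.source) (hpw : p w ∈ b.source) :
    AnalyticAt ℂ (fun v => b (p (a.symm v))) (a w) := by
  apply HolMapAt.analyticAt
  have h1 : HolMapAt a.symm (a w) := ha.holMapAt_symm (a.map_source hw)
  have h2 : HolMapAt p (a.symm (a w)) := by rwa [a.left_inv hw]
  have h3 : HolMapAt b (p (a.symm (a w))) := by
    rw [a.left_inv hw]
    exact hb.holMapAt hpw
  exact HolMapAt.comp (f := fun v => p (a.symm v)) h3 (HolMapAt.comp (f := a.symm) h2 h1)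

theorem exists_kernel {n m : ℕ} {eW : OpenPartialHomeomorph W (Fin n → ℂ)} (heW : IsHolChart eW)
    {p : W → X} (hp : ∀ w, HolMapAt p w) {e : OpenPartialHomeomorph X (Fin m → ℂ)}
    (he : IsHolChart e) {P : Set W} (hP : Contracted p P) {w₀ : W} (hw₀ : w₀ ∈ P)
    (hsrc : w₀ ∈ eW.source) (hsrcX : p w₀ ∈ e.source) {k₀ : Fin n}
    (hk : ∀ᶠ z in 𝓝 w₀, z ∈ P → eW z k₀ = 0) :
    ∃ ξ : Fin n → ℂ, ξ ≠ 0 ∧ ξ k₀ = 0 ∧ fderiv ℂ (fun v => e (p (eW.symm v))) (eW w₀) ξ = 0 := by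
  by_contra hcon
  push Not at hcon
  obtain ⟨S, _, _, c, _, _, _, hS, hc, hcP, ⟨s₀, hs₀⟩, hnc, hconst⟩ := hP w₀ hw₀
  set Q : (Fin n → ℂ) → (Fin m → ℂ) := fun v => e (p (eW.symm v)) with hQdef
  have hQ : AnalyticAt ℂ Q (eW w₀) := (hp w₀).analyticAt_charts heW he hsrc hsrcX
  let K : (Fin n → ℂ) → ((Fin n → ℂ) →L[ℂ] ℂ × (Fin m → ℂ)) := fun v =>
    (ContinuousLinearMap.proj (R := ℂ) (φ := fun _ : Fin n => ℂ) k₀).prod (fderiv ℂ Q v)
  have hKc : ContinuousAt K (eW w₀) := by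
    have h1 : ContinuousAt (fderiv ℂ Q) (eW w₀) := hQ.fderiv.continuousAt
    have h2 : K = fun v => (ContinuousLinearMap.inl ℂ ℂ (Fin m → ℂ)).comp
        (ContinuousLinearMap.proj (R := ℂ) (φ := fun _ : Fin n => ℂ) k₀) +
        (ContinuousLinearMap.inr ℂ ℂ (Fin m → ℂ)).comp (fderiv ℂ Q v) := by
      ext v ξ i <;> simp [K]
    rw [h2]
    exact continuousAt_const.add (continuousAt_const.clm_comp h1)
  have hinj0 : Function.Injective (K (eW w₀)) := by
    rw [injective_iff_map_eq_zero]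
    intro ξ hξ
    by_contra hne
    have h1 : ξ k₀ = 0 := congrArg Prod.fst hξ
    have h2 : fderiv ℂ Q (eW w₀) ξ = 0 := congrArg Prod.snd hξ
    exact hcon ξ hne h1 h2
  have hinj : ∀ᶠ v in 𝓝 (eW w₀), Function.Injective (K v) :=
    hKc.eventually (ContinuousLinearMap.isOpen_injective.mem_nhds hinj0)
  -- the curve in charts
  obtain ⟨eS, heS, hsS⟩ := hS s₀
  have hcs : c s₀ ∈ eW.source := by rwa [hs₀]
  set c' : (Fin 1 → ℂ) → (Fin n → ℂ) := fun t => eW (c (eS.symm t)) with hc'def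
  have hc' : AnalyticAt ℂ c' (eS s₀) := (hc s₀).analyticAt_charts heS heW hsS hcs
  have hc'0 : c' (eS s₀) = eW w₀ := by
    rw [hc'def]
    simp only
    rw [eS.left_inv hsS, hs₀]
  have hcont : ContinuousAt (fun t => c (eS.symm t)) (eS s₀) := by
    have h1 := eS.continuousAt_symm (eS.map_source hsS)
    have h2 : ContinuousAt c (eS.symm (eS s₀)) := (hc _).1
    exact ContinuousAt.comp (f := eS.symm) h2 h1
  have hc0 : c (eS.symm (eS s₀)) = w₀ := by rw [eS.left_inv hsS, hs₀]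
  -- near `t₀`
  have hN1 : ∀ᶠ t in 𝓝 (eS s₀), c (eS.symm t) ∈ eW.source ∧ (c (eS.symm t) ∈ P → c' t k₀ = 0) := by
    have h1 : ∀ᶠ z in 𝓝 w₀, z ∈ eW.source ∧ (z ∈ P → eW z k₀ = 0) :=
      (eW.open_source.eventually_mem hsrc).and hk
    have h2 : Tendsto (fun t => c (eS.symm t)) (𝓝 (eS s₀)) (𝓝 w₀) := by
      have h3 := hcont.tendsto
      rwa [hc0] at h3
    exact h2.eventually h1
  have hN2 : ∀ᶠ t in 𝓝 (eS s₀), Function.Injective (K (c' t)) := by
    have h2 : ContinuousAt c' (eS s₀) := hc'.continuousAt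
    rw [ContinuousAt, hc'0] at h2
    exact h2.eventually hinj
  have hN3 : ∀ᶠ t in 𝓝 (eS s₀), AnalyticAt ℂ c' t := hc'.eventually_analyticAt
  have hN4 : ∀ᶠ t in 𝓝 (eS s₀), AnalyticAt ℂ Q (c' t) := by
    have h2 : ContinuousAt c' (eS s₀) := hc'.continuousAt
    rw [ContinuousAt, hc'0] at h2
    exact h2.eventually hQ.eventually_analyticAt
  have hzero : ∀ᶠ t in 𝓝 (eS s₀), DifferentiableAt ℂ c' t ∧ fderiv ℂ c' t = 0 := by
    filter_upwards [hN1.eventually_nhds, hN2, hN3, hN4] with t h1 h2 h3 h4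
    refine ⟨h3.differentiableAt, ?_⟩
    ext η : 1
    apply h2
    rw [_root_.zero_apply, map_zero]
    have e1 : (fderiv ℂ c' t η) k₀ = 0 := by
      have h5 : (fun t' => c' t' k₀) =ᶠ[𝓝 t] fun _ => (0 : ℂ) := by
        filter_upwards [h1] with t' ht'
        exact ht'.2 (hcP _)
      have h6 : HasFDerivAt (fun t' => c' t' k₀)
          ((ContinuousLinearMap.proj (R := ℂ) (φ := fun _ : Fin n => ℂ) k₀).comp (fderiv ℂ c' t)) t :=
        (ContinuousLinearMap.proj (R := ℂ) (φ := fun _ : Fin n => ℂ) k₀).hasFDerivAt.comp t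
          h3.differentiableAt.hasFDerivAt
      have h7 : HasFDerivAt (fun t' => c' t' k₀) (0 : (Fin 1 → ℂ) →L[ℂ] ℂ) t :=
        (hasFDerivAt_const (0 : ℂ) t).congr_of_eventuallyEq h5
      have h8 := h6.unique h7
      exact congrArg (fun L : (Fin 1 → ℂ) →L[ℂ] ℂ => L η) h8
    have e2 : fderiv ℂ Q (c' t) (fderiv ℂ c' t η) = 0 := by
      have h5 : (fun t' => Q (c' t')) =ᶠ[𝓝 t] fun _ => e (p w₀) := by
        filter_upwards [h1] with t' ht'
        simp only [hQdef, hc'def]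
        rw [eW.left_inv ht'.1, hconst _ s₀, hs₀]
      have h6 : HasFDerivAt (fun t' => Q (c' t')) ((fderiv ℂ Q (c' t)).comp (fderiv ℂ c' t)) t :=
        h4.differentiableAt.hasFDerivAt.comp t h3.differentiableAt.hasFDerivAt
      have h7 : HasFDerivAt (fun t' => Q (c' t')) (0 : (Fin 1 → ℂ) →L[ℂ] (Fin m → ℂ)) t :=
        (hasFDerivAt_const (e (p w₀)) t).congr_of_eventuallyEq h5
      have h8 := h6.unique h7
      exact congrArg (fun L : (Fin 1 → ℂ) →L[ℂ] (Fin m → ℂ) => L η) h8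
    exact Prod.ext e1 e2
  -- so `c` is locally constant
  obtain ⟨r, hr, hball⟩ := Metric.eventually_nhds_iff_ball.1 hzero
  have hconst' : ∀ t ∈ ball (eS s₀) r, c' t = c' (eS s₀) := by
    intro t ht
    apply isOpen_ball.is_const_of_fderiv_eq_zero (𝕜 := ℂ) (convex_ball (eS s₀) r).isPreconnected
      (fun t ht => (hball t ht).1.differentiableWithinAt) (fun t ht => (hball t ht).2) ht
      (mem_ball_self hr)
  apply hnc s₀
  have h1 : ∀ᶠ s in 𝓝 s₀, s ∈ eS.source := eS.open_source.eventually_mem hsS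
  have h2 : ∀ᶠ s in 𝓝 s₀, eS s ∈ ball (eS s₀) r :=
    (eS.continuousAt hsS).eventually (isOpen_ball.eventually_mem (mem_ball_self hr))
  have h3 : ∀ᶠ s in 𝓝 s₀, c (eS.symm (eS s)) ∈ eW.source :=
    (eS.continuousAt hsS).eventually (hN1.mono fun t ht => ht.1)
  filter_upwards [h1, h2, h3] with s a1 a2 a3
  have h4 := hconst' _ a2
  rw [hc'0] at h4
  have h5 : eW (c s) = eW w₀ := by
    rw [← h4, hc'def]
    simp only
    rw [eS.left_inv a1]
  rw [eS.left_inv a1] at a3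
  rw [hs₀]
  exact eW.injOn a3 hsrc h5

/-- replacing the `k`-th coordinate by `0` -/
noncomputable def zeroAt {n : ℕ} (k : Fin n) : (Fin n → ℂ) →L[ℝ] (Fin n → ℂ) :=
  ContinuousLinearMap.pi fun i => if i = k then 0 else ContinuousLinearMap.proj i

theorem zeroAt_apply {n : ℕ} (k : Fin n) (v : Fin n → ℂ) : zeroAt k v = Function.update v k 0 := by
  ext i
  rw [zeroAt, ContinuousLinearMap.pi_apply]
  by_cases h : i = k
  · subst h
    simp
  · simp [h]

theorem thin_local {n : ℕ} {eW : OpenPartialHomeomorph W (Fin n → ℂ)} (heW : IsHolChart eW)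
    {p : W → X} (hp : ∀ w, HolMapAt p w) {e : OpenPartialHomeomorph X (Fin n → ℂ)}
    (he : IsHolChart e) {P N : Set W} (hP : Contracted p P) (hNo : IsOpen N) (hN : N ⊆ eW.source)
    {k : Fin n} (hk : ∀ z ∈ N, z ∈ P → eW z k = 0) :
    Thin (e '' (p '' (P ∩ N) ∩ e.source)) := by
  intro D B hD hB
  set Q : (Fin n → ℂ) → (Fin n → ℂ) := fun v => e (p (eW.symm v)) with hQdef
  set S : Set (Fin n → ℂ) := {v | eW.symm (zeroAt k v) ∈ P ∩ N ∧ zeroAt k v ∈ eW.target ∧
    p (eW.symm (zeroAt k v)) ∈ e.source ∧ (v k, Q (zeroAt k v)) ∈ D} with hS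
  set R : (Fin n → ℂ) → (Fin n → ℂ) := fun v => B (v k, Q (zeroAt k v)) with hR
  have hsub : B '' (D ∩ univ ×ˢ (e '' (p '' (P ∩ N) ∩ e.source))) ⊆ R '' S := by
    rintro _ ⟨⟨τ, a⟩, ⟨hD', ⟨_, hx⟩⟩, rfl⟩
    simp only at hx
    obtain ⟨x, ⟨⟨w', hw', rfl⟩, hxs⟩, rfl⟩ := hx
    have h0 : eW w' k = 0 := hk w' hw'.2 hw'.1
    have h1 : zeroAt k (Function.update (eW w') k τ) = eW w' := by
      rw [zeroAt_apply, Function.update_idem]
      nth_rewrite 1 [← h0]
      exact Function.update_eq_self k (eW w')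
    have h2 : Q (eW w') = e (p w') := by
      rw [hQdef]
      simp only
      rw [eW.left_inv (hN hw'.2)]
    refine ⟨Function.update (eW w') k τ, ?_, ?_⟩
    · simp only [hS, mem_ofPred_eq]
      rw [h1, h2, eW.left_inv (hN hw'.2), Function.update_self]
      exact ⟨hw', eW.map_source (hN hw'.2), hxs, hD'⟩
    · simp only [hR]
      rw [h1, h2, Function.update_self]
  refine measure_mono_null hsub ?_
  let f' : (Fin n → ℂ) → ((Fin n → ℂ) →L[ℝ] (Fin n → ℂ)) := fun v =>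
    (fderiv ℝ B (v k, Q (zeroAt k v))).comp
      ((ContinuousLinearMap.proj (R := ℝ) (φ := fun _ : Fin n => ℂ) k).prod
        (((fderiv ℂ Q (zeroAt k v)).restrictScalars ℝ).comp (zeroAt k)))
  apply addHaar_image_eq_zero_of_det_fderivWithin_eq_zero (volume : Measure (Fin n → ℂ)) (f' := f')
  · intro v hv
    obtain ⟨hv1, hv2, hv3, hv4⟩ := hv
    apply HasFDerivAt.hasFDerivWithinAt
    have hQa : AnalyticAt ℂ Q (zeroAt k v) := by
      have h := (hp (eW.symm (zeroAt k v))).analyticAt_charts heW he (eW.map_target hv2) hv3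
      rwa [eW.right_inv hv2] at h
    have hB' : HasFDerivAt B (fderiv ℝ B (v k, Q (zeroAt k v))) (v k, Q (zeroAt k v)) :=
      ((hB.contDiffAt (hD.mem_nhds hv4)).differentiableAt (by norm_num)).hasFDerivAt
    have hQ' : HasFDerivAt Q ((fderiv ℂ Q (zeroAt k v)).restrictScalars ℝ) (zeroAt k v) :=
      hQa.differentiableAt.hasFDerivAt.restrictScalars ℝ
    have h1 : HasFDerivAt (fun v => (v k, Q (zeroAt k v)))
        ((ContinuousLinearMap.proj (R := ℝ) (φ := fun _ : Fin n => ℂ) k).prod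
        (((fderiv ℂ Q (zeroAt k v)).restrictScalars ℝ).comp (zeroAt k))) v :=
      ((ContinuousLinearMap.proj (R := ℝ) (φ := fun _ : Fin n => ℂ) k).hasFDerivAt).prodMk
        (hQ'.comp v (zeroAt k).hasFDerivAt)
    exact HasFDerivAt.comp (f := fun v => (v k, Q (zeroAt k v))) v hB' h1
  · intro v hv
    obtain ⟨hv1, hv2, hv3, hv4⟩ := hv
    have hkev : ∀ᶠ z in 𝓝 (eW.symm (zeroAt k v)), z ∈ P → eW z k = 0 := by
      filter_upwards [hNo.eventually_mem hv1.2] with z hz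
      exact hk z hz
    obtain ⟨ξ, hξ0, hξk, hξ⟩ := exists_kernel heW hp he hP hv1.1 (eW.map_target hv2) hv3 hkev
    rw [eW.right_inv hv2] at hξ
    rw [ContinuousLinearMap.det, LinearMap.det_eq_zero_iff_ker_ne_bot, Submodule.ne_bot_iff]
    refine ⟨ξ, ?_, hξ0⟩
    rw [LinearMap.mem_ker]
    have h1 : zeroAt k ξ = ξ := by
      rw [zeroAt_apply]
      nth_rewrite 1 [← hξk]
      exact Function.update_eq_self k ξ
    change (fderiv ℝ B (v k, Q (zeroAt k v))) (ξ k, fderiv ℂ Q (zeroAt k v) (zeroAt k ξ)) = 0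
    rw [h1, hξ, hξk]
    exact map_zero _

namespace WeakLogTerminalModel

variable {n : ℕ} {A : GkltPair n} (M : WeakLogTerminalModel A)

/-- the image of the `p`-exceptional divisors is thin -/
theorem thin_image (e : OpenPartialHomeomorph A.X (Fin n → ℂ)) (he : IsHolChart e) :
    Thin (e '' (M.p '' M.exP ∩ e.source)) := by
  have hloc : ∀ w : M.W, ∃ N : Set M.W, IsOpen N ∧ w ∈ N ∧ ∀ i, Contracted M.p (M.P.D i) →
      Thin (e '' (M.p '' (M.P.D i ∩ N) ∩ e.source)) := by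
    intro w
    obtain ⟨eW, k, heW, hw, _, hk⟩ := M.P.snc w
    have h1 : ∀ i, ∀ᶠ w' in 𝓝 w, (w ∈ M.P.D i → (w' ∈ M.P.D i → eW w' (k i) = 0)) ∧
        (w ∉ M.P.D i → w' ∉ M.P.D i) := by
      intro i
      by_cases hi : w ∈ M.P.D i
      · filter_upwards [hk i hi, M.P.mem_iff i w] with w' a1 a2
        exact ⟨fun _ h => by rw [← a1]; exact a2.1 h, fun h => absurd hi h⟩
      · filter_upwards [(M.P.isOpen_compl i).eventually_mem hi] with w' a1
        exact ⟨fun h => absurd h hi, fun _ => a1⟩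
    have h2 := (eventually_all.2 h1).and (eW.open_source.eventually_mem hw)
    obtain ⟨N, hN1, hN2, hN3⟩ := eventually_nhds_iff.1 h2
    refine ⟨N, hN2, hN3, fun i hi => ?_⟩
    by_cases hwi : w ∈ M.P.D i
    · exact thin_local heW M.holMapAt_p he hi hN2 (fun z hz => (hN1 z hz).2)
        (fun z hz hzP => ((hN1 z hz).1 i).1 hwi hzP)
    · have hempty : M.P.D i ∩ N = ∅ := by
        ext z
        constructor
        · rintro ⟨h3, h4⟩
          exact ((hN1 z h4).1 i).2 hwi h3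
        · intro h
          exact absurd h (notMem_empty z)
      rw [hempty]
      intro D B _ _
      simp
  choose N hN1 hN2 hN3 using hloc
  obtain ⟨t, ht⟩ := isCompact_univ.elim_nhds_subcover N fun w _ => (hN1 w).mem_nhds (hN2 w)
  have hthin : Thin (⋃ w : t, ⋃ i : {i | Contracted M.p (M.P.D i)},
      e '' (M.p '' (M.P.D i ∩ N w) ∩ e.source)) :=
    Thin.iUnion fun w => Thin.iUnion fun i => hN3 w i i.2
  apply hthin.mono
  rintro _ ⟨x, ⟨⟨w', hw', rfl⟩, hx⟩, rfl⟩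
  simp only [exP, mem_iUnion] at hw'
  obtain ⟨i, hi, hw'⟩ := hw'
  have h3 := ht.2 (mem_univ w')
  simp only [mem_iUnion] at h3
  obtain ⟨w, hwt, hw⟩ := h3
  simp only [mem_iUnion]
  exact ⟨⟨w, hwt⟩, ⟨i, hi⟩, mem_image_of_mem _ ⟨mem_image_of_mem _ ⟨hw', hw⟩, hx⟩⟩

end WeakLogTerminalModel

end Pool.Agent.helper90.KMMP
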