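import Pool.Agent.helper90.KMMP.WS4

/-!
# Consequences of the existence of a weak log terminal model: psh functions on `X`
-/

open scoped Topology ContDiff
open Set Filter Metric MeasureTheory

namespace Pool.Agent.helper90.KMMP

variable {X Y W : Type} [TopologicalSpace X] [HolSpace X] [TopologicalSpace Y] [HolSpace Y]
  [TopologicalSpace W] [HolSpace W]

theorem SNC.hol_eventually {n : ℕ} {J : Type} (P : SNC n J X) (j : J) (x : X) :
    ∀ᶠ y in 𝓝 x, Hol (P.eq j x) y := HolSpace.hol_eventually (P.hol j x)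

/-- there is a point of `D i₀` which is on no other component -/
theorem SNC.exists_generic_near {n : ℕ} {J : Type} [Finite J] (P : SNC n J X) (i₀ : J) :
    ∃ w ∈ P.D i₀, ∀ i, i ≠ i₀ → w ∉ P.D i := by
  obtain ⟨w₀, hw₀⟩ := (P.isConnected i₀).nonempty
  obtain ⟨e, k, he, hxe, hinj, hk⟩ := P.snc w₀
  have hloc : ∀ i, ∀ᶠ y in 𝓝 w₀, (w₀ ∈ P.D i → (y ∈ P.D i ↔ e y (k i) = 0)) ∧
      (w₀ ∉ P.D i → y ∉ P.D i) := by
    intro i
    by_cases hi : w₀ ∈ P.D i
    · filter_upwards [hk i hi, P.mem_iff i w₀] with y a1 a2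
      exact ⟨fun _ => by rw [a2, a1], fun h => absurd hi h⟩
    · filter_upwards [(P.isOpen_compl i).eventually_mem hi] with y a1
      exact ⟨fun h => absurd h hi, fun _ => a1⟩
  have hz : ∀ i, w₀ ∈ P.D i → e w₀ (k i) = 0 := fun i hi =>
    (((hloc i).self_of_nhds).1 hi).1 hi
  let v : ℂ → (Fin n → ℂ) := fun t => e w₀ + fun l => if l = k i₀ then 0 else t
  have hvc : Continuous v := by
    apply continuous_const.add
    apply continuous_pi
    intro l
    by_cases h : l = k i₀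
    · simp [h, continuous_const]
    · simp [h, continuous_id']
  have hv0 : v 0 = e w₀ := by
    ext l
    simp [v]
  have h1 : ∀ᶠ t in 𝓝 (0 : ℂ), v t ∈ e.target ∧ ∀ i,
      (w₀ ∈ P.D i → (e.symm (v t) ∈ P.D i ↔ e (e.symm (v t)) (k i) = 0)) ∧
      (w₀ ∉ P.D i → e.symm (v t) ∉ P.D i) := by
    have h2 : Tendsto v (𝓝 0) (𝓝 (e w₀)) := by
      have := hvc.tendsto 0
      rwa [hv0] at this
    exact (h2.eventually (e.open_target.eventually_mem (e.map_source hxe))).and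
      (h2.eventually (eventually_symm hxe (eventually_all.2 hloc)))
  have h3 : ∀ᶠ t in 𝓝[≠] (0 : ℂ), t ≠ 0 := self_mem_nhdsWithin
  obtain ⟨t, ⟨ht1, ht2⟩, ht3⟩ := ((h1.filter_mono nhdsWithin_le_nhds).and h3).exists
  have hval : e (e.symm (v t)) = v t := e.right_inv ht1
  refine ⟨e.symm (v t), ?_, ?_⟩
  · rw [(ht2 i₀).1 hw₀, hval]
    simp [v, hz i₀ hw₀]
  · intro i hi
    by_cases hwi : w₀ ∈ P.D i
    · rw [(ht2 i).1 hwi, hval]
      have hne : k i ≠ k i₀ := fun h => hi (hinj hwi hw₀ h)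
      simp [v, hz i hwi, hne, ht3]
    · exact (ht2 i).2 hwi

/-- `log |f|` is continuous where `f ≠ 0` -/
theorem continuousAt_log_norm {n : ℕ} (hX : IsComplexManifold X n) {f : X → ℂ} {x : X}
    (hf : Hol f x) (h0 : f x ≠ 0) : ContinuousAt (fun y => Real.log ‖f y‖) x :=
  (phAt_log hX hf h0).continuousAt hX.isComplexSpace

namespace WeakLogTerminalModel

variable {n : ℕ} {A : GkltPair n} (M : WeakLogTerminalModel A)

theorem G_nonpos {i : M.ι} (hi : ¬ Contracted M.p (M.P.D i)) (hs : ∀ j, i ≠ M.strict j) :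
    M.G i ≤ 0 := by
  have h1 : ∑ j, A.b j * (M.mult i j : ℝ) = 0 := by
    apply Finset.sum_eq_zero
    intro j _
    rw [M.mult_eq_zero i j hi (hs j)]
    simp
  rw [G, h1]
  by_cases hq : Contracted M.q (M.P.D i)
  · have := M.F_pos hi hq
    linarith
  · rw [M.F_eq_zero hq]
    simp

theorem disjoint_good (j : A.J) {y : A.X} (hy : y ∈ M.good) : y ∉ A.supp.D j := by
  intro h
  obtain ⟨w, rfl⟩ := M.surjective_p y
  apply hy
  refine mem_image_of_mem _ ?_
  by_contra hw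
  obtain ⟨Fu, _, h1⟩ := M.log_pullback j w
  exact (h1.self_of_nhds hw).1 h

/-- the properties of the inverse of `p` -/
structure IsInverse (g : A.X → M.W) : Prop where
  p_g : ∀ y, y ∉ M.p '' M.exP → M.p (g y) = y
  hol : ∀ y, y ∉ M.p '' M.exP → HolMapAt g y
  not_exP : ∀ y, y ∉ M.p '' M.exP → g y ∉ M.exP
  p_not : ∀ w, w ∉ M.exP → M.p w ∉ M.p '' M.exP
  g_p : ∀ w, w ∉ M.exP → g (M.p w) = w
  g_good : ∀ y ∈ M.good, g y ∉ M.Dl
  good_not : ∀ y ∈ M.good, y ∉ M.p '' M.exP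
  p_good : ∀ w, w ∉ M.Dl → M.p w ∈ M.good

theorem exists_isInverse : ∃ g, M.IsInverse g := by
  obtain ⟨g, h1, h2, h3, h4⟩ := M.exists_inverse
  exact ⟨g, fun y hy => (h1 y hy).1, fun y hy => (h1 y hy).2.1, fun y hy => (h1 y hy).2.2,
    fun w hw => (h2 w hw).1, fun w hw => (h2 w hw).2, fun y hy => (h3 y hy).1,
    fun y hy => (h3 y hy).2, h4⟩

variable {M}

theorem IsInverse.eventually_not {g : A.X → M.W} (_ : M.IsInverse g) {x : A.X}
    (hx : x ∉ M.p '' M.exP) : ∀ᶠ y in 𝓝 x, y ∉ M.p '' M.exP :=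
  M.isClosed_image_exP.isOpen_compl.eventually_mem hx

/-- the class identity near a point of `X` outside the image of the exceptional locus -/
theorem EpsData.local_formula {κX k : LocPot A.X} {H : M.ι → ℝ} {ε : ℝ} {h : M.W → ℝ}
    {Ψ : LocPot M.W} (hΨ : M.EpsData κX k H ε h Ψ) {hX : A.X → ℝ}
    (hhX : ∀ w, w ∉ M.Dl → hX (M.p w) = h w) {g : A.X → M.W} (hg : M.IsInverse g) {x : A.X}
    (hx : x ∉ M.p '' M.exP) :
    ∃ Fh : M.W → ℂ, Hol Fh (g x) ∧ ∀ᶠ y in 𝓝 x, y ∈ M.good →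
      κX.pot x y + A.β.pot x y + ε * k.pot x y + hX y =
        Ψ.pot (g x) (g y) - ∑ i, (M.G i - ε * H i) * Real.log ‖M.P.eq i (g x) (g y)‖ -
          (Fh (g y)).re := by
  obtain ⟨Fh, hFh, h1⟩ := hΨ.ident (g x)
  refine ⟨Fh, hFh, ?_⟩
  have h2 := (hg.hol x hx).1.eventually h1
  filter_upwards [h2, hg.eventually_not hx] with y h3 h4 h5
  have h6 := h3 (hg.g_good y h5)
  rw [hg.p_g x hx, hg.p_g y h4] at h6
  have h7 := hhX _ (hg.g_good y h5)
  rw [hg.p_g y h4] at h7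
  rw [h7, h6]
  ring

theorem EpsData.continuousOn {κX k : LocPot A.X} {H : M.ι → ℝ} {ε : ℝ} {h : M.W → ℝ}
    {Ψ : LocPot M.W} (hΨ : M.EpsData κX k H ε h Ψ) {hX : A.X → ℝ}
    (hhX : ∀ w, w ∉ M.Dl → hX (M.p w) = h w) : ContinuousOn hX M.good := by
  obtain ⟨g, hg⟩ := M.exists_isInverse
  intro x hx
  apply ContinuousAt.continuousWithinAt
  have hx' := hg.good_not x hx
  obtain ⟨Fh, hFh, h1⟩ := hΨ.local_formula hhX hg hx'
  have hgc := (hg.hol x hx').1
  have h2 : ContinuousAt (fun y => Ψ.pot (g x) (g y) -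
      ∑ i, (M.G i - ε * H i) * Real.log ‖M.P.eq i (g x) (g y)‖ -
          (Fh (g y)).re - (κX.pot x y + A.β.pot x y + ε * k.pot x y)) x := by
    have e1 : ContinuousAt (fun y => Ψ.pot (g x) (g y)) x :=
      ContinuousAt.comp (f := g) (Ψ.cont (g x)).self_of_nhds hgc
    have e2 : ContinuousAt (fun y => (Fh (g y)).re) x :=
      Complex.continuous_re.continuousAt.comp
        (ContinuousAt.comp (f := g) (Hol.continuousAt M.isComplexSpace_W hFh) hgc)
    have e3 : ContinuousAt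
        (fun y => ∑ i, (M.G i - ε * H i) * Real.log ‖M.P.eq i (g x) (g y)‖) x := by
      apply tendsto_finsetSum
      intro i _
      apply ContinuousAt.mul continuousAt_const
      have hne : M.P.eq i (g x) (g x) ≠ 0 := fun h0 =>
        hg.g_good x hx (mem_iUnion.2 ⟨i, (M.P.eq_zero_iff i (g x)).2 h0⟩)
      exact ContinuousAt.comp (f := g) (continuousAt_log_norm M.manifoldW (M.P.hol i (g x)) hne) hgc
    exact ((e1.sub e3).sub e2).sub (((κX.cont x).self_of_nhds.add (A.β.cont x).self_of_nhds).add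
      (continuousAt_const.mul (k.cont x).self_of_nhds))
  apply h2.congr
  filter_upwards [h1, M.isOpen_good.eventually_mem hx] with y h3 h4
  rw [← h3 h4]
  ring

end WeakLogTerminalModel

end Pool.Agent.helper90.KMMP
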