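import Pool.Agent.helper90.KMMP.WS5

/-!
# Consequences of the existence of a weak log terminal model: `psh_on_X`
-/

set_option linter.unusedVariables false

open scoped Topology ContDiff
open Set Filter Metric MeasureTheory

namespace Pool.Agent.helper90.KMMP

namespace WeakLogTerminalModel

variable {n : ℕ} {A : GkltPair n} (M : WeakLogTerminalModel A)

/-- coefficients on `W` -/
noncomputable def coefW (H : M.ι → ℝ) (ε : ℝ) (i : M.ι) : ℝ :=
  ∑ j, max (M.G (M.strict j)) 0 * (M.mult i j : ℝ) - (M.G i - ε * H i)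

theorem coefW_nonneg {H : M.ι → ℝ} (hH : ∀ i, ¬ Contracted M.p (M.P.D i) → H i = 0) {ε : ℝ}
    {i : M.ι} (hi : ¬ Contracted M.p (M.P.D i)) : 0 ≤ M.coefW H ε i := by
  rw [coefW, hH i hi, mul_zero, sub_zero]
  by_cases hs : ∃ j, i = M.strict j
  · obtain ⟨j, rfl⟩ := hs
    have h1 : max (M.G (M.strict j)) 0 * (M.mult (M.strict j) j : ℝ) ≤
        ∑ j', max (M.G (M.strict j')) 0 * (M.mult (M.strict j) j' : ℝ) := by
      apply Finset.single_le_sum
        (f := fun j' => max (M.G (M.strict j')) 0 * (M.mult (M.strict j) j' : ℝ))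
      · intro j' _
        exact mul_nonneg (le_max_right _ _) (Nat.cast_nonneg _)
      · exact Finset.mem_univ j
    rw [M.mult_strict j, Nat.cast_one, mul_one] at h1
    have h2 := le_max_left (M.G (M.strict j)) 0
    linarith
  · have hs' : ∀ j, i ≠ M.strict j := fun j hj => hs ⟨j, hj⟩
    have h1 : ∑ j, max (M.G (M.strict j)) 0 * (M.mult i j : ℝ) = 0 := by
      apply Finset.sum_eq_zero
      intro j _
      rw [M.mult_eq_zero i j hi (hs' j)]
      simp
    rw [h1]
    have := M.G_nonpos hi hs'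
    linarith

variable {M}

/-- the local potentials on `X` -/
noncomputable def vX (κX k : LocPot A.X) (hX : A.X → ℝ) (m : A.J → ℝ) (ε : ℝ) (x y : A.X) : ℝ :=
  κX.pot x y + A.β.pot x y + ε * k.pot x y + hX y + ∑ j, m j * Real.log ‖A.supp.eq j x y‖

/-- near a point outside the image of the exceptional locus -/
theorem psh_on_X_aux {κX k : LocPot A.X} {H : M.ι → ℝ}
    (hH : ∀ i, ¬ Contracted M.p (M.P.D i) → H i = 0) {ε : ℝ} {h : M.W → ℝ}
    {Ψ : LocPot M.W} (hΨ : M.EpsData κX k H ε h Ψ) {hX : A.X → ℝ}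
    (hhX : ∀ w, w ∉ M.Dl → hX (M.p w) = h w) {x : A.X} (hx : x ∉ M.p '' M.exP) :
    PshAt (reguSup M.good
      (vX κX k hX (fun j => max (M.G (M.strict j)) 0) ε x)) x := by
  classical
  obtain ⟨g, hg⟩ := M.exists_isInverse
  obtain ⟨Fh, hFh, h1⟩ := hΨ.local_formula hhX hg hx
  have h2 : ∀ j, ∃ Fu : M.W → ℂ, Hol Fu (g x) ∧ ∀ᶠ w' in 𝓝 (g x), w' ∉ M.Dl →
      (M.p w' ∉ A.supp.D j ∧ Real.log ‖A.supp.eq j (M.p (g x)) (M.p w')‖ =
        ∑ i, (M.mult i j : ℝ) * Real.log ‖M.P.eq i (g x) w'‖ + (Fu w').re) :=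
    fun j => M.log_pullback j (g x)
  choose Fu hFu h3 using h2
  set w := g x with hw
  set a : M.ι → ℝ := fun i => if Contracted M.p (M.P.D i) then 0 else M.coefW H ε i with ha
  set ρ : M.W → ℝ := fun w' => ∑ i, (M.coefW H ε i - a i) * Real.log ‖M.P.eq i w w'‖ +
    ∑ j, max (M.G (M.strict j)) 0 * (Fu j w').re - (Fh w').re with hρ
  set ψ : M.W → ℝ := fun w' => Ψ.pot w w' + ρ w' with hψ
  have ha0 : ∀ i, 0 ≤ a i := by
    intro i
    by_cases hi : Contracted M.p (M.P.D i)
    · simp [ha, hi]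
    · simp only [ha, hi, if_false]
      exact M.coefW_nonneg hH hi
  have hρPH : PHAt ρ w := by
    apply PHAt.sub
    · apply PHAt.add
      · apply PHAt.sum
        intro i _
        by_cases hi : Contracted M.p (M.P.D i)
        · apply PHAt.const_mul
          apply phAt_log M.manifoldW (M.P.hol i w)
          intro h0
          exact hg.not_exP x hx (mem_iUnion₂.2 ⟨i, hi, (M.P.eq_zero_iff i w).2 h0⟩)
        · apply (phAt_const 0 w).congr
          filter_upwards with w'
          simp [ha, hi]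
      · apply PHAt.sum
        intro j _
        exact PHAt.const_mul _ ⟨Fu j, hFu j, EventuallyEq.rfl⟩
    · exact ⟨Fh, hFh, EventuallyEq.rfl⟩
  have hψpsh : PshAt (fun w' => (ψ w' : EReal)) w :=
    (hΨ.psh w).add_ph_real M.manifoldW hρPH (Eventually.of_forall fun _ => rfl)
  have hψc : ∀ᶠ w' in 𝓝 w, ContinuousAt ψ w' := by
    filter_upwards [Ψ.cont w, hρPH.eventually_continuousAt M.isComplexSpace_W] with w' e1 e2
    exact e1.add e2
  have hQ : PshAt (QL ψ a (fun i => M.P.eq i w)) w :=
    pshAt_QL M.manifoldW hψpsh hψc ha0 (fun i => M.P.hol i w)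
  have hQc : ∀ᶠ w' in 𝓝 w, ContinuousAt (QL ψ a (fun i => M.P.eq i w)) w' := by
    filter_upwards [hψc.eventually_nhds, eventually_all.2 (fun i => M.P.hol_eventually i w)]
      with w' e1 e2
    exact continuousAt_QL M.manifoldW e1 ha0 e2
  -- the value on `good`
  have hgc := (hg.hol x hx).1
  have hval : ∀ᶠ y in 𝓝 x, y ∈ M.good →
      ((vX κX k hX (fun j => max (M.G (M.strict j)) 0) ε x y : ℝ) : EReal) =
        QL ψ a (fun i => M.P.eq i w) (g y) := by
    have e1 := hgc.eventually (eventually_all.2 h3)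
    have e2 := hgc.eventually (M.eventually_eq_ne_zero w)
    filter_upwards [h1, e1, e2, hg.eventually_not hx] with y f1 f2 f3 f4 hy
    have hgy := hg.g_good y hy
    have hne : ¬ ∃ i, a i ≠ 0 ∧ M.P.eq i w (g y) = 0 := by
      rintro ⟨i, _, hi⟩
      exact f3 hgy i hi
    rw [QL, if_neg hne, vX, f1 hy]
    congr 1
    have hj : ∀ j, Real.log ‖A.supp.eq j x y‖ =
        ∑ i, (M.mult i j : ℝ) * Real.log ‖M.P.eq i w (g y)‖ + (Fu j (g y)).re := by
      intro j
      have := (f2 j hgy).2
      rwa [hw, hg.p_g x hx, hg.p_g y f4] at this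
    simp only [hj, hψ, hρ]
    simp only [mul_add, Finset.sum_add_distrib]
    have hswap : ∑ j, max (M.G (M.strict j)) 0 *
        ∑ i, (M.mult i j : ℝ) * Real.log ‖M.P.eq i w (g y)‖ =
        ∑ i, (∑ j, max (M.G (M.strict j)) 0 * (M.mult i j : ℝ)) *
          Real.log ‖M.P.eq i w (g y)‖ := by
      simp only [Finset.mul_sum, Finset.sum_mul]
      rw [Finset.sum_comm]
      apply Finset.sum_congr rfl
      intro i _
      apply Finset.sum_congr rfl
      intro j _
      ring
    rw [hswap]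
    have hsum : ∑ i, (M.coefW H ε i - a i) * Real.log ‖M.P.eq i w (g y)‖ +
        ∑ i, a i * Real.log ‖M.P.eq i w (g y)‖ =
        ∑ i, (∑ j, max (M.G (M.strict j)) 0 * (M.mult i j : ℝ)) *
          Real.log ‖M.P.eq i w (g y)‖ - ∑ i, (M.G i - ε * H i) *
            Real.log ‖M.P.eq i w (g y)‖ := by
      rw [← Finset.sum_add_distrib, ← Finset.sum_sub_distrib]
      apply Finset.sum_congr rfl
      intro i _
      rw [coefW]
      ring
    linarith
  have hreg : reguSup M.good (vX κX k hX (fun j => max (M.G (M.strict j)) 0) ε x) =ᶠ[𝓝 x]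
      fun y => QL ψ a (fun i => M.P.eq i w) (g y) := by
    filter_upwards [hval.eventually_nhds, hgc.eventually hQc, hg.eventually_not hx]
      with y e1 e2 e3
    apply reguSup_eq_of_tendsto (M.dense_good y)
    have e4 : Tendsto (fun y' => QL ψ a (fun i => M.P.eq i w) (g y')) (𝓝[M.good] y)
        (𝓝 (QL ψ a (fun i => M.P.eq i w) (g y))) :=
      (ContinuousAt.comp (f := g) e2 (hg.hol y e3).1).mono_left nhdsWithin_le_nhds
    apply e4.congr'
    have e5 : ∀ᶠ y' in 𝓝[M.good] y, y' ∈ M.good := self_mem_nhdsWithin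
    filter_upwards [nhdsWithin_le_nhds e1, e5] with y' f1 f2
    exact (f1 f2).symm
  have hcomp : PshAt (fun y => QL ψ a (fun i => M.P.eq i w) (g y)) x := by
    apply PshAt.comp (f := g) hQ
    filter_upwards [hg.eventually_not hx] with y hy
    exact hg.hol y hy
  exact hcomp.congr hreg.symm

variable (M)

/-- On `X`: the function `h`, considered as a function on `X`, is `(K_X + β + ε k + C)`-psh where
`C = ∑_j max (G_(strict j)) 0 [D_j]`. -/
theorem psh_on_X {κX k : LocPot A.X} {H : M.ι → ℝ} (hH0 : ∀ i, 0 ≤ H i)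
    (hH : ∀ i, ¬ Contracted M.p (M.P.D i) → H i = 0) {ε : ℝ} (hε : 0 < ε) {h : M.W → ℝ}
    {Ψ : LocPot M.W} (hΨ : M.EpsData κX k H ε h Ψ) {hX : A.X → ℝ}
    (hhX : ∀ w, w ∉ M.Dl → hX (M.p w) = h w) :
    ContinuousOn hX M.good ∧ ∀ x, PshAt (reguSup M.good (fun y => κX.pot x y + A.β.pot x y +
      ε * k.pot x y + hX y +
      ∑ j, max (M.G (M.strict j)) 0 * Real.log ‖A.supp.eq j x y‖)) x := by
  have hcont := hΨ.continuousOn hhX
  refine ⟨hcont, fun x₀ => ?_⟩
  set m : A.J → ℝ := fun j => max (M.G (M.strict j)) 0 with hm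
  change PshAt (reguSup M.good (vX κX k hX m ε x₀)) x₀
  have hne : ∀ x : A.X, ∀ᶠ y in 𝓝 x, y ∈ M.good → ∀ j, A.supp.eq j x y ≠ 0 := by
    intro x
    filter_upwards [eventually_all.2 (fun j => A.supp.mem_iff j x)] with y e1 e2 j e3
    exact M.disjoint_good j e2 ((e1 j).2 e3)
  apply psh_extension_manifold A.isManifold M.isClosed_image_exP M.thin_image ?_ M.isOpen_good
    M.dense_good
  · filter_upwards [κX.cont x₀, A.β.cont x₀, k.cont x₀, hne x₀,
      eventually_all.2 (fun j => A.supp.hol_eventually j x₀)] with y e1 e2 e3 e4 e5 hy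
    have e6 : ContinuousAt hX y := hcont.continuousAt (M.isOpen_good.mem_nhds hy)
    have e7 : ContinuousAt (fun y => ∑ j, m j * Real.log ‖A.supp.eq j x₀ y‖) y := by
      apply tendsto_finsetSum
      intro j _
      exact continuousAt_const.mul (continuousAt_log_norm A.isManifold (e5 j) (e4 hy j))
    exact (((e1.add e2).add (continuousAt_const.mul e3)).add e6).add e7
  · filter_upwards [κX.compat x₀, A.β.compat x₀, k.compat x₀,
      eventually_all.2 (fun j => A.supp.compat j x₀)] with x e1 e2 e3 e4 hx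
    have hmain := psh_on_X_aux hH hΨ hhX hx
    choose u hu hu0 hue using e4
    set D : A.X → ℝ := fun y => (κX.pot x₀ y - κX.pot x y) + (A.β.pot x₀ y - A.β.pot x y) +
      ε * (k.pot x₀ y - k.pot x y) + ∑ j, m j * Real.log ‖u j y‖ with hD
    have hDPH : PHAt D x := by
      apply PHAt.add
      · exact (e1.add e2).add (e3.const_mul ε)
      · apply PHAt.sum
        intro j _
        exact PHAt.const_mul _ (phAt_log A.isManifold (hu j) (hu0 j))
    have hval : ∀ᶠ y in 𝓝 x, y ∈ M.good →
        vX κX k hX m ε x₀ y = vX κX k hX m ε x y + D y := by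
      filter_upwards [eventually_all.2 hue, hne x, eventually_all.2
        (fun j => (Hol.continuousAt A.isManifold.isComplexSpace (hu j)).eventually_ne (hu0 j))]
        with y f1 f2 f3 hy
      have hj : ∀ j, Real.log ‖A.supp.eq j x₀ y‖ =
          Real.log ‖u j y‖ + Real.log ‖A.supp.eq j x y‖ := by
        intro j
        rw [f1 j, norm_mul, Real.log_mul (norm_ne_zero_iff.2 (f3 j))
          (norm_ne_zero_iff.2 (f2 hy j))]
      simp only [vX, hD, hj, mul_add, Finset.sum_add_distrib]
      ring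
    have hreg : reguSup M.good (vX κX k hX m ε x₀) =ᶠ[𝓝 x]
        fun y => reguSup M.good (vX κX k hX m ε x) y + D y := by
      have f1 : reguSup M.good (vX κX k hX m ε x₀) =ᶠ[𝓝 x]
          reguSup M.good (fun y => vX κX k hX m ε x y + D y) := by
        filter_upwards [hval.eventually_nhds] with y f2
        exact reguSup_congr f2
      exact f1.trans (reguSup_add' M.dense_good
        (hDPH.eventually_continuousAt A.isManifold.isComplexSpace))
    exact (hmain.add_ph A.isManifold hDPH).congr hreg.symm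
  · intro y hy
    obtain ⟨g, hg⟩ := M.exists_isInverse
    exact hg.good_not y hy

end WeakLogTerminalModel

end Pool.Agent.helper90.KMMP
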